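import Pool.Agent.Helper49.PC.StC

/-!
# Project PC, module PCE: one piece of the bilinear sum
-/

set_option autoImplicit false

namespace Pool.Agent.Helper49.PC

open Finset ArithmeticFunction

theorem conv_PCE {q : ℕ} (X N : ℕ) (hN : N ≤ X) (P : ℕ → Prop)
    [DecidablePred P] (hP : ∀ n, P n → n ≤ N) (f : ℕ → ℂ) (χ : DirichletCharacter ℂ q) :
    ∑ k ∈ (Ioc 0 X).filter P, f k * χ (k : ZMod q) =
      ∑ n ∈ Ioc 0 N, (if P n then f n else 0) * χ (n : ZMod q) := by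
  rw [Finset.sum_filter]
  have h : ∀ n, (if P n then f n * χ (n : ZMod q) else 0) =
      (if P n then f n else 0) * χ (n : ZMod q) := by
    intro n
    split_ifs
    · rfl
    · rw [zero_mul]
  rw [Finset.sum_congr rfl fun n _ => h n]
  symm
  apply Finset.sum_subset
  · intro n hn
    rw [mem_Ioc] at hn ⊢
    omega
  · intro n hn hn'
    rw [mem_Ioc] at hn hn'
    have h1 : ¬ P n := fun h => hn' ⟨hn.1, hP n h⟩
    rw [if_neg h1, zero_mul]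

theorem logle_PCE (N X : ℕ) (hX : 3 ≤ X) (hN : N ≤ X) :
    0 ≤ Real.log N ∧ Real.log N ≤ Real.log X := by
  constructor
  · exact Real.log_natCast_nonneg N
  · rcases Nat.eq_zero_or_pos N with h | h
    · rw [h, Nat.cast_zero, Real.log_zero]
      exact Real.log_natCast_nonneg X
    · exact Real.log_le_log (by exact_mod_cast h) (by exact_mod_cast hN)

theorem mom2_PCE (h1 : StMSQ) (h4 : StDVK) (q : ℕ) [NeZero q] (X N : ℕ) (F : ℕ → ℂ) (T : ℝ)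
    (hX : 3 ≤ X) (hN : N ≤ X) (hq : q ≤ N) (hT : 0 ≤ T)
    (hF : ∀ n, ‖F n‖ ≤ T * (n.divisors.card : ℝ)) :
    ∑ χ : DirichletCharacter ℂ q, ‖∑ n ∈ Ioc 0 N, F n * χ (n : ZMod q)‖ ^ 2 ≤
      (2 * T * N * (1 + Real.log X) ^ 2) ^ 2 := by
  have h := h1 q 0 N F
  rw [zero_add] at h
  have h5 : ∑ n ∈ Ioc 0 N, ‖F n‖ ^ 2 ≤ T ^ 2 * (N * (1 + Real.log N) ^ 3) := by
    have h6 := h4 2 N
    have h7 : (2 : ℕ) ^ 2 - 1 = 3 := by norm_num
    rw [h7] at h6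
    calc ∑ n ∈ Ioc 0 N, ‖F n‖ ^ 2 ≤ ∑ n ∈ Ioc 0 N, T ^ 2 * (n.divisors.card : ℝ) ^ 2 := by
          refine Finset.sum_le_sum fun n _ => ?_
          have := pow_le_pow_left₀ (norm_nonneg _) (hF n) 2
          rw [mul_pow] at this
          exact this
      _ = T ^ 2 * ∑ n ∈ Ioc 0 N, (n.divisors.card : ℝ) ^ 2 := by rw [Finset.mul_sum]
      _ ≤ T ^ 2 * (N * (1 + Real.log N) ^ 3) := by
          exact mul_le_mul_of_nonneg_left h6 (sq_nonneg _)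
  obtain ⟨l0, l1⟩ := logle_PCE N X hX hN
  set L : ℝ := 1 + Real.log X with hL
  have hL1 : 1 ≤ L := by
    have := Real.log_natCast_nonneg X
    linarith
  have h8 : (1 + Real.log N) ^ 3 ≤ L ^ 3 := pow_le_pow_left₀ (by linarith) (by linarith) 3
  have h9 : L ^ 3 ≤ L ^ 4 := pow_le_pow_right₀ hL1 (by norm_num)
  have hN0 : (0 : ℝ) ≤ N := Nat.cast_nonneg N
  have hqN : (q : ℝ) ≤ N := by exact_mod_cast hq
  calc ∑ χ : DirichletCharacter ℂ q, ‖∑ n ∈ Ioc 0 N, F n * χ (n : ZMod q)‖ ^ 2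
      ≤ (N + q) * ∑ n ∈ Ioc 0 N, ‖F n‖ ^ 2 := h
    _ ≤ (N + N) * (T ^ 2 * (N * L ^ 4)) := by
        apply mul_le_mul (by linarith) _ (Finset.sum_nonneg fun _ _ => sq_nonneg _)
          (by linarith)
        refine h5.trans ?_
        apply mul_le_mul_of_nonneg_left _ (sq_nonneg _)
        apply mul_le_mul_of_nonneg_left _ hN0
        linarith
    _ ≤ (2 * T * N * L ^ 2) ^ 2 := by
        have : 0 ≤ T ^ 2 * N ^ 2 * L ^ 4 := by positivity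
        nlinarith [this]

theorem mom4_PCE (h2 : StFOU) (q : ℕ) [NeZero q] (X N : ℕ) (F : ℕ → ℂ) (T : ℝ)
    (hX : 3 ≤ X) (hN : N ≤ X) (hq : q ≤ N ^ 2) (hT : 0 ≤ T)
    (hF : ∀ n, ‖F n‖ ≤ T * (n.divisors.card : ℝ)) :
    ∑ χ : DirichletCharacter ℂ q, ‖∑ n ∈ Ioc 0 N, F n * χ (n : ZMod q)‖ ^ 4 ≤
      (2 ^ 16 * T * N * (1 + Real.log X) ^ 16) ^ 4 := by
  have h := h2 q F T N hT hF
  obtain ⟨l0, l1⟩ := logle_PCE N X hX hN
  set L : ℝ := 1 + Real.log X with hL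
  have hL1 : 1 ≤ L := by
    have := Real.log_natCast_nonneg X
    linarith
  have h8 : (1 + 2 * Real.log N) ^ 63 ≤ (2 * L) ^ 63 :=
    pow_le_pow_left₀ (by linarith) (by linarith) 63
  have h9 : L ^ 63 ≤ L ^ 64 := pow_le_pow_right₀ hL1 (by norm_num)
  have hN0 : (0 : ℝ) ≤ N := Nat.cast_nonneg N
  have hqN : (q : ℝ) ≤ (N : ℝ) ^ 2 := by exact_mod_cast hq
  calc ∑ χ : DirichletCharacter ℂ q, ‖∑ n ∈ Ioc 0 N, F n * χ (n : ZMod q)‖ ^ 4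
      ≤ T ^ 4 * ((N : ℝ) ^ 2 + q) * N ^ 2 * (1 + 2 * Real.log N) ^ 63 := h
    _ ≤ T ^ 4 * ((N : ℝ) ^ 2 + (N : ℝ) ^ 2) * N ^ 2 * (2 * L) ^ 63 := by
        apply mul_le_mul _ h8 (by positivity) (by positivity)
        apply mul_le_mul_of_nonneg_right _ (sq_nonneg _)
        apply mul_le_mul_of_nonneg_left _ (by positivity)
        linarith
    _ = 2 ^ 64 * T ^ 4 * N ^ 4 * L ^ 63 := by ring
    _ ≤ 2 ^ 64 * T ^ 4 * N ^ 4 * L ^ 64 := by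
        have h10 : 0 ≤ T ^ 4 * (N : ℝ) ^ 4 := by positivity
        have h11 : 0 ≤ (2 : ℝ) ^ 64 := pow_nonneg (by norm_num) 64
        have h12 := mul_le_mul_of_nonneg_left (mul_le_mul_of_nonneg_left h9 h10) h11
        refine le_trans (le_of_eq ?_) (h12.trans (le_of_eq ?_))
        · ring
        · ring
    _ = (2 ^ 16 * T * N * L ^ 16) ^ 4 := by ring

theorem core_PCE (h1 : StMSQ) (h2 : StFOU) (h3 : StHOL) (h4 : StDVK) (q : ℕ) [NeZero q]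
    (X N N' : ℕ) (F F' : ℕ → ℂ) (T V Y : ℝ) (G : Finset (DirichletCharacter ℂ q))
    (S : DirichletCharacter ℂ q → ℝ) (hX : 3 ≤ X) (hN : N ≤ X) (hN' : N' ≤ X) (hq : q ≤ N)
    (hq' : q ≤ N' ^ 2) (hNN : (N : ℝ) * N' ≤ 2 * X) (hT : 0 ≤ T)
    (hF : ∀ n, ‖F n‖ ≤ T * (n.divisors.card : ℝ)) (hF' : ∀ n, ‖F' n‖ ≤ T * (n.divisors.card : ℝ))
    (hV : 0 ≤ V) (hS : ∀ χ ∈ G, 0 ≤ S χ ∧ S χ ≤ V) (hY : ∑ χ ∈ G, S χ ^ 2 ≤ Y) :
    ∑ χ ∈ G, S χ * ‖∑ n ∈ Ioc 0 N, F n * χ (n : ZMod q)‖ *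
      ‖∑ n ∈ Ioc 0 N', F' n * χ (n : ZMod q)‖ ≤
      2 ^ 18 * T ^ 2 * X * (1 + Real.log X) ^ 18 * √(√(V ^ 2 * Y)) := by
  have h := h3 (DirichletCharacter ℂ q) G S
    (fun χ => ‖∑ n ∈ Ioc 0 N, F n * χ (n : ZMod q)‖)
    (fun χ => ‖∑ n ∈ Ioc 0 N', F' n * χ (n : ZMod q)‖) V hV hS
    (fun χ _ => norm_nonneg _) (fun χ _ => norm_nonneg _)
  refine h.trans ?_
  set L : ℝ := 1 + Real.log X with hL
  have hL1 : 1 ≤ L := by
    have := Real.log_natCast_nonneg X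
    linarith
  have hN0 : (0 : ℝ) ≤ N := Nat.cast_nonneg N
  have hN0' : (0 : ℝ) ≤ N' := Nat.cast_nonneg N'
  have e1 : √(∑ χ ∈ G, ‖∑ n ∈ Ioc 0 N, F n * χ (n : ZMod q)‖ ^ 2) ≤ 2 * T * N * L ^ 2 := by
    have hp : 0 ≤ 2 * T * N * L ^ 2 := by positivity
    refine Real.sqrt_le_iff.2 ⟨hp, ?_⟩
    refine (Finset.sum_le_sum_of_subset_of_nonneg (Finset.subset_univ G)
      fun _ _ _ => sq_nonneg _).trans ?_
    exact mom2_PCE h1 h4 q X N F T hX hN hq hT hF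
  have e2 : √(√(V ^ 2 * ∑ χ ∈ G, S χ ^ 2)) ≤ √(√(V ^ 2 * Y)) := by
    apply Real.sqrt_le_sqrt
    apply Real.sqrt_le_sqrt
    exact mul_le_mul_of_nonneg_left hY (sq_nonneg _)
  have e3 : √(√(∑ χ ∈ G, ‖∑ n ∈ Ioc 0 N', F' n * χ (n : ZMod q)‖ ^ 4)) ≤
      2 ^ 16 * T * N' * L ^ 16 := by
    have hp : 0 ≤ 2 ^ 16 * T * N' * L ^ 16 := by positivity
    refine Real.sqrt_le_iff.2 ⟨hp, Real.sqrt_le_iff.2 ⟨sq_nonneg _, ?_⟩⟩
    refine (Finset.sum_le_sum_of_subset_of_nonneg (Finset.subset_univ G)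
      fun i _ _ => pow_nonneg (norm_nonneg _) 4).trans ?_
    refine (mom4_PCE h2 q X N' F' T hX hN' hq' hT hF').trans (le_of_eq ?_)
    rw [← hL, ← pow_mul]
  calc √(∑ χ ∈ G, ‖∑ n ∈ Ioc 0 N, F n * χ (n : ZMod q)‖ ^ 2) *
        √(√(V ^ 2 * ∑ χ ∈ G, S χ ^ 2)) *
        √(√(∑ χ ∈ G, ‖∑ n ∈ Ioc 0 N', F' n * χ (n : ZMod q)‖ ^ 4))
      ≤ (2 * T * N * L ^ 2) * √(√(V ^ 2 * Y)) * (2 ^ 16 * T * N' * L ^ 16) := by
        apply mul_le_mul _ e3 (Real.sqrt_nonneg _) (by positivity)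
        exact mul_le_mul e1 e2 (Real.sqrt_nonneg _) (by positivity)
    _ = 2 ^ 17 * T ^ 2 * L ^ 18 * √(√(V ^ 2 * Y)) * (N * N') := by ring
    _ ≤ 2 ^ 17 * T ^ 2 * L ^ 18 * √(√(V ^ 2 * Y)) * (2 * X) :=
        mul_le_mul_of_nonneg_left hNN (by positivity)
    _ = 2 ^ 18 * T ^ 2 * X * L ^ 18 * √(√(V ^ 2 * Y)) := by ring

theorem hPCE (h1 : StMSQ) (h2 : StFOU) (h3 : StHOL) (h4 : StDVK) : StPCE := by
  refine ⟨2 ^ 18, by norm_num, ?_⟩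
  intro q _ X U α β T K K' y₀ V Y G S hX hq hU hT hα hβ hK hK' hK2 hV hS hY
  obtain ⟨NA, hNA⟩ : ∃ NA : ℕ, NA = min X ⌊2 * K⌋₊ := ⟨_, rfl⟩
  obtain ⟨NB, hNB⟩ : ∃ NB : ℕ, NB = ⌊(X : ℝ) / K⌋₊ := ⟨_, rfl⟩
  have hK0 : 0 < K := by linarith
  have hX0 : (0 : ℝ) ≤ X := Nat.cast_nonneg X
  have hNAX : NA ≤ X := by
    rw [hNA]
    exact min_le_left _ _
  have hNA2 : (NA : ℝ) ≤ 2 * K := by
    have h5 : NA ≤ ⌊2 * K⌋₊ := by
      rw [hNA]
      exact min_le_right _ _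
    exact (Nat.cast_le.2 h5).trans (Nat.floor_le (by linarith))
  have hNB2 : (NB : ℝ) ≤ X / K := by
    rw [hNB]
    exact Nat.floor_le (by positivity)
  have hNBX : NB ≤ X := by
    have h5 : (NB : ℝ) ≤ X := hNB2.trans (div_le_self hX0 hK)
    exact_mod_cast h5
  have hNN : (NA : ℝ) * NB ≤ 2 * X := by
    calc (NA : ℝ) * NB ≤ 2 * K * (X / K) :=
          mul_le_mul hNA2 hNB2 (Nat.cast_nonneg _) (by linarith)
      _ = 2 * X := by field_simp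
  -- the two functions
  have hPA : ∀ k : ℕ, (K < (k : ℝ) ∧ (k : ℝ) ≤ K') → k ≤ ⌊2 * K⌋₊ := by
    intro k hk
    exact Nat.le_floor (hk.2.trans hK2)
  have hPB : ∀ l : ℕ, (y₀ < (l : ℝ) ∧ (l : ℝ) * K' ≤ X) → l ≤ NB := by
    intro l hl
    rw [hNB]
    apply Nat.le_floor
    rw [le_div_iff₀ hK0]
    exact (mul_le_mul_of_nonneg_left hK' (Nat.cast_nonneg _)).trans hl.2
  have cA : ∀ χ : DirichletCharacter ℂ q,
      ∑ k ∈ (Ioc 0 X).filter (fun k : ℕ => K < (k : ℝ) ∧ (k : ℝ) ≤ K'),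
      ((α k : ℝ) : ℂ) * χ (k : ZMod q) = ∑ n ∈ Ioc 0 NA,
      (if K < (n : ℝ) ∧ (n : ℝ) ≤ K' then ((α n : ℝ) : ℂ) else 0) * χ (n : ZMod q) := by
    intro χ
    rcases le_total X ⌊2 * K⌋₊ with hc | hc
    · have hNA' : NA = X := by rw [hNA, min_eq_left hc]
      rw [hNA', Finset.sum_filter]
      refine Finset.sum_congr rfl fun n _ => ?_
      split_ifs
      · rfl
      · rw [zero_mul]
    · have hNA' : NA = ⌊2 * K⌋₊ := by rw [hNA, min_eq_right hc]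
      rw [hNA']
      exact conv_PCE X _ hc (fun k : ℕ => K < (k : ℝ) ∧ (k : ℝ) ≤ K') hPA
        (fun k => ((α k : ℝ) : ℂ)) χ
  have cB : ∀ χ : DirichletCharacter ℂ q,
      ∑ l ∈ (Ioc 0 X).filter (fun l : ℕ => y₀ < (l : ℝ) ∧ (l : ℝ) * K' ≤ X),
      ((β l : ℝ) : ℂ) * χ (l : ZMod q) = ∑ n ∈ Ioc 0 NB,
      (if y₀ < (n : ℝ) ∧ (n : ℝ) * K' ≤ X then ((β n : ℝ) : ℂ) else 0) * χ (n : ZMod q) := by
    intro χ
    exact conv_PCE X _ hNBX (fun l : ℕ => y₀ < (l : ℝ) ∧ (l : ℝ) * K' ≤ X) hPB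
      (fun k => ((β k : ℝ) : ℂ)) χ
  have bA : ∀ n : ℕ, ‖(if K < (n : ℝ) ∧ (n : ℝ) ≤ K' then ((α n : ℝ) : ℂ) else 0)‖ ≤
      T * (n.divisors.card : ℝ) := by
    intro n
    split_ifs
    · rw [Complex.norm_real, Real.norm_eq_abs]
      exact hα.1 n
    · rw [norm_zero]
      positivity
  have bB : ∀ n : ℕ, ‖(if y₀ < (n : ℝ) ∧ (n : ℝ) * K' ≤ X then ((β n : ℝ) : ℂ) else 0)‖ ≤
      T * (n.divisors.card : ℝ) := by
    intro n
    split_ifs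
    · rw [Complex.norm_real, Real.norm_eq_abs]
      exact hβ.1 n
    · rw [norm_zero]
      positivity
  have hR : 0 ≤ 2 ^ 18 * T ^ 2 * X * (1 + Real.log X) ^ 18 * √(√(V ^ 2 * Y)) := by
    have := Real.log_natCast_nonneg X
    positivity
  rw [Finset.sum_congr rfl fun χ _ => by rw [cA χ, cB χ]]
  -- the empty cases
  by_cases hA : NA ≤ U
  · refine le_trans (le_of_eq ?_) hR
    refine Finset.sum_eq_zero fun χ _ => ?_
    have h0 : ∑ n ∈ Ioc 0 NA,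
      (if K < (n : ℝ) ∧ (n : ℝ) ≤ K' then ((α n : ℝ) : ℂ) else 0) * χ (n : ZMod q) = 0 := by
      refine Finset.sum_eq_zero fun n hn => ?_
      rw [mem_Ioc] at hn
      rw [hα.2 n (by omega)]
      split_ifs
      · rw [Complex.ofReal_zero, zero_mul]
      · rw [zero_mul]
    rw [h0, norm_zero, zero_mul, mul_zero]
  by_cases hB : NB ≤ U
  · refine le_trans (le_of_eq ?_) hR
    refine Finset.sum_eq_zero fun χ _ => ?_
    have h0 : ∑ n ∈ Ioc 0 NB,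
      (if y₀ < (n : ℝ) ∧ (n : ℝ) * K' ≤ X then ((β n : ℝ) : ℂ) else 0) * χ (n : ZMod q) = 0 := by
      refine Finset.sum_eq_zero fun n hn => ?_
      rw [mem_Ioc] at hn
      rw [hβ.2 n (by omega)]
      split_ifs
      · rw [Complex.ofReal_zero, zero_mul]
      · rw [zero_mul]
    rw [h0, norm_zero, mul_zero, mul_zero]
  push Not at hA hB
  have hqA : q ≤ NA ^ 2 := hU.trans (Nat.pow_le_pow_left hA.le 2)
  have hqB : q ≤ NB ^ 2 := hU.trans (Nat.pow_le_pow_left hB.le 2)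
  have hqAB : q ≤ NA ∨ q ≤ NB := by
    by_contra hcon
    push Not at hcon
    obtain ⟨hc1, hc2⟩ := hcon
    have hq1 : 1 ≤ q := NeZero.one_le
    have hqX : q ≤ X := le_trans (by nlinarith) hq
    have h5 : ⌊2 * K⌋₊ < q := by
      rcases le_total X ⌊2 * K⌋₊ with hc | hc
      · rw [hNA, min_eq_left hc] at hc1
        omega
      · rw [hNA, min_eq_right hc] at hc1
        exact hc1
    have h6 : 2 * K < q := by
      have := Nat.lt_floor_add_one (2 * K)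
      have h7 : ((⌊2 * K⌋₊ : ℕ) : ℝ) + 1 ≤ q := by exact_mod_cast h5
      linarith
    have h8 : (X : ℝ) / K < q := by
      have := Nat.lt_floor_add_one ((X : ℝ) / K)
      rw [hNB] at hc2
      have h7 : ((⌊(X : ℝ) / K⌋₊ : ℕ) : ℝ) + 1 ≤ q := by exact_mod_cast hc2
      linarith
    rw [div_lt_iff₀ hK0] at h8
    have h9 : ((q : ℝ)) ^ 2 ≤ X := by exact_mod_cast hq
    have hq0 : (0 : ℝ) < q := by exact_mod_cast hq1
    nlinarith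
  rcases hqAB with hc | hc
  · have h := core_PCE h1 h2 h3 h4 q X NA NB _ _ T V Y G S hX hNAX hNBX hc hqB hNN hT bA bB hV
      hS hY
    refine le_trans (le_of_eq ?_) h
    refine Finset.sum_congr rfl fun χ _ => ?_
    rw [mul_assoc]
  · have h := core_PCE h1 h2 h3 h4 q X NB NA _ _ T V Y G S hX hNBX hNAX hc hqA
      (by rw [mul_comm]; exact hNN) hT bB bA hV hS hY
    refine le_trans (le_of_eq ?_) h
    refine Finset.sum_congr rfl fun χ _ => ?_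
    rw [mul_assoc, mul_comm ‖∑ n ∈ Ioc 0 NA, _‖]

end Pool.Agent.Helper49.PC
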