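import Pool.Agent.Helper49.PC.StC
import Pool.Agent.Helper2.MeanValueFamily

/-! # Module VAC: Vaughan's identity for `Psi` -/

set_option autoImplicit false

namespace Pool.Agent.Helper49.PC

open Finset ArithmeticFunction
open Pool.Agent.Helper2 (lo hi mob zet vaughan sum_conv lo_apply hi_apply abs_mob_le zet_apply
  lo_mul_lo_eq_zero abs_lo_mul_lo_le hi_mob_zet_eq_zero abs_hi_mob_zet_le)

/-- the character on the window -/
private noncomputable def GG_VAC {q : ℕ} (χ : DirichletCharacter ℂ q) (w₀ w₁ n : ℕ) : ℂ :=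
  if w₀ < n ∧ n ≤ w₁ then χ (n : ZMod q) else 0

private theorem inner_VAC {q : ℕ} (χ : DirichletCharacter ℂ q) (X w₀ w₁ a : ℕ) (ha : 1 ≤ a)
    (hw : w₁ ≤ X) (f : ℕ → ℂ) :
    ∑ b ∈ Ioc 0 X, f b * GG_VAC χ w₀ w₁ (a * b) =
      χ (a : ZMod q) * ∑ b ∈ Ioc (w₀ / a) (w₁ / a), f b * χ (b : ZMod q) := by
  have hs : (Ioc 0 X).filter (fun b => w₀ < a * b ∧ a * b ≤ w₁) = Ioc (w₀ / a) (w₁ / a) := by
    ext b
    simp only [mem_filter, mem_Ioc]
    constructor
    · rintro ⟨⟨h1, _⟩, h3, h4⟩
      exact ⟨(Nat.div_lt_iff_lt_mul ha).2 (by rwa [mul_comm]),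
        (Nat.le_div_iff_mul_le ha).2 (by rwa [mul_comm])⟩
    · rintro ⟨h1, h2⟩
      have h3 := (Nat.le_div_iff_mul_le ha).1 h2
      have h4 := (Nat.div_lt_iff_lt_mul ha).1 h1
      exact ⟨⟨lt_of_le_of_lt (Nat.zero_le _) h1, (h2.trans (Nat.div_le_self _ _)).trans hw⟩,
        by rwa [mul_comm], by rwa [mul_comm]⟩
  rw [← hs, sum_filter, Finset.mul_sum]
  refine Finset.sum_congr rfl fun b _ => ?_
  unfold GG_VAC
  split_ifs with h
  · rw [Nat.cast_mul, map_mul]
    ring
  · simp

private theorem bil_VAC {q : ℕ} (χ : DirichletCharacter ℂ q) (α β : ℕ → ℝ) (X w₀ w₁ : ℕ) :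
    Bil χ α β X w₀ w₁ = ∑ a ∈ Ioc 0 X, ∑ b ∈ Ioc 0 X,
      (α a : ℂ) * (β b : ℂ) * GG_VAC χ w₀ w₁ (a * b) := by
  unfold Bil
  refine Finset.sum_congr rfl fun a _ => Finset.sum_congr rfl fun b _ => ?_
  unfold GG_VAC
  split_ifs with h
  · rw [Nat.cast_mul, map_mul]
    push_cast
    ring
  · simp

theorem hVAC (h1 : StSMT) : StVAC := by
  intro q _ X U U₀ w₀ w₁ hX hU₀ hU hU3 hXw hww hwX
  have hL1 : 1 ≤ Real.log X := by
    have h1 : (3 : ℝ) ≤ X := by exact_mod_cast hX
    rw [Real.le_log_iff_exp_le (by linarith)]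
    have := Real.exp_one_lt_d9
    linarith
  have hU64 : 64 ≤ U := by omega
  have hUw : U ≤ w₀ := by nlinarith [Nat.mul_le_mul (Nat.mul_le_mul hU64 hU64) (le_refl U)]
  have hUUX : U * U ≤ X := by nlinarith [Nat.mul_le_mul (le_refl (U * U)) (show 1 ≤ U by omega)]
  have hUX : U ≤ X := by nlinarith
  have hlog : ∀ n : ℕ, n ≤ X → Real.log n ≤ Real.log X := by
    intro n hn
    rcases Nat.eq_zero_or_pos n with h0 | h0
    · rw [h0]
      simp only [Nat.cast_zero, Real.log_zero]
      linarith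
    · exact Real.log_le_log (by exact_mod_cast h0) (by exact_mod_cast hn)
  have hdiv : ∀ n : ℕ, 1 ≤ n → (1 : ℝ) ≤ (n.divisors.card : ℝ) := by
    intro n hn
    exact_mod_cast Finset.card_pos.2 ⟨1, Nat.one_mem_divisors.2 (by omega)⟩
  set c : ArithmeticFunction ℝ := lo vonMangoldt U * lo mob U with hc
  set T2 : ℕ → DirichletCharacter ℂ q → ℂ := fun a χ =>
    (mob a : ℂ) * (χ (a : ZMod q) * ∑ b ∈ Ioc (w₀ / a) (w₁ / a), ((Real.log b : ℝ) : ℂ) *
      χ (b : ZMod q)) with hT2
  set T3 : ℕ → DirichletCharacter ℂ q → ℂ := fun a χ =>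
    (c a : ℂ) * (χ (a : ZMod q) * ∑ b ∈ Ioc (w₀ / a) (w₁ / a), (((1 : ℝ) : ℝ) : ℂ) *
      χ (b : ZMod q)) with hT3
  refine ⟨fun a => if a ≤ U then 0 else c a, fun b => if b ≤ U₀ ∨ X < b then 0 else 1,
    fun a => if X < a then 0 else hi vonMangoldt U a, fun b => (hi mob U * zet) b,
    fun χ => ∑ a ∈ Ioc 0 U, (T2 a χ - T3 a χ), ?_, ?_, ?_, ?_, ?_, ?_⟩
  · -- Cf for c
    refine ⟨fun n => ?_, fun n hn => if_pos (by omega)⟩
    dsimp only
    split_ifs with h
    · rw [abs_zero]
      positivity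
    · by_cases h2 : n ≤ U * U
      · have h3 := (abs_lo_mul_lo_le U n).trans (hlog n (h2.trans hUUX))
        have h4 := hdiv n (by omega)
        nlinarith
      · rw [hc, lo_mul_lo_eq_zero _ _ U n (by omega), abs_zero]
        positivity
  · refine ⟨fun n => ?_, fun n hn => if_pos (Or.inl hn)⟩
    dsimp only
    split_ifs with h
    · rw [abs_zero]
      positivity
    · rw [abs_one]
      have h4 := hdiv n (by omega)
      nlinarith
  · refine ⟨fun n => ?_, fun n hn => ?_⟩
    · dsimp only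
      split_ifs with h
      · rw [abs_zero]
        positivity
      · rw [hi_apply]
        split_ifs with h2
        · rw [abs_zero]
          positivity
        · rw [abs_of_nonneg vonMangoldt_nonneg]
          have h3 : vonMangoldt n ≤ Real.log X := vonMangoldt_le_log.trans (hlog n (by omega))
          have h4 := hdiv n (by omega)
          nlinarith
    · dsimp only
      rw [hi_apply, if_pos (show n ≤ U by omega), ite_self]
  · refine ⟨fun n => ?_, fun n hn => hi_mob_zet_eq_zero U n (by omega)⟩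
    have h3 := abs_hi_mob_zet_le U n
    have h4 : (0 : ℝ) ≤ (n.divisors.card : ℝ) := Nat.cast_nonneg _
    dsimp only
    nlinarith
  · -- mean square of E
    rw [← l2_sq]
    refine pow_le_pow_left₀ (l2_nonneg _ _) ?_ 2
    refine (l2_sum_le _ _ _).trans ?_
    have hterm : ∀ a ∈ Ioc 0 U, l2 ((univ : Finset (DirichletCharacter ℂ q)).filter (· ≠ 1))
        (fun χ => T2 a χ - T3 a χ) ≤ 3 * q * Real.log X := by
      intro a ha
      have ha1 := (mem_Ioc.1 ha).1
      have ha2 := (mem_Ioc.1 ha).2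
      refine (l2_sub_le _ _ _).trans ?_
      have hq0 : (0 : ℝ) ≤ q := Nat.cast_nonneg _
      have e2 : l2 ((univ : Finset (DirichletCharacter ℂ q)).filter (· ≠ 1)) (T2 a) ≤
          q * Real.log X := by
        have g1 := h1 q (fun b => Real.log b) (w₀ / a) (w₁ / a)
          (fun n => Real.log_natCast_nonneg n)
          (fun m n hm hmn => Real.log_le_log (by exact_mod_cast hm) (by exact_mod_cast hmn))
        have g2 : 0 ≤ q * Real.log ((w₁ / a : ℕ) : ℝ) :=
          mul_nonneg hq0 (Real.log_natCast_nonneg _)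
        rw [← l2_le_iff _ _ _ g2] at g1
        have g3 : q * Real.log ((w₁ / a : ℕ) : ℝ) ≤ q * Real.log X :=
          mul_le_mul_of_nonneg_left (hlog _ ((Nat.div_le_self _ _).trans hwX)) hq0
        refine le_trans (l2_mono _ _ _ fun χ _ => ?_) (g1.trans g3)
        rw [hT2]
        dsimp only
        rw [norm_mul, norm_mul, Complex.norm_real, Real.norm_eq_abs]
        have g4 := abs_mob_le a
        have g5 := DirichletCharacter.norm_le_one χ (a : ZMod q)
        have g6 := norm_nonneg (∑ b ∈ Ioc (w₀ / a) (w₁ / a), ((Real.log b : ℝ) : ℂ) *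
          χ (b : ZMod q))
        calc |mob a| * (‖χ (a : ZMod q)‖ * ‖∑ b ∈ Ioc (w₀ / a) (w₁ / a),
              ((Real.log b : ℝ) : ℂ) * χ (b : ZMod q)‖)
            ≤ 1 * (1 * ‖∑ b ∈ Ioc (w₀ / a) (w₁ / a),
              ((Real.log b : ℝ) : ℂ) * χ (b : ZMod q)‖) := by gcongr
          _ = _ := by rw [one_mul, one_mul]
      have e3 : l2 ((univ : Finset (DirichletCharacter ℂ q)).filter (· ≠ 1)) (T3 a) ≤
          Real.log X * q := by
        have g1 := h1 q (fun _ => 1) (w₀ / a) (w₁ / a)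
          (fun n => zero_le_one) (fun m n hm hmn => le_rfl)
        rw [← l2_le_iff _ _ _ (by rw [mul_one]; exact hq0)] at g1
        have hab : |c a| ≤ Real.log X := (abs_lo_mul_lo_le U a).trans (hlog a (ha2.trans hUX))
        rw [hT3, l2_smul, Complex.norm_real, Real.norm_eq_abs]
        refine mul_le_mul hab ?_ (l2_nonneg _ _) (by linarith)
        refine le_trans (l2_mono _ _ _ fun χ _ => ?_) (g1.trans (by rw [mul_one]))
        rw [norm_mul]
        have g5 := DirichletCharacter.norm_le_one χ (a : ZMod q)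
        exact mul_le_of_le_one_left (norm_nonneg _) g5
      nlinarith [mul_nonneg hq0 (show (0 : ℝ) ≤ Real.log X by linarith)]
    refine (Finset.sum_le_sum hterm).trans (le_of_eq ?_)
    rw [Finset.sum_const, nsmul_eq_mul, Nat.card_Ioc, Nat.sub_zero]
    ring
  · intro χ
    have hG0 : ∀ n, X < n → GG_VAC χ w₀ w₁ n = 0 := by
      intro n hn
      unfold GG_VAC
      rw [if_neg (by omega)]
    have e0 : Psi χ w₀ w₁ = ∑ n ∈ Ioc 0 X, ((vonMangoldt n : ℝ) : ℂ) * GG_VAC χ w₀ w₁ n := by
      unfold Psi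
      have hs : (Ioc 0 X).filter (fun n => w₀ < n ∧ n ≤ w₁) = Ioc w₀ w₁ := by
        ext n
        simp only [mem_filter, mem_Ioc]
        omega
      rw [← hs, sum_filter]
      refine Finset.sum_congr rfl fun n _ => ?_
      unfold GG_VAC
      split_ifs <;> simp
    have e1 : Psi χ w₀ w₁ = ∑ n ∈ Ioc 0 X, (((lo mob U * log) n : ℝ) : ℂ) * GG_VAC χ w₀ w₁ n -
        ∑ n ∈ Ioc 0 X, (((c * zet) n : ℝ) : ℂ) * GG_VAC χ w₀ w₁ n +
        ∑ n ∈ Ioc 0 X, (((hi vonMangoldt U * (hi mob U * zet)) n : ℝ) : ℂ) *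
          GG_VAC χ w₀ w₁ n := by
      rw [e0, ← Finset.sum_sub_distrib, ← Finset.sum_add_distrib]
      refine Finset.sum_congr rfl fun n _ => ?_
      by_cases hn : w₀ < n ∧ n ≤ w₁
      · have h := congrArg (fun f : ArithmeticFunction ℝ => f n) (vaughan U)
        simp only [sub_eq_add_neg, ArithmeticFunction.add_apply,
          ArithmeticFunction.neg_apply] at h
        rw [lo_apply, if_neg (by omega), zero_add] at h
        rw [h, hc]
        push_cast
        ring
      · have h0 : GG_VAC χ w₀ w₁ n = 0 := by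
          unfold GG_VAC
          rw [if_neg hn]
        rw [h0]
        simp
    -- second term
    have f2 : ∑ n ∈ Ioc 0 X, (((lo mob U * log) n : ℝ) : ℂ) * GG_VAC χ w₀ w₁ n =
        ∑ a ∈ Ioc 0 U, T2 a χ := by
      rw [sum_conv _ _ X _ hG0]
      have hsub : Ioc 0 U ⊆ Ioc 0 X := Finset.Ioc_subset_Ioc_right hUX
      rw [← Finset.sum_subset hsub]
      · refine Finset.sum_congr rfl fun a ha => ?_
        have ha1 := (mem_Ioc.1 ha).1
        rw [hT2]
        dsimp only
        rw [← inner_VAC χ X w₀ w₁ a ha1 hwX (fun b => ((Real.log b : ℝ) : ℂ)), Finset.mul_sum]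
        refine Finset.sum_congr rfl fun b _ => ?_
        rw [lo_apply, if_pos (mem_Ioc.1 ha).2, log_apply]
        ring
      · intro a ha ha2
        have h3 : ¬ a ≤ U := fun h => ha2 (mem_Ioc.2 ⟨(mem_Ioc.1 ha).1, h⟩)
        refine Finset.sum_eq_zero fun b _ => ?_
        rw [lo_apply, if_neg h3]
        simp
    have f3 : ∑ n ∈ Ioc 0 X, (((c * zet) n : ℝ) : ℂ) * GG_VAC χ w₀ w₁ n =
        ∑ a ∈ Ioc 0 U, T3 a χ + Bil χ (fun a => if a ≤ U then 0 else c a)
          (fun b => if b ≤ U₀ ∨ X < b then 0 else 1) X w₀ w₁ := by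
      rw [sum_conv _ _ X _ hG0, bil_VAC]
      have hsub : Ioc 0 U ⊆ Ioc 0 X := Finset.Ioc_subset_Ioc_right hUX
      have g1 : ∑ a ∈ Ioc 0 U, T3 a χ = ∑ a ∈ Ioc 0 X, ∑ b ∈ Ioc 0 X,
          (((if a ≤ U then c a else 0 : ℝ)) : ℂ) * ((zet b : ℝ) : ℂ) *
            GG_VAC χ w₀ w₁ (a * b) := by
        rw [← Finset.sum_subset hsub]
        · refine Finset.sum_congr rfl fun a ha => ?_
          have ha1 := (mem_Ioc.1 ha).1
          rw [hT3]
          dsimp only
          rw [← inner_VAC χ X w₀ w₁ a ha1 hwX (fun b => (((1 : ℝ) : ℝ) : ℂ)), Finset.mul_sum]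
          refine Finset.sum_congr rfl fun b hb => ?_
          rw [if_pos (mem_Ioc.1 ha).2, zet_apply (mem_Ioc.1 hb).1]
          ring
        · intro a ha ha2
          have h3 : ¬ a ≤ U := fun h => ha2 (mem_Ioc.2 ⟨(mem_Ioc.1 ha).1, h⟩)
          refine Finset.sum_eq_zero fun b _ => ?_
          rw [if_neg h3]
          simp
      rw [g1, ← Finset.sum_add_distrib]
      refine Finset.sum_congr rfl fun a ha => ?_
      rw [← Finset.sum_add_distrib]
      refine Finset.sum_congr rfl fun b hb => ?_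
      have ha1 := (mem_Ioc.1 ha).1
      have hb1 := (mem_Ioc.1 hb).1
      have hb2 := (mem_Ioc.1 hb).2
      rw [zet_apply hb1]
      by_cases haU : a ≤ U
      · rw [if_pos haU, if_pos haU]
        simp
      · rw [if_neg haU, if_neg haU]
        by_cases hw : w₀ < a * b ∧ a * b ≤ w₁
        · by_cases haUU : a ≤ U * U
          · have hbU : ¬ (b ≤ U₀ ∨ X < b) := by
              rintro (h | h)
              · have g2 : a * b ≤ U * U * U₀ := Nat.mul_le_mul haUU h
                have g3 : U * U * (64 * U₀) ≤ U * U * U := Nat.mul_le_mul_left _ hU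
                have g4 : U * U * U ≤ X := by
                  have : U ^ 3 = U * U * U := by ring
                  omega
                have g5 : U * U * (64 * U₀) = 64 * (U * U * U₀) := by ring
                omega
              · omega
            rw [if_neg hbU]
            simp
          · rw [hc, lo_mul_lo_eq_zero _ _ U a (by omega)]
            simp
        · have h0 : GG_VAC χ w₀ w₁ (a * b) = 0 := by
            unfold GG_VAC
            rw [if_neg hw]
          rw [h0]
          simp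
    have f4 : ∑ n ∈ Ioc 0 X, (((hi vonMangoldt U * (hi mob U * zet)) n : ℝ) : ℂ) *
        GG_VAC χ w₀ w₁ n = Bil χ (fun a => if X < a then 0 else hi vonMangoldt U a)
          (fun b => (hi mob U * zet) b) X w₀ w₁ := by
      rw [sum_conv _ _ X _ hG0, bil_VAC]
      refine Finset.sum_congr rfl fun a ha => Finset.sum_congr rfl fun b _ => ?_
      rw [if_neg (by have := (mem_Ioc.1 ha).2; omega)]
    rw [e1, f2, f3, f4]
    dsimp only
    rw [Finset.sum_sub_distrib]
    have g1 : ∑ a ∈ Ioc 0 U, T2 a χ - (∑ a ∈ Ioc 0 U, T3 a χ +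
        Bil χ (fun a => if a ≤ U then 0 else c a)
          (fun b => if b ≤ U₀ ∨ X < b then 0 else 1) X w₀ w₁) +
        Bil χ (fun a => if X < a then 0 else hi vonMangoldt U a)
          (fun b => (hi mob U * zet) b) X w₀ w₁ =
        ((∑ a ∈ Ioc 0 U, T2 a χ - ∑ a ∈ Ioc 0 U, T3 a χ) -
        Bil χ (fun a => if a ≤ U then 0 else c a)
          (fun b => if b ≤ U₀ ∨ X < b then 0 else 1) X w₀ w₁) +
        Bil χ (fun a => if X < a then 0 else hi vonMangoldt U a)
          (fun b => (hi mob U * zet) b) X w₀ w₁ := by ring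
    rw [g1]
    exact (norm_add_le _ _).trans (add_le_add (norm_sub_le _ _) le_rfl)

end Pool.Agent.Helper49.PC
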