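import Pool.Agent.Helper49.PC.StM2

/-!
# Project PC: E-versions (small pairwise greatest common divisors instead of pairwise coprime)

`EE a b c = gcd(a,b) gcd(a,c) gcd(b,c)`; the hypothesis `PCop a b c` is replaced by
`G1 a b c : gcd(a, b, c) = 1` and one more factor `EE a b c`.
-/

set_option autoImplicit false

namespace Pool.Agent.Helper49.PC

open Finset ArithmeticFunction Classical
open Pool.Agent.Helper48.BK (ex th lz Vz Pz gs nd Apx AdN Sol thd)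
open scoped ComplexConjugate

/-- product of the pairwise greatest common divisors -/
def EE (a b c : ℕ) : ℕ := Nat.gcd a b * Nat.gcd a c * Nat.gcd b c

/-- no common factor of all three -/
def G1 (a b c : ℕ) : Prop := Nat.gcd a (Nat.gcd b c) = 1

/-- RDC: reduction to pairwise coprime divisors.  PROOF: `Nat.factorizationLCMLeft` and
`Nat.factorizationLCMRight`: for positive `a, b` there are coprime `a₁ ∣ a`, `b₁ ∣ b` with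
`a₁ b₁ = lcm a b = a b / gcd a b`.  Apply it to `(a, b)`, then to `(a₁, c)`, giving `(a₂, c₁)`, then
to `(b₁, c₁)`, giving `(b₂, c₂)`: the numbers `a₂ ∣ a`, `b₂ ∣ b`, `c₂ ∣ c` are pairwise coprime
(divisors of coprime numbers) and `a b c = a₂ b₂ c₂ · gcd(a,b) gcd(a₁,c) gcd(b₁,c₁)`, and
`gcd(a₁,c) ≤ gcd(a,c)`, `gcd(b₁,c₁) ≤ gcd(b,c)`. -/
def StRDC : Prop := ∀ a b c : ℕ, 1 ≤ a → 1 ≤ b → 1 ≤ c → ∃ a' b' c' e : ℕ, a' ∣ a ∧ b' ∣ b ∧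
  c' ∣ c ∧ 1 ≤ a' ∧ 1 ≤ b' ∧ 1 ≤ c' ∧ PCop a' b' c' ∧ a * b * c = e * (a' * b' * c') ∧
  1 ≤ e ∧ e ≤ EE a b c

/-- LWE: PROOF: let `a', b', c', e` be as in RDC.  Put
`F j = √(∑_{w < b c, w ≡ j mod b' c'} f w ^ 2)`, a function of period `b' c'` (which divides `b c`)
with `f j ≤ F j` (the residue of `j` modulo `b c` is one of the `w`) and
`∑_{j < b' c'} F j ^ 2 = ∑_{w < b c} f w ^ 2`; similarly `G`, `H`.  Then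
`∑_{j < a b c} f g h ≤ ∑_{j < e a' b' c'} F G H = e ∑_{j < a' b' c'} F G H` and LW for
`a', b', c'`. -/
def StLWE : Prop := ∀ (f g h : ℕ → ℝ) (a b c : ℕ), 1 ≤ a → 1 ≤ b → 1 ≤ c →
  (∀ j, 0 ≤ f j) → (∀ j, 0 ≤ g j) → (∀ j, 0 ≤ h j) →
  (∀ j, f (j + b * c) = f j) → (∀ j, g (j + a * c) = g j) → (∀ j, h (j + a * b) = h j) →
  ∑ j ∈ range (a * b * c), f j * g j * h j ≤
    EE a b c * (√(∑ j ∈ range (b * c), f j ^ 2) * √(∑ j ∈ range (a * c), g j ^ 2) *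
      √(∑ j ∈ range (a * b), h j ^ 2))

/-- WBE: as WB. -/
def StWBE : Prop := ∀ (u v w : ℕ → ℂ) (a b c : ℕ) (d : ℤ) (θ : ℝ), 1 ≤ a → 1 ≤ b → 1 ≤ c →
  (∀ j, u (j + b * c) = u j) → (∀ j, v (j + a * c) = v j) →
  (∀ j, w (j + a * b) = w j) →
  ‖WW u v w a b c d θ‖ ≤
    EE a b c * (l2 (range (b * c)) u * l2 (range (a * c)) v * l2 (range (a * b)) w)

/-- CMPE: as CMP. -/
def StCMPE : Prop := ∀ (u p u' e v q v' f w r w' g : ℕ → ℂ) (a b c : ℕ) (d : ℤ)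
  (θ R₁ R₂ R₃ ε : ℝ), 1 ≤ a → 1 ≤ b → 1 ≤ c → 0 ≤ ε → ε ≤ 1 →
  (∀ j, u (j + b * c) = u j ∧ p (j + b * c) = p j ∧ u' (j + b * c) = u' j ∧
    e (j + b * c) = e j) →
  (∀ j, v (j + a * c) = v j ∧ q (j + a * c) = q j ∧ v' (j + a * c) = v' j ∧
    f (j + a * c) = f j) →
  (∀ j, w (j + a * b) = w j ∧ r (j + a * b) = r j ∧ w' (j + a * b) = w' j ∧
    g (j + a * b) = g j) →
  l2 (range (b * c)) u ≤ R₁ → l2 (range (b * c)) u' ≤ R₁ →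
  l2 (range (b * c)) (fun j => u j - p j) ≤ ε * R₁ →
  l2 (range (b * c)) (fun j => u' j - e j) ≤ ε * R₁ →
  l2 (range (a * c)) v ≤ R₂ → l2 (range (a * c)) v' ≤ R₂ →
  l2 (range (a * c)) (fun j => v j - q j) ≤ ε * R₂ →
  l2 (range (a * c)) (fun j => v' j - f j) ≤ ε * R₂ →
  l2 (range (a * b)) w ≤ R₃ → l2 (range (a * b)) w' ≤ R₃ →
  l2 (range (a * b)) (fun j => w j - r j) ≤ ε * R₃ →
  l2 (range (a * b)) (fun j => w' j - g j) ≤ ε * R₃ →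
  ‖(WW u v w a b c d θ - WW u' v' w' a b c d θ) -
    (WW p q r a b c d θ - WW e f g a b c d θ)‖ ≤ EE a b c * (14 * ε * R₁ * R₂ * R₃)

/-- MNRE: as MNR. -/
def StMNRE : Prop := ∀ (f g h : ℕ → ℝ) (X Y Z a b c N : ℕ) (d : ℤ) (S : Finset ℕ) (R : ℝ),
  1 ≤ a → 1 ≤ b → 1 ≤ c → 1 ≤ N → Y ≤ N * (a * c) → Z ≤ N * (a * b) → 0 ≤ R →
  S ⊆ range N → (∀ k ∈ S, NN (fun n => (f n : ℂ)) X (b * c) ((k : ℝ) / N) ≤ R ^ 2) →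
  ‖∑ k ∈ S, WW (Sj f X (b * c) ((k : ℝ) / N)) (Sj g Y (a * c) ((k : ℝ) / N))
      (Sj h Z (a * b) ((k : ℝ) / N)) a b c d ((k : ℝ) / N)‖ ≤
    EE a b c * (R * √(N * (a * c : ℕ) * ∑ n ∈ Ioc 0 Y, g n ^ 2) *
      √(N * (a * b : ℕ) * ∑ n ∈ Ioc 0 Z, h n ^ 2))

/-- TRGE: as TRG.  The only change: `j mod a b c ↦ (j mod a c, j mod a b)` is not injective, but
each pair has at most `a b c / lcm(a c, a b) = gcd(b, c) ≤ EE a b c` preimages (if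
`j ≡ j'` modulo `a c` and `a b` then modulo `lcm (a c) (a b) = a lcm(b, c)`); similarly for the
other two pairs. -/
def StTRGE : Prop := ∀ (a b c v : ℕ) [NeZero (b * c * v)] [NeZero (a * c * v)]
  [NeZero (a * b * v)] (χ₁ : DirichletCharacter ℂ (b * c * v))
  (χ₂ : DirichletCharacter ℂ (a * c * v)) (χ₃ : DirichletCharacter ℂ (a * b * v))
  (R : ℝ) (h d : ℤ), 1 ≤ a → 1 ≤ b → 1 ≤ c → 1 ≤ v → 0 < R →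
  (Deep R χ₁ ∨ Deep R χ₂ ∨ Deep R χ₃) →
  ‖∑ j ∈ range (a * b * c), Gs χ₁ (h + j * v) * Gs χ₂ (h + j * v) * conj (Gs χ₃ (h + j * v)) *
    ex (-(d * (h + j * v) / (a * b * c * v : ℕ)))‖ ^ 2 ≤
    EE a b c * v ^ 2 * Int.gcd d (a * b * c : ℕ) * (1 + Nat.log 2 (a * b * c * v)) ^ 5 / R

/-- CHSE: as CHS, with TRGE. -/
def StCHSE : Prop := ∀ (a b c v : ℕ) [NeZero (b * c * v)] [NeZero (a * c * v)]
  [NeZero (a * b * v)] (h d : ℤ) (η R Q T : ℝ) (c₁ c₂ c₃ : ℂ)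
  (𝓧₁ : Finset (DirichletCharacter ℂ (b * c * v))) (𝓧₂ : Finset (DirichletCharacter ℂ (a * c * v)))
  (𝓧₃ : Finset (DirichletCharacter ℂ (a * b * v))) (f₁ : DirichletCharacter ℂ (b * c * v) → ℂ)
  (f₂ : DirichletCharacter ℂ (a * c * v) → ℂ) (f₃ : DirichletCharacter ℂ (a * b * v) → ℂ),
  1 ≤ a → 1 ≤ b → 1 ≤ c → 1 ≤ v → 0 < R → 1 ≤ Q → 0 ≤ T →
  (𝓧₁.card : ℝ) ≤ Q → (𝓧₂.card : ℝ) ≤ Q → (𝓧₃.card : ℝ) ≤ Q →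
  (∀ χ ∈ 𝓧₁, Deep R χ ∧ ‖f₁ χ‖ ≤ b * c * T) → (∀ χ ∈ 𝓧₂, Deep R χ ∧ ‖f₂ χ‖ ≤ a * c * T) →
  (∀ χ ∈ 𝓧₃, Deep R χ ∧ ‖f₃ χ‖ ≤ a * b * T) → ‖c₁‖ ≤ b * c * T → ‖c₂‖ ≤ a * c * T →
  ‖c₃‖ ≤ a * b * T →
  ‖WW (fun j => c₁ * Gs (1 : DirichletCharacter ℂ (b * c * v)) (h + j * v) +
          ∑ χ ∈ 𝓧₁, f₁ χ * Gs χ (h + j * v))
      (fun j => c₂ * Gs (1 : DirichletCharacter ℂ (a * c * v)) (h + j * v) +
          ∑ χ ∈ 𝓧₂, f₂ χ * Gs χ (h + j * v))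
      (fun j => c₃ * Gs (1 : DirichletCharacter ℂ (a * b * v)) (h + j * v) +
          ∑ χ ∈ 𝓧₃, f₃ χ * Gs χ (h + j * v)) a b c d ((h : ℝ) / v + η) -
    WW (fun j => c₁ * Gs (1 : DirichletCharacter ℂ (b * c * v)) (h + j * v))
      (fun j => c₂ * Gs (1 : DirichletCharacter ℂ (a * c * v)) (h + j * v))
      (fun j => c₃ * Gs (1 : DirichletCharacter ℂ (a * b * v)) (h + j * v)) a b c d
        ((h : ℝ) / v + η)‖ ≤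
    8 * Q ^ 3 * ((a * b * c : ℕ) : ℝ) ^ 2 * T ^ 3 *
      √(EE a b c * v ^ 2 * Int.gcd d (a * b * c : ℕ) *
        (1 + Nat.log 2 (a * b * c * v)) ^ 5 / R)

/-- MJRE: as MJR; the extra factor `EE a b c ≤ L^K` is absorbed (use the exponent `A + K`). -/
def StMJRE : Prop := ∀ A p K : ℕ, ∃ b : ℕ, ∀ B : ℕ, ∃ x₀ : ℕ, ∀ (a b' c Z v z : ℕ) (h d : ℤ)
  (η : ℝ), x₀ ≤ Z → 1 ≤ a → 1 ≤ b' → 1 ≤ c → (EE a b' c : ℝ) ≤ Real.log (16 * Z) ^ K → 1 ≤ v →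
  (b' * c) * v ^ 2 ≤ 16 * Z → (a * c) * v ^ 2 ≤ 16 * Z → (a * b') * v ^ 2 ≤ 16 * Z →
  (v : ℝ) ≤ Real.log (16 * Z) ^ p → |η| * (16 * Z) ≤ Real.log (16 * Z) ^ p →
  (Int.gcd d (a * b' * c : ℕ) : ℝ) ≤ Real.log (16 * Z) ^ K →
  Real.log (16 * Z) ^ b ≤ z → (z : ℝ) ≤ Real.log (16 * Z) ^ B →
  ‖WP th a b' c Z d ((h : ℝ) / v + η) - WP (lz z) a b' c Z d ((h : ℝ) / v + η)‖ ≤
    ((a * b' * c : ℕ) : ℝ) ^ 2 * (16 * Z) ^ 3 / Real.log (16 * Z) ^ A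

/-- PMAE: as PMA. -/
def StPMAE : Prop := ∀ p K : ℕ, ∃ b : ℕ, ∀ B : ℕ, ∃ x₀ : ℕ, ∀ (a b' c Z z : ℕ) (d : ℤ),
  x₀ ≤ Z → 1 ≤ a → 1 ≤ b' → 1 ≤ c → (EE a b' c : ℝ) ≤ Real.log (16 * Z) ^ K →
  ((b' * c : ℕ) : ℝ) * Real.log (16 * Z) ^ (2 * p + 2) ≤ 16 * Z →
  ((a * c : ℕ) : ℝ) * Real.log (16 * Z) ^ (2 * p + 2) ≤ 16 * Z →
  ((a * b' : ℕ) : ℝ) * Real.log (16 * Z) ^ (2 * p + 2) ≤ 16 * Z →
  (Int.gcd d (a * b' * c : ℕ) : ℝ) ≤ Real.log (16 * Z) ^ K →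
  Real.log (16 * Z) ^ b ≤ z → (z : ℝ) ≤ Real.log (16 * Z) ^ B →
  ‖1 / (((16 * Z) ^ 2 : ℕ) * (a * b' * c : ℕ) : ℂ) *
    ∑ k ∈ Maj p Z, (WP th a b' c Z d ((k : ℝ) / ((16 * Z) ^ 2 : ℕ)) -
      WP (lz z) a b' c Z d ((k : ℝ) / ((16 * Z) ^ 2 : ℕ)))‖ ≤
    (a * b' * c : ℕ) * (16 * Z) ^ 2 / Real.log (16 * Z)

/-- PMIE: as PMI, with `E = 2 K + 8` in MIT and MIZ: the extra factor `EE a b c ≤ L^K` is
absorbed. -/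
def StPMIE : Prop := ∀ K : ℕ, ∃ p C : ℕ, ∀ B : ℕ, ∃ x₀ : ℕ, ∀ (a b c Z z : ℕ) (d : ℤ), x₀ ≤ Z →
  1 ≤ a → 1 ≤ b → 1 ≤ c → (EE a b c : ℝ) ≤ Real.log (16 * Z) ^ K →
  ((b * c : ℕ) : ℝ) * Real.log (16 * Z) ^ C ≤ 16 * Z →
  a * c ≤ 16 * Z → a * b ≤ 16 * Z → Real.log (16 * Z) ^ p ≤ z →
  (z : ℝ) ≤ Real.log (16 * Z) ^ B →
  ∀ f : ℕ → ℝ, (f = th ∨ f = lz z) →
  ‖1 / (((16 * Z) ^ 2 : ℕ) * (a * b * c : ℕ) : ℂ) *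
    ∑ k ∈ range ((16 * Z) ^ 2) \ Maj p Z, WP f a b c Z d ((k : ℝ) / ((16 * Z) ^ 2 : ℕ))‖ ≤
    (a * b * c : ℕ) * (16 * Z) ^ 2 / Real.log (16 * Z)

/-- POSE: as POS, for admissible quadruples with small pairwise gcds. -/
def StPOSE : Prop := ∀ K : ℕ, ∃ C x₀ : ℕ, ∀ (a b c Z : ℕ) (d : ℤ), x₀ ≤ Z → 1 ≤ a → 1 ≤ b →
  1 ≤ c → AdN a b c d → (EE a b c : ℝ) ≤ Real.log (16 * Z) ^ K → |d| ≤ 6 * (a * b * c * Z) →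
  ((b * c : ℕ) : ℝ) * Real.log (16 * Z) ^ C ≤ 16 * Z →
  ((a * c : ℕ) : ℝ) * Real.log (16 * Z) ^ C ≤ 16 * Z →
  ((a * b : ℕ) : ℝ) * Real.log (16 * Z) ^ C ≤ 16 * Z →
  (Int.gcd d (a * b * c : ℕ) : ℝ) ≤ Real.log (16 * Z) ^ K →
  ∃ p q r : ℕ, p.Prime ∧ q.Prime ∧ r.Prime ∧ (a : ℤ) * p + b * q = c * r + d ∧
    a * p ≤ 5 * (a * b * c * Z) ∧ b * q ≤ 5 * (a * b * c * Z) ∧ c * r ≤ 16 * (a * b * c * Z)

/-- NATE: as NAT, with the constant `8 / 3`: if `Z = Z₁` then `16 a b c Z / μ ≤ (8/3) |d| / μ + 16 D`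
and `16 D ≤ D² (log m)^C` since `log m ≥ log 3 > 1`, so `(log 3)^C ≥ 32` for `C ≥ 40`. -/
def StNATE : Prop := ∀ K : ℕ, ∃ C x₀ : ℕ, ∀ (a b c : ℕ) (d : ℤ), 1 ≤ a → 1 ≤ b → 1 ≤ c →
  AdN a b c d → x₀ ≤ max d.natAbs (max a (max b c)) →
  (EE a b c : ℝ) ≤ Real.log (max d.natAbs (max a (max b c)) : ℕ) ^ K →
  (Int.gcd d (a * b * c : ℕ) : ℝ) ≤ Real.log (max d.natAbs (max a (max b c)) : ℕ) ^ K →
  ∃ p q r : ℕ, p.Prime ∧ q.Prime ∧ r.Prime ∧ (a : ℤ) * p + b * q = c * r + d ∧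
    ((max p (max q r) : ℕ) : ℝ) ≤ 8 / 3 * |(d : ℝ)| / (min a (min b c) : ℕ) +
      (((a * b * c : ℕ) : ℝ) / (min a (min b c) : ℕ)) ^ 2 *
        Real.log (max 3 (max a (max b c)) : ℕ) ^ C

/-- INTE: as INT, for admissible quadruples (`Admissible` of project BK). -/
def StINTE : Prop := ∀ K : ℕ, ∃ C x₀ : ℕ, ∀ a b c d : ℤ, Pool.Agent.Helper48.BK.Admissible a b c d →
  (x₀ : ℤ) ≤ max |d| (max |a| (max |b| |c|)) →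
  ((Int.gcd a b * Int.gcd a c * Int.gcd b c : ℕ) : ℝ) ≤
    Real.log (max |d| (max |a| (max |b| |c|)) : ℤ) ^ K →
  (Int.gcd d (a * b * c) : ℝ) ≤ Real.log (max |d| (max |a| (max |b| |c|)) : ℤ) ^ K →
  ∃ p q r : ℕ, p.Prime ∧ q.Prime ∧ r.Prime ∧ a * p + b * q + c * r = d ∧
    ((max p (max q r) : ℕ) : ℝ) ≤ 8 / 3 * |(d : ℝ)| / (min |a| (min |b| |c|) : ℤ) +
      (|((a * b * c : ℤ) : ℝ)| / (min |a| (min |b| |c|) : ℤ)) ^ 2 *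
        Real.log (max 3 (max |a| (max |b| |c|)) : ℤ) ^ C

end Pool.Agent.Helper49.PC
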