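import Pool.Agent.Helper49.PC.StF

/-!
# Project PC: statements, minor arcs in mean square (part N)
-/

set_option autoImplicit false

namespace Pool.Agent.Helper49.PC

open Finset ArithmeticFunction
open Pool.Agent.Helper48.BK (ex th lz Vz Pz gs nd Apx AdN Sol thd)
open scoped ComplexConjugate

/-- the units modulo `D` in `[0, D)` -/
def Un (D : ℕ) : Finset ℕ := (range D).filter (fun l => Nat.Coprime l D)

/-- TU2: bilinear sums in the unit classes.  PROOF: fix a unit class `l` and write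
`t = θ / D`.  In the sum `k` and `m` are coprime to `D` and `m ≡ l k⁻¹ mod D`.  Cauchy-Schwarz
over `k`: `‖∑_k‖² ≤ (∑ α k²) ∑_{k ∈ (K, 2K], (k, D) = 1} ‖∑_{m ≤ y / k, m ≡ l k⁻¹} β m ex (k m t)‖²`.
Sum over the units `l`; for fixed `k`, `l k⁻¹` runs over the units; extend to all classes and to
all `k ∈ (K, 2K]`: the sum is at most `(∑ α²)` times
`∑_k ∑_{l' mod D} ‖∑_{m ≤ y / k, m ≡ l'} β m ex (k m t)‖²
= ∑_{m₁ ≡ m₂ mod D, m_i ≤ y / K} β m₁ β m₂ ∑_{k ∈ (K, 2K], k max(m₁, m₂) ≤ y} ex (k (m₁ - m₂) t)`.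
Here `m₁ - m₂ = D s`, `(m₁ - m₂) t = s θ`; the inner sum is at most `gs K (s θ)` (StGeo1:
`hGeo1`, monotonicity in `N`), `|β m₁ β m₂| ≤ (β m₁² + β m₂²) / 2`, so this is at most
`(∑_{m ≤ D M / K} β m²) (K + 2 ∑_{1 ≤ s ≤ M / K} gs K (s θ))`
(`|m₁ - m₂| ≤ y / K ≤ D M / K`, so `|s| ≤ M / K`), and by StGeo2 (`hGeo2`)
`∑_{s ≤ M / K} gs K (s θ) ≤ C (M / (K v) + 1) (K + v (1 + log v))
≤ C (1 + log v) (M / v + M / K + K + v)`.  Multiply by `D`. -/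
def StTU2 : Prop := ∃ C : ℝ, 0 < C ∧ ∀ (M D v K y : ℕ) (h : ℤ) (θ : ℝ) (α β : ℕ → ℝ),
  1 ≤ M → 1 ≤ D → 1 ≤ K → y ≤ D * M → Apx θ h v →
  D * ∑ l ∈ Un D, ‖∑ k ∈ Ioc K (2 * K), ∑ m ∈ Ioc 0 (y / k),
      if k * m ≡ l [MOD D] then ((α k * β m : ℝ) : ℂ) * ex (k * m * (θ / D)) else 0‖ ^ 2 ≤
    C * (∑ k ∈ Ioc K (2 * K), α k ^ 2) * (∑ m ∈ Ioc 0 (D * M / K), β m ^ 2) *
      ((D : ℝ) * K + (D : ℝ) * M / v + (D : ℝ) * M / K + (D : ℝ) * v) * (1 + Real.log v)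

/-- TU1: type one sums in the unit classes.  PROOF: let `l`, `k` be units modulo `D`.  The `m`
with `k m ≡ l`, `m ≤ y / k` form an arithmetic progression `m₀ + D s`, `0 ≤ s < S`,
`S ≤ M / k + 1`, and `ex (k m θ / D) = ex (k m₀ θ / D) ex (s k θ)`.  By Abel summation (the weight
`f` is increasing, nonnegative, `≤ f (D M)` there; use tail sums) and StGeo1 the sum over `m` is at
most `f (D M) gs (M / k + 1) (k θ) ≤ 2 f (D M) gs (M / k) (k θ)` (`k ≤ J ≤ M`).  Non-units `k`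
contribute nothing.  Sum over `k ≤ J` by StTI (`tTI`, `x = M`): at most
`2 T f (D M) C (M / v + J + v) log² M`.  Finally `D ∑_{l} ≤ D²`. -/
def StTU1 : Prop := ∃ C : ℝ, 0 < C ∧ ∀ (M D v J y : ℕ) (h : ℤ) (θ : ℝ) (c f : ℕ → ℝ) (T : ℝ),
  3 ≤ M → 1 ≤ D → 1 ≤ J → J ≤ M → v ≤ M → y ≤ D * M → Apx θ h v → 0 ≤ T →
  (∀ k ≤ J, |c k| ≤ T) → (∀ n, 0 ≤ f n) → (∀ m n, 1 ≤ m → m ≤ n → f m ≤ f n) →
  D * ∑ l ∈ Un D, ‖∑ k ∈ Ioc 0 J, ∑ m ∈ Ioc 0 (y / k),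
      if k * m ≡ l [MOD D] then ((c k * f m : ℝ) : ℂ) * ex (k * m * (θ / D)) else 0‖ ^ 2 ≤
    (C * T * f (D * M) * D * ((M : ℝ) / v + J + v) * Real.log M ^ 2) ^ 2

/-- MIL: the von Mangoldt function in the unit classes, minor arcs.  PROOF: Vaughan's identity
`Pool.Agent.Helper2.vaughan U` and `sum_conv` with `G n = ex (n θ / D)` if `n ≤ y` and
`n ≡ l mod D`, and `0` otherwise (compare `hVau` in `Pool.Agent.Helper48.BK.M_Vau`).  Let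
`L = log M`; `log (D M) ≤ 2 L`.  (i) `n ≤ U`: `D ∑_l (∑_{n ≤ U, n ≡ l} Λ n)² ≤ D (U 2L)²`.
(ii) `∑_{k ≤ U} μ(k) ∑_m log m` and (iii) `∑_{k ≤ U²} c_k ∑_m 1`, `|c_k| ≤ log k`: TU1 with
`J = U`, `U²`.  (iv) `∑_{k, m > U}`: dyadic in both variables, at most `(3 L)²·4` pairs
`k ∈ (K, 2K]`, `m ∈ (K', 2K']`, `K, K' ≥ U`, `K K' ≤ D M`; use Cauchy-Schwarz for the sum over
the pairs; for each pair use TU2 with the variable of the smaller of `K, K'` (`≤ √(D M)`) as `k`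
(the sum is symmetric): `(∑ α²) (∑ β²) ≤ C (D M) L^5` (as in `block_Vau`), and the last factor is
at most `D √(D M) + D M / v + D M / U + D v`; divide by `D M`:
`√(D / M) + 1 / v + 1 / U + v / M`, times `(D M)²`. -/
def StMIL : Prop := ∃ (C : ℝ) (c : ℕ), 0 < C ∧ ∀ (M D v U y : ℕ) (h : ℤ) (θ : ℝ),
  3 ≤ M → 1 ≤ D → D ≤ M → 1 ≤ U → U ^ 2 ≤ M → v ≤ M → y ≤ D * M → Apx θ h v →
  D * ∑ l ∈ Un D, ‖∑ n ∈ (Ioc 0 y).filter (fun n => n ≡ l [MOD D]),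
      ((Λ n : ℝ) : ℂ) * ex (n * (θ / D))‖ ^ 2 ≤
    C * ((D : ℝ) * M) ^ 2 * Real.log M ^ c *
      (1 / v + 1 / U + √((D : ℝ) / M) + v / M + (U : ℝ) ^ 4 / M ^ 2)

/-- RED: from `θ` to `Λ` on integers coprime to `q`.  PROOF: the function is
`(th - Λ)` on the window plus `Λ` on the `n` of the window with `gcd(n, q) > 1`.  By TRV, `NN` is
at most `(X + D)` times its square sum; `∑ (Λ - th)² ≤ log X ∑ (Λ - th) ≤ C √X log³ X`
(`Pool.Agent.Helper48.BK.hTh`), and the `n` with `gcd(n, q) > 1`, `Λ n ≠ 0` are powers of the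
at most `log₂ q` primes dividing `q`: the square sum is `≤ 4 log³ X`. -/
def StRED : Prop := ∃ C : ℝ, 0 < C ∧ ∀ (X D q w₀ w₁ : ℕ) (θ : ℝ), 3 ≤ X → 1 ≤ D → D ≤ X →
  1 ≤ q → q ≤ X → w₁ ≤ X →
  NN (fun n => ((cut th w₀ w₁ n - (if Nat.Coprime n q then cut (fun n => Λ n) w₀ w₁ n else 0) :
    ℝ) : ℂ)) X D θ ≤ C * X * √X * Real.log X ^ 3

/-- MIT: minor arcs for the primes.  PROOF: RED with `q = D` (the error is at most
`(D M)^{3/2 + o(1)}`) and `Minkowski`; the coprime part is, by PV, `D ∑_{l ∈ Un D} ‖..‖²`, the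
window sum is the difference of two sums over `(0, y]`; MIL with `U = ⌈(log M)^u⌉`, `u = E + c + 2`,
`p = 4 E + 4 c + 20` and `C₀ = 2 p`: each of the five terms is at most `(log M)^{-E - c - 1}`. -/
def StMIT : Prop := ∀ E : ℕ, ∃ p C₀ x₀ : ℕ, ∀ (M D v w₀ w₁ : ℕ) (h : ℤ) (θ : ℝ), x₀ ≤ M →
  1 ≤ D → (D : ℝ) * Real.log M ^ C₀ ≤ M → Apx θ h v → Real.log M ^ p ≤ v →
  v * Real.log M ^ p ≤ M → w₁ ≤ D * M →
  NN (fun n => ((cut th w₀ w₁ n : ℝ) : ℂ)) (D * M) D θ ≤ ((D : ℝ) * M) ^ 2 / Real.log M ^ E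

/-! ### the model -/

/-- LZB: size of the model.  PROOF: `hVz` in `Pool.Agent.Helper48.BK.M_Vz`:
`1 / V(z) ≤ C log z`. -/
def StLZB : Prop := ∃ C : ℝ, 0 < C ∧ ∀ z n : ℕ, 2 ≤ z → 0 ≤ lz z n ∧ lz z n ≤ C * Real.log z

/-- NUZ: the model on integers not coprime to `q`.  PROOF: if `lz z n ≠ 0` and `gcd(n, q) > 1`
then `n` is divisible by a prime `p > z`, `p ∣ q`; there are at most `log₂ q` such primes and
at most `X / p ≤ X / z` such `n` for each; `lz² ≤ C² log² z` (LZB). -/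
def StNUZ : Prop := ∃ C : ℝ, 0 < C ∧ ∀ X z q : ℕ, 3 ≤ X → 2 ≤ z → z ≤ X → 1 ≤ q → q ≤ X →
  ∑ n ∈ (Ioc 0 X).filter (fun n => ¬ Nat.Coprime n q), lz z n ^ 2 ≤
    C * X * Real.log X ^ 3 / z

/-- AZ2: the model in the unit classes of a large modulus.  PROOF: compare
`Pool.Agent.Helper48.BK.M_APZ` (the case `q ≤ z`).  With `P = {p ≤ z, p ∤ q}`, StBrun (`hBrun`)
and StTail (`hTail`): for `n ≡ u mod q` no prime `p ∣ q` divides `n`, so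
`∑ lz = V(z)⁻¹ (∑_{T ⊆ P, |T| ≤ r} (-1)^{|T|} (y / (q ∏ T) + O(1)) + O(∑_{|T| = r+1} (y / (q ∏ T) + 1)))`.
The number of `T` with `|T| ≤ r + 1` is at most `(z + 1)^{r+1} ≤ X^{1/4}` for
`r = ⌊log X / (8 log z)⌋ - 1`, and the tails are at most `(y / q) (1 + log z)^{r+1} / (r+1)!`
(both for the truncation of `∏_{p ∈ P} (1 - 1/p)` and the error), smaller than any power of
`1 / log X`.  The main term is `(y / q) ∏_{p ∈ P} (1 - 1/p) / V(z) =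
(y / q) ∏_{p ∣ q, p ≤ z} (1 - 1/p)⁻¹`; it differs from `y / φ(q)` by the factor
`∏_{p ∣ q, p > z} (1 - 1/p)`, between `1 - (log₂ q) / z` and `1`, so by at most
`(y / φ(q)) log₂ q / z ≤ (X / q) (1 + log₂ q)² / z ≤ (X / q) / (2 log^A X)`. -/
def StAZ2 : Prop := ∀ A B : ℕ, ∃ x₀ : ℕ, ∀ X y z q u : ℕ, x₀ ≤ X → y ≤ X →
  Real.log X ^ (A + 3) ≤ z → (z : ℝ) ≤ Real.log X ^ B → 1 ≤ q → q ^ 2 ≤ X → Nat.Coprime u q →
  |∑ n ∈ (Ioc 0 y).filter (fun n => n ≡ u [MOD q]), lz z n - (y : ℝ) / Nat.totient q| ≤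
    (X : ℝ) / q / Real.log X ^ A

/-- MIZ: minor arcs for the model.  PROOF: PV; the non-unit classes `l mod D` contribute, by TRV
for the function `lz` on the `n` of the window with `gcd(n, D) > 1` and NUZ,
`≤ 2 D M · C D M (2 log M)³ / z`.  For a unit class `l` (compare `M_MinZ` of project BK): with
`P = {p ≤ z, p ∤ D}` and StBrun,
`|∑_{n ≤ y, n ≡ l} lz n ex (n θ / D)| ≤ V(z)⁻¹ (∑_{T ⊆ P, |T| ≤ r} |∑_{k ≤ y / m, m k ≡ l}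
ex (m k θ / D)| + ∑_{|T| = r+1} (M / m + 1))`, `m = ∏ T`.  The inner sum is over a progression
modulo `D`, at most `gs (M / m + 1) (m θ) ≤ 2 gs (M / m) (m θ)`; the numbers `m` are distinct and
`≤ z^r ≤ √M`, so StTI (`tTI`, `x = M`, `J = ⌊√M⌋`) gives `C (M / v + √M + v) log² M`; the tail is
`M (1 + log z)^{r+1} / (r+1)! + z^{r+1}` (StTail).  So each unit class is at most
`C M (log M)^3 (1 / v + M^{-1/2} + v / M + small)`, and `D ∑_{l} ≤ D²`. -/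
def StMIZ : Prop := ∀ E : ℕ, ∃ p : ℕ, ∀ B : ℕ, ∃ x₀ : ℕ, ∀ (M D v z w₀ w₁ : ℕ) (h : ℤ) (θ : ℝ),
  x₀ ≤ M → 1 ≤ D → D ≤ M → Apx θ h v → Real.log M ^ p ≤ v → v * Real.log M ^ p ≤ M →
  w₁ ≤ D * M → Real.log M ^ p ≤ z → (z : ℝ) ≤ Real.log M ^ B →
  NN (fun n => ((cut (lz z) w₀ w₁ n : ℝ) : ℂ)) (D * M) D θ ≤
    ((D : ℝ) * M) ^ 2 / Real.log M ^ E

end Pool.Agent.Helper49.PC
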