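import Pool.Agent.Helper49.PC.StM

/-!
# Project PC: statements, pieces of MJT and POS
-/

set_option autoImplicit false

namespace Pool.Agent.Helper49.PC

open Finset ArithmeticFunction Classical
open Pool.Agent.Helper48.BK (ex th lz Vz Pz gs nd Apx AdN Sol thd)
open scoped ComplexConjugate

/-- MJA: steps (1), (2), (3) of MJT: expansion of the sum over primes.  PROOF: `q = D v`,
`X = D M`, `L = log M` (`log X ≤ 2 L`).  By RED with this `q` and the triangle inequality in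
`l²` (`l2 (range D) (Sj f X D θ) = √(NN ..)`, `Sj` is linear in `f`) replace `th` on the window by
`F n = Λ n` for `n` coprime to `q` (`0` otherwise): error `(C X^{3/2} (2L)³)^{1/2}`.  By SLO with
`B₀ = 2 L` (`Λ n ≤ log n`): error `2 X (2 L) 4 π L^p / S`.  By GEX, for each `s`,
`∑_{n ∈ I_s} F n ex (n i / q) = ∑_χ (∑_{n ∈ I_s} F n χ(n)) Gs χ i`, and
`∑_{n ∈ I_s} F n χ(n) = Psi χ t_s t_{s+1}` since `χ(n) = 0` when `gcd(n, q) > 1`. -/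
def StMJA : Prop := ∀ A p : ℕ, ∃ e x₀ : ℕ, ∀ (M D v S : ℕ) [NeZero (D * v)] (w₀ w₁ : ℕ) (h : ℤ)
  (η : ℝ), x₀ ≤ M → 1 ≤ D → D ≤ M → 1 ≤ v → D * v ^ 2 ≤ M → |η| * M ≤ Real.log M ^ p →
  w₀ ≤ w₁ → w₁ ≤ D * M → Real.log M ^ e ≤ S → S ≤ M →
  l2 (range D) (fun j => Sj (cut th w₀ w₁) (D * M) D ((h : ℝ) / v + η) j -
    ∑ s ∈ range S, ex (tt w₀ w₁ S s * (η / D)) *
      ∑ χ : DirichletCharacter ℂ (D * v), Psi χ (tt w₀ w₁ S s) (tt w₀ w₁ S (s + 1)) *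
        Gs χ (h + j * v)) ≤ (D : ℝ) * M / Real.log M ^ A

/-- MJB: step (4) of MJT: the principal character.  PROOF: by PNU with exponent `A₂ = A + e + 3`
each `Psi 1 t_s t_{s+1}` is `t_{s+1} - t_s` up to `X / (log X)^{A₂}`; the sum over the
`S ≤ L^{e+1}` values of `s`, times `l2 (Gs 1) ≤ (q / φ(q))^{1/2} ≤ 1 + log₂ q` (GPV with
`𝓖 = {1}`, PHI), is at most `X / (2 L^A)`.  Then SL0: error
`X 4 π L^p / S` times `l2 (Gs 1)`, fine if `e ≥ A + p + 3`. -/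
def StMJB : Prop := ∀ A p : ℕ, ∃ e₀ : ℕ, ∀ e : ℕ, e₀ ≤ e → ∃ x₀ : ℕ, ∀ (M D v S : ℕ)
  [NeZero (D * v)] (w₀ w₁ : ℕ) (h : ℤ) (η : ℝ), x₀ ≤ M → 1 ≤ D → D ≤ M → 1 ≤ v →
  D * v ^ 2 ≤ M → |η| * M ≤ Real.log M ^ p → w₀ ≤ w₁ → w₁ ≤ D * M → Real.log M ^ e ≤ S →
  (S : ℝ) ≤ Real.log M ^ (e + 1) →
  l2 (range D) (fun j => ∑ s ∈ range S, ex (tt w₀ w₁ S s * (η / D)) *
      (Psi (1 : DirichletCharacter ℂ (D * v)) (tt w₀ w₁ S s) (tt w₀ w₁ S (s + 1)) *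
        Gs (1 : DirichletCharacter ℂ (D * v)) (h + j * v)) -
      c0 D w₀ w₁ η * Gs (1 : DirichletCharacter ℂ (D * v)) (h + j * v)) ≤
    (D : ℝ) * M / Real.log M ^ A

/-- MJC: steps (5), (6) of MJT: the nonprincipal characters.  PROOF: `q = D v`, `X = D M`,
`L = log M`, `L ≤ log X ≤ 2 L`.  Let `A₁ = 2 (A + e + 4)`, `A'` from LMG for `A₁`, and `𝓧` the set
of `χ ≠ 1` such that `‖Psi χ t_s t_{s+1}‖ > X / (log X)^{A'}` for some `s < S`;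
`cf χ = ∑_s ex (t_s η / D) Psi χ t_s t_{s+1}`, `|cf χ| ≤ ∑_{n ≤ X} Λ n ≤ X log X ≤ X L²`.
By PS2 (`q ≤ X`) for each `s` the number of such `χ` is at most `2 (log X)^{2 A' + 2}`; in total
`≤ L^{C}`, `C = 2 A' + e + 6` for large `M`.  `χ ∈ 𝓧` is deep for `R = L^B`: otherwise
SWC (exponents `A'`, `B`) contradicts the definition.  For `χ ∉ 𝓧`, `χ ≠ 1` and each `s`: LMG
(`q² = (D v)² ≤ D M = X`, `X ≤ 32 w₀ ≤ 32 t_s`) bounds `∑ ‖Psi χ t_s t_{s+1}‖²` by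
`X² / (log X)^{A₁}`, and by GPV, PHI the `l²` norm over `j` of `∑_{χ good} Psi .. Gs ..` is
`≤ (1 + log₂ q) X / L^{A₁ / 2}`; sum over `s`. -/
def StMJC : Prop := ∀ A e : ℕ, ∃ C : ℕ, ∀ B : ℕ, ∃ x₀ : ℕ, ∀ (M D v S : ℕ) [NeZero (D * v)]
  (w₀ w₁ : ℕ) (h : ℤ) (η : ℝ), x₀ ≤ M → 1 ≤ D → D ≤ M → 1 ≤ v → D * v ^ 2 ≤ M → 1 ≤ S →
  (S : ℝ) ≤ Real.log M ^ (e + 1) → D * M ≤ 32 * w₀ → w₀ ≤ w₁ → w₁ ≤ D * M →
  ∃ (𝓧 : Finset (DirichletCharacter ℂ (D * v))) (cf : DirichletCharacter ℂ (D * v) → ℂ),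
    (1 : DirichletCharacter ℂ (D * v)) ∉ 𝓧 ∧ (𝓧.card : ℝ) ≤ Real.log M ^ C ∧
    (∀ χ ∈ 𝓧, Deep (Real.log M ^ B) χ ∧ ‖cf χ‖ ≤ D * M * Real.log M ^ 2) ∧
    l2 (range D) (fun j => ∑ s ∈ range S, ex (tt w₀ w₁ S s * (η / D)) *
        ∑ χ ∈ (univ : Finset (DirichletCharacter ℂ (D * v))).filter (· ≠ 1),
          Psi χ (tt w₀ w₁ S s) (tt w₀ w₁ S (s + 1)) * Gs χ (h + j * v) -
        ∑ χ ∈ 𝓧, cf χ * Gs χ (h + j * v)) ≤ (D : ℝ) * M / Real.log M ^ A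

/-- the major points `k / N`, `N = (16 Z)²` -/
noncomputable def Maj (p Z : ℕ) : Finset ℕ := (range ((16 * Z) ^ 2)).filter fun k =>
  ∃ (v : ℕ) (h : ℤ), 1 ≤ v ∧ (v : ℝ) ≤ Real.log (16 * Z) ^ p ∧
    |(k : ℝ) / ((16 * Z) ^ 2 : ℕ) - h / v| ≤ 1 / (v * ⌊(16 * Z : ℝ) / Real.log (16 * Z) ^ p⌋₊)

/-- PMA: the major arcs.  PROOF: `M = 16 Z`, `L = log M`, `N = M²`, `Q = ⌊M / L^p⌋`,
`P = ⌊L^p⌋`.  MJR with exponents `2 p + 3`, `p + 1`, `K` at each point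
(`|η| M ≤ M / Q ≤ 2 L^p ≤ L^{p+1}`, `D v² ≤ D L^{2p} ≤ M`); the number of points is
`≤ 8 P N / Q ≤ 16 L^{2p} N / M` (MEA). -/
def StPMA : Prop := ∀ p K : ℕ, ∃ b : ℕ, ∀ B : ℕ, ∃ x₀ : ℕ, ∀ (a b' c Z z : ℕ) (d : ℤ),
  x₀ ≤ Z → 1 ≤ a → 1 ≤ b' → 1 ≤ c → PCop a b' c →
  ((b' * c : ℕ) : ℝ) * Real.log (16 * Z) ^ (2 * p + 2) ≤ 16 * Z →
  ((a * c : ℕ) : ℝ) * Real.log (16 * Z) ^ (2 * p + 2) ≤ 16 * Z →
  ((a * b' : ℕ) : ℝ) * Real.log (16 * Z) ^ (2 * p + 2) ≤ 16 * Z →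
  (Int.gcd d (a * b' * c : ℕ) : ℝ) ≤ Real.log (16 * Z) ^ K →
  Real.log (16 * Z) ^ b ≤ z → (z : ℝ) ≤ Real.log (16 * Z) ^ B →
  ‖1 / (((16 * Z) ^ 2 : ℕ) * (a * b' * c : ℕ) : ℂ) *
    ∑ k ∈ Maj p Z, (WP th a b' c Z d ((k : ℝ) / ((16 * Z) ^ 2 : ℕ)) -
      WP (lz z) a b' c Z d ((k : ℝ) / ((16 * Z) ^ 2 : ℕ)))‖ ≤
    (a * b' * c : ℕ) * (16 * Z) ^ 2 / Real.log (16 * Z)

/-- PMI: the minor arcs.  PROOF: for `k ∉ Maj` take `v ≤ Q`, `h` from MEA; `v > L^p`, so `Apx`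
holds and MIT (resp. MIZ), both with `E = 8`, applies to the first window with `D = b c`
(`v L^p ≤ Q L^p ≤ M`); `p` is the maximum of the two exponents.  Then MNR with
`R = b c M / L^4`, `∑ g² ≤ X · (2 L)²` (`X = a c M ≤ M²`, `th ≤ log`; LZB and
`log z ≤ B log L`):
the sum over `k` is at most `R √(N D₂ D₂ M 4 L²) √(N D₃ D₃ M 4 L²) = 4 R N D₂ D₃ M L²`;
dividing by `N a b c` gives `4 a b c M² / L²`. -/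
def StPMI : Prop := ∃ p C : ℕ, ∀ B : ℕ, ∃ x₀ : ℕ, ∀ (a b c Z z : ℕ) (d : ℤ), x₀ ≤ Z → 1 ≤ a →
  1 ≤ b → 1 ≤ c → PCop a b c → ((b * c : ℕ) : ℝ) * Real.log (16 * Z) ^ C ≤ 16 * Z →
  a * c ≤ 16 * Z → a * b ≤ 16 * Z → Real.log (16 * Z) ^ p ≤ z → (z : ℝ) ≤ Real.log (16 * Z) ^ B →
  ∀ f : ℕ → ℝ, (f = th ∨ f = lz z) →
  ‖1 / (((16 * Z) ^ 2 : ℕ) * (a * b * c : ℕ) : ℂ) *
    ∑ k ∈ range ((16 * Z) ^ 2) \ Maj p Z, WP f a b c Z d ((k : ℝ) / ((16 * Z) ^ 2 : ℕ))‖ ≤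
    (a * b * c : ℕ) * (16 * Z) ^ 2 / Real.log (16 * Z)

end Pool.Agent.Helper49.PC
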