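import Pool.Agent.Helper49.PC.StC
import Pool.Agent.Helper49.PC.StN

/-!
# Project PC: statements, major arcs and assembly (parts M and Z)
-/

set_option autoImplicit false

namespace Pool.Agent.Helper49.PC

open Finset ArithmeticFunction
open Pool.Agent.Helper48.BK (ex th lz Vz Pz gs nd Apx AdN Sol thd)
open scoped ComplexConjugate

/-- grid points `t_0 = w₀, ..., t_S = w₁` of a window -/
def tt (w₀ w₁ S s : ℕ) : ℕ := w₀ + (w₁ - w₀) * s / S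

/-- the smooth coefficient `∑_{w₀ < n ≤ w₁} ex (n η / D)` -/
noncomputable def c0 (D w₀ w₁ : ℕ) (η : ℝ) : ℂ := ∑ n ∈ Ioc w₀ w₁, ex (n * (η / D))

/-- SLO: slowly varying phase.  PROOF: the points `t_s` increase from `w₀` to `w₁`, and
`t_{s+1} - t_s ≤ D M / S + 1 ≤ 2 D M / S`.  For `n ∈ (t_s, t_{s+1}]`,
`|ex (n η / D) - ex (t_s η / D)| ≤ 2 π |η| (2 D M / S) / D = 4 π |η| M / S`.  So the difference is
`Sc F₂ (D M) ((h / v + j) / D)` with `|F₂ n| ≤ B₀ 4 π |η| M / S` on the window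
(`n i / (D v) = n (h / v + j) / D` for `i = h + j v`); use TRV with `D ≤ D M`. -/
def StSLO : Prop := ∀ (M D v S w₀ w₁ : ℕ) (h : ℤ) (η B₀ : ℝ) (F : ℕ → ℂ), 1 ≤ M → 1 ≤ D →
  1 ≤ v → 1 ≤ S → S ≤ D * M → w₀ ≤ w₁ → w₁ ≤ D * M → 0 ≤ B₀ → (∀ n ∈ Ioc w₀ w₁, ‖F n‖ ≤ B₀) →
  l2 (range D) (fun j => ∑ n ∈ Ioc w₀ w₁, F n * ex (n * ((h + j * v : ℤ) : ℝ) / (D * v : ℕ)) *
      ex (n * (η / D)) -
    ∑ s ∈ range S, ex (tt w₀ w₁ S s * (η / D)) *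
      ∑ n ∈ Ioc (tt w₀ w₁ S s) (tt w₀ w₁ S (s + 1)),
        F n * ex (n * ((h + j * v : ℤ) : ℝ) / (D * v : ℕ))) ≤
    2 * (D * M) * B₀ * (4 * Real.pi * |η| * M / S)

/-- SL0: the same for the smooth coefficient.  PROOF: the same estimate for the phases. -/
def StSL0 : Prop := ∀ (M D S w₀ w₁ : ℕ) (η : ℝ), 1 ≤ M → 1 ≤ D → 1 ≤ S → S ≤ D * M →
  w₀ ≤ w₁ → w₁ ≤ D * M →
  ‖∑ s ∈ range S, ex (tt w₀ w₁ S s * (η / D)) *
      (((tt w₀ w₁ S (s + 1) : ℕ) : ℂ) - (tt w₀ w₁ S s : ℕ)) - c0 D w₀ w₁ η‖ ≤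
    (D * M) * (4 * Real.pi * |η| * M / S)

/-- MJT: the primes at the points `(h / v + η + j) / D`.  PROOF: let `q = D v`, `X = D M`,
`L = log M`, `i_j = h + j v`; `(h / v + η + j) / D = i_j / q + η / D`.  All norms are `l²` over
`j < D`.

(1) By RED (with this `q`) replace `th` on the window by `F n = Λ n` on integers coprime to `q`:
error `≤ X^{3/4 + o(1)}`.
(2) By SLO (`B₀ = 2 L`) with `S = ⌈L ^ (p + a)⌉`: error `≤ 4 X L · 4 π L^p / S ≤ X L^{-A-1}`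
for `a = A + 4`.
(3) By GEX, `∑_{n ∈ I_s} F n ex (n i / q) = ∑_χ Psi χ t_s t_{s+1} Gs χ i`.
(4) Principal character: `Psi 1 t_s t_{s+1} = t_{s+1} - t_s + O(X / L^{A₂})` (PNU), and
`l2 (Gs 1) ≤ (q / φ(q))^{1/2} ≤ L` (GPV, PHI); the sum over `s` of the errors is
`S X L / L^{A₂}`.  Then SL0 replaces the sum by `c0`, error `X L^{p+2} 4 π / S`.
(5) Let `𝓧` be the set of `χ ≠ 1` such that `‖Psi χ t_s t_{s+1}‖ > X / L^{A'}` for some `s < S`,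
`A'` from LMG with exponent `A₁` (note `log X ≤ 2 L`; use `A' + 1`).  For each `s` by PS2 their
number is `≤ 8 L^{2 A' + 4}`, in total `≤ L^C`.  `cf χ = ∑_s ex (t_s η / D) Psi χ t_s t_{s+1}`,
`|cf χ| ≤ ∑_{n ≤ X} Λ n ≤ 2 X L`.  They are deep for `R = L^B`: otherwise SWC (with `A'` there,
`x₀` depending on `B`) bounds all `Psi χ t_s t_{s+1}` by `X / L^{A'}`.
(6) The other `χ ≠ 1`: for each `s`, LMG (`q² = D² v² ≤ D M = X`, `X ≤ 32 w₀ ≤ 32 t_s`) and GPV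
give `l2 ≤ L · X L^{-A₁/2}`; sum over `s`: `S L X L^{-A₁/2}`. -/
def StMJT : Prop := ∀ A p : ℕ, ∃ C : ℕ, ∀ B : ℕ, ∃ x₀ : ℕ, ∀ (M D v : ℕ) [NeZero (D * v)]
  (w₀ w₁ : ℕ) (h : ℤ) (η : ℝ), x₀ ≤ M → 1 ≤ D → D ≤ M → 1 ≤ v → D * v ^ 2 ≤ M →
  (v : ℝ) ≤ Real.log M ^ p → |η| * M ≤ Real.log M ^ p → D * M ≤ 32 * w₀ → w₀ ≤ w₁ →
  w₁ ≤ D * M →
  ∃ (𝓧 : Finset (DirichletCharacter ℂ (D * v))) (cf : DirichletCharacter ℂ (D * v) → ℂ),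
    (1 : DirichletCharacter ℂ (D * v)) ∉ 𝓧 ∧ (𝓧.card : ℝ) ≤ Real.log M ^ C ∧
    (∀ χ ∈ 𝓧, Deep (Real.log M ^ B) χ ∧ ‖cf χ‖ ≤ D * M * Real.log M ^ 2) ∧
    l2 (range D) (fun j => Sj (cut th w₀ w₁) (D * M) D ((h : ℝ) / v + η) j -
      (c0 D w₀ w₁ η * Gs (1 : DirichletCharacter ℂ (D * v)) (h + j * v) +
        ∑ χ ∈ 𝓧, cf χ * Gs χ (h + j * v))) ≤ (D : ℝ) * M / Real.log M ^ A

/-- MJZ: the model at the points `(h / v + η + j) / D`.  PROOF: notation as in MJT.  By TRV and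
NUZ the `n` with `gcd(n, q) > 1` contribute in `l²` at most
`(2 X C X (2 L)³ / z)^{1/2} ≤ X L^{-A-1}` if `z ≥ L^{2A+8}`.  For the others group by the unit
class `x` of `n` modulo `q`: by Abel summation from AZ2 (exponent `A + p + 2`; `q² ≤ X`)
`∑_{n ∈ W, n ≡ x} lz n ex (n η / D) = c0 / φ(q) + e_x`,
`|e_x| ≤ 2 (X / q) L^{-A-p-2} (1 + 2 π |η| M) `.  The main term gives `c0 Gs 1 i_j` exactly
(`Gs 1 i = φ(q)⁻¹ ∑_{x unit} ex (i x / q)`), and by PVI (the `i_j` are distinct modulo `q`) the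
errors have `l²` norm `≤ (q ∑_x |e_x|²)^{1/2} ≤ q max |e_x|`. -/
def StMJZ : Prop := ∀ A p : ℕ, ∃ b : ℕ, ∀ B : ℕ, ∃ x₀ : ℕ, ∀ (M D v : ℕ) [NeZero (D * v)]
  (z w₀ w₁ : ℕ) (h : ℤ) (η : ℝ), x₀ ≤ M → 1 ≤ D → D ≤ M → 1 ≤ v → D * v ^ 2 ≤ M →
  (v : ℝ) ≤ Real.log M ^ p → |η| * M ≤ Real.log M ^ p → w₀ ≤ w₁ → w₁ ≤ D * M →
  Real.log M ^ b ≤ z → (z : ℝ) ≤ Real.log M ^ B →
  l2 (range D) (fun j => Sj (cut (lz z) w₀ w₁) (D * M) D ((h : ℝ) / v + η) j -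
      c0 D w₀ w₁ η * Gs (1 : DirichletCharacter ℂ (D * v)) (h + j * v)) ≤
    (D : ℝ) * M / Real.log M ^ A

/-- CHS: the contribution of the deep characters.  PROOF: for `χ₁ ∈ {1} ∪ 𝓧₁` etc. put
`cf 1 = c0` (`|c0| ≤ D M`).  Then `WW` of the sums `c0 Gs 1 + ∑ cf χ Gs χ` minus `WW` of the
`c0 Gs 1` is the sum over all triples `(χ₁, χ₂, χ₃) ≠ (1, 1, 1)` of
`cf χ₁ cf χ₂ conj (cf χ₃)` times the sum in TRG up to the factor `ex (-d η / (a b c))` of absolute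
value `1` (`(h / v + η + j) / (a b c) = (h + j v) / (a b c v) + η / (a b c)`).  There are at most
`(1 + Q)³ ≤ 8 Q³` triples. -/
def StCHS : Prop := ∀ (a b c v : ℕ) [NeZero (b * c * v)] [NeZero (a * c * v)]
  [NeZero (a * b * v)] (h d : ℤ) (η R Q T : ℝ) (c₁ c₂ c₃ : ℂ)
  (𝓧₁ : Finset (DirichletCharacter ℂ (b * c * v))) (𝓧₂ : Finset (DirichletCharacter ℂ (a * c * v)))
  (𝓧₃ : Finset (DirichletCharacter ℂ (a * b * v))) (f₁ : DirichletCharacter ℂ (b * c * v) → ℂ)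
  (f₂ : DirichletCharacter ℂ (a * c * v) → ℂ) (f₃ : DirichletCharacter ℂ (a * b * v) → ℂ),
  1 ≤ a → 1 ≤ b → 1 ≤ c → 1 ≤ v → PCop a b c → 0 < R → 1 ≤ Q → 0 ≤ T →
  (𝓧₁.card : ℝ) ≤ Q → (𝓧₂.card : ℝ) ≤ Q → (𝓧₃.card : ℝ) ≤ Q →
  (∀ χ ∈ 𝓧₁, Deep R χ ∧ ‖f₁ χ‖ ≤ b * c * T) → (∀ χ ∈ 𝓧₂, Deep R χ ∧ ‖f₂ χ‖ ≤ a * c * T) →
  (∀ χ ∈ 𝓧₃, Deep R χ ∧ ‖f₃ χ‖ ≤ a * b * T) → ‖c₁‖ ≤ b * c * T → ‖c₂‖ ≤ a * c * T →
  ‖c₃‖ ≤ a * b * T →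
  ‖WW (fun j => c₁ * Gs (1 : DirichletCharacter ℂ (b * c * v)) (h + j * v) +
          ∑ χ ∈ 𝓧₁, f₁ χ * Gs χ (h + j * v))
      (fun j => c₂ * Gs (1 : DirichletCharacter ℂ (a * c * v)) (h + j * v) +
          ∑ χ ∈ 𝓧₂, f₂ χ * Gs χ (h + j * v))
      (fun j => c₃ * Gs (1 : DirichletCharacter ℂ (a * b * v)) (h + j * v) +
          ∑ χ ∈ 𝓧₃, f₃ χ * Gs χ (h + j * v)) a b c d ((h : ℝ) / v + η) -
    WW (fun j => c₁ * Gs (1 : DirichletCharacter ℂ (b * c * v)) (h + j * v))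
      (fun j => c₂ * Gs (1 : DirichletCharacter ℂ (a * c * v)) (h + j * v))
      (fun j => c₃ * Gs (1 : DirichletCharacter ℂ (a * b * v)) (h + j * v)) a b c d
        ((h : ℝ) / v + η)‖ ≤
    8 * Q ^ 3 * ((a * b * c : ℕ) : ℝ) ^ 2 * T ^ 3 *
      √(v ^ 2 * Int.gcd d (a * b * c : ℕ) * (1 + Nat.log 2 (a * b * c * v)) ^ 5 / R)

/-- the windows: `a n, b m ∈ (4 H, 5 H]`, `c l ∈ (2 H, 16 H]` with `H = a b c Z`, so that with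
`M = 16 Z` all variables are at most `D M` -/
noncomputable def WP (f : ℕ → ℝ) (a b c Z : ℕ) (d : ℤ) (θ : ℝ) : ℂ :=
  WW (Sj (cut f (4 * (b * c) * Z) (5 * (b * c) * Z)) (b * c * (16 * Z)) (b * c) θ)
    (Sj (cut f (4 * (a * c) * Z) (5 * (a * c) * Z)) (a * c * (16 * Z)) (a * c) θ)
    (Sj (cut f (2 * (a * b) * Z) (16 * (a * b) * Z)) (a * b * (16 * Z)) (a * b) θ) a b c d θ

/-- MJR: comparison on the major arcs.  PROOF: `M = 16 Z`, `L = log M`, `D₁ = b c`, etc.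
`R_i = D_i M L²` bounds the `l²` norms of all `Sj` (TRV: `NN ≤ (X + D) ∑ f² ≤ 2 X · X (2L)²` for
`th`; for `lz` the same with LZB, `lz ≤ C log z ≤ L`).  Apply MJT with exponent `A + 8` and MJZ with
exponent `A + 8` for each of the three windows and CMP with `ε = L^{-A-8-2}·...`
(`ε R_i ≥ D_i M / L^{A+8}`, i.e. `ε = L^{-A-10}`), with `p = u`, `e = c0 Gs 1` etc.  The periodicity
of `Gs χ (h + j v)` in `j` modulo `D` is GUN.  The remaining term is CHS with `Q = L^C`,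
`T = M L²`, `R = L^B`, `B` large in terms of `C, p, K, A`: `√(v² L^K (3 + 8 L)^5 / R)`
(`log₂ (a b c v) ≤ 5 L + 1`, as `a b c ≤ M ^ {3/2}`; indeed `(a b c)² = D₁ D₂ D₃ ≤ M³`), and
`c0 ≤ D M`. -/
def StMJR : Prop := ∀ A p K : ℕ, ∃ b : ℕ, ∀ B : ℕ, ∃ x₀ : ℕ, ∀ (a b' c Z v z : ℕ) (h d : ℤ) (η : ℝ),
  x₀ ≤ Z → 1 ≤ a → 1 ≤ b' → 1 ≤ c → PCop a b' c → 1 ≤ v →
  (b' * c) * v ^ 2 ≤ 16 * Z → (a * c) * v ^ 2 ≤ 16 * Z → (a * b') * v ^ 2 ≤ 16 * Z →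
  (v : ℝ) ≤ Real.log (16 * Z) ^ p → |η| * (16 * Z) ≤ Real.log (16 * Z) ^ p →
  (Int.gcd d (a * b' * c : ℕ) : ℝ) ≤ Real.log (16 * Z) ^ K →
  Real.log (16 * Z) ^ b ≤ z → (z : ℝ) ≤ Real.log (16 * Z) ^ B →
  ‖WP th a b' c Z d ((h : ℝ) / v + η) - WP (lz z) a b' c Z d ((h : ℝ) / v + η)‖ ≤
    ((a * b' * c : ℕ) : ℝ) ^ 2 * (16 * Z) ^ 3 / Real.log (16 * Z) ^ A

/-- MTT: the main term.  PROOF: as `hMainT` in `Pool.Agent.Helper48.BK.M_MainT` with `H = a b c Z`: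
`T3` of the windows is the sum over `Sol H a b c d` of
`lz v.1 * lz v.2 * lz (thd ..)` (as in `M_RR`; here `8 H - 6 H < c l ≤ 10 H + 6 H` is automatic, so
the third window `(2 H, 16 H]` contains all `l = thd`), all terms are nonnegative, and the lower
bound for the sum over `Sol` is proved in `M_MainT` (there `|d| ≤ H` is used only for
`0 < thd`, which holds for `|d| ≤ 6 H`). -/
def StMTT : Prop := ∃ c₀ : ℝ, 0 < c₀ ∧ ∃ B : ℕ, ∀ (a b c Z z : ℕ) (d : ℤ), 1 ≤ a → 1 ≤ b →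
  1 ≤ c → AdN a b c d → |d| ≤ 6 * (a * b * c * Z) → 2 ≤ z →
  (max a (max b c)) ^ 2 * z ^ B ≤ a * b * c * Z →
  c₀ * (a * b * c * Z ^ 2) ≤
    T3 (cut (lz z) (4 * (b * c) * Z) (5 * (b * c) * Z))
      (cut (lz z) (4 * (a * c) * Z) (5 * (a * c) * Z))
      (cut (lz z) (2 * (a * b) * Z) (16 * (a * b) * Z))
      (b * c * (16 * Z)) (a * c * (16 * Z)) (a * b * (16 * Z)) a b c d

/-- POS: solutions at height `H = a b c Z`.  PROOF: `M = 16 Z`, `L = log M`, `N = M²`.  Take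
`p, C₁` from PMI, `b` from PMA (for `p, K`), `b' = max b p`, `z = ⌈L ^ b'⌉`, `B = b' + 1`
(`z ≤ L ^ B`), and `C` larger than `C₁`, `2 p + 2` and `B B₀ + 2` with the `B₀` of MTT
(`max(a,b,c)² z^{B₀} ≤ a b c Z` follows from `D_max L^C ≤ 16 Z`, `D_max ≥ max(a,b,c)`).  By CIR
(`a X + b Y + c Z' + |d| ≤ 3 a b c M + 6 a b c Z < a b c N`), for both functions `T3` is
`(N a b c)⁻¹ ∑_{k < N} WP f (k / N)`.  Split the sum over `k` in `Maj p Z` and its complement: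
`|T3 th - T3 lz| ≤` PMA `+ 2` PMI `≤ 3 a b c (16 Z)² / L < c₀ a b c Z²` for large `Z`, so
`T3 th > 0` by MTT (`AdN` holds: all the greatest common divisors of two coefficients are `1`), and
a nonzero term of `T3 th` gives the primes. -/
def StPOS : Prop := ∀ K : ℕ, ∃ C x₀ : ℕ, ∀ (a b c Z : ℕ) (d : ℤ), x₀ ≤ Z → 1 ≤ a → 1 ≤ b →
  1 ≤ c → PCop a b c → Even ((a : ℤ) + b + c + d) → |d| ≤ 6 * (a * b * c * Z) →
  ((b * c : ℕ) : ℝ) * Real.log (16 * Z) ^ C ≤ 16 * Z →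
  ((a * c : ℕ) : ℝ) * Real.log (16 * Z) ^ C ≤ 16 * Z →
  ((a * b : ℕ) : ℝ) * Real.log (16 * Z) ^ C ≤ 16 * Z →
  (Int.gcd d (a * b * c : ℕ) : ℝ) ≤ Real.log (16 * Z) ^ K →
  ∃ p q r : ℕ, p.Prime ∧ q.Prime ∧ r.Prime ∧ (a : ℤ) * p + b * q = c * r + d ∧
    a * p ≤ 5 * (a * b * c * Z) ∧ b * q ≤ 5 * (a * b * c * Z) ∧ c * r ≤ 16 * (a * b * c * Z)

/-- NAT: choice of the height.  PROOF: let `m = max 3 (max a (max b c))`,
`μ = min a (min b c)`, `D = a b c / μ` the largest of `b c, a c, a b`.  Let `Z₁` be the least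
integer with `|d| ≤ 6 a b c Z₁` and `Z₂ = ⌈D (log m) ^ (2 C)⌉` with the `C` of POS for `K + 2`,
`Z = max Z₁ Z₂`.  For large `max (m, |d|)` the hypotheses of POS hold: if
`log (16 Z) ≤ (log m)^{3/2}` (say) then `D log^C (16 Z) ≤ D (log m)^{3 C / 2} ≤ 16 Z`; otherwise
`log (16 Z) > (log m)^{3/2}`, so `m^2 log^C (16 Z) ≤ 16 Z` if `16 Z` is large, and `D ≤ m²`.
`Z` is large since `Z ≥ D ≥ max (a, b, c)` and `6 a b c Z ≥ |d|`; and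
`log x ≤ 3 log (16 Z)` for `x = max (m, |d|)`, as `a b c ≤ D^{3/2}`.  The primes are at most
`16 a b c Z / μ = 16 D Z`: if `Z = Z₁ ≤ |d| / (6 a b c) + 1` this is
`≤ (8/3) |d| / μ + 16 D`, and if `Z = Z₂` it is `≤ 16 D (D (log m)^{2C} + 1)`.  If `m` is bounded,
`|d|` is large and `16 D ≤ |d| / (3 μ)`. -/
def StNAT : Prop := ∀ K : ℕ, ∃ C x₀ : ℕ, ∀ (a b c : ℕ) (d : ℤ), 1 ≤ a → 1 ≤ b → 1 ≤ c →
  PCop a b c → Even ((a : ℤ) + b + c + d) → x₀ ≤ max d.natAbs (max a (max b c)) →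
  (Int.gcd d (a * b * c : ℕ) : ℝ) ≤ Real.log (max d.natAbs (max a (max b c)) : ℕ) ^ K →
  ∃ p q r : ℕ, p.Prime ∧ q.Prime ∧ r.Prime ∧ (a : ℤ) * p + b * q = c * r + d ∧
    ((max p (max q r) : ℕ) : ℝ) ≤ 3 * |(d : ℝ)| / (min a (min b c) : ℕ) +
      (((a * b * c : ℕ) : ℝ) / (min a (min b c) : ℕ)) ^ 2 *
        Real.log (max 3 (max a (max b c)) : ℕ) ^ C

/-- INT: integer coefficients.  PROOF: multiply the equation by `-1` if necessary and permute the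
variables so that exactly the third coefficient is negative (not all signs are equal):
`a p + b q - |c| r = d`; everything in NAT is invariant. -/
def StINT : Prop := ∀ K : ℕ, ∃ C x₀ : ℕ, ∀ a b c d : ℤ, a ≠ 0 → b ≠ 0 → c ≠ 0 →
  ¬ (0 < a ∧ 0 < b ∧ 0 < c) → ¬ (a < 0 ∧ b < 0 ∧ c < 0) → IsCoprime a b → IsCoprime a c →
  IsCoprime b c → Even (a + b + c - d) → (x₀ : ℤ) ≤ max |d| (max |a| (max |b| |c|)) →
  (Int.gcd d (a * b * c) : ℝ) ≤ Real.log (max |d| (max |a| (max |b| |c|)) : ℤ) ^ K →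
  ∃ p q r : ℕ, p.Prime ∧ q.Prime ∧ r.Prime ∧ a * p + b * q + c * r = d ∧
    ((max p (max q r) : ℕ) : ℝ) ≤ 3 * |(d : ℝ)| / (min |a| (min |b| |c|) : ℤ) +
      (|((a * b * c : ℤ) : ℝ)| / (min |a| (min |b| |c|) : ℤ)) ^ 2 *
        Real.log (max 3 (max |a| (max |b| |c|)) : ℤ) ^ C

end Pool.Agent.Helper49.PC
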