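import Pool.Agent.Helper49.PC.StN

/-! PC module MIT: minor arcs for the primes. -/

set_option autoImplicit false

namespace Pool.Agent.Helper49.PC

open Finset ArithmeticFunction
open Pool.Agent.Helper48.BK (ex th Apx)

theorem large_MIT (N : ℕ) (B : ℝ) : ∃ x₀ : ℕ, ∀ M : ℕ, x₀ ≤ M →
    3 ≤ M ∧ B ≤ Real.log M ∧ Real.log M ^ N ≤ M := by
  have h1 : ∀ᶠ M : ℕ in Filter.atTop, 3 ≤ M := Filter.eventually_ge_atTop 3
  have h2 : ∀ᶠ M : ℕ in Filter.atTop, B ≤ Real.log M :=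
    (Real.tendsto_log_atTop.comp tendsto_natCast_atTop_atTop).eventually_ge_atTop B
  have h3 : ∀ᶠ x : ℝ in Filter.atTop, ‖Real.log x ^ N‖ ≤ 1 * ‖id x‖ :=
    (Real.isLittleO_pow_log_id_atTop (n := N)).bound one_pos
  have h4 : ∀ᶠ M : ℕ in Filter.atTop, ‖Real.log (M : ℝ) ^ N‖ ≤ 1 * ‖id (M : ℝ)‖ :=
    tendsto_natCast_atTop_atTop.eventually h3
  obtain ⟨x₀, hx⟩ := Filter.eventually_atTop.1 (h1.and (h2.and h4))
  refine ⟨x₀, fun M hM => ?_⟩
  obtain ⟨h5, h6, h7⟩ := hx M hM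
  refine ⟨h5, h6, ?_⟩
  rw [one_mul, id, Real.norm_eq_abs, Real.norm_eq_abs] at h7
  have h8 : |(M : ℝ)| = M := abs_of_nonneg (Nat.cast_nonneg M)
  rw [h8] at h7
  exact (le_abs_self _).trans h7

theorem Sc_add_MIT (F G : ℕ → ℂ) (X : ℕ) (α : ℝ) :
    Sc (fun n => F n + G n) X α = Sc F X α + Sc G X α := by
  unfold Sc
  rw [← sum_add_distrib]
  exact sum_congr rfl fun n _ => by ring

theorem sq_add_MIT (a b : ℂ) : ‖a + b‖ ^ 2 ≤ 2 * ‖a‖ ^ 2 + 2 * ‖b‖ ^ 2 := by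
  have h1 := pow_le_pow_left₀ (norm_nonneg _) (norm_add_le a b) 2
  nlinarith [sq_nonneg (‖a‖ - ‖b‖)]

theorem sq_sub_MIT (a b : ℂ) : ‖a - b‖ ^ 2 ≤ 2 * ‖a‖ ^ 2 + 2 * ‖b‖ ^ 2 := by
  have h1 := sq_add_MIT a (-b)
  rw [norm_neg] at h1
  rwa [sub_eq_add_neg]

theorem NN_add_MIT (F G : ℕ → ℂ) (X D : ℕ) (θ : ℝ) :
    NN (fun n => F n + G n) X D θ ≤ 2 * NN F X D θ + 2 * NN G X D θ := by
  unfold NN
  rw [mul_sum, mul_sum, ← sum_add_distrib]
  refine sum_le_sum fun j _ => ?_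
  rw [Sc_add_MIT]
  exact sq_add_MIT _ _

/-- the coprime part -/
theorem cop_MIT (h3 : StPV) (X D w₀ w₁ : ℕ) (θ B : ℝ) (hD : 1 ≤ D) (hw : w₁ ≤ X)
    (hB : ∀ y : ℕ, y ≤ X → D * ∑ l ∈ Un D, ‖∑ n ∈ (Ioc 0 y).filter (fun n => n ≡ l [MOD D]),
      ((Λ n : ℝ) : ℂ) * ex (n * (θ / D))‖ ^ 2 ≤ B) :
    NN (fun n => (((if Nat.Coprime n D then cut (fun n => Λ n) w₀ w₁ n else 0) : ℝ) : ℂ))
      X D θ ≤ 4 * B := by
  rw [h3 _ X D θ hD]
  have hD0 : (0 : ℝ) ≤ D := Nat.cast_nonneg D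
  -- restrict to the units
  have e1 : ∑ l ∈ range D, ‖∑ n ∈ (Ioc 0 X).filter (fun n => n ≡ l [MOD D]),
      (((if Nat.Coprime n D then cut (fun n => Λ n) w₀ w₁ n else 0) : ℝ) : ℂ) *
        ex (n * (θ / D))‖ ^ 2 =
      ∑ l ∈ Un D, ‖∑ n ∈ (Ioc 0 X).filter (fun n => n ≡ l [MOD D]),
      (((if Nat.Coprime n D then cut (fun n => Λ n) w₀ w₁ n else 0) : ℝ) : ℂ) *
        ex (n * (θ / D))‖ ^ 2 := by
    unfold Un
    rw [sum_filter]
    refine sum_congr rfl fun l _ => ?_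
    by_cases hl : Nat.Coprime l D
    · rw [if_pos hl]
    · rw [if_neg hl, sum_eq_zero, norm_zero]
      · norm_num
      · intro n hn
        have h4 : n ≡ l [MOD D] := (mem_filter.1 hn).2
        have h5 : ¬ Nat.Coprime n D := by
          intro h6
          apply hl
          unfold Nat.Coprime at h6 ⊢
          rw [← h4.gcd_eq]
          exact h6
        rw [if_neg h5, Complex.ofReal_zero, zero_mul]
  set S : ℕ → ℕ → ℂ := fun y l => ∑ n ∈ (Ioc 0 y).filter (fun n => n ≡ l [MOD D]),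
      ((Λ n : ℝ) : ℂ) * ex (n * (θ / D)) with hS
  have e2 : ∀ l ∈ Un D, ∑ n ∈ (Ioc 0 X).filter (fun n => n ≡ l [MOD D]),
      (((if Nat.Coprime n D then cut (fun n => Λ n) w₀ w₁ n else 0) : ℝ) : ℂ) *
        ex (n * (θ / D)) = S w₁ l - S (min w₀ w₁) l := by
    intro l hl
    have hl' : Nat.Coprime l D := (mem_filter.1 hl).2
    have f1 : ∑ n ∈ (Ioc 0 X).filter (fun n => n ≡ l [MOD D]),
        (((if Nat.Coprime n D then cut (fun n => Λ n) w₀ w₁ n else 0) : ℝ) : ℂ) *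
          ex (n * (θ / D)) =
        ∑ n ∈ ((Ioc 0 X).filter (fun n => n ≡ l [MOD D])).filter (fun n => w₀ < n ∧ n ≤ w₁),
          ((Λ n : ℝ) : ℂ) * ex (n * (θ / D)) := by
      rw [sum_filter (fun n => w₀ < n ∧ n ≤ w₁)]
      refine sum_congr rfl fun n hn => ?_
      have h4 : n ≡ l [MOD D] := (mem_filter.1 hn).2
      have h5 : Nat.Coprime n D := by
        unfold Nat.Coprime at hl' ⊢
        rw [h4.gcd_eq]
        exact hl'
      rw [if_pos h5]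
      unfold cut
      split_ifs
      · rfl
      · rw [Complex.ofReal_zero, zero_mul]
    rw [f1, eq_sub_iff_add_eq]
    simp only [hS]
    rw [← sum_union]
    · refine sum_congr ?_ fun _ _ => rfl
      ext n
      simp only [mem_union, mem_filter, mem_Ioc]
      constructor
      · rintro (⟨⟨⟨h5, h6⟩, h7⟩, h8, h9⟩ | ⟨⟨h5, h6⟩, h7⟩)
        · exact ⟨⟨h5, h9⟩, h7⟩
        · exact ⟨⟨h5, by omega⟩, h7⟩
      · rintro ⟨⟨h5, h6⟩, h7⟩
        by_cases h8 : w₀ < n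
        · exact Or.inl ⟨⟨⟨h5, by omega⟩, h7⟩, h8, h6⟩
        · exact Or.inr ⟨⟨h5, by omega⟩, h7⟩
    · rw [disjoint_left]
      intro n hn hn'
      simp only [mem_filter, mem_Ioc] at hn hn'
      omega
  rw [e1, sum_congr rfl fun l hl => by rw [e2 l hl]]
  have b1 := hB w₁ hw
  have b2 := hB (min w₀ w₁) (by omega)
  calc (D : ℝ) * ∑ l ∈ Un D, ‖S w₁ l - S (min w₀ w₁) l‖ ^ 2
      ≤ D * ∑ l ∈ Un D, (2 * ‖S w₁ l‖ ^ 2 + 2 * ‖S (min w₀ w₁) l‖ ^ 2) :=
        mul_le_mul_of_nonneg_left (sum_le_sum fun l _ => sq_sub_MIT _ _) hD0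
    _ = 2 * (D * ∑ l ∈ Un D, ‖S w₁ l‖ ^ 2) +
        2 * (D * ∑ l ∈ Un D, ‖S (min w₀ w₁) l‖ ^ 2) := by
        rw [sum_add_distrib, ← mul_sum, ← mul_sum]
        ring
    _ ≤ 4 * B := by linarith

theorem hMIT (h1 : StRED) (h2 : StMIL) (h3 : StPV) : StMIT := by
  obtain ⟨C₁, hC₁, hred⟩ := h1
  obtain ⟨C, c, hC, hmil⟩ := h2
  intro E
  set u : ℕ := E + c + 1 with hu
  set N : ℕ := 5 * u + E + 4 with hN
  obtain ⟨x₀, hx₀⟩ := large_MIT (2 * N) (80 * C + 32 * C₁ + 16)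
  refine ⟨u, 2 * u, x₀, ?_⟩
  intro M D v w₀ w₁ h θ hM hD hDM hap hpv hvp hw
  obtain ⟨hM3, hlogB, hlogN⟩ := hx₀ M hM
  set L := Real.log M with hL
  have hL16 : 16 ≤ L := by linarith
  have hL80 : 80 * C ≤ L := by linarith
  have hL32 : 32 * C₁ ≤ L := by linarith
  have hL1 : 1 ≤ L := by linarith
  have hL0 : 0 < L := by linarith
  have hD1 : (1 : ℝ) ≤ D := by exact_mod_cast hD
  have hM1 : (1 : ℝ) ≤ M := by
    have : 1 ≤ M := by omega
    exact_mod_cast this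
  have hM0 : (0 : ℝ) < M := by linarith
  have hv1 : (1 : ℝ) ≤ v := by exact_mod_cast hap.1
  have hLu : 1 ≤ L ^ u := one_le_pow₀ hL1
  have hLu0 : 0 < L ^ u := by linarith
  have hL2u : L ^ (2 * u) = (L ^ u) ^ 2 := by rw [mul_comm, pow_mul]
  have hDMle : (D : ℝ) ≤ M := by
    have : (D : ℝ) * 1 ≤ D * L ^ (2 * u) :=
      mul_le_mul_of_nonneg_left (one_le_pow₀ hL1) (by linarith)
    linarith
  have hDM' : D ≤ M := by exact_mod_cast hDMle
  have hvM : (v : ℝ) ≤ M := by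
    have : (v : ℝ) * 1 ≤ v * L ^ u := mul_le_mul_of_nonneg_left hLu (by linarith)
    linarith
  have hvM' : v ≤ M := by exact_mod_cast hvM
  -- the parameter `U`
  set U : ℕ := ⌈L ^ u⌉₊ with hU
  have hU1 : L ^ u ≤ U := Nat.le_ceil _
  have hU2 : (U : ℝ) ≤ 2 * L ^ u := by
    have := Nat.ceil_lt_add_one hLu0.le
    linarith
  have hUone : 1 ≤ U := by
    have : (1 : ℝ) ≤ U := hLu.trans hU1
    exact_mod_cast this
  have hUsq : U ^ 2 ≤ M := by
    have e : (U : ℝ) ^ 2 ≤ M := by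
      calc (U : ℝ) ^ 2 ≤ (2 * L ^ u) ^ 2 := pow_le_pow_left₀ (Nat.cast_nonneg U) hU2 2
        _ = 4 * L ^ (2 * u) := by rw [hL2u]; ring
        _ ≤ L * L ^ (2 * u) := mul_le_mul_of_nonneg_right (by linarith) (by positivity)
        _ = L ^ (2 * u + 1) := by rw [pow_succ]; ring
        _ ≤ L ^ (2 * N) := pow_le_pow_right₀ hL1 (by omega)
        _ ≤ M := hlogN
    exact_mod_cast e
  set X : ℕ := D * M with hX
  have hX0 : (0 : ℝ) < X := by
    rw [hX]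
    push_cast
    positivity
  have hXcast : (X : ℝ) = D * M := by rw [hX]; push_cast; ring
  have hMX : (M : ℝ) ≤ X := by
    rw [hXcast]
    nlinarith
  have hDX : D ≤ X := by
    rw [hX]
    exact Nat.le_mul_of_pos_right D (by omega)
  have hlogX : Real.log X ≤ 2 * L := by
    rw [hXcast, Real.log_mul (by linarith) (by linarith)]
    have := Real.log_le_log (by linarith) hDMle
    linarith
  have hlogX0 : 0 ≤ Real.log X := Real.log_nonneg (by linarith)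
  -- first part
  have hred' := hred X D D w₀ w₁ θ (by
    have h5 : M ≤ X := by exact_mod_cast hMX
    omega) hD hDX hD hDX hw
  -- second part
  set B := C * ((D : ℝ) * M) ^ 2 * L ^ c *
      (1 / v + 1 / U + √((D : ℝ) / M) + v / M + (U : ℝ) ^ 4 / M ^ 2) with hB
  have hcop := cop_MIT h3 X D w₀ w₁ θ B hD hw
    (fun y hy => hmil M D v U y h θ hM3 hD hDM' hUone hUsq hvM' hy hap)
  have hsum := NN_add_MIT
    (fun n => ((cut th w₀ w₁ n - (if Nat.Coprime n D then cut (fun n => Λ n) w₀ w₁ n else 0) :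
      ℝ) : ℂ))
    (fun n => (((if Nat.Coprime n D then cut (fun n => Λ n) w₀ w₁ n else 0) : ℝ) : ℂ)) X D θ
  have hfun : (fun n => ((cut th w₀ w₁ n -
        (if Nat.Coprime n D then cut (fun n => Λ n) w₀ w₁ n else 0) : ℝ) : ℂ) +
      (((if Nat.Coprime n D then cut (fun n => Λ n) w₀ w₁ n else 0) : ℝ) : ℂ)) =
      fun n => ((cut th w₀ w₁ n : ℝ) : ℂ) := by
    funext n
    push_cast
    ring
  rw [hfun] at hsum
  -- the numerical inequalities
  have n1 : 2 * (C₁ * X * √X * Real.log X ^ 3) ≤ (X : ℝ) ^ 2 / L ^ E / 2 := by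
    have hsq : L ^ N ≤ √X := by
      apply Real.le_sqrt_of_sq_le
      calc (L ^ N) ^ 2 = L ^ (2 * N) := by rw [mul_comm, pow_mul]
        _ ≤ M := hlogN
        _ ≤ X := hMX
    have g1 : Real.log X ^ 3 ≤ (2 * L) ^ 3 := pow_le_pow_left₀ hlogX0 hlogX 3
    have g2 : 32 * C₁ * L ^ 3 * L ^ E ≤ √X := by
      calc 32 * C₁ * L ^ 3 * L ^ E ≤ L * L ^ 3 * L ^ E := by
            refine mul_le_mul_of_nonneg_right ?_ (by positivity)
            exact mul_le_mul_of_nonneg_right hL32 (by positivity)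
        _ = L ^ (E + 4) := by rw [pow_add]; ring
        _ ≤ L ^ N := pow_le_pow_right₀ hL1 (by omega)
        _ ≤ √X := hsq
    have hsX : √(X : ℝ) * √X = X := Real.mul_self_sqrt hX0.le
    have hLE : 0 < L ^ E := by positivity
    rw [div_div, le_div_iff₀ (by positivity)]
    calc 2 * (C₁ * X * √X * Real.log X ^ 3) * (L ^ E * 2)
        ≤ 2 * (C₁ * X * √X * (2 * L) ^ 3) * (L ^ E * 2) := by
          refine mul_le_mul_of_nonneg_right ?_ (by positivity)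
          refine mul_le_mul_of_nonneg_left ?_ (by norm_num)
          exact mul_le_mul_of_nonneg_left g1 (by positivity)
      _ = X * √X * (32 * C₁ * L ^ 3 * L ^ E) := by ring
      _ ≤ X * √X * √X := mul_le_mul_of_nonneg_left g2 (by positivity)
      _ = X ^ 2 := by rw [mul_assoc, hsX]; ring
  have n2 : 8 * B ≤ (X : ℝ) ^ 2 / L ^ E / 2 := by
    have t1 : (1 : ℝ) / v ≤ 1 / L ^ u := one_div_le_one_div_of_le hLu0 hpv
    have t2 : (1 : ℝ) / U ≤ 1 / L ^ u := one_div_le_one_div_of_le hLu0 hU1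
    have t3 : √((D : ℝ) / M) ≤ 1 / L ^ u := by
      apply Real.sqrt_le_iff.2
      refine ⟨by positivity, ?_⟩
      rw [div_pow, one_pow, ← hL2u, div_le_div_iff₀ hM0 (by positivity), one_mul]
      exact hDM
    have t4 : (v : ℝ) / M ≤ 1 / L ^ u := by
      rw [div_le_div_iff₀ hM0 hLu0, one_mul]
      exact hvp
    have t5 : (U : ℝ) ^ 4 / M ^ 2 ≤ 1 / L ^ u := by
      rw [div_le_div_iff₀ (by positivity) hLu0, one_mul]
      calc (U : ℝ) ^ 4 * L ^ u ≤ (2 * L ^ u) ^ 4 * L ^ u :=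
            mul_le_mul_of_nonneg_right (pow_le_pow_left₀ (Nat.cast_nonneg U) hU2 4) hLu0.le
        _ = 16 * L ^ (5 * u) := by
            rw [show 5 * u = u * 5 by ring, pow_mul]
            ring
        _ ≤ L * L ^ (5 * u) := mul_le_mul_of_nonneg_right hL16 (by positivity)
        _ = L ^ (5 * u + 1) := by rw [pow_succ]; ring
        _ ≤ L ^ (2 * N) := pow_le_pow_right₀ hL1 (by omega)
        _ ≤ M := hlogN
        _ ≤ M ^ 2 := by nlinarith
    have t6 : 1 / v + 1 / U + √((D : ℝ) / M) + v / M + (U : ℝ) ^ 4 / M ^ 2 ≤ 5 * (1 / L ^ u) := by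
      linarith
    have hBle : B ≤ C * (X : ℝ) ^ 2 * L ^ c * (5 * (1 / L ^ u)) := by
      rw [hB, hXcast]
      exact mul_le_mul_of_nonneg_left t6 (by positivity)
    have hLsplit : L ^ u = L ^ E * L ^ c * L := by
      rw [hu, pow_succ, pow_add]
    have g3 : 8 * (C * (X : ℝ) ^ 2 * L ^ c * (5 * (1 / L ^ u))) =
        (80 * C) * ((X : ℝ) ^ 2 / L ^ E / 2) / L := by
      rw [hLsplit]
      field_simp
      ring
    have g4 : (80 * C) * ((X : ℝ) ^ 2 / L ^ E / 2) / L ≤ (X : ℝ) ^ 2 / L ^ E / 2 := by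
      rw [div_le_iff₀ hL0]
      have : 0 ≤ (X : ℝ) ^ 2 / L ^ E / 2 := by positivity
      nlinarith
    linarith
  have hfinal : (((D : ℕ) : ℝ) * M) ^ 2 / L ^ E = (X : ℝ) ^ 2 / L ^ E := by rw [hXcast]
  rw [hfinal]
  linarith

end Pool.Agent.Helper49.PC
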