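import Pool.Agent.Helper49.PC.StN
import Pool.Agent.Helper48.BK.M_APZ

/-!
# Project PC, module AZ2: the model in the unit classes of a large modulus
-/

set_option autoImplicit false

namespace Pool.Agent.Helper49.PC

open Finset ArithmeticFunction
open Pool.Agent.Helper48.BK (ex th lz Vz Pz gs nd Apx AdN Sol thd sieve_APZ num_APZ tail_APZ
  sum_inv_APZ card_Pz_APZ Vz_pos_APZ ev_APZ mem_Pz_APZ)
open scoped ComplexConjugate

/-- Bernoulli (Weierstrass) inequality for products -/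
private theorem wei_AZ2 (s : Finset ℕ) (a : ℕ → ℝ) (h : ∀ i ∈ s, 0 ≤ a i ∧ a i ≤ 1) :
    1 - ∑ i ∈ s, a i ≤ ∏ i ∈ s, (1 - a i) ∧ ∏ i ∈ s, (1 - a i) ≤ 1 ∧
      0 ≤ ∏ i ∈ s, (1 - a i) := by
  classical
  induction s using Finset.induction_on with
  | empty => simp
  | insert i s hi ih =>
    obtain ⟨h1, h2, h3⟩ := ih (fun j hj => h j (mem_insert_of_mem hj))
    obtain ⟨h4, h5⟩ := h i (mem_insert_self i s)
    rw [sum_insert hi, prod_insert hi]
    refine ⟨?_, ?_, ?_⟩
    · nlinarith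
    · nlinarith
    · exact mul_nonneg (by linarith) h3

/-- the number of prime factors -/
private theorem card_AZ2 (q : ℕ) (hq : 1 ≤ q) : (q.primeFactors.card : ℝ) ≤ 2 * Real.log q := by
  have h1 : 2 ^ q.primeFactors.card ≤ q := by
    calc 2 ^ q.primeFactors.card ≤ ∏ p ∈ q.primeFactors, p :=
          pow_card_le_prod _ _ _ (fun p hp => (Nat.prime_of_mem_primeFactors hp).two_le)
      _ ≤ q := Nat.le_of_dvd hq (Nat.prod_primeFactors_dvd q)
  have h2 : ((2 : ℝ)) ^ q.primeFactors.card ≤ q := by exact_mod_cast h1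
  have h3 := Real.log_le_log (by positivity) h2
  rw [Real.log_pow] at h3
  have h4 := Real.log_two_gt_d9
  have h5 : (0 : ℝ) ≤ q.primeFactors.card := by positivity
  nlinarith

/-- the main term -/
private theorem tot_AZ2 (z q : ℕ) (hq : 1 ≤ q) :
    1 / Vz z * (1 / (q : ℝ) * ∏ p ∈ (Pz z).filter (fun p => ¬ p ∣ q), (1 - 1 / (p : ℝ))) =
      1 / (Nat.totient q : ℝ) * ∏ p ∈ q.primeFactors.filter (fun p => ¬ p ≤ z),
        (1 - 1 / (p : ℝ)) := by
  have h1 : Vz z = (∏ p ∈ (Pz z).filter (fun p => p ∣ q), (1 - 1 / (p : ℝ))) *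
      ∏ p ∈ (Pz z).filter (fun p => ¬ p ∣ q), (1 - 1 / (p : ℝ)) := by
    rw [Vz, Finset.prod_filter_mul_prod_filter_not]
  have h2 : (Pz z).filter (fun p => p ∣ q) = q.primeFactors.filter (fun p => p ≤ z) := by
    ext p
    rw [Finset.mem_filter, mem_Pz_APZ, Finset.mem_filter, Nat.mem_primeFactors]
    constructor
    · rintro ⟨⟨h3, h4⟩, h5⟩
      exact ⟨⟨h4, h5, by omega⟩, h3⟩
    · rintro ⟨⟨h4, h5, _⟩, h6⟩
      exact ⟨⟨h6, h4⟩, h5⟩
  have h3 : (Nat.totient q : ℝ) = q * ∏ p ∈ q.primeFactors, (1 - 1 / (p : ℝ)) := by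
    have h4 := Nat.totient_eq_mul_prod_factors q
    have h5 : ((Nat.totient q : ℚ) : ℝ) = ((q * ∏ p ∈ q.primeFactors, (1 - (p : ℚ)⁻¹) : ℚ) : ℝ) := by
      rw [h4]
    push_cast at h5
    rw [h5]
    congr 1
    exact Finset.prod_congr rfl fun p _ => by rw [one_div]
  have h6 : ∏ p ∈ q.primeFactors, (1 - 1 / (p : ℝ)) =
      (∏ p ∈ q.primeFactors.filter (fun p => p ≤ z), (1 - 1 / (p : ℝ))) *
        ∏ p ∈ q.primeFactors.filter (fun p => ¬ p ≤ z), (1 - 1 / (p : ℝ)) := by
    rw [Finset.prod_filter_mul_prod_filter_not]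
  rw [h2] at h1
  rw [h6] at h3
  have hV := Vz_pos_APZ z
  have hfac : ∀ p ∈ q.primeFactors, (1 - 1 / (p : ℝ)) ≠ 0 := by
    intro p hp
    have h7 : (1 : ℝ) < p := by exact_mod_cast (Nat.prime_of_mem_primeFactors hp).one_lt
    have h8 : 1 / (p : ℝ) < 1 := by rw [div_lt_one (by linarith)]; exact h7
    linarith
  have hne : (∏ p ∈ (Pz z).filter (fun p => ¬ p ∣ q), (1 - 1 / (p : ℝ))) ≠ 0 := by
    intro h0
    rw [h1, h0, mul_zero] at hV
    exact lt_irrefl _ hV
  have hne' : (∏ p ∈ q.primeFactors.filter (fun p => p ≤ z), (1 - 1 / (p : ℝ))) ≠ 0 := by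
    intro h0
    rw [h1, h0, zero_mul] at hV
    exact lt_irrefl _ hV
  have hne2 : (∏ p ∈ q.primeFactors.filter (fun p => ¬ p ≤ z), (1 - 1 / (p : ℝ))) ≠ 0 :=
    Finset.prod_ne_zero_iff.2 (fun p hp => hfac p (Finset.mem_filter.1 hp).1)
  have hq0 : (q : ℝ) ≠ 0 := by
    have : (1 : ℝ) ≤ q := by exact_mod_cast hq
    linarith
  rw [h1, h3]
  field_simp

theorem hAZ2 (ha : Pool.Agent.Helper48.BK.StBrun) (_hb : Pool.Agent.Helper48.BK.StTail)
    (hc : Pool.Agent.Helper48.BK.StVz) : StAZ2 := by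
  obtain ⟨c, hc0, hc⟩ := hc
  intro A B
  obtain ⟨K, hK⟩ : ∃ K : ℕ, K = 3 * B + A + 2 := ⟨_, rfl⟩
  obtain ⟨D, hD⟩ : ∃ D : ℝ, D = (A + 1) + B * (K + 2) + Real.log (12 * (B + 1) / c + 1) := ⟨_, rfl⟩
  obtain ⟨x₀, hx₀⟩ := Filter.eventually_atTop.1 (ev_APZ (2 * D) (1000 * (B + 1) / c + 10))
  refine ⟨x₀, fun x y z q u hx hyx hzA hzx hq hqx hcop => ?_⟩
  obtain ⟨ht1, hDt, hE⟩ := hx₀ x hx
  set l := Real.log x with hl
  set t := Real.log l with ht
  have hB0 : (0 : ℝ) ≤ B := Nat.cast_nonneg B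
  have hE0 : (0 : ℝ) ≤ 1000 * (B + 1) / c := by positivity
  have hl10 : 10 ≤ l := by linarith
  have hl0 : 0 < l := by linarith
  have hl1 : 1 ≤ l := by linarith
  have hx1 : 1 < x := by
    by_contra h
    have : (x : ℝ) ≤ 1 := by exact_mod_cast not_lt.1 h
    have := Real.log_nonpos (Nat.cast_nonneg x) this
    linarith
  have hxpos : (0 : ℝ) < x := by
    have : (1 : ℝ) < x := by exact_mod_cast hx1
    linarith
  have hexp : Real.exp t = l := Real.exp_log hl0
  have hexl : Real.exp l = x := Real.exp_log hxpos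
  have htl : t ≤ l := (Real.log_le_sub_one_of_pos hl0).trans (by linarith)
  have hz2 : 2 ≤ z := by
    have h1 : (10 : ℝ) ≤ z := by
      refine le_trans hl10 (le_trans ?_ hzA)
      calc l = l ^ 1 := (pow_one l).symm
        _ ≤ l ^ (A + 3) := pow_le_pow_right₀ hl1 (by omega)
    have h2 : 10 ≤ z := by exact_mod_cast h1
    omega
  have hz0 : (0 : ℝ) < z := by
    have : (2 : ℝ) ≤ z := by exact_mod_cast hz2
    linarith
  have hlz : Real.log z ≤ B * t := by
    have := Real.log_le_log hz0 hzx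
    rwa [Real.log_pow] at this
  have hlz0 : 0 ≤ Real.log z := Real.log_nonneg (by
    have : (2 : ℝ) ≤ z := by exact_mod_cast hz2
    linarith)
  have hq0 : (0 : ℝ) < q := by exact_mod_cast hq
  have hq1 : (1 : ℝ) ≤ q := by exact_mod_cast hq
  have hX : (0 : ℝ) ≤ x / q / l ^ A := by positivity
  -- `x / q` is large
  have hxq : Real.exp (l / 2) ≤ x / q := by
    rw [le_div_iff₀ hq0]
    have h1 : Real.exp (l / 2) ^ 2 = x := by
      rw [← Real.exp_nat_mul, ← hexl]
      congr 1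
      push_cast
      ring
    have h2 : (q : ℝ) ^ 2 ≤ Real.exp (l / 2) ^ 2 := by
      rw [h1]
      exact_mod_cast hqx
    have h3 : (q : ℝ) ≤ Real.exp (l / 2) :=
      le_of_sq_le_sq h2 (Real.exp_nonneg _)
    calc Real.exp (l / 2) * q ≤ Real.exp (l / 2) * Real.exp (l / 2) :=
          mul_le_mul_of_nonneg_left h3 (Real.exp_nonneg _)
      _ = x := by rw [← h1]; ring
  set P := (Pz z).filter (fun p => ¬ p ∣ q) with hPd
  have hP : ∀ p ∈ P, p.Prime ∧ Nat.Coprime p q := by
    intro p hp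
    rw [hPd, Finset.mem_filter, mem_Pz_APZ] at hp
    exact ⟨hp.1.2, (Nat.Prime.coprime_iff_not_dvd hp.1.2).2 hp.2⟩
  obtain ⟨r, hr⟩ : ∃ r : ℕ, r = ⌈K * t⌉₊ := ⟨_, rfl⟩
  have hr1 : (K : ℝ) * t ≤ r := by rw [hr]; exact Nat.le_ceil _
  have hr2 : (r : ℝ) ≤ K * t + 1 := by
    rw [hr]
    exact (Nat.ceil_lt_add_one (by positivity)).le
  have hsv := sieve_APZ ha P q hP hq y u r
  have hV := Vz_pos_APZ z
  -- the sum of the model
  have hsum : ∑ n ∈ (Ioc 0 y).filter (fun n => n ≡ u [MOD q]), lz z n =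
      1 / Vz z * ∑ n ∈ (Ioc 0 y).filter (fun n => n ≡ u [MOD q]),
        (if ∀ p ∈ P, ¬ p ∣ n then (1 : ℝ) else 0) := by
    rw [Finset.mul_sum]
    refine Finset.sum_congr rfl fun n hn => ?_
    have hnu := (Finset.mem_filter.1 hn).2
    have hiff : (∀ p ∈ Pz z, ¬ p ∣ n) ↔ ∀ p ∈ P, ¬ p ∣ n := by
      constructor
      · intro h p hp
        exact h p (Finset.mem_filter.1 hp).1
      · intro h p hp hpn
        by_cases hpq : p ∣ q
        · have hpu : p ∣ u := ((hnu.of_dvd hpq).dvd_iff dvd_rfl).1 hpn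
          exact (Nat.Prime.not_coprime_iff_dvd.2 ⟨p, ((mem_Pz_APZ z p).1 hp).2, hpu, hpq⟩) hcop
        · exact h p (Finset.mem_filter.2 ⟨hp, hpq⟩) hpn
    rw [lz]
    by_cases h : ∀ p ∈ Pz z, ¬ p ∣ n
    · rw [if_pos h, if_pos (hiff.1 h), mul_one]
    · rw [if_neg h, if_neg (fun h' => h (hiff.2 h')), mul_zero]
  have hVinv : 1 / Vz z ≤ Real.log z / c := by
    have h1 := hc z hz2
    have hlz1 : 0 < Real.log z := Real.log_pos (by
      have : (2 : ℝ) ≤ z := by exact_mod_cast hz2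
      linarith)
    rw [div_le_div_iff₀ hV hc0, one_mul]
    rw [div_le_iff₀ hlz1] at h1
    linarith
  have hnum := num_APZ P (r + 1) z (by omega)
    ((Finset.card_le_card (Finset.filter_subset _ _)).trans (card_Pz_APZ z))
  have htail := tail_APZ P (r + 1) (1 + Real.log z)
    ((Finset.sum_le_sum_of_subset_of_nonneg (Finset.filter_subset _ _)
      fun p _ _ => by positivity).trans (sum_inv_APZ z))
  have hyx' : (y : ℝ) ≤ x := by exact_mod_cast hyx
  have hyq : (y : ℝ) / q ≤ x / q := div_le_div_of_nonneg_right hyx' hq0.le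
  have hyq0 : (0 : ℝ) ≤ y / q := by positivity
  have hcl : Real.log z / c ≤ B / c * l := by
    rw [div_mul_eq_mul_div]
    exact div_le_div_of_nonneg_right (hlz.trans (mul_le_mul_of_nonneg_left htl hB0)) hc0.le
  -- first term
  have hT1 : Real.log z / c * (3 * (z : ℝ) ^ (r + 1)) ≤ (x / q) / (4 * l ^ A) := by
    have h1 : (z : ℝ) ^ (r + 1) ≤ Real.exp (B * (K * t + 2) * t) := by
      calc (z : ℝ) ^ (r + 1) ≤ (l ^ B) ^ (r + 1) := pow_le_pow_left₀ hz0.le hzx _
        _ = Real.exp ((B * (r + 1) : ℕ) * t) := by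
            rw [Real.exp_nat_mul, hexp, pow_mul]
        _ ≤ Real.exp (B * (K * t + 2) * t) := by
            refine Real.exp_le_exp.2 ?_
            push_cast
            refine mul_le_mul_of_nonneg_right ?_ (by linarith)
            exact mul_le_mul_of_nonneg_left (by linarith) hB0
    rw [le_div_iff₀ (by positivity)]
    calc Real.log z / c * (3 * (z : ℝ) ^ (r + 1)) * (4 * l ^ A)
        ≤ B / c * l * (3 * Real.exp (B * (K * t + 2) * t)) * (4 * l ^ A) := by
          gcongr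
      _ = 12 * B / c * (Real.exp t ^ (A + 1) * Real.exp (B * (K * t + 2) * t)) := by
          rw [hexp]; ring
      _ = 12 * B / c * Real.exp ((A + 1) * t + B * (K * t + 2) * t) := by
          rw [← Real.exp_nat_mul, ← Real.exp_add]
          push_cast
          rfl
      _ ≤ (12 * (B + 1) / c + 1) * Real.exp ((A + 1) * t + B * (K * t + 2) * t) := by
          refine mul_le_mul_of_nonneg_right ?_ (Real.exp_nonneg _)
          have : 12 * (B : ℝ) / c ≤ 12 * (B + 1) / c := by gcongr; linarith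
          linarith
      _ = Real.exp (Real.log (12 * (B + 1) / c + 1) + ((A + 1) * t + B * (K * t + 2) * t)) := by
          rw [Real.exp_add (Real.log _), Real.exp_log (by positivity)]
      _ ≤ Real.exp (D * t ^ 2) := by
          refine Real.exp_le_exp.2 ?_
          have hM : 0 ≤ Real.log (12 * (B + 1) / c + 1) := Real.log_nonneg (by
            have : 0 ≤ 12 * ((B : ℝ) + 1) / c := by positivity
            linarith)
          have ht2 : 1 ≤ t ^ 2 := one_le_pow₀ ht1
          have htt : t ≤ t ^ 2 := by nlinarith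
          have hA0 : (0 : ℝ) ≤ A := Nat.cast_nonneg A
          rw [hD]
          have e1 : Real.log (12 * (B + 1) / c + 1) ≤ Real.log (12 * (B + 1) / c + 1) * t ^ 2 :=
            le_mul_of_one_le_right hM ht2
          have e2 : ((A : ℝ) + 1) * t ≤ (A + 1) * t ^ 2 :=
            mul_le_mul_of_nonneg_left htt (by linarith)
          have e3 : (B : ℝ) * (K * t + 2) * t ≤ B * (K + 2) * t ^ 2 := by
            have : (B : ℝ) * (K + 2) * t ^ 2 - B * (K * t + 2) * t = 2 * B * (t ^ 2 - t) := by ring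
            have h5 : 0 ≤ 2 * (B : ℝ) * (t ^ 2 - t) := mul_nonneg (by linarith) (by linarith)
            linarith
          nlinarith [e1, e2, e3]
      _ ≤ Real.exp (l / 2) := Real.exp_le_exp.2 (by linarith)
      _ ≤ x / q := hxq
  -- second term
  have hT2 : Real.log z / c * (2 * (x / q) *
      Real.exp (3 * (1 + Real.log z) - ((r + 1 : ℕ) : ℝ))) ≤ (x / q) / (4 * l ^ A) := by
    have h1 : Real.exp (3 * (1 + Real.log z) - ((r + 1 : ℕ) : ℝ)) ≤
        21 / l ^ (A + 2) := by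
      have h2 : 3 * (1 + Real.log z) - ((r + 1 : ℕ) : ℝ) ≤ 3 - (A + 2 : ℕ) * t := by
        push_cast
        have h3 : (K : ℝ) = 3 * B + A + 2 := by rw [hK]; push_cast; ring
        rw [h3] at hr1
        nlinarith [hr1, hlz]
      have h4 : Real.exp 3 ≤ 21 := by
        have h5 := Real.exp_one_lt_d9
        have h6 : Real.exp 3 = Real.exp 1 ^ 3 := by
          rw [← Real.exp_nat_mul]; norm_num
        rw [h6]
        calc Real.exp 1 ^ 3 ≤ 2.7182818286 ^ 3 := pow_le_pow_left₀ (Real.exp_nonneg _) h5.le 3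
          _ ≤ 21 := by norm_num
      refine (Real.exp_le_exp.2 h2).trans ?_
      rw [Real.exp_sub, Real.exp_nat_mul, hexp]
      exact div_le_div_of_nonneg_right h4 (by positivity)
    calc Real.log z / c * (2 * (x / q) * Real.exp (3 * (1 + Real.log z) - ((r + 1 : ℕ) : ℝ)))
        ≤ B / c * l * (2 * (x / q) * (21 / l ^ (A + 2))) := by gcongr
      _ = (42 * B / c / l) * (x / q / l ^ A) := by
          field_simp
          ring
      _ ≤ (1 / 4) * (x / q / l ^ A) := by
          refine mul_le_mul_of_nonneg_right ?_ hX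
          rw [div_le_iff₀ hl0]
          have h3 : 42 * (B : ℝ) / c ≤ 1 / 4 * (1000 * (B + 1) / c) := by
            have h4 : 1 / 4 * (1000 * ((B : ℝ) + 1) / c) = 250 * (B + 1) / c := by ring
            rw [h4]
            exact div_le_div_of_nonneg_right (by linarith) hc0.le
          linarith [h3, hE]
      _ = (x / q) / (4 * l ^ A) := by
          field_simp
  -- the error of the sieve
  have hS1 : |∑ n ∈ (Ioc 0 y).filter (fun n => n ≡ u [MOD q]), lz z n -
      1 / Vz z * ((y : ℝ) / q * ∏ p ∈ P, (1 - 1 / (p : ℝ)))| ≤ (x / q) / (2 * l ^ A) := by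
    rw [hsum, ← mul_sub, abs_mul, abs_of_pos (by positivity : (0 : ℝ) < 1 / Vz z)]
    calc 1 / Vz z * |∑ n ∈ (Ioc 0 y).filter (fun n => n ≡ u [MOD q]),
          (if ∀ p ∈ P, ¬ p ∣ n then (1 : ℝ) else 0) - (y : ℝ) / q * ∏ p ∈ P, (1 - 1 / (p : ℝ))|
        ≤ Real.log z / c * (3 * (z : ℝ) ^ (r + 1) +
            2 * (x / q) * Real.exp (3 * (1 + Real.log z) - ((r + 1 : ℕ) : ℝ))) := by
          refine mul_le_mul hVinv (hsv.trans ?_) (abs_nonneg _) (by positivity)
          refine add_le_add hnum ?_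
          refine mul_le_mul ?_ htail (Finset.sum_nonneg fun T _ => by positivity) (by positivity)
          linarith
      _ = Real.log z / c * (3 * (z : ℝ) ^ (r + 1)) + Real.log z / c *
            (2 * (x / q) * Real.exp (3 * (1 + Real.log z) - ((r + 1 : ℕ) : ℝ))) := by ring
      _ ≤ (x / q) / (4 * l ^ A) + (x / q) / (4 * l ^ A) := add_le_add hT1 hT2
      _ = (x / q) / (2 * l ^ A) := by
          field_simp
          ring
  -- the main term
  set W : ℝ := ∏ p ∈ q.primeFactors.filter (fun p => ¬ p ≤ z), (1 - 1 / (p : ℝ)) with hW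
  have hmain : 1 / Vz z * ((y : ℝ) / q * ∏ p ∈ P, (1 - 1 / (p : ℝ))) =
      (y : ℝ) / Nat.totient q * W := by
    have h1 := tot_AZ2 z q hq
    calc 1 / Vz z * ((y : ℝ) / q * ∏ p ∈ P, (1 - 1 / (p : ℝ)))
        = y * (1 / Vz z * (1 / (q : ℝ) * ∏ p ∈ P, (1 - 1 / (p : ℝ)))) := by ring
      _ = y * (1 / (Nat.totient q : ℝ) * W) := by rw [h1]
      _ = _ := by ring
  have hWb := wei_AZ2 (q.primeFactors.filter (fun p => ¬ p ≤ z)) (fun p => 1 / (p : ℝ)) (by
    intro p hp
    have h7 : (1 : ℝ) < p := by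
      exact_mod_cast (Nat.prime_of_mem_primeFactors (Finset.mem_filter.1 hp).1).one_lt
    refine ⟨by positivity, ?_⟩
    rw [div_le_one (by linarith)]
    exact h7.le)
  obtain ⟨hW1, hW2, hW3⟩ := hWb
  have hsm : ∑ p ∈ q.primeFactors.filter (fun p => ¬ p ≤ z), 1 / (p : ℝ) ≤ 1 / l ^ (A + 2) := by
    calc ∑ p ∈ q.primeFactors.filter (fun p => ¬ p ≤ z), 1 / (p : ℝ)
        ≤ ∑ p ∈ q.primeFactors.filter (fun p => ¬ p ≤ z), 1 / l ^ (A + 3) := by
          refine Finset.sum_le_sum fun p hp => ?_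
          have h1 := (Finset.mem_filter.1 hp).2
          have h2 : (z : ℝ) ≤ p := by exact_mod_cast (not_le.1 h1).le
          exact one_div_le_one_div_of_le (by positivity) (hzA.trans h2)
      _ = ((q.primeFactors.filter (fun p => ¬ p ≤ z)).card : ℝ) * (1 / l ^ (A + 3)) := by
          rw [Finset.sum_const, nsmul_eq_mul]
      _ ≤ l * (1 / l ^ (A + 3)) := by
          refine mul_le_mul_of_nonneg_right ?_ (by positivity)
          have h1 : ((q.primeFactors.filter (fun p => ¬ p ≤ z)).card : ℝ) ≤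
              q.primeFactors.card := by
            exact_mod_cast Finset.card_le_card (Finset.filter_subset _ _)
          have h2 := card_AZ2 q hq
          have h3 : 2 * Real.log q ≤ l := by
            have h4 : ((q : ℝ)) ^ 2 ≤ x := by exact_mod_cast hqx
            have h5 := Real.log_le_log (by positivity) h4
            rw [Real.log_pow] at h5
            exact_mod_cast h5
          linarith
      _ = 1 / l ^ (A + 2) := by
          rw [show A + 3 = (A + 2) + 1 by ring, pow_succ]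
          field_simp
  have hlA : (1 : ℝ) ≤ l ^ A := one_le_pow₀ hl1
  have hsm2 : (1 : ℝ) / l ^ (A + 2) ≤ 1 / 2 := by
    rw [pow_add]
    have h1 : (2 : ℝ) ≤ l ^ A * l ^ 2 := by nlinarith
    exact one_div_le_one_div_of_le (by norm_num) h1
  have hWhalf : 1 / 2 ≤ W := by linarith
  have hW4 : 1 - W ≤ 1 / l ^ (A + 2) := by linarith
  have htot0 : (0 : ℝ) ≤ (y : ℝ) / Nat.totient q := by positivity
  have hPle : ∏ p ∈ P, (1 - 1 / (p : ℝ)) ≤ 1 := by
    have := wei_AZ2 P (fun p => 1 / (p : ℝ)) (by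
      intro p hp
      have h7 : (1 : ℝ) < p := by
        exact_mod_cast (hP p hp).1.one_lt
      refine ⟨by positivity, ?_⟩
      rw [div_le_one (by linarith)]
      exact h7.le)
    exact this.2.1
  have hM1 : (y : ℝ) / Nat.totient q * W ≤ B / c * l * (x / q) := by
    rw [← hmain]
    have h1 : (y : ℝ) / q * ∏ p ∈ P, (1 - 1 / (p : ℝ)) ≤ x / q := by
      calc (y : ℝ) / q * ∏ p ∈ P, (1 - 1 / (p : ℝ)) ≤ (y : ℝ) / q * 1 :=
            mul_le_mul_of_nonneg_left hPle hyq0
        _ ≤ x / q := by linarith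
    calc 1 / Vz z * ((y : ℝ) / q * ∏ p ∈ P, (1 - 1 / (p : ℝ)))
        ≤ 1 / Vz z * (x / q) := mul_le_mul_of_nonneg_left h1 (by positivity)
      _ ≤ B / c * l * (x / q) :=
          mul_le_mul_of_nonneg_right (hVinv.trans hcl) (by positivity)
  have hS2 : |1 / Vz z * ((y : ℝ) / q * ∏ p ∈ P, (1 - 1 / (p : ℝ))) -
      (y : ℝ) / Nat.totient q| ≤ (x / q) / (2 * l ^ A) := by
    rw [hmain]
    have h1 : (y : ℝ) / Nat.totient q * W - (y : ℝ) / Nat.totient q =
        -((y : ℝ) / Nat.totient q * (1 - W)) := by ring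
    rw [h1, abs_neg, abs_of_nonneg (mul_nonneg htot0 (by linarith))]
    have h2 : (y : ℝ) / Nat.totient q ≤ 2 * (B / c * l * (x / q)) := by
      have h3 : (y : ℝ) / Nat.totient q * (1 / 2) ≤ (y : ℝ) / Nat.totient q * W :=
        mul_le_mul_of_nonneg_left hWhalf htot0
      linarith
    calc (y : ℝ) / Nat.totient q * (1 - W)
        ≤ 2 * (B / c * l * (x / q)) * (1 / l ^ (A + 2)) :=
          mul_le_mul h2 hW4 (by linarith) (by positivity)
      _ = (2 * B / c / l) * (x / q / l ^ A) := by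
          rw [pow_add]
          field_simp
      _ ≤ (1 / 2) * (x / q / l ^ A) := by
          refine mul_le_mul_of_nonneg_right ?_ hX
          rw [div_le_iff₀ hl0]
          have h3 : 2 * (B : ℝ) / c ≤ 1 / 2 * (1000 * (B + 1) / c) := by
            have h4 : 1 / 2 * (1000 * ((B : ℝ) + 1) / c) = 500 * (B + 1) / c := by ring
            rw [h4]
            exact div_le_div_of_nonneg_right (by linarith) hc0.le
          linarith [h3, hE]
      _ = (x / q) / (2 * l ^ A) := by
          field_simp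
  calc |∑ n ∈ (Ioc 0 y).filter (fun n => n ≡ u [MOD q]), lz z n - (y : ℝ) / Nat.totient q|
      ≤ |∑ n ∈ (Ioc 0 y).filter (fun n => n ≡ u [MOD q]), lz z n -
          1 / Vz z * ((y : ℝ) / q * ∏ p ∈ P, (1 - 1 / (p : ℝ)))| +
        |1 / Vz z * ((y : ℝ) / q * ∏ p ∈ P, (1 - 1 / (p : ℝ))) -
          (y : ℝ) / Nat.totient q| := abs_sub_le _ _ _
    _ ≤ (x / q) / (2 * l ^ A) + (x / q) / (2 * l ^ A) := add_le_add hS1 hS2
    _ = x / q / l ^ A := by
        field_simp
        ring

end Pool.Agent.Helper49.PC
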