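import Pool.Agent.Helper49.PC.StC

/-!
# Project PC, module BDC: decomposition of the bilinear sum in short pieces
-/

set_option autoImplicit false

namespace Pool.Agent.Helper49.PC

open Finset ArithmeticFunction
open Pool.Agent.Helper48.BK (ex th lz Vz Pz gs nd Apx AdN Sol thd)
open scoped ComplexConjugate

private noncomputable def r_BDC (α β K : ℕ → ℝ) (ι : ℕ → ℕ) (w₀ w₁ k l : ℕ) : ℝ :=
  if (w₀ < k * l ∧ k * l ≤ w₁) ∧ ¬ ((w₀ : ℝ) < l * K (ι k) ∧ (l : ℝ) * K (ι k + 1) ≤ w₁) then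
    α k * β l else 0

private noncomputable def rho_BDC (α β K : ℕ → ℝ) (ι : ℕ → ℕ) (X w₀ w₁ n : ℕ) : ℝ :=
  ∑ k ∈ (Ioc 0 X).filter (fun k => 2 ≤ k), ∑ l ∈ Ioc 0 X,
    if k * l = n then r_BDC α β K ι w₀ w₁ k l else 0

private theorem exists_iota_BDC (K : ℕ → ℝ) (J X : ℕ) (h0 : K 0 = 1) (hX : (X : ℝ) ≤ K J) :
    ∃ ι : ℕ → ℕ, ∀ k, 2 ≤ k → k ≤ X → ι k < J ∧ K (ι k) < k ∧ (k : ℝ) ≤ K (ι k + 1) := by
  have h : ∀ k : ℕ, ∃ i, 2 ≤ k → k ≤ X → i < J ∧ K i < k ∧ (k : ℝ) ≤ K (i + 1) := by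
    intro k
    by_cases hk : 2 ≤ k ∧ k ≤ X
    · have hex : ∃ j, (k : ℝ) ≤ K j := ⟨J, le_trans (by exact_mod_cast hk.2) hX⟩
      have hj := Nat.find_spec hex
      have hjJ : Nat.find hex ≤ J := Nat.find_min' hex (le_trans (by exact_mod_cast hk.2) hX)
      have hj0 : Nat.find hex ≠ 0 := by
        intro h
        rw [h, h0] at hj
        have : (2 : ℝ) ≤ k := by exact_mod_cast hk.1
        linarith
      refine ⟨Nat.find hex - 1, fun _ _ => ⟨by omega, ?_, ?_⟩⟩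
      · have := Nat.find_min hex (m := Nat.find hex - 1) (by omega)
        push Not at this
        exact this
      · rw [Nat.sub_add_cancel (Nat.pos_of_ne_zero hj0)]
        exact hj
    · exact ⟨0, fun h1 h2 => absurd ⟨h1, h2⟩ hk⟩
  choose ι hι using h
  exact ⟨ι, hι⟩

private theorem iota_iff_BDC {K : ℕ → ℝ} {J X : ℕ} {ι : ℕ → ℕ} (h0 : K 0 = 1)
    (hmono : Monotone K)
    (hι : ∀ k, 2 ≤ k → k ≤ X → ι k < J ∧ K (ι k) < k ∧ (k : ℝ) ≤ K (ι k + 1)) (k : ℕ)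
    (hk : k ≤ X) (i : ℕ) : (K i < k ∧ (k : ℝ) ≤ K (i + 1)) ↔ (2 ≤ k ∧ ι k = i) := by
  constructor
  · rintro ⟨h1, h2⟩
    have hk2 : 2 ≤ k := by
      have h3 : K 0 ≤ K i := hmono (Nat.zero_le i)
      rw [h0] at h3
      have : (1 : ℝ) < k := lt_of_le_of_lt h3 h1
      exact_mod_cast this
    refine ⟨hk2, ?_⟩
    obtain ⟨-, h4, h5⟩ := hι k hk2 hk
    rcases lt_trichotomy (ι k) i with h | h | h
    · have := hmono (show ι k + 1 ≤ i from h)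
      linarith
    · exact h
    · have := hmono (show i + 1 ≤ ι k from h)
      linarith
  · rintro ⟨h1, rfl⟩
    exact (hι k h1 hk).2

private theorem split_BDC {K : ℕ → ℝ} {J X : ℕ} {ι : ℕ → ℕ} (h0 : K 0 = 1)
    (hmono : Monotone K)
    (hι : ∀ k, 2 ≤ k → k ≤ X → ι k < J ∧ K (ι k) < k ∧ (k : ℝ) ≤ K (ι k + 1))
    (α β : ℕ → ℝ) (w₀ w₁ : ℕ) (hw : w₁ ≤ X) (hα : α 1 = 0) {q : ℕ}
    (χ : DirichletCharacter ℂ q) :
    Bil χ α β X w₀ w₁ =
      ∑ i ∈ range J, (∑ k ∈ (Ioc 0 X).filter (fun k : ℕ => K i < (k : ℝ) ∧ (k : ℝ) ≤ K (i + 1)),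
          ((α k : ℝ) : ℂ) * χ (k : ZMod q)) *
        (∑ l ∈ Ioc 0 X, if ((w₀ : ℝ) < l * K i ∧ (l : ℝ) * K (i + 1) ≤ w₁) then
          ((β l : ℝ) : ℂ) * χ (l : ZMod q) else 0) +
      ∑ n ∈ Ioc 0 X, ((rho_BDC α β K ι X w₀ w₁ n : ℝ) : ℂ) * χ (n : ZMod q) := by
  have hK1 : ∀ i, 1 ≤ K i := fun i => h0 ▸ hmono (Nat.zero_le i)
  -- first part
  have hA : ∑ i ∈ range J,
        (∑ k ∈ (Ioc 0 X).filter (fun k : ℕ => K i < (k : ℝ) ∧ (k : ℝ) ≤ K (i + 1)),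
          ((α k : ℝ) : ℂ) * χ (k : ZMod q)) *
        (∑ l ∈ Ioc 0 X, if ((w₀ : ℝ) < l * K i ∧ (l : ℝ) * K (i + 1) ≤ w₁) then
          ((β l : ℝ) : ℂ) * χ (l : ZMod q) else 0) =
      ∑ k ∈ (Ioc 0 X).filter (fun k => 2 ≤ k), ∑ l ∈ Ioc 0 X,
        if ((w₀ : ℝ) < l * K (ι k) ∧ (l : ℝ) * K (ι k + 1) ≤ w₁) then
          ((α k : ℝ) : ℂ) * χ (k : ZMod q) * (((β l : ℝ) : ℂ) * χ (l : ZMod q)) else 0 := by
    rw [← Finset.sum_fiberwise_of_maps_to (s := (Ioc 0 X).filter (fun k => 2 ≤ k))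
      (t := range J) (g := ι)]
    · refine Finset.sum_congr rfl fun i _ => ?_
      rw [Finset.filter_filter, Finset.sum_mul]
      refine Finset.sum_congr ?_ ?_
      · refine Finset.filter_congr fun k hk => ?_
        exact iota_iff_BDC h0 hmono hι k (Finset.mem_Ioc.1 hk).2 i
      · intro k hk
        obtain ⟨-, -, rfl⟩ := Finset.mem_filter.1 hk
        rw [Finset.mul_sum]
        refine Finset.sum_congr rfl fun l _ => ?_
        split_ifs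
        · rfl
        · rw [mul_zero]
    · intro k hk
      obtain ⟨hk1, hk2⟩ := Finset.mem_filter.1 hk
      exact Finset.mem_range.2 (hι k hk2 (Finset.mem_Ioc.1 hk1).2).1
  have hR : ∑ n ∈ Ioc 0 X, ((rho_BDC α β K ι X w₀ w₁ n : ℝ) : ℂ) * χ (n : ZMod q) =
      ∑ k ∈ (Ioc 0 X).filter (fun k => 2 ≤ k), ∑ l ∈ Ioc 0 X,
        ((r_BDC α β K ι w₀ w₁ k l : ℝ) : ℂ) * (χ (k : ZMod q) * χ (l : ZMod q)) := by
    unfold rho_BDC
    have h1 : ∀ n ∈ Ioc 0 X, ((∑ k ∈ (Ioc 0 X).filter (fun k => 2 ≤ k), ∑ l ∈ Ioc 0 X,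
        (if k * l = n then r_BDC α β K ι w₀ w₁ k l else 0) : ℝ) : ℂ) * χ (n : ZMod q) =
        ∑ k ∈ (Ioc 0 X).filter (fun k => 2 ≤ k), ∑ l ∈ Ioc 0 X,
        (if k * l = n then ((r_BDC α β K ι w₀ w₁ k l : ℝ) : ℂ) * χ (n : ZMod q) else 0) := by
      intro n _
      rw [Complex.ofReal_sum, Finset.sum_mul]
      refine Finset.sum_congr rfl fun k _ => ?_
      rw [Complex.ofReal_sum, Finset.sum_mul]
      refine Finset.sum_congr rfl fun l _ => ?_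
      split_ifs
      · rfl
      · simp
    rw [Finset.sum_congr rfl h1, Finset.sum_comm]
    refine Finset.sum_congr rfl fun k hk => ?_
    rw [Finset.sum_comm]
    refine Finset.sum_congr rfl fun l hl => ?_
    rw [Finset.sum_ite_eq]
    have hk0 := (Finset.mem_Ioc.1 (Finset.mem_filter.1 hk).1).1
    have hl0 := (Finset.mem_Ioc.1 hl).1
    by_cases hkl : k * l ∈ Ioc 0 X
    · rw [if_pos hkl, Nat.cast_mul, map_mul]
    · rw [if_neg hkl]
      have : r_BDC α β K ι w₀ w₁ k l = 0 := by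
        unfold r_BDC
        rw [if_neg]
        rintro ⟨⟨-, h3⟩, -⟩
        exact hkl (Finset.mem_Ioc.2 ⟨Nat.mul_pos hk0 hl0, h3.trans hw⟩)
      rw [this]
      simp
  rw [hA, hR, ← Finset.sum_add_distrib]
  unfold Bil
  rw [← Finset.sum_filter_add_sum_filter_not (Ioc 0 X) (fun k => 2 ≤ k)]
  have hz : ∑ k ∈ (Ioc 0 X).filter (fun k => ¬ 2 ≤ k), ∑ l ∈ Ioc 0 X,
      (if w₀ < k * l ∧ k * l ≤ w₁ then
        ((α k * β l : ℝ) : ℂ) * (χ (k : ZMod q) * χ (l : ZMod q)) else 0) = 0 := by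
    refine Finset.sum_eq_zero fun k hk => ?_
    obtain ⟨hk1, hk2⟩ := Finset.mem_filter.1 hk
    have hk3 : k = 1 := by
      have := (Finset.mem_Ioc.1 hk1).1
      omega
    subst hk3
    refine Finset.sum_eq_zero fun l _ => ?_
    rw [hα]
    simp
  rw [hz, add_zero]
  refine Finset.sum_congr rfl fun k hk => ?_
  obtain ⟨hk1, hk2⟩ := Finset.mem_filter.1 hk
  obtain ⟨hi1, hi2, hi3⟩ := hι k hk2 (Finset.mem_Ioc.1 hk1).2
  rw [← Finset.sum_add_distrib]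
  refine Finset.sum_congr rfl fun l hl => ?_
  have hl0 : (0 : ℝ) < l := by exact_mod_cast (Finset.mem_Ioc.1 hl).1
  unfold r_BDC
  by_cases hc : (w₀ : ℝ) < l * K (ι k) ∧ (l : ℝ) * K (ι k + 1) ≤ w₁
  · have h1 : w₀ < k * l ∧ k * l ≤ w₁ := by
      constructor
      · have : (w₀ : ℝ) < k * l := by nlinarith [hc.1]
        exact_mod_cast this
      · have : (k : ℝ) * l ≤ w₁ := by nlinarith [hc.2]
        exact_mod_cast this
    rw [if_pos h1, if_pos hc, if_neg (fun h => h.2 hc)]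
    push_cast
    ring
  · rw [if_neg hc]
    by_cases h1 : w₀ < k * l ∧ k * l ≤ w₁
    · rw [if_pos h1, if_pos ⟨h1, hc⟩, zero_add]
    · rw [if_neg h1, if_neg (fun h => h1 h.1)]
      simp

private theorem rho_le_BDC (α β K : ℕ → ℝ) (ι : ℕ → ℕ) (X w₀ w₁ n : ℕ) (T : ℝ)
    (hα : ∀ n, |α n| ≤ T * (n.divisors.card : ℝ)) (hβ : ∀ n, |β n| ≤ T * (n.divisors.card : ℝ))
    (hT : 0 ≤ T) :
    |rho_BDC α β K ι X w₀ w₁ n| ≤ T ^ 2 * (n.divisors.card : ℝ) ^ 3 := by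
  unfold rho_BDC
  rw [← Finset.sum_product', ← Finset.sum_filter]
  refine (Finset.abs_sum_le_sum_abs _ _).trans ?_
  have hb : ∀ p ∈ ((((Ioc 0 X).filter (fun k => 2 ≤ k)) ×ˢ (Ioc 0 X)).filter
      (fun p : ℕ × ℕ => p.1 * p.2 = n)),
      |r_BDC α β K ι w₀ w₁ p.1 p.2| ≤ T ^ 2 * (n.divisors.card : ℝ) ^ 2 := by
    intro p hp
    obtain ⟨hp1, hp2⟩ := Finset.mem_filter.1 hp
    obtain ⟨hp3, hp4⟩ := Finset.mem_product.1 hp1
    have hk0 := (Finset.mem_Ioc.1 (Finset.mem_filter.1 hp3).1).1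
    have hl0 := (Finset.mem_Ioc.1 hp4).1
    have hn0 : n ≠ 0 := by
      rw [← hp2]
      exact (Nat.mul_pos hk0 hl0).ne'
    have hd1 : (p.1.divisors.card : ℝ) ≤ n.divisors.card := by
      exact_mod_cast Finset.card_le_card (Nat.divisors_subset_of_dvd hn0 ⟨p.2, hp2.symm⟩)
    have hd2 : (p.2.divisors.card : ℝ) ≤ n.divisors.card := by
      exact_mod_cast Finset.card_le_card (Nat.divisors_subset_of_dvd hn0
        ⟨p.1, by rw [mul_comm]; exact hp2.symm⟩)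
    unfold r_BDC
    split_ifs
    · rw [abs_mul]
      have h1 : |α p.1| ≤ T * (n.divisors.card : ℝ) :=
        (hα p.1).trans (mul_le_mul_of_nonneg_left hd1 hT)
      have h2 : |β p.2| ≤ T * (n.divisors.card : ℝ) :=
        (hβ p.2).trans (mul_le_mul_of_nonneg_left hd2 hT)
      calc |α p.1| * |β p.2| ≤ (T * (n.divisors.card : ℝ)) * (T * (n.divisors.card : ℝ)) :=
            mul_le_mul h1 h2 (abs_nonneg _) (by positivity)
        _ = _ := by ring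
    · rw [abs_zero]
      positivity
  refine (Finset.sum_le_sum hb).trans ?_
  rw [Finset.sum_const, nsmul_eq_mul]
  have hcard : ((((Ioc 0 X).filter (fun k => 2 ≤ k)) ×ˢ (Ioc 0 X)).filter
      (fun p : ℕ × ℕ => p.1 * p.2 = n)).card ≤ n.divisors.card := by
    refine Finset.card_le_card_of_injOn (fun p => p.1) ?_ ?_
    · intro p hp
      obtain ⟨hp1, hp2⟩ := Finset.mem_filter.1 hp
      obtain ⟨hp3, hp4⟩ := Finset.mem_product.1 hp1
      have hk0 := (Finset.mem_Ioc.1 (Finset.mem_filter.1 hp3).1).1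
      have hl0 := (Finset.mem_Ioc.1 hp4).1
      refine Nat.mem_divisors.2 ⟨⟨p.2, hp2.symm⟩, ?_⟩
      rw [← hp2]
      exact (Nat.mul_pos hk0 hl0).ne'
    · intro p hp p' hp' h
      obtain ⟨hp1, hp2⟩ := Finset.mem_filter.1 (Finset.mem_coe.1 hp)
      obtain ⟨hp3, hp4⟩ := Finset.mem_product.1 hp1
      obtain ⟨-, hp2'⟩ := Finset.mem_filter.1 (Finset.mem_coe.1 hp')
      have hk0 := (Finset.mem_Ioc.1 (Finset.mem_filter.1 hp3).1).1
      have h' : p.1 = p'.1 := h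
      refine Prod.ext h' ?_
      refine Nat.eq_of_mul_eq_mul_left hk0 ?_
      rw [hp2, h', hp2']
  have hcard' : ((((((Ioc 0 X).filter (fun k => 2 ≤ k)) ×ˢ (Ioc 0 X)).filter
      (fun p : ℕ × ℕ => p.1 * p.2 = n)).card : ℕ) : ℝ) ≤ n.divisors.card := by
    exact_mod_cast hcard
  calc _ ≤ (n.divisors.card : ℝ) * (T ^ 2 * (n.divisors.card : ℝ) ^ 2) :=
        mul_le_mul_of_nonneg_right hcard' (by positivity)
    _ = _ := by ring

private theorem rho_supp_BDC {K : ℕ → ℝ} {J X : ℕ} {ι : ℕ → ℕ} {δ : ℝ} (hδ : 0 < δ)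
    (hK : ∀ i, K (i + 1) = (1 + δ) * K i)
    (hι : ∀ k, 2 ≤ k → k ≤ X → ι k < J ∧ K (ι k) < k ∧ (k : ℝ) ≤ K (ι k + 1))
    (α β : ℕ → ℝ) (w₀ w₁ n : ℕ) (hn : rho_BDC α β K ι X w₀ w₁ n ≠ 0) :
    ((w₀ : ℝ) < n ∧ (n : ℝ) ≤ (1 + δ) * w₀) ∨ ((w₁ : ℝ) < (1 + δ) * n ∧ n ≤ w₁) := by
  unfold rho_BDC at hn
  obtain ⟨k, hk, hn⟩ := Finset.exists_ne_zero_of_sum_ne_zero hn
  obtain ⟨l, hl, hn⟩ := Finset.exists_ne_zero_of_sum_ne_zero hn
  obtain ⟨hk1, hk2⟩ := Finset.mem_filter.1 hk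
  obtain ⟨-, hi2, hi3⟩ := hι k hk2 (Finset.mem_Ioc.1 hk1).2
  have hl0 : (0 : ℝ) < l := by exact_mod_cast (Finset.mem_Ioc.1 hl).1
  split_ifs at hn with hkl
  · unfold r_BDC at hn
    split_ifs at hn with hc
    · obtain ⟨⟨h1, h2⟩, h3⟩ := hc
      rw [hkl] at h1 h2
      have hkl' : (k : ℝ) * l = n := by exact_mod_cast hkl
      rw [hK] at hi3 h3
      by_cases h4 : (w₀ : ℝ) < l * K (ι k)
      · right
        have h5 : ¬ (l : ℝ) * ((1 + δ) * K (ι k)) ≤ w₁ := fun h => h3 ⟨h4, h⟩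
        push Not at h5
        refine ⟨?_, h2⟩
        rw [← hkl']
        have h6 : (l : ℝ) * ((1 + δ) * K (ι k)) ≤ (1 + δ) * (k * l) := by
          have : (1 + δ) * l * K (ι k) ≤ (1 + δ) * l * k := by gcongr
          nlinarith
        linarith
      · left
        push Not at h4
        refine ⟨by exact_mod_cast h1, ?_⟩
        rw [← hkl']
        calc (k : ℝ) * l ≤ ((1 + δ) * K (ι k)) * l := by gcongr
          _ = (1 + δ) * (l * K (ι k)) := by ring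
          _ ≤ (1 + δ) * w₀ := by gcongr
    · exact absurd rfl hn
  · exact absurd rfl hn

theorem hBDC (h1 : StPCE) (h2 : StLEF) : StBDC := by
  obtain ⟨C, hC, hP⟩ := h1
  refine ⟨2 * C, by positivity, ?_⟩
  intro q _ X U w₀ w₁ α β T δ V Y 𝓖 S hX hq1 hq2 hU hT hα hβ hδ hδ1 hw hwX hV hS hSY
  have hX1 : (1 : ℝ) ≤ X := by exact_mod_cast (by omega : 1 ≤ X)
  have hlog0 : 0 ≤ Real.log X := Real.log_nonneg hX1
  set K : ℕ → ℝ := fun i => (1 + δ) ^ i with hKdef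
  have h0 : K 0 = 1 := by simp [hKdef]
  have hKs : ∀ i, K (i + 1) = (1 + δ) * K i := by
    intro i
    simp only [hKdef]
    ring
  have hmono : Monotone K := by
    intro i j hij
    exact pow_le_pow_right₀ (by linarith) hij
  have hK1 : ∀ i, 1 ≤ K i := fun i => h0 ▸ hmono (Nat.zero_le i)
  set J : ℕ := ⌈2 * Real.log X / δ⌉₊ with hJ
  have hJ1 : (X : ℝ) ≤ K J := by
    have hl1 : δ / 2 ≤ Real.log (1 + δ) := by
      refine le_trans ?_ (Real.one_sub_inv_le_log_of_pos (by linarith))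
      rw [div_le_iff₀ (by norm_num : (0 : ℝ) < 2)]
      have : (1 + δ)⁻¹ ≤ 1 - δ / 2 := by
        rw [inv_le_comm₀ (by linarith) (by linarith)]
        rw [inv_eq_one_div, div_le_iff₀ (by linarith)]
        nlinarith
      linarith
    have hl2 : 2 * Real.log X / δ ≤ J := Nat.le_ceil _
    rw [div_le_iff₀ hδ] at hl2
    have hJ0 : (0 : ℝ) ≤ J := Nat.cast_nonneg _
    have hl3 : Real.log X ≤ J * Real.log (1 + δ) := by nlinarith
    calc (X : ℝ) = Real.exp (Real.log X) := (Real.exp_log (by linarith)).symm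
      _ ≤ Real.exp (J * Real.log (1 + δ)) := Real.exp_le_exp.2 hl3
      _ = K J := by rw [Real.exp_nat_mul, Real.exp_log (by linarith)]
  have hJ2 : (J : ℝ) ≤ 2 * (1 + Real.log X) / δ := by
    have h3 : (J : ℝ) < 2 * Real.log X / δ + 1 := Nat.ceil_lt_add_one (by positivity)
    rw [le_div_iff₀ hδ]
    have h4 : (2 * Real.log X / δ + 1) * δ = 2 * Real.log X + δ := by field_simp
    nlinarith
  obtain ⟨ι, hι⟩ := exists_iota_BDC K J X h0 hJ1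
  have hα1 : α 1 = 0 := hα.2 1 hU
  set A : ℕ → DirichletCharacter ℂ q → ℂ := fun i χ =>
    ∑ k ∈ (Ioc 0 X).filter (fun k : ℕ => K i < (k : ℝ) ∧ (k : ℝ) ≤ K (i + 1)),
      ((α k : ℝ) : ℂ) * χ (k : ZMod q) with hA
  set B : ℕ → DirichletCharacter ℂ q → ℂ := fun i χ =>
    ∑ l ∈ Ioc 0 X, if ((w₀ : ℝ) < l * K i ∧ (l : ℝ) * K (i + 1) ≤ w₁) then
      ((β l : ℝ) : ℂ) * χ (l : ZMod q) else 0 with hB
  set R : DirichletCharacter ℂ q → ℂ := fun χ =>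
    ∑ n ∈ Ioc 0 X, ((rho_BDC α β K ι X w₀ w₁ n : ℝ) : ℂ) * χ (n : ZMod q) with hR
  have hsplit : ∀ χ : DirichletCharacter ℂ q, ‖Bil χ α β X w₀ w₁‖ ≤
      ∑ i ∈ range J, ‖A i χ‖ * ‖B i χ‖ + ‖R χ‖ := by
    intro χ
    rw [split_BDC h0 hmono hι α β w₀ w₁ hwX hα1 χ]
    refine (norm_add_le _ _).trans (add_le_add ?_ le_rfl)
    refine (norm_sum_le _ _).trans (le_of_eq ?_)
    exact Finset.sum_congr rfl fun i _ => norm_mul _ _
  -- the pieces
  have hpiece : ∀ i, ∑ χ ∈ 𝓖, S χ * (‖A i χ‖ * ‖B i χ‖) ≤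
      C * T ^ 2 * X * (1 + Real.log X) ^ 18 * √(√(V ^ 2 * Y)) := by
    intro i
    have hβ' : Cf T U (fun l : ℕ => if (l : ℝ) * K (i + 1) ≤ w₁ then β l else 0) := by
      constructor
      · intro n
        show |if (n : ℝ) * K (i + 1) ≤ w₁ then β n else 0| ≤ _
        split_ifs
        · exact hβ.1 n
        · rw [abs_zero]
          positivity
      · intro n hn
        show (if (n : ℝ) * K (i + 1) ≤ w₁ then β n else 0) = 0
        split_ifs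
        · exact hβ.2 n hn
        · rfl
    have hp := hP q X U α (fun l : ℕ => if (l : ℝ) * K (i + 1) ≤ w₁ then β l else 0) T (K i)
      (K (i + 1)) (w₀ / K i) V Y 𝓖 S hX hq1 hq2 hT hα hβ' (hK1 i) (hmono (Nat.le_succ i))
      (by rw [hKs]; nlinarith [hK1 i]) hV hS hSY
    refine le_trans (le_of_eq ?_) hp
    refine Finset.sum_congr rfl fun χ _ => ?_
    have hBeq : B i χ = ∑ l ∈ (Ioc 0 X).filter (fun l : ℕ => w₀ / K i < (l : ℝ) ∧
        (l : ℝ) * K (i + 1) ≤ X),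
        (((if (l : ℝ) * K (i + 1) ≤ w₁ then β l else 0) : ℝ) : ℂ) * χ (l : ZMod q) := by
      simp only [hB]
      rw [Finset.sum_filter]
      refine Finset.sum_congr rfl fun l _ => ?_
      have hiff : w₀ / K i < (l : ℝ) ↔ (w₀ : ℝ) < l * K i :=
        div_lt_iff₀ (lt_of_lt_of_le one_pos (hK1 i))
      by_cases h3 : (w₀ : ℝ) < l * K i
      · by_cases h4 : (l : ℝ) * K (i + 1) ≤ w₁
        · have h5 : (l : ℝ) * K (i + 1) ≤ X := h4.trans (by exact_mod_cast hwX)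
          rw [if_pos ⟨h3, h4⟩, if_pos ⟨hiff.2 h3, h5⟩, if_pos h4]
        · rw [if_neg (fun h => h4 h.2), if_neg h4]
          simp
      · rw [if_neg (fun h => h3 h.1), if_neg (fun h => h3 (hiff.1 h.1))]
    rw [hBeq]
  have hrest : ∑ χ ∈ 𝓖, S χ * ‖R χ‖ ≤
      √Y * √(2 * (δ * X + q + q) * T ^ 4 * X * (1 + Real.log X) ^ 63) := by
    have hl := h2 q X w₀ w₁ (fun n => ((rho_BDC α β K ι X w₀ w₁ n : ℝ) : ℂ)) T δ hT hδ
      (hw.trans hwX) hwX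
      (fun n => by
        rw [Complex.norm_real, Real.norm_eq_abs]
        exact rho_le_BDC α β K ι X w₀ w₁ n T hα.1 hβ.1 hT)
      (fun n hn => rho_supp_BDC hδ hKs hι α β w₀ w₁ n (fun h => hn (by
        show ((rho_BDC α β K ι X w₀ w₁ n : ℝ) : ℂ) = 0
        rw [h]
        simp)))
    have hR2 : ∑ χ ∈ 𝓖, ‖R χ‖ ^ 2 ≤ 2 * (δ * X + q + q) * T ^ 4 * X * (1 + Real.log X) ^ 63 :=
      (Finset.sum_le_sum_of_subset_of_nonneg (Finset.subset_univ 𝓖)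
        fun _ _ _ => sq_nonneg _).trans hl
    calc ∑ χ ∈ 𝓖, S χ * ‖R χ‖ ≤ √(∑ χ ∈ 𝓖, S χ ^ 2) * √(∑ χ ∈ 𝓖, ‖R χ‖ ^ 2) :=
          Real.sum_mul_le_sqrt_mul_sqrt _ _ _
      _ ≤ _ := mul_le_mul (Real.sqrt_le_sqrt hSY) (Real.sqrt_le_sqrt hR2)
          (Real.sqrt_nonneg _) (Real.sqrt_nonneg _)
  calc ∑ χ ∈ 𝓖, S χ * ‖Bil χ α β X w₀ w₁‖
      ≤ ∑ χ ∈ 𝓖, S χ * (∑ i ∈ range J, ‖A i χ‖ * ‖B i χ‖ + ‖R χ‖) :=
        Finset.sum_le_sum fun χ hχ => mul_le_mul_of_nonneg_left (hsplit χ) (hS χ hχ).1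
    _ = ∑ i ∈ range J, ∑ χ ∈ 𝓖, S χ * (‖A i χ‖ * ‖B i χ‖) + ∑ χ ∈ 𝓖, S χ * ‖R χ‖ := by
        rw [Finset.sum_comm, ← Finset.sum_add_distrib]
        refine Finset.sum_congr rfl fun χ _ => ?_
        rw [mul_add, Finset.mul_sum]
    _ ≤ ∑ i ∈ range J, C * T ^ 2 * X * (1 + Real.log X) ^ 18 * √(√(V ^ 2 * Y)) +
        √Y * √(2 * (δ * X + q + q) * T ^ 4 * X * (1 + Real.log X) ^ 63) :=
        add_le_add (Finset.sum_le_sum fun i _ => hpiece i) hrest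
    _ ≤ _ := by
        refine add_le_add ?_ le_rfl
        rw [Finset.sum_const, Finset.card_range, nsmul_eq_mul]
        calc (J : ℝ) * (C * T ^ 2 * X * (1 + Real.log X) ^ 18 * √(√(V ^ 2 * Y)))
            ≤ (2 * (1 + Real.log X) / δ) *
              (C * T ^ 2 * X * (1 + Real.log X) ^ 18 * √(√(V ^ 2 * Y))) := by
              refine mul_le_mul_of_nonneg_right hJ2 ?_
              positivity
          _ = _ := by ring

end Pool.Agent.Helper49.PC
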