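import Pool.Agent.Helper49.PC.StE

/-!
# Project PC: module CHSE (contribution of the deep characters)
-/

set_option autoImplicit false

namespace Pool.Agent.Helper49.PC

open Finset ArithmeticFunction
open Pool.Agent.Helper48.BK (ex th lz Vz Pz gs nd Apx AdN Sol thd)
open scoped ComplexConjugate

private theorem WW_smul_CHSE (x y z : ℂ) (u v w : ℕ → ℂ) (a b c : ℕ) (d : ℤ) (θ : ℝ) :
    WW (fun j => x * u j) (fun j => y * v j) (fun j => z * w j) a b c d θ =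
      x * y * conj z * WW u v w a b c d θ := by
  unfold WW
  rw [Finset.mul_sum]
  refine Finset.sum_congr rfl fun j _ => ?_
  rw [map_mul]
  ring

private theorem WW_sum_CHSE {ι κ μ : Type*} (s : Finset ι) (t : Finset κ) (r : Finset μ)
    (F : ι → ℕ → ℂ) (G : κ → ℕ → ℂ) (H : μ → ℕ → ℂ) (a b c : ℕ) (d : ℤ) (θ : ℝ) :
    WW (fun j => ∑ i ∈ s, F i j) (fun j => ∑ k ∈ t, G k j) (fun j => ∑ l ∈ r, H l j) a b c d θ =
      ∑ x ∈ s ×ˢ t ×ˢ r, WW (F x.1) (G x.2.1) (H x.2.2) a b c d θ := by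
  unfold WW
  rw [Finset.sum_comm]
  refine Finset.sum_congr rfl fun j _ => ?_
  rw [Finset.sum_product, map_sum, Finset.sum_mul_sum, Finset.sum_mul, Finset.sum_mul]
  refine Finset.sum_congr rfl fun i _ => ?_
  rw [Finset.sum_product, Finset.sum_mul, Finset.sum_mul]
  refine Finset.sum_congr rfl fun k _ => ?_
  rw [Finset.mul_sum, Finset.sum_mul]

private theorem WW_char_CHSE (h1 : StTRGE) (a b c v : ℕ) [NeZero (b * c * v)]
    [NeZero (a * c * v)] [NeZero (a * b * v)] (χ₁ : DirichletCharacter ℂ (b * c * v))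
    (χ₂ : DirichletCharacter ℂ (a * c * v)) (χ₃ : DirichletCharacter ℂ (a * b * v))
    (R η : ℝ) (h d : ℤ) (ha : 1 ≤ a) (hb : 1 ≤ b) (hc : 1 ≤ c) (hv : 1 ≤ v)
    (hR : 0 < R) (hd : Deep R χ₁ ∨ Deep R χ₂ ∨ Deep R χ₃) :
    ‖WW (fun j => Gs χ₁ (h + j * v)) (fun j => Gs χ₂ (h + j * v))
      (fun j => Gs χ₃ (h + j * v)) a b c d ((h : ℝ) / v + η)‖ ≤
      √(EE a b c * v ^ 2 * Int.gcd d (a * b * c : ℕ) *
        (1 + Nat.log 2 (a * b * c * v)) ^ 5 / R) := by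
  have hv0 : (v : ℝ) ≠ 0 := by
    have : 0 < v := hv
    positivity
  have habc : ((a * b * c : ℕ) : ℝ) ≠ 0 := by
    have h2 : 0 < a := ha
    have h3 : 0 < b := hb
    have h4 : 0 < c := hc
    positivity
  have key : WW (fun j => Gs χ₁ (h + j * v)) (fun j => Gs χ₂ (h + j * v))
      (fun j => Gs χ₃ (h + j * v)) a b c d ((h : ℝ) / v + η) =
      (∑ j ∈ range (a * b * c), Gs χ₁ (h + j * v) * Gs χ₂ (h + j * v) *
        conj (Gs χ₃ (h + j * v)) * ex (-(d * (h + j * v) / (a * b * c * v : ℕ)))) *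
        ex (-(d * (η / (a * b * c : ℕ)))) := by
    unfold WW
    rw [Finset.sum_mul]
    refine Finset.sum_congr rfl fun j _ => ?_
    rw [mul_assoc _ (ex _) (ex _), ← ex_add]
    congr 2
    rw [Nat.cast_mul (a * b * c) v]
    field_simp
    ring
  rw [key, norm_mul, norm_ex, mul_one]
  refine Real.le_sqrt_of_sq_le ?_
  exact h1 a b c v χ₁ χ₂ χ₃ R h d ha hb hc hv hR hd

/-- coefficient of a term -/
private def cc_CHSE {X : Type*} (c : ℂ) (f : X → ℂ) : Option X → ℂ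
  | none => c
  | some x => f x

/-- character of a term -/
private noncomputable def ch_CHSE {q : ℕ} : Option (DirichletCharacter ℂ q) →
    DirichletCharacter ℂ q
  | none => 1
  | some x => x

private theorem sum_CHSE {q : ℕ} (𝓧 : Finset (DirichletCharacter ℂ q)) (c : ℂ)
    (f : DirichletCharacter ℂ q → ℂ) (i : ℕ → ℤ) (j : ℕ) :
    c * Gs (1 : DirichletCharacter ℂ q) (i j) + ∑ χ ∈ 𝓧, f χ * Gs χ (i j) =
      ∑ o ∈ Finset.insertNone 𝓧, cc_CHSE c f o * Gs (ch_CHSE o) (i j) := by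
  rw [Finset.sum_insertNone]
  rfl

private theorem cc_le_CHSE {q : ℕ} (𝓧 : Finset (DirichletCharacter ℂ q)) (c : ℂ)
    (f : DirichletCharacter ℂ q → ℂ) (B : ℝ) (hc : ‖c‖ ≤ B) (hf : ∀ χ ∈ 𝓧, ‖f χ‖ ≤ B)
    (o : Option (DirichletCharacter ℂ q)) (ho : o ∈ Finset.insertNone 𝓧) :
    ‖cc_CHSE c f o‖ ≤ B := by
  cases o with
  | none => exact hc
  | some χ => exact hf χ (Finset.some_mem_insertNone.1 ho)

/-- CHSE. -/
theorem hCHSE (h1 : StTRGE) : StCHSE := by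
  classical
  intro a b c v _ _ _ h d η R Q T c₁ c₂ c₃ 𝓧₁ 𝓧₂ 𝓧₃ f₁ f₂ f₃ ha hb hc hv hR hQ hT
    hQ1 hQ2 hQ3 hf1 hf2 hf3 hc1 hc2 hc3
  set W : Option (DirichletCharacter ℂ (b * c * v)) × Option (DirichletCharacter ℂ (a * c * v)) ×
      Option (DirichletCharacter ℂ (a * b * v)) → ℂ := fun x =>
    WW (fun j => cc_CHSE c₁ f₁ x.1 * Gs (ch_CHSE x.1) (h + j * v))
      (fun j => cc_CHSE c₂ f₂ x.2.1 * Gs (ch_CHSE x.2.1) (h + j * v))
      (fun j => cc_CHSE c₃ f₃ x.2.2 * Gs (ch_CHSE x.2.2) (h + j * v)) a b c d ((h : ℝ) / v + η)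
    with hW
  set P := Finset.insertNone 𝓧₁ ×ˢ Finset.insertNone 𝓧₂ ×ˢ Finset.insertNone 𝓧₃ with hP
  have e1 : WW (fun j => c₁ * Gs (1 : DirichletCharacter ℂ (b * c * v)) (h + j * v) +
          ∑ χ ∈ 𝓧₁, f₁ χ * Gs χ (h + j * v))
      (fun j => c₂ * Gs (1 : DirichletCharacter ℂ (a * c * v)) (h + j * v) +
          ∑ χ ∈ 𝓧₂, f₂ χ * Gs χ (h + j * v))
      (fun j => c₃ * Gs (1 : DirichletCharacter ℂ (a * b * v)) (h + j * v) +
          ∑ χ ∈ 𝓧₃, f₃ χ * Gs χ (h + j * v)) a b c d ((h : ℝ) / v + η) = ∑ x ∈ P, W x := by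
    refine Eq.trans ?_ (WW_sum_CHSE (Finset.insertNone 𝓧₁) (Finset.insertNone 𝓧₂)
      (Finset.insertNone 𝓧₃) (fun o j => cc_CHSE c₁ f₁ o * Gs (ch_CHSE o) (h + j * v))
      (fun o j => cc_CHSE c₂ f₂ o * Gs (ch_CHSE o) (h + j * v))
      (fun o j => cc_CHSE c₃ f₃ o * Gs (ch_CHSE o) (h + j * v)) a b c d ((h : ℝ) / v + η))
    congr 1
    · funext j
      exact sum_CHSE 𝓧₁ c₁ f₁ (fun j => h + j * v) j
    · funext j
      exact sum_CHSE 𝓧₂ c₂ f₂ (fun j => h + j * v) j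
    · funext j
      exact sum_CHSE 𝓧₃ c₃ f₃ (fun j => h + j * v) j
  have e2 : WW (fun j => c₁ * Gs (1 : DirichletCharacter ℂ (b * c * v)) (h + j * v))
      (fun j => c₂ * Gs (1 : DirichletCharacter ℂ (a * c * v)) (h + j * v))
      (fun j => c₃ * Gs (1 : DirichletCharacter ℂ (a * b * v)) (h + j * v)) a b c d
        ((h : ℝ) / v + η) = W (none, none, none) := rfl
  have hmem : (none, none, none) ∈ P := by
    rw [hP, Finset.mem_product, Finset.mem_product]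
    exact ⟨Finset.none_mem_insertNone, Finset.none_mem_insertNone, Finset.none_mem_insertNone⟩
  rw [e1, e2, ← Finset.add_sum_erase P W hmem, add_sub_cancel_left]
  set E : ℝ := √(EE a b c * v ^ 2 * Int.gcd d (a * b * c : ℕ) *
    (1 + Nat.log 2 (a * b * c * v)) ^ 5 / R) with hE
  set B : ℝ := ((a * b * c : ℕ) : ℝ) ^ 2 * T ^ 3 * E with hB
  have hE0 : 0 ≤ E := Real.sqrt_nonneg _
  have hB0 : 0 ≤ B := by positivity
  have hterm : ∀ x ∈ P.erase (none, none, none), ‖W x‖ ≤ B := by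
    rintro ⟨o₁, o₂, o₃⟩ hx
    rw [Finset.mem_erase, hP, Finset.mem_product, Finset.mem_product] at hx
    obtain ⟨hne, hx1, hx2, hx3⟩ := hx
    have hdeep : Deep R (ch_CHSE o₁) ∨ Deep R (ch_CHSE o₂) ∨ Deep R (ch_CHSE o₃) := by
      cases o₁ with
      | some χ => exact Or.inl (hf1 χ (Finset.some_mem_insertNone.1 hx1)).1
      | none =>
        cases o₂ with
        | some χ => exact Or.inr (Or.inl (hf2 χ (Finset.some_mem_insertNone.1 hx2)).1)
        | none =>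
          cases o₃ with
          | some χ => exact Or.inr (Or.inr (hf3 χ (Finset.some_mem_insertNone.1 hx3)).1)
          | none => exact absurd rfl hne
    have g1 := cc_le_CHSE 𝓧₁ c₁ f₁ _ hc1 (fun χ hχ => (hf1 χ hχ).2) o₁ hx1
    have g2 := cc_le_CHSE 𝓧₂ c₂ f₂ _ hc2 (fun χ hχ => (hf2 χ hχ).2) o₂ hx2
    have g3 := cc_le_CHSE 𝓧₃ c₃ f₃ _ hc3 (fun χ hχ => (hf3 χ hχ).2) o₃ hx3
    have g4 := WW_char_CHSE h1 a b c v (ch_CHSE o₁) (ch_CHSE o₂) (ch_CHSE o₃) R η h d ha hb hc hv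
      hR hdeep
    rw [hW]
    beta_reduce
    rw [WW_smul_CHSE, norm_mul, norm_mul, norm_mul, Complex.norm_conj]
    have g5 : ‖cc_CHSE c₁ f₁ o₁‖ * ‖cc_CHSE c₂ f₂ o₂‖ * ‖cc_CHSE c₃ f₃ o₃‖ ≤
        (b * c * T) * (a * c * T) * (a * b * T) :=
      mul_le_mul (mul_le_mul g1 g2 (norm_nonneg _) ((norm_nonneg _).trans g1)) g3
        (norm_nonneg _) (mul_nonneg ((norm_nonneg _).trans g1) ((norm_nonneg _).trans g2))
    have g6 := mul_le_mul g5 g4 (norm_nonneg _) (by positivity)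
    refine g6.trans (le_of_eq ?_)
    rw [hB, hE]
    push_cast
    ring
  have hcard : (((P.erase (none, none, none)).card : ℕ) : ℝ) ≤ 8 * Q ^ 3 := by
    have k1 : (P.erase (none, none, none)).card ≤ P.card := Finset.card_erase_le
    have k2 : P.card = (𝓧₁.card + 1) * ((𝓧₂.card + 1) * (𝓧₃.card + 1)) := by
      rw [hP, Finset.card_product, Finset.card_product, Finset.card_insertNone,
        Finset.card_insertNone, Finset.card_insertNone]
    have k3 : ((P.card : ℕ) : ℝ) ≤ (2 * Q) * ((2 * Q) * (2 * Q)) := by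
      rw [k2]
      push_cast
      have l1 : (𝓧₁.card : ℝ) + 1 ≤ 2 * Q := by linarith
      have l2 : (𝓧₂.card : ℝ) + 1 ≤ 2 * Q := by linarith
      have l3 : (𝓧₃.card : ℝ) + 1 ≤ 2 * Q := by linarith
      have l4 : (0 : ℝ) ≤ 2 * Q := by linarith
      exact mul_le_mul l1 (mul_le_mul l2 l3 (by positivity) l4) (by positivity) l4
    have k4 : (((P.erase (none, none, none)).card : ℕ) : ℝ) ≤ (P.card : ℝ) := by exact_mod_cast k1
    refine (k4.trans k3).trans (le_of_eq ?_)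
    ring
  refine (norm_sum_le _ _).trans ?_
  refine (Finset.sum_le_card_nsmul _ _ B hterm).trans ?_
  rw [nsmul_eq_mul]
  refine (mul_le_mul_of_nonneg_right hcard hB0).trans (le_of_eq ?_)
  rw [hB]
  ring

end Pool.Agent.Helper49.PC
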