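import Pool.Agent.Helper49.PC.StF

/-!
# Project PC, module CIR: the circle identity
-/

set_option autoImplicit false

namespace Pool.Agent.Helper49.PC

open Finset ArithmeticFunction
open Pool.Agent.Helper48.BK (ex th lz Vz Pz gs nd Apx AdN Sol thd)
open scoped ComplexConjugate

private theorem sum_range_CIR (N D : ℕ) (F : ℕ → ℂ) :
    ∑ j ∈ range D, ∑ k ∈ range N, F (N * j + k) = ∑ i ∈ range (N * D), F i := by
  induction D with
  | zero => simp
  | succ D ih => rw [Finset.sum_range_succ, ih, Nat.mul_succ, Finset.sum_range_add]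

private theorem ort_CIR (h1 : StORT) (D N : ℕ) (w : ℤ) (hD : 1 ≤ D) (hN : 1 ≤ N) :
    ∑ k ∈ range N, ∑ j ∈ range D, ex (w * (((k : ℝ) / N + j) / D)) =
      if ((D * N : ℕ) : ℤ) ∣ w then ((D * N : ℕ) : ℂ) else 0 := by
  have hD0 : (D : ℝ) ≠ 0 := by exact_mod_cast (by omega : D ≠ 0)
  have hN0 : (N : ℝ) ≠ 0 := by exact_mod_cast (by omega : N ≠ 0)
  rw [← h1 (D * N) w (Nat.mul_pos hD hN), Finset.sum_comm, mul_comm D N,
    ← sum_range_CIR N D fun i : ℕ => ex (w * i / ((N * D : ℕ) : ℝ))]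
  refine Finset.sum_congr rfl fun j _ => Finset.sum_congr rfl fun k _ => ?_
  congr 1
  push_cast
  field_simp
  ring

private theorem trip_CIR (s t r : Finset ℕ) (A B C : ℕ → ℂ) (e : ℂ) :
    (∑ n ∈ s, A n) * (∑ m ∈ t, B m) * (∑ l ∈ r, C l) * e =
      ∑ n ∈ s, ∑ m ∈ t, ∑ l ∈ r, A n * B m * C l * e := by
  rw [Finset.sum_mul_sum, Finset.sum_mul, Finset.sum_mul]
  refine Finset.sum_congr rfl fun n _ => ?_
  rw [Finset.sum_mul, Finset.sum_mul]
  refine Finset.sum_congr rfl fun m _ => ?_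
  rw [Finset.mul_sum, Finset.sum_mul]

private theorem comm_CIR (p q s : Finset ℕ) (G : ℕ → ℕ → ℕ → ℂ) :
    ∑ k ∈ p, ∑ j ∈ q, ∑ n ∈ s, G k j n = ∑ n ∈ s, ∑ k ∈ p, ∑ j ∈ q, G k j n :=
  (Finset.sum_congr rfl fun _ _ => Finset.sum_comm).trans Finset.sum_comm

private theorem point_CIR (f g h : ℕ → ℝ) (X Y Z a b c : ℕ) (d : ℤ) (θ : ℝ) (j : ℕ)
    (ha : 1 ≤ a) (hb : 1 ≤ b) (hc : 1 ≤ c) :
    Sj f X (b * c) θ j * Sj g Y (a * c) θ j * conj (Sj h Z (a * b) θ j) *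
      ex (-(d * ((θ + j) / (a * b * c : ℕ)))) =
    ∑ n ∈ Ioc 0 X, ∑ m ∈ Ioc 0 Y, ∑ l ∈ Ioc 0 Z, ((f n : ℂ) * g m * h l) *
      ex (((a * n + b * m - c * l - d : ℤ) : ℝ) * ((θ + j) / ((a * b * c : ℕ) : ℝ))) := by
  have ha0 : (a : ℝ) ≠ 0 := by exact_mod_cast (by omega : a ≠ 0)
  have hb0 : (b : ℝ) ≠ 0 := by exact_mod_cast (by omega : b ≠ 0)
  have hc0 : (c : ℝ) ≠ 0 := by exact_mod_cast (by omega : c ≠ 0)
  unfold Sj Sc
  rw [map_sum, trip_CIR]
  refine Finset.sum_congr rfl fun n _ => Finset.sum_congr rfl fun m _ =>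
    Finset.sum_congr rfl fun l _ => ?_
  rw [map_mul, Complex.conj_ofReal, conj_ex]
  have e1 : ((a * n + b * m - c * l - d : ℤ) : ℝ) * ((θ + j) / ((a * b * c : ℕ) : ℝ)) =
      n * ((θ + j) / ((b * c : ℕ) : ℝ)) + m * ((θ + j) / ((a * c : ℕ) : ℝ)) +
        -(l * ((θ + j) / ((a * b : ℕ) : ℝ))) + -(d * ((θ + j) / ((a * b * c : ℕ) : ℝ))) := by
    push_cast
    field_simp
    ring
  rw [e1, ex_add, ex_add, ex_add]
  ring

theorem hCIR (h1 : StORT) : StCIR := by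
  intro f g h X Y Z a b c N d ha hb hc hN hlt
  have hD : 1 ≤ a * b * c := Nat.mul_pos (Nat.mul_pos ha hb) hc
  have e1 : ∑ k ∈ range N, WW (Sj f X (b * c) ((k : ℝ) / N)) (Sj g Y (a * c) ((k : ℝ) / N))
      (Sj h Z (a * b) ((k : ℝ) / N)) a b c d ((k : ℝ) / N) =
      ∑ n ∈ Ioc 0 X, ∑ m ∈ Ioc 0 Y, ∑ l ∈ Ioc 0 Z, ∑ k ∈ range N, ∑ j ∈ range (a * b * c),
        ((f n : ℂ) * g m * h l) *
        ex (((a * n + b * m - c * l - d : ℤ) : ℝ) * (((k : ℝ) / N + j) / ((a * b * c : ℕ) : ℝ))) := by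
    unfold WW
    refine (Finset.sum_congr rfl fun (k : ℕ) _ => Finset.sum_congr rfl fun j _ =>
      point_CIR f g h X Y Z a b c d ((k : ℝ) / N) j ha hb hc).trans ?_
    rw [comm_CIR]
    refine Finset.sum_congr rfl fun n _ => ?_
    rw [comm_CIR]
    refine Finset.sum_congr rfl fun m _ => ?_
    rw [comm_CIR]
  rw [e1]
  unfold T3
  push_cast
  rw [Finset.mul_sum]
  refine Finset.sum_congr rfl fun n hn => ?_
  rw [Finset.mul_sum]
  refine Finset.sum_congr rfl fun m hm => ?_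
  rw [Finset.mul_sum]
  refine Finset.sum_congr rfl fun l hl => ?_
  rw [Finset.mem_Ioc] at hn hm hl
  have e2 : ∑ k ∈ range N, ∑ j ∈ range (a * b * c), ((f n : ℂ) * g m * h l) *
      ex (((a * n + b * m - c * l - d : ℤ) : ℝ) * (((k : ℝ) / N + j) / ((a * b * c : ℕ) : ℝ))) =
      ((f n : ℂ) * g m * h l) * (if ((a * b * c * N : ℕ) : ℤ) ∣ (a * n + b * m - c * l - d : ℤ)
        then ((a * b * c * N : ℕ) : ℂ) else 0) := by
    rw [← ort_CIR h1 (a * b * c) N _ hD hN, Finset.mul_sum]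
    refine Finset.sum_congr rfl fun k _ => ?_
    rw [Finset.mul_sum]
  have e3 : (((a * b * c * N : ℕ) : ℤ) ∣ (a * n + b * m - c * l - d : ℤ)) ↔
      (a : ℤ) * n + b * m = c * l + d := by
    constructor
    · intro hdvd
      have h2 : |(a * n + b * m - c * l - d : ℤ)| < ((a * b * c * N : ℕ) : ℤ) := by
        have p1 : (a : ℤ) * n ≤ a * X := by exact_mod_cast Nat.mul_le_mul_left a hn.2
        have p2 : (b : ℤ) * m ≤ b * Y := by exact_mod_cast Nat.mul_le_mul_left b hm.2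
        have p3 : (c : ℤ) * l ≤ c * Z := by exact_mod_cast Nat.mul_le_mul_left c hl.2
        have q1 : (0 : ℤ) ≤ a * n := by positivity
        have q2 : (0 : ℤ) ≤ b * m := by positivity
        have q3 : (0 : ℤ) ≤ c * l := by positivity
        have q4 := neg_abs_le d
        have q5 := le_abs_self d
        push_cast at hlt ⊢
        rw [abs_lt]
        constructor <;> linarith
      have h3 := Int.eq_zero_of_abs_lt_dvd hdvd h2
      linarith
    · intro heq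
      have h3 : (a * n + b * m - c * l - d : ℤ) = 0 := by linarith
      rw [h3]
      exact dvd_zero _
  have e4 : (((if (a : ℤ) * n + b * m = c * l + d then f n * g m * h l else 0 : ℝ)) : ℂ) =
      1 / ((N : ℂ) * ((a * b * c : ℕ) : ℂ)) * (((f n : ℂ) * g m * h l) *
        (if ((a * b * c * N : ℕ) : ℤ) ∣ (a * n + b * m - c * l - d : ℤ)
        then ((a * b * c * N : ℕ) : ℂ) else 0)) := by
    by_cases hq : (a : ℤ) * n + b * m = c * l + d
    · rw [if_pos hq, if_pos (e3.2 hq)]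
      have ha0 : (a : ℂ) ≠ 0 := by exact_mod_cast (by omega : a ≠ 0)
      have hb0 : (b : ℂ) ≠ 0 := by exact_mod_cast (by omega : b ≠ 0)
      have hc0 : (c : ℂ) ≠ 0 := by exact_mod_cast (by omega : c ≠ 0)
      have hN0 : (N : ℂ) ≠ 0 := by exact_mod_cast (by omega : N ≠ 0)
      push_cast
      field_simp
    · rw [if_neg hq, if_neg (fun h' => hq (e3.1 h'))]
      simp
  have e5 := e2
  push_cast at e4 e5 ⊢
  rw [e5]
  exact e4

end Pool.Agent.Helper49.PC
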