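import Pool.Agent.Helper49.PC.StE

/-!
# Project PC: module CMPE (comparison of two complete sums)
-/

set_option autoImplicit false

namespace Pool.Agent.Helper49.PC

open Finset ArithmeticFunction
open Pool.Agent.Helper48.BK (ex th lz Vz Pz gs nd Apx AdN Sol thd)
open scoped ComplexConjugate

/-- telescoping -/
private theorem WW_tel_CMPE (u p v q w r : ℕ → ℂ) (a b c : ℕ) (d : ℤ) (θ : ℝ) :
    WW u v w a b c d θ - WW p q r a b c d θ =
      WW (fun j => u j - p j) v w a b c d θ + WW p (fun j => v j - q j) w a b c d θ +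
        WW p q (fun j => w j - r j) a b c d θ := by
  unfold WW
  rw [← Finset.sum_sub_distrib, ← Finset.sum_add_distrib, ← Finset.sum_add_distrib]
  refine Finset.sum_congr rfl fun j _ => ?_
  rw [map_sub]
  ring

private theorem l2_other_CMPE (s : Finset ℕ) (u p : ℕ → ℂ) (R ε : ℝ) (hε : ε ≤ 1)
    (h1 : l2 s u ≤ R) (h2 : l2 s (fun j => u j - p j) ≤ ε * R) : l2 s p ≤ 2 * R := by
  have h := l2_sub_le s u (fun j => u j - p j)
  have h3 : l2 s (fun i => u i - (u i - p i)) = l2 s p := l2_congr _ _ _ fun i _ => by ring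
  rw [h3] at h
  have hR : 0 ≤ R := (l2_nonneg s u).trans h1
  nlinarith

private theorem one_CMPE (h1 : StWBE) (u p v q w r : ℕ → ℂ) (a b c : ℕ) (d : ℤ)
    (θ R₁ R₂ R₃ ε : ℝ) (ha : 1 ≤ a) (hb : 1 ≤ b) (hc : 1 ≤ c) (hε : 0 ≤ ε)
    (hε1 : ε ≤ 1) (hu : ∀ j, u (j + b * c) = u j) (hpp : ∀ j, p (j + b * c) = p j)
    (hv : ∀ j, v (j + a * c) = v j) (hq : ∀ j, q (j + a * c) = q j)
    (hw : ∀ j, w (j + a * b) = w j) (hr : ∀ j, r (j + a * b) = r j)
    (hu1 : l2 (range (b * c)) u ≤ R₁)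
    (hu2 : l2 (range (b * c)) (fun j => u j - p j) ≤ ε * R₁)
    (hv1 : l2 (range (a * c)) v ≤ R₂)
    (hv2 : l2 (range (a * c)) (fun j => v j - q j) ≤ ε * R₂)
    (hw1 : l2 (range (a * b)) w ≤ R₃)
    (hw2 : l2 (range (a * b)) (fun j => w j - r j) ≤ ε * R₃) :
    ‖WW u v w a b c d θ - WW p q r a b c d θ‖ ≤ EE a b c * (7 * ε * R₁ * R₂ * R₃) := by
  have hR1 : 0 ≤ R₁ := (l2_nonneg _ _).trans hu1
  have hR2 : 0 ≤ R₂ := (l2_nonneg _ _).trans hv1
  have hR3 : 0 ≤ R₃ := (l2_nonneg _ _).trans hw1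
  have hp1 := l2_other_CMPE _ u p R₁ ε hε1 hu1 hu2
  have hq1 := l2_other_CMPE _ v q R₂ ε hε1 hv1 hv2
  have e1 := h1 (fun j => u j - p j) v w a b c d θ ha hb hc
    (fun j => by simp only [hu, hpp]) hv hw
  have e2 := h1 p (fun j => v j - q j) w a b c d θ ha hb hc hpp
    (fun j => by simp only [hv, hq]) hw
  have e3 := h1 p q (fun j => w j - r j) a b c d θ ha hb hc hpp hq
    (fun j => by simp only [hw, hr])
  have mul3 : ∀ {x y z X Y Z : ℝ}, 0 ≤ x → 0 ≤ y → 0 ≤ z → x ≤ X → y ≤ Y → z ≤ Z →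
      x * y * z ≤ X * Y * Z := fun hx hy hz hX hY hZ =>
    mul_le_mul (mul_le_mul hX hY hy (hx.trans hX)) hZ hz
      (mul_nonneg (hx.trans hX) (hy.trans hY))
  have hE : (0 : ℝ) ≤ EE a b c := Nat.cast_nonneg _
  have f1 := e1.trans (mul_le_mul_of_nonneg_left
    (mul3 (l2_nonneg _ _) (l2_nonneg _ _) (l2_nonneg _ _) hu2 hv1 hw1) hE)
  have f2 := e2.trans (mul_le_mul_of_nonneg_left
    (mul3 (l2_nonneg _ _) (l2_nonneg _ _) (l2_nonneg _ _) hp1 hv2 hw1) hE)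
  have f3 := e3.trans (mul_le_mul_of_nonneg_left
    (mul3 (l2_nonneg _ _) (l2_nonneg _ _) (l2_nonneg _ _) hp1 hq1 hw2) hE)
  rw [WW_tel_CMPE]
  refine (norm_add₃_le).trans ?_
  refine (add_le_add (add_le_add f1 f2) f3).trans (le_of_eq ?_)
  ring

/-- CMPE. -/
theorem hCMPE (h1 : StWBE) : StCMPE := by
  intro u p u' e v q v' f w r w' g a b c d θ R₁ R₂ R₃ ε ha hb hc hε hε1 hU hV hW
    hu1 hu1' hu2 hu2' hv1 hv1' hv2 hv2' hw1 hw1' hw2 hw2'
  have A := one_CMPE h1 u p v q w r a b c d θ R₁ R₂ R₃ ε ha hb hc hε hε1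
    (fun j => (hU j).1) (fun j => (hU j).2.1) (fun j => (hV j).1) (fun j => (hV j).2.1)
    (fun j => (hW j).1) (fun j => (hW j).2.1) hu1 hu2 hv1 hv2 hw1 hw2
  have B := one_CMPE h1 u' e v' f w' g a b c d θ R₁ R₂ R₃ ε ha hb hc hε hε1
    (fun j => (hU j).2.2.1) (fun j => (hU j).2.2.2) (fun j => (hV j).2.2.1)
    (fun j => (hV j).2.2.2) (fun j => (hW j).2.2.1) (fun j => (hW j).2.2.2)
    hu1' hu2' hv1' hv2' hw1' hw2'
  have e1 : (WW u v w a b c d θ - WW u' v' w' a b c d θ) -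
      (WW p q r a b c d θ - WW e f g a b c d θ) =
      (WW u v w a b c d θ - WW p q r a b c d θ) -
        (WW u' v' w' a b c d θ - WW e f g a b c d θ) := by ring
  rw [e1]
  refine (norm_sub_le _ _).trans ((add_le_add A B).trans (le_of_eq ?_))
  ring

end Pool.Agent.Helper49.PC
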