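import Pool.Agent.Helper49.PC.StG

/-!
# Project PC: module GUN
-/

set_option autoImplicit false

namespace Pool.Agent.Helper49.PC

open Finset ArithmeticFunction
open Pool.Agent.Helper48.BK (ex)
open scoped ComplexConjugate

/-- `ex (k / q)` depends only on `k` modulo `q` -/
theorem ex_cong_GUN {q : ℕ} (hq : 1 ≤ q) {k k' : ℤ} (h : (q : ℤ) ∣ k - k') :
    ex ((k : ℝ) / q) = ex ((k' : ℝ) / q) := by
  obtain ⟨m, hm⟩ := h
  have hq0 : (q : ℝ) ≠ 0 := by
    have : (0 : ℝ) < q := by exact_mod_cast hq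
    exact this.ne'
  have e : (k : ℝ) / q = (m : ℝ) + (k' : ℝ) / q := by
    have h1 : (k : ℝ) = q * m + k' := by
      have : k = q * m + k' := by linarith
      exact_mod_cast this
    rw [h1]
    field_simp
  rw [e, ex_add, ex_int, one_mul]

/-- sums over `range q` and over `ZMod q` -/
theorem sum_zmod_GUN {q : ℕ} [NeZero q] (f : ℕ → ℂ) :
    ∑ x ∈ range q, f x = ∑ a : ZMod q, f a.val := by
  refine sum_bij' (fun x _ => (x : ZMod q)) (fun a _ => a.val) (fun _ _ => mem_univ _)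
    (fun a _ => mem_range.2 (ZMod.val_lt a)) ?_ ?_ ?_
  · intro x hx
    exact ZMod.val_natCast_of_lt (mem_range.1 hx)
  · intro a _
    exact ZMod.natCast_zmod_val a
  · intro x hx
    rw [ZMod.val_natCast_of_lt (mem_range.1 hx)]

theorem norm_unit_GUN {q : ℕ} [NeZero q] (χ : DirichletCharacter ℂ q) {a : ZMod q}
    (ha : IsUnit a) : ‖χ a‖ = 1 := by
  obtain ⟨u, rfl⟩ := ha
  exact χ.unit_norm_eq_one u

theorem isUnit_GUN {q : ℕ} {u : ℤ} (hu : IsCoprime u (q : ℤ)) : IsUnit (u : ZMod q) := by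
  obtain ⟨a, b, hab⟩ := hu
  have h1 : ((a * u + b * q : ℤ) : ZMod q) = 1 := by rw [hab]; simp
  push_cast at h1
  rw [ZMod.natCast_self, mul_zero, add_zero] at h1
  exact IsUnit.of_mul_eq_one_right _ h1

/-- values at multiples of a unit -/
theorem char_mul_GUN {q : ℕ} [NeZero q] (χ : DirichletCharacter ℂ q) {u : ZMod q}
    (hu : IsUnit u) (a : ZMod q) : conj (χ a) = χ u * conj (χ (u * a)) := by
  rw [map_mul, map_mul, ← mul_assoc, Complex.mul_conj, Complex.normSq_eq_norm_sq,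
    norm_unit_GUN χ hu]
  simp

theorem hGUN : StGUN := by
  intro q _ χ
  have hq : 1 ≤ q := NeZero.one_le
  have hq0 : (q : ℝ) ≠ 0 := by
    have : (0 : ℝ) < q := by exact_mod_cast hq
    exact this.ne'
  refine ⟨fun i => ?_, fun u i hu => ?_, fun u hu => norm_unit_GUN χ (isUnit_GUN hu)⟩
  · unfold Gs
    congr 1
    refine sum_congr rfl fun x _ => ?_
    congr 1
    have e1 : ((i + q : ℤ) : ℝ) * x / q = (((i + q) * x : ℤ) : ℝ) / q := by push_cast; ring
    have e2 : (i : ℝ) * x / q = ((i * x : ℤ) : ℝ) / q := by push_cast; ring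
    rw [e1, e2]
    refine ex_cong_GUN hq ⟨x, by ring⟩
  · have hU := isUnit_GUN hu
    unfold Gs
    rw [sum_zmod_GUN, sum_zmod_GUN, mul_left_comm]
    congr 1
    rw [mul_sum]
    have hb : Function.Bijective (fun a : ZMod q => (u : ZMod q) * a) := by
      obtain ⟨w, hw⟩ := hU
      rw [← hw]
      exact (Units.mulLeft w).bijective
    conv_rhs => rw [← (Equiv.ofBijective _ hb).sum_comp]
    refine sum_congr rfl fun a _ => ?_
    simp only [Equiv.ofBijective_apply]
    have e0 : ex (((u * i : ℤ) : ℝ) * ((a.val : ℕ) : ℝ) / q) =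
        ex ((i : ℝ) * ((((u : ZMod q) * a).val : ℕ) : ℝ) / q) := by
      have e1 : ((u * i : ℤ) : ℝ) * ((a.val : ℕ) : ℝ) / q = ((u * i * a.val : ℤ) : ℝ) / q := by
        push_cast; ring
      have e2 : (i : ℝ) * ((((u : ZMod q) * a).val : ℕ) : ℝ) / q =
          ((i * ((u : ZMod q) * a).val : ℤ) : ℝ) / q := by push_cast; ring
      rw [e1, e2]
      refine ex_cong_GUN hq ?_
      rw [← ZMod.intCast_zmod_eq_zero_iff_dvd]
      push_cast
      rw [ZMod.natCast_zmod_val, ZMod.natCast_zmod_val]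
      ring
    rw [ZMod.natCast_zmod_val, ZMod.natCast_zmod_val, char_mul_GUN χ hU a, mul_assoc, e0]

end Pool.Agent.Helper49.PC
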