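import Pool.Agent.Helper49.PC.StF
import Pool.Agent.Helper49.PC.M_GUN

/-!
# Project PC: module DUA
-/

set_option autoImplicit false

namespace Pool.Agent.Helper49.PC

open Finset ArithmeticFunction
open Pool.Agent.Helper48.BK (ex)
open scoped ComplexConjugate

theorem per_DUA {M : Type*} {N : ℕ} {f : ℤ → M} (hf : ∀ i, f (i + N) = f i) {i k : ℤ}
    (h : (N : ℤ) ∣ i - k) : f i = f k := by
  obtain ⟨m, hm⟩ := h
  have hp : Function.Periodic f (N : ℤ) := hf
  have h1 := hp.int_mul m k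
  have h2 : i = k + m * N := by linarith
  rw [h2]
  exact h1

theorem resum_DUA {M : Type*} [AddCommMonoid M] {N v D : ℕ} (hN : 1 ≤ N) (hv : 1 ≤ v)
    (hND : N = v * D) (h : ℤ) {f : ℤ → M} (hf : ∀ i, f (i + N) = f i) :
    ∑ j ∈ range D, f (h + j * v) =
      ∑ x ∈ range N, if (v : ℤ) ∣ (x : ℤ) - h then f x else 0 := by
  classical
  rw [← sum_filter]
  have hD : 1 ≤ D := by
    rcases Nat.eq_zero_or_pos D with h0 | h0
    · rw [h0] at hND; omega
    · exact h0
  have hN0 : (N : ℤ) ≠ 0 := by omega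
  have hD0 : (D : ℤ) ≠ 0 := by omega
  have hv0 : (v : ℤ) ≠ 0 := by omega
  have hNZ : (N : ℤ) = v * D := by exact_mod_cast hND
  have key : ∀ i : ℤ, (((i % N).toNat : ℕ) : ℤ) = i % N := fun i =>
    Int.toNat_of_nonneg (Int.emod_nonneg i hN0)
  have keyD : ∀ i : ℤ, (((i % D).toNat : ℕ) : ℤ) = i % D := fun i =>
    Int.toNat_of_nonneg (Int.emod_nonneg i hD0)
  refine sum_bij' (fun j _ => ((h + j * v) % N).toNat) (fun x _ => ((((x : ℤ) - h) / v) % D).toNat)
    ?_ ?_ ?_ ?_ ?_
  · intro j hj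
    rw [mem_filter, mem_range]
    refine ⟨?_, ?_⟩
    · have h1 := Int.emod_lt_of_pos (h + j * v) (show (0 : ℤ) < N by omega)
      have h2 := key (h + j * v)
      omega
    · rw [key, Int.emod_def]
      refine ⟨j - D * ((h + j * v) / N), ?_⟩
      generalize (h + (j : ℤ) * v) / N = w
      rw [hNZ]
      ring
  · intro x hx
    rw [mem_range]
    have h1 := Int.emod_lt_of_pos (((x : ℤ) - h) / v) (show (0 : ℤ) < D by omega)
    have h2 := keyD (((x : ℤ) - h) / v)
    omega
  · intro j hj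
    have hjD := mem_range.1 hj
    have h1 : (((((h + j * v) % N).toNat : ℕ) : ℤ) - h) / v = j - D * ((h + j * v) / N) := by
      rw [key, Int.emod_def]
      generalize (h + (j : ℤ) * v) / N = w
      rw [hNZ, show h + (j : ℤ) * v - v * D * w - h = v * (j - D * w) by ring]
      exact Int.mul_ediv_cancel_left _ hv0
    rw [h1]
    have h2 : ((j : ℤ) - D * ((h + j * v) / N)) % D = j := by
      rw [sub_eq_add_neg, ← mul_neg, Int.add_mul_emod_self_left]
      exact Int.emod_eq_of_lt (by omega) (by omega)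
    rw [h2]
    rfl
  · intro x hx
    rw [mem_filter, mem_range] at hx
    obtain ⟨hx1, m, hm⟩ := hx
    have h0 : m % (D : ℤ) = m - D * (m / D) := Int.emod_def m D
    rw [keyD, hm, Int.mul_ediv_cancel_left _ hv0, h0]
    have h1 : h + (m - D * (m / D)) * v = (x : ℤ) + N * (-(m / D)) := by
      rw [hNZ]
      linear_combination -hm
    rw [h1, Int.add_mul_emod_self_left, Int.emod_eq_of_lt (by omega) (by omega)]
    rfl
  · intro j hj
    refine per_DUA hf ?_
    rw [key]
    exact Int.dvd_self_sub_emod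

/-- the kernel of multiplication by `d` -/
theorem ker_DUA {N : ℕ} [NeZero N] (d : ℤ) :
    ((univ : Finset (ZMod N)).filter (fun y => y * (d : ZMod N) = 0)).card ≤ Int.gcd d N := by
  classical
  have hN : 0 < N := NeZero.pos N
  set g := Int.gcd d N with hg
  have hg0 : 0 < g := Int.gcd_pos_of_ne_zero_right _ (by exact_mod_cast hN.ne')
  obtain ⟨n, hn⟩ : g ∣ N := by
    have := Int.gcd_dvd_right d (N : ℤ)
    exact_mod_cast this
  have hn0 : 0 < n := by
    rcases Nat.eq_zero_or_pos n with h | h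
    · rw [h] at hn; omega
    · exact h
  have hdv : ∀ y : ZMod N, y * (d : ZMod N) = 0 → n ∣ y.val := by
    intro y hy
    have h1 : (N : ℤ) ∣ (y.val : ℤ) * d := by
      rw [← ZMod.intCast_zmod_eq_zero_iff_dvd]
      push_cast
      rw [ZMod.natCast_zmod_val]
      exact hy
    obtain ⟨d', hd'⟩ : (g : ℤ) ∣ d := Int.gcd_dvd_left d (N : ℤ)
    have hc : IsCoprime (n : ℤ) d' := by
      rw [Int.isCoprime_iff_gcd_eq_one]
      have h2 : g * Int.gcd d' n = g * 1 := by
        rw [mul_one]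
        conv_rhs => rw [hg, hd', hn]
        push_cast
        rw [Int.gcd_mul_left]
        simp
      have h3 := Nat.eq_of_mul_eq_mul_left hg0 h2
      rw [Int.gcd_comm]
      exact h3
    have h4 : (n : ℤ) ∣ (y.val : ℤ) * d' := by
      obtain ⟨w, hw⟩ := h1
      refine ⟨w, ?_⟩
      have hg0' : (g : ℤ) ≠ 0 := by exact_mod_cast hg0.ne'
      refine mul_left_cancel₀ hg0' ?_
      have hNZ : (N : ℤ) = g * n := by exact_mod_cast hn
      rw [hNZ, hd'] at hw
      linear_combination hw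
    exact_mod_cast hc.dvd_of_dvd_mul_right h4
  calc ((univ : Finset (ZMod N)).filter (fun y => y * (d : ZMod N) = 0)).card
      ≤ (range g).card := by
        refine card_le_card_of_injOn (fun y => y.val / n) ?_ ?_
        · intro y _
          simp only [coe_range, Set.mem_Iio]
          rw [Nat.div_lt_iff_lt_mul hn0, ← hn]
          exact ZMod.val_lt y
        · intro y hy y' hy' hyy
          have hy1 : y * (d : ZMod N) = 0 := (mem_filter.1 (mem_coe.1 hy)).2
          have hy1' : y' * (d : ZMod N) = 0 := (mem_filter.1 (mem_coe.1 hy')).2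
          simp only at hyy
          have e1 := Nat.div_mul_cancel (hdv y hy1)
          have e2 := Nat.div_mul_cancel (hdv y' hy1')
          rw [hyy] at e1
          exact ZMod.val_injective N (e1.symm.trans e2)
    _ = g := card_range g

/-- the number of units `≡ 1` -/
theorem units_DUA {N v : ℕ} [NeZero N] [NeZero v] (hvN : v ∣ N) :
    Nat.totient N ≤
      v * ((univ : Finset (ZMod N)ˣ).filter (fun u => ZMod.unitsMap hvN u = 1)).card := by
  classical
  have h1 := Subgroup.card_mul_index (ZMod.unitsMap hvN).ker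
  rw [Subgroup.index_ker, MonoidHom.range_eq_top.2 (ZMod.unitsMap_surjective hvN)] at h1
  have h2 : Nat.card (⊤ : Subgroup (ZMod v)ˣ) = Nat.totient v := by
    rw [Subgroup.card_top, Nat.card_eq_fintype_card, ZMod.card_units_eq_totient]
  have h3 : Nat.card (ZMod N)ˣ = Nat.totient N := by
    rw [Nat.card_eq_fintype_card, ZMod.card_units_eq_totient]
  have h4 : Nat.card (ZMod.unitsMap hvN).ker =
      ((univ : Finset (ZMod N)ˣ).filter (fun u => ZMod.unitsMap hvN u = 1)).card := by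
    rw [Nat.card_eq_fintype_card, Fintype.card_subtype]
    congr 1
    ext u
    rw [mem_filter, mem_filter, MonoidHom.mem_ker]
  rw [h2, h3, h4] at h1
  rw [← h1, mul_comm]
  exact Nat.mul_le_mul_right _ (Nat.totient_le v)

theorem hDUA (hP : StPVI) : StDUA := by
  classical
  intro N v h d g ω hN hv hvN hper hω
  have : NeZero N := ⟨by omega⟩
  have : NeZero v := ⟨by omega⟩
  obtain ⟨D, hND⟩ := hvN
  have hvN : v ∣ N := ⟨D, hND⟩
  have hNv : N / v = D := by rw [hND]; exact Nat.mul_div_cancel_left D (by omega)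
  have hN0 : (0 : ℝ) < N := by exact_mod_cast hN
  rw [hNv]
  -- the coefficients on `ZMod N`
  set B : ZMod N → ℂ := fun a => if (v : ℤ) ∣ ((a.val : ℕ) : ℤ) - h then g (a.val : ℕ) else 0
    with hB
  set E : ZMod N → ℂ := fun a => ex ((((a.val : ℕ) : ℤ) : ℝ) / N) with hE
  have hEk : ∀ k : ℤ, E (k : ZMod N) = ex ((k : ℝ) / N) := by
    intro k
    refine ex_cong_GUN hN ?_
    rw [← ZMod.intCast_zmod_eq_zero_iff_dvd]
    push_cast
    rw [ZMod.natCast_zmod_val]
    ring
  set Φ : ZMod N → ℂ := fun e => ∑ a : ZMod N, B a * E (-(e * a)) with hΦ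
  -- the sum of the statement
  have hsum : ∑ j ∈ range D, g (h + j * v) * ex (-(d * (h + j * v) / N)) = Φ (d : ZMod N) := by
    have h1 := resum_DUA (M := ℂ) hN hv hND h (f := fun i : ℤ => g i * ex (-(d * i / N))) (by
      intro i
      rw [hper]
      congr 1
      have e1 : -((d : ℝ) * ((i + N : ℤ) : ℝ) / N) = ((-(d * (i + N)) : ℤ) : ℝ) / N := by
        push_cast; ring
      have e2 : -((d : ℝ) * (i : ℝ) / N) = ((-(d * i) : ℤ) : ℝ) / N := by push_cast; ring
      rw [e1, e2]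
      exact ex_cong_GUN hN ⟨-d, by ring⟩)
    have h2 : ∑ j ∈ range D, g (h + j * v) * ex (-(d * (h + j * v) / N)) =
        ∑ j ∈ range D, (fun i : ℤ => g i * ex (-(d * i / N))) (h + j * v) := by
      refine sum_congr rfl fun j _ => ?_
      simp only
      push_cast
      ring_nf
    rw [h2, h1, sum_zmod_GUN, hΦ]
    refine sum_congr rfl fun a _ => ?_
    have e3 : E (-((d : ZMod N) * a)) = ex (-((d : ℝ) * (((a.val : ℕ) : ℤ) : ℝ) / N)) := by
      have e4 : -((d : ZMod N) * a) = ((-(d * ((a.val : ℕ) : ℤ)) : ℤ) : ZMod N) := by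
        push_cast
        rw [ZMod.natCast_zmod_val]
      rw [e4, hEk]
      congr 1
      push_cast
      ring
    rw [hB]
    simp only
    split_ifs with hc
    · rw [e3]
    · rw [zero_mul]
  have hsq : ∑ j ∈ range D, ‖g (h + j * v)‖ ^ 2 = ∑ a : ZMod N, ‖B a‖ ^ 2 := by
    have h1 := resum_DUA (M := ℝ) hN hv hND h (f := fun i : ℤ => ‖g i‖ ^ 2) (by
      intro i; rw [hper])
    have h2 : ∀ f : ℕ → ℝ, ∑ x ∈ range N, f x = ∑ a : ZMod N, f a.val := by
      intro f
      have := sum_zmod_GUN (q := N) (fun x => ((f x : ℝ) : ℂ))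
      exact_mod_cast this
    rw [show ∑ j ∈ range D, ‖g (h + j * v)‖ ^ 2 =
      ∑ j ∈ range D, (fun i : ℤ => ‖g i‖ ^ 2) (h + j * v) from rfl, h1, h2]
    refine sum_congr rfl fun a _ => ?_
    rw [hB]
    simp only
    split_ifs <;> simp
  -- Parseval
  have hpars : ∑ e : ZMod N, ‖Φ e‖ ^ 2 = N * ∑ a : ZMod N, ‖B a‖ ^ 2 := by
    have h2 : ∀ f : ℕ → ℝ, ∑ x ∈ range N, f x = ∑ a : ZMod N, f a.val := by
      intro f
      have := sum_zmod_GUN (q := N) (fun x => ((f x : ℝ) : ℂ))
      exact_mod_cast this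
    have h1 := hP N (fun x => conj (B (x : ZMod N))) hN
    rw [h2, h2] at h1
    have e1 : ∑ a : ZMod N, ‖conj (B ((a.val : ℕ) : ZMod N))‖ ^ 2 = ∑ a : ZMod N, ‖B a‖ ^ 2 := by
      refine sum_congr rfl fun a _ => ?_
      rw [RCLike.norm_conj, ZMod.natCast_zmod_val]
    rw [e1] at h1
    rw [← h1]
    refine sum_congr rfl fun e _ => ?_
    congr 1
    rw [sum_zmod_GUN, hΦ, ← RCLike.norm_conj (∑ a : ZMod N, B a * E (-(e * a)))]
    rw [map_sum]
    congr 1
    refine sum_congr rfl fun a _ => ?_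
    rw [ZMod.natCast_zmod_val, map_mul]
    congr 1
    have e4 : -(e * a) = ((-(((e.val : ℕ) : ℤ) * ((a.val : ℕ) : ℤ)) : ℤ) : ZMod N) := by
      push_cast
      rw [ZMod.natCast_zmod_val, ZMod.natCast_zmod_val]
    rw [e4, hEk, conj_ex]
    congr 1
    push_cast
    ring
  -- invariance
  have hinv : ∀ u : (ZMod N)ˣ, ZMod.unitsMap hvN u = 1 → ∀ e : ZMod N,
      ‖Φ ((u : ZMod N) * e)‖ = ‖Φ e‖ := by
    intro u hu e
    have hcop : IsCoprime (((u : ZMod N).val : ℕ) : ℤ) (N : ℤ) := by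
      rw [Nat.isCoprime_iff_coprime]
      exact ZMod.val_coe_unit_coprime u
    obtain ⟨hω1, hω2⟩ := hω _ hcop
    set w := ω (((u : ZMod N).val : ℕ) : ℤ) with hw
    have hw0 : w ≠ 0 := by
      intro h0
      rw [h0, norm_zero] at hω1
      exact zero_ne_one hω1
    have hBu : ∀ a : ZMod N, B ((u : ZMod N) * a) = w * B a := by
      intro a
      have c1 : (N : ℤ) ∣ ((((u : ZMod N) * a).val : ℕ) : ℤ) -
          (((u : ZMod N).val : ℕ) : ℤ) * ((a.val : ℕ) : ℤ) := by
        rw [← ZMod.intCast_zmod_eq_zero_iff_dvd]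
        push_cast
        rw [ZMod.natCast_zmod_val, ZMod.natCast_zmod_val, ZMod.natCast_zmod_val]
        ring
      have c2 : (v : ℤ) ∣ (((u : ZMod N).val : ℕ) : ℤ) - 1 := by
        rw [← ZMod.intCast_zmod_eq_zero_iff_dvd]
        push_cast
        have h5 := congrArg Units.val hu
        rw [ZMod.unitsMap_val, Units.val_one] at h5
        rw [ZMod.natCast_val, h5]
        ring
      have c3 : (v : ℤ) ∣ ((((u : ZMod N) * a).val : ℕ) : ℤ) - ((a.val : ℕ) : ℤ) := by
        have c4 : (v : ℤ) ∣ (N : ℤ) := by exact_mod_cast hvN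
        have c5 := (c4.trans c1).add (c2.mul_right ((a.val : ℕ) : ℤ))
        have e6 : ((((u : ZMod N) * a).val : ℕ) : ℤ) - (((u : ZMod N).val : ℕ) : ℤ) *
            ((a.val : ℕ) : ℤ) + ((((u : ZMod N).val : ℕ) : ℤ) - 1) * ((a.val : ℕ) : ℤ) =
            ((((u : ZMod N) * a).val : ℕ) : ℤ) - ((a.val : ℕ) : ℤ) := by ring
        rwa [e6] at c5
      have c6 : ((v : ℤ) ∣ ((((u : ZMod N) * a).val : ℕ) : ℤ) - h) ↔
          ((v : ℤ) ∣ ((a.val : ℕ) : ℤ) - h) := by
        constructor
        · intro c7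
          have := c7.sub c3
          have e7 : ((((u : ZMod N) * a).val : ℕ) : ℤ) - h - (((((u : ZMod N) * a).val : ℕ) : ℤ) -
            ((a.val : ℕ) : ℤ)) = ((a.val : ℕ) : ℤ) - h := by ring
          rwa [e7] at this
        · intro c7
          have := c7.add c3
          have e7 : ((a.val : ℕ) : ℤ) - h + (((((u : ZMod N) * a).val : ℕ) : ℤ) -
            ((a.val : ℕ) : ℤ)) = ((((u : ZMod N) * a).val : ℕ) : ℤ) - h := by ring
          rwa [e7] at this
      rw [hB]
      simp only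
      by_cases hc : (v : ℤ) ∣ ((a.val : ℕ) : ℤ) - h
      · rw [if_pos hc, if_pos (c6.2 hc), per_DUA hper c1, hω2]
      · rw [if_neg hc, if_neg (fun h9 => hc (c6.1 h9)), mul_zero]
    have h6 : w * Φ ((u : ZMod N) * e) = Φ e := by
      rw [hΦ]
      simp only
      rw [mul_sum]
      rw [← Equiv.sum_comp (Units.mulLeft u) (fun b : ZMod N => B b * E (-(e * b)))]
      refine sum_congr rfl fun a _ => ?_
      have e8 : (Units.mulLeft u) a = (u : ZMod N) * a := rfl
      have e9 : -((u : ZMod N) * e * a) = -(e * ((u : ZMod N) * a)) := by ring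
      rw [e8, hBu, e9, mul_assoc]
    have h7 := congrArg norm h6
    rw [norm_mul, hω1, one_mul] at h7
    exact h7
  -- summation over the units
  set T := (univ : Finset (ZMod N)ˣ).filter (fun u => ZMod.unitsMap hvN u = 1) with hT
  have h8 : (T.card : ℝ) * ‖Φ (d : ZMod N)‖ ^ 2 =
      ∑ u ∈ T, ‖Φ ((u : ZMod N) * (d : ZMod N))‖ ^ 2 := by
    rw [← nsmul_eq_mul, ← sum_const]
    refine sum_congr rfl fun u hu => ?_
    rw [hT, mem_filter] at hu
    rw [hinv u hu.2]
  have h9 : ∑ u ∈ T, ‖Φ ((u : ZMod N) * (d : ZMod N))‖ ^ 2 ≤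
      (Int.gcd d N : ℝ) * ∑ e : ZMod N, ‖Φ e‖ ^ 2 := by
    rw [← sum_fiberwise_of_maps_to (s := T) (t := univ)
      (g := fun u : (ZMod N)ˣ => (u : ZMod N) * (d : ZMod N)) (fun _ _ => mem_univ _), mul_sum]
    refine sum_le_sum fun e _ => ?_
    have h10 : ∀ u ∈ T.filter (fun u : (ZMod N)ˣ => (u : ZMod N) * (d : ZMod N) = e),
        ‖Φ ((u : ZMod N) * (d : ZMod N))‖ ^ 2 = ‖Φ e‖ ^ 2 := by
      intro u hu
      rw [(mem_filter.1 hu).2]
    rw [sum_congr rfl h10, sum_const, nsmul_eq_mul]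
    refine mul_le_mul_of_nonneg_right ?_ (by positivity)
    have h11 : (T.filter (fun u : (ZMod N)ˣ => (u : ZMod N) * (d : ZMod N) = e)).card ≤
        ((univ : Finset (ZMod N)).filter (fun y => y * (d : ZMod N) = 0)).card := by
      rcases (T.filter (fun u : (ZMod N)ˣ => (u : ZMod N) * (d : ZMod N) = e)).eq_empty_or_nonempty
        with h12 | ⟨u0, hu0⟩
      · rw [h12, card_empty]
        exact Nat.zero_le _
      · refine card_le_card_of_injOn (fun u => (u : ZMod N) - (u0 : ZMod N)) ?_ ?_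
        · intro u hu
          have a1 := (mem_filter.1 (mem_coe.1 hu)).2
          have a2 := (mem_filter.1 hu0).2
          simp only [coe_filter, mem_univ, true_and, Set.mem_ofPred_eq]
          rw [sub_mul, a1, a2, sub_self]
        · intro u _ u' _ huu
          simp only at huu
          exact Units.ext (sub_left_injective huu)
    exact_mod_cast h11.trans (ker_DUA d)
  have h13 := units_DUA hvN
  rw [← hT] at h13
  have h14 : (Nat.totient N : ℝ) ≤ v * T.card := by exact_mod_cast h13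
  have hφ : (0 : ℝ) < Nat.totient N := by
    have := Nat.totient_pos.2 (show 0 < N from hN)
    exact_mod_cast this
  rw [hsum, hsq]
  have h15 : (T.card : ℝ) * ‖Φ (d : ZMod N)‖ ^ 2 ≤
      (Int.gcd d N : ℝ) * (N * ∑ a : ZMod N, ‖B a‖ ^ 2) := by
    rw [h8, ← hpars]
    exact h9
  have h16 : (Nat.totient N : ℝ) * ‖Φ (d : ZMod N)‖ ^ 2 ≤
      v * ((Int.gcd d N : ℝ) * (N * ∑ a : ZMod N, ‖B a‖ ^ 2)) := by
    calc (Nat.totient N : ℝ) * ‖Φ (d : ZMod N)‖ ^ 2
        ≤ (v * T.card) * ‖Φ (d : ZMod N)‖ ^ 2 :=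
          mul_le_mul_of_nonneg_right h14 (by positivity)
      _ = v * (T.card * ‖Φ (d : ZMod N)‖ ^ 2) := by ring
      _ ≤ _ := mul_le_mul_of_nonneg_left h15 (Nat.cast_nonneg v)
  calc ‖Φ (d : ZMod N)‖ ^ 2 ≤ v * ((Int.gcd d N : ℝ) * (N * ∑ a : ZMod N, ‖B a‖ ^ 2)) /
        Nat.totient N := by
        rw [le_div_iff₀ hφ, mul_comm]
        exact h16
    _ = _ := by ring

end Pool.Agent.Helper49.PC
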