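import Pool.Agent.Helper49.PC.StE

/-!
# Project PC: the final form of the bound
-/

set_option autoImplicit false

namespace Pool.Agent.Helper49.PC

open Finset

theorem ev_FINE (C : ℕ) (μ : ℝ) (hμ : 4 < μ) :
    ∃ m₁ : ℕ, 3 ≤ m₁ ∧ ∀ x : ℝ, (m₁ : ℝ) ≤ x → x ^ 4 * Real.log x ^ C ≤ x ^ μ := by
  have h1 : ∀ᶠ x : ℝ in Filter.atTop, Real.log x ^ C ≤ x ^ (μ - 4) := by
    have := isLittleO_log_rpow_rpow_atTop (C : ℝ) (show 0 < μ - 4 by linarith)
    have h2 := this.bound (show (0 : ℝ) < 1 by norm_num)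
    filter_upwards [h2, Filter.eventually_ge_atTop (3 : ℝ)] with x hx h3
    rw [one_mul, Real.norm_of_nonneg (Real.rpow_nonneg (Real.log_nonneg (by linarith)) _),
      Real.norm_of_nonneg (Real.rpow_nonneg (by linarith) _), Real.rpow_natCast] at hx
    exact hx
  obtain ⟨x₁, hx₁⟩ := Filter.eventually_atTop.1 h1
  refine ⟨max 3 ⌈x₁⌉₊, le_max_left _ _, fun x hx => ?_⟩
  have h3 : (3 : ℝ) ≤ x := le_trans (by exact_mod_cast le_max_left 3 ⌈x₁⌉₊) hx
  have h4 : x₁ ≤ x := (Nat.le_ceil x₁).trans (le_trans (by exact_mod_cast le_max_right 3 ⌈x₁⌉₊) hx)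
  have h5 := hx₁ x h4
  have hx0 : (0 : ℝ) < x := by linarith
  calc x ^ 4 * Real.log x ^ C ≤ x ^ 4 * x ^ (μ - 4) :=
        mul_le_mul_of_nonneg_left h5 (by positivity)
    _ = x ^ μ := by
        rw [← Real.rpow_natCast x 4, ← Real.rpow_add hx0]
        congr 1
        push_cast
        ring

/-- the main bound is at most `3 |d| + m ^ μ` -/
theorem bd_FINE (C : ℕ) (μ : ℝ) (hμ : 4 < μ) : ∃ x₁ : ℕ, ∀ a b c d : ℤ, a ≠ 0 → b ≠ 0 → c ≠ 0 →
    (x₁ : ℤ) ≤ max |d| (max |a| (max |b| |c|)) →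
    8 / 3 * |(d : ℝ)| / (min |a| (min |b| |c|) : ℤ) +
      (|((a * b * c : ℤ) : ℝ)| / (min |a| (min |b| |c|) : ℤ)) ^ 2 *
        Real.log (max 3 (max |a| (max |b| |c|)) : ℤ) ^ C ≤
    3 * |(d : ℝ)| + ((max 3 (max |a| (max |b| |c|)) : ℤ) : ℝ) ^ μ := by
  obtain ⟨m₁, hm3, hm₁⟩ := ev_FINE C μ hμ
  obtain ⟨x₁, hx₁⟩ := exists_nat_ge (3 * ((m₁ : ℝ) ^ 4 * Real.log m₁ ^ C))
  refine ⟨max x₁ (m₁ + 1), ?_⟩
  intro a b c d ha hb hc hx
  set m : ℤ := max 3 (max |a| (max |b| |c|)) with hm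
  set k : ℤ := min |a| (min |b| |c|) with hk
  have hk1 : (1 : ℤ) ≤ k := by
    rw [hk]
    exact le_min (Int.one_le_abs ha) (le_min (Int.one_le_abs hb) (Int.one_le_abs hc))
  have hm3' : (3 : ℤ) ≤ m := le_max_left _ _
  have hkR : (1 : ℝ) ≤ k := by exact_mod_cast hk1
  have hmR : (3 : ℝ) ≤ m := by exact_mod_cast hm3'
  have ham : |a| ≤ m := (le_max_left _ _).trans (le_max_right _ _)
  have hbm : |b| ≤ m := ((le_max_left _ _).trans (le_max_right _ _)).trans (le_max_right _ _)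
  have hcm : |c| ≤ m := ((le_max_right _ _).trans (le_max_right _ _)).trans (le_max_right _ _)
  -- the product of the two larger coefficients
  have hD : |a * b * c| ≤ k * (m * m) := by
    have h0a := abs_nonneg a
    have h0b := abs_nonneg b
    have h0c := abs_nonneg c
    have hm0 : (0 : ℤ) ≤ m := by omega
    rw [abs_mul, abs_mul]
    have hcases : k = |a| ∨ k = |b| ∨ k = |c| := by
      rw [hk]
      rcases min_choice |a| (min |b| |c|) with h | h
      · exact Or.inl h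
      · rw [h]
        rcases min_choice |b| |c| with h' | h'
        · exact Or.inr (Or.inl h')
        · exact Or.inr (Or.inr h')
    rcases hcases with h | h | h
    · rw [h, mul_assoc]
      exact mul_le_mul_of_nonneg_left (mul_le_mul hbm hcm h0c hm0) h0a
    · rw [h]
      calc |a| * |b| * |c| = |b| * (|a| * |c|) := by ring
        _ ≤ |b| * (m * m) := mul_le_mul_of_nonneg_left (mul_le_mul ham hcm h0c hm0) h0b
    · rw [h]
      calc |a| * |b| * |c| = |c| * (|a| * |b|) := by ring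
        _ ≤ |c| * (m * m) := mul_le_mul_of_nonneg_left (mul_le_mul ham hbm h0b hm0) h0c
  have hDR : |((a * b * c : ℤ) : ℝ)| / k ≤ (m : ℝ) ^ 2 := by
    rw [div_le_iff₀ (by linarith)]
    have : ((|a * b * c| : ℤ) : ℝ) ≤ ((k * (m * m) : ℤ) : ℝ) := by exact_mod_cast hD
    rw [Int.cast_abs] at this
    calc |((a * b * c : ℤ) : ℝ)| ≤ ((k * (m * m) : ℤ) : ℝ) := this
      _ = (m : ℝ) ^ 2 * k := by push_cast; ring
  have hD0 : 0 ≤ |((a * b * c : ℤ) : ℝ)| / k := by positivity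
  have hL0 : 0 ≤ Real.log (m : ℝ) := Real.log_nonneg (by linarith)
  have h1 : (|((a * b * c : ℤ) : ℝ)| / k) ^ 2 * Real.log (m : ℝ) ^ C ≤
      (m : ℝ) ^ 4 * Real.log (m : ℝ) ^ C := by
    refine mul_le_mul_of_nonneg_right ?_ (by positivity)
    calc (|((a * b * c : ℤ) : ℝ)| / k) ^ 2 ≤ ((m : ℝ) ^ 2) ^ 2 := pow_le_pow_left₀ hD0 hDR 2
      _ = (m : ℝ) ^ 4 := by ring
  have hd0 := abs_nonneg (d : ℝ)
  have h2 : 8 / 3 * |(d : ℝ)| / k ≤ 8 / 3 * |(d : ℝ)| := div_le_self (by positivity) hkR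
  rcases le_or_gt (m₁ : ℤ) m with h3 | h3
  · have h4 := hm₁ m (by exact_mod_cast h3)
    linarith
  · -- `m < m₁`, so `|d|` is large
    have h5 : (x₁ : ℤ) ≤ |d| := by
      have h6 : ((max x₁ (m₁ + 1) : ℕ) : ℤ) ≤ |d| := by
        rcases le_max_iff.1 hx with h | h
        · exact h
        · exfalso
          have h7 : max |a| (max |b| |c|) ≤ m := le_max_right _ _
          have h8 : ((m₁ + 1 : ℕ) : ℤ) ≤ ((max x₁ (m₁ + 1) : ℕ) : ℤ) := by
            exact_mod_cast le_max_right _ _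
          push_cast at h8
          push_cast at h
          omega
      refine le_trans ?_ h6
      exact_mod_cast le_max_left _ _
    have h6 : (x₁ : ℝ) ≤ |(d : ℝ)| := by
      have : ((x₁ : ℤ) : ℝ) ≤ ((|d| : ℤ) : ℝ) := by exact_mod_cast h5
      rw [Int.cast_abs] at this
      exact_mod_cast this
    have h7 : (m : ℝ) ≤ m₁ := by exact_mod_cast h3.le
    have h8 : (m : ℝ) ^ 4 * Real.log (m : ℝ) ^ C ≤ (m₁ : ℝ) ^ 4 * Real.log m₁ ^ C := by
      have h9 : Real.log (m : ℝ) ≤ Real.log m₁ := Real.log_le_log (by linarith) h7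
      gcongr
    have h9 : (0 : ℝ) ≤ (m : ℝ) ^ μ := Real.rpow_nonneg (by linarith) _
    linarith

end Pool.Agent.Helper49.PC
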