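import Pool.Agent.Helper49.PC.StC

/-!
# Project PC: module FOU, fourth moment of a sum twisted by characters
-/

set_option autoImplicit false

namespace Pool.Agent.Helper49.PC

open Finset ArithmeticFunction
open Pool.Agent.Helper48.BK (ex th lz Vz Pz gs nd Apx AdN Sol thd)
open scoped ComplexConjugate

/-- coefficients of the square -/
private noncomputable def sqc_FOU (b : ℕ → ℂ) (N m : ℕ) : ℂ :=
  ∑ p ∈ (Ioc 0 N ×ˢ Ioc 0 N).filter (fun p => p.1 * p.2 = m), b p.1 * b p.2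

private theorem sq_eq_FOU {q : ℕ} (χ : DirichletCharacter ℂ q) (b : ℕ → ℂ) (N : ℕ) :
    (∑ n ∈ Ioc 0 N, b n * χ (n : ZMod q)) ^ 2 =
      ∑ m ∈ Ioc 0 (0 + N ^ 2), sqc_FOU b N m * χ (m : ZMod q) := by
  have hmaps : ∀ p ∈ (Ioc 0 N ×ˢ Ioc 0 N : Finset (ℕ × ℕ)), p.1 * p.2 ∈ Ioc 0 (0 + N ^ 2) := by
    intro p hp
    rw [mem_product, mem_Ioc, mem_Ioc] at hp
    rw [mem_Ioc]
    refine ⟨Nat.mul_pos hp.1.1 hp.2.1, ?_⟩
    rw [zero_add, pow_two]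
    exact Nat.mul_le_mul hp.1.2 hp.2.2
  rw [pow_two, Finset.sum_mul_sum, ← Finset.sum_product', ← Finset.sum_fiberwise_of_maps_to hmaps]
  refine Finset.sum_congr rfl fun m _ => ?_
  unfold sqc_FOU
  rw [Finset.sum_mul]
  refine Finset.sum_congr rfl fun p hp => ?_
  rw [mem_filter] at hp
  rw [← hp.2, Nat.cast_mul, map_mul]
  ring

private theorem norm_sqc_FOU (b : ℕ → ℂ) (T : ℝ) (N m : ℕ) (hT : 0 ≤ T)
    (hb : ∀ n, ‖b n‖ ≤ T * (n.divisors.card : ℝ)) (hm : 0 < m) :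
    ‖sqc_FOU b N m‖ ≤ T ^ 2 * (m.divisors.card : ℝ) ^ 3 := by
  unfold sqc_FOU
  have h1 : ∀ p ∈ (Ioc 0 N ×ˢ Ioc 0 N).filter (fun p : ℕ × ℕ => p.1 * p.2 = m),
      ‖b p.1 * b p.2‖ ≤ T ^ 2 * (m.divisors.card : ℝ) ^ 2 := by
    intro p hp
    rw [mem_filter] at hp
    have hd1 : p.1 ∣ m := ⟨p.2, hp.2.symm⟩
    have hd2 : p.2 ∣ m := ⟨p.1, by rw [mul_comm, hp.2]⟩
    have hc : ∀ d : ℕ, d ∣ m → ‖b d‖ ≤ T * (m.divisors.card : ℝ) := by
      intro d hd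
      refine (hb d).trans (mul_le_mul_of_nonneg_left ?_ hT)
      exact_mod_cast Finset.card_le_card (Nat.divisors_subset_of_dvd hm.ne' hd)
    rw [norm_mul]
    calc ‖b p.1‖ * ‖b p.2‖ ≤ (T * (m.divisors.card : ℝ)) * (T * (m.divisors.card : ℝ)) :=
          mul_le_mul (hc _ hd1) (hc _ hd2) (norm_nonneg _)
            (mul_nonneg hT (Nat.cast_nonneg _))
      _ = T ^ 2 * (m.divisors.card : ℝ) ^ 2 := by ring
  have h2 : (((Ioc 0 N ×ˢ Ioc 0 N).filter (fun p : ℕ × ℕ => p.1 * p.2 = m)).card : ℝ) ≤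
      (m.divisors.card : ℝ) := by
    have : ((Ioc 0 N ×ˢ Ioc 0 N).filter (fun p : ℕ × ℕ => p.1 * p.2 = m)).card ≤
        m.divisors.card := by
      refine Finset.card_le_card_of_injOn (fun p => p.1) ?_ ?_
      · intro p hp
        have hp' := (mem_filter.1 hp).2
        exact Finset.mem_coe.2 (Nat.mem_divisors.2 ⟨⟨p.2, hp'.symm⟩, hm.ne'⟩)
      · intro p hp p' hp' he
        have h3 := (mem_filter.1 hp).2
        have h4 := (mem_filter.1 hp').2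
        have h5 := (mem_filter.1 hp).1
        rw [mem_product, mem_Ioc, mem_Ioc] at h5
        have he' : p.1 = p'.1 := he
        have h6 : p.2 = p'.2 := by
          rw [← he'] at h4
          exact Nat.eq_of_mul_eq_mul_left h5.1.1 (h3.trans h4.symm)
        exact Prod.ext he' h6
    exact_mod_cast this
  refine (norm_sum_le _ _).trans ((Finset.sum_le_card_nsmul _ _ _ h1).trans ?_)
  rw [nsmul_eq_mul]
  calc (((Ioc 0 N ×ˢ Ioc 0 N).filter (fun p : ℕ × ℕ => p.1 * p.2 = m)).card : ℝ) *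
        (T ^ 2 * (m.divisors.card : ℝ) ^ 2)
      ≤ (m.divisors.card : ℝ) * (T ^ 2 * (m.divisors.card : ℝ) ^ 2) :=
        mul_le_mul_of_nonneg_right h2 (by positivity)
    _ = T ^ 2 * (m.divisors.card : ℝ) ^ 3 := by ring

theorem hFOU (h1 : StMSQ) (h2 : StDVK) : StFOU := by
  intro q _ b T N hT hb
  have hB : ∑ m ∈ Ioc 0 (0 + N ^ 2), ‖sqc_FOU b N m‖ ^ 2 ≤
      T ^ 4 * ((N : ℝ) ^ 2 * (1 + 2 * Real.log N) ^ 63) := by
    have h3 := h2 6 (N ^ 2)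
    have e1 : (((N ^ 2 : ℕ) : ℕ) : ℝ) = (N : ℝ) ^ 2 := by push_cast; ring
    have e2 : Real.log (((N ^ 2 : ℕ) : ℕ) : ℝ) = 2 * Real.log N := by
      rw [e1, Real.log_pow]
      push_cast
      ring
    rw [e2, e1] at h3
    have e3 : 2 ^ 6 - 1 = 63 := by norm_num
    rw [e3] at h3
    rw [zero_add]
    calc ∑ m ∈ Ioc 0 (N ^ 2), ‖sqc_FOU b N m‖ ^ 2
        ≤ ∑ m ∈ Ioc 0 (N ^ 2), T ^ 4 * (m.divisors.card : ℝ) ^ 6 := by
          refine Finset.sum_le_sum fun m hm => ?_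
          have h4 := norm_sqc_FOU b T N m hT hb (mem_Ioc.1 hm).1
          calc ‖sqc_FOU b N m‖ ^ 2 ≤ (T ^ 2 * (m.divisors.card : ℝ) ^ 3) ^ 2 :=
                pow_le_pow_left₀ (norm_nonneg _) h4 2
            _ = T ^ 4 * (m.divisors.card : ℝ) ^ 6 := by ring
      _ = T ^ 4 * ∑ m ∈ Ioc 0 (N ^ 2), (m.divisors.card : ℝ) ^ 6 := by rw [Finset.mul_sum]
      _ ≤ T ^ 4 * ((N : ℝ) ^ 2 * (1 + 2 * Real.log N) ^ 63) :=
          mul_le_mul_of_nonneg_left h3 (by positivity)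
  have h3 := h1 q 0 (N ^ 2) (sqc_FOU b N)
  calc ∑ χ : DirichletCharacter ℂ q, ‖∑ n ∈ Ioc 0 N, b n * χ (n : ZMod q)‖ ^ 4
      = ∑ χ : DirichletCharacter ℂ q,
          ‖∑ m ∈ Ioc 0 (0 + N ^ 2), sqc_FOU b N m * χ (m : ZMod q)‖ ^ 2 := by
        refine Finset.sum_congr rfl fun χ _ => ?_
        rw [← sq_eq_FOU, norm_pow, ← pow_mul]
    _ ≤ (((N ^ 2 : ℕ) : ℝ) + q) * ∑ m ∈ Ioc 0 (0 + N ^ 2), ‖sqc_FOU b N m‖ ^ 2 := h3
    _ ≤ (((N ^ 2 : ℕ) : ℝ) + q) * (T ^ 4 * ((N : ℝ) ^ 2 * (1 + 2 * Real.log N) ^ 63)) :=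
        mul_le_mul_of_nonneg_left hB (by positivity)
    _ = T ^ 4 * ((N : ℝ) ^ 2 + q) * N ^ 2 * (1 + 2 * Real.log N) ^ 63 := by
        push_cast
        ring

end Pool.Agent.Helper49.PC
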