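import Pool.Agent.Helper49.PC.M_GUN

/-!
# Project PC: module GEX
-/

set_option autoImplicit false

namespace Pool.Agent.Helper49.PC

open Finset ArithmeticFunction
open Pool.Agent.Helper48.BK (ex)
open scoped ComplexConjugate

theorem orth_GEX {q : ℕ} [NeZero q] {a : ZMod q} (ha : IsUnit a) (b : ZMod q) :
    ∑ χ : DirichletCharacter ℂ q, χ a * conj (χ b) =
      if a = b then (Nat.totient q : ℂ) else 0 := by
  have h1 : ∀ χ : DirichletCharacter ℂ q, χ a * conj (χ b) = conj (χ a⁻¹ * χ b) := by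
    intro χ
    rw [map_mul]
    congr 1
    have h2 : χ a * χ a⁻¹ = 1 := by
      rw [← map_mul, ZMod.mul_inv_of_unit a ha, map_one]
    have h3 : ‖χ a‖ = 1 := norm_unit_GUN χ ha
    have h4 : χ a⁻¹ = (χ a)⁻¹ := eq_inv_of_mul_eq_one_right h2
    rw [h4, Complex.inv_eq_conj h3, Complex.conj_conj]
  simp_rw [h1]
  rw [← map_sum, DirichletCharacter.sum_char_inv_mul_char_eq ℂ ha b]
  split_ifs
  · simp
  · simp

theorem hGEX : StGEX := by
  intro q _ s F i hF
  have hq : 1 ≤ q := NeZero.one_le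
  have hφ : (Nat.totient q : ℂ) ≠ 0 := by
    have := Nat.totient_pos.2 (show 0 < q from hq)
    exact_mod_cast this.ne'
  unfold Gs
  have h1 : ∀ χ : DirichletCharacter ℂ q,
      (∑ n ∈ s, F n * χ (n : ZMod q)) * ((1 / (Nat.totient q : ℂ)) *
        ∑ x ∈ range q, conj (χ (x : ZMod q)) * ex (i * x / q)) =
      ∑ n ∈ s, ∑ x ∈ range q, F n * (1 / (Nat.totient q : ℂ)) * ex (i * x / q) *
        (χ (n : ZMod q) * conj (χ (x : ZMod q))) := by
    intro χ
    rw [sum_mul]
    refine sum_congr rfl fun n _ => ?_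
    rw [mul_sum, mul_sum]
    refine sum_congr rfl fun x _ => ?_
    ring
  simp_rw [h1]
  rw [sum_comm]
  refine sum_congr rfl fun n hn => ?_
  rw [sum_comm]
  simp_rw [← mul_sum]
  rcases eq_or_ne (F n) 0 with h0 | h0
  · simp [h0]
  · have hu : IsUnit (n : ZMod q) := (ZMod.isUnit_iff_coprime n q).2 (hF n hn h0)
    simp_rw [orth_GEX hu]
    rw [sum_eq_single (n % q)]
    · rw [if_pos (by rw [ZMod.natCast_mod])]
      have e1 : ex (n * i / q) = ex (i * ((n % q : ℕ) : ℝ) / q) := by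
        have hm : (n : ℤ) = q * (n / q : ℕ) + (n % q : ℕ) := by exact_mod_cast (Nat.div_add_mod n q).symm
        have e2 : (n : ℝ) * i / q = ((n * i : ℤ) : ℝ) / q := by push_cast; ring
        have e3 : (i : ℝ) * ((n % q : ℕ) : ℝ) / q = ((i * ((n % q : ℕ) : ℤ) : ℤ) : ℝ) / q := by
          rw [Int.cast_mul, Int.cast_natCast]
        rw [e2, e3]
        refine ex_cong_GUN hq ⟨i * ((n / q : ℕ) : ℤ), ?_⟩
        generalize ((n % q : ℕ) : ℤ) = z1 at *
        generalize ((n / q : ℕ) : ℤ) = z2 at *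
        rw [hm]
        ring
      rw [e1]
      field_simp
    · intro x hx hxn
      rw [if_neg, mul_zero]
      intro h
      apply hxn
      rw [ZMod.natCast_eq_natCast_iff'] at h
      rw [h, Nat.mod_eq_of_lt (mem_range.1 hx)]
    · intro h
      exact absurd (mem_range.2 (Nat.mod_lt n hq)) h

end Pool.Agent.Helper49.PC
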