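import Pool.Agent.Helper49.PC.L2

/-!
# Project PC: statements, Fourier analysis on `Z/D` (part F)
-/

set_option autoImplicit false

namespace Pool.Agent.Helper49.PC

open Finset ArithmeticFunction
open Pool.Agent.Helper48.BK (ex th lz Vz Pz gs nd Apx AdN Sol thd)
open scoped ComplexConjugate

/-- ORT: orthogonality.  PROOF: if `D ∣ k` every term is `ex (integer) = 1` (`ex_int`); otherwise
`z = ex (k / D) ≠ 1` (as `ex t = 1` only for integer `t`), `z ^ D = ex k = 1` and the sum is the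
geometric sum `∑ z ^ j = (z ^ D - 1) / (z - 1) = 0`. -/
def StORT : Prop := ∀ (D : ℕ) (k : ℤ), 1 ≤ D →
  ∑ j ∈ range D, ex (k * j / D) = if (D : ℤ) ∣ k then (D : ℂ) else 0

/-- PV: Parseval.  PROOF: with `G n = F n * ex (n * (θ / D))` the sum at `(θ + j) / D` is
`∑ n, G n * ex (n * j / D)`; open the square, `‖z‖² = z * conj z`, sum over `j` first and use ORT
with `k = n - n'`: the result is `D * ∑_{n ≡ n' mod D} G n * conj (G n')`, and this is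
`D * ∑_{l < D} ‖∑_{n ≡ l} G n‖²`. -/
def StPV : Prop := ∀ (F : ℕ → ℂ) (X D : ℕ) (θ : ℝ), 1 ≤ D →
  NN F X D θ = D * ∑ l ∈ range D,
    ‖∑ n ∈ (Ioc 0 X).filter (fun n => n ≡ l [MOD D]), F n * ex (n * (θ / D))‖ ^ 2

/-- PVI: Parseval for arbitrary functions on `Z/q`.  PROOF: the same with ORT. -/
def StPVI : Prop := ∀ (q : ℕ) (b : ℕ → ℂ), 1 ≤ q →
  ∑ i ∈ range q, ‖∑ x ∈ range q, b x * ex ((i : ℝ) * x / q)‖ ^ 2 = q * ∑ x ∈ range q, ‖b x‖ ^ 2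

/-- TRV: trivial bound.  PROOF: from PV; a class modulo `D` has at most `X / D + 1` elements in
`(0, X]`, so by Cauchy-Schwarz `‖∑_{n ≡ l} ..‖² ≤ (X / D + 1) ∑_{n ≡ l} ‖F n‖²`; sum over `l`
and multiply by `D`. -/
def StTRV : Prop := ∀ (F : ℕ → ℂ) (X D : ℕ) (θ : ℝ), 1 ≤ D →
  NN F X D θ ≤ (X + D) * ∑ n ∈ Ioc 0 X, ‖F n‖ ^ 2

/-- PFL: mean value over `θ`.  PROOF: `(k / N + j) / D = (k + N j) / (N D)`, and
`(k, j) ↦ k + N j` is a bijection from `[0,N) × [0,D)` to `[0, N D)`; so the left side is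
`∑_{m < N D} ‖Sc F X (m / (N D))‖²`; open the square and use ORT modulo `N D`: as
`|n - n'| < X ≤ N D` only `n = n'` survives. -/
def StPFL : Prop := ∀ (F : ℕ → ℂ) (X D N : ℕ), 1 ≤ D → 1 ≤ N → X ≤ N * D →
  ∑ k ∈ range N, NN F X D ((k : ℝ) / N) = N * D * ∑ n ∈ Ioc 0 X, ‖F n‖ ^ 2

/-- LW: the discrete Loomis-Whitney inequality.  PROOF: by the Chinese remainder theorem
`j ↦ (j mod a, j mod b, j mod c)` is a bijection of `[0, a b c)` with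
`[0,a) × [0,b) × [0,c)`, and `f j` depends only on `(j mod b, j mod c)`, etc.  So with
`x = j mod a`, `y = j mod b`, `z = j mod c` the sum is `∑_{x,y,z} f(y,z) g(x,z) h(x,y)`; for fixed
`x, y`, Cauchy-Schwarz over `z`: `∑_z f g ≤ F(y) G(x)` with `F(y)² = ∑_z f(y,z)²`,
`G(x)² = ∑_z g(x,z)²`; then Cauchy-Schwarz over `(x, y)`:
`∑_{x,y} F(y) G(x) h(x,y) ≤ (∑_{x,y} F(y)² G(x)²)^{1/2} (∑ h²)^{1/2}`. -/
def StLW : Prop := ∀ (f g h : ℕ → ℝ) (a b c : ℕ), 1 ≤ a → 1 ≤ b → 1 ≤ c → PCop a b c →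
  (∀ j, 0 ≤ f j) → (∀ j, 0 ≤ g j) → (∀ j, 0 ≤ h j) →
  (∀ j, f (j + b * c) = f j) → (∀ j, g (j + a * c) = g j) → (∀ j, h (j + a * b) = h j) →
  ∑ j ∈ range (a * b * c), f j * g j * h j ≤
    √(∑ j ∈ range (b * c), f j ^ 2) * √(∑ j ∈ range (a * c), g j ^ 2) *
      √(∑ j ∈ range (a * b), h j ^ 2)

/-- WB: bound for `WW`.  PROOF: triangle inequality, `‖ex‖ = 1`, `‖conj w‖ = ‖w‖` and LW for the
functions `‖u‖`, `‖v‖`, `‖w‖`. -/
def StWB : Prop := ∀ (u v w : ℕ → ℂ) (a b c : ℕ) (d : ℤ) (θ : ℝ), 1 ≤ a → 1 ≤ b → 1 ≤ c →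
  PCop a b c → (∀ j, u (j + b * c) = u j) → (∀ j, v (j + a * c) = v j) →
  (∀ j, w (j + a * b) = w j) →
  ‖WW u v w a b c d θ‖ ≤ l2 (range (b * c)) u * l2 (range (a * c)) v * l2 (range (a * b)) w

/-- CIR: the circle identity.  PROOF: for an integer `w` with `|w| < a b c N` one has
`[w = 0] = (1 / (a b c N)) ∑_{k < N} ∑_{j < a b c} ex (w (k / N + j) / (a b c))`: indeed
`(k / N + j) / (a b c) = (k + N j) / (a b c N)`, `(k, j) ↦ k + N j` is a bijection onto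
`[0, a b c N)`, and ORT applies modulo `a b c N`.  Take `w = a n + b m - c l - d`,
`|w| ≤ a X + b Y + c Z + |d|`; then `ex (w t)` with `t = (k / N + j) / (a b c)` is
`ex (a n t) ex (b m t) conj (ex (c l t)) ex (-d t)` and `a t = (k / N + j) / (b c)`, etc.
Multiply by `f n g m h l` and sum; `h` is real, so `∑ h l conj (ex ..) = conj (∑ h l ex ..)`. -/
def StCIR : Prop := ∀ (f g h : ℕ → ℝ) (X Y Z a b c N : ℕ) (d : ℤ), 1 ≤ a → 1 ≤ b → 1 ≤ c →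
  1 ≤ N → ((a * X + b * Y + c * Z : ℕ) : ℤ) + |d| < a * b * c * N →
  ((T3 f g h X Y Z a b c d : ℝ) : ℂ) = 1 / ((N : ℂ) * (a * b * c : ℕ)) *
    ∑ k ∈ range N, WW (Sj f X (b * c) ((k : ℝ) / N)) (Sj g Y (a * c) ((k : ℝ) / N))
      (Sj h Z (a * b) ((k : ℝ) / N)) a b c d ((k : ℝ) / N)

/-- SJP: periodicity.  PROOF: `(θ + j + D) / D = (θ + j) / D + 1` and `ex (n (t + 1)) = ex (n t)`
(`ex_add`, `ex_int`). -/
def StSJP : Prop := ∀ (f : ℕ → ℝ) (X D : ℕ) (θ : ℝ) (j : ℕ), 1 ≤ D →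
  Sj f X D θ (j + D) = Sj f X D θ j

/-- MEA: Dirichlet approximation and the measure of the major arcs.  PROOF of the first part:
Dirichlet's theorem (`Real.exists_nat_abs_mul_sub_round_le` or
`Real.exists_int_int_abs_mul_sub_le`: there are `1 ≤ v ≤ Q` and `h` with
`|v θ - h| ≤ 1 / (Q + 1)`), divide `h, v` by their greatest common divisor.  PROOF of the second
part: if `0 ≤ k / N < 1` and `|k / N - h / v| ≤ 1 / (v Q)` with `Q ≥ 2` then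
`-1 < h < v + 1`, so `0 ≤ h ≤ v`: at most `v + 1 ≤ 2 v` values of `h`; for given `v, h` at most
`2 N / (v Q) + 1` values of `k`.  The sum over `v ≤ P` is at most
`4 P N / Q + P (P + 1) ≤ 4 P N / Q + 2 P ^ 2 ≤ 8 P N / Q` if `P Q ≤ N` (`P ≥ 1`). -/
def StMEA : Prop := (∀ (Q : ℕ) (θ : ℝ), 1 ≤ Q → ∃ (v : ℕ) (h : ℤ), 1 ≤ v ∧ v ≤ Q ∧
    IsCoprime h (v : ℤ) ∧ |θ - h / v| ≤ 1 / (v * Q)) ∧
  ∀ (P Q N : ℕ) (S : Finset ℕ), 1 ≤ P → 2 ≤ Q → P * Q ≤ N → S ⊆ range N →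
    (∀ k ∈ S, ∃ (v : ℕ) (h : ℤ), 1 ≤ v ∧ v ≤ P ∧ |(k : ℝ) / N - h / v| ≤ 1 / (v * Q)) →
    (S.card : ℝ) ≤ 8 * P * N / Q

/-- CMP: comparison of two complete sums.  PROOF: `WW` is linear in `u` and `v` and additive in
`w`; telescoping,
`WW u v w - WW p q r = WW (u - p) v w + WW p (v - q) w + WW p q (w - r)` and by WB and
`l2 p ≤ l2 u + l2 (u - p) ≤ 2 R` (etc.) this is at most `(1 + 2 + 4) ε R₁ R₂ R₃`.  The same for
the second triple. -/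
def StCMP : Prop := ∀ (u p u' e v q v' f w r w' g : ℕ → ℂ) (a b c : ℕ) (d : ℤ)
  (θ R₁ R₂ R₃ ε : ℝ), 1 ≤ a → 1 ≤ b → 1 ≤ c → PCop a b c → 0 ≤ ε → ε ≤ 1 →
  (∀ j, u (j + b * c) = u j ∧ p (j + b * c) = p j ∧ u' (j + b * c) = u' j ∧
    e (j + b * c) = e j) →
  (∀ j, v (j + a * c) = v j ∧ q (j + a * c) = q j ∧ v' (j + a * c) = v' j ∧
    f (j + a * c) = f j) →
  (∀ j, w (j + a * b) = w j ∧ r (j + a * b) = r j ∧ w' (j + a * b) = w' j ∧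
    g (j + a * b) = g j) →
  l2 (range (b * c)) u ≤ R₁ → l2 (range (b * c)) u' ≤ R₁ →
  l2 (range (b * c)) (fun j => u j - p j) ≤ ε * R₁ →
  l2 (range (b * c)) (fun j => u' j - e j) ≤ ε * R₁ →
  l2 (range (a * c)) v ≤ R₂ → l2 (range (a * c)) v' ≤ R₂ →
  l2 (range (a * c)) (fun j => v j - q j) ≤ ε * R₂ →
  l2 (range (a * c)) (fun j => v' j - f j) ≤ ε * R₂ →
  l2 (range (a * b)) w ≤ R₃ → l2 (range (a * b)) w' ≤ R₃ →
  l2 (range (a * b)) (fun j => w j - r j) ≤ ε * R₃ →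
  l2 (range (a * b)) (fun j => w' j - g j) ≤ ε * R₃ →
  ‖(WW u v w a b c d θ - WW u' v' w' a b c d θ) -
    (WW p q r a b c d θ - WW e f g a b c d θ)‖ ≤ 14 * ε * R₁ * R₂ * R₃

/-- MNR: a sum over a set of `θ`.  PROOF: by WB (with SJP) each term is at most
`l2 (Sj f ..) * l2 (Sj g ..) * l2 (Sj h ..)`, and `l2 (range D) (Sj f X D θ) = √(NN f X D θ)` by
definition.  Bound the first factor by `R`, and use Cauchy-Schwarz for the sum over `k` of the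
other two, extended to all `k < N`; the sums of squares are given by PFL. -/
def StMNR : Prop := ∀ (f g h : ℕ → ℝ) (X Y Z a b c N : ℕ) (d : ℤ) (S : Finset ℕ) (R : ℝ),
  1 ≤ a → 1 ≤ b → 1 ≤ c → PCop a b c → 1 ≤ N → Y ≤ N * (a * c) → Z ≤ N * (a * b) → 0 ≤ R →
  S ⊆ range N → (∀ k ∈ S, NN (fun n => (f n : ℂ)) X (b * c) ((k : ℝ) / N) ≤ R ^ 2) →
  ‖∑ k ∈ S, WW (Sj f X (b * c) ((k : ℝ) / N)) (Sj g Y (a * c) ((k : ℝ) / N))
      (Sj h Z (a * b) ((k : ℝ) / N)) a b c d ((k : ℝ) / N)‖ ≤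
    R * √(N * (a * c : ℕ) * ∑ n ∈ Ioc 0 Y, g n ^ 2) *
      √(N * (a * b : ℕ) * ∑ n ∈ Ioc 0 Z, h n ^ 2)

end Pool.Agent.Helper49.PC
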