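import Pool.Agent.Helper49.PC.StG
import Pool.Agent.Helper49.PC.StF

/-!
# Project PC: module GPV
-/

set_option autoImplicit false

namespace Pool.Agent.Helper49.PC

open Finset ArithmeticFunction
open Pool.Agent.Helper48.BK (ex th lz Vz Pz gs nd Apx AdN Sol thd)
open scoped ComplexConjugate

private theorem sum_range_GPV (q : ℕ) [NeZero q] (f : ZMod q → ℂ) :
    ∑ x ∈ range q, f (x : ZMod q) = ∑ z : ZMod q, f z := by
  refine Finset.sum_nbij' (fun x => (x : ZMod q)) (fun z => z.val) ?_ ?_ ?_ ?_ ?_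
  · intro a _; exact Finset.mem_univ _
  · intro z _; exact Finset.mem_range.mpr (ZMod.val_lt z)
  · intro a ha; exact ZMod.val_cast_of_lt (Finset.mem_range.mp ha)
  · intro z _; exact ZMod.natCast_zmod_val z
  · intro a _; rfl

private theorem orth_GPV (q : ℕ) [NeZero q] (χ ψ : DirichletCharacter ℂ q) :
    ∑ x ∈ range q, conj (χ (x : ZMod q)) * ψ (x : ZMod q) =
      if χ = ψ then (Nat.totient q : ℂ) else 0 := by
  classical
  rw [sum_range_GPV q (fun z => conj (χ z) * ψ z)]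
  have h1 : ∀ z : ZMod q, conj (χ z) * ψ z = (χ⁻¹ * ψ) z := by
    intro z
    rw [MulChar.mul_apply]
    congr 1
    exact MulChar.star_apply' χ z
  simp only [h1]
  split_ifs with h
  · rw [h, inv_mul_cancel, MulChar.sum_one_eq_card_units, ZMod.card_units_eq_totient]
  · refine MulChar.sum_eq_zero_of_ne_one ?_
    intro h2
    exact h (inv_mul_eq_one.mp h2)

private theorem pars_GPV (q : ℕ) [NeZero q] (𝓖 : Finset (DirichletCharacter ℂ q))
    (cf : DirichletCharacter ℂ q → ℂ) :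
    ∑ x ∈ range q, ‖∑ χ ∈ 𝓖, cf χ * conj (χ (x : ZMod q))‖ ^ 2 =
      (Nat.totient q : ℝ) * ∑ χ ∈ 𝓖, ‖cf χ‖ ^ 2 := by
  classical
  have key : ((∑ x ∈ range q, ‖∑ χ ∈ 𝓖, cf χ * conj (χ (x : ZMod q))‖ ^ 2 : ℝ) : ℂ) =
      (((Nat.totient q : ℝ) * ∑ χ ∈ 𝓖, ‖cf χ‖ ^ 2 : ℝ) : ℂ) := by
    push_cast
    have h1 : ∀ x ∈ range q, ((‖∑ χ ∈ 𝓖, cf χ * conj (χ (x : ZMod q))‖ : ℝ) : ℂ) ^ 2 =
        ∑ χ ∈ 𝓖, ∑ ψ ∈ 𝓖, cf χ * conj (cf ψ) *
          (conj (χ (x : ZMod q)) * ψ (x : ZMod q)) := by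
      intro x _
      rw [← Complex.mul_conj', map_sum, Finset.sum_mul_sum]
      refine Finset.sum_congr rfl fun χ _ => Finset.sum_congr rfl fun ψ _ => ?_
      rw [map_mul, Complex.conj_conj]
      ring
    rw [Finset.sum_congr rfl h1, Finset.sum_comm]
    have h2 : ∀ χ ∈ 𝓖, ∑ x ∈ range q, ∑ ψ ∈ 𝓖, cf χ * conj (cf ψ) *
          (conj (χ (x : ZMod q)) * ψ (x : ZMod q)) =
        (Nat.totient q : ℂ) * ((‖cf χ‖ : ℝ) : ℂ) ^ 2 := by
      intro χ hχ
      rw [Finset.sum_comm]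
      simp only [← Finset.mul_sum, orth_GPV]
      rw [Finset.sum_eq_single_of_mem χ hχ]
      · rw [if_pos rfl, Complex.mul_conj']
        ring
      · intro ψ _ hne
        rw [if_neg (Ne.symm hne), mul_zero]
    rw [Finset.sum_congr rfl h2, ← Finset.mul_sum]
  exact_mod_cast key

theorem hGPV (h1 : StPVI) (h2 : StGUN) : StGPV := by
  intro D v _ 𝓖 cf h hD hv
  classical
  have hq : 1 ≤ D * v := Nat.mul_pos hD hv
  set F : ℤ → ℝ := fun i => ‖∑ χ ∈ 𝓖, cf χ * Gs χ i‖ ^ 2 with hF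
  have htot : (Nat.totient (D * v) : ℝ) ≠ 0 := by
    have := Nat.totient_pos.mpr (show 0 < D * v by omega)
    positivity
  have part1 : ∑ i ∈ range (D * v), ‖∑ χ ∈ 𝓖, cf χ * Gs χ i‖ ^ 2 =
      ((D * v : ℕ) : ℝ) / Nat.totient (D * v) * ∑ χ ∈ 𝓖, ‖cf χ‖ ^ 2 := by
    have e1 : ∀ i ∈ range (D * v), ‖∑ χ ∈ 𝓖, cf χ * Gs χ i‖ ^ 2 =
        ‖∑ x ∈ range (D * v), ((1 / (Nat.totient (D * v) : ℂ)) *
          ∑ χ ∈ 𝓖, cf χ * conj (χ (x : ZMod (D * v)))) * ex ((i : ℝ) * x / (D * v : ℕ))‖ ^ 2 := by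
      intro i _
      congr 2
      have e2 : ∀ χ ∈ 𝓖, cf χ * Gs χ i = ∑ x ∈ range (D * v),
          (1 / (Nat.totient (D * v) : ℂ)) * (cf χ * conj (χ (x : ZMod (D * v)))) *
            ex ((i : ℝ) * x / (D * v : ℕ)) := by
        intro χ _
        unfold Gs
        rw [Finset.mul_sum, Finset.mul_sum]
        refine Finset.sum_congr rfl fun x _ => ?_
        rw [Int.cast_natCast]
        ring
      rw [Finset.sum_congr rfl e2, Finset.sum_comm]
      refine Finset.sum_congr rfl fun x _ => ?_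
      rw [Finset.mul_sum, Finset.sum_mul]
    rw [Finset.sum_congr rfl e1]
    rw [h1 (D * v) (fun x => (1 / (Nat.totient (D * v) : ℂ)) *
          ∑ χ ∈ 𝓖, cf χ * conj (χ (x : ZMod (D * v)))) hq]
    have e3 : ∀ x ∈ range (D * v), ‖(1 / (Nat.totient (D * v) : ℂ)) *
          ∑ χ ∈ 𝓖, cf χ * conj (χ (x : ZMod (D * v)))‖ ^ 2 =
        (1 / (Nat.totient (D * v) : ℝ)) ^ 2 *
          ‖∑ χ ∈ 𝓖, cf χ * conj (χ (x : ZMod (D * v)))‖ ^ 2 := by
      intro x _
      rw [norm_mul, mul_pow, norm_div, norm_one, Complex.norm_natCast]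
    rw [Finset.sum_congr rfl e3, ← Finset.mul_sum, pars_GPV]
    field_simp
  refine ⟨part1, ?_⟩
  rw [← part1]
  -- periodicity
  have hper : ∀ i k : ℤ, F (i + k * (D * v : ℕ)) = F i := by
    intro i k
    have : ∀ χ ∈ 𝓖, cf χ * Gs χ (i + k * (D * v : ℕ)) = cf χ * Gs χ i := by
      intro χ _
      have hp : Function.Periodic (Gs χ) (((D * v : ℕ) : ℤ)) := (h2 (D * v) χ).1
      have hp2 := (hp.int_mul k) i
      simp only [Int.cast_id] at hp2
      rw [hp2]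
    simp only [hF]
    rw [Finset.sum_congr rfl this]
  set r : ℕ → ℕ := fun j => ((h + j * v) % ((D * v : ℕ) : ℤ)).toNat with hr
  have hqz : (0 : ℤ) < ((D * v : ℕ) : ℤ) := by exact_mod_cast hq
  have hrc : ∀ j, ((r j : ℕ) : ℤ) = (h + j * v) % ((D * v : ℕ) : ℤ) := by
    intro j
    simp only [hr]
    exact Int.toNat_of_nonneg (Int.emod_nonneg _ hqz.ne')
  have hrlt : ∀ j, r j < D * v := by
    intro j
    have := Int.emod_lt_of_pos (h + j * v) hqz
    rw [← hrc j] at this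
    exact_mod_cast this
  have hFr : ∀ j : ℕ, F (h + j * v) = F (r j : ℤ) := by
    intro j
    have e : (h + j * v : ℤ) = (h + j * v) % ((D * v : ℕ) : ℤ) +
        ((h + j * v) / ((D * v : ℕ) : ℤ)) * (D * v : ℕ) := by
      have := Int.emod_add_mul_ediv (h + j * v) ((D * v : ℕ) : ℤ)
      linarith
    rw [hrc j]
    conv_lhs => rw [e]
    exact hper _ _
  have hinj : Set.InjOn r (range D : Set ℕ) := by
    intro i hi j hj hij
    have hi' := Finset.mem_range.mp (Finset.mem_coe.mp hi)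
    have hj' := Finset.mem_range.mp (Finset.mem_coe.mp hj)
    have e1 : (h + i * v) % ((D * v : ℕ) : ℤ) = (h + j * v) % ((D * v : ℕ) : ℤ) := by
      rw [← hrc i, ← hrc j, hij]
    have e2 : (h + i * v : ℤ) ≡ h + j * v [ZMOD ((D * v : ℕ) : ℤ)] := e1
    have e3 : (i * v : ℤ) ≡ j * v [ZMOD ((D * v : ℕ) : ℤ)] := Int.ModEq.add_left_cancel' h e2
    have e4 : i * v ≡ j * v [MOD D * v] := by
      rw [← Int.natCast_modEq_iff]
      push_cast
      push_cast at e3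
      exact e3
    have e5 : i ≡ j [MOD D] := Nat.ModEq.mul_right_cancel' (by omega) e4
    exact Nat.ModEq.eq_of_lt_of_lt e5 hi' hj'
  calc ∑ j ∈ range D, ‖∑ χ ∈ 𝓖, cf χ * Gs χ (h + j * v)‖ ^ 2
      = ∑ j ∈ range D, F (r j : ℤ) := Finset.sum_congr rfl fun j _ => hFr j
    _ = ∑ i ∈ (range D).image r, F (i : ℤ) := by
        rw [Finset.sum_image]
        exact hinj
    _ ≤ ∑ i ∈ range (D * v), F (i : ℤ) := by
        refine Finset.sum_le_sum_of_subset_of_nonneg ?_ ?_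
        · intro i hi
          obtain ⟨j, -, rfl⟩ := Finset.mem_image.mp hi
          exact Finset.mem_range.mpr (hrlt j)
        · intro i _ _
          simp only [hF]
          positivity
    _ = ∑ i ∈ range (D * v), ‖∑ χ ∈ 𝓖, cf χ * Gs χ i‖ ^ 2 := rfl

end Pool.Agent.Helper49.PC
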