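import Pool.Agent.Helper49.PC.StG

/-!
# Project PC, module GSU: sup bound for Gauss sums of deep characters
-/

set_option autoImplicit false

namespace Pool.Agent.Helper49.PC

open Finset ArithmeticFunction
open Pool.Agent.Helper48.BK (ex th lz Vz Pz gs nd Apx AdN Sol thd)
open scoped ComplexConjugate

private theorem pars_GSU (h3 : StGPV) (N q : ℕ) [NeZero N] (h : N = q * 1) (hq : 1 ≤ q)
    (χ : DirichletCharacter ℂ N) :
    ∑ i ∈ range N, ‖Gs χ i‖ ^ 2 = (N : ℝ) / Nat.totient N := by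
  subst h
  have h := (h3 q 1 {χ} (fun _ => 1) 0 hq le_rfl).1
  rw [Finset.sum_singleton, norm_one, one_pow, mul_one (((q * 1 : ℕ) : ℝ) / _)] at h
  rw [← h]
  refine Finset.sum_congr rfl fun i _ => ?_
  rw [Finset.sum_singleton, one_mul]

/-- multiples of `i` modulo `q` -/
private theorem key_GSU (q : ℕ) (hq : 1 ≤ q) (i : ℤ) : ∃ q' : ℕ, q' ∣ q ∧ 1 ≤ q' ∧
    ∀ m : ℤ, (q : ℤ) ∣ m * i ↔ (q' : ℤ) ∣ m := by
  have hg : 0 < Int.gcd i q := Int.gcd_pos_of_ne_zero_right _ (by exact_mod_cast (by omega : q ≠ 0))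
  obtain ⟨i', n', hco, hi, hn⟩ := Int.exists_gcd_one hg
  set δ := Int.gcd i q with hδ
  have hδ0 : (0 : ℤ) < (δ : ℤ) := by exact_mod_cast hg
  have hn0 : 0 < n' := by
    have h1 : (0 : ℤ) < n' * δ := by rw [← hn]; exact_mod_cast hq
    exact pos_of_mul_pos_left h1 hδ0.le
  lift n' to ℕ using hn0.le
  refine ⟨n', ⟨δ, by exact_mod_cast hn⟩, by exact_mod_cast hn0, fun m => ?_⟩
  have hc : IsCoprime (n' : ℤ) i' := (Int.isCoprime_iff_gcd_eq_one.2 hco).symm
  constructor
  · intro h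
    rw [hi, hn, ← mul_assoc] at h
    have h1 : (n' : ℤ) ∣ m * i' := Int.dvd_of_mul_dvd_mul_right hδ0.ne' h
    exact hc.dvd_of_dvd_mul_right h1
  · rintro ⟨t, rfl⟩
    rw [hn, hi]
    exact ⟨t * i', by ring⟩

theorem hGSU (h1 : StPHI) (h2 : StGUN) (h3 : StGPV) : StGSU := by
  intro q hq0 χ R i hR hD
  have hq : 1 ≤ q := Nat.one_le_iff_ne_zero.2 (NeZero.ne q)
  obtain ⟨hper, hmul, hnorm⟩ := h2 q χ
  have hP : Function.Periodic (Gs χ) (q : ℤ) := fun i => hper i
  have hcong : ∀ a b : ℤ, (q : ℤ) ∣ a - b → Gs χ a = Gs χ b := by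
    rintro a b ⟨m, hm⟩
    have h := hP.int_mul m b
    rw [← h]
    congr 1
    rw [Int.cast_id]
    linarith [mul_comm m (q : ℤ)]
  obtain ⟨q', hd, hq'1, hkey⟩ := key_GSU q hq i
  have hu : ∀ x : (ZMod q)ˣ, (((((x : ZMod q).val : ℕ) : ℤ) : ZMod q) = x) ∧
      IsCoprime (((x : ZMod q).val : ℕ) : ℤ) (q : ℤ) := by
    intro x
    constructor
    · rw [Int.cast_natCast, ZMod.natCast_zmod_val]
    · exact Nat.isCoprime_iff_coprime.2 (ZMod.val_coe_unit_coprime x)
  have hum : ∀ x : (ZMod q)ˣ, (((((x : ZMod q).val : ℕ) : ℤ) : ZMod q') = ZMod.unitsMap hd x) := by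
    intro x
    rw [ZMod.unitsMap_val, Int.cast_natCast, ZMod.natCast_val]
  have hL : (1 : ℝ) ≤ 1 + Nat.log 2 q := by
    have : (0 : ℝ) ≤ Nat.log 2 q := Nat.cast_nonneg _
    linarith
  by_cases hf : χ.FactorsThrough q'
  · have hRq := hD q' hf
    have : NeZero q' := ⟨by omega⟩
    have hs := ZMod.unitsMap_surjective hd
    choose lift hlift using hs
    let u : (ZMod q')ˣ → ℤ := fun w => (((lift w : ZMod q).val : ℕ) : ℤ)
    let r : (ZMod q')ˣ → ℕ := fun w => ((u w * i) % q).toNat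
    have hqp : (0 : ℤ) < q := by exact_mod_cast hq
    have hr : ∀ w, (r w : ℤ) = (u w * i) % q := fun w =>
      Int.toNat_of_nonneg (Int.emod_nonneg _ hqp.ne')
    have hrlt : ∀ w, r w < q := by
      intro w
      have h : (r w : ℤ) < q := by rw [hr w]; exact Int.emod_lt_of_pos _ hqp
      exact_mod_cast h
    have hrG : ∀ w, ‖Gs χ (r w)‖ = ‖Gs χ i‖ := by
      intro w
      have e1 : Gs χ (r w) = Gs χ (u w * i) := by
        apply hcong
        rw [hr w]
        exact ⟨-((u w * i) / q), by rw [Int.emod_def]; ring⟩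
      rw [e1, hmul (u w) i (hu (lift w)).2, norm_mul, hnorm (u w) (hu (lift w)).2, one_mul]
    have hinj : Function.Injective r := by
      intro w w' h
      have e1 : (u w * i) % q = (u w' * i) % q := by rw [← hr w, ← hr w', h]
      have e2 : (q : ℤ) ∣ (u w - u w') * i := by
        rw [sub_mul]
        exact Int.ModEq.dvd (Eq.symm e1 : (u w' * i) ≡ (u w * i) [ZMOD q])
      have e3 := (hkey _).1 e2
      have e4 : ((u w : ℤ) : ZMod q') = ((u w' : ℤ) : ZMod q') := by
        rw [← sub_eq_zero, ← Int.cast_sub]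
        exact (ZMod.intCast_zmod_eq_zero_iff_dvd _ _).2 e3
      have e5 : (u w : ZMod q') = w := by
        have := hum (lift w)
        rw [hlift w] at this
        exact this
      have e6 : (u w' : ZMod q') = w' := by
        have := hum (lift w')
        rw [hlift w'] at this
        exact this
      rw [e5, e6] at e4
      exact Units.ext e4
    have hsum : (Nat.totient q' : ℝ) * ‖Gs χ i‖ ^ 2 ≤ ∑ j ∈ range q, ‖Gs χ j‖ ^ 2 := by
      have e1 : (Nat.totient q' : ℝ) * ‖Gs χ i‖ ^ 2 = ∑ w : (ZMod q')ˣ, ‖Gs χ (r w)‖ ^ 2 := by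
        rw [Finset.sum_congr rfl fun w _ => by rw [hrG w], Finset.sum_const, Finset.card_univ,
          ZMod.card_units_eq_totient, nsmul_eq_mul]
      have e2 : ∑ w : (ZMod q')ˣ, ‖Gs χ (r w)‖ ^ 2 = ∑ j ∈ univ.image r, ‖Gs χ j‖ ^ 2 := by
        rw [Finset.sum_image fun a _ b _ h => hinj h]
      rw [e1, e2]
      refine Finset.sum_le_sum_of_subset_of_nonneg ?_ fun _ _ _ => sq_nonneg _
      intro j hj
      obtain ⟨w, _, rfl⟩ := Finset.mem_image.1 hj
      exact Finset.mem_range.2 (hrlt w)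
    rw [pars_GSU h3 q q (mul_one q).symm hq χ] at hsum
    have hφ : (0 : ℝ) < Nat.totient q := by exact_mod_cast Nat.totient_pos.2 hq
    have h4 : (q : ℝ) / Nat.totient q ≤ 1 + Nat.log 2 q := by
      rw [div_le_iff₀ hφ]
      linarith [h1 q hq, mul_comm (Nat.totient q : ℝ) (1 + Nat.log 2 q)]
    have h5 := h1 q' hq'1
    have h6 : (Nat.log 2 q' : ℝ) ≤ Nat.log 2 q := by
      exact_mod_cast Nat.log_mono_right (Nat.le_of_dvd hq hd)
    have hG : 0 ≤ ‖Gs χ i‖ ^ 2 := sq_nonneg _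
    rw [le_div_iff₀ hR]
    calc ‖Gs χ i‖ ^ 2 * R ≤ ‖Gs χ i‖ ^ 2 * (Nat.totient q' * (1 + Nat.log 2 q')) :=
          mul_le_mul_of_nonneg_left (hRq.le.trans h5) hG
      _ = (1 + Nat.log 2 q') * (Nat.totient q' * ‖Gs χ i‖ ^ 2) := by ring
      _ ≤ (1 + Nat.log 2 q) * (1 + Nat.log 2 q) := by
          refine mul_le_mul (by linarith) (hsum.trans h4) ?_ (by linarith)
          positivity
      _ = (1 + Nat.log 2 q) ^ 2 := by ring
  · have hz : Gs χ i = 0 := by
      rw [DirichletCharacter.factorsThrough_iff_ker_unitsMap hd] at hf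
      obtain ⟨x, hx, hx2⟩ := SetLike.not_le_iff_exists.1 hf
      rw [MonoidHom.mem_ker] at hx hx2
      have e1 : χ (x : ZMod q) ≠ 1 := by
        intro h
        apply hx2
        apply Units.ext
        rw [MulChar.coe_toUnitHom, h, Units.val_one]
      have e2 : (q' : ℤ) ∣ (((x : ZMod q).val : ℕ) : ℤ) - 1 := by
        rw [← ZMod.intCast_zmod_eq_zero_iff_dvd, Int.cast_sub, hum x, hx, Units.val_one,
          Int.cast_one, sub_self]
      have e3 := (hkey _).2 e2
      have e4 : Gs χ ((((x : ZMod q).val : ℕ) : ℤ) * i) = Gs χ i := by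
        apply hcong
        have : (((x : ZMod q).val : ℕ) : ℤ) * i - i = ((((x : ZMod q).val : ℕ) : ℤ) - 1) * i := by
          ring
        rw [this]
        exact e3
      rw [hmul _ i (hu x).2, (hu x).1] at e4
      have e5 : (χ (x : ZMod q) - 1) * Gs χ i = 0 := by rw [sub_mul, e4]; ring
      rcases mul_eq_zero.1 e5 with h | h
      · exact absurd (sub_eq_zero.1 h) e1
      · exact h
    rw [hz, norm_zero]
    have : (0 : ℝ) ≤ (1 + Nat.log 2 q) ^ 2 / R := by positivity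
    simpa using this

end Pool.Agent.Helper49.PC
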