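import Pool.Agent.Helper49.PC.StC

/-!
# Project PC, module HOL: Hoelder inequality
-/

set_option autoImplicit false

namespace Pool.Agent.Helper49.PC

open Finset

theorem hHOL : StHOL := by
  intro ι s S A B V hV hS hA hB
  have h1 : ∑ i ∈ s, S i * A i * B i = ∑ i ∈ s, A i * (S i * B i) :=
    sum_congr rfl fun i _ => by ring
  have h2 := Real.sum_mul_le_sqrt_mul_sqrt s A (fun i => S i * B i)
  have h3 := Real.sum_mul_le_sqrt_mul_sqrt s (fun i => S i ^ 2) (fun i => B i ^ 2)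
  have h4 : ∑ i ∈ s, (S i * B i) ^ 2 = ∑ i ∈ s, S i ^ 2 * B i ^ 2 :=
    sum_congr rfl fun i _ => by ring
  have h5 : ∑ i ∈ s, (S i ^ 2) ^ 2 ≤ V ^ 2 * ∑ i ∈ s, S i ^ 2 := by
    rw [mul_sum]
    refine sum_le_sum fun i hi => ?_
    have h6 := hS i hi
    have h7 : S i ^ 2 ≤ V ^ 2 := pow_le_pow_left₀ h6.1 h6.2 2
    calc (S i ^ 2) ^ 2 = S i ^ 2 * S i ^ 2 := by ring
      _ ≤ V ^ 2 * S i ^ 2 := mul_le_mul_of_nonneg_right h7 (sq_nonneg _)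
  have h6 : ∑ i ∈ s, (B i ^ 2) ^ 2 = ∑ i ∈ s, B i ^ 4 :=
    sum_congr rfl fun i _ => by ring
  rw [h6] at h3
  have h7 : ∑ i ∈ s, (S i * B i) ^ 2 ≤ √(V ^ 2 * ∑ i ∈ s, S i ^ 2) * √(∑ i ∈ s, B i ^ 4) := by
    rw [h4]
    exact h3.trans (mul_le_mul_of_nonneg_right (Real.sqrt_le_sqrt h5) (Real.sqrt_nonneg _))
  rw [h1]
  refine h2.trans ?_
  rw [mul_assoc]
  refine mul_le_mul_of_nonneg_left ?_ (Real.sqrt_nonneg _)
  rw [← Real.sqrt_mul (Real.sqrt_nonneg _)]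
  exact Real.sqrt_le_sqrt h7

end Pool.Agent.Helper49.PC
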