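import Pool.Agent.Helper49.PC.StE

/-!
# Project PC: module INTE (from natural to integer coefficients)
-/

set_option autoImplicit false

namespace Pool.Agent.Helper49.PC

open Finset ArithmeticFunction
open Pool.Agent.Helper48.BK (ex th lz Vz Pz gs nd Apx AdN Sol thd)
open scoped ComplexConjugate

private theorem gcd3_INTE (a b c : ℤ) : gcd a (gcd b c) = 1 ↔
    Nat.gcd a.natAbs (Nat.gcd b.natAbs c.natAbs) = 1 := by
  rw [← Int.coe_gcd b c, ← Int.coe_gcd a]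
  constructor
  · intro h
    have h' : Int.gcd a (Int.gcd b c : ℤ) = 1 := by exact_mod_cast h
    simpa [Int.gcd] using h'
  · intro h
    have h' : Int.gcd a (Int.gcd b c : ℤ) = 1 := by simpa [Int.gcd] using h
    exact_mod_cast h'

/-- the bound -/
private noncomputable def Bd_INTE (C : ℕ) (a b c d : ℤ) : ℝ :=
  8 / 3 * |(d : ℝ)| / (min |a| (min |b| |c|) : ℤ) +
    (|((a * b * c : ℤ) : ℝ)| / (min |a| (min |b| |c|) : ℤ)) ^ 2 *
      Real.log (max 3 (max |a| (max |b| |c|)) : ℤ) ^ C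

/-- solvability -/
private def So_INTE (C : ℕ) (a b c d : ℤ) : Prop :=
  ∃ p q r : ℕ, p.Prime ∧ q.Prime ∧ r.Prime ∧ a * p + b * q + c * r = d ∧
    ((max p (max q r) : ℕ) : ℝ) ≤ Bd_INTE C a b c d

/-- hypotheses -/
private def Hy_INTE (K x₀ : ℕ) (a b c d : ℤ) : Prop :=
  (Even (a + b + c - d) ∧ Nat.gcd a.natAbs (Nat.gcd b.natAbs c.natAbs) = 1 ∧
    Nat.gcd d.natAbs (Nat.gcd a.natAbs b.natAbs) = 1 ∧
    Nat.gcd d.natAbs (Nat.gcd a.natAbs c.natAbs) = 1 ∧
    Nat.gcd d.natAbs (Nat.gcd b.natAbs c.natAbs) = 1) ∧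
  (x₀ : ℤ) ≤ max |d| (max |a| (max |b| |c|)) ∧
  ((Int.gcd a b * Int.gcd a c * Int.gcd b c : ℕ) : ℝ) ≤
    Real.log (max |d| (max |a| (max |b| |c|)) : ℤ) ^ K ∧
  (Int.gcd d (a * b * c) : ℝ) ≤ Real.log (max |d| (max |a| (max |b| |c|)) : ℤ) ^ K

private theorem Hy12_INTE {K x₀ : ℕ} {a b c d : ℤ} (h : Hy_INTE K x₀ a b c d) :
    Hy_INTE K x₀ a c b d := by
  obtain ⟨⟨h1, h2, h3, h4, h5⟩, h6, h7, h8⟩ := h
  unfold Hy_INTE
  rw [max_comm |c| |b|, show a * c * b = a * b * c by ring, Nat.gcd_comm c.natAbs b.natAbs,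
    show a + c + b - d = a + b + c - d by ring, Int.gcd_comm c b,
    mul_comm (Int.gcd a c) (Int.gcd a b)]
  exact ⟨⟨h1, h2, h4, h3, h5⟩, h6, h7, h8⟩

private theorem Hy31_INTE {K x₀ : ℕ} {a b c d : ℤ} (h : Hy_INTE K x₀ a b c d) :
    Hy_INTE K x₀ b c a d := by
  obtain ⟨⟨h1, h2, h3, h4, h5⟩, h6, h7, h8⟩ := h
  have e1 : max |b| (max |c| |a|) = max |a| (max |b| |c|) := by
    rw [← max_assoc, max_comm]
  have e2 : Nat.gcd b.natAbs (Nat.gcd c.natAbs a.natAbs) =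
      Nat.gcd a.natAbs (Nat.gcd b.natAbs c.natAbs) := by
    rw [← Nat.gcd_assoc, Nat.gcd_comm]
  have e3 : Int.gcd b c * Int.gcd b a * Int.gcd c a = Int.gcd a b * Int.gcd a c * Int.gcd b c := by
    rw [Int.gcd_comm b a, Int.gcd_comm c a]; ring
  unfold Hy_INTE
  rw [e1, e2, e3, show b * c * a = a * b * c by ring, Nat.gcd_comm b.natAbs a.natAbs,
    Nat.gcd_comm c.natAbs a.natAbs, show b + c + a - d = a + b + c - d by ring]
  exact ⟨⟨h1, h2, h5, h3, h4⟩, h6, h7, h8⟩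

private theorem So12_INTE {C : ℕ} {a b c d : ℤ} (h : So_INTE C a c b d) : So_INTE C a b c d := by
  obtain ⟨p, q, r, hp, hq, hr, he, hm⟩ := h
  refine ⟨p, r, q, hp, hr, hq, by linarith, ?_⟩
  rw [max_comm r q]
  refine hm.trans (le_of_eq ?_)
  unfold Bd_INTE
  rw [max_comm |c| |b|, min_comm |c| |b|, show a * c * b = a * b * c by ring]

private theorem So31_INTE {C : ℕ} {a b c d : ℤ} (h : So_INTE C b c a d) : So_INTE C a b c d := by
  obtain ⟨p, q, r, hp, hq, hr, he, hm⟩ := h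
  refine ⟨r, p, q, hr, hp, hq, by linarith, ?_⟩
  have e1 : max r (max p q) = max p (max q r) := by
    rw [← max_assoc p q r, max_comm r]
  have e2 : max |b| (max |c| |a|) = max |a| (max |b| |c|) := by
    rw [← max_assoc, max_comm]
  have e3 : min |b| (min |c| |a|) = min |a| (min |b| |c|) := by
    rw [← min_assoc, min_comm]
  rw [e1]
  refine hm.trans (le_of_eq ?_)
  unfold Bd_INTE
  rw [e2, e3, show b * c * a = a * b * c by ring]

/-- the instance of NATE -/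
private def Na_INTE (K C x₀ : ℕ) : Prop := ∀ (a b c : ℕ) (d : ℤ), 1 ≤ a → 1 ≤ b → 1 ≤ c →
  AdN a b c d → x₀ ≤ max d.natAbs (max a (max b c)) →
  (EE a b c : ℝ) ≤ Real.log (max d.natAbs (max a (max b c)) : ℕ) ^ K →
  (Int.gcd d (a * b * c : ℕ) : ℝ) ≤ Real.log (max d.natAbs (max a (max b c)) : ℕ) ^ K →
  ∃ p q r : ℕ, p.Prime ∧ q.Prime ∧ r.Prime ∧ (a : ℤ) * p + b * q = c * r + d ∧
    ((max p (max q r) : ℕ) : ℝ) ≤ 8 / 3 * |(d : ℝ)| / (min a (min b c) : ℕ) +
      (((a * b * c : ℕ) : ℝ) / (min a (min b c) : ℕ)) ^ 2 *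
        Real.log (max 3 (max a (max b c)) : ℕ) ^ C

private theorem core_INTE {K C x₀ : ℕ} (hN : Na_INTE K C x₀) (a b c d e : ℤ)
    (he : e = 1 ∨ e = -1) (ha : 0 < e * a) (hb : 0 < e * b) (hc : e * c < 0)
    (h : Hy_INTE K x₀ a b c d) : So_INTE C a b c d := by
  obtain ⟨⟨h1, h2, h3, h4, h5⟩, h6, h7, h8⟩ := h
  have ea : a = e * (a.natAbs : ℤ) := by rcases he with rfl | rfl <;> omega
  have eb : b = e * (b.natAbs : ℤ) := by rcases he with rfl | rfl <;> omega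
  have ec : c = -(e * (c.natAbs : ℤ)) := by rcases he with rfl | rfl <;> omega
  have ed : (e * d).natAbs = d.natAbs := by rcases he with rfl | rfl <;> simp
  have pa : 1 ≤ a.natAbs := by rcases he with rfl | rfl <;> omega
  have pb : 1 ≤ b.natAbs := by rcases he with rfl | rfl <;> omega
  have pc : 1 ≤ c.natAbs := by rcases he with rfl | rfl <;> omega
  have k1 : max |d| (max |a| (max |b| |c|)) =
      ((max (e * d).natAbs (max a.natAbs (max b.natAbs c.natAbs)) : ℕ) : ℤ) := by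
    rw [ed]
    push_cast
    simp only [Int.abs_eq_natAbs]
  have k2 : (min |a| (min |b| |c|) : ℤ) =
      ((min a.natAbs (min b.natAbs c.natAbs) : ℕ) : ℤ) := by
    push_cast
    simp only [Int.abs_eq_natAbs]
  have k3 : (max 3 (max |a| (max |b| |c|)) : ℤ) =
      ((max 3 (max a.natAbs (max b.natAbs c.natAbs)) : ℕ) : ℤ) := by
    push_cast
    simp only [Int.abs_eq_natAbs]
  have k4 : |((a * b * c : ℤ) : ℝ)| = ((a.natAbs * b.natAbs * c.natAbs : ℕ) : ℝ) := by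
    rw [← Int.natAbs_mul, ← Int.natAbs_mul, Nat.cast_natAbs, Int.cast_abs]
  have k5 : |((e * d : ℤ) : ℝ)| = |(d : ℝ)| := by
    rw [← Int.cast_abs, ← Int.cast_abs, Int.abs_eq_natAbs, Int.abs_eq_natAbs, ed]
  obtain ⟨p, q, r, hp, hq, hr, heq, hm⟩ := hN a.natAbs b.natAbs c.natAbs (e * d) pa pb pc
    ⟨by
      rcases he with rfl | rfl
      · rw [Int.even_iff] at h1 ⊢
        omega
      · rw [Int.even_iff] at h1 ⊢
        omega, h2, by rwa [ed], by rwa [ed], by rwa [ed]⟩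
    (by rw [k1] at h6; exact_mod_cast h6)
    (by
      rw [k1] at h7
      rw [Int.cast_natCast] at h7
      exact h7)
    (by
      rw [k1] at h8
      rw [Int.cast_natCast] at h8
      have e1 : Int.gcd (e * d) ((a.natAbs * b.natAbs * c.natAbs : ℕ) : ℤ) =
          Int.gcd d (a * b * c) := by
        unfold Int.gcd
        rw [ed, Int.natAbs_natCast, Int.natAbs_mul, Int.natAbs_mul]
      rw [e1]
      exact h8)
  refine ⟨p, q, r, hp, hq, hr, ?_, ?_⟩
  · rcases he with rfl | rfl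
    · rw [ea, eb, ec]
      linarith
    · rw [ea, eb, ec]
      linarith
  · unfold Bd_INTE
    rw [k2, k3, k4, Int.cast_natCast, Int.cast_natCast, ← k5]
    exact hm

/-- INTE. -/
theorem hINTE (h1 : StNATE) : StINTE := by
  intro K
  obtain ⟨C, x₀, hN⟩ := h1 K
  have hN' : Na_INTE K C x₀ := hN
  refine ⟨C, x₀, fun a b c d had h6 h7 h8 => ?_⟩
  obtain ⟨ha, hb, hc, hp, hn, hev, hg1, hg2, hg3, hg4⟩ := had
  rw [gcd3_INTE] at hg1 hg2 hg3 hg4
  have hy : Hy_INTE K x₀ a b c d := ⟨⟨hev, hg1, hg2, hg3, hg4⟩, h6, h7, h8⟩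
  have key : ∀ e : ℤ, (e = 1 ∨ e = -1) →
      ((0 < e * a ∧ 0 < e * b ∧ e * c < 0) ∨ (0 < e * a ∧ 0 < e * c ∧ e * b < 0) ∨
        (0 < e * b ∧ 0 < e * c ∧ e * a < 0)) → So_INTE C a b c d := by
    intro e he hpat
    rcases hpat with ⟨g1, g2, g3⟩ | ⟨g1, g2, g3⟩ | ⟨g1, g2, g3⟩
    · exact core_INTE hN' a b c d e he g1 g2 g3 hy
    · exact So12_INTE (core_INTE hN' a c b d e he g1 g2 g3 (Hy12_INTE hy))
    · exact So31_INTE (core_INTE hN' b c a d e he g1 g2 g3 (Hy31_INTE hy))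
  have main : So_INTE C a b c d := by
    rcases lt_or_gt_of_ne ha with ha' | ha' <;> rcases lt_or_gt_of_ne hb with hb' | hb' <;>
      rcases lt_or_gt_of_ne hc with hc' | hc'
    · exact absurd ⟨ha', hb', hc'⟩ hn
    · exact key (-1) (Or.inr rfl) (Or.inl ⟨by linarith, by linarith, by linarith⟩)
    · exact key (-1) (Or.inr rfl) (Or.inr (Or.inl ⟨by linarith, by linarith, by linarith⟩))
    · exact key 1 (Or.inl rfl) (Or.inr (Or.inr ⟨by linarith, by linarith, by linarith⟩))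
    · exact key (-1) (Or.inr rfl) (Or.inr (Or.inr ⟨by linarith, by linarith, by linarith⟩))
    · exact key 1 (Or.inl rfl) (Or.inr (Or.inl ⟨by linarith, by linarith, by linarith⟩))
    · exact key 1 (Or.inl rfl) (Or.inl ⟨by linarith, by linarith, by linarith⟩)
    · exact absurd ⟨ha', hb', hc'⟩ hp
  exact main

end Pool.Agent.Helper49.PC
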