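import Pool.Agent.Helper49.PC.StC

/-!
# Project PC, module LEF: the terms near the ends of the interval
-/

set_option autoImplicit false

namespace Pool.Agent.Helper49.PC

open Finset ArithmeticFunction

/-- a residue class has at most `(b - a) / q + 1` elements in `(a, b]` -/
private theorem card_LEF (q x a b : ℕ) (hq : 0 < q) (hab : a ≤ b) :
    (((Ioc a b).filter (fun n => n ≡ x [MOD q])).card : ℝ) ≤ ((b : ℝ) - a) / q + 1 := by
  have h := Nat.Ioc_filter_modEq_card (r := q) a b hq x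
  have hq' : (0 : ℝ) < q := by exact_mod_cast hq
  have h2 : ((((Ioc a b).filter (fun n => n ≡ x [MOD q])).card : ℤ) : ℝ) ≤
      ((b : ℝ) - a) / q + 1 := by
    rw [h]
    push_cast
    apply max_le
    · have e1 : ((⌊((b : ℚ) - x) / q⌋ : ℤ) : ℝ) ≤ ((b : ℝ) - x) / q := by
        have := Int.floor_le (((b : ℚ) - x) / q)
        have h3 : (((⌊((b : ℚ) - x) / q⌋ : ℤ) : ℚ) : ℝ) ≤ (((((b : ℚ) - x) / q : ℚ)) : ℝ) := by
          exact_mod_cast this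
        push_cast at h3
        exact h3
      have e2 : ((a : ℝ) - x) / q - 1 < ((⌊((a : ℚ) - x) / q⌋ : ℤ) : ℝ) := by
        have := Int.sub_one_lt_floor (((a : ℚ) - x) / q)
        have h3 : (((((a : ℚ) - x) / q - 1 : ℚ)) : ℝ) < (((⌊((a : ℚ) - x) / q⌋ : ℤ) : ℚ) : ℝ) := by
          exact_mod_cast this
        push_cast at h3
        exact h3
      have e3 : ((b : ℝ) - a) / q = ((b : ℝ) - x) / q - ((a : ℝ) - x) / q := by ring
      linarith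
    · have : (0 : ℝ) ≤ ((b : ℝ) - a) / q :=
        div_nonneg (by have : (a : ℝ) ≤ b := by exact_mod_cast hab
                       linarith) hq'.le
      linarith
  exact_mod_cast h2

private theorem cs_LEF (s : Finset ℕ) (ρ : ℕ → ℂ) (K : ℝ)
    (hK : ((s.filter (fun n => ρ n ≠ 0)).card : ℝ) ≤ K) :
    ‖∑ n ∈ s, ρ n‖ ^ 2 ≤ K * ∑ n ∈ s, ‖ρ n‖ ^ 2 := by
  have h0 : ∑ n ∈ s, ρ n = ∑ n ∈ s.filter (fun n => ρ n ≠ 0), ρ n :=
    (Finset.sum_filter_ne_zero s).symm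
  rw [h0]
  have h1 : ‖∑ n ∈ s.filter (fun n => ρ n ≠ 0), ρ n‖ ≤
      ∑ n ∈ s.filter (fun n => ρ n ≠ 0), ‖ρ n‖ := norm_sum_le _ _
  have h2 := sq_sum_le_card_mul_sum_sq (s := s.filter (fun n => ρ n ≠ 0)) (f := fun n => ‖ρ n‖)
  have h3 : ∑ n ∈ s.filter (fun n => ρ n ≠ 0), ‖ρ n‖ ^ 2 ≤ ∑ n ∈ s, ‖ρ n‖ ^ 2 :=
    Finset.sum_le_sum_of_subset_of_nonneg (Finset.filter_subset _ _) fun _ _ _ => sq_nonneg _
  have h4 : ‖∑ n ∈ s.filter (fun n => ρ n ≠ 0), ρ n‖ ^ 2 ≤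
      (∑ n ∈ s.filter (fun n => ρ n ≠ 0), ‖ρ n‖) ^ 2 := pow_le_pow_left₀ (norm_nonneg _) h1 2
  have h5 : (0 : ℝ) ≤ ∑ n ∈ s.filter (fun n => ρ n ≠ 0), ‖ρ n‖ ^ 2 :=
    Finset.sum_nonneg fun _ _ => sq_nonneg _
  have h6 : (0 : ℝ) ≤ ((s.filter (fun n => ρ n ≠ 0)).card : ℝ) := Nat.cast_nonneg _
  calc _ ≤ (((s.filter (fun n => ρ n ≠ 0)).card : ℝ)) *
        ∑ n ∈ s.filter (fun n => ρ n ≠ 0), ‖ρ n‖ ^ 2 := h4.trans h2
    _ ≤ K * ∑ n ∈ s.filter (fun n => ρ n ≠ 0), ‖ρ n‖ ^ 2 := mul_le_mul_of_nonneg_right hK h5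
    _ ≤ K * ∑ n ∈ s, ‖ρ n‖ ^ 2 := mul_le_mul_of_nonneg_left h3 (h6.trans hK)

theorem hLEF (h1 : StOC) (h2 : StDVK) : StLEF := by
  intro q _ X w₀ w₁ ρ T δ hT hδ hw0 hw1 hρ hsupp
  have hq : 0 < q := Nat.pos_of_ne_zero (NeZero.ne q)
  have hq' : (0 : ℝ) < q := by exact_mod_cast hq
  have hq1 : (1 : ℝ) ≤ q := by exact_mod_cast hq
  rw [h1 q (Ioc 0 X) ρ]
  -- number of terms in a class
  have hcard : ∀ x : ℕ, ((((Ioc 0 X).filter (fun n => n ≡ x [MOD q])).filter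
      (fun n => ρ n ≠ 0)).card : ℝ) ≤ 2 * (δ * X + q + q) / q := by
    intro x
    have hsub : (((Ioc 0 X).filter (fun n => n ≡ x [MOD q])).filter (fun n => ρ n ≠ 0)) ⊆
        ((Ioc w₀ ⌊(1 + δ) * (w₀ : ℝ)⌋₊).filter (fun n => n ≡ x [MOD q])) ∪
        ((Ioc ⌊(w₁ : ℝ) / (1 + δ)⌋₊ w₁).filter (fun n => n ≡ x [MOD q])) := by
      intro n hn
      rw [Finset.mem_filter, Finset.mem_filter] at hn
      obtain ⟨⟨hn1, hn2⟩, hn3⟩ := hn
      rw [Finset.mem_union, Finset.mem_filter, Finset.mem_filter, Finset.mem_Ioc, Finset.mem_Ioc]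
      rcases hsupp n hn3 with ⟨ha, hb⟩ | ⟨ha, hb⟩
      · left
        exact ⟨⟨by exact_mod_cast ha, Nat.le_floor hb⟩, hn2⟩
      · right
        refine ⟨⟨?_, hb⟩, hn2⟩
        rw [Nat.floor_lt (by positivity), div_lt_iff₀ (by linarith)]
        linarith
    have hc1 : w₀ ≤ ⌊(1 + δ) * (w₀ : ℝ)⌋₊ := by
      apply Nat.le_floor
      have : (0 : ℝ) ≤ w₀ := Nat.cast_nonneg _
      nlinarith
    have hc2 : ⌊(w₁ : ℝ) / (1 + δ)⌋₊ ≤ w₁ := by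
      have : (w₁ : ℝ) / (1 + δ) ≤ w₁ := by
        rw [div_le_iff₀ (by linarith)]
        have : (0 : ℝ) ≤ w₁ := Nat.cast_nonneg _
        nlinarith
      exact (Nat.floor_le_floor this).trans (by rw [Nat.floor_natCast])
    have hl1 := card_LEF q x w₀ _ hq hc1
    have hl2 := card_LEF q x _ w₁ hq hc2
    have hX0 : (w₀ : ℝ) ≤ X := by exact_mod_cast hw0
    have hX1 : (w₁ : ℝ) ≤ X := by exact_mod_cast hw1
    have hd1 : ((⌊(1 + δ) * (w₀ : ℝ)⌋₊ : ℕ) : ℝ) - w₀ ≤ δ * X := by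
      have := Nat.floor_le (show (0 : ℝ) ≤ (1 + δ) * (w₀ : ℝ) by positivity)
      nlinarith
    have hd2 : (w₁ : ℝ) - (⌊(w₁ : ℝ) / (1 + δ)⌋₊ : ℕ) ≤ δ * X + q := by
      have h3 := Nat.lt_floor_add_one ((w₁ : ℝ) / (1 + δ))
      have h4 : (w₁ : ℝ) - (w₁ : ℝ) / (1 + δ) ≤ δ * X := by
        have h5 : (w₁ : ℝ) - (w₁ : ℝ) / (1 + δ) = δ * ((w₁ : ℝ) / (1 + δ)) := by
          field_simp
          ring
        rw [h5]
        refine mul_le_mul_of_nonneg_left ?_ hδ.le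
        refine le_trans ?_ hX1
        rw [div_le_iff₀ (by linarith)]
        have : (0 : ℝ) ≤ w₁ := Nat.cast_nonneg _
        nlinarith
      linarith
    have hcu := (Finset.card_le_card hsub).trans (Finset.card_union_le _ _)
    have hcu' : ((((Ioc 0 X).filter (fun n => n ≡ x [MOD q])).filter
      (fun n => ρ n ≠ 0)).card : ℝ) ≤
      (((Ioc w₀ ⌊(1 + δ) * (w₀ : ℝ)⌋₊).filter (fun n => n ≡ x [MOD q])).card : ℝ) +
      (((Ioc ⌊(w₁ : ℝ) / (1 + δ)⌋₊ w₁).filter (fun n => n ≡ x [MOD q])).card : ℝ) := by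
      exact_mod_cast hcu
    have he1 : (((⌊(1 + δ) * (w₀ : ℝ)⌋₊ : ℕ) : ℝ) - w₀) / q ≤ δ * X / q :=
      div_le_div_of_nonneg_right hd1 hq'.le
    have he2 : ((w₁ : ℝ) - (⌊(w₁ : ℝ) / (1 + δ)⌋₊ : ℕ)) / q ≤ (δ * X + q) / q :=
      div_le_div_of_nonneg_right hd2 hq'.le
    have he3 : 2 * (δ * X + q + q) / q = δ * X / q + 1 + ((δ * X + q) / q + 1) + 1 := by
      field_simp
      ring
    rw [he3]
    linarith
  -- sum over the classes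
  have hS : ∑ x ∈ (range q).filter (fun x => Nat.Coprime x q),
      ‖∑ n ∈ (Ioc 0 X).filter (fun n => n ≡ x [MOD q]), ρ n‖ ^ 2 ≤
      2 * (δ * X + q + q) / q * ∑ n ∈ Ioc 0 X, ‖ρ n‖ ^ 2 := by
    have h3 : ∑ x ∈ (range q).filter (fun x => Nat.Coprime x q),
        ‖∑ n ∈ (Ioc 0 X).filter (fun n => n ≡ x [MOD q]), ρ n‖ ^ 2 ≤
        ∑ x ∈ range q, 2 * (δ * X + q + q) / q *
          ∑ n ∈ (Ioc 0 X).filter (fun n => n ≡ x [MOD q]), ‖ρ n‖ ^ 2 := by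
      refine (Finset.sum_le_sum_of_subset_of_nonneg (Finset.filter_subset _ _)
        fun _ _ _ => sq_nonneg _).trans ?_
      exact Finset.sum_le_sum fun x _ => cs_LEF _ ρ _ (hcard x)
    refine h3.trans (le_of_eq ?_)
    rw [← Finset.mul_sum]
    congr 1
    have h4 : ∀ x ∈ range q, ∑ n ∈ (Ioc 0 X).filter (fun n => n ≡ x [MOD q]), ‖ρ n‖ ^ 2 =
        ∑ n ∈ (Ioc 0 X).filter (fun n => n % q = x), ‖ρ n‖ ^ 2 := by
      intro x hx
      refine Finset.sum_congr (Finset.filter_congr fun n _ => ?_) fun _ _ => rfl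
      rw [Nat.ModEq, Nat.mod_eq_of_lt (Finset.mem_range.1 hx)]
    rw [Finset.sum_congr rfl h4]
    exact Finset.sum_fiberwise_of_maps_to (fun n _ => Finset.mem_range.2 (Nat.mod_lt n hq)) _
  have hρ2 : ∑ n ∈ Ioc 0 X, ‖ρ n‖ ^ 2 ≤ T ^ 4 * (X * (1 + Real.log X) ^ 63) := by
    have h5 := h2 6 X
    norm_num at h5
    refine le_trans ?_ (mul_le_mul_of_nonneg_left h5 (by positivity))
    rw [Finset.mul_sum]
    refine Finset.sum_le_sum fun n _ => ?_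
    have := pow_le_pow_left₀ (norm_nonneg _) (hρ n) 2
    refine this.trans (le_of_eq (by ring))
  have hφ : (Nat.totient q : ℝ) ≤ q := by exact_mod_cast Nat.totient_le q
  have hnn : (0 : ℝ) ≤ 2 * (δ * X + q + q) / q * ∑ n ∈ Ioc 0 X, ‖ρ n‖ ^ 2 :=
    mul_nonneg (by positivity) (Finset.sum_nonneg fun _ _ => sq_nonneg _)
  calc (Nat.totient q : ℝ) * ∑ x ∈ (range q).filter (fun x => Nat.Coprime x q),
        ‖∑ n ∈ (Ioc 0 X).filter (fun n => n ≡ x [MOD q]), ρ n‖ ^ 2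
      ≤ (Nat.totient q : ℝ) * (2 * (δ * X + q + q) / q * ∑ n ∈ Ioc 0 X, ‖ρ n‖ ^ 2) :=
        mul_le_mul_of_nonneg_left hS (Nat.cast_nonneg _)
    _ ≤ q * (2 * (δ * X + q + q) / q * ∑ n ∈ Ioc 0 X, ‖ρ n‖ ^ 2) :=
        mul_le_mul_of_nonneg_right hφ hnn
    _ = 2 * (δ * X + q + q) * ∑ n ∈ Ioc 0 X, ‖ρ n‖ ^ 2 := by
        field_simp
    _ ≤ 2 * (δ * X + q + q) * (T ^ 4 * (X * (1 + Real.log X) ^ 63)) :=
        mul_le_mul_of_nonneg_left hρ2 (by positivity)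
    _ = _ := by ring

end Pool.Agent.Helper49.PC
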