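import Pool.Agent.Helper49.PC.Defs

/-!
# Project PC: the `l²` norm over a finite set (proved)
-/

set_option autoImplicit false

namespace Pool.Agent.Helper49.PC

open Finset

variable {ι κ : Type*}

theorem l2_nonneg (s : Finset ι) (u : ι → ℂ) : 0 ≤ l2 s u := Real.sqrt_nonneg _

theorem l2_sq (s : Finset ι) (u : ι → ℂ) : l2 s u ^ 2 = ∑ i ∈ s, ‖u i‖ ^ 2 :=
  Real.sq_sqrt (Finset.sum_nonneg fun _ _ => sq_nonneg _)

theorem l2_le_iff (s : Finset ι) (u : ι → ℂ) (R : ℝ) (hR : 0 ≤ R) :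
    l2 s u ≤ R ↔ ∑ i ∈ s, ‖u i‖ ^ 2 ≤ R ^ 2 := Real.sqrt_le_left hR

theorem l2_mono (s : Finset ι) (u v : ι → ℂ) (h : ∀ i ∈ s, ‖u i‖ ≤ ‖v i‖) : l2 s u ≤ l2 s v := by
  apply Real.sqrt_le_sqrt
  exact Finset.sum_le_sum fun i hi => pow_le_pow_left₀ (norm_nonneg _) (h i hi) 2

theorem l2_congr (s : Finset ι) (u v : ι → ℂ) (h : ∀ i ∈ s, u i = v i) : l2 s u = l2 s v := by
  unfold l2
  rw [Finset.sum_congr rfl fun i hi => by rw [h i hi]]

theorem l2_subset (s t : Finset ι) (u : ι → ℂ) (h : s ⊆ t) : l2 s u ≤ l2 t u :=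
  Real.sqrt_le_sqrt (Finset.sum_le_sum_of_subset_of_nonneg h fun _ _ _ => sq_nonneg _)

theorem l2_zero (s : Finset ι) : l2 s (fun _ => 0) = 0 := by simp [l2]

theorem l2_neg (s : Finset ι) (u : ι → ℂ) : l2 s (fun i => -u i) = l2 s u := by simp [l2]

theorem l2_smul (s : Finset ι) (c : ℂ) (u : ι → ℂ) : l2 s (fun i => c * u i) = ‖c‖ * l2 s u := by
  unfold l2
  have h : ∑ i ∈ s, ‖c * u i‖ ^ 2 = ‖c‖ ^ 2 * ∑ i ∈ s, ‖u i‖ ^ 2 := by
    rw [Finset.mul_sum]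
    exact Finset.sum_congr rfl fun i _ => by rw [norm_mul, mul_pow]
  rw [h, Real.sqrt_mul (sq_nonneg _), Real.sqrt_sq (norm_nonneg _)]

/-- Cauchy-Schwarz inequality -/
theorem cs_l2 (s : Finset ι) (u v : ι → ℂ) : ∑ i ∈ s, ‖u i‖ * ‖v i‖ ≤ l2 s u * l2 s v := by
  have h := Finset.sum_mul_sq_le_sq_mul_sq s (fun i => ‖u i‖) (fun i => ‖v i‖)
  rw [← l2_sq, ← l2_sq, ← mul_pow] at h
  exact le_of_sq_le_sq h (mul_nonneg (l2_nonneg _ _) (l2_nonneg _ _))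
where
  le_of_sq_le_sq {a b : ℝ} (h : a ^ 2 ≤ b ^ 2) (hb : 0 ≤ b) : a ≤ b := by
    by_contra hc
    push Not at hc
    nlinarith

theorem norm_sum_le_l2 (s : Finset ι) (u v : ι → ℂ) : ‖∑ i ∈ s, u i * v i‖ ≤ l2 s u * l2 s v :=
  ((norm_sum_le _ _).trans (le_of_eq (Finset.sum_congr rfl fun _ _ => norm_mul _ _))).trans
    (cs_l2 s u v)

theorem l2_add_le (s : Finset ι) (u v : ι → ℂ) : l2 s (fun i => u i + v i) ≤ l2 s u + l2 s v := by
  rw [l2_le_iff _ _ _ (add_nonneg (l2_nonneg _ _) (l2_nonneg _ _))]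
  have h1 : ∑ i ∈ s, ‖u i + v i‖ ^ 2 ≤ ∑ i ∈ s, (‖u i‖ ^ 2 + 2 * (‖u i‖ * ‖v i‖) + ‖v i‖ ^ 2) := by
    refine Finset.sum_le_sum fun i _ => ?_
    have := pow_le_pow_left₀ (norm_nonneg _) (norm_add_le (u i) (v i)) 2
    nlinarith
  refine h1.trans ?_
  rw [Finset.sum_add_distrib, Finset.sum_add_distrib, ← Finset.mul_sum, ← l2_sq, ← l2_sq]
  have := cs_l2 s u v
  nlinarith

theorem l2_sub_le (s : Finset ι) (u v : ι → ℂ) : l2 s (fun i => u i - v i) ≤ l2 s u + l2 s v := by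
  have h := l2_add_le s u (fun i => -v i)
  rw [l2_neg] at h
  simpa [sub_eq_add_neg] using h

theorem l2_sum_le [DecidableEq κ] (s : Finset ι) (t : Finset κ) (u : κ → ι → ℂ) :
    l2 s (fun i => ∑ k ∈ t, u k i) ≤ ∑ k ∈ t, l2 s (u k) := by
  induction t using Finset.induction_on with
  | empty => simp [l2]
  | insert k t hk ih =>
    rw [Finset.sum_insert hk]
    have h : l2 s (fun i => ∑ k ∈ insert k t, u k i) = l2 s (fun i => u k i + ∑ k ∈ t, u k i) :=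
      l2_congr _ _ _ fun i _ => by rw [Finset.sum_insert hk]
    rw [h]
    exact (l2_add_le _ _ _).trans (add_le_add le_rfl ih)

theorem norm_ex (t : ℝ) : ‖Pool.Agent.Helper48.BK.ex t‖ = 1 := by
  unfold Pool.Agent.Helper48.BK.ex
  rw [Complex.norm_exp]
  simp

theorem ex_add (s t : ℝ) : Pool.Agent.Helper48.BK.ex (s + t) =
    Pool.Agent.Helper48.BK.ex s * Pool.Agent.Helper48.BK.ex t := by
  unfold Pool.Agent.Helper48.BK.ex
  rw [← Complex.exp_add]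
  congr 1
  push_cast
  ring

theorem ex_int (k : ℤ) : Pool.Agent.Helper48.BK.ex k = 1 := by
  unfold Pool.Agent.Helper48.BK.ex
  have h := Complex.exp_int_mul_two_pi_mul_I k
  rw [← h]
  congr 1
  push_cast
  ring

theorem conj_ex (t : ℝ) : (starRingEnd ℂ) (Pool.Agent.Helper48.BK.ex t) =
    Pool.Agent.Helper48.BK.ex (-t) := by
  unfold Pool.Agent.Helper48.BK.ex
  rw [← Complex.exp_conj]
  congr 1
  simp only [map_mul, Complex.conj_I, Complex.conj_ofReal, map_ofNat]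
  push_cast
  ring

end Pool.Agent.Helper49.PC
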