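import Pool.Agent.Helper49.PC.StC
import Pool.Agent.Helper49.PC.L2

/-! Project PC, module LMG: the good characters in mean square. -/

set_option autoImplicit false

namespace Pool.Agent.Helper49.PC

open Finset ArithmeticFunction
open Pool.Agent.Helper48.BK (ex th lz Vz Pz gs nd Apx AdN Sol thd)
open scoped ComplexConjugate

/-- twelfth root and the choice of `U`, `U₀` -/
private theorem choice_LMG (X q : ℕ) (t : ℝ) (ht : 128 ≤ t) (ht12 : t ^ 12 = X)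
    (hq : q ^ 2 ≤ X) : (q : ℝ) ≤ t ^ 6 ∧ ∃ U U₀ : ℕ, 1 ≤ U₀ ∧ 64 * U₀ ≤ U ∧ U ^ 3 ≤ X ∧
      q ≤ U₀ ^ 2 ∧ (U : ℝ) ≤ t ^ 4 := by
  have ht0 : 0 ≤ t := by linarith
  have hqt : (q : ℝ) ≤ t ^ 6 := by
    have h : (q : ℝ) ^ 2 ≤ (t ^ 6) ^ 2 := by
      rw [← pow_mul]
      rw [ht12]
      exact_mod_cast hq
    exact (pow_le_pow_iff_left₀ (by positivity) (by positivity) two_ne_zero).1 h
  refine ⟨hqt, ⌊t ^ 4⌋₊, ⌊t ^ 4⌋₊ / 64, ?_, Nat.mul_div_le _ _, ?_, ?_, Nat.floor_le (by positivity)⟩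
  all_goals
    have hU1 : (⌊t ^ 4⌋₊ : ℝ) ≤ t ^ 4 := Nat.floor_le (by positivity)
    have hU2 : t ^ 4 < (⌊t ^ 4⌋₊ : ℝ) + 1 := Nat.lt_floor_add_one _
    have h3 : (1 : ℝ) ≤ t ^ 3 := one_le_pow₀ (by linarith)
    have h43 : 128 * t ^ 3 ≤ t ^ 4 := by nlinarith
    have hU3 : t ^ 3 ≤ ((⌊t ^ 4⌋₊ / 64 : ℕ) : ℝ) := by
      have h5 : ⌊t ^ 4⌋₊ < 64 * (⌊t ^ 4⌋₊ / 64) + 64 := by omega
      have h6 : (⌊t ^ 4⌋₊ : ℝ) + 1 ≤ 64 * ((⌊t ^ 4⌋₊ / 64 : ℕ) : ℝ) + 64 := by exact_mod_cast h5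
      linarith
  · have h7 : (1 : ℝ) ≤ ((⌊t ^ 4⌋₊ / 64 : ℕ) : ℝ) := h3.trans hU3
    exact_mod_cast h7
  · have h8 : (⌊t ^ 4⌋₊ : ℝ) ^ 3 ≤ X := by
      rw [← ht12]
      calc (⌊t ^ 4⌋₊ : ℝ) ^ 3 ≤ (t ^ 4) ^ 3 := pow_le_pow_left₀ (by positivity) hU1 3
        _ = t ^ 12 := by ring
    exact_mod_cast h8
  · have h9 : (q : ℝ) ≤ ((⌊t ^ 4⌋₊ / 64 : ℕ) : ℝ) ^ 2 := by
      calc (q : ℝ) ≤ t ^ 6 := hqt
        _ = (t ^ 3) ^ 2 := by ring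
        _ ≤ _ := pow_le_pow_left₀ (by positivity) hU3 2
    exact_mod_cast h9

/-- the bilinear terms -/
private theorem num_LMG (A : ℕ) (C L X q : ℝ) (hC : 0 < C) (hL1 : (2 : ℝ) ^ 77 ≤ L)
    (hL2 : 6 * 2 ^ 22 * C ≤ L) (hX : 0 < X) (_hq0 : 0 ≤ q) (hq : q * L ^ (2 * A + 70) ≤ X) :
    C / (1 / L ^ (2 * A + 70)) * (2 * L) ^ 2 * X * (1 + L) ^ 19 *
        √(√((X / L ^ (2 * (3 * A + 92) + 1)) ^ 2 * (2 * X ^ 2 * L ^ 2))) +
      √(2 * X ^ 2 * L ^ 2) *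
        √(2 * (1 / L ^ (2 * A + 70) * X + q + q) * (2 * L) ^ 4 * X * (1 + L) ^ 63) ≤
      X ^ 2 / L ^ A / 3 := by
  have hL : (1 : ℝ) ≤ L := by
    refine le_trans ?_ hL1
    norm_num
  have hL0 : (0 : ℝ) < L := by linarith
  have h1L : 1 + L ≤ 2 * L := by linarith
  have e1 : √(√((X / L ^ (2 * (3 * A + 92) + 1)) ^ 2 * (2 * X ^ 2 * L ^ 2))) ≤
      2 * X / L ^ (3 * A + 92) := by
    refine Real.sqrt_le_iff.2 ⟨by positivity, Real.sqrt_le_iff.2 ⟨by positivity, ?_⟩⟩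
    have e2 : (X / L ^ (2 * (3 * A + 92) + 1)) ^ 2 * (2 * X ^ 2 * L ^ 2) =
        2 * (X / L ^ (3 * A + 92)) ^ 4 := by
      have e0 : L ^ (2 * (3 * A + 92) + 1) = (L ^ (3 * A + 92)) ^ 2 * L := by ring
      rw [e0]
      field_simp
    have e3 : ((2 * X / L ^ (3 * A + 92)) ^ 2) ^ 2 = 16 * (X / L ^ (3 * A + 92)) ^ 4 := by
      rw [mul_div_assoc]
      ring
    rw [e2, e3]
    have : 0 ≤ (X / L ^ (3 * A + 92)) ^ 4 := by positivity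
    linarith
  have e4 : C / (1 / L ^ (2 * A + 70)) * (2 * L) ^ 2 * X * (1 + L) ^ 19 *
        √(√((X / L ^ (2 * (3 * A + 92) + 1)) ^ 2 * (2 * X ^ 2 * L ^ 2))) ≤
      X ^ 2 / L ^ A / 6 := by
    calc C / (1 / L ^ (2 * A + 70)) * (2 * L) ^ 2 * X * (1 + L) ^ 19 *
        √(√((X / L ^ (2 * (3 * A + 92) + 1)) ^ 2 * (2 * X ^ 2 * L ^ 2)))
        ≤ C / (1 / L ^ (2 * A + 70)) * (2 * L) ^ 2 * X * (2 * L) ^ 19 *
          (2 * X / L ^ (3 * A + 92)) := by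
          gcongr
      _ = (C * 2 ^ 22 / L) * (X ^ 2 / L ^ A) := by
          have e5 : L ^ (3 * A + 92) = L ^ (2 * A + 70) * L ^ 21 * L ^ A * L := by ring
          rw [e5]
          field_simp
      _ ≤ (1 / 6) * (X ^ 2 / L ^ A) := by
          refine mul_le_mul_of_nonneg_right ?_ (by positivity)
          rw [div_le_iff₀ hL0]
          linarith
      _ = X ^ 2 / L ^ A / 6 := by ring
  have e6 : √(2 * X ^ 2 * L ^ 2) *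
        √(2 * (1 / L ^ (2 * A + 70) * X + q + q) * (2 * L) ^ 4 * X * (1 + L) ^ 63) ≤
      X ^ 2 / L ^ A / 6 := by
    rw [← Real.sqrt_mul (by positivity)]
    refine Real.sqrt_le_iff.2 ⟨by positivity, ?_⟩
    have e7 : q ≤ X / L ^ (2 * A + 70) := (le_div_iff₀ (by positivity)).2 hq
    calc 2 * X ^ 2 * L ^ 2 *
        (2 * (1 / L ^ (2 * A + 70) * X + q + q) * (2 * L) ^ 4 * X * (1 + L) ^ 63)
        ≤ 2 * X ^ 2 * L ^ 2 *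
        (2 * (1 / L ^ (2 * A + 70) * X + X / L ^ (2 * A + 70) + X / L ^ (2 * A + 70)) *
          (2 * L) ^ 4 * X * (2 * L) ^ 63) := by
          gcongr
      _ = (192 * 2 ^ 63 * 36 / L) * (X ^ 2 / L ^ A / 6) ^ 2 := by
          have e5 : L ^ (2 * A + 70) = L ^ 70 * (L ^ A) ^ 2 := by ring
          rw [e5]
          field_simp
          ring
      _ ≤ 1 * (X ^ 2 / L ^ A / 6) ^ 2 := by
          refine mul_le_mul_of_nonneg_right ?_ (by positivity)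
          rw [div_le_iff₀ hL0]
          refine le_trans ?_ (le_trans hL1 (le_of_eq (one_mul L).symm))
          norm_num
      _ = _ := one_mul _
  have e8 : X ^ 2 / L ^ A / 3 = X ^ 2 / L ^ A / 6 + X ^ 2 / L ^ A / 6 := by ring
  rw [e8]
  exact add_le_add e4 e6

theorem hLMG (h1 : StVAC) (h2 : StBDC) (h3 : StPS2) : StLMG := by
  intro A
  obtain ⟨C, hC, h2⟩ := h2
  have hev : ∀ᶠ X : ℕ in Filter.atTop, (2 : ℝ) ^ 77 ≤ Real.log X ∧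
      6 * 2 ^ 22 * C ≤ Real.log X ∧
      18 * Real.log X ^ (2 * A + 70) ≤ (X : ℝ) ^ (1 / 12 : ℝ) ∧ 3 ≤ X ∧
      (128 : ℝ) ≤ (X : ℝ) ^ (1 / 12 : ℝ) := by
    have hl : Filter.Tendsto (fun X : ℕ => Real.log X) Filter.atTop Filter.atTop :=
      Real.tendsto_log_atTop.comp tendsto_natCast_atTop_atTop
    have hr : Filter.Tendsto (fun X : ℕ => (X : ℝ) ^ (1 / 12 : ℝ)) Filter.atTop Filter.atTop :=
      (tendsto_rpow_atTop (by norm_num)).comp tendsto_natCast_atTop_atTop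
    have ho := (isLittleO_log_rpow_rpow_atTop ((2 * A + 70 : ℕ) : ℝ)
      (by norm_num : (0 : ℝ) < 1 / 12)).bound (by norm_num : (0 : ℝ) < 1 / 18)
    have ho2 := tendsto_natCast_atTop_atTop.eventually ho
    filter_upwards [hl.eventually_ge_atTop ((2 : ℝ) ^ 77), hl.eventually_ge_atTop (6 * 2 ^ 22 * C),
      ho2, Filter.eventually_ge_atTop 3, hr.eventually_ge_atTop 128] with X a1 a2 a3 a4 a5
    refine ⟨a1, a2, ?_, a4, a5⟩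
    rw [Real.rpow_natCast, Real.norm_eq_abs, Real.norm_eq_abs, abs_of_nonneg (by positivity)] at a3
    have hpos : (0 : ℝ) ≤ Real.log X := by
      refine le_trans ?_ a1
      positivity
    rw [abs_of_nonneg (by positivity)] at a3
    linarith
  obtain ⟨x₀, hx₀⟩ := Filter.eventually_atTop.1 hev
  refine ⟨2 * (3 * A + 92) + 1, x₀, ?_⟩
  intro q _ X w₀ w₁ 𝓖 hX hq hw0 hw01 hw1 hG
  obtain ⟨hL1, hL2, hL3, hX3, ht128⟩ := hx₀ X hX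
  obtain ⟨L, hLdef⟩ : ∃ L : ℝ, L = Real.log X := ⟨_, rfl⟩
  obtain ⟨t, htdef⟩ : ∃ t : ℝ, t = (X : ℝ) ^ (1 / 12 : ℝ) := ⟨_, rfl⟩
  rw [← hLdef] at hL1 hL2 hL3
  rw [← htdef] at hL3 ht128
  have hXpos : (0 : ℝ) < X := by
    have : (3 : ℝ) ≤ X := by exact_mod_cast hX3
    linarith
  have ht12 : t ^ 12 = X := by
    rw [htdef, ← Real.rpow_natCast, ← Real.rpow_mul hXpos.le]
    norm_num
  have hL : (1 : ℝ) ≤ L := by
    refine le_trans ?_ hL1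
    norm_num
  have hL0 : (0 : ℝ) < L := by linarith
  have ht1 : (1 : ℝ) ≤ t := by linarith
  have ht0 : (0 : ℝ) < t := by linarith
  obtain ⟨hqt, U, U₀, hU0, hU64, hU3, hqU, hUt⟩ := choice_LMG X q t ht128 ht12 hq
  obtain ⟨α, β, α', β', E, hα, hβ, hα', hβ', hE, hPsi⟩ :=
    h1 q X U U₀ w₀ w₁ hX3 hU0 hU64 hU3 hw0 hw01 hw1
  rw [← hLdef] at hα hβ hα' hβ' hE
  have hqX : q ≤ X := by
    refine le_trans ?_ hq
    exact Nat.le_self_pow two_ne_zero q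
  have hps := h3 q X w₀ w₁ (by omega) hqX hw1
  rw [← hLdef] at hps
  have hY : ∑ χ ∈ 𝓖, ‖Psi χ w₀ w₁‖ ^ 2 ≤ 2 * X ^ 2 * L ^ 2 :=
    (sum_le_sum_of_subset_of_nonneg (subset_univ _) fun _ _ _ => by positivity).trans hps
  have hV : ∀ χ ∈ 𝓖, 0 ≤ ‖Psi χ w₀ w₁‖ ∧ ‖Psi χ w₀ w₁‖ ≤ X / L ^ (2 * (3 * A + 92) + 1) := by
    intro χ hχ
    rw [hLdef]
    exact ⟨norm_nonneg _, (hG χ hχ).2⟩
  have hLa : L ^ (2 * A + 70) ≤ t := by
    have : (0 : ℝ) ≤ L ^ (2 * A + 70) := by positivity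
    linarith
  have hqL : (q : ℝ) * L ^ (2 * A + 70) ≤ X := by
    calc (q : ℝ) * L ^ (2 * A + 70) ≤ t ^ 6 * t := by gcongr
      _ = t ^ 7 := by ring
      _ ≤ t ^ 12 := pow_le_pow_right₀ ht1 (by norm_num)
      _ = X := ht12
  have hbil : ∀ a b : ℕ → ℝ, Cf (2 * L) U₀ a → Cf (2 * L) U₀ b →
      ∑ χ ∈ 𝓖, ‖Psi χ w₀ w₁‖ * ‖Bil χ a b X w₀ w₁‖ ≤ (X : ℝ) ^ 2 / L ^ A / 3 := by
    intro a b ha hb
    have h4 := h2 q X U₀ w₀ w₁ a b (2 * L) (1 / L ^ (2 * A + 70))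
      (X / L ^ (2 * (3 * A + 92) + 1)) (2 * X ^ 2 * L ^ 2) 𝓖 (fun χ => ‖Psi χ w₀ w₁‖) hX3 hq
      hqU hU0 (by positivity) ha hb (by positivity)
      (by rw [div_le_one (by positivity)]; exact one_le_pow₀ hL) hw01 hw1 (by positivity) hV hY
    rw [← hLdef] at h4
    exact h4.trans (num_LMG A C L X q hC hL1 hL2 hXpos (by positivity) hqL)
  have hbe : ∑ χ ∈ 𝓖, ‖Psi χ w₀ w₁‖ * ‖E χ‖ ≤ (X : ℝ) ^ 2 / L ^ A / 3 := by
    have h5 := Real.sum_mul_le_sqrt_mul_sqrt 𝓖 (fun χ => ‖Psi χ w₀ w₁‖) (fun χ => ‖E χ‖)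
    have h6 : √(∑ χ ∈ 𝓖, ‖Psi χ w₀ w₁‖ ^ 2) ≤ 2 * X * L := by
      refine Real.sqrt_le_iff.2 ⟨by positivity, hY.trans ?_⟩
      have : (0 : ℝ) ≤ X ^ 2 * L ^ 2 := by positivity
      nlinarith
    have h7 : √(∑ χ ∈ 𝓖, ‖E χ‖ ^ 2) ≤ 3 * U * q * L := by
      refine Real.sqrt_le_iff.2 ⟨by positivity, le_trans ?_ hE⟩
      refine sum_le_sum_of_subset_of_nonneg ?_ fun _ _ _ => by positivity
      intro χ hχ
      exact mem_filter.2 ⟨mem_univ _, (hG χ hχ).1⟩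
    refine h5.trans ((mul_le_mul h6 h7 (Real.sqrt_nonneg _) (by positivity)).trans ?_)
    have h8 : 18 * L ^ (A + 2) ≤ t ^ 2 := by
      calc 18 * L ^ (A + 2) ≤ 18 * L ^ (2 * A + 70) := by
            refine mul_le_mul_of_nonneg_left ?_ (by norm_num)
            exact pow_le_pow_right₀ hL (by omega)
        _ ≤ t := hL3
        _ ≤ t ^ 2 := by nlinarith
    rw [div_div, le_div_iff₀ (by positivity)]
    calc 2 * (X : ℝ) * L * (3 * U * q * L) * (L ^ A * 3)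
        = (X : ℝ) * (18 * L ^ (A + 2)) * (U * q) := by ring
      _ ≤ (X : ℝ) * t ^ 2 * (t ^ 4 * t ^ 6) := by gcongr
      _ = (X : ℝ) * t ^ 12 := by ring
      _ = (X : ℝ) ^ 2 := by rw [ht12]; ring
  calc ∑ χ ∈ 𝓖, ‖Psi χ w₀ w₁‖ ^ 2
      ≤ ∑ χ ∈ 𝓖, (‖Psi χ w₀ w₁‖ * ‖E χ‖ + ‖Psi χ w₀ w₁‖ * ‖Bil χ α β X w₀ w₁‖ +
          ‖Psi χ w₀ w₁‖ * ‖Bil χ α' β' X w₀ w₁‖) := by
        refine sum_le_sum fun χ _ => ?_
        rw [← mul_add, ← mul_add, sq]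
        exact mul_le_mul_of_nonneg_left (hPsi χ) (norm_nonneg _)
    _ ≤ (X : ℝ) ^ 2 / L ^ A / 3 + (X : ℝ) ^ 2 / L ^ A / 3 + (X : ℝ) ^ 2 / L ^ A / 3 := by
        rw [sum_add_distrib, sum_add_distrib]
        exact add_le_add (add_le_add hbe (hbil α β hα hβ)) (hbil α' β' hα' hβ')
    _ = (X : ℝ) ^ 2 / Real.log X ^ A := by rw [hLdef]; ring

end Pool.Agent.Helper49.PC
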