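import Pool.Agent.Helper49.PC.StF

/-!
# Project PC: the discrete Loomis-Whitney inequality
-/

set_option autoImplicit false

namespace Pool.Agent.Helper49.PC

open Finset

private theorem crt_LW (m n : ℕ) (hm : 1 ≤ m) (hn : 1 ≤ n) (hmn : Nat.Coprime m n)
    (φ : ℕ → ℕ → ℝ) :
    ∑ j ∈ range (m * n), φ (j % m) (j % n) = ∑ x ∈ range m, ∑ y ∈ range n, φ x y := by
  rw [← Finset.sum_product']
  refine Finset.sum_bij' (fun j _ => (j % m, j % n))
    (fun t _ => (Nat.chineseRemainder hmn t.1 t.2 : ℕ)) ?_ ?_ ?_ ?_ ?_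
  · intro j _
    rw [mem_product, mem_range, mem_range]
    exact ⟨Nat.mod_lt _ (by omega), Nat.mod_lt _ (by omega)⟩
  · rintro ⟨x, y⟩ _
    rw [mem_range]
    exact Nat.chineseRemainder_lt_mul hmn x y (by omega) (by omega)
  · intro j hj
    rw [mem_range] at hj
    have h1 := (Nat.chineseRemainder hmn (j % m) (j % n)).2
    have h2 : (Nat.chineseRemainder hmn (j % m) (j % n) : ℕ) ≡ j [MOD m * n] := by
      rw [← Nat.modEq_and_modEq_iff_modEq_mul hmn]
      exact ⟨h1.1.trans (Nat.mod_modEq _ _), h1.2.trans (Nat.mod_modEq _ _)⟩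
    have h3 := Nat.chineseRemainder_lt_mul hmn (j % m) (j % n) (by omega) (by omega)
    unfold Nat.ModEq at h2
    rwa [Nat.mod_eq_of_lt h3, Nat.mod_eq_of_lt hj] at h2
  · rintro ⟨x, y⟩ hxy
    rw [mem_product, mem_range, mem_range] at hxy
    have h1 := (Nat.chineseRemainder hmn x y).2
    simp only [Prod.mk.injEq]
    constructor
    · exact (show _ % m = x % m from h1.1).trans (Nat.mod_eq_of_lt hxy.1)
    · exact (show _ % n = y % n from h1.2).trans (Nat.mod_eq_of_lt hxy.2)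
  · intro j _
    rfl

private theorem per_LW (f : ℕ → ℝ) (D : ℕ) (hf : ∀ j, f (j + D) = f j) (i j : ℕ)
    (hij : i ≡ j [MOD D]) : f i = f j := by
  have h1 : ∀ k i, f (i + k * D) = f i := by
    intro k
    induction k with
    | zero => intro i; simp
    | succ k ih =>
      intro i
      rw [Nat.succ_mul, ← add_assoc, hf, ih]
  have h2 : ∀ i, f i = f (i % D) := by
    intro i
    conv_lhs => rw [← Nat.mod_add_div i D, mul_comm D]
    exact h1 _ _
  rw [h2 i, h2 j]
  exact congrArg f hij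

private theorem per2_LW (f : ℕ → ℝ) (m n : ℕ) (hmn : Nat.Coprime m n)
    (hf : ∀ j, f (j + m * n) = f j) (j : ℕ) :
    f j = f (Nat.chineseRemainder hmn (j % m) (j % n) : ℕ) := by
  refine per_LW f (m * n) hf _ _ ?_
  have h1 := (Nat.chineseRemainder hmn (j % m) (j % n)).2
  refine Nat.ModEq.symm ?_
  rw [← Nat.modEq_and_modEq_iff_modEq_mul hmn]
  exact ⟨h1.1.trans (Nat.mod_modEq _ _), h1.2.trans (Nat.mod_modEq _ _)⟩

private theorem arr_LW (a b c : ℕ) (F G H : ℕ → ℕ → ℝ) (hH : ∀ x y, 0 ≤ H x y) :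
    ∑ x ∈ range a, ∑ y ∈ range b, ∑ z ∈ range c, F y z * G x z * H x y ≤
      √(∑ y ∈ range b, ∑ z ∈ range c, F y z ^ 2) * √(∑ x ∈ range a, ∑ z ∈ range c, G x z ^ 2) *
        √(∑ x ∈ range a, ∑ y ∈ range b, H x y ^ 2) := by
  set F2 : ℕ → ℝ := fun y => ∑ z ∈ range c, F y z ^ 2 with hF2
  set G2 : ℕ → ℝ := fun x => ∑ z ∈ range c, G x z ^ 2 with hG2
  have hF2n : ∀ y, 0 ≤ F2 y := fun y => Finset.sum_nonneg fun z _ => sq_nonneg _
  have hG2n : ∀ x, 0 ≤ G2 x := fun x => Finset.sum_nonneg fun z _ => sq_nonneg _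
  have h1 : ∀ x y, ∑ z ∈ range c, F y z * G x z * H x y ≤ (√(F2 y) * √(G2 x)) * H x y := by
    intro x y
    rw [← Finset.sum_mul]
    refine mul_le_mul_of_nonneg_right ?_ (hH x y)
    exact Real.sum_mul_le_sqrt_mul_sqrt _ _ _
  have h2 : ∑ x ∈ range a, ∑ y ∈ range b, ∑ z ∈ range c, F y z * G x z * H x y ≤
      ∑ t ∈ range a ×ˢ range b, (√(F2 t.2) * √(G2 t.1)) * H t.1 t.2 := by
    rw [Finset.sum_product]
    exact Finset.sum_le_sum fun x _ => Finset.sum_le_sum fun y _ => h1 x y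
  have h3 := Real.sum_mul_le_sqrt_mul_sqrt (range a ×ˢ range b)
    (fun t => √(F2 t.2) * √(G2 t.1)) (fun t => H t.1 t.2)
  have h4 : ∑ t ∈ range a ×ˢ range b, (√(F2 t.2) * √(G2 t.1)) ^ 2 =
      (∑ y ∈ range b, F2 y) * (∑ x ∈ range a, G2 x) := by
    rw [Finset.sum_product, mul_comm, Finset.sum_mul_sum]
    refine Finset.sum_congr rfl fun x _ => Finset.sum_congr rfl fun y _ => ?_
    rw [mul_pow, Real.sq_sqrt (hF2n y), Real.sq_sqrt (hG2n x), mul_comm]
  have h5 : ∑ t ∈ range a ×ˢ range b, H t.1 t.2 ^ 2 =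
      ∑ x ∈ range a, ∑ y ∈ range b, H x y ^ 2 := by
    rw [Finset.sum_product]
  rw [h4, h5, Real.sqrt_mul (Finset.sum_nonneg fun y _ => hF2n y)] at h3
  exact h2.trans h3

theorem hLW : StLW := by
  intro f g h a b c ha hb hc hcop hf hg hh pf pg ph
  obtain ⟨hab, hac, hbc⟩ := hcop
  have habc : Nat.Coprime (a * b) c := Nat.Coprime.mul_left hac hbc
  have e1 : ∑ j ∈ range (a * b * c), f j * g j * h j =
      ∑ x ∈ range a, ∑ y ∈ range b, ∑ z ∈ range c,
        f (Nat.chineseRemainder hbc y z : ℕ) * g (Nat.chineseRemainder hac x z : ℕ) *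
          h (Nat.chineseRemainder hab x y : ℕ) := by
    have e2 := crt_LW (a * b) c (Nat.mul_pos ha hb) hc habc (fun w z : ℕ =>
          f (Nat.chineseRemainder hbc (w % b) z : ℕ) *
            g (Nat.chineseRemainder hac (w % a) z : ℕ) *
          h (Nat.chineseRemainder hab (w % a) (w % b) : ℕ))
    have e4 : ∑ j ∈ range (a * b * c), f j * g j * h j =
        ∑ j ∈ range (a * b * c),
          f (Nat.chineseRemainder hbc (j % (a * b) % b) (j % c) : ℕ) *
            g (Nat.chineseRemainder hac (j % (a * b) % a) (j % c) : ℕ) *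
          h (Nat.chineseRemainder hab (j % (a * b) % a) (j % (a * b) % b) : ℕ) := by
      refine Finset.sum_congr rfl fun j _ => ?_
      rw [Nat.mod_mul_right_mod, Nat.mod_mul_left_mod, ← per2_LW f b c hbc pf,
        ← per2_LW g a c hac pg, ← per2_LW h a b hab ph]
    rw [e4]
    refine e2.trans ?_
    exact crt_LW a b ha hb hab (fun x y => ∑ z ∈ range c,
      f (Nat.chineseRemainder hbc y z : ℕ) * g (Nat.chineseRemainder hac x z : ℕ) *
        h (Nat.chineseRemainder hab x y : ℕ))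
  have e3 : ∀ (u : ℕ → ℝ) (m n : ℕ) (hm : 1 ≤ m) (hn : 1 ≤ n) (hmn : Nat.Coprime m n),
      (∀ j, u (j + m * n) = u j) → ∑ j ∈ range (m * n), u j ^ 2 =
        ∑ x ∈ range m, ∑ y ∈ range n, u (Nat.chineseRemainder hmn x y : ℕ) ^ 2 := by
    intro u m n hm hn hmn hu
    rw [← crt_LW m n hm hn hmn (fun x y => u (Nat.chineseRemainder hmn x y : ℕ) ^ 2)]
    refine Finset.sum_congr rfl fun j _ => ?_
    rw [← per2_LW u m n hmn hu]
  rw [e1, e3 f b c hb hc hbc pf, e3 g a c ha hc hac pg, e3 h a b ha hb hab ph]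
  exact arr_LW a b c (fun y z => f (Nat.chineseRemainder hbc y z : ℕ))
    (fun x z => g (Nat.chineseRemainder hac x z : ℕ))
    (fun x y => h (Nat.chineseRemainder hab x y : ℕ)) (fun x y => hh _)

end Pool.Agent.Helper49.PC
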