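import Pool.Agent.Helper49.PC.StE

/-!
# Project PC, module LWE: the Loomis-Whitney inequality with greatest common divisors
-/

set_option autoImplicit false

namespace Pool.Agent.Helper49.PC

open Finset

private theorem period_LWE (φ : ℕ → ℝ) (M : ℕ) (h : ∀ j, φ (j + M) = φ j) (k : ℕ) :
    ∀ j, φ (j + k * M) = φ j := by
  induction k with
  | zero => intro j; rw [Nat.zero_mul, Nat.add_zero]
  | succ k ih => intro j; rw [Nat.succ_mul, ← Nat.add_assoc, h, ih]

private theorem sum_period_LWE (φ : ℕ → ℝ) (M : ℕ) (h : ∀ j, φ (j + M) = φ j) (e : ℕ) :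
    ∑ j ∈ range (e * M), φ j = e * ∑ j ∈ range M, φ j := by
  induction e with
  | zero => simp
  | succ e ih =>
    rw [Nat.succ_mul, Finset.sum_range_add, ih]
    have h1 : ∑ x ∈ range M, φ (e * M + x) = ∑ x ∈ range M, φ x := by
      refine Finset.sum_congr rfl fun x _ => ?_
      rw [Nat.add_comm, period_LWE φ M h]
    rw [h1]
    push_cast
    ring

/-- square mean over the residue class -/
private noncomputable def Fq_LWE (f : ℕ → ℝ) (P Q j : ℕ) : ℝ :=
  √(∑ w ∈ (range P).filter (fun w => w % Q = j % Q), f w ^ 2)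

private theorem Fq_nonneg_LWE (f : ℕ → ℝ) (P Q j : ℕ) : 0 ≤ Fq_LWE f P Q j := Real.sqrt_nonneg _

private theorem Fq_period_LWE (f : ℕ → ℝ) (P Q j : ℕ) : Fq_LWE f P Q (j + Q) = Fq_LWE f P Q j := by
  unfold Fq_LWE
  rw [Nat.add_mod_right]

private theorem Fq_ge_LWE (f : ℕ → ℝ) (P Q j : ℕ) (hP : 1 ≤ P) (hQ : Q ∣ P)
    (hper : ∀ j, f (j + P) = f j) : f j ≤ Fq_LWE f P Q j := by
  unfold Fq_LWE
  refine Real.le_sqrt_of_sq_le ?_
  have h1 : f (j % P) = f j := by
    conv_rhs => rw [← Nat.mod_add_div j P, Nat.mul_comm P, period_LWE f P hper]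
  have h2 : j % P ∈ (range P).filter (fun w => w % Q = j % Q) := by
    rw [Finset.mem_filter, Finset.mem_range]
    exact ⟨Nat.mod_lt _ hP, Nat.mod_mod_of_dvd j hQ⟩
  rw [← h1]
  exact Finset.single_le_sum (f := fun w => f w ^ 2) (fun w _ => sq_nonneg _) h2

private theorem Fq_sum_LWE (f : ℕ → ℝ) (P Q : ℕ) (hQ : 1 ≤ Q) :
    ∑ j ∈ range Q, Fq_LWE f P Q j ^ 2 = ∑ w ∈ range P, f w ^ 2 := by
  rw [← Finset.sum_fiberwise_of_maps_to (s := range P) (t := range Q) (g := fun w => w % Q)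
    (fun w _ => Finset.mem_range.2 (Nat.mod_lt _ hQ)) (fun w => f w ^ 2)]
  refine Finset.sum_congr rfl fun j hj => ?_
  unfold Fq_LWE
  rw [Real.sq_sqrt (Finset.sum_nonneg fun _ _ => sq_nonneg _),
    Nat.mod_eq_of_lt (Finset.mem_range.1 hj)]

theorem hLWE (h1 : StLW) (h2 : StRDC) : StLWE := by
  intro f g h a b c ha hb hc hf hg hh pf pg ph
  obtain ⟨a', b', c', e, da, db, dc, ha', hb', hc', hcop, habc, _, heE⟩ := h2 a b c ha hb hc
  have hbc : 1 ≤ b * c := Nat.mul_pos hb hc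
  have hac : 1 ≤ a * c := Nat.mul_pos ha hc
  have hab : 1 ≤ a * b := Nat.mul_pos ha hb
  have hbc' : 1 ≤ b' * c' := Nat.mul_pos hb' hc'
  have hac' : 1 ≤ a' * c' := Nat.mul_pos ha' hc'
  have hab' : 1 ≤ a' * b' := Nat.mul_pos ha' hb'
  set F := Fq_LWE f (b * c) (b' * c') with hF
  set G := Fq_LWE g (a * c) (a' * c') with hG
  set H := Fq_LWE h (a * b) (a' * b') with hH
  have pF : ∀ j, F (j + b' * c') = F j := Fq_period_LWE f _ _
  have pG : ∀ j, G (j + a' * c') = G j := Fq_period_LWE g _ _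
  have pH : ∀ j, H (j + a' * b') = H j := Fq_period_LWE h _ _
  have nF : ∀ j, 0 ≤ F j := Fq_nonneg_LWE f _ _
  have nG : ∀ j, 0 ≤ G j := Fq_nonneg_LWE g _ _
  have nH : ∀ j, 0 ≤ H j := Fq_nonneg_LWE h _ _
  have gF : ∀ j, f j ≤ F j := fun j => Fq_ge_LWE f _ _ j hbc (Nat.mul_dvd_mul db dc) pf
  have gG : ∀ j, g j ≤ G j := fun j => Fq_ge_LWE g _ _ j hac (Nat.mul_dvd_mul da dc) pg
  have gH : ∀ j, h j ≤ H j := fun j => Fq_ge_LWE h _ _ j hab (Nat.mul_dvd_mul da db) ph
  have hper : ∀ j, F (j + a' * b' * c') * G (j + a' * b' * c') * H (j + a' * b' * c') =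
      F j * G j * H j := by
    intro j
    have e1 : a' * b' * c' = a' * (b' * c') := by ring
    have e2 : a' * b' * c' = b' * (a' * c') := by ring
    have e3 : a' * b' * c' = c' * (a' * b') := by ring
    have q1 : F (j + a' * b' * c') = F j := by rw [e1]; exact period_LWE F _ pF a' j
    have q2 : G (j + a' * b' * c') = G j := by rw [e2]; exact period_LWE G _ pG b' j
    have q3 : H (j + a' * b' * c') = H j := by rw [e3]; exact period_LWE H _ pH c' j
    rw [q1, q2, q3]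
  have hLW := h1 F G H a' b' c' ha' hb' hc' hcop nF nG nH pF pG pH
  rw [Fq_sum_LWE f _ _ hbc', Fq_sum_LWE g _ _ hac', Fq_sum_LWE h _ _ hab'] at hLW
  calc ∑ j ∈ range (a * b * c), f j * g j * h j ≤ ∑ j ∈ range (a * b * c), F j * G j * H j := by
        refine Finset.sum_le_sum fun j _ => ?_
        exact mul_le_mul (mul_le_mul (gF j) (gG j) (hg j) (nF j)) (gH j) (hh j)
          (mul_nonneg (nF j) (nG j))
    _ = e * ∑ j ∈ range (a' * b' * c'), F j * G j * H j := by
        rw [habc]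
        exact sum_period_LWE (fun j => F j * G j * H j) (a' * b' * c') hper e
    _ ≤ EE a b c * ∑ j ∈ range (a' * b' * c'), F j * G j * H j := by
        refine mul_le_mul_of_nonneg_right (by exact_mod_cast heE) ?_
        exact Finset.sum_nonneg fun j _ => mul_nonneg (mul_nonneg (nF j) (nG j)) (nH j)
    _ ≤ _ := mul_le_mul_of_nonneg_left hLW (Nat.cast_nonneg _)

end Pool.Agent.Helper49.PC
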