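import Pool.Agent.Helper49.PC.StN

/-!
# Project PC: size of the model
-/

set_option autoImplicit false

namespace Pool.Agent.Helper49.PC

open Finset
open Pool.Agent.Helper48.BK (lz Vz)

theorem hLZB (h1 : Pool.Agent.Helper48.BK.StVz) : StLZB := by
  obtain ⟨c, hc, h⟩ := h1
  refine ⟨1 / c, by positivity, fun z n hz => ?_⟩
  have hlog : 0 < Real.log z := Real.log_pos (by exact_mod_cast (by omega : 1 < z))
  have hV0 : 0 < c / Real.log z := by positivity
  have hV := h z hz
  have hVp : 0 < Vz z := lt_of_lt_of_le hV0 hV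
  have h2 : 1 / Vz z ≤ 1 / c * Real.log z := by
    have h3 : 1 / Vz z ≤ 1 / (c / Real.log z) := one_div_le_one_div_of_le hV0 hV
    refine h3.trans (le_of_eq ?_)
    field_simp
  unfold lz
  split_ifs
  · exact ⟨by positivity, h2⟩
  · exact ⟨le_rfl, by positivity⟩

end Pool.Agent.Helper49.PC
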