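import Pool.Agent.Helper49.PC.StF

/-!
# Project PC, module MEA: Dirichlet approximation, measure of the major arcs
-/

set_option autoImplicit false

namespace Pool.Agent.Helper49.PC

open Finset

lemma dir_MEA (Q : ℕ) (θ : ℝ) (hQ : 1 ≤ Q) : ∃ (v : ℕ) (h : ℤ), 1 ≤ v ∧ v ≤ Q ∧
    IsCoprime h (v : ℤ) ∧ |θ - h / v| ≤ 1 / (v * Q) := by
  obtain ⟨q, h1, h2⟩ := Real.exists_rat_abs_sub_le_and_den_le θ (show 0 < Q from hQ)
  refine ⟨q.den, q.num, q.den_pos, h2, ?_, ?_⟩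
  · rw [Int.isCoprime_iff_gcd_eq_one]
    exact q.reduced
  · have h3 : ((q : ℚ) : ℝ) = (q.num : ℝ) / (q.den : ℝ) := Rat.cast_def q
    rw [← h3]
    refine h1.trans ?_
    have h4 : (0 : ℝ) < Q := by exact_mod_cast hQ
    have h5 : (0 : ℝ) < q.den := by exact_mod_cast q.den_pos
    apply div_le_div_of_nonneg_left zero_le_one (by positivity)
    nlinarith

/-- a finite set of naturals of diameter at most `D` has at most `D + 1` elements -/
lemma diam_MEA (A : Finset ℕ) (D : ℝ) (hD : 0 ≤ D)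
    (h : ∀ x ∈ A, ∀ y ∈ A, (x : ℝ) - y ≤ D) : (A.card : ℝ) ≤ D + 1 := by
  rcases A.eq_empty_or_nonempty with h0 | h0
  · rw [h0]
    simp only [Finset.card_empty, Nat.cast_zero]
    linarith
  · have h1 : A ⊆ Icc (A.min' h0) (A.max' h0) := fun x hx =>
      Finset.mem_Icc.2 ⟨Finset.min'_le A x hx, Finset.le_max' A x hx⟩
    have h2 := Finset.card_le_card h1
    rw [Nat.card_Icc] at h2
    have h3 : A.min' h0 ≤ A.max' h0 := Finset.min'_le_max' A h0
    have h4 := h _ (Finset.max'_mem A h0) _ (Finset.min'_mem A h0)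
    have h5 : A.card + A.min' h0 ≤ A.max' h0 + 1 := by omega
    have h6 : (A.card : ℝ) + A.min' h0 ≤ A.max' h0 + 1 := by exact_mod_cast h5
    linarith

open Classical in
lemma one_MEA (Q N v : ℕ) (h : ℤ) (hQ : 1 ≤ Q) (hN : 1 ≤ N) (hv : 1 ≤ v) :
    ((((range N).filter (fun k : ℕ => |(k : ℝ) / N - h / v| ≤ 1 / (v * Q))).card : ℕ) : ℝ) ≤
      2 * N / (v * Q) + 1 := by
  have hQ0 : (0 : ℝ) < Q := by exact_mod_cast hQ
  have hN0 : (0 : ℝ) < N := by exact_mod_cast hN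
  have hv0 : (0 : ℝ) < v := by exact_mod_cast hv
  refine diam_MEA _ _ (by positivity) fun x hx y hy => ?_
  rw [Finset.mem_filter] at hx hy
  have h1 := abs_le.1 hx.2
  have h2 := abs_le.1 hy.2
  have h3 : (x : ℝ) / N - (y : ℝ) / N ≤ 2 * (1 / (v * Q)) := by linarith
  have h4 : (x : ℝ) - y = ((x : ℝ) / N - (y : ℝ) / N) * N := by field_simp
  rw [h4]
  calc ((x : ℝ) / N - (y : ℝ) / N) * N ≤ (2 * (1 / (v * Q))) * N :=
        mul_le_mul_of_nonneg_right h3 hN0.le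
    _ = 2 * N / (v * Q) := by ring

lemma mea_MEA (P Q N : ℕ) (S : Finset ℕ) (hP : 1 ≤ P) (hQ : 2 ≤ Q) (hPQ : P * Q ≤ N)
    (hS : S ⊆ range N)
    (hk : ∀ k ∈ S, ∃ (v : ℕ) (h : ℤ), 1 ≤ v ∧ v ≤ P ∧ |(k : ℝ) / N - h / v| ≤ 1 / (v * Q)) :
    (S.card : ℝ) ≤ 8 * P * N / Q := by
  classical
  have hN : 1 ≤ N := le_trans (Nat.mul_pos hP (by omega)) hPQ
  have hQ0 : (0 : ℝ) < Q := by
    have : 0 < Q := by omega
    exact_mod_cast this
  have hQ2 : (2 : ℝ) ≤ Q := by exact_mod_cast hQ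
  have hN0 : (0 : ℝ) < N := by exact_mod_cast hN
  have hP1 : (1 : ℝ) ≤ P := by exact_mod_cast hP
  have hsub : S ⊆ (Icc 1 P).biUnion (fun v => (range (v + 1)).biUnion (fun h =>
      (range N).filter (fun k : ℕ => |(k : ℝ) / N - ((h : ℕ) : ℤ) / v| ≤ 1 / (v * Q)))) := by
    intro k hkS
    obtain ⟨v, h, hv1, hvP, hvh⟩ := hk k hkS
    have hkN := Finset.mem_range.1 (hS hkS)
    have hv0 : (0 : ℝ) < v := by exact_mod_cast hv1
    have h1 := abs_le.1 hvh
    have h2 : (0 : ℝ) ≤ (k : ℝ) / N := by positivity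
    have h3 : (k : ℝ) / N < 1 := by
      rw [div_lt_one hN0]
      exact_mod_cast hkN
    have h4 : (h : ℝ) = h / v * v := by field_simp
    have h5 : (1 / ((v : ℝ) * Q)) * v ≤ 1 / 2 := by
      have : (1 / ((v : ℝ) * Q)) * v = 1 / Q := by field_simp
      rw [this]
      exact div_le_div_of_nonneg_left zero_le_one (by norm_num) hQ2
    have h6 : (-1 : ℝ) < h := by
      have : -(1 / ((v : ℝ) * Q)) ≤ (h : ℝ) / v := by linarith
      have := mul_le_mul_of_nonneg_right this hv0.le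
      rw [← h4] at this
      linarith
    have h7 : (h : ℝ) < v + 1 := by
      have : (h : ℝ) / v ≤ 1 + 1 / ((v : ℝ) * Q) := by linarith
      have := mul_le_mul_of_nonneg_right this hv0.le
      rw [← h4] at this
      linarith
    have h8 : -1 < h := by exact_mod_cast h6
    have h9 : h < v + 1 := by exact_mod_cast h7
    lift h to ℕ using (by omega) with h'
    rw [Finset.mem_biUnion]
    refine ⟨v, Finset.mem_Icc.2 ⟨hv1, hvP⟩, ?_⟩
    rw [Finset.mem_biUnion]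
    refine ⟨h', Finset.mem_range.2 (by omega), ?_⟩
    rw [Finset.mem_filter]
    exact ⟨Finset.mem_range.2 hkN, hvh⟩
  have h1 : (S.card : ℝ) ≤ ∑ v ∈ Icc 1 P, ∑ h ∈ range (v + 1),
      ((((range N).filter (fun k : ℕ => |(k : ℝ) / N - ((h : ℕ) : ℤ) / v| ≤
        1 / (v * Q))).card : ℕ) : ℝ) := by
    have h2 := (Finset.card_le_card hsub).trans (Finset.card_biUnion_le.trans
      (Finset.sum_le_sum fun v _ => Finset.card_biUnion_le))
    exact_mod_cast h2
  refine h1.trans ?_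
  have h2 : ∀ v ∈ Icc 1 P, ∑ h ∈ range (v + 1),
      ((((range N).filter (fun k : ℕ => |(k : ℝ) / N - ((h : ℕ) : ℤ) / v| ≤
        1 / (v * Q))).card : ℕ) : ℝ) ≤ 4 * N / Q + 2 * P := by
    intro v hv
    rw [Finset.mem_Icc] at hv
    have hv0 : (0 : ℝ) < v := by exact_mod_cast hv.1
    have hv1 : (1 : ℝ) ≤ v := by exact_mod_cast hv.1
    have hvP : (v : ℝ) ≤ P := by exact_mod_cast hv.2
    calc ∑ h ∈ range (v + 1),
        ((((range N).filter (fun k : ℕ => |(k : ℝ) / N - ((h : ℕ) : ℤ) / v| ≤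
          1 / (v * Q))).card : ℕ) : ℝ)
        ≤ ∑ h ∈ range (v + 1), (2 * (N : ℝ) / (v * Q) + 1) :=
          Finset.sum_le_sum fun h _ => one_MEA Q N v _ (by omega) hN hv.1
      _ = ((v : ℝ) + 1) * (2 * (N : ℝ) / (v * Q) + 1) := by
          rw [Finset.sum_const, Finset.card_range, nsmul_eq_mul]
          push_cast
          ring
      _ ≤ (2 * v) * (2 * (N : ℝ) / (v * Q) + 1) :=
          mul_le_mul_of_nonneg_right (by linarith) (by positivity)
      _ = 4 * N / Q + 2 * v := by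
          field_simp
          ring
      _ ≤ 4 * N / Q + 2 * P := by linarith
  refine (Finset.sum_le_sum h2).trans ?_
  rw [Finset.sum_const, Nat.card_Icc, Nat.add_sub_cancel, nsmul_eq_mul]
  have h3 : (P : ℝ) * Q ≤ N := by exact_mod_cast hPQ
  rw [le_div_iff₀ hQ0]
  have h4 : (P : ℝ) * (4 * N / Q + 2 * P) * Q = 4 * P * N + 2 * P * (P * Q) := by
    field_simp
  rw [h4]
  nlinarith

theorem hMEA : StMEA := ⟨dir_MEA, mea_MEA⟩

end Pool.Agent.Helper49.PC
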