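import Pool.Agent.Helper49.PC.StN
import Pool.Agent.Helper48.BK.M_Vau

/-! # Module MIL: the von Mangoldt function in the unit classes, minor arcs -/

set_option autoImplicit false

namespace Pool.Agent.Helper49.PC

open Finset ArithmeticFunction
open Pool.Agent.Helper48.BK (ex th lz Vz Pz gs nd Apx AdN Sol thd)
open Pool.Agent.Helper2 (lo hi mob zet vaughan sum_conv lo_apply hi_apply abs_mob_le zet_apply
  lo_mul_lo_eq_zero abs_lo_mul_lo_le hi_mob_zet_eq_zero hi_mob_zet_sq_le hi_vonMangoldt_sq_le)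

/-- the truncated exponential in a residue class -/
private noncomputable def G_MIL (y D l : ℕ) (t : ℝ) (n : ℕ) : ℂ :=
  if n ≤ y ∧ n ≡ l [MOD D] then ex (n * t) else 0

private theorem G0_MIL (y D l : ℕ) (t : ℝ) (n : ℕ) (hn : y < n) : G_MIL y D l t n = 0 := by
  unfold G_MIL
  rw [if_neg (by omega)]

private theorem G1_MIL (y D l : ℕ) (t : ℝ) (n : ℕ) : ‖G_MIL y D l t n‖ ≤ 1 := by
  unfold G_MIL
  split_ifs
  · rw [norm_ex]
  · simp

/-- inner sum -/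
private theorem restrict_MIL (y D l : ℕ) (t : ℝ) (f : ℕ → ℝ) (c : ℝ) (a : ℕ) (ha : 1 ≤ a) :
    ∑ b ∈ Ioc 0 y, ((c : ℝ) : ℂ) * ((f b : ℝ) : ℂ) * G_MIL y D l t (a * b) =
      ∑ b ∈ Ioc 0 (y / a),
        if a * b ≡ l [MOD D] then ((c * f b : ℝ) : ℂ) * ex (a * b * t) else 0 := by
  have hs : (Ioc 0 y).filter (fun b => a * b ≤ y) = Ioc 0 (y / a) := by
    ext b
    simp only [mem_filter, mem_Ioc]
    constructor
    · rintro ⟨⟨h1, _⟩, h3⟩
      exact ⟨h1, (Nat.le_div_iff_mul_le ha).2 (by rwa [mul_comm])⟩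
    · rintro ⟨h1, h2⟩
      have h3 := (Nat.le_div_iff_mul_le ha).1 h2
      exact ⟨⟨h1, h2.trans (Nat.div_le_self _ _)⟩, by rwa [mul_comm]⟩
  rw [← hs, sum_filter]
  refine Finset.sum_congr rfl fun b _ => ?_
  unfold G_MIL
  by_cases h : a * b ≤ y
  · by_cases h2 : a * b ≡ l [MOD D]
    · rw [if_pos ⟨h, h2⟩, if_pos h, if_pos h2]
      push_cast
      ring
    · rw [if_neg (fun h3 => h2 h3.2), if_pos h, if_neg h2, mul_zero]
  · rw [if_neg (fun h3 => h h3.1), if_neg h, mul_zero]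

/-- type one sums in the form of TU1 -/
private theorem typeI_MIL (y D l : ℕ) (t : ℝ) (c f : ℕ → ℝ) (J : ℕ)
    (hc : ∀ a, J < a → c a = 0) :
    ∑ a ∈ Ioc 0 y, ∑ b ∈ Ioc 0 y, ((c a : ℝ) : ℂ) * ((f b : ℝ) : ℂ) * G_MIL y D l t (a * b) =
      ∑ k ∈ Ioc 0 J, ∑ m ∈ Ioc 0 (y / k),
        if k * m ≡ l [MOD D] then ((c k * f m : ℝ) : ℂ) * ex (k * m * t) else 0 := by
  set W : ℕ → ℂ := fun k => ∑ m ∈ Ioc 0 (y / k),
        if k * m ≡ l [MOD D] then ((c k * f m : ℝ) : ℂ) * ex (k * m * t) else 0 with hW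
  have e1 : ∑ a ∈ Ioc 0 y, ∑ b ∈ Ioc 0 y,
      ((c a : ℝ) : ℂ) * ((f b : ℝ) : ℂ) * G_MIL y D l t (a * b) = ∑ a ∈ Ioc 0 y, W a := by
    refine Finset.sum_congr rfl fun a ha => ?_
    exact restrict_MIL y D l t f (c a) a (mem_Ioc.1 ha).1
  rw [e1]
  have e2 : ∑ a ∈ Ioc 0 y, W a = ∑ a ∈ Ioc 0 (max y J), W a := by
    apply Finset.sum_subset (Finset.Ioc_subset_Ioc_right (le_max_left _ _))
    intro u hm hu
    have h1 : y < u := by
      by_contra hc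
      exact hu (mem_Ioc.2 ⟨(mem_Ioc.1 hm).1, by omega⟩)
    simp only [hW]
    rw [Nat.div_eq_of_lt h1]
    simp
  have e3 : ∑ a ∈ Ioc 0 J, W a = ∑ a ∈ Ioc 0 (max y J), W a := by
    apply Finset.sum_subset (Finset.Ioc_subset_Ioc_right (le_max_right _ _))
    intro u hm hu
    have h1 : J < u := by
      by_contra hc
      exact hu (mem_Ioc.2 ⟨(mem_Ioc.1 hm).1, by omega⟩)
    simp only [hW]
    refine Finset.sum_eq_zero fun m _ => ?_
    rw [hc u h1]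
    simp
  rw [e2, ← e3]

/-- a dyadic block -/
private noncomputable def P_MIL (y D l : ℕ) (t : ℝ) (f g : ℕ → ℝ) (K K' : ℕ) : ℂ :=
  ∑ k ∈ Ioc K (2 * K), ∑ m ∈ Ioc K' (2 * K'), ((f k : ℝ) : ℂ) * ((g m : ℝ) : ℂ) *
    G_MIL y D l t (k * m)

private theorem P_comm_MIL (y D l : ℕ) (t : ℝ) (f g : ℕ → ℝ) (K K' : ℕ) :
    P_MIL y D l t f g K K' = P_MIL y D l t g f K' K := by
  unfold P_MIL
  rw [Finset.sum_comm]
  refine Finset.sum_congr rfl fun m _ => Finset.sum_congr rfl fun k _ => ?_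
  rw [mul_comm k m]
  ring

private theorem P_eq_MIL (y D l : ℕ) (t : ℝ) (f g : ℕ → ℝ) (K K' : ℕ) :
    P_MIL y D l t f g K K' = ∑ k ∈ Ioc K (2 * K), ∑ m ∈ Ioc 0 (y / k),
      if k * m ≡ l [MOD D] then
        ((f k * (if m ∈ Ioc K' (2 * K') then g m else 0) : ℝ) : ℂ) * ex (k * m * t) else 0 := by
  unfold P_MIL
  refine Finset.sum_congr rfl fun k hk => ?_
  have hk1 : 1 ≤ k := by have := (mem_Ioc.1 hk).1; omega
  have h1 : ∑ m ∈ Ioc K' (2 * K'), ((f k : ℝ) : ℂ) * ((g m : ℝ) : ℂ) * G_MIL y D l t (k * m) =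
      ∑ m ∈ (Ioc K' (2 * K')).filter (fun m => k * m ≤ y),
        if k * m ≡ l [MOD D] then ((f k * g m : ℝ) : ℂ) * ex (k * m * t) else 0 := by
    rw [Finset.sum_filter]
    refine Finset.sum_congr rfl fun m _ => ?_
    unfold G_MIL
    by_cases h : k * m ≤ y
    · by_cases h2 : k * m ≡ l [MOD D]
      · rw [if_pos ⟨h, h2⟩, if_pos h, if_pos h2]
        push_cast
        ring
      · rw [if_neg (fun h3 => h2 h3.2), if_pos h, if_neg h2, mul_zero]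
    · rw [if_neg (fun h3 => h h3.1), if_neg h, mul_zero]
  have h2 : ∑ m ∈ Ioc 0 (y / k), (if k * m ≡ l [MOD D] then
        ((f k * (if m ∈ Ioc K' (2 * K') then g m else 0) : ℝ) : ℂ) * ex (k * m * t) else 0) =
      ∑ m ∈ (Ioc 0 (y / k)).filter (fun m => m ∈ Ioc K' (2 * K')),
        if k * m ≡ l [MOD D] then ((f k * g m : ℝ) : ℂ) * ex (k * m * t) else 0 := by
    rw [Finset.sum_filter]
    refine Finset.sum_congr rfl fun m _ => ?_
    by_cases h : m ∈ Ioc K' (2 * K')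
    · rw [if_pos h, if_pos h]
    · rw [if_neg h, if_neg h]
      simp
  rw [h1, h2]
  refine Finset.sum_congr ?_ fun _ _ => rfl
  ext m
  simp only [mem_filter, mem_Ioc]
  constructor
  · rintro ⟨⟨h3, h4⟩, h5⟩
    exact ⟨⟨by omega, (Nat.le_div_iff_mul_le hk1).2 (by rwa [mul_comm])⟩, h3, h4⟩
  · rintro ⟨⟨h3, h4⟩, h5, h6⟩
    refine ⟨⟨h5, h6⟩, ?_⟩
    have := (Nat.le_div_iff_mul_le hk1).1 h4
    rwa [mul_comm] at this

/-- one block, `K ≤ K'` -/
private theorem block_MIL (C : ℝ) (hC : 0 < C)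
    (hII : ∀ (M D v K y : ℕ) (h : ℤ) (θ : ℝ) (α β : ℕ → ℝ),
      1 ≤ M → 1 ≤ D → 1 ≤ K → y ≤ D * M → Apx θ h v →
      D * ∑ l ∈ Un D, ‖∑ k ∈ Ioc K (2 * K), ∑ m ∈ Ioc 0 (y / k),
        if k * m ≡ l [MOD D] then ((α k * β m : ℝ) : ℂ) * ex (k * m * (θ / D)) else 0‖ ^ 2 ≤
      C * (∑ k ∈ Ioc K (2 * K), α k ^ 2) * (∑ m ∈ Ioc 0 (D * M / K), β m ^ 2) *
        ((D : ℝ) * K + (D : ℝ) * M / v + (D : ℝ) * M / K + (D : ℝ) * v) * (1 + Real.log v))
    (M D v U y K K' : ℕ) (h : ℤ) (θ : ℝ) (hM : 3 ≤ M) (hD : 1 ≤ D) (hU : 1 ≤ U)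
    (hvM : v ≤ M) (hy : y ≤ D * M) (hθ : Apx θ h v) (f g : ℕ → ℝ) (A : ℝ) (hA : 0 ≤ A)
    (hf : ∀ N ≤ 2 * (D * M), ∑ n ∈ Ioc 0 N, f n ^ 2 ≤ A * N)
    (hg : ∀ N ≤ 2 * (D * M), ∑ n ∈ Ioc 0 N, g n ^ 2 ≤ A * N)
    (hK : U ≤ K) (hKK : K ≤ K') :
    D * ∑ l ∈ Un D, ‖P_MIL y D l (θ / D) f g K K'‖ ^ 2 ≤
      4 * C * A ^ 2 * ((D : ℝ) * M) ^ 2 * (1 / v + 1 / U + √((D : ℝ) / M) + v / M) *
        Real.log M := by
  have hL := Pool.Agent.Helper48.BK.log3_Vau hM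
  have hv1 : 1 ≤ v := hθ.1
  have hvr : (1 : ℝ) ≤ v := by exact_mod_cast hv1
  have hUr : (1 : ℝ) ≤ U := by exact_mod_cast hU
  have hMr : (3 : ℝ) ≤ M := by exact_mod_cast hM
  have hDr : (1 : ℝ) ≤ D := by exact_mod_cast hD
  have hK1 : 1 ≤ K := hU.trans hK
  have hKr : (1 : ℝ) ≤ K := by exact_mod_cast hK1
  have hM0 : (0 : ℝ) < M := by linarith
  have hD0 : (0 : ℝ) < D := by linarith
  by_cases hlt : K * K' ≤ D * M
  · have h1 := hII M D v K y h θ f (fun m => if m ∈ Ioc K' (2 * K') then g m else 0)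
      (by omega) hD hK1 hy hθ
    simp_rw [← P_eq_MIL] at h1
    refine h1.trans ?_
    have hK2 : K * K ≤ D * M := (Nat.mul_le_mul_left K hKK).trans hlt
    have hKx : K ≤ D * M := (Nat.le_mul_of_pos_left K hK1).trans hK2
    have a1 : ∑ k ∈ Ioc K (2 * K), f k ^ 2 ≤ A * (2 * K) := by
      have h2 := hf (2 * K) (by omega)
      push_cast at h2
      refine le_trans (Finset.sum_le_sum_of_subset_of_nonneg ?_ fun _ _ _ => sq_nonneg _) h2
      exact Finset.Ioc_subset_Ioc_left (Nat.zero_le _)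
    have a2 : ∑ m ∈ Ioc 0 (D * M / K), (if m ∈ Ioc K' (2 * K') then g m else 0) ^ 2 ≤
        A * ((D : ℝ) * M / K) := by
      have h2 := hg (D * M / K) ((Nat.div_le_self _ _).trans (by omega))
      have h3 : ((D * M / K : ℕ) : ℝ) ≤ (D : ℝ) * M / K := by
        refine (Nat.cast_div_le).trans ?_
        push_cast
        exact le_rfl
      calc ∑ m ∈ Ioc 0 (D * M / K), (if m ∈ Ioc K' (2 * K') then g m else 0) ^ 2
          ≤ ∑ m ∈ Ioc 0 (D * M / K), g m ^ 2 := by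
            refine Finset.sum_le_sum fun m _ => ?_
            split_ifs
            · exact le_rfl
            · simp only [ne_eq, OfNat.ofNat_ne_zero, not_false_eq_true, zero_pow]
              positivity
        _ ≤ A * ((D * M / K : ℕ) : ℝ) := h2
        _ ≤ A * ((D : ℝ) * M / K) := mul_le_mul_of_nonneg_left h3 hA
    have a3 : (D : ℝ) * K + (D : ℝ) * M / v + (D : ℝ) * M / K + (D : ℝ) * v ≤
        (D : ℝ) * M * (1 / v + 1 / U + √((D : ℝ) / M) + v / M) := by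
      have b1 : (K : ℝ) ≤ M * √((D : ℝ) / M) := by
        have : (K : ℝ) ^ 2 ≤ (M * √((D : ℝ) / M)) ^ 2 := by
          rw [mul_pow, Real.sq_sqrt (by positivity)]
          have h4 : ((K * K : ℕ) : ℝ) ≤ ((D * M : ℕ) : ℝ) := by exact_mod_cast hK2
          push_cast at h4
          have h5 : (M : ℝ) ^ 2 * (D / M) = D * M := by
            field_simp
          rw [h5]
          nlinarith
        exact (sq_le_sq₀ (by positivity) (by positivity)).1 this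
      have b2 : (D : ℝ) * M / K ≤ D * M / U :=
        div_le_div_of_nonneg_left (by positivity) (by linarith) (by exact_mod_cast hK)
      have b3 : (D : ℝ) * K ≤ D * (M * √((D : ℝ) / M)) := mul_le_mul_of_nonneg_left b1 hD0.le
      have b4 : (D : ℝ) * M * (1 / v + 1 / U + √((D : ℝ) / M) + v / M) =
          D * M / v + D * M / U + D * (M * √((D : ℝ) / M)) + D * v := by
        field_simp
      rw [b4]
      linarith
    have a4 : 1 + Real.log v ≤ 2 * Real.log M := by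
      have : Real.log v ≤ Real.log M :=
        Real.log_le_log (by linarith) (by exact_mod_cast hvM)
      linarith
    have hlv : 0 ≤ Real.log v := Real.log_natCast_nonneg v
    have s1 : 0 ≤ ∑ k ∈ Ioc K (2 * K), f k ^ 2 := Finset.sum_nonneg fun _ _ => sq_nonneg _
    have s2 : 0 ≤ ∑ m ∈ Ioc 0 (D * M / K), (if m ∈ Ioc K' (2 * K') then g m else 0) ^ 2 :=
      Finset.sum_nonneg fun _ _ => sq_nonneg _
    calc C * (∑ k ∈ Ioc K (2 * K), f k ^ 2) *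
          (∑ m ∈ Ioc 0 (D * M / K), (if m ∈ Ioc K' (2 * K') then g m else 0) ^ 2) *
          ((D : ℝ) * K + (D : ℝ) * M / v + (D : ℝ) * M / K + (D : ℝ) * v) * (1 + Real.log v)
        ≤ C * (A * (2 * K)) * (A * ((D : ℝ) * M / K)) *
          ((D : ℝ) * M * (1 / v + 1 / U + √((D : ℝ) / M) + v / M)) * (2 * Real.log M) := by
          gcongr
      _ = 4 * C * A ^ 2 * ((D : ℝ) * M) ^ 2 * (1 / v + 1 / U + √((D : ℝ) / M) + v / M) *
        Real.log M := by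
          field_simp
          ring
  · have h0 : ∀ l ∈ Un D, ‖P_MIL y D l (θ / D) f g K K'‖ ^ 2 = 0 := by
      intro l _
      have : P_MIL y D l (θ / D) f g K K' = 0 := by
        unfold P_MIL
        refine Finset.sum_eq_zero fun k hk => Finset.sum_eq_zero fun m hm => ?_
        have hk1 := (mem_Ioc.1 hk).1
        have hm1 := (mem_Ioc.1 hm).1
        rw [G0_MIL, mul_zero]
        have : K * K' ≤ k * m := Nat.mul_le_mul hk1.le hm1.le
        omega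
      rw [this]
      simp
    rw [Finset.sum_eq_zero h0, mul_zero]
    positivity

/-- one block -/
private theorem block2_MIL (C : ℝ) (hC : 0 < C)
    (hII : ∀ (M D v K y : ℕ) (h : ℤ) (θ : ℝ) (α β : ℕ → ℝ),
      1 ≤ M → 1 ≤ D → 1 ≤ K → y ≤ D * M → Apx θ h v →
      D * ∑ l ∈ Un D, ‖∑ k ∈ Ioc K (2 * K), ∑ m ∈ Ioc 0 (y / k),
        if k * m ≡ l [MOD D] then ((α k * β m : ℝ) : ℂ) * ex (k * m * (θ / D)) else 0‖ ^ 2 ≤
      C * (∑ k ∈ Ioc K (2 * K), α k ^ 2) * (∑ m ∈ Ioc 0 (D * M / K), β m ^ 2) *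
        ((D : ℝ) * K + (D : ℝ) * M / v + (D : ℝ) * M / K + (D : ℝ) * v) * (1 + Real.log v))
    (M D v U y K K' : ℕ) (h : ℤ) (θ : ℝ) (hM : 3 ≤ M) (hD : 1 ≤ D) (hU : 1 ≤ U)
    (hvM : v ≤ M) (hy : y ≤ D * M) (hθ : Apx θ h v) (f g : ℕ → ℝ) (A : ℝ) (hA : 0 ≤ A)
    (hf : ∀ N ≤ 2 * (D * M), ∑ n ∈ Ioc 0 N, f n ^ 2 ≤ A * N)
    (hg : ∀ N ≤ 2 * (D * M), ∑ n ∈ Ioc 0 N, g n ^ 2 ≤ A * N)
    (hK : U ≤ K) (hK' : U ≤ K') :
    D * ∑ l ∈ Un D, ‖P_MIL y D l (θ / D) f g K K'‖ ^ 2 ≤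
      4 * C * A ^ 2 * ((D : ℝ) * M) ^ 2 * (1 / v + 1 / U + √((D : ℝ) / M) + v / M) *
        Real.log M := by
  rcases le_total K K' with hle | hle
  · exact block_MIL C hC hII M D v U y K K' h θ hM hD hU hvM hy hθ f g A hA hf hg hK hle
  · simp_rw [P_comm_MIL y D _ (θ / D) f g K K']
    exact block_MIL C hC hII M D v U y K' K h θ hM hD hU hvM hy hθ g f A hA hg hf hK' hle

/-- the bilinear part is a sum of blocks -/
private theorem dec_MIL (y D l U N : ℕ) (t : ℝ) (f g : ℕ → ℝ) (hU : 1 ≤ U)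
    (hf : ∀ n ≤ U, f n = 0) (hg : ∀ n ≤ U, g n = 0) (hN : y < 2 ^ N) :
    ∑ a ∈ Ioc 0 y, ∑ b ∈ Ioc 0 y, ((f a : ℝ) : ℂ) * ((g b : ℝ) : ℂ) * G_MIL y D l t (a * b) =
      ∑ p ∈ range N ×ˢ range N, P_MIL y D l t f g (U * 2 ^ p.1) (U * 2 ^ p.2) := by
  have hyN : y ≤ U * 2 ^ N := by
    have : 2 ^ N ≤ U * 2 ^ N := Nat.le_mul_of_pos_left _ hU
    omega
  have key : ∀ F : ℕ → ℂ, (∀ n ≤ U, F n = 0) → (∀ n, y < n → F n = 0) →
      ∑ a ∈ Ioc 0 y, F a = ∑ i ∈ range N, ∑ u ∈ Ioc (U * 2 ^ i) (2 * (U * 2 ^ i)), F u := by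
    intro F h1 h2
    rw [← Pool.Agent.Helper48.BK.dyadic_Vau F U N]
    have e2 : ∑ u ∈ Ioc 0 y, F u = ∑ u ∈ Ioc 0 (U * 2 ^ N), F u := by
      apply Finset.sum_subset (Finset.Ioc_subset_Ioc_right hyN)
      intro u hm hu
      apply h2
      by_contra hc
      exact hu (mem_Ioc.2 ⟨(mem_Ioc.1 hm).1, by omega⟩)
    have e3 : ∑ u ∈ Ioc U (U * 2 ^ N), F u = ∑ u ∈ Ioc 0 (U * 2 ^ N), F u := by
      apply Finset.sum_subset (Finset.Ioc_subset_Ioc_left (Nat.zero_le _))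
      intro u hm hu
      apply h1
      by_contra hc
      exact hu (mem_Ioc.2 ⟨by omega, (mem_Ioc.1 hm).2⟩)
    rw [e2, e3]
  rw [key (fun a => ∑ b ∈ Ioc 0 y, ((f a : ℝ) : ℂ) * ((g b : ℝ) : ℂ) * G_MIL y D l t (a * b))]
  · rw [Finset.sum_product]
    refine Finset.sum_congr rfl fun i _ => ?_
    unfold P_MIL
    rw [Finset.sum_comm (s := range N) (t := Ioc (U * 2 ^ i) (2 * (U * 2 ^ i)))]
    refine Finset.sum_congr rfl fun u hu => ?_
    have hu1 : 1 ≤ u := by have := (mem_Ioc.1 hu).1; omega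
    rw [key (fun b => ((f u : ℝ) : ℂ) * ((g b : ℝ) : ℂ) * G_MIL y D l t (u * b))]
    · intro n hn
      rw [hg n hn]
      simp
    · intro n hn
      rw [G0_MIL, mul_zero]
      exact hn.trans_le (Nat.le_mul_of_pos_left _ hu1)
  · intro n hn
    refine Finset.sum_eq_zero fun b _ => ?_
    rw [hf n hn]
    simp
  · intro n hn
    refine Finset.sum_eq_zero fun b hb => ?_
    rw [G0_MIL, mul_zero]
    exact hn.trans_le (Nat.le_mul_of_pos_right _ (mem_Ioc.1 hb).1)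

private theorem sq4_MIL (a b c d : ℂ) :
    ‖a + b - c + d‖ ^ 2 ≤ 4 * (‖a‖ ^ 2 + ‖b‖ ^ 2 + ‖c‖ ^ 2 + ‖d‖ ^ 2) := by
  have h1 : ‖a + b - c + d‖ ≤ ‖a‖ + ‖b‖ + ‖c‖ + ‖d‖ := by
    refine (norm_add_le _ _).trans ?_
    have := norm_sub_le (a + b) c
    have := norm_add_le a b
    linarith
  have h2 := pow_le_pow_left₀ (norm_nonneg _) h1 2
  nlinarith [sq_nonneg (‖a‖ - ‖b‖), sq_nonneg (‖a‖ - ‖c‖), sq_nonneg (‖a‖ - ‖d‖),
    sq_nonneg (‖b‖ - ‖c‖), sq_nonneg (‖b‖ - ‖d‖), sq_nonneg (‖c‖ - ‖d‖)]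

theorem hMIL (h1 : StTU1) (h2 : StTU2) : StMIL := by
  obtain ⟨C1, hC1, hTI⟩ := h1
  obtain ⟨C2, hC2, hII⟩ := h2
  refine ⟨16 + 60 * C1 ^ 2 + 10 ^ 9 * C2, 11, by positivity, ?_⟩
  intro M D v U y h θ hM hD hDM hU hUM hvM hy hθ
  have hL := Pool.Agent.Helper48.BK.log3_Vau hM
  have hv1 : 1 ≤ v := hθ.1
  have hvr : (1 : ℝ) ≤ v := by exact_mod_cast hv1
  have hUr : (1 : ℝ) ≤ U := by exact_mod_cast hU
  have hMr : (3 : ℝ) ≤ M := by exact_mod_cast hM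
  have hDr : (1 : ℝ) ≤ D := by exact_mod_cast hD
  have hM0 : (0 : ℝ) < M := by linarith
  have hD0 : (0 : ℝ) < D := by linarith
  have hx : 3 ≤ D * M := hM.trans (Nat.le_mul_of_pos_left M hD)
  set L := Real.log M with hLdef
  have hlogDM : Real.log ((D * M : ℕ) : ℝ) ≤ 2 * L := by
    push_cast
    rw [Real.log_mul (by positivity) (by positivity)]
    have : Real.log D ≤ L := Real.log_le_log hD0 (by exact_mod_cast hDM)
    linarith
  set t : ℝ := θ / D with ht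
  set F : ℝ := 1 / v + 1 / U + √((D : ℝ) / M) + v / M with hF
  have hF0 : 0 ≤ F := by positivity
  set E : ℝ := (U : ℝ) ^ 4 / M ^ 2 with hE
  have hE0 : 0 ≤ E := by positivity
  set A1 : ℕ → ℂ := fun l => ∑ n ∈ Ioc 0 y, ((lo vonMangoldt U n : ℝ) : ℂ) * G_MIL y D l t n
    with hA1
  set A2 : ℕ → ℂ := fun l => ∑ a ∈ Ioc 0 y, ∑ b ∈ Ioc 0 y, ((lo mob U a : ℝ) : ℂ) *
    ((log b : ℝ) : ℂ) * G_MIL y D l t (a * b) with hA2
  set A3 : ℕ → ℂ := fun l => ∑ a ∈ Ioc 0 y, ∑ b ∈ Ioc 0 y,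
    (((lo vonMangoldt U * lo mob U) a : ℝ) : ℂ) * ((zet b : ℝ) : ℂ) * G_MIL y D l t (a * b)
    with hA3
  set A4 : ℕ → ℂ := fun l => ∑ a ∈ Ioc 0 y, ∑ b ∈ Ioc 0 y,
    ((hi vonMangoldt U a : ℝ) : ℂ) * (((hi mob U * zet) b : ℝ) : ℂ) * G_MIL y D l t (a * b)
    with hA4
  have hS : ∀ l, ∑ n ∈ (Ioc 0 y).filter (fun n => n ≡ l [MOD D]),
      ((Λ n : ℝ) : ℂ) * ex (n * (θ / D)) = A1 l + A2 l - A3 l + A4 l := by
    intro l
    simp only [hA1, hA2, hA3, hA4]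
    rw [← sum_conv _ _ y _ (G0_MIL y D l t), ← sum_conv _ _ y _ (G0_MIL y D l t),
      ← sum_conv _ _ y _ (G0_MIL y D l t)]
    rw [← Finset.sum_add_distrib, ← Finset.sum_sub_distrib, ← Finset.sum_add_distrib]
    rw [Finset.sum_filter]
    refine Finset.sum_congr rfl fun n hn => ?_
    have h := congrArg (fun f : ArithmeticFunction ℝ => f n) (vaughan U)
    simp only [sub_eq_add_neg, ArithmeticFunction.add_apply, ArithmeticFunction.neg_apply] at h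
    have hn2 := (mem_Ioc.1 hn).2
    have h3 : (if n ≡ l [MOD D] then ((Λ n : ℝ) : ℂ) * ex (n * (θ / D)) else 0) =
        ((vonMangoldt n : ℝ) : ℂ) * G_MIL y D l t n := by
      unfold G_MIL
      by_cases h4 : n ≡ l [MOD D]
      · rw [if_pos h4, if_pos ⟨hn2, h4⟩]
      · rw [if_neg h4, if_neg (fun h5 => h4 h5.2), mul_zero]
    rw [h3, h]
    push_cast
    ring
  -- first part
  have b1 : D * ∑ l ∈ Un D, ‖A1 l‖ ^ 2 ≤ 4 * ((D : ℝ) * M) ^ 2 * L ^ 2 * E := by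
    have c1 : ∀ l, ‖A1 l‖ ≤ ∑ n ∈ Ioc 0 U, if n ≡ l [MOD D] then 2 * L else 0 := by
      intro l
      simp only [hA1]
      refine (norm_sum_le _ _).trans ?_
      have e1 : ∀ n ∈ Ioc 0 y, ‖((lo vonMangoldt U n : ℝ) : ℂ) * G_MIL y D l t n‖ ≤
          if n ≤ U ∧ n ≡ l [MOD D] then 2 * L else 0 := by
        intro n hn
        rw [norm_mul, Complex.norm_real, lo_apply]
        by_cases h4 : n ≤ U
        · by_cases h5 : n ≡ l [MOD D]
          · rw [if_pos h4, if_pos ⟨h4, h5⟩, Real.norm_of_nonneg vonMangoldt_nonneg]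
            calc vonMangoldt n * ‖G_MIL y D l t n‖ ≤ (2 * L) * 1 := by
                  refine mul_le_mul ?_ (G1_MIL _ _ _ _ _) (norm_nonneg _) (by linarith)
                  refine vonMangoldt_le_log.trans (le_trans ?_ hlogDM)
                  refine Real.log_le_log (by exact_mod_cast (mem_Ioc.1 hn).1) ?_
                  exact_mod_cast (mem_Ioc.1 hn).2.trans hy
              _ = 2 * L := mul_one _
          · have h7 : ¬ (n ≤ U ∧ n ≡ l [MOD D]) := fun h6 => h5 h6.2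
            have h8 : ¬ (n ≤ y ∧ n ≡ l [MOD D]) := fun h6 => h5 h6.2
            have h9 : G_MIL y D l t n = 0 := by
              unfold G_MIL
              rw [if_neg h8]
            rw [h9, if_neg h7]
            simp
        · have h7 : ¬ (n ≤ U ∧ n ≡ l [MOD D]) := fun h6 => h4 h6.1
          rw [if_neg h4, if_neg h7]
          simp
      refine (Finset.sum_le_sum e1).trans ?_
      rw [← Finset.sum_filter, ← Finset.sum_filter]
      apply Finset.sum_le_sum_of_subset_of_nonneg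
      · intro n hn
        rw [mem_filter, mem_Ioc] at hn
        exact mem_filter.2 ⟨mem_Ioc.2 ⟨hn.1.1, hn.2.1⟩, hn.2.2⟩
      · intro n _ _
        linarith
    have c2 : ∑ l ∈ range D, ∑ n ∈ Ioc 0 U, (if n ≡ l [MOD D] then 2 * L else 0) ≤
        U * (2 * L) := by
      rw [Finset.sum_comm]
      calc ∑ n ∈ Ioc 0 U, ∑ l ∈ range D, (if n ≡ l [MOD D] then 2 * L else 0)
          ≤ ∑ n ∈ Ioc 0 U, 2 * L := by
            refine Finset.sum_le_sum fun n _ => ?_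
            rw [← Finset.sum_filter, Finset.sum_const, nsmul_eq_mul]
            have : #((range D).filter (fun l => n ≡ l [MOD D])) ≤ 1 := by
              rw [Finset.card_le_one]
              intro a ha b hb
              rw [mem_filter, mem_range] at ha hb
              have h6 : a ≡ b [MOD D] := ha.2.symm.trans hb.2
              exact Nat.ModEq.eq_of_lt_of_lt h6 ha.1 hb.1
            have h7 : ((#((range D).filter (fun l => n ≡ l [MOD D])) : ℕ) : ℝ) ≤ 1 := by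
              exact_mod_cast this
            nlinarith
        _ = U * (2 * L) := by
            rw [Finset.sum_const, nsmul_eq_mul, Nat.card_Ioc, Nat.sub_zero]
    have c3 : ∑ l ∈ Un D, ‖A1 l‖ ^ 2 ≤ (U * (2 * L)) ^ 2 := by
      have d0 : ∀ l, 0 ≤ ∑ n ∈ Ioc 0 U, (if n ≡ l [MOD D] then 2 * L else 0) := fun l =>
        (norm_nonneg _).trans (c1 l)
      calc ∑ l ∈ Un D, ‖A1 l‖ ^ 2
          ≤ ∑ l ∈ Un D, (∑ n ∈ Ioc 0 U, (if n ≡ l [MOD D] then 2 * L else 0)) ^ 2 :=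
            Finset.sum_le_sum fun l _ => pow_le_pow_left₀ (norm_nonneg _) (c1 l) 2
        _ ≤ ∑ l ∈ range D, (∑ n ∈ Ioc 0 U, (if n ≡ l [MOD D] then 2 * L else 0)) ^ 2 :=
            Finset.sum_le_sum_of_subset_of_nonneg (Finset.filter_subset _ _)
              fun _ _ _ => sq_nonneg _
        _ ≤ (∑ l ∈ range D, ∑ n ∈ Ioc 0 U, (if n ≡ l [MOD D] then 2 * L else 0)) ^ 2 :=
            Finset.sum_sq_le_sq_sum_of_nonneg (fun l _ => d0 l)
        _ ≤ (U * (2 * L)) ^ 2 := by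
            refine pow_le_pow_left₀ (Finset.sum_nonneg fun l _ => d0 l) c2 2
    have c4 : 4 * ((D : ℝ) * M) ^ 2 * L ^ 2 * E = 4 * (D : ℝ) ^ 2 * L ^ 2 * (U : ℝ) ^ 4 := by
      rw [hE]
      field_simp
    rw [c4]
    calc (D : ℝ) * ∑ l ∈ Un D, ‖A1 l‖ ^ 2 ≤ D * (U * (2 * L)) ^ 2 :=
          mul_le_mul_of_nonneg_left c3 hD0.le
      _ = 4 * D * L ^ 2 * U ^ 2 := by ring
      _ ≤ 4 * (D : ℝ) ^ 2 * L ^ 2 * (U : ℝ) ^ 4 := by
          have e1 : (D : ℝ) ≤ D ^ 2 := by nlinarith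
          have e2 : (U : ℝ) ^ 2 ≤ U ^ 4 := pow_le_pow_right₀ hUr (by norm_num)
          gcongr
  -- type one parts
  have hFE : ∀ J : ℕ, 1 ≤ J → J ≤ U ^ 2 →
      (D * ((M : ℝ) / v + J + v)) ^ 2 ≤ 3 * ((D : ℝ) * M) ^ 2 * (F + E) := by
    intro J _ hJ
    have hJr : (J : ℝ) ≤ (U : ℝ) ^ 2 := by exact_mod_cast hJ
    have e1 : ((M : ℝ) / v + J + v) ^ 2 ≤ 3 * ((M : ℝ) ^ 2 / v + U ^ 4 + M * v) := by
      have f1 : ((M : ℝ) / v) ^ 2 ≤ (M : ℝ) ^ 2 / v := by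
        rw [div_pow]
        apply div_le_div_of_nonneg_left (by positivity) (by linarith)
        nlinarith
      have f2 : (J : ℝ) ^ 2 ≤ (U : ℝ) ^ 4 := by
        have := pow_le_pow_left₀ (Nat.cast_nonneg J) hJr 2
        calc (J : ℝ) ^ 2 ≤ ((U : ℝ) ^ 2) ^ 2 := this
          _ = (U : ℝ) ^ 4 := by ring
      have f3 : (v : ℝ) ^ 2 ≤ M * v := by
        have : (v : ℝ) ≤ M := by exact_mod_cast hvM
        nlinarith
      nlinarith [sq_nonneg ((M : ℝ) / v - J), sq_nonneg ((M : ℝ) / v - v), sq_nonneg ((J : ℝ) - v)]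
    have e2 : ((M : ℝ) ^ 2 / v + U ^ 4 + M * v) = M ^ 2 * (1 / v + E + v / M) := by
      rw [hE]
      field_simp
    have e3 : (1 : ℝ) / v + E + v / M ≤ F + E := by
      have g1 : (0 : ℝ) ≤ 1 / U := by positivity
      have g2 : 0 ≤ √((D : ℝ) / M) := Real.sqrt_nonneg _
      rw [hF]
      linarith
    calc (D * ((M : ℝ) / v + J + v)) ^ 2 = (D : ℝ) ^ 2 * ((M : ℝ) / v + J + v) ^ 2 := by ring
      _ ≤ (D : ℝ) ^ 2 * (3 * (M ^ 2 * (1 / v + E + v / M))) := by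
          rw [← e2]; gcongr
      _ ≤ (D : ℝ) ^ 2 * (3 * (M ^ 2 * (F + E))) := by gcongr
      _ = 3 * ((D : ℝ) * M) ^ 2 * (F + E) := by ring
  have b2 : D * ∑ l ∈ Un D, ‖A2 l‖ ^ 2 ≤ 12 * C1 ^ 2 * ((D : ℝ) * M) ^ 2 * L ^ 6 * (F + E) := by
    have e : ∀ l, A2 l = ∑ k ∈ Ioc 0 U, ∑ m ∈ Ioc 0 (y / k),
        if k * m ≡ l [MOD D] then ((lo mob U k * Real.log m : ℝ) : ℂ) * ex (k * m * (θ / D))
          else 0 := by
      intro l
      simp only [hA2]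
      have := typeI_MIL y D l t (fun a => lo mob U a) (fun b => Real.log b) U (by
        intro a ha
        simp only [lo_apply]
        rw [if_neg (by omega)])
      rw [← ht, ← this]
      rfl
    simp_rw [e]
    have h3 := hTI M D v U y h θ (fun a => lo mob U a) (fun b => Real.log b) 1 hM hD hU
      ((Nat.le_self_pow two_ne_zero U).trans hUM) hvM hy hθ zero_le_one (by
        intro k hk
        simp only [lo_apply]
        rw [if_pos hk]
        exact abs_mob_le k) (fun n => Real.log_natCast_nonneg n) (by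
        intro m n hm hmn
        exact Real.log_le_log (by exact_mod_cast hm) (by exact_mod_cast hmn))
    refine h3.trans ?_
    have h4 := hFE U hU (Nat.le_self_pow two_ne_zero U)
    have h5 : 0 ≤ Real.log ((D * M : ℕ) : ℝ) := Real.log_natCast_nonneg _
    have h6 : Real.log ((D * M : ℕ) : ℝ) ^ 2 ≤ (2 * L) ^ 2 := pow_le_pow_left₀ h5 hlogDM 2
    calc (C1 * 1 * Real.log ((D * M : ℕ) : ℝ) * D * ((M : ℝ) / v + U + v) * L ^ 2) ^ 2
        = C1 ^ 2 * Real.log ((D * M : ℕ) : ℝ) ^ 2 * (D * ((M : ℝ) / v + U + v)) ^ 2 * L ^ 4 := by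
          ring
      _ ≤ C1 ^ 2 * (2 * L) ^ 2 * (3 * ((D : ℝ) * M) ^ 2 * (F + E)) * L ^ 4 := by gcongr
      _ = 12 * C1 ^ 2 * ((D : ℝ) * M) ^ 2 * L ^ 6 * (F + E) := by ring
  have b3 : D * ∑ l ∈ Un D, ‖A3 l‖ ^ 2 ≤ 3 * C1 ^ 2 * ((D : ℝ) * M) ^ 2 * L ^ 6 * (F + E) := by
    have e : ∀ l, A3 l = ∑ k ∈ Ioc 0 (U ^ 2), ∑ m ∈ Ioc 0 (y / k),
        if k * m ≡ l [MOD D] then
          (((lo vonMangoldt U * lo mob U) k * (1 : ℝ) : ℝ) : ℂ) * ex (k * m * (θ / D))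
          else 0 := by
      intro l
      have h5 := typeI_MIL y D l t (fun a => (lo vonMangoldt U * lo mob U) a)
        (fun _ => (1 : ℝ)) (U ^ 2) (by
        intro a ha
        exact lo_mul_lo_eq_zero _ _ U a (by rw [← sq]; exact ha))
      rw [← ht, ← h5]
      simp only [hA3]
      refine Finset.sum_congr rfl fun a _ => Finset.sum_congr rfl fun b hb => ?_
      rw [zet_apply (mem_Ioc.1 hb).1]
    simp_rw [e]
    have h3 := hTI M D v (U ^ 2) y h θ (fun a => (lo vonMangoldt U * lo mob U) a)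
      (fun _ => (1 : ℝ)) L hM hD (Nat.one_le_pow _ _ hU)
      hUM hvM hy hθ (by linarith) (by
        intro k hk
        rcases Nat.eq_zero_or_pos k with rfl | hk0
        · simp only [ArithmeticFunction.map_zero, abs_zero]
          linarith
        · refine (abs_lo_mul_lo_le U k).trans ?_
          exact Real.log_le_log (by exact_mod_cast hk0) (by exact_mod_cast hk.trans hUM))
      (fun n => zero_le_one) (fun m n _ _ => le_rfl)
    refine h3.trans ?_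
    have h4 := hFE (U ^ 2) (Nat.one_le_pow _ _ hU) le_rfl
    calc (C1 * L * 1 * D * ((M : ℝ) / v + ((U ^ 2 : ℕ) : ℝ) + v) * L ^ 2) ^ 2
        = C1 ^ 2 * L ^ 6 * (D * ((M : ℝ) / v + ((U ^ 2 : ℕ) : ℝ) + v)) ^ 2 := by
          ring
      _ ≤ C1 ^ 2 * L ^ 6 * (3 * ((D : ℝ) * M) ^ 2 * (F + E)) := by gcongr
      _ = 3 * C1 ^ 2 * ((D : ℝ) * M) ^ 2 * L ^ 6 * (F + E) := by ring
  -- bilinear part
  have b4 : D * ∑ l ∈ Un D, ‖A4 l‖ ^ 2 ≤
      (6 * L) ^ 4 * (4 * C2 * (64 * L ^ 3) ^ 2 * ((D : ℝ) * M) ^ 2 * F * L) := by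
    set N := Nat.log 2 (D * M) + 1 with hN
    have hN1 : y < 2 ^ N := lt_of_le_of_lt hy (Nat.lt_pow_succ_log_self (by norm_num) _)
    have hNr : (N : ℝ) ≤ 6 * L := by
      have := Pool.Agent.Helper48.BK.K_Vau hx
      have h9 : (3 : ℝ) * Real.log ((D * M : ℕ) : ℝ) ≤ 6 * L := by linarith
      exact this.trans h9
    have hlog2 : Real.log ((2 * (D * M) : ℕ) : ℝ) ≤ 3 * L := by
      have e1 : ((2 * (D * M) : ℕ) : ℝ) = 2 * ((D * M : ℕ) : ℝ) := by push_cast; ring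
      rw [e1, Real.log_mul (by norm_num) (by positivity)]
      have := Real.log_two_lt_d9
      linarith
    have hlog20 : 0 ≤ Real.log ((2 * (D * M) : ℕ) : ℝ) := Real.log_natCast_nonneg _
    have hfb : ∀ n ≤ 2 * (D * M), ∑ m ∈ Ioc 0 n, hi vonMangoldt U m ^ 2 ≤ (64 * L ^ 3) * n := by
      intro n hn
      have h4 := hi_vonMangoldt_sq_le U n (2 * (D * M)) hn
      simp only [Complex.norm_real, Real.norm_eq_abs, sq_abs] at h4
      refine h4.trans ?_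
      refine mul_le_mul_of_nonneg_right ?_ (Nat.cast_nonneg n)
      calc Real.log ((2 * (D * M) : ℕ) : ℝ) ^ 2 ≤ (3 * L) ^ 2 :=
            pow_le_pow_left₀ hlog20 hlog2 2
        _ ≤ 64 * L ^ 3 := by nlinarith [sq_nonneg L, pow_nonneg (by linarith : (0:ℝ) ≤ L) 2]
    have hgb : ∀ n ≤ 2 * (D * M), ∑ m ∈ Ioc 0 n, (hi mob U * zet) m ^ 2 ≤
        (64 * L ^ 3) * n := by
      intro n hn
      have h4 := hi_mob_zet_sq_le U n (2 * (D * M)) hn
      simp only [Complex.norm_real, Real.norm_eq_abs, sq_abs] at h4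
      refine h4.trans ?_
      refine mul_le_mul_of_nonneg_right ?_ (Nat.cast_nonneg n)
      calc (1 + Real.log ((2 * (D * M) : ℕ) : ℝ)) ^ 3 ≤ (4 * L) ^ 3 :=
            pow_le_pow_left₀ (by linarith) (by linarith) 3
        _ = 64 * L ^ 3 := by ring
    have hdec : ∀ l, A4 l = ∑ p ∈ range N ×ˢ range N,
        P_MIL y D l t (fun n => hi vonMangoldt U n) (fun n => (hi mob U * zet) n)
          (U * 2 ^ p.1) (U * 2 ^ p.2) := by
      intro l
      exact dec_MIL y D l U N t (fun n => hi vonMangoldt U n) (fun n => (hi mob U * zet) n) hU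
        (by intro n hn; simp only [hi_apply]; rw [if_pos hn])
        (by intro n hn; exact hi_mob_zet_eq_zero U n hn) hN1
    have hblk : ∀ p ∈ range N ×ˢ range N, D * ∑ l ∈ Un D, ‖P_MIL y D l t
        (fun n => hi vonMangoldt U n) (fun n => (hi mob U * zet) n)
          (U * 2 ^ p.1) (U * 2 ^ p.2)‖ ^ 2 ≤
        4 * C2 * (64 * L ^ 3) ^ 2 * ((D : ℝ) * M) ^ 2 * F * L := by
      intro p _
      exact block2_MIL C2 hC2 hII M D v U y _ _ h θ hM hD hU hvM hy hθ _ _ (64 * L ^ 3)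
        (by positivity) hfb hgb (Nat.le_mul_of_pos_right _ (by positivity))
        (Nat.le_mul_of_pos_right _ (by positivity))
    have hcs : ∀ l, ‖A4 l‖ ^ 2 ≤ ((N : ℝ) ^ 2) * ∑ p ∈ range N ×ˢ range N, ‖P_MIL y D l t
        (fun n => hi vonMangoldt U n) (fun n => (hi mob U * zet) n)
          (U * 2 ^ p.1) (U * 2 ^ p.2)‖ ^ 2 := by
      intro l
      rw [hdec l]
      calc ‖∑ p ∈ range N ×ˢ range N, P_MIL y D l t (fun n => hi vonMangoldt U n)
            (fun n => (hi mob U * zet) n) (U * 2 ^ p.1) (U * 2 ^ p.2)‖ ^ 2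
          ≤ (∑ p ∈ range N ×ˢ range N, ‖P_MIL y D l t (fun n => hi vonMangoldt U n)
            (fun n => (hi mob U * zet) n) (U * 2 ^ p.1) (U * 2 ^ p.2)‖) ^ 2 :=
            pow_le_pow_left₀ (norm_nonneg _) (norm_sum_le _ _) 2
        _ ≤ (#(range N ×ˢ range N) : ℝ) * ∑ p ∈ range N ×ˢ range N, ‖P_MIL y D l t
            (fun n => hi vonMangoldt U n) (fun n => (hi mob U * zet) n)
            (U * 2 ^ p.1) (U * 2 ^ p.2)‖ ^ 2 := sq_sum_le_card_mul_sum_sq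
        _ = _ := by
            rw [card_product, card_range]
            push_cast
            ring
    calc (D : ℝ) * ∑ l ∈ Un D, ‖A4 l‖ ^ 2
        ≤ D * ∑ l ∈ Un D, ((N : ℝ) ^ 2) * ∑ p ∈ range N ×ˢ range N, ‖P_MIL y D l t
          (fun n => hi vonMangoldt U n) (fun n => (hi mob U * zet) n)
          (U * 2 ^ p.1) (U * 2 ^ p.2)‖ ^ 2 := by
          refine mul_le_mul_of_nonneg_left ?_ hD0.le
          exact Finset.sum_le_sum fun l _ => hcs l
      _ = (N : ℝ) ^ 2 * ∑ p ∈ range N ×ˢ range N, D * ∑ l ∈ Un D, ‖P_MIL y D l t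
          (fun n => hi vonMangoldt U n) (fun n => (hi mob U * zet) n)
          (U * 2 ^ p.1) (U * 2 ^ p.2)‖ ^ 2 := by
          rw [← Finset.mul_sum, ← Finset.mul_sum, Finset.sum_comm]
          ring
      _ ≤ (N : ℝ) ^ 2 * ∑ p ∈ range N ×ˢ range N,
          4 * C2 * (64 * L ^ 3) ^ 2 * ((D : ℝ) * M) ^ 2 * F * L := by
          refine mul_le_mul_of_nonneg_left ?_ (by positivity)
          exact Finset.sum_le_sum hblk
      _ = (N : ℝ) ^ 4 * (4 * C2 * (64 * L ^ 3) ^ 2 * ((D : ℝ) * M) ^ 2 * F * L) := by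
          rw [Finset.sum_const, nsmul_eq_mul, card_product, card_range]
          push_cast
          ring
      _ ≤ (6 * L) ^ 4 * (4 * C2 * (64 * L ^ 3) ^ 2 * ((D : ℝ) * M) ^ 2 * F * L) := by
          have : (N : ℝ) ^ 4 ≤ (6 * L) ^ 4 := pow_le_pow_left₀ (Nat.cast_nonneg N) hNr 4
          refine mul_le_mul_of_nonneg_right this (by positivity)
  -- assembly
  have hsum : D * ∑ l ∈ Un D, ‖∑ n ∈ (Ioc 0 y).filter (fun n => n ≡ l [MOD D]),
      ((Λ n : ℝ) : ℂ) * ex (n * (θ / D))‖ ^ 2 ≤ 4 * (D * ∑ l ∈ Un D, ‖A1 l‖ ^ 2 +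
        D * ∑ l ∈ Un D, ‖A2 l‖ ^ 2 + D * ∑ l ∈ Un D, ‖A3 l‖ ^ 2 + D * ∑ l ∈ Un D, ‖A4 l‖ ^ 2) := by
    simp_rw [hS]
    calc (D : ℝ) * ∑ l ∈ Un D, ‖A1 l + A2 l - A3 l + A4 l‖ ^ 2
        ≤ D * ∑ l ∈ Un D, 4 * (‖A1 l‖ ^ 2 + ‖A2 l‖ ^ 2 + ‖A3 l‖ ^ 2 + ‖A4 l‖ ^ 2) := by
          refine mul_le_mul_of_nonneg_left ?_ hD0.le
          exact Finset.sum_le_sum fun l _ => sq4_MIL _ _ _ _
      _ = _ := by
          rw [← Finset.mul_sum, Finset.sum_add_distrib, Finset.sum_add_distrib,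
            Finset.sum_add_distrib]
          ring
  refine hsum.trans ?_
  have hgoal : ((1 : ℝ) / v + 1 / U + √((D : ℝ) / M) + v / M + (U : ℝ) ^ 4 / M ^ 2) = F + E := by
    rw [hF, hE]
  rw [hgoal]
  set X := ((D : ℝ) * M) ^ 2 with hX
  have hX0 : 0 ≤ X := by positivity
  have hL0 : (0 : ℝ) ≤ L := by linarith
  have p2 : L ^ 2 ≤ L ^ 11 := pow_le_pow_right₀ hL (by norm_num)
  have p6 : L ^ 6 ≤ L ^ 11 := pow_le_pow_right₀ hL (by norm_num)
  have q1 : 4 * X * L ^ 2 * E ≤ 4 * X * L ^ 11 * (F + E) := by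
    have : E ≤ F + E := by linarith
    gcongr
  have q2 : 12 * C1 ^ 2 * X * L ^ 6 * (F + E) ≤ 12 * C1 ^ 2 * X * L ^ 11 * (F + E) := by
    gcongr
  have q3 : 3 * C1 ^ 2 * X * L ^ 6 * (F + E) ≤ 3 * C1 ^ 2 * X * L ^ 11 * (F + E) := by
    gcongr
  have q4 : (6 * L) ^ 4 * (4 * C2 * (64 * L ^ 3) ^ 2 * X * F * L) ≤
      21233664 * C2 * X * L ^ 11 * (F + E) := by
    have : F ≤ F + E := by linarith
    calc (6 * L) ^ 4 * (4 * C2 * (64 * L ^ 3) ^ 2 * X * F * L) =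
          21233664 * C2 * X * L ^ 11 * F := by ring
      _ ≤ 21233664 * C2 * X * L ^ 11 * (F + E) := by gcongr
  have q5 : 0 ≤ C2 * X * L ^ 11 * (F + E) := by positivity
  calc 4 * (D * ∑ l ∈ Un D, ‖A1 l‖ ^ 2 +
        D * ∑ l ∈ Un D, ‖A2 l‖ ^ 2 + D * ∑ l ∈ Un D, ‖A3 l‖ ^ 2 + D * ∑ l ∈ Un D, ‖A4 l‖ ^ 2)
      ≤ 4 * (4 * X * L ^ 11 * (F + E) + 12 * C1 ^ 2 * X * L ^ 11 * (F + E) +
        3 * C1 ^ 2 * X * L ^ 11 * (F + E) + 21233664 * C2 * X * L ^ 11 * (F + E)) := by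
        linarith
    _ ≤ (16 + 60 * C1 ^ 2 + 10 ^ 9 * C2) * X * L ^ 11 * (F + E) := by
        nlinarith [q5]

end Pool.Agent.Helper49.PC
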