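import Pool.Agent.Helper49.PC.StM2

/-!
# Project PC: module MJB (principal character on the major arcs)
-/

set_option autoImplicit false

namespace Pool.Agent.Helper49.PC

open Finset ArithmeticFunction Classical
open Pool.Agent.Helper48.BK (ex th lz Vz Pz gs nd Apx AdN Sol thd)
open scoped ComplexConjugate

theorem logpow_MJB (k : ℕ) : ∀ᶠ n : ℕ in Filter.atTop, Real.log (n : ℝ) ^ k ≤ (n : ℝ) := by
  have h1 := isLittleO_log_rpow_rpow_atTop (k : ℝ) (by norm_num : (0 : ℝ) < 1)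
  have h2 := (h1.comp_tendsto (tendsto_natCast_atTop_atTop (R := ℝ))).def (by norm_num : (0:ℝ) < 1)
  filter_upwards [h2, Filter.eventually_ge_atTop 1] with n hn h1n
  simp only [Function.comp_apply, Real.norm_eq_abs, one_mul, Real.rpow_one] at hn
  rw [Real.rpow_natCast, Nat.abs_cast] at hn
  exact (le_abs_self _).trans hn

theorem tt_mono_MJB (w₀ w₁ S s : ℕ) : tt w₀ w₁ S s ≤ tt w₀ w₁ S (s + 1) := by
  unfold tt
  exact Nat.add_le_add_left (Nat.div_le_div_right (Nat.mul_le_mul_left _ (Nat.le_succ s))) _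

theorem tt_le_MJB (w₀ w₁ S s : ℕ) (hw : w₀ ≤ w₁) (hs : s ≤ S) (hS : 1 ≤ S) :
    tt w₀ w₁ S s ≤ w₁ := by
  unfold tt
  have h1 : (w₁ - w₀) * s / S ≤ w₁ - w₀ := by
    calc (w₁ - w₀) * s / S ≤ (w₁ - w₀) * S / S :=
          Nat.div_le_div_right (Nat.mul_le_mul_left _ hs)
      _ = w₁ - w₀ := Nat.mul_div_cancel _ (by omega)
  omega

/-- `1 + log₂ q ≤ 4 log M` for `q ≤ M²` -/
theorem log2_MJB (M q : ℕ) (hq : 1 ≤ q) (hqM : q ≤ M * M) (hM : 1 ≤ Real.log M) :
    (1 + (Nat.log 2 q : ℝ)) ≤ 4 * Real.log M := by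
  have hM0 : (0 : ℝ) < M := by
    rcases Nat.eq_zero_or_pos M with h | h
    · rw [h, Nat.cast_zero, Real.log_zero] at hM
      linarith
    · exact_mod_cast h
  have h1 : (2 : ℝ) ^ (Nat.log 2 q) ≤ q := by
    exact_mod_cast Nat.pow_log_le_self 2 (by omega)
  have h2 : (Nat.log 2 q : ℝ) * Real.log 2 ≤ 2 * Real.log M := by
    have h3 := Real.log_le_log (by positivity) h1
    rw [Real.log_pow] at h3
    have h4 : Real.log q ≤ Real.log ((M : ℝ) * M) := by
      refine Real.log_le_log (by exact_mod_cast hq) ?_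
      exact_mod_cast hqM
    rw [Real.log_mul hM0.ne' hM0.ne'] at h4
    linarith
  have h5 := Real.log_two_gt_d9
  have h6 : (0 : ℝ) ≤ Nat.log 2 q := Nat.cast_nonneg _
  nlinarith

/-- the norm of `∑ cf χ Gs χ` -/
theorem l2Gs_MJB (h3 : StGPV) (h4 : StPHI) (M D v : ℕ) [NeZero (D * v)]
    (𝓖 : Finset (DirichletCharacter ℂ (D * v))) (cf : DirichletCharacter ℂ (D * v) → ℂ) (h : ℤ)
    (hD : 1 ≤ D) (hv : 1 ≤ v) (hq : D * v ≤ M * M) (hM : 1 ≤ Real.log M) :
    l2 (range D) (fun j => ∑ χ ∈ 𝓖, cf χ * Gs χ (h + j * v)) ≤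
      2 * Real.log M * √(∑ χ ∈ 𝓖, ‖cf χ‖ ^ 2) := by
  have hq1 : 1 ≤ D * v := Nat.mul_pos hD hv
  have g := (h3 D v 𝓖 cf h hD hv).2
  have hphi := h4 (D * v) hq1
  have hl := log2_MJB M (D * v) hq1 hq hM
  have hφ : (0 : ℝ) < Nat.totient (D * v) := by
    exact_mod_cast Nat.totient_pos.mpr hq1
  have hr : ((D * v : ℕ) : ℝ) / Nat.totient (D * v) ≤ 4 * Real.log M := by
    rw [div_le_iff₀ hφ]
    calc ((D * v : ℕ) : ℝ) ≤ Nat.totient (D * v) * (1 + Nat.log 2 (D * v)) := hphi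
      _ ≤ Nat.totient (D * v) * (4 * Real.log M) := by gcongr
      _ = 4 * Real.log M * Nat.totient (D * v) := by ring
  have hs0 : 0 ≤ ∑ χ ∈ 𝓖, ‖cf χ‖ ^ 2 := Finset.sum_nonneg fun _ _ => sq_nonneg _
  rw [l2_le_iff _ _ _ (by positivity), mul_pow, Real.sq_sqrt hs0]
  refine g.trans ?_
  gcongr
  refine hr.trans ?_
  nlinarith

theorem hMJB (h1 : StPNU) (h2 : StSL0) (h3 : StGPV) (h4 : StPHI) : StMJB := by
  intro A p
  refine ⟨A + p + 2, fun e he => ?_⟩
  obtain ⟨x₁, hP⟩ := h1 (A + e + 3)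
  have hlog : Filter.Tendsto (fun n : ℕ => Real.log (n : ℝ)) Filter.atTop Filter.atTop :=
    Real.tendsto_log_atTop.comp tendsto_natCast_atTop_atTop
  obtain ⟨x₂, hx₂⟩ := Filter.eventually_atTop.1
    ((logpow_MJB (e + 1)).and (hlog.eventually_ge_atTop 30))
  refine ⟨max x₁ (max x₂ 1), ?_⟩
  intro M D v S _ w₀ w₁ h η hM hD hDM hv hDv hη hw hwM hS1 hS2
  have g1 : x₁ ≤ M := le_trans (le_max_left _ _) hM
  have g2 : x₂ ≤ M := le_trans (le_trans (le_max_left _ _) (le_max_right _ _)) hM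
  have g3 : 1 ≤ M := le_trans (le_trans (le_max_right _ _) (le_max_right _ _)) hM
  obtain ⟨l1, l2'⟩ := hx₂ M g2
  set L : ℝ := Real.log M with hL
  have hL0 : 0 < L := by linarith
  have hL1 : 1 ≤ L := by linarith
  have hMR : (1 : ℝ) ≤ M := by exact_mod_cast g3
  have hDR : (1 : ℝ) ≤ D := by exact_mod_cast hD
  have hvM : v ≤ M := by
    calc v = 1 * v := (one_mul v).symm
      _ ≤ (D * v) * v := Nat.mul_le_mul_right _ (Nat.mul_pos hD hv)
      _ = D * v ^ 2 := by ring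
      _ ≤ M := hDv
  have hS3 : S ≤ M := by
    have : (S : ℝ) ≤ M := hS2.trans l1
    exact_mod_cast this
  have hSpos : (1 : ℝ) ≤ S := (one_le_pow₀ hL1).trans hS1
  have hS4 : 1 ≤ S := by exact_mod_cast hSpos
  have hMX : M ≤ D * M := Nat.le_mul_of_pos_left M (by omega)
  have hlX : L ≤ Real.log ((D * M : ℕ) : ℝ) := by
    refine Real.log_le_log (by linarith) ?_
    exact_mod_cast hMX
  set X : ℝ := (D : ℝ) * M with hX
  have hX0 : 0 ≤ X := by positivity
  set P : ℕ → ℂ := fun s => Psi (1 : DirichletCharacter ℂ (D * v)) (tt w₀ w₁ S s)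
    (tt w₀ w₁ S (s + 1)) with hPdef
  set G : ℕ → ℂ := fun j => Gs (1 : DirichletCharacter ℂ (D * v)) (h + j * v) with hG
  -- the coefficient
  have hcoef : ‖∑ s ∈ range S, ex (tt w₀ w₁ S s * (η / D)) * P s - c0 D w₀ w₁ η‖ ≤
      15 * (X / L ^ (A + 2)) := by
    have t1 := h2 M D S w₀ w₁ η g3 hD hS4 (hS3.trans hMX) hw hwM
    have t2 : ‖∑ s ∈ range S, ex (tt w₀ w₁ S s * (η / D)) *
        (P s - (((tt w₀ w₁ S (s + 1) : ℕ) : ℂ) - (tt w₀ w₁ S s : ℕ)))‖ ≤ X / L ^ (A + 2) := by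
      calc _ ≤ ∑ s ∈ range S, X / L ^ (A + e + 3) := by
            refine norm_sum_le_of_le _ fun s hs => ?_
            rw [Finset.mem_range] at hs
            rw [norm_mul, norm_ex, one_mul]
            have hPs := hP (D * v) (D * M) (tt w₀ w₁ S s) (tt w₀ w₁ S (s + 1)) (g1.trans hMX)
              (Nat.mul_le_mul_left D hvM) (tt_mono_MJB _ _ _ _)
              ((tt_le_MJB _ _ _ _ hw hs hS4).trans hwM)
            refine hPs.trans ?_
            rw [hX]
            push_cast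
            have hlX' : L ≤ Real.log ((D : ℝ) * M) := by
              have := hlX
              push_cast at this
              exact this
            gcongr
        _ = S * (X / L ^ (A + e + 3)) := by
            rw [Finset.sum_const, Finset.card_range, nsmul_eq_mul]
        _ ≤ L ^ (e + 1) * (X / L ^ (A + e + 3)) := by gcongr
        _ = X / L ^ (A + 2) := by
            rw [show A + e + 3 = (e + 1) + (A + 2) by ring, pow_add]
            field_simp
            ring
    have t3 : (D * M : ℝ) * (4 * Real.pi * |η| * M / S) ≤ 14 * (X / L ^ (A + 2)) := by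
      have hpi : Real.pi ≤ 3.2 := by
        have := Real.pi_lt_d2
        linarith
      have e1 : 4 * Real.pi * |η| * M / S ≤ 14 / L ^ (A + 2) := by
        rw [div_le_div_iff₀ (by linarith) (by positivity)]
        have e2 : L ^ p * L ^ (A + 2) ≤ S := by
          rw [← pow_add]
          refine (pow_le_pow_right₀ hL1 ?_).trans hS1
          omega
        have e3 : 0 ≤ |η| := abs_nonneg _
        calc 4 * Real.pi * |η| * M * L ^ (A + 2) = 4 * Real.pi * (|η| * M) * L ^ (A + 2) := by ring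
          _ ≤ 4 * 3.2 * (L ^ p) * L ^ (A + 2) := by gcongr
          _ = 4 * 3.2 * (L ^ p * L ^ (A + 2)) := by ring
          _ ≤ 4 * 3.2 * S := by gcongr
          _ ≤ 14 * S := by nlinarith
      calc (D * M : ℝ) * (4 * Real.pi * |η| * M / S) ≤ X * (14 / L ^ (A + 2)) := by gcongr
        _ = 14 * (X / L ^ (A + 2)) := by ring
    have t4 : ∑ s ∈ range S, ex (tt w₀ w₁ S s * (η / D)) * P s - c0 D w₀ w₁ η =
        ∑ s ∈ range S, ex (tt w₀ w₁ S s * (η / D)) *
          (P s - (((tt w₀ w₁ S (s + 1) : ℕ) : ℂ) - (tt w₀ w₁ S s : ℕ))) +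
        (∑ s ∈ range S, ex (tt w₀ w₁ S s * (η / D)) *
          (((tt w₀ w₁ S (s + 1) : ℕ) : ℂ) - (tt w₀ w₁ S s : ℕ)) - c0 D w₀ w₁ η) := by
      rw [← add_sub_assoc, ← Finset.sum_add_distrib]
      congr 1
      refine Finset.sum_congr rfl fun s _ => ?_
      ring
    rw [t4]
    refine (norm_add_le _ _).trans ?_
    have t5 := t1.trans t3
    linarith
  -- the norm of `Gs 1`
  have hGn : l2 (range D) G ≤ 2 * L := by
    have := l2Gs_MJB h3 h4 M D v {1} (fun _ => 1) h hD hv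
      (Nat.mul_le_mul hDM hvM) hL1
    simp only [Finset.sum_singleton, one_mul, norm_one, one_pow, Real.sqrt_one, mul_one] at this
    exact this
  have hfun : ∀ j : ℕ, (∑ s ∈ range S, ex (tt w₀ w₁ S s * (η / D)) * (P s * G j) -
      c0 D w₀ w₁ η * G j) =
      (∑ s ∈ range S, ex (tt w₀ w₁ S s * (η / D)) * P s - c0 D w₀ w₁ η) * G j := by
    intro j
    rw [sub_mul, Finset.sum_mul]
    congr 1
    refine Finset.sum_congr rfl fun s _ => ?_
    ring
  have hmain : l2 (range D) (fun j : ℕ => ∑ s ∈ range S, ex (tt w₀ w₁ S s * (η / D)) * (P s * G j) -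
      c0 D w₀ w₁ η * G j) ≤ X / L ^ A := by
    rw [l2_congr _ _ _ (fun j _ => hfun j), l2_smul]
    calc ‖∑ s ∈ range S, ex (tt w₀ w₁ S s * (η / D)) * P s - c0 D w₀ w₁ η‖ * l2 (range D) G
        ≤ (15 * (X / L ^ (A + 2))) * (2 * L) := by
          refine mul_le_mul hcoef hGn (l2_nonneg _ _) (by positivity)
      _ = (30 / L) * (X / L ^ A) := by
          rw [pow_add]
          field_simp
          ring
      _ ≤ 1 * (X / L ^ A) := by
          have : 30 / L ≤ 1 := by
            rw [div_le_one hL0]; exact l2'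
          gcongr
      _ = X / L ^ A := one_mul _
  exact hmain

end Pool.Agent.Helper49.PC
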