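import Pool.Agent.Helper49.PC.StM2
import Pool.Agent.Helper49.PC.M_MJB

/-!
# Project PC: module MJC (nonprincipal characters on the major arcs)
-/

set_option autoImplicit false

namespace Pool.Agent.Helper49.PC

open Finset ArithmeticFunction Classical
open Pool.Agent.Helper48.BK (ex th lz Vz Pz gs nd Apx AdN Sol thd)
open scoped ComplexConjugate

/-- trivial bound for `Psi` -/
theorem Psi_le_MJC {q : ℕ} (χ : DirichletCharacter ℂ q) (X a b : ℕ) (hab : a ≤ b) (hb : b ≤ X)
    (hX : 1 ≤ X) : ‖Psi χ a b‖ ≤ ((b : ℝ) - a) * Real.log X := by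
  unfold Psi
  calc _ ≤ ∑ _n ∈ Ioc a b, Real.log X := by
        refine norm_sum_le_of_le _ fun n hn => ?_
        rw [Finset.mem_Ioc] at hn
        rw [norm_mul]
        have h1 : ‖((Λ n : ℝ) : ℂ)‖ ≤ Real.log X := by
          rw [Complex.norm_real, Real.norm_of_nonneg vonMangoldt_nonneg]
          refine vonMangoldt_le_log.trans (Real.log_le_log ?_ ?_)
          · exact_mod_cast (by omega : 0 < n)
          · exact_mod_cast hn.2.trans hb
        have h2 : ‖χ (n : ZMod q)‖ ≤ 1 := DirichletCharacter.norm_le_one χ _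
        calc ‖((Λ n : ℝ) : ℂ)‖ * ‖χ (n : ZMod q)‖ ≤ Real.log X * 1 := by
              refine mul_le_mul h1 h2 (norm_nonneg _) ?_
              exact Real.log_nonneg (by exact_mod_cast hX)
          _ = Real.log X := mul_one _
    _ = ((b : ℝ) - a) * Real.log X := by
        rw [Finset.sum_const, Nat.card_Ioc, nsmul_eq_mul, Nat.cast_sub hab]

theorem hMJC (h1 : StLMG) (h2 : StPS2) (h3 : StSWC) (h4 : StGPV) (h5 : StPHI) : StMJC := by
  intro A e
  obtain ⟨A', x₁, hLMG⟩ := h1 (2 * (A + e + 4))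
  refine ⟨2 * A' + e + 4, fun B => ?_⟩
  obtain ⟨x₂, hSWC⟩ := h3 A' B
  have hlog : Filter.Tendsto (fun n : ℕ => Real.log (n : ℝ)) Filter.atTop Filter.atTop :=
    Real.tendsto_log_atTop.comp tendsto_natCast_atTop_atTop
  obtain ⟨x₃, hx₃⟩ := Filter.eventually_atTop.1
    ((hlog.eventually_ge_atTop 2).and (hlog.eventually_ge_atTop ((2 : ℝ) ^ (2 * A' + 3))))
  refine ⟨max (max x₁ x₂) (max x₃ 1), ?_⟩
  intro M D v S _ w₀ w₁ h η hM hD hDM hv hDv hS hS2 hw32 hw hwM
  have g1 : x₁ ≤ M := le_trans (le_trans (le_max_left _ _) (le_max_left _ _)) hM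
  have g2 : x₂ ≤ M := le_trans (le_trans (le_max_right _ _) (le_max_left _ _)) hM
  have g3 : x₃ ≤ M := le_trans (le_trans (le_max_left _ _) (le_max_right _ _)) hM
  have g4 : 1 ≤ M := le_trans (le_trans (le_max_right _ _) (le_max_right _ _)) hM
  obtain ⟨l2', l3⟩ := hx₃ M g3
  set L : ℝ := Real.log M with hL
  have hL0 : 0 < L := by linarith
  have hL1 : 1 ≤ L := by linarith
  have hMR : (1 : ℝ) ≤ M := by exact_mod_cast g4
  have hDR : (1 : ℝ) ≤ D := by exact_mod_cast hD
  have hvM : v ≤ M := by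
    calc v = 1 * v := (one_mul v).symm
      _ ≤ (D * v) * v := Nat.mul_le_mul_right _ (Nat.mul_pos hD hv)
      _ = D * v ^ 2 := by ring
      _ ≤ M := hDv
  have hMX : M ≤ D * M := Nat.le_mul_of_pos_left M (by omega)
  have hX1 : 1 ≤ D * M := g4.trans hMX
  have hqX : D * v ≤ D * M := Nat.mul_le_mul_left D hvM
  have hq2 : (D * v) ^ 2 ≤ D * M := by
    calc (D * v) ^ 2 = D * (D * v ^ 2) := by ring
      _ ≤ D * M := Nat.mul_le_mul_left D hDv
  set X : ℝ := ((D * M : ℕ) : ℝ) with hX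
  have hXe : X = (D : ℝ) * M := by rw [hX]; push_cast; rfl
  have hX0 : 0 < X := by
    rw [hXe]; positivity
  set ℓ : ℝ := Real.log X with hℓ
  have hlX : L ≤ ℓ := by
    refine Real.log_le_log (by linarith) ?_
    rw [hX]
    exact_mod_cast hMX
  have hlX2 : ℓ ≤ 2 * L := by
    have : Real.log X ≤ Real.log ((M : ℝ) * M) := by
      refine Real.log_le_log hX0 ?_
      rw [hXe]
      have : (D : ℝ) ≤ M := by exact_mod_cast hDM
      gcongr
    rw [Real.log_mul (by linarith) (by linarith)] at this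
    linarith
  have hℓ1 : 1 ≤ ℓ := hL1.trans hlX
  have hℓ0 : 0 < ℓ := by linarith
  set t : ℕ → ℕ := tt w₀ w₁ S with ht
  have ht1 : ∀ s, t s ≤ t (s + 1) := fun s => tt_mono_MJB _ _ _ _
  have ht2 : ∀ s, s ≤ S → t s ≤ D * M := fun s hs => (tt_le_MJB _ _ _ _ hw hs hS).trans hwM
  have ht3 : ∀ s, w₀ ≤ t s := fun s => Nat.le_add_right _ _
  set 𝓧 : Finset (DirichletCharacter ℂ (D * v)) := univ.filter (fun χ => χ ≠ 1 ∧
    ∃ s < S, X / ℓ ^ A' < ‖Psi χ (t s) (t (s + 1))‖) with h𝓧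
  set cf : DirichletCharacter ℂ (D * v) → ℂ := fun χ => ∑ s ∈ range S,
    ex (t s * (η / D)) * Psi χ (t s) (t (s + 1)) with hcf
  have mem𝓧 : ∀ χ, χ ∈ 𝓧 ↔ χ ≠ 1 ∧ ∃ s < S, X / ℓ ^ A' < ‖Psi χ (t s) (t (s + 1))‖ := by
    intro χ
    rw [h𝓧, Finset.mem_filter]
    simp only [Finset.mem_univ, true_and]
  refine ⟨𝓧, cf, ?_, ?_, ?_, ?_⟩
  · rw [mem𝓧]
    exact fun hh => hh.1 rfl
  · -- the number of characters
    have e1 : (𝓧.card : ℝ) * (X / ℓ ^ A') ^ 2 ≤ S * (2 * X ^ 2 * ℓ ^ 2) := by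
      calc (𝓧.card : ℝ) * (X / ℓ ^ A') ^ 2 = ∑ _χ ∈ 𝓧, (X / ℓ ^ A') ^ 2 := by
            rw [Finset.sum_const, nsmul_eq_mul]
        _ ≤ ∑ χ ∈ 𝓧, ∑ s ∈ range S, ‖Psi χ (t s) (t (s + 1))‖ ^ 2 := by
            refine Finset.sum_le_sum fun χ hχ => ?_
            obtain ⟨_, s, hs, hb⟩ := (mem𝓧 χ).mp hχ
            refine le_trans ?_ (Finset.single_le_sum
              (f := fun s => ‖Psi χ (t s) (t (s + 1))‖ ^ 2) (fun _ _ => sq_nonneg _)
              (Finset.mem_range.mpr hs))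
            exact pow_le_pow_left₀ (by positivity) hb.le 2
        _ ≤ ∑ χ : DirichletCharacter ℂ (D * v), ∑ s ∈ range S,
              ‖Psi χ (t s) (t (s + 1))‖ ^ 2 := by
            refine Finset.sum_le_sum_of_subset_of_nonneg (Finset.subset_univ _) ?_
            exact fun _ _ _ => Finset.sum_nonneg fun _ _ => sq_nonneg _
        _ = ∑ s ∈ range S, ∑ χ : DirichletCharacter ℂ (D * v),
              ‖Psi χ (t s) (t (s + 1))‖ ^ 2 := Finset.sum_comm
        _ ≤ ∑ _s ∈ range S, 2 * X ^ 2 * ℓ ^ 2 := by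
            refine Finset.sum_le_sum fun s hs => ?_
            rw [Finset.mem_range] at hs
            exact h2 (D * v) (D * M) (t s) (t (s + 1)) hX1 hqX (ht2 _ (by omega))
        _ = S * (2 * X ^ 2 * ℓ ^ 2) := by
            rw [Finset.sum_const, Finset.card_range, nsmul_eq_mul]
    have e2 : (𝓧.card : ℝ) ≤ S * (2 * ℓ ^ (2 * A' + 2)) := by
      have e3 : (𝓧.card : ℝ) * (X / ℓ ^ A') ^ 2 ≤ (S * (2 * ℓ ^ (2 * A' + 2))) *
          (X / ℓ ^ A') ^ 2 := by
        refine e1.trans (le_of_eq ?_)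
        rw [div_pow, show 2 * A' + 2 = A' * 2 + 2 by ring, pow_add, ← pow_mul]
        field_simp
      exact le_of_mul_le_mul_right e3 (by positivity)
    refine e2.trans ?_
    calc (S : ℝ) * (2 * ℓ ^ (2 * A' + 2)) ≤ L ^ (e + 1) * (2 * (2 * L) ^ (2 * A' + 2)) := by gcongr
      _ = 2 ^ (2 * A' + 3) * L ^ (2 * A' + e + 3) := by
          rw [mul_pow]
          rw [show 2 * A' + 3 = (2 * A' + 2) + 1 by ring, pow_succ (2 : ℝ),
            show 2 * A' + e + 3 = (e + 1) + (2 * A' + 2) by ring, pow_add L]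
          ring
      _ ≤ L * L ^ (2 * A' + e + 3) := by gcongr
      _ = L ^ (2 * A' + e + 4) := by
          rw [show 2 * A' + e + 4 = (2 * A' + e + 3) + 1 by ring, pow_succ L (2 * A' + e + 3)]
          ring
  · intro χ hχ
    obtain ⟨hne, s, hs, hb⟩ := (mem𝓧 χ).mp hχ
    constructor
    · intro d hd
      by_contra hcon
      push Not at hcon
      have := hSWC (D * v) χ (D * M) (t s) (t (s + 1)) d (g2.trans hMX) hqX (ht1 s)
        (ht2 _ (by omega)) hne hd (hcon.trans (pow_le_pow_left₀ hL0.le hlX B))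
      exact absurd this (not_le.mpr hb)
    · rw [hcf]
      calc ‖∑ s ∈ range S, ex (t s * (η / D)) * Psi χ (t s) (t (s + 1))‖
          ≤ ∑ s ∈ range S, (((t (s + 1) : ℕ) : ℝ) - (t s : ℕ)) * ℓ := by
            refine norm_sum_le_of_le _ fun s hs => ?_
            rw [Finset.mem_range] at hs
            rw [norm_mul, norm_ex, one_mul]
            exact Psi_le_MJC χ (D * M) (t s) (t (s + 1)) (ht1 s) (ht2 _ (by omega)) hX1
        _ = (((t S : ℕ) : ℝ) - (t 0 : ℕ)) * ℓ := by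
            rw [← Finset.sum_mul, Finset.sum_range_sub (fun s => ((t s : ℕ) : ℝ))]
        _ ≤ X * ℓ := by
            gcongr
            have e1 : ((t S : ℕ) : ℝ) ≤ X := by
              rw [hX]; exact_mod_cast ht2 S le_rfl
            have e2 : (0 : ℝ) ≤ (t 0 : ℕ) := Nat.cast_nonneg _
            linarith
        _ ≤ X * (2 * L) := by gcongr
        _ ≤ X * L ^ 2 := by
            gcongr
            nlinarith
        _ = D * M * L ^ 2 := by rw [hXe]
  · -- the remaining characters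
    set 𝓨 : Finset (DirichletCharacter ℂ (D * v)) :=
      ((univ : Finset (DirichletCharacter ℂ (D * v))).filter (· ≠ 1)) \ 𝓧 with h𝓨
    have hsub : 𝓧 ⊆ (univ : Finset (DirichletCharacter ℂ (D * v))).filter (· ≠ 1) := by
      intro χ hχ
      rw [Finset.mem_filter]
      exact ⟨Finset.mem_univ _, ((mem𝓧 χ).mp hχ).1⟩
    have hfun : ∀ j : ℕ, (∑ s ∈ range S, ex (t s * (η / D)) *
        ∑ χ ∈ (univ : Finset (DirichletCharacter ℂ (D * v))).filter (· ≠ 1),
          Psi χ (t s) (t (s + 1)) * Gs χ (h + j * v) -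
        ∑ χ ∈ 𝓧, cf χ * Gs χ (h + j * v)) =
        ∑ s ∈ range S, ex (t s * (η / D)) *
          ∑ χ ∈ 𝓨, Psi χ (t s) (t (s + 1)) * Gs χ (h + j * v) := by
      intro j
      have e1 : ∑ χ ∈ 𝓧, cf χ * Gs χ (h + j * v) = ∑ s ∈ range S, ex (t s * (η / D)) *
          ∑ χ ∈ 𝓧, Psi χ (t s) (t (s + 1)) * Gs χ (h + j * v) := by
        rw [hcf]
        simp only [Finset.sum_mul, Finset.mul_sum]
        rw [Finset.sum_comm]
        refine Finset.sum_congr rfl fun s _ => Finset.sum_congr rfl fun χ _ => ?_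
        ring
      rw [e1, ← Finset.sum_sub_distrib]
      refine Finset.sum_congr rfl fun s _ => ?_
      rw [← mul_sub]
      congr 1
      rw [h𝓨, ← Finset.sum_sdiff hsub]
      ring
    rw [l2_congr _ _ _ (fun j _ => hfun j)]
    refine (l2_sum_le (range D) (range S) (fun s (j : ℕ) => ex (t s * (η / D)) *
          ∑ χ ∈ 𝓨, Psi χ (t s) (t (s + 1)) * Gs χ (h + j * v))).trans ?_
    calc ∑ s ∈ range S, l2 (range D) (fun j : ℕ => ex (t s * (η / D)) *
          ∑ χ ∈ 𝓨, Psi χ (t s) (t (s + 1)) * Gs χ (h + j * v))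
        ≤ ∑ _s ∈ range S, 2 * L * (X / L ^ (A + e + 4)) := by
          refine Finset.sum_le_sum fun s hs => ?_
          rw [Finset.mem_range] at hs
          rw [l2_smul, norm_ex, one_mul]
          refine (l2Gs_MJB h4 h5 M D v 𝓨 (fun χ => Psi χ (t s) (t (s + 1))) h hD hv
            (Nat.mul_le_mul hDM hvM) hL1).trans ?_
          refine mul_le_mul_of_nonneg_left ?_ (by positivity)
          have e2 := hLMG (D * v) (D * M) (t s) (t (s + 1)) 𝓨 (g1.trans hMX) hq2
            (hw32.trans (Nat.mul_le_mul_left 32 (ht3 s))) (ht1 s) (ht2 _ (by omega)) (by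
              intro χ hχ
              rw [h𝓨, Finset.mem_sdiff, Finset.mem_filter] at hχ
              refine ⟨hχ.1.2, ?_⟩
              by_contra hcon
              push Not at hcon
              exact hχ.2 ((mem𝓧 χ).mpr ⟨hχ.1.2, s, hs, hcon⟩))
          rw [Real.sqrt_le_left (by positivity)]
          refine e2.trans ?_
          have e3 : X ^ 2 / ℓ ^ (2 * (A + e + 4)) = (X / ℓ ^ (A + e + 4)) ^ 2 := by
            rw [div_pow, ← pow_mul, mul_comm 2]
          rw [e3]
          gcongr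
      _ = S * (2 * L * (X / L ^ (A + e + 4))) := by
          rw [Finset.sum_const, Finset.card_range, nsmul_eq_mul]
      _ ≤ L ^ (e + 1) * (2 * L * (X / L ^ (A + e + 4))) := by gcongr
      _ = 2 / L ^ 2 * (X / L ^ A) := by
          rw [show A + e + 4 = (e + 1) + 3 + A by ring, pow_add, pow_add]
          field_simp
          ring
      _ ≤ 1 * (X / L ^ A) := by
          have : 2 / L ^ 2 ≤ 1 := by
            rw [div_le_one (by positivity)]
            nlinarith
          gcongr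
      _ = (D : ℝ) * M / L ^ A := by rw [one_mul, hXe]

end Pool.Agent.Helper49.PC
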