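import Pool.Agent.Helper49.PC.StE

/-!
# Project PC: module MJRE (comparison at a major point, small pairwise gcds)
-/

set_option autoImplicit false

namespace Pool.Agent.Helper49.PC

open Finset ArithmeticFunction
open Pool.Agent.Helper48.BK (ex th lz Vz Pz gs nd Apx AdN Sol thd)
open scoped ComplexConjugate

/-- the norm of the exponential sum of a bounded function -/
private theorem l2_Sj_MJRE (h1 : StTRV) (f : ℕ → ℝ) (w₀ w₁ D M : ℕ) (θ L G : ℝ) (hD : 1 ≤ D)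
    (hM : 1 ≤ M) (hf : ∀ n, 1 ≤ n → n ≤ D * M → |f n| ≤ G)
    (hL : 2 * G ^ 2 ≤ L ^ 4) : l2 (range D) (Sj (cut f w₀ w₁) (D * M) D θ) ≤ D * M * L ^ 2 := by
  rw [l2_le_iff _ _ _ (by positivity)]
  have h := h1 (fun n => ((cut f w₀ w₁ n : ℝ) : ℂ)) (D * M) D θ hD
  have e : ∑ i ∈ range D, ‖Sj (cut f w₀ w₁) (D * M) D θ i‖ ^ 2 =
      NN (fun n => ((cut f w₀ w₁ n : ℝ) : ℂ)) (D * M) D θ := rfl
  rw [e]
  refine h.trans ?_
  have hs : ∑ n ∈ Ioc 0 (D * M), ‖((cut f w₀ w₁ n : ℝ) : ℂ)‖ ^ 2 ≤ ((D : ℝ) * M) * G ^ 2 := by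
    have h2 : ∀ n ∈ Ioc 0 (D * M), ‖((cut f w₀ w₁ n : ℝ) : ℂ)‖ ^ 2 ≤ G ^ 2 := by
      intro n hn
      rw [Finset.mem_Ioc] at hn
      rw [Complex.norm_real, Real.norm_eq_abs]
      unfold cut
      split_ifs
      · exact pow_le_pow_left₀ (abs_nonneg _) (hf n hn.1 hn.2) 2
      · rw [abs_zero]
        nlinarith [sq_nonneg G]
    refine (Finset.sum_le_sum h2).trans (le_of_eq ?_)
    rw [Finset.sum_const, Nat.card_Ioc, Nat.sub_zero, nsmul_eq_mul]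
    push_cast
    ring
  have hD' : (1 : ℝ) ≤ D := by exact_mod_cast hD
  have hM' : (1 : ℝ) ≤ M := by exact_mod_cast hM
  have hDM : (D : ℝ) ≤ D * M := by nlinarith
  have h3 : (((D * M : ℕ) : ℝ) + D) ≤ 2 * ((D : ℝ) * M) := by
    push_cast
    linarith
  have h4 : 0 ≤ ∑ n ∈ Ioc 0 (D * M), ‖((cut f w₀ w₁ n : ℝ) : ℂ)‖ ^ 2 :=
    Finset.sum_nonneg fun _ _ => sq_nonneg _
  calc (((D * M : ℕ) : ℝ) + D) * ∑ n ∈ Ioc 0 (D * M), ‖((cut f w₀ w₁ n : ℝ) : ℂ)‖ ^ 2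
      ≤ (2 * ((D : ℝ) * M)) * (((D : ℝ) * M) * G ^ 2) := mul_le_mul h3 hs h4 (by positivity)
    _ = ((D : ℝ) * M) ^ 2 * (2 * G ^ 2) := by ring
    _ ≤ ((D : ℝ) * M) ^ 2 * L ^ 4 := by
        apply mul_le_mul_of_nonneg_left hL
        positivity
    _ = ((D : ℝ) * M * L ^ 2) ^ 2 := by ring

private theorem c0_le_MJRE (D w₀ w₁ X : ℕ) (η : ℝ) (h : w₁ ≤ X) : ‖c0 D w₀ w₁ η‖ ≤ X := by
  unfold c0
  refine (norm_sum_le _ _).trans ?_
  have : ∑ n ∈ Ioc w₀ w₁, ‖ex (n * (η / D))‖ = ((w₁ - w₀ : ℕ) : ℝ) := by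
    rw [Finset.sum_congr rfl fun n _ => norm_ex _]
    simp
  rw [this]
  exact_mod_cast (Nat.sub_le _ _).trans h

private theorem per_MJRE (h6 : StGUN) (D v : ℕ) [NeZero (D * v)] (h : ℤ)
    (𝓧 : Finset (DirichletCharacter ℂ (D * v))) (cf : DirichletCharacter ℂ (D * v) → ℂ) (c : ℂ)
    (j : ℕ) :
    c * Gs (1 : DirichletCharacter ℂ (D * v)) (h + (j + D : ℕ) * v) =
      c * Gs (1 : DirichletCharacter ℂ (D * v)) (h + j * v) ∧
    c * Gs (1 : DirichletCharacter ℂ (D * v)) (h + (j + D : ℕ) * v) +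
      ∑ χ ∈ 𝓧, cf χ * Gs χ (h + (j + D : ℕ) * v) =
      c * Gs (1 : DirichletCharacter ℂ (D * v)) (h + j * v) +
        ∑ χ ∈ 𝓧, cf χ * Gs χ (h + j * v) := by
  have e : ∀ χ : DirichletCharacter ℂ (D * v), Gs χ (h + (j + D : ℕ) * v) = Gs χ (h + j * v) := by
    intro χ
    have h1 := (h6 (D * v) χ).1 (h + j * v)
    rw [← h1]
    congr 1
    push_cast
    ring
  refine ⟨by rw [e], ?_⟩
  rw [e, Finset.sum_congr rfl fun χ _ => by rw [e χ]]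

/-- `log` is smaller than the identity, with constants -/
private theorem log_small_MJRE (C : ℝ) (hC : 0 ≤ C) :
    ∀ L : ℝ, (2 * C) ^ 2 + 1 ≤ L → C * Real.log L ≤ L := by
  intro L hL
  have hL0 : 0 < L := by nlinarith [sq_nonneg (2 * C)]
  have h1 : Real.log L = 2 * Real.log (√L) := by
    rw [Real.log_sqrt hL0.le]
    ring
  have h2 : Real.log (√L) ≤ √L := (Real.log_le_sub_one_of_pos (Real.sqrt_pos.mpr hL0)).trans
    (by linarith)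
  have h3 : 2 * C ≤ √L := by
    apply Real.le_sqrt_of_sq_le
    linarith
  have h4 : √L * √L = L := Real.mul_self_sqrt hL0.le
  have h5 : 0 ≤ √L := Real.sqrt_nonneg _
  rw [h1]
  nlinarith

private theorem win_MJRE (D Z k₀ k₁ : ℕ) (h1 : 16 ≤ 32 * k₀) (h2 : k₀ ≤ k₁) (h3 : k₁ ≤ 16) :
    D * (16 * Z) ≤ 32 * (k₀ * D * Z) ∧ k₀ * D * Z ≤ k₁ * D * Z ∧ k₁ * D * Z ≤ D * (16 * Z) := by
  have e1 : D * (16 * Z) = 16 * (D * Z) := by ring
  have e2 : 32 * (k₀ * D * Z) = 32 * k₀ * (D * Z) := by ring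
  have e3 : k₀ * D * Z = k₀ * (D * Z) := by ring
  have e4 : k₁ * D * Z = k₁ * (D * Z) := by ring
  rw [e1, e2, e3, e4]
  exact ⟨Nat.mul_le_mul_right _ h1, Nat.mul_le_mul_right _ h2, Nat.mul_le_mul_right _ h3⟩

private theorem num1_MJRE (A : ℕ) (N D₁ D₂ D₃ M L : ℝ) (hN : D₁ * D₂ * D₃ = N ^ 2) (hL : 30 ≤ L)
    (hM : 0 ≤ M) : 14 * (1 / L ^ (A + 7)) * (D₁ * M * L ^ 2) * (D₂ * M * L ^ 2) *
      (D₃ * M * L ^ 2) ≤ N ^ 2 * M ^ 3 / L ^ A / 2 := by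
  have hL0 : 0 < L := by linarith
  have e : 14 * (1 / L ^ (A + 7)) * (D₁ * M * L ^ 2) * (D₂ * M * L ^ 2) *
      (D₃ * M * L ^ 2) = 14 / L * (N ^ 2 * M ^ 3 / L ^ A) := by
    rw [← hN, pow_add]
    field_simp
  rw [e]
  have h14 : 14 / L ≤ 1 / 2 := by
    rw [div_le_div_iff₀ hL0 (by norm_num)]
    linarith
  have hW : 0 ≤ N ^ 2 * M ^ 3 / L ^ A := by positivity
  nlinarith

private theorem num3_MJRE (A C : ℕ) (N M L r : ℝ) (hL : 30 ≤ L)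
    (hM : 0 ≤ M) (hr : r ≤ 1 / L ^ (3 * C + A + 7)) :
    8 * (L ^ C) ^ 3 * N ^ 2 * (M * L ^ 2) ^ 3 * r ≤ N ^ 2 * M ^ 3 / L ^ A / 2 := by
  have hL0 : 0 < L := by linarith
  have h1 : 8 * (L ^ C) ^ 3 * N ^ 2 * (M * L ^ 2) ^ 3 * r ≤
      8 * (L ^ C) ^ 3 * N ^ 2 * (M * L ^ 2) ^ 3 * (1 / L ^ (3 * C + A + 7)) :=
    mul_le_mul_of_nonneg_left hr (by positivity)
  refine h1.trans ?_
  have e : 8 * (L ^ C) ^ 3 * N ^ 2 * (M * L ^ 2) ^ 3 * (1 / L ^ (3 * C + A + 7)) =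
      8 / L * (N ^ 2 * M ^ 3 / L ^ A) := by
    rw [← pow_mul L C 3, mul_comm C 3, pow_add, pow_add]
    field_simp
  rw [e]
  have h8 : 8 / L ≤ 1 / 2 := by
    rw [div_le_div_iff₀ hL0 (by norm_num)]
    linarith
  have hW : 0 ≤ N ^ 2 * M ^ 3 / L ^ A := by positivity
  nlinarith

private theorem root_MJRE (A C p K : ℕ) (L v g l : ℝ) (hL : 30 ≤ L) (hv0 : 0 ≤ v) (hg0 : 0 ≤ g)
    (hl0 : 0 ≤ l) (hv : v ≤ L ^ p) (hg : g ≤ L ^ K) (hl : l ≤ L ^ 2) :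
    √(v ^ 2 * g * l ^ 5 / L ^ (2 * p + K + 10 + 2 * (3 * C + A + 7))) ≤
      1 / L ^ (3 * C + A + 7) := by
  have hL0 : 0 < L := by linarith
  apply Real.sqrt_le_iff.mpr
  refine ⟨by positivity, ?_⟩
  rw [div_le_iff₀ (by positivity)]
  have e1 : (1 / L ^ (3 * C + A + 7)) ^ 2 * L ^ (2 * p + K + 10 + 2 * (3 * C + A + 7)) =
      L ^ (2 * p + K + 10) := by
    rw [pow_add L (2 * p + K + 10), mul_comm 2 (3 * C + A + 7), pow_mul L (3 * C + A + 7) 2]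
    field_simp
  rw [e1]
  have e2 : L ^ (2 * p + K + 10) = (L ^ p) ^ 2 * L ^ K * (L ^ 2) ^ 5 := by
    rw [← pow_mul, ← pow_mul, ← pow_add, ← pow_add]
    congr 1
    ring
  rw [e2]
  have g1 : v ^ 2 ≤ (L ^ p) ^ 2 := pow_le_pow_left₀ hv0 hv 2
  have g2 : l ^ 5 ≤ (L ^ 2) ^ 5 := pow_le_pow_left₀ hl0 hl 5
  exact mul_le_mul (mul_le_mul g1 hg hg0 (by positivity)) g2 (by positivity)
    (by positivity)

private theorem log_MJRE (a b c v M : ℕ) (L : ℝ) (hL : L = Real.log M) (hL30 : 30 ≤ L)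
    (ha : 1 ≤ a) (hb : 1 ≤ b) (hc : 1 ≤ c) (hv : 1 ≤ v) (hv1 : b * c * v ^ 2 ≤ M)
    (hv2 : a * c * v ^ 2 ≤ M) : 1 + (Nat.log 2 (a * b * c * v) : ℝ) ≤ L ^ 2 := by
  have hbc : 1 ≤ b * c := Nat.mul_pos hb hc
  have hvM : v ≤ M := by
    have : v ≤ b * c * v ^ 2 := by nlinarith [Nat.mul_pos hbc (by omega : 0 < v)]
    exact this.trans hv1
  have hbcM : b * c ≤ M := (Nat.le_mul_of_pos_right _ (pow_pos (by omega) 2)).trans hv1
  have hacM : a * c ≤ M := (Nat.le_mul_of_pos_right _ (pow_pos (by omega) 2)).trans hv2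
  have habc : a * b * c ≤ M ^ 2 := by
    have e1 : a * b * c ≤ (b * c) * (a * c) := by
      have : (b * c) * (a * c) = (a * b * c) * c := by ring
      rw [this]
      exact Nat.le_mul_of_pos_right _ (by omega)
    refine e1.trans ?_
    rw [pow_two]
    exact Nat.mul_le_mul hbcM hacM
  have h3 : a * b * c * v ≤ M ^ 3 := by
    rw [pow_succ]
    exact Nat.mul_le_mul habc hvM
  have hpos : 0 < a * b * c * v :=
    Nat.mul_pos (Nat.mul_pos (Nat.mul_pos (by omega) (by omega)) (by omega)) (by omega)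
  have e1 : ((Nat.log 2 (a * b * c * v) : ℕ) : ℝ) ≤ Real.logb 2 ((a * b * c * v : ℕ) : ℝ) := by
    exact_mod_cast Real.natLog_le_logb (a * b * c * v) 2
  have e2 : Real.logb 2 ((a * b * c * v : ℕ) : ℝ) ≤ 5 * L := by
    rw [Real.logb, div_le_iff₀ (Real.log_pos (by norm_num))]
    have e3 : Real.log ((a * b * c * v : ℕ) : ℝ) ≤ 3 * L := by
      have := Real.log_le_log (by exact_mod_cast hpos)
        (show ((a * b * c * v : ℕ) : ℝ) ≤ (M : ℝ) ^ 3 by exact_mod_cast h3)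
      rw [Real.log_pow, ← hL] at this
      exact_mod_cast this
    nlinarith [Real.log_two_gt_d9]
  nlinarith

/-- MJRE. -/
theorem hMJRE (h1 : StTRV) (h2 : StMJT) (h3 : StMJZ) (h4 : StCMPE) (h5 : StCHSE) (h6 : StGUN)
    (h7 : StSJP) (h8 : StLZB) : StMJRE := by
  intro A p K
  obtain ⟨C, hC⟩ := h2 (A + K + 5) p
  obtain ⟨b, hb⟩ := h3 (A + K + 5) p
  obtain ⟨x₁, hx₁⟩ := hC (2 * p + (K + K) + 10 + 2 * (3 * C + A + 7))
  refine ⟨b + 1, fun B => ?_⟩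
  obtain ⟨x₂, hx₂⟩ := hb B
  obtain ⟨C₀, hC₀, hlz⟩ := h8
  refine ⟨max (max x₁ x₂) ⌈Real.exp (max ((2 * (C₀ * B)) ^ 2 + 1) 30)⌉₊, ?_⟩
  intro a b' c Z v z h d η hZ ha hb' hc hEE hv hv1 hv2 hv3 hvp hη hg hz1 hz2
  have hZ1 : x₁ ≤ Z := (le_max_left _ _).trans ((le_max_left _ _).trans hZ)
  have hZ2 : x₂ ≤ Z := (le_max_right _ _).trans ((le_max_left _ _).trans hZ)
  have hZ3 : ⌈Real.exp (max ((2 * (C₀ * B)) ^ 2 + 1) 30)⌉₊ ≤ Z := (le_max_right _ _).trans hZ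
  have hZM : Z ≤ 16 * Z := by omega
  have hcast : (16 * (Z : ℝ)) = ((16 * Z : ℕ) : ℝ) := by push_cast; ring
  rw [hcast] at hEE hvp hη hg hz1 hz2 ⊢
  obtain ⟨M, hM⟩ : ∃ M : ℕ, M = 16 * Z := ⟨_, rfl⟩
  have hZ0 : 1 ≤ Z := by
    refine le_trans ?_ hZ3
    exact Nat.ceil_pos.mpr (Real.exp_pos _)
  have hM0 : 1 ≤ M := by omega
  have hexpM : Real.exp (max ((2 * (C₀ * B)) ^ 2 + 1) 30) ≤ M := by
    have := (Nat.le_ceil _).trans (Nat.cast_le (α := ℝ).mpr hZ3)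
    have h2 : (Z : ℝ) ≤ M := by exact_mod_cast (by omega : Z ≤ M)
    linarith
  obtain ⟨L, hL⟩ : ∃ L : ℝ, L = Real.log (M : ℝ) := ⟨_, rfl⟩
  have hMpos : (0 : ℝ) < M := by exact_mod_cast hM0
  have hLbig : max ((2 * (C₀ * B)) ^ 2 + 1) 30 ≤ L := by
    rw [hL]
    exact (Real.le_log_iff_exp_le hMpos).mpr hexpM
  have hL30 : (30 : ℝ) ≤ L := (le_max_right _ _).trans hLbig
  have hLlz : C₀ * B * Real.log L ≤ L :=
    log_small_MJRE (C₀ * B) (by positivity) L ((le_max_left _ _).trans hLbig)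
  have hL1 : (1 : ℝ) ≤ L := by linarith
  have hL0 : (0 : ℝ) < L := by linarith
  have hL2 : (900 : ℝ) ≤ L ^ 2 := by nlinarith
  rw [← hM] at hEE hv1 hv2 hv3 hvp hη hg hz1 hz2 ⊢
  rw [← hL] at hEE hvp hη hg hz1 hz2 ⊢
  -- bounds for z
  have hz1' : L ^ b ≤ z := (pow_le_pow_right₀ hL1 (by omega)).trans hz1
  have hz2' : (2 : ℝ) ≤ z := by
    have : L ^ 1 ≤ L ^ (b + 1) := pow_le_pow_right₀ hL1 (by omega)
    rw [pow_one] at this
    linarith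
  have hz2n : 2 ≤ z := by exact_mod_cast hz2'
  have hlogz : C₀ * Real.log z ≤ L := by
    have e1 : Real.log z ≤ B * Real.log L := by
      rw [← Real.log_pow]
      exact Real.log_le_log (by linarith) hz2
    calc C₀ * Real.log z ≤ C₀ * (B * Real.log L) := mul_le_mul_of_nonneg_left e1 hC₀.le
      _ = C₀ * B * Real.log L := by ring
      _ ≤ L := hLlz
  -- one side
  have side : ∀ (D w₀ w₁ : ℕ) [NeZero (D * v)], 1 ≤ D → D * v ^ 2 ≤ M → D * M ≤ 32 * w₀ →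
      w₀ ≤ w₁ → w₁ ≤ D * M →
      ∃ (𝓧 : Finset (DirichletCharacter ℂ (D * v))) (cf : DirichletCharacter ℂ (D * v) → ℂ),
        (𝓧.card : ℝ) ≤ L ^ C ∧
        (∀ χ ∈ 𝓧, Deep (L ^ (2 * p + (K + K) + 10 + 2 * (3 * C + A + 7))) χ ∧
          ‖cf χ‖ ≤ D * M * L ^ 2) ∧
        l2 (range D) (Sj (cut th w₀ w₁) (D * M) D ((h : ℝ) / v + η)) ≤ D * M * L ^ 2 ∧
        l2 (range D) (Sj (cut (lz z) w₀ w₁) (D * M) D ((h : ℝ) / v + η)) ≤ D * M * L ^ 2 ∧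
        l2 (range D) (fun j => Sj (cut th w₀ w₁) (D * M) D ((h : ℝ) / v + η) j -
          (c0 D w₀ w₁ η * Gs (1 : DirichletCharacter ℂ (D * v)) (h + j * v) +
            ∑ χ ∈ 𝓧, cf χ * Gs χ (h + j * v))) ≤ (1 / L ^ (A + K + 7)) * (D * M * L ^ 2) ∧
        l2 (range D) (fun j => Sj (cut (lz z) w₀ w₁) (D * M) D ((h : ℝ) / v + η) j -
          c0 D w₀ w₁ η * Gs (1 : DirichletCharacter ℂ (D * v)) (h + j * v)) ≤
            (1 / L ^ (A + K + 7)) * (D * M * L ^ 2) ∧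
        ‖c0 D w₀ w₁ η‖ ≤ D * M * L ^ 2 := by
    intro D w₀ w₁ _ hD hDv hw hw01 hw1
    have hDM : D ≤ M := by
      refine le_trans ?_ hDv
      exact Nat.le_mul_of_pos_right D (pow_pos (by omega) 2)
    have hbd : (1 / L ^ (A + K + 7)) * (D * M * L ^ 2) = (D : ℝ) * M / L ^ (A + K + 5) := by
      have e : L ^ (A + K + 7) = L ^ (A + K + 5) * L ^ 2 := by rw [← pow_add]
      rw [e]
      field_simp
    have hlogn : ∀ n : ℕ, 1 ≤ n → n ≤ D * M → Real.log n ≤ 2 * L := by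
      intro n hn hn2
      have e1 : (n : ℝ) ≤ (M : ℝ) ^ 2 := by
        have : n ≤ M ^ 2 := hn2.trans (by nlinarith)
        exact_mod_cast this
      have e2 := Real.log_le_log (by exact_mod_cast hn) e1
      rw [Real.log_pow] at e2
      rw [hL]
      exact_mod_cast e2
    obtain ⟨𝓧, cf, g1, g2, g3, g4⟩ := hx₁ M D v w₀ w₁ h η (hZ1.trans (by omega)) hD hDM hv hDv
      (by rw [← hL]; exact hvp) (by rw [← hL]; exact hη) hw hw01 hw1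
    have g5 := hx₂ M D v z w₀ w₁ h η (hZ2.trans (by omega)) hD hDM hv hDv
      (by rw [← hL]; exact hvp) (by rw [← hL]; exact hη) hw01 hw1 (by rw [← hL]; exact hz1')
      (by rw [← hL]; exact hz2)
    rw [← hL] at g2 g3 g4 g5
    refine ⟨𝓧, cf, g2, g3, ?_, ?_, ?_, ?_, ?_⟩
    · refine l2_Sj_MJRE h1 th w₀ w₁ D M _ L (2 * L) hD hM0 ?_ ?_
      · intro n hn hn2
        unfold th
        split_ifs
        · rw [abs_of_nonneg (Real.log_nonneg (by exact_mod_cast hn))]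
          exact hlogn n hn hn2
        · rw [abs_zero]
          linarith
      · have e : L ^ 4 = L ^ 2 * L ^ 2 := by ring
        rw [e]
        nlinarith
    · refine l2_Sj_MJRE h1 (lz z) w₀ w₁ D M _ L L hD hM0 ?_ ?_
      · intro n hn hn2
        obtain ⟨e1, e2⟩ := hlz z n hz2n
        rw [abs_of_nonneg e1]
        exact e2.trans hlogz
      · have e : L ^ 4 = L ^ 2 * L ^ 2 := by ring
        rw [e]
        nlinarith
    · rw [hbd]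
      exact g4
    · rw [hbd]
      exact g5
    · refine (c0_le_MJRE D w₀ w₁ (D * M) η hw1).trans ?_
      push_cast
      have : (0 : ℝ) ≤ D * M := by positivity
      nlinarith [mul_self_nonneg (L - 1)]
  have i1 : NeZero (b' * c * v) :=
    ⟨Nat.mul_ne_zero (Nat.mul_ne_zero (by omega) (by omega)) (by omega)⟩
  have i2 : NeZero (a * c * v) :=
    ⟨Nat.mul_ne_zero (Nat.mul_ne_zero (by omega) (by omega)) (by omega)⟩
  have i3 : NeZero (a * b' * v) :=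
    ⟨Nat.mul_ne_zero (Nat.mul_ne_zero (by omega) (by omega)) (by omega)⟩
  have hbc : 1 ≤ b' * c := Nat.mul_pos hb' hc
  have hac : 1 ≤ a * c := Nat.mul_pos ha hc
  have hab : 1 ≤ a * b' := Nat.mul_pos ha hb'
  obtain ⟨w11, w12, w13⟩ := win_MJRE (b' * c) Z 4 5 (by norm_num) (by norm_num) (by norm_num)
  obtain ⟨w21, w22, w23⟩ := win_MJRE (a * c) Z 4 5 (by norm_num) (by norm_num) (by norm_num)
  obtain ⟨w31, w32, w33⟩ := win_MJRE (a * b') Z 2 16 (by norm_num) (by norm_num) (by norm_num)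
  rw [← hM] at w11 w13 w21 w23 w31 w33
  obtain ⟨𝓧₁, f₁, p1, p2, p3, p4, p5, p6, p7⟩ := side (b' * c) (4 * (b' * c) * Z)
    (5 * (b' * c) * Z) hbc hv1 w11 w12 w13
  obtain ⟨𝓧₂, f₂, q1, q2, q3, q4, q5, q6, q7⟩ := side (a * c) (4 * (a * c) * Z)
    (5 * (a * c) * Z) hac hv2 w21 w22 w23
  obtain ⟨𝓧₃, f₃, r1, r2, r3, r4, r5, r6, r7⟩ := side (a * b') (2 * (a * b') * Z)
    (16 * (a * b') * Z) hab hv3 w31 w32 w33
  obtain ⟨θ, hθ⟩ : ∃ θ : ℝ, θ = (h : ℝ) / v + η := ⟨_, rfl⟩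
  have hCMP := h4 (Sj (cut th (4 * (b' * c) * Z) (5 * (b' * c) * Z)) (b' * c * M) (b' * c) θ)
    (fun j => c0 (b' * c) (4 * (b' * c) * Z) (5 * (b' * c) * Z) η *
      Gs (1 : DirichletCharacter ℂ (b' * c * v)) (h + j * v) + ∑ χ ∈ 𝓧₁, f₁ χ * Gs χ (h + j * v))
    (Sj (cut (lz z) (4 * (b' * c) * Z) (5 * (b' * c) * Z)) (b' * c * M) (b' * c) θ)
    (fun j => c0 (b' * c) (4 * (b' * c) * Z) (5 * (b' * c) * Z) η *
      Gs (1 : DirichletCharacter ℂ (b' * c * v)) (h + j * v))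
    (Sj (cut th (4 * (a * c) * Z) (5 * (a * c) * Z)) (a * c * M) (a * c) θ)
    (fun j => c0 (a * c) (4 * (a * c) * Z) (5 * (a * c) * Z) η *
      Gs (1 : DirichletCharacter ℂ (a * c * v)) (h + j * v) + ∑ χ ∈ 𝓧₂, f₂ χ * Gs χ (h + j * v))
    (Sj (cut (lz z) (4 * (a * c) * Z) (5 * (a * c) * Z)) (a * c * M) (a * c) θ)
    (fun j => c0 (a * c) (4 * (a * c) * Z) (5 * (a * c) * Z) η *
      Gs (1 : DirichletCharacter ℂ (a * c * v)) (h + j * v))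
    (Sj (cut th (2 * (a * b') * Z) (16 * (a * b') * Z)) (a * b' * M) (a * b') θ)
    (fun j => c0 (a * b') (2 * (a * b') * Z) (16 * (a * b') * Z) η *
      Gs (1 : DirichletCharacter ℂ (a * b' * v)) (h + j * v) + ∑ χ ∈ 𝓧₃, f₃ χ * Gs χ (h + j * v))
    (Sj (cut (lz z) (2 * (a * b') * Z) (16 * (a * b') * Z)) (a * b' * M) (a * b') θ)
    (fun j => c0 (a * b') (2 * (a * b') * Z) (16 * (a * b') * Z) η *
      Gs (1 : DirichletCharacter ℂ (a * b' * v)) (h + j * v))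
    a b' c d θ ((b' * c : ℕ) * M * L ^ 2) ((a * c : ℕ) * M * L ^ 2) ((a * b' : ℕ) * M * L ^ 2)
    (1 / L ^ (A + K + 7)) ha hb' hc (by positivity)
    (by
      rw [div_le_one (by positivity)]
      exact one_le_pow₀ hL1)
    (fun j => ⟨h7 _ _ _ _ _ hbc, (per_MJRE h6 (b' * c) v h 𝓧₁ f₁ _ j).2, h7 _ _ _ _ _ hbc,
      (per_MJRE h6 (b' * c) v h 𝓧₁ f₁ _ j).1⟩)
    (fun j => ⟨h7 _ _ _ _ _ hac, (per_MJRE h6 (a * c) v h 𝓧₂ f₂ _ j).2, h7 _ _ _ _ _ hac,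
      (per_MJRE h6 (a * c) v h 𝓧₂ f₂ _ j).1⟩)
    (fun j => ⟨h7 _ _ _ _ _ hab, (per_MJRE h6 (a * b') v h 𝓧₃ f₃ _ j).2, h7 _ _ _ _ _ hab,
      (per_MJRE h6 (a * b') v h 𝓧₃ f₃ _ j).1⟩)
    (by rw [hθ]; exact p3) (by rw [hθ]; exact p4) (by rw [hθ]; exact p5) (by rw [hθ]; exact p6)
    (by rw [hθ]; exact q3) (by rw [hθ]; exact q4) (by rw [hθ]; exact q5) (by rw [hθ]; exact q6)
    (by rw [hθ]; exact r3) (by rw [hθ]; exact r4) (by rw [hθ]; exact r5) (by rw [hθ]; exact r6)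
  have hT : ∀ D : ℕ, (D : ℝ) * M * L ^ 2 = D * (M * L ^ 2) := fun D => by ring
  have hCHS := h5 a b' c v h d η (L ^ (2 * p + (K + K) + 10 + 2 * (3 * C + A + 7))) (L ^ C)
    (M * L ^ 2) (c0 (b' * c) (4 * (b' * c) * Z) (5 * (b' * c) * Z) η)
    (c0 (a * c) (4 * (a * c) * Z) (5 * (a * c) * Z) η)
    (c0 (a * b') (2 * (a * b') * Z) (16 * (a * b') * Z) η) 𝓧₁ 𝓧₂ 𝓧₃ f₁ f₂ f₃ ha hb' hc hv
    (by positivity) (one_le_pow₀ hL1) (by positivity) p1 q1 r1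
    (fun χ hχ => ⟨(p2 χ hχ).1, by
      refine (p2 χ hχ).2.trans (le_of_eq ?_)
      push_cast
      ring⟩)
    (fun χ hχ => ⟨(q2 χ hχ).1, by
      refine (q2 χ hχ).2.trans (le_of_eq ?_)
      push_cast
      ring⟩)
    (fun χ hχ => ⟨(r2 χ hχ).1, by
      refine (r2 χ hχ).2.trans (le_of_eq ?_)
      push_cast
      ring⟩)
    (by
      refine p7.trans (le_of_eq ?_)
      push_cast
      ring)
    (by
      refine q7.trans (le_of_eq ?_)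
      push_cast
      ring)
    (by
      refine r7.trans (le_of_eq ?_)
      push_cast
      ring)
  rw [← hθ] at hCHS ⊢
  -- numerical part
  have n0 := num1_MJRE (A + K) ((a * b' * c : ℕ) : ℝ) ((b' * c : ℕ) : ℝ) ((a * c : ℕ) : ℝ)
    ((a * b' : ℕ) : ℝ) (M : ℝ) L (by push_cast; ring) hL30 (by positivity)
  have n1 : (EE a b' c : ℝ) * (14 * (1 / L ^ (A + K + 7)) * ((b' * c : ℕ) * M * L ^ 2) *
      ((a * c : ℕ) * M * L ^ 2) * ((a * b' : ℕ) * M * L ^ 2)) ≤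
      ((a * b' * c : ℕ) : ℝ) ^ 2 * (M : ℝ) ^ 3 / L ^ A / 2 := by
    refine (mul_le_mul hEE n0 (by positivity) (by positivity)).trans (le_of_eq ?_)
    rw [pow_add]
    field_simp
  have n3 := log_MJRE a b' c v M L hL hL30 ha hb' hc hv hv1 hv2
  have hEg : (EE a b' c : ℝ) * (Int.gcd d (a * b' * c : ℕ) : ℝ) ≤ L ^ (K + K) := by
    rw [pow_add]
    exact mul_le_mul hEE hg (by positivity) (by positivity)
  have n4 := root_MJRE A C p (K + K) L (v : ℝ)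
    ((EE a b' c : ℝ) * (Int.gcd d (a * b' * c : ℕ) : ℝ))
    (1 + (Nat.log 2 (a * b' * c * v) : ℝ)) hL30 (by positivity) (by positivity) (by positivity)
    hvp hEg n3
  have n5 : (v : ℝ) ^ 2 * ((EE a b' c : ℝ) * (Int.gcd d (a * b' * c : ℕ) : ℝ)) =
      (EE a b' c : ℝ) * (v : ℝ) ^ 2 * (Int.gcd d (a * b' * c : ℕ) : ℝ) := by ring
  rw [n5] at n4
  have n2 := num3_MJRE A C ((a * b' * c : ℕ) : ℝ) (M : ℝ) L _ hL30 (by positivity) n4
  unfold WP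
  rw [← hM]
  have tri : ∀ x y P Q : ℂ, ‖x - y‖ ≤ ‖(x - y) - (P - Q)‖ + ‖P - Q‖ := by
    intro x y P Q
    have := norm_add_le ((x - y) - (P - Q)) (P - Q)
    rwa [sub_add_cancel] at this
  refine (tri _ _ _ _).trans ((add_le_add hCMP hCHS).trans ?_)
  refine (add_le_add n1 n2).trans (le_of_eq ?_)
  ring

end Pool.Agent.Helper49.PC
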