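import Pool.Agent.Helper49.PC.StG

/-!
# Project PC, module MSQ: mean square over characters
-/

set_option autoImplicit false

namespace Pool.Agent.Helper49.PC

open Finset ArithmeticFunction

private lemma card_MSQ (q u N x : ℕ) (hq : 0 < q) :
    (((Ioc u (u + N)).filter (fun n => n ≡ x [MOD q])).card : ℝ) ≤ N / q + 1 := by
  have h := Nat.Ioc_filter_modEq_card u (u + N) hq x
  have hqQ : (0 : ℚ) < q := by exact_mod_cast hq
  have h1 : (((Ioc u (u + N)).filter (fun n => n ≡ x [MOD q])).card : ℚ) ≤ N / q + 1 := by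
    have h2 : (((Ioc u (u + N)).filter (fun n => n ≡ x [MOD q])).card : ℚ) =
        ((max (⌊(((u + N : ℕ) : ℚ) - x) / (q : ℚ)⌋ - ⌊((u : ℚ) - x) / (q : ℚ)⌋) 0 : ℤ) : ℚ) := by
      exact_mod_cast h
    rw [h2]
    push_cast
    refine max_le ?_ (by positivity)
    have h3 := Int.floor_le (((u : ℚ) + N - x) / (q : ℚ))
    have h4 := Int.lt_floor_add_one (((u : ℚ) - x) / (q : ℚ))
    have h5 : ((u : ℚ) + N - x) / q = ((u : ℚ) - x) / q + N / q := by ring
    linarith
  have h6 : (((((Ioc u (u + N)).filter (fun n => n ≡ x [MOD q])).card : ℚ)) : ℝ) ≤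
      (((N : ℚ) / q + 1 : ℚ) : ℝ) := by exact_mod_cast h1
  push_cast at h6
  exact h6

theorem hMSQ (h1 : StOC) : StMSQ := by
  intro q _ u N F
  have hq : 0 < q := Nat.pos_of_ne_zero (NeZero.ne q)
  have hqR : (0 : ℝ) < q := by exact_mod_cast hq
  rw [h1 q (Ioc u (u + N)) F]
  have h2 : ∀ x : ℕ, ‖∑ n ∈ (Ioc u (u + N)).filter (fun n => n ≡ x [MOD q]), F n‖ ^ 2 ≤
      ((N : ℝ) / q + 1) * ∑ n ∈ (Ioc u (u + N)).filter (fun n => n ≡ x [MOD q]), ‖F n‖ ^ 2 := by
    intro x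
    have h3 := sum_mul_sq_le_sq_mul_sq ((Ioc u (u + N)).filter (fun n => n ≡ x [MOD q]))
      (fun _ => (1 : ℝ)) (fun n => ‖F n‖)
    simp only [one_mul, one_pow, sum_const, nsmul_eq_mul, mul_one] at h3
    have h4 : ‖∑ n ∈ (Ioc u (u + N)).filter (fun n => n ≡ x [MOD q]), F n‖ ^ 2 ≤
        (∑ n ∈ (Ioc u (u + N)).filter (fun n => n ≡ x [MOD q]), ‖F n‖) ^ 2 :=
      pow_le_pow_left₀ (norm_nonneg _) (norm_sum_le _ _) 2
    refine h4.trans (h3.trans ?_)
    exact mul_le_mul_of_nonneg_right (card_MSQ q u N x hq) (sum_nonneg fun _ _ => by positivity)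
  have h5 : ∑ x ∈ (range q).filter (fun x => Nat.Coprime x q),
      ∑ n ∈ (Ioc u (u + N)).filter (fun n => n ≡ x [MOD q]), ‖F n‖ ^ 2 ≤
      ∑ n ∈ Ioc u (u + N), ‖F n‖ ^ 2 := by
    calc _ ≤ ∑ x ∈ range q,
          ∑ n ∈ (Ioc u (u + N)).filter (fun n => n ≡ x [MOD q]), ‖F n‖ ^ 2 :=
          sum_le_sum_of_subset_of_nonneg (filter_subset _ _)
            fun _ _ _ => sum_nonneg fun _ _ => by positivity
      _ = ∑ x ∈ range q, ∑ n ∈ (Ioc u (u + N)).filter (fun n => n % q = x), ‖F n‖ ^ 2 := by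
          refine sum_congr rfl fun x hx => ?_
          rw [mem_range] at hx
          congr 1
          refine filter_congr fun n _ => ?_
          unfold Nat.ModEq
          rw [Nat.mod_eq_of_lt hx]
      _ = _ := sum_fiberwise_of_maps_to (fun n _ => mem_range.2 (Nat.mod_lt _ hq)) _
  have hS : 0 ≤ ∑ n ∈ Ioc u (u + N), ‖F n‖ ^ 2 := sum_nonneg fun _ _ => by positivity
  have hphi : (Nat.totient q : ℝ) ≤ q := by exact_mod_cast Nat.totient_le q
  calc _ ≤ Nat.totient q * ∑ x ∈ (range q).filter (fun x => Nat.Coprime x q),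
        ((N : ℝ) / q + 1) *
          ∑ n ∈ (Ioc u (u + N)).filter (fun n => n ≡ x [MOD q]), ‖F n‖ ^ 2 :=
        mul_le_mul_of_nonneg_left (sum_le_sum fun x _ => h2 x) (Nat.cast_nonneg _)
    _ = Nat.totient q * (((N : ℝ) / q + 1) *
        ∑ x ∈ (range q).filter (fun x => Nat.Coprime x q),
          ∑ n ∈ (Ioc u (u + N)).filter (fun n => n ≡ x [MOD q]), ‖F n‖ ^ 2) := by
        congr 1
        rw [mul_sum]
    _ ≤ q * (((N : ℝ) / q + 1) * ∑ n ∈ Ioc u (u + N), ‖F n‖ ^ 2) := by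
        refine mul_le_mul hphi ?_ ?_ hqR.le
        · exact mul_le_mul_of_nonneg_left h5 (by positivity)
        · refine mul_nonneg (by positivity) (sum_nonneg fun _ _ => sum_nonneg fun _ _ => ?_)
          positivity
    _ = _ := by
        field_simp

end Pool.Agent.Helper49.PC
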