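import Pool.Agent.Helper49.PC.StN

/-!
# Project PC, module NUZ: the model on integers not coprime to `q`
-/

set_option autoImplicit false

namespace Pool.Agent.Helper49.PC

open Finset ArithmeticFunction
open Pool.Agent.Helper48.BK (ex th lz Vz Pz gs nd Apx AdN Sol thd)
open scoped ComplexConjugate

private theorem aux1_NUZ (q : ℕ) (hq : 1 ≤ q) :
    ((q.primeFactors.card : ℕ) : ℝ) ≤ Real.log q / Real.log 2 := by
  have h1 : 2 ^ q.primeFactors.card ≤ q := by
    calc 2 ^ q.primeFactors.card ≤ ∏ p ∈ q.primeFactors, p :=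
          Finset.pow_card_le_prod _ _ _ fun p hp => (Nat.prime_of_mem_primeFactors hp).two_le
      _ ≤ q := Nat.le_of_dvd (by omega) (Nat.prod_primeFactors_dvd q)
  have h2 : (0 : ℝ) < Real.log 2 := Real.log_pos (by norm_num)
  rw [le_div_iff₀ h2, ← Real.log_pow]
  apply Real.log_le_log (by positivity)
  exact_mod_cast h1

theorem hNUZ (h1 : StLZB) : StNUZ := by
  obtain ⟨C, hC, hlz⟩ := h1
  have hl2 : (0 : ℝ) < Real.log 2 := Real.log_pos (by norm_num)
  refine ⟨C ^ 2 / Real.log 2, by positivity, ?_⟩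
  intro X z q hX hz2 hzX hq hqX
  obtain ⟨S, hS⟩ : ∃ S, S = q.primeFactors.filter (fun p => z < p) := ⟨_, rfl⟩
  obtain ⟨B, hB⟩ : ∃ B, B = (C * Real.log z) ^ 2 := ⟨_, rfl⟩
  have hB0 : 0 ≤ B := hB ▸ sq_nonneg _
  have hz0 : (0 : ℝ) < z := by exact_mod_cast (by omega : 0 < z)
  have hp : ∀ n ∈ (Ioc 0 X).filter (fun n => ¬ Nat.Coprime n q),
      lz z n ^ 2 ≤ ∑ p ∈ S, if p ∣ n then B else 0 := by
    intro n hn
    have hs0 : ∀ p ∈ S, (0 : ℝ) ≤ if p ∣ n then B else 0 := fun p _ => by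
      split_ifs
      · exact hB0
      · exact le_rfl
    by_cases h0 : lz z n = 0
    · rw [h0]
      simpa using Finset.sum_nonneg hs0
    · have h2 : ∀ p ∈ Pz z, ¬ p ∣ n := by
        by_contra hcon
        exact h0 (if_neg hcon)
      obtain ⟨p, hpp, hpn, hpq⟩ := Nat.Prime.not_coprime_iff_dvd.mp (Finset.mem_filter.mp hn).2
      have hzp : z < p := by
        by_contra hcon
        exact h2 p (Finset.mem_filter.mpr ⟨Finset.mem_range.mpr (by omega), hpp⟩) hpn
      have hpS : p ∈ S := by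
        rw [hS]
        exact Finset.mem_filter.mpr ⟨Nat.mem_primeFactors.mpr ⟨hpp, hpq, by omega⟩, hzp⟩
      refine le_trans ?_ (Finset.single_le_sum hs0 hpS)
      rw [if_pos hpn, hB]
      exact pow_le_pow_left₀ (hlz z n hz2).1 (hlz z n hz2).2 2
  have hnn : ∀ n ∈ Ioc 0 X, n ∉ (Ioc 0 X).filter (fun n => ¬ Nat.Coprime n q) →
      (0 : ℝ) ≤ ∑ p ∈ S, if p ∣ n then B else 0 := fun n _ _ =>
    Finset.sum_nonneg fun p _ => by
      split_ifs
      · exact hB0
      · exact le_rfl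
  have s1 : ∑ n ∈ (Ioc 0 X).filter (fun n => ¬ Nat.Coprime n q), lz z n ^ 2 ≤
      ∑ n ∈ Ioc 0 X, ∑ p ∈ S, if p ∣ n then B else 0 :=
    (Finset.sum_le_sum hp).trans
      (Finset.sum_le_sum_of_subset_of_nonneg (Finset.filter_subset _ _) hnn)
  have s2 : ∑ n ∈ Ioc 0 X, ∑ p ∈ S, (if p ∣ n then B else 0) ≤
      ∑ _p ∈ S, (X : ℝ) / z * B := by
    rw [Finset.sum_comm]
    refine Finset.sum_le_sum fun p hp => ?_
    have hzp : z < p := by
      rw [hS] at hp
      exact (Finset.mem_filter.mp hp).2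
    rw [← Finset.sum_filter, Finset.sum_const, Nat.Ioc_filter_dvd_card_eq_div, nsmul_eq_mul]
    refine mul_le_mul_of_nonneg_right ?_ hB0
    refine (Nat.cast_div_le).trans ?_
    exact div_le_div_of_nonneg_left (Nat.cast_nonneg _) hz0 (by exact_mod_cast hzp.le)
  have hlX : 0 ≤ Real.log X := Real.log_nonneg (by exact_mod_cast (by omega : 1 ≤ X))
  have s3 : ((S.card : ℕ) : ℝ) ≤ Real.log X / Real.log 2 := by
    have e1 : ((S.card : ℕ) : ℝ) ≤ q.primeFactors.card := by
      rw [hS]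
      exact_mod_cast Finset.card_filter_le _ _
    refine (e1.trans (aux1_NUZ q hq)).trans ?_
    refine div_le_div_of_nonneg_right ?_ hl2.le
    exact Real.log_le_log (by exact_mod_cast hq) (by exact_mod_cast hqX)
  have s4 : B ≤ C ^ 2 * Real.log X ^ 2 := by
    rw [hB, mul_pow]
    refine mul_le_mul_of_nonneg_left ?_ (sq_nonneg _)
    refine pow_le_pow_left₀ (Real.log_nonneg (by exact_mod_cast (by omega : 1 ≤ z))) ?_ 2
    exact Real.log_le_log hz0 (by exact_mod_cast hzX)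
  refine (s1.trans s2).trans ?_
  rw [Finset.sum_const, nsmul_eq_mul]
  have hXz : (0 : ℝ) ≤ (X : ℝ) / z := by positivity
  calc (S.card : ℝ) * ((X : ℝ) / z * B) ≤
        (Real.log X / Real.log 2) * ((X : ℝ) / z * (C ^ 2 * Real.log X ^ 2)) := by
        refine mul_le_mul s3 (mul_le_mul_of_nonneg_left s4 hXz) (mul_nonneg hXz hB0) ?_
        positivity
    _ = C ^ 2 / Real.log 2 * X * Real.log X ^ 3 / z := by
        field_simp

end Pool.Agent.Helper49.PC
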