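import Pool.Agent.Helper49.PC.StG

/-!
# Project PC: module OC (orthogonality of characters)
-/

set_option autoImplicit false

namespace Pool.Agent.Helper49.PC

open Finset ArithmeticFunction
open scoped ComplexConjugate

private theorem conj_char_OC {q : ℕ} (χ : DirichletCharacter ℂ q) {a : ZMod q} (ha : IsUnit a) :
    conj (χ a) = χ a⁻¹ := by
  have h1 : conj (χ a) = (χ a)⁻¹ := by
    have h := MulChar.star_apply' χ a
    rw [MulChar.inv_apply_eq_inv'] at h
    exact h
  rw [h1]
  have h2 : χ a⁻¹ * χ a = 1 := by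
    rw [← map_mul, ZMod.inv_mul_of_unit a ha, map_one]
  exact (eq_inv_of_mul_eq_one_left h2).symm

private theorem orth_OC (q : ℕ) [NeZero q] (n n' : ℕ) :
    ∑ χ : DirichletCharacter ℂ q, χ (n : ZMod q) * conj (χ (n' : ZMod q)) =
      if Nat.Coprime n' q ∧ n ≡ n' [MOD q] then (Nat.totient q : ℂ) else 0 := by
  by_cases hu : Nat.Coprime n' q
  · have hu' : IsUnit (n' : ZMod q) := (ZMod.isUnit_iff_coprime n' q).2 hu
    have h1 : ∑ χ : DirichletCharacter ℂ q, χ (n : ZMod q) * conj (χ (n' : ZMod q)) =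
        ∑ χ : DirichletCharacter ℂ q, χ ((n' : ZMod q)⁻¹) * χ (n : ZMod q) :=
      Finset.sum_congr rfl fun χ _ => by rw [conj_char_OC χ hu', mul_comm]
    rw [h1, DirichletCharacter.sum_char_inv_mul_char_eq ℂ hu']
    have h2 : ((n' : ZMod q) = n) ↔ (Nat.Coprime n' q ∧ n ≡ n' [MOD q]) := by
      rw [ZMod.natCast_eq_natCast_iff]
      exact ⟨fun h => ⟨hu, h.symm⟩, fun h => h.2.symm⟩
    simp only [h2]
  · rw [if_neg fun h => hu h.1]
    refine Finset.sum_eq_zero fun χ _ => ?_
    rw [χ.map_nonunit fun h => hu ((ZMod.isUnit_iff_coprime n' q).1 h), _root_.map_zero, mul_zero]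

private theorem sq_OC (z : ℂ) : (((‖z‖ ^ 2 : ℝ)) : ℂ) = z * conj z := by
  rw [Complex.mul_conj']
  push_cast
  rfl

theorem hOC : StOC := by
  intro q _ s F
  have hq : 0 < q := Nat.pos_of_ne_zero (NeZero.ne q)
  have key : ((∑ χ : DirichletCharacter ℂ q, ‖∑ n ∈ s, F n * χ (n : ZMod q)‖ ^ 2 : ℝ) : ℂ) =
      ((Nat.totient q * ∑ x ∈ (range q).filter (fun x => Nat.Coprime x q),
        ‖∑ n ∈ s.filter (fun n => n ≡ x [MOD q]), F n‖ ^ 2 : ℝ) : ℂ) := by
    have hL : ((∑ χ : DirichletCharacter ℂ q, ‖∑ n ∈ s, F n * χ (n : ZMod q)‖ ^ 2 : ℝ) : ℂ) =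
        ∑ n ∈ s, ∑ n' ∈ s, F n * conj (F n') *
          (if Nat.Coprime n' q ∧ n ≡ n' [MOD q] then (Nat.totient q : ℂ) else 0) := by
      rw [Complex.ofReal_sum]
      have h1 : ∀ χ : DirichletCharacter ℂ q,
          (((‖∑ n ∈ s, F n * χ (n : ZMod q)‖ ^ 2 : ℝ)) : ℂ) =
          ∑ n ∈ s, ∑ n' ∈ s, F n * conj (F n') *
            (χ (n : ZMod q) * conj (χ (n' : ZMod q))) := by
        intro χ
        rw [sq_OC, map_sum, Finset.sum_mul_sum]
        refine Finset.sum_congr rfl fun n _ => Finset.sum_congr rfl fun n' _ => ?_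
        rw [map_mul]
        ring
      rw [Finset.sum_congr rfl fun χ _ => h1 χ, Finset.sum_comm]
      refine Finset.sum_congr rfl fun n _ => ?_
      rw [Finset.sum_comm]
      refine Finset.sum_congr rfl fun n' _ => ?_
      rw [← Finset.mul_sum, orth_OC]
    have hR : ((Nat.totient q * ∑ x ∈ (range q).filter (fun x => Nat.Coprime x q),
        ‖∑ n ∈ s.filter (fun n => n ≡ x [MOD q]), F n‖ ^ 2 : ℝ) : ℂ) =
        ∑ n ∈ s, ∑ n' ∈ s, F n * conj (F n') *
          (if Nat.Coprime n' q ∧ n ≡ n' [MOD q] then (Nat.totient q : ℂ) else 0) := by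
      rw [Complex.ofReal_mul, Complex.ofReal_sum, Complex.ofReal_natCast]
      have h1 : ∀ x : ℕ, (((‖∑ n ∈ s.filter (fun n => n ≡ x [MOD q]), F n‖ ^ 2 : ℝ)) : ℂ) =
          ∑ n ∈ s, ∑ n' ∈ s, F n * conj (F n') *
            (if n ≡ x [MOD q] ∧ n' ≡ x [MOD q] then 1 else 0) := by
        intro x
        rw [sq_OC, map_sum, Finset.sum_mul_sum, Finset.sum_filter]
        refine Finset.sum_congr rfl fun n _ => ?_
        by_cases hn : n ≡ x [MOD q]
        · rw [if_pos hn, Finset.sum_filter]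
          refine Finset.sum_congr rfl fun n' _ => ?_
          by_cases hn' : n' ≡ x [MOD q]
          · rw [if_pos hn', if_pos ⟨hn, hn'⟩, mul_one]
          · rw [if_neg hn', if_neg fun h => hn' h.2, mul_zero]
        · rw [if_neg hn]
          refine (Finset.sum_eq_zero fun n' _ => ?_).symm
          rw [if_neg fun h => hn h.1, mul_zero]
      rw [Finset.sum_congr rfl fun x _ => h1 x, Finset.sum_comm, Finset.mul_sum]
      refine Finset.sum_congr rfl fun n _ => ?_
      rw [Finset.sum_comm, Finset.mul_sum]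
      refine Finset.sum_congr rfl fun n' _ => ?_
      rw [← Finset.mul_sum]
      by_cases h : Nat.Coprime n' q ∧ n ≡ n' [MOD q]
      · rw [if_pos h, Finset.sum_eq_single (n' % q)]
        · have h2 : n' ≡ n' % q [MOD q] := (Nat.mod_modEq n' q).symm
          rw [if_pos ⟨h.2.trans h2, h2⟩]
          ring
        · intro x hx hne
          rw [Finset.mem_filter, Finset.mem_range] at hx
          refine if_neg fun h2 => hne ?_
          have h3 := h2.2
          unfold Nat.ModEq at h3
          rw [h3, Nat.mod_eq_of_lt hx.1]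
        · intro hx
          exfalso
          apply hx
          rw [Finset.mem_filter, Finset.mem_range]
          refine ⟨Nat.mod_lt _ hq, ?_⟩
          have h4 := h.1
          unfold Nat.Coprime at h4 ⊢
          rw [← h4, Nat.gcd_comm n' q, Nat.gcd_rec q n']
      · rw [if_neg h, mul_zero]
        have h2 : ∀ x ∈ (range q).filter (fun x => Nat.Coprime x q),
            (if n ≡ x [MOD q] ∧ n' ≡ x [MOD q] then (1 : ℂ) else 0) = 0 := by
          intro x hx
          rw [Finset.mem_filter, Finset.mem_range] at hx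
          refine if_neg fun h3 => h ⟨?_, h3.1.trans h3.2.symm⟩
          have h4 := h3.2.gcd_eq
          unfold Nat.Coprime
          rw [h4]
          exact hx.2
        rw [Finset.sum_congr rfl h2]
        simp
    rw [hL, hR]
  exact_mod_cast key

end Pool.Agent.Helper49.PC
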