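import Pool.Agent.Helper49.PC.StF

set_option autoImplicit false

namespace Pool.Agent.Helper49.PC

open Finset
open Pool.Agent.Helper48.BK (ex)

private theorem ex_pow_ORT (t : ℝ) (j : ℕ) : ex (t * j) = ex t ^ j := by
  unfold Pool.Agent.Helper48.BK.ex
  rw [← Complex.exp_nat_mul]
  congr 1
  push_cast
  ring

private theorem ex_eq_one_ORT (t : ℝ) (h : ex t = 1) : ∃ n : ℤ, t = n := by
  unfold Pool.Agent.Helper48.BK.ex at h
  rw [Complex.exp_eq_one_iff] at h
  obtain ⟨n, hn⟩ := h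
  refine ⟨n, ?_⟩
  have h2 : (2 * Real.pi * Complex.I : ℂ) ≠ 0 := Complex.two_pi_I_ne_zero
  have h3 : (2 * Real.pi * Complex.I : ℂ) * ((t : ℂ) - n) = 0 := by linear_combination hn
  rcases mul_eq_zero.mp h3 with h4 | h4
  · exact absurd h4 h2
  · have h5 : (t : ℂ) = ((n : ℝ) : ℂ) := by
      push_cast
      linear_combination h4
    exact_mod_cast h5

theorem hORT : StORT := by
  intro D k hD
  have hD0 : (D : ℝ) ≠ 0 := by
    have : (0 : ℝ) < D := by exact_mod_cast hD
    exact this.ne'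
  have h1 : ∀ j ∈ range D, ex ((k : ℝ) * j / D) = ex ((k : ℝ) / D) ^ j := by
    intro j _
    rw [← ex_pow_ORT]
    congr 1
    ring
  rw [sum_congr rfl h1]
  split_ifs with hd
  · obtain ⟨m, rfl⟩ := hd
    have h2 : ex (((D * m : ℤ) : ℝ) / D) = 1 := by
      have h3 : ((D * m : ℤ) : ℝ) / D = ((m : ℤ) : ℝ) := by
        push_cast
        field_simp
      rw [h3, ex_int]
    rw [h2]
    simp
  · have h2 : ex ((k : ℝ) / D) ≠ 1 := by
      intro h3
      obtain ⟨n, hn⟩ := ex_eq_one_ORT _ h3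
      apply hd
      refine ⟨n, ?_⟩
      rw [div_eq_iff hD0] at hn
      have : (k : ℝ) = ((D * n : ℤ) : ℝ) := by
        push_cast
        rw [hn]
        ring
      exact_mod_cast this
    have h3 : ex ((k : ℝ) / D) ^ D = 1 := by
      rw [← ex_pow_ORT, div_mul_cancel₀ _ hD0, ex_int]
    rw [geom_sum_eq h2, h3, sub_self, zero_div]

end Pool.Agent.Helper49.PC
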