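import Pool.Agent.Helper49.PC.StF

/-!
# Project PC: module PFL, mean value over `θ`
-/

set_option autoImplicit false

namespace Pool.Agent.Helper49.PC

open Finset ArithmeticFunction
open Pool.Agent.Helper48.BK (ex th lz Vz Pz gs nd Apx AdN Sol thd)
open scoped ComplexConjugate

private theorem sum_blocks_PFL (h : ℕ → ℝ) (N D : ℕ) :
    ∑ k ∈ range N, ∑ j ∈ range D, h (k + N * j) = ∑ m ∈ range (N * D), h m := by
  induction D with
  | zero => simp
  | succ D ih =>
    rw [Nat.mul_succ, Finset.sum_range_add, ← ih, ← Finset.sum_add_distrib]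
    refine Finset.sum_congr rfl fun k _ => ?_
    rw [Finset.sum_range_succ, Nat.add_comm k (N * D)]

private theorem parseval_PFL (h1 : StORT) (F : ℕ → ℂ) (X M : ℕ) (hM : 1 ≤ M) (hX : X ≤ M) :
    ∑ m ∈ range M, ‖Sc F X ((m : ℝ) / M)‖ ^ 2 = M * ∑ n ∈ Ioc 0 X, ‖F n‖ ^ 2 := by
  have hkey : ((∑ m ∈ range M, ‖Sc F X ((m : ℝ) / M)‖ ^ 2 : ℝ) : ℂ) =
      ((M * ∑ n ∈ Ioc 0 X, ‖F n‖ ^ 2 : ℝ) : ℂ) := by
    push_cast
    calc ∑ m ∈ range M, ((‖Sc F X ((m : ℝ) / M)‖ : ℝ) : ℂ) ^ 2
        = ∑ m ∈ range M, ∑ n ∈ Ioc 0 X, ∑ n' ∈ Ioc 0 X,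
            F n * conj (F n') * ex (((n : ℤ) - (n' : ℤ) : ℤ) * (m : ℝ) / M) := by
          refine Finset.sum_congr rfl fun m _ => ?_
          rw [← Complex.mul_conj']
          unfold Sc
          rw [map_sum, Finset.sum_mul_sum]
          refine Finset.sum_congr rfl fun n _ => Finset.sum_congr rfl fun n' _ => ?_
          rw [map_mul, conj_ex]
          have e : (((n : ℤ) - (n' : ℤ) : ℤ) : ℝ) * (m : ℝ) / M =
              (n : ℝ) * ((m : ℝ) / M) + -((n' : ℝ) * ((m : ℝ) / M)) := by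
            push_cast
            ring
          rw [e, ex_add]
          ring
      _ = ∑ n ∈ Ioc 0 X, ∑ n' ∈ Ioc 0 X, F n * conj (F n') *
            ∑ m ∈ range M, ex (((n : ℤ) - (n' : ℤ) : ℤ) * (m : ℝ) / M) := by
          rw [Finset.sum_comm]
          refine Finset.sum_congr rfl fun n _ => ?_
          rw [Finset.sum_comm]
          refine Finset.sum_congr rfl fun n' _ => ?_
          rw [Finset.mul_sum]
      _ = ∑ n ∈ Ioc 0 X, ∑ n' ∈ Ioc 0 X, (if n = n' then (M : ℂ) * (‖F n‖ : ℂ) ^ 2 else 0) := by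
          refine Finset.sum_congr rfl fun n hn => Finset.sum_congr rfl fun n' hn' => ?_
          rw [h1 M _ hM]
          rw [mem_Ioc] at hn hn'
          by_cases hnn : n = n'
          · subst hnn
            rw [if_pos rfl, sub_self, if_pos (dvd_zero _), ← Complex.mul_conj']
            ring
          · rw [if_neg hnn, if_neg, mul_zero]
            intro hd
            apply hnn
            have h2 : (n : ℤ) - n' = 0 := by
              apply Int.eq_zero_of_abs_lt_dvd hd
              rw [abs_lt]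
              omega
            omega
      _ = (M : ℂ) * ∑ n ∈ Ioc 0 X, ((‖F n‖ : ℝ) : ℂ) ^ 2 := by
          rw [Finset.mul_sum]
          refine Finset.sum_congr rfl fun n hn => ?_
          rw [Finset.sum_ite_eq, if_pos hn]
  exact_mod_cast hkey

theorem hPFL (h1 : StORT) : StPFL := by
  intro F X D N hD hN hX
  have hNM : 1 ≤ N * D := Nat.mul_pos hN hD
  have hN0 : (N : ℝ) ≠ 0 := by
    have : N ≠ 0 := by omega
    exact_mod_cast this
  have hD0 : (D : ℝ) ≠ 0 := by
    have : D ≠ 0 := by omega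
    exact_mod_cast this
  have h2 := sum_blocks_PFL (fun m => ‖Sc F X ((m : ℝ) / ((N * D : ℕ) : ℝ))‖ ^ 2) N D
  rw [parseval_PFL h1 F X (N * D) hNM hX] at h2
  rw [Nat.cast_mul] at h2
  rw [← h2]
  refine Finset.sum_congr rfl fun k _ => ?_
  unfold NN
  refine Finset.sum_congr rfl fun j _ => ?_
  have e : ((k : ℝ) / N + j) / D = ((k + N * j : ℕ) : ℝ) / ((N : ℝ) * D) := by
    push_cast
    field_simp
  rw [e]

end Pool.Agent.Helper49.PC
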