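import Pool.Agent.Helper49.PC.StG

/-!
# Project PC, module PHI: `q / φ(q) ≤ 1 + log₂ q`
-/

set_option autoImplicit false

namespace Pool.Agent.Helper49.PC

open Finset

/-- `∏ (1 - 1/p)⁻¹ ≤ 1 + |S|` over a set of integers at least `2` -/
lemma prod_PHI (S : Finset ℕ) : (∀ p ∈ S, 2 ≤ p) →
    1 ≤ (1 + (S.card : ℝ)) * ∏ p ∈ S, (1 - 1 / (p : ℝ)) := by
  induction S using Finset.induction_on_max with
  | empty => simp
  | insert a s ha ih =>
    intro h
    have hs : ∀ p ∈ s, 2 ≤ p := fun p hp => h p (Finset.mem_insert_of_mem hp)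
    have h1 := ih hs
    have hna : a ∉ s := fun h' => lt_irrefl _ (ha a h')
    have ha2 : 2 ≤ a := h a (Finset.mem_insert_self a s)
    have hc : s.card + 2 ≤ a := by
      have h2 : s ⊆ Finset.Ico 2 a := fun p hp => Finset.mem_Ico.2 ⟨hs p hp, ha p hp⟩
      have h3 := Finset.card_le_card h2
      rw [Nat.card_Ico] at h3
      omega
    rw [Finset.prod_insert hna, Finset.card_insert_of_notMem hna]
    have hP : 0 ≤ ∏ p ∈ s, (1 - 1 / (p : ℝ)) := Finset.prod_nonneg fun p hp => by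
      have h4 : (2 : ℝ) ≤ p := by exact_mod_cast hs p hp
      rw [sub_nonneg, div_le_one (by linarith)]
      linarith
    have hcr : (s.card : ℝ) + 2 ≤ a := by exact_mod_cast hc
    have ha0 : (0 : ℝ) < a := by
      have : (0 : ℝ) ≤ s.card := Nat.cast_nonneg _
      linarith
    have h5 : 1 + (s.card : ℝ) ≤ (1 + ((s.card + 1 : ℕ) : ℝ)) * (1 - 1 / (a : ℝ)) := by
      push_cast
      have h6 : (1 + ((s.card : ℝ) + 1)) * (1 / (a : ℝ)) ≤ 1 := by
        rw [mul_one_div, div_le_one ha0]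
        linarith
      linarith
    calc (1 : ℝ) ≤ (1 + (s.card : ℝ)) * ∏ p ∈ s, (1 - 1 / (p : ℝ)) := h1
      _ ≤ ((1 + ((s.card + 1 : ℕ) : ℝ)) * (1 - 1 / (a : ℝ))) * ∏ p ∈ s, (1 - 1 / (p : ℝ)) :=
          mul_le_mul_of_nonneg_right h5 hP
      _ = _ := by ring

lemma tot_PHI (q : ℕ) : (Nat.totient q : ℝ) = q * ∏ p ∈ q.primeFactors, (1 - 1 / (p : ℝ)) := by
  have h4 := Nat.totient_eq_mul_prod_factors q
  have h5 : ((Nat.totient q : ℚ) : ℝ) = ((q * ∏ p ∈ q.primeFactors, (1 - (p : ℚ)⁻¹) : ℚ) : ℝ) := by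
    rw [h4]
  push_cast at h5
  rw [h5]
  congr 1
  exact Finset.prod_congr rfl fun p _ => by rw [one_div]

theorem hPHI : StPHI := by
  intro q hq
  have hq0 : (0 : ℝ) ≤ q := Nat.cast_nonneg q
  have h1 : 2 ^ q.primeFactors.card ≤ q := by
    calc 2 ^ q.primeFactors.card ≤ ∏ p ∈ q.primeFactors, p :=
          Finset.pow_card_le_prod _ _ _ fun p hp => (Nat.prime_of_mem_primeFactors hp).two_le
      _ ≤ q := Nat.le_of_dvd hq (Nat.prod_primeFactors_dvd q)
  have h2 : q.primeFactors.card ≤ Nat.log 2 q := Nat.le_log_of_pow_le (by norm_num) h1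
  have h3 := prod_PHI q.primeFactors fun p hp => (Nat.prime_of_mem_primeFactors hp).two_le
  have h4 : (q.primeFactors.card : ℝ) ≤ (Nat.log 2 q : ℕ) := by exact_mod_cast h2
  have hφ : (0 : ℝ) ≤ Nat.totient q := Nat.cast_nonneg _
  calc (q : ℝ) = q * 1 := (mul_one _).symm
    _ ≤ q * ((1 + (q.primeFactors.card : ℝ)) * ∏ p ∈ q.primeFactors, (1 - 1 / (p : ℝ))) :=
        mul_le_mul_of_nonneg_left h3 hq0
    _ = Nat.totient q * (1 + (q.primeFactors.card : ℝ)) := by
        rw [tot_PHI]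
        ring
    _ ≤ Nat.totient q * (1 + (Nat.log 2 q : ℕ)) :=
        mul_le_mul_of_nonneg_left (by linarith) hφ

end Pool.Agent.Helper49.PC
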