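import Pool.Agent.Helper49.PC.StE

/-!
# Project PC, module PMIE: total of the minor arcs
-/

set_option autoImplicit false

namespace Pool.Agent.Helper49.PC

open Finset ArithmeticFunction Classical Filter
open Pool.Agent.Helper48.BK (ex th lz Vz Pz gs nd Apx AdN Sol thd)
open scoped ComplexConjugate

private lemma cut_sq_PMIE (f : ℕ → ℝ) (w₀ w₁ n : ℕ) (T : ℝ) (h0 : 0 ≤ f n) (hT : f n ≤ T) :
    (cut f w₀ w₁ n) ^ 2 ≤ T ^ 2 := by
  unfold cut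
  split_ifs
  · exact pow_le_pow_left₀ h0 hT 2
  · simpa using sq_nonneg T

private lemma sum_sq_PMIE (f : ℕ → ℝ) (w₀ w₁ Y : ℕ) (T : ℝ)
    (hf : ∀ n, 1 ≤ n → n ≤ Y → 0 ≤ f n ∧ f n ≤ T) :
    ∑ n ∈ Ioc 0 Y, (cut f w₀ w₁ n) ^ 2 ≤ Y * T ^ 2 := by
  have h : ∑ n ∈ Ioc 0 Y, (cut f w₀ w₁ n) ^ 2 ≤ ∑ n ∈ Ioc 0 Y, T ^ 2 :=
    Finset.sum_le_sum fun n hn => by
      have hn' := Finset.mem_Ioc.1 hn
      obtain ⟨h1, h2⟩ := hf n hn'.1 hn'.2
      exact cut_sq_PMIE f w₀ w₁ n T h1 h2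
  simpa using h

private lemma sqrt_PMIE (D M S T : ℝ) (hD : 0 ≤ D) (hM : 0 ≤ M) (hT : 0 ≤ T)
    (hS : S ≤ D * M * T ^ 2) : √(M ^ 2 * D * S) ≤ D * M * T * √M := by
  rw [Real.sqrt_le_left (by positivity)]
  have h : (D * M * T * √M) ^ 2 = M ^ 2 * D * (D * M * T ^ 2) := by
    have := Real.sq_sqrt hM
    calc (D * M * T * √M) ^ 2 = D ^ 2 * M ^ 2 * T ^ 2 * (√M ^ 2) := by ring
      _ = _ := by rw [this]; ring
  rw [h]
  exact mul_le_mul_of_nonneg_left hS (by positivity)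

private lemma fin_PMIE (K : ℕ) (a b c M L e s₂ s₃ : ℝ) (ha : 0 < a) (hb : 0 < b) (hc : 0 < c)
    (hM : 0 < M) (hL : 4 ≤ L) (he : e ≤ L ^ K)
    (hs2 : s₂ ≤ a * c * M * (2 * L) * √M) (hs3 : s₃ ≤ a * b * M * (2 * L) * √M)
    (hs20 : 0 ≤ s₂) (hs30 : 0 ≤ s₃) :
    1 / (M ^ 2 * (a * b * c)) * (e * (b * c * M / L ^ (K + 4) * s₂ * s₃)) ≤
      a * b * c * M ^ 2 / L := by
  have hL0 : 0 < L := by linarith
  have hsq := Real.sq_sqrt hM.le
  have h1 : b * c * M / L ^ (K + 4) * s₂ * s₃ ≤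
      b * c * M / L ^ (K + 4) * (a * c * M * (2 * L) * √M) * (a * b * M * (2 * L) * √M) := by
    have : 0 ≤ b * c * M / L ^ (K + 4) := by positivity
    exact mul_le_mul (mul_le_mul_of_nonneg_left hs2 this) hs3 hs30 (by positivity)
  have h2 : b * c * M / L ^ (K + 4) * (a * c * M * (2 * L) * √M) * (a * b * M * (2 * L) * √M) =
      4 * (a * b * c) ^ 2 * M ^ 4 / L ^ (K + 2) := by
    calc _ = b * c * M / L ^ (K + 4) * (a * c * M * (2 * L)) * (a * b * M * (2 * L)) * (√M ^ 2) := by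
          ring
      _ = _ := by
        rw [hsq]
        field_simp
        ring
  rw [h2] at h1
  have h3 : e * (b * c * M / L ^ (K + 4) * s₂ * s₃) ≤
      L ^ K * (4 * (a * b * c) ^ 2 * M ^ 4 / L ^ (K + 2)) :=
    mul_le_mul he h1 (by positivity) (by positivity)
  have h4 : L ^ K * (4 * (a * b * c) ^ 2 * M ^ 4 / L ^ (K + 2)) =
      4 * (a * b * c) ^ 2 * M ^ 4 / L ^ 2 := by
    rw [pow_add]
    field_simp
  rw [h4] at h3
  have h5 : 1 / (M ^ 2 * (a * b * c)) * (e * (b * c * M / L ^ (K + 4) * s₂ * s₃)) ≤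
      1 / (M ^ 2 * (a * b * c)) * (4 * (a * b * c) ^ 2 * M ^ 4 / L ^ 2) :=
    mul_le_mul_of_nonneg_left h3 (by positivity)
  refine h5.trans ?_
  have h6 : 1 / (M ^ 2 * (a * b * c)) * (4 * (a * b * c) ^ 2 * M ^ 4 / L ^ 2) =
      a * b * c * M ^ 2 / L * (4 / L) := by
    field_simp
  rw [h6]
  have h7 : 4 / L ≤ 1 := by rw [div_le_one hL0]; exact hL
  have h8 : 0 ≤ a * b * c * M ^ 2 / L := by positivity
  nlinarith

/-- approximation of a minor point -/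
private lemma apx_PMIE (h4 : StMEA) (p Z k : ℕ) (hZ : 1 ≤ Z) (hk : k ∈ range ((16 * Z) ^ 2))
    (hL : 1 ≤ Real.log (16 * Z)) (hkM : k ∉ Maj p Z)
    (hQ : Real.log (16 * Z) ^ p ≤ 16 * Z) :
    ∃ (v : ℕ) (h : ℤ), Apx ((k : ℝ) / ((16 * Z) ^ 2 : ℕ)) h v ∧
      Real.log (16 * Z) ^ p ≤ v ∧ v * Real.log (16 * Z) ^ p ≤ 16 * Z := by
  obtain ⟨Q, hQd⟩ : ∃ Q : ℕ, Q = ⌊(16 * Z : ℝ) / Real.log (16 * Z) ^ p⌋₊ := ⟨_, rfl⟩
  have hLp : 0 < Real.log (16 * Z) ^ p := by positivity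
  have hQ1 : 1 ≤ Q := by
    rw [hQd]
    refine Nat.le_floor ?_
    rw [Nat.cast_one, le_div_iff₀ hLp, one_mul]
    exact hQ
  have hQle : (Q : ℝ) * Real.log (16 * Z) ^ p ≤ 16 * Z := by
    rw [← le_div_iff₀ hLp, hQd]
    exact Nat.floor_le (by positivity)
  obtain ⟨v, h, hv1, hvQ, hcop, hap⟩ := h4.1 Q ((k : ℝ) / ((16 * Z) ^ 2 : ℕ)) hQ1
  have hv0 : (0 : ℝ) < v := by exact_mod_cast hv1
  have hQ0 : (0 : ℝ) < Q := by exact_mod_cast hQ1
  have hvQ' : (v : ℝ) ≤ Q := by exact_mod_cast hvQ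
  refine ⟨v, h, ⟨hv1, hcop, hap.trans ?_⟩, ?_, ?_⟩
  · rw [sq]
    exact one_div_le_one_div_of_le (by positivity) (mul_le_mul_of_nonneg_left hvQ' hv0.le)
  · by_contra hlt
    push Not at hlt
    apply hkM
    unfold Maj
    rw [Finset.mem_filter]
    refine ⟨hk, v, h, hv1, hlt.le, ?_⟩
    rw [← hQd]
    exact hap
  · exact (mul_le_mul_of_nonneg_right hvQ' hLp.le).trans hQle

private lemma log_PMIE : Tendsto (fun Z : ℕ => Real.log (16 * (Z : ℝ))) atTop atTop :=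
  Real.tendsto_log_atTop.comp (Tendsto.const_mul_atTop (by norm_num) tendsto_natCast_atTop_atTop)

theorem hPMIE (h1 : StMNRE) (h2 : StMIT) (h3 : StMIZ) (h4 : StMEA) (h5 : StLZB) : StPMIE := by
  intro K
  obtain ⟨p₁, C₀, x₁, hT⟩ := h2 (2 * K + 8)
  obtain ⟨p₂, hMZ⟩ := h3 (2 * K + 8)
  obtain ⟨Cz, hCz, hlz⟩ := h5
  refine ⟨p₁ + p₂ + 1, C₀ + (p₁ + p₂ + 1), fun B => ?_⟩
  obtain ⟨x₂, hMZB⟩ := hMZ B
  have hE : ∀ᶠ Z : ℕ in atTop, x₁ ≤ 16 * Z ∧ x₂ ≤ 16 * Z ∧ 4 ≤ Real.log (16 * (Z : ℝ)) ∧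
      Cz * B * Real.log (Real.log (16 * (Z : ℝ))) ≤ Real.log (16 * (Z : ℝ)) := by
    have e1 : ∀ᶠ Z : ℕ in atTop, x₁ ≤ 16 * Z := by
      filter_upwards [eventually_ge_atTop x₁] with Z hZ
      omega
    have e2 : ∀ᶠ Z : ℕ in atTop, x₂ ≤ 16 * Z := by
      filter_upwards [eventually_ge_atTop x₂] with Z hZ
      omega
    have e3 := log_PMIE.eventually (eventually_ge_atTop (4 : ℝ))
    have e4 : ∀ᶠ y : ℝ in atTop, Cz * B * Real.log y ≤ y := by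
      have h0 : (0 : ℝ) < 1 / (Cz * B + 1) := by positivity
      have h6 := Real.isLittleO_log_id_atTop.bound h0
      filter_upwards [h6, eventually_ge_atTop (1 : ℝ)] with y hy hy1
      have hl : 0 ≤ Real.log y := Real.log_nonneg hy1
      rw [Real.norm_of_nonneg hl, id, Real.norm_of_nonneg (by linarith)] at hy
      have h7 : (Cz * B + 1) * Real.log y ≤ y := by
        have h8 := mul_le_mul_of_nonneg_left hy (by positivity : (0 : ℝ) ≤ Cz * B + 1)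
        rwa [← mul_assoc, mul_one_div_cancel (by positivity), one_mul] at h8
      nlinarith
    filter_upwards [e1, e2, e3, log_PMIE.eventually e4] with Z a1 a2 a3 a4
    exact ⟨a1, a2, a3, a4⟩
  obtain ⟨x₀, hx₀⟩ := eventually_atTop.1 hE
  refine ⟨x₀, fun a b c Z z d hZ0 ha hb hc hEE hbc hac hab hz1 hz2 f hf => ?_⟩
  obtain ⟨hX1, hX2, hL4, hLL⟩ := hx₀ Z hZ0
  obtain ⟨L, hLd⟩ : ∃ L : ℝ, L = Real.log (16 * (Z : ℝ)) := ⟨_, rfl⟩
  obtain ⟨p, hpd⟩ : ∃ p : ℕ, p = p₁ + p₂ + 1 := ⟨_, rfl⟩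
  have hL1 : 1 ≤ L := by rw [hLd]; linarith
  have hZ1 : 1 ≤ Z := by
    rcases Nat.eq_zero_or_pos Z with h0 | h0
    · rw [h0] at hL4; norm_num at hL4
    · exact h0
  have hZr : (1 : ℝ) ≤ Z := by exact_mod_cast hZ1
  have hD1 : 1 ≤ b * c := Nat.mul_pos hb hc
  have hD1r : (1 : ℝ) ≤ ((b * c : ℕ) : ℝ) := by exact_mod_cast hD1
  rw [← hpd] at hbc hz1 ⊢
  rw [← hLd] at hEE hbc hz1 hz2 hL4 hLL ⊢
  have hL0 : 0 < L := by linarith
  have hCp : L ^ (C₀ + p) ≤ 16 * (Z : ℝ) := by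
    have : 0 ≤ L ^ (C₀ + p) := by positivity
    nlinarith
  have hLp : L ^ p ≤ 16 * (Z : ℝ) :=
    (pow_le_pow_right₀ hL1 (Nat.le_add_left p C₀)).trans hCp
  have hDC0 : ((b * c : ℕ) : ℝ) * L ^ C₀ ≤ 16 * (Z : ℝ) :=
    (mul_le_mul_of_nonneg_left (pow_le_pow_right₀ hL1 (Nat.le_add_right C₀ p))
      (by positivity)).trans hbc
  have hDM : b * c ≤ 16 * Z := by
    have : ((b * c : ℕ) : ℝ) ≤ ((16 * Z : ℕ) : ℝ) := by
      have h8 : (1 : ℝ) ≤ L ^ C₀ := one_le_pow₀ hL1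
      push_cast at hDC0 ⊢
      have : 0 ≤ (b : ℝ) * c := by positivity
      nlinarith
    exact_mod_cast this
  have hMcast : ((16 * Z : ℕ) : ℝ) = 16 * (Z : ℝ) := by push_cast; ring
  -- size of f
  have hz2' : 2 ≤ z := by
    have h8 : (2 : ℝ) ≤ L ^ p := by
      have : L ^ 1 ≤ L ^ p := pow_le_pow_right₀ hL1 (by omega)
      rw [pow_one] at this
      linarith
    have : (2 : ℝ) ≤ z := h8.trans hz1
    exact_mod_cast this
  have hfsize : ∀ Y : ℕ, Y ≤ (16 * Z) ^ 2 → ∀ n, 1 ≤ n → n ≤ Y → 0 ≤ f n ∧ f n ≤ 2 * L := by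
    intro Y hY n hn1 hnY
    rcases hf with rfl | rfl
    · unfold th
      split_ifs with hp
      · refine ⟨Real.log_natCast_nonneg n, ?_⟩
        have h8 : (n : ℝ) ≤ (16 * (Z : ℝ)) ^ 2 := by
          have : n ≤ (16 * Z) ^ 2 := hnY.trans hY
          exact_mod_cast this
        have h9 := Real.log_le_log (by exact_mod_cast hn1) h8
        rw [Real.log_pow, ← hLd] at h9
        exact_mod_cast h9
      · exact ⟨le_rfl, by positivity⟩
    · obtain ⟨h8, h9⟩ := hlz z n hz2'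
      refine ⟨h8, h9.trans ?_⟩
      have h10 : Real.log z ≤ B * Real.log L := by
        rw [← Real.log_pow]
        exact Real.log_le_log (by positivity) hz2
      nlinarith
  -- minor arcs bound
  have hminor : ∀ k ∈ range ((16 * Z) ^ 2) \ Maj p Z,
      NN (fun n => ((cut f (4 * (b * c) * Z) (5 * (b * c) * Z) n : ℝ) : ℂ)) (b * c * (16 * Z))
        (b * c) ((k : ℝ) / ((16 * Z) ^ 2 : ℕ)) ≤
        (((b * c : ℕ) : ℝ) * (16 * Z) / L ^ (K + 4)) ^ 2 := by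
    intro k hk
    rw [Finset.mem_sdiff] at hk
    obtain ⟨v, h, hap, hv1, hv2⟩ := apx_PMIE h4 p Z k hZ1 hk.1 (by rw [← hLd]; exact hL1) hk.2
      (by rw [← hLd]; exact hLp)
    rw [← hLd] at hv1 hv2
    have hw : 5 * (b * c) * Z ≤ b * c * (16 * Z) := by
      have : 0 ≤ b * c * Z := Nat.zero_le _
      nlinarith
    have hfin : (((b * c : ℕ) : ℝ) * (16 * Z : ℕ)) ^ 2 / L ^ (2 * K + 8) =
        (((b * c : ℕ) : ℝ) * (16 * Z) / L ^ (K + 4)) ^ 2 := by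
      rw [hMcast, div_pow, ← pow_mul]
      congr 2
      ring
    have hv0 : (0 : ℝ) ≤ v := Nat.cast_nonneg v
    rcases hf with rfl | rfl
    · have h8 := hT (16 * Z) (b * c) v (4 * (b * c) * Z) (5 * (b * c) * Z) h
        ((k : ℝ) / ((16 * Z) ^ 2 : ℕ)) hX1 hD1 (by rw [hMcast, ← hLd]; exact hDC0) hap
        (by rw [hMcast, ← hLd]
            exact (pow_le_pow_right₀ hL1 (by omega)).trans hv1)
        (by rw [hMcast, ← hLd]
            exact (mul_le_mul_of_nonneg_left (pow_le_pow_right₀ hL1 (by omega)) hv0).trans hv2) hw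
      refine h8.trans (le_of_eq ?_)
      rw [← hfin, hMcast, ← hLd]
    · have h8 := hMZB (16 * Z) (b * c) v z (4 * (b * c) * Z) (5 * (b * c) * Z) h
        ((k : ℝ) / ((16 * Z) ^ 2 : ℕ)) hX2 hD1 hDM hap
        (by rw [hMcast, ← hLd]
            exact (pow_le_pow_right₀ hL1 (by omega)).trans hv1)
        (by rw [hMcast, ← hLd]
            exact (mul_le_mul_of_nonneg_left (pow_le_pow_right₀ hL1 (by omega)) hv0).trans hv2) hw
        (by rw [hMcast, ← hLd]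
            exact (pow_le_pow_right₀ hL1 (by omega)).trans hz1)
        (by rw [hMcast, ← hLd]; exact hz2)
      refine h8.trans (le_of_eq ?_)
      rw [← hfin, hMcast, ← hLd]
  have hNpos : 1 ≤ (16 * Z) ^ 2 := Nat.one_le_pow _ _ (by omega)
  have hYle : ∀ x : ℕ, x * (16 * Z) ≤ (16 * Z) ^ 2 * x := by
    intro x
    have : 16 * Z ≤ (16 * Z) ^ 2 := by nlinarith
    calc x * (16 * Z) ≤ x * (16 * Z) ^ 2 := Nat.mul_le_mul_left _ this
      _ = _ := Nat.mul_comm _ _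
  have hmain := h1 (cut f (4 * (b * c) * Z) (5 * (b * c) * Z))
    (cut f (4 * (a * c) * Z) (5 * (a * c) * Z)) (cut f (2 * (a * b) * Z) (16 * (a * b) * Z))
    (b * c * (16 * Z)) (a * c * (16 * Z)) (a * b * (16 * Z)) a b c ((16 * Z) ^ 2) d
    (range ((16 * Z) ^ 2) \ Maj p Z) (((b * c : ℕ) : ℝ) * (16 * Z) / L ^ (K + 4))
    ha hb hc hNpos (hYle _) (hYle _) (by positivity) Finset.sdiff_subset hminor
  have hS2 := sum_sq_PMIE f (4 * (a * c) * Z) (5 * (a * c) * Z) (a * c * (16 * Z)) (2 * L)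
    (hfsize _ (by rw [sq]; exact Nat.mul_le_mul_right _ hac))
  have hS3 := sum_sq_PMIE f (2 * (a * b) * Z) (16 * (a * b) * Z) (a * b * (16 * Z)) (2 * L)
    (hfsize _ (by rw [sq]; exact Nat.mul_le_mul_right _ hab))
  have hcast1 : (((a * c * (16 * Z) : ℕ)) : ℝ) = (a : ℝ) * c * (16 * Z) := by push_cast; ring
  have hcast2 : (((a * b * (16 * Z) : ℕ)) : ℝ) = (a : ℝ) * b * (16 * Z) := by push_cast; ring
  rw [hcast1] at hS2
  rw [hcast2] at hS3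
  have hq2 := sqrt_PMIE ((a : ℝ) * c) (16 * Z) _ (2 * L) (by positivity) (by positivity)
    (by positivity) hS2
  have hq3 := sqrt_PMIE ((a : ℝ) * b) (16 * Z) _ (2 * L) (by positivity) (by positivity)
    (by positivity) hS3
  have ha0 : (0 : ℝ) < a := by exact_mod_cast ha
  have hb0 : (0 : ℝ) < b := by exact_mod_cast hb
  have hc0 : (0 : ℝ) < c := by exact_mod_cast hc
  have hfin := fin_PMIE K (a : ℝ) b c (16 * Z) L (EE a b c : ℝ) _ _ ha0 hb0 hc0 (by positivity)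
    hL4 hEE hq2 hq3 (Real.sqrt_nonneg _) (Real.sqrt_nonneg _)
  have hnorm : ‖1 / (((16 * Z) ^ 2 : ℕ) * (a * b * c : ℕ) : ℂ)‖ =
      1 / ((16 * (Z : ℝ)) ^ 2 * (a * b * c)) := by
    rw [norm_div, norm_one, norm_mul, Complex.norm_natCast, Complex.norm_natCast]
    push_cast
    ring
  rw [norm_mul, hnorm]
  have hgoal : ((a * b * c : ℕ) : ℝ) * (16 * Z) ^ 2 / L = (a : ℝ) * b * c * (16 * Z) ^ 2 / L := by
    push_cast
    ring
  rw [hgoal]
  refine le_trans (mul_le_mul_of_nonneg_left ?_ (by positivity)) hfin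
  refine le_trans hmain (le_of_eq ?_)
  push_cast
  ring_nf

end Pool.Agent.Helper49.PC
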