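import Pool.Agent.Helper49.PC.StC
import Pool.Agent.Helper48.BK.StW

/-!
# Project PC, module PNU: the principal character
-/

set_option autoImplicit false

namespace Pool.Agent.Helper49.PC

open Finset ArithmeticFunction
open Pool.Agent.Helper48.BK (ex th lz Vz Pz gs nd Apx AdN Sol thd)
open scoped ComplexConjugate

private theorem bU_PNU {ι : Type*} [DecidableEq ι] (s : Finset ι) (t : ι → Finset ℕ) (f : ℕ → ℝ)
    (hf : ∀ n, 0 ≤ f n) : ∑ n ∈ s.biUnion t, f n ≤ ∑ i ∈ s, ∑ n ∈ t i, f n := by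
  induction s using Finset.induction_on with
  | empty => simp
  | insert a s ha ih =>
    rw [Finset.biUnion_insert, Finset.sum_insert ha]
    have h1 := Finset.sum_union_inter (s₁ := t a) (s₂ := s.biUnion t) (f := f)
    have h2 : 0 ≤ ∑ n ∈ t a ∩ s.biUnion t, f n := Finset.sum_nonneg fun n _ => hf n
    linarith

private theorem bad_PNU (q y : ℕ) (hq : q ≠ 0) :
    ∑ n ∈ (Ioc 0 y).filter (fun n => ¬ Nat.Coprime n q), Λ n ≤
      (q.primeFactors.card : ℝ) * Real.log y := by
  rcases Nat.eq_zero_or_pos y with rfl | hy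
  · simp
  calc ∑ n ∈ (Ioc 0 y).filter (fun n => ¬ Nat.Coprime n q), Λ n
      ≤ ∑ n ∈ ((Ioc 0 y).filter (fun n => ¬ Nat.Coprime n q)).filter (fun n => IsPrimePow n),
          Λ n := by
        rw [Finset.sum_filter (p := fun n => IsPrimePow n)]
        refine Finset.sum_le_sum fun n _ => ?_
        split_ifs with h
        · exact le_rfl
        · rw [vonMangoldt_apply, if_neg h]
    _ ≤ ∑ n ∈ q.primeFactors.biUnion (fun p => (Icc 1 (Nat.log p y)).image (fun k => p ^ k)),
          Λ n := by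
        refine Finset.sum_le_sum_of_subset_of_nonneg ?_ fun _ _ _ => vonMangoldt_nonneg
        intro n hn
        rw [mem_filter, mem_filter, mem_Ioc] at hn
        obtain ⟨⟨⟨hn0, hny⟩, hnc⟩, hpp⟩ := hn
        obtain ⟨p, k, hp, hk, rfl⟩ := hpp
        have hp' : p.Prime := hp.nat_prime
        rw [Finset.mem_biUnion]
        refine ⟨p, ?_, ?_⟩
        · rw [Nat.mem_primeFactors]
          refine ⟨hp', ?_, hq⟩
          by_contra hd
          exact hnc (Nat.Coprime.pow_left k ((Nat.Prime.coprime_iff_not_dvd hp').2 hd))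
        · rw [Finset.mem_image]
          exact ⟨k, mem_Icc.2 ⟨hk, Nat.le_log_of_pow_le hp'.one_lt hny⟩, rfl⟩
    _ ≤ ∑ p ∈ q.primeFactors, ∑ n ∈ (Icc 1 (Nat.log p y)).image (fun k => p ^ k), Λ n :=
        bU_PNU _ _ _ fun _ => vonMangoldt_nonneg
    _ ≤ ∑ p ∈ q.primeFactors, Real.log y := by
        refine Finset.sum_le_sum fun p hp => ?_
        have hp' : p.Prime := Nat.prime_of_mem_primeFactors hp
        rw [Finset.sum_image (by
          intro a _ b _ hab
          exact Nat.pow_right_injective hp'.two_le hab)]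
        calc ∑ k ∈ Icc 1 (Nat.log p y), Λ (p ^ k) = ∑ k ∈ Icc 1 (Nat.log p y), Real.log p := by
              refine Finset.sum_congr rfl fun k hk => ?_
              have hk1 := (mem_Icc.1 hk).1
              rw [vonMangoldt_apply_pow (by omega), vonMangoldt_apply_prime hp']
          _ = (Nat.log p y : ℝ) * Real.log p := by
              rw [Finset.sum_const, Nat.card_Icc, nsmul_eq_mul]
              norm_num
          _ = Real.log ((p ^ Nat.log p y : ℕ) : ℝ) := by
              rw [Nat.cast_pow, Real.log_pow]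
          _ ≤ Real.log y := by
              apply Real.log_le_log
              · exact_mod_cast pow_pos hp'.pos _
              · exact_mod_cast Nat.pow_log_le_self p (by omega)
    _ = (q.primeFactors.card : ℝ) * Real.log y := by
        rw [Finset.sum_const, nsmul_eq_mul]

private theorem card_PNU (q : ℕ) (hq : q ≠ 0) :
    (q.primeFactors.card : ℝ) ≤ 2 * Real.log q := by
  have h1 : 2 ^ q.primeFactors.card ≤ q := by
    calc 2 ^ q.primeFactors.card ≤ ∏ p ∈ q.primeFactors, p :=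
          Finset.pow_card_le_prod _ _ _ fun p hp => (Nat.prime_of_mem_primeFactors hp).two_le
      _ ≤ q := Nat.le_of_dvd (Nat.pos_of_ne_zero hq) (Nat.prod_primeFactors_dvd q)
  have h2 : Real.log ((2 : ℝ) ^ q.primeFactors.card) ≤ Real.log q := by
    apply Real.log_le_log (by positivity)
    exact_mod_cast h1
  rw [Real.log_pow] at h2
  have h3 : (1 : ℝ) / 2 ≤ Real.log 2 := by
    have := Real.log_two_gt_d9
    linarith
  have h4 : (0 : ℝ) ≤ (q.primeFactors.card : ℝ) := Nat.cast_nonneg _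
  nlinarith

private theorem prin_PNU (q w₀ w₁ : ℕ) [NeZero q] :
    Psi (1 : DirichletCharacter ℂ q) w₀ w₁ =
      ((∑ n ∈ (Ioc w₀ w₁).filter (fun n => Nat.Coprime n q), Λ n : ℝ) : ℂ) := by
  rw [Complex.ofReal_sum, Finset.sum_filter, Psi]
  refine Finset.sum_congr rfl fun n _ => ?_
  split_ifs with h
  · rw [MulChar.one_apply ((ZMod.isUnit_iff_coprime n q).2 h), mul_one]
  · rw [MulChar.map_nonunit _ (fun h1 => h ((ZMod.isUnit_iff_coprime n q).1 h1)), mul_zero]

private theorem big_PNU (K : ℕ) (ε M : ℝ) (hε : 0 < ε) : ∃ x₀ : ℕ, ∀ x : ℕ, x₀ ≤ x →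
    M ≤ Real.log x ∧ Real.log x ^ K ≤ ε * √x := by
  have h1 : ∀ᶠ x : ℝ in Filter.atTop, M ≤ Real.log x := Real.tendsto_log_atTop.eventually_ge_atTop M
  have h2 : ∀ᶠ x : ℝ in Filter.atTop, ‖Real.log x ^ (K : ℝ)‖ ≤ ε * ‖x ^ (1 / 2 : ℝ)‖ :=
    (isLittleO_log_rpow_rpow_atTop (K : ℝ) (by norm_num : (0 : ℝ) < 1 / 2)).def hε
  have h3 := (h1.and (h2.and (Filter.eventually_ge_atTop (1 : ℝ))))
  obtain ⟨X, hX⟩ := Filter.eventually_atTop.1 h3
  obtain ⟨x₀, hx₀⟩ := exists_nat_ge X
  refine ⟨x₀, fun x hx => ?_⟩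
  obtain ⟨h4, h5, h6⟩ := hX x (hx₀.trans (by exact_mod_cast hx))
  refine ⟨h4, ?_⟩
  rw [Real.rpow_natCast, Real.norm_of_nonneg (pow_nonneg (Real.log_nonneg h6) _),
    Real.norm_of_nonneg (Real.rpow_nonneg (by linarith) _), ← Real.sqrt_eq_rpow] at h5
  exact h5

/-- one endpoint -/
private theorem one_PNU (A : ℕ) (C : ℝ) (hC : 0 < C)
    (h : ∀ N : ℕ, 2 ≤ N → |∑ n ∈ Ioc 0 N, Λ n - N| ≤ C * N / Real.log N ^ (A + 1))
    (q X y : ℕ) (hq : q ≠ 0) (hqX : q ≤ X) (hyX : y ≤ X)
    (hX1 : 4 * (C * 2 ^ (A + 1) + 2) ≤ Real.log X)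
    (hX2 : Real.log X ^ (A + 2) ≤ 1 / 8 * √X) :
    |∑ n ∈ (Ioc 0 y).filter (fun n => Nat.Coprime n q), Λ n - y| ≤
      X / Real.log X ^ A / 2 := by
  have hL8 : (8 : ℝ) ≤ Real.log X := by
    have : (0 : ℝ) < C * 2 ^ (A + 1) := by positivity
    linarith
  have hL0 : (0 : ℝ) < Real.log X := by linarith
  have hX0 : (1 : ℝ) ≤ X := by
    have : X ≠ 0 := by
      rintro rfl
      simp at hL0
    exact_mod_cast Nat.one_le_iff_ne_zero.2 this
  set L := Real.log X with hLdef
  have hsq : √(X : ℝ) * √(X : ℝ) = X := Real.mul_self_sqrt (by linarith)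
  have hs1 : 1 ≤ √(X : ℝ) := by
    rw [Real.one_le_sqrt]
    exact hX0
  have hyX' : (y : ℝ) ≤ X := by exact_mod_cast hyX
  have hy0 : (0 : ℝ) ≤ y := Nat.cast_nonneg _
  have hsplit : ∑ n ∈ Ioc 0 y, Λ n = ∑ n ∈ (Ioc 0 y).filter (fun n => Nat.Coprime n q), Λ n +
      ∑ n ∈ (Ioc 0 y).filter (fun n => ¬ Nat.Coprime n q), Λ n :=
    (Finset.sum_filter_add_sum_filter_not _ _ _).symm
  have hlogy : Real.log y ≤ L := by
    rcases Nat.eq_zero_or_pos y with h0 | h0
    · rw [h0]
      simp only [Nat.cast_zero, Real.log_zero]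
      linarith
    · apply Real.log_le_log _ hyX'
      exact_mod_cast h0
  have hlogq : Real.log q ≤ L := by
    apply Real.log_le_log
    · exact_mod_cast Nat.pos_of_ne_zero hq
    · exact_mod_cast hqX
  have hlogy0 : 0 ≤ Real.log y := Real.log_natCast_nonneg y
  have hlogq0 : 0 ≤ Real.log q := Real.log_natCast_nonneg q
  have hbad0 : 0 ≤ ∑ n ∈ (Ioc 0 y).filter (fun n => ¬ Nat.Coprime n q), Λ n :=
    Finset.sum_nonneg fun _ _ => vonMangoldt_nonneg
  have hbad : ∑ n ∈ (Ioc 0 y).filter (fun n => ¬ Nat.Coprime n q), Λ n ≤ 2 * L ^ 2 := by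
    refine (bad_PNU q y hq).trans ?_
    have h1 := card_PNU q hq
    calc (q.primeFactors.card : ℝ) * Real.log y ≤ (2 * L) * L := by
          apply mul_le_mul (by linarith) hlogy hlogy0 (by linarith)
      _ = 2 * L ^ 2 := by ring
  have hLA : 0 < L ^ A := by positivity
  have hbad2 : 2 * L ^ 2 ≤ X / L ^ A / 4 := by
    rw [div_div, le_div_iff₀ (by positivity)]
    calc 2 * L ^ 2 * (L ^ A * 4) = 8 * L ^ (A + 2) := by ring
      _ ≤ √X := by linarith
      _ ≤ √X * √X := by nlinarith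
      _ = X := hsq
  have hmain : |∑ n ∈ Ioc 0 y, Λ n - y| ≤ X / L ^ A / 4 := by
    have hkey : |∑ n ∈ Ioc 0 y, Λ n - y| ≤ (C * 2 ^ (A + 1) + 2) * (X / L ^ (A + 1)) := by
      by_cases hy : (y : ℝ) ≤ X / L ^ (A + 2)
      · have h1 : 0 ≤ ∑ n ∈ Ioc 0 y, Λ n := Finset.sum_nonneg fun _ _ => vonMangoldt_nonneg
        have h2 : ∑ n ∈ Ioc 0 y, Λ n ≤ y * L := by
          calc ∑ n ∈ Ioc 0 y, Λ n ≤ ∑ n ∈ Ioc 0 y, L := by
                refine Finset.sum_le_sum fun n hn => ?_
                rw [mem_Ioc] at hn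
                refine vonMangoldt_le_log.trans ?_
                apply Real.log_le_log
                · exact_mod_cast hn.1
                · exact_mod_cast hn.2.trans hyX
            _ = y * L := by simp
        have h3 : (y : ℝ) * L ≤ X / L ^ (A + 1) := by
          calc (y : ℝ) * L ≤ X / L ^ (A + 2) * L := mul_le_mul_of_nonneg_right hy hL0.le
            _ = X / L ^ (A + 1) := by
              rw [pow_succ L (A + 1), div_mul_eq_mul_div, mul_div_mul_right _ _ hL0.ne']
        have h4 : (y : ℝ) ≤ y * L := by nlinarith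
        have h5 : (0 : ℝ) ≤ X / L ^ (A + 1) := by positivity
        have h6 : 0 ≤ C * 2 ^ (A + 1) * (X / L ^ (A + 1)) := by positivity
        rw [abs_le]
        constructor <;> nlinarith
      · push Not at hy
        have hLs : L ^ (A + 2) ≤ √X := by linarith
        have h1 : √(X : ℝ) < y := by
          refine lt_of_le_of_lt ?_ hy
          rw [le_div_iff₀ (by positivity)]
          calc √(X : ℝ) * L ^ (A + 2) ≤ √X * √X := by
                apply mul_le_mul_of_nonneg_left hLs (by positivity)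
            _ = X := hsq
        have h2 : L / 2 ≤ Real.log y := by
          rw [hLdef, ← Real.log_sqrt (by linarith)]
          exact Real.log_le_log (by linarith) h1.le
        have h3 : 2 ≤ y := by
          have : (1 : ℝ) < y := by linarith
          exact_mod_cast this
        refine (h y h3).trans ?_
        have h4 : (L / 2) ^ (A + 1) ≤ Real.log y ^ (A + 1) :=
          pow_le_pow_left₀ (by linarith) h2 _
        calc C * y / Real.log y ^ (A + 1) ≤ C * X / (L / 2) ^ (A + 1) := by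
              apply div_le_div₀ (by positivity) (by nlinarith) (by positivity) h4
          _ = C * 2 ^ (A + 1) * (X / L ^ (A + 1)) := by
              rw [div_pow]
              field_simp
          _ ≤ (C * 2 ^ (A + 1) + 2) * (X / L ^ (A + 1)) := by
              apply mul_le_mul_of_nonneg_right (by linarith) (by positivity)
    refine hkey.trans ?_
    have e1 : (X : ℝ) / L ^ A / 4 = (L / 4) * (X / L ^ (A + 1)) := by
      rw [pow_succ]
      field_simp
    rw [e1]
    apply mul_le_mul_of_nonneg_right (by linarith) (by positivity)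
  have h9 : ∑ n ∈ (Ioc 0 y).filter (fun n => Nat.Coprime n q), Λ n - y =
      (∑ n ∈ Ioc 0 y, Λ n - y) -
        ∑ n ∈ (Ioc 0 y).filter (fun n => ¬ Nat.Coprime n q), Λ n := by
    rw [hsplit]
    ring
  rw [h9]
  rw [abs_le] at hmain ⊢
  constructor <;> linarith [hmain.1, hmain.2]

theorem hPNU (h1 : Pool.Agent.Helper48.BK.StPNT) : StPNU := by
  intro A
  obtain ⟨C, hC, h⟩ := h1 (A + 1)
  obtain ⟨x₀, hx₀⟩ := big_PNU (A + 2) (1 / 8) (4 * (C * 2 ^ (A + 1) + 2)) (by norm_num)
  refine ⟨x₀, fun q _ X w₀ w₁ hX hqX h01 h1X => ?_⟩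
  obtain ⟨hX1, hX2⟩ := hx₀ X hX
  have hq : q ≠ 0 := NeZero.ne q
  have ha := one_PNU A C hC h q X w₀ hq hqX (h01.trans h1X) hX1 hX2
  have hb := one_PNU A C hC h q X w₁ hq hqX h1X hX1 hX2
  have hs : ∑ n ∈ (Ioc 0 w₁).filter (fun n => Nat.Coprime n q), Λ n =
      ∑ n ∈ (Ioc 0 w₀).filter (fun n => Nat.Coprime n q), Λ n +
        ∑ n ∈ (Ioc w₀ w₁).filter (fun n => Nat.Coprime n q), Λ n := by
    rw [← Finset.Ioc_union_Ioc_eq_Ioc (Nat.zero_le w₀) h01, Finset.filter_union,
      Finset.sum_union]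
    exact Finset.disjoint_filter_filter (Finset.Ioc_disjoint_Ioc_of_le le_rfl)
  rw [prin_PNU]
  have hc : (((∑ n ∈ (Ioc w₀ w₁).filter (fun n => Nat.Coprime n q), Λ n : ℝ) : ℂ) -
      ((w₁ : ℂ) - w₀)) = (((∑ n ∈ (Ioc w₀ w₁).filter (fun n => Nat.Coprime n q), Λ n) -
        (w₁ - w₀) : ℝ) : ℂ) := by
    push_cast
    ring
  rw [hc, Complex.norm_real, Real.norm_eq_abs]
  rw [abs_le] at ha hb ⊢
  constructor <;> linarith [ha.1, ha.2, hb.1, hb.2]

end Pool.Agent.Helper49.PC
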