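import Pool.Agent.Helper49.PC.StC

/-!
# Project PC: module PS2 (trivial mean square of Psi)
-/

set_option autoImplicit false

namespace Pool.Agent.Helper49.PC

open Finset ArithmeticFunction
open Pool.Agent.Helper48.BK (ex th lz Vz Pz gs nd Apx AdN Sol thd)
open scoped ComplexConjugate

theorem hPS2 (h1 : StMSQ) : StPS2 := by
  intro q _ X w₀ w₁ hX hq hw
  have hlog : 0 ≤ Real.log X := Real.log_natCast_nonneg X
  have hX0 : (0 : ℝ) ≤ X := Nat.cast_nonneg X
  rcases le_total w₁ w₀ with h | h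
  · have h2 : ∀ χ : DirichletCharacter ℂ q, ‖Psi χ w₀ w₁‖ ^ 2 = 0 := by
      intro χ
      unfold Psi
      rw [Finset.Ioc_eq_empty_of_le h]
      simp
    rw [Finset.sum_congr rfl (fun χ _ => h2 χ), Finset.sum_const_zero]
    positivity
  · have h2 := h1 q w₀ (w₁ - w₀) (fun n => ((Λ n : ℝ) : ℂ))
    rw [Nat.add_sub_cancel' h] at h2
    refine (le_of_eq ?_).trans (h2.trans ?_)
    · rfl
    · have h3 : ∑ n ∈ Ioc w₀ w₁, ‖((Λ n : ℝ) : ℂ)‖ ^ 2 ≤ X * Real.log X ^ 2 := by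
        have h4 : ∀ n ∈ Ioc w₀ w₁, ‖((Λ n : ℝ) : ℂ)‖ ^ 2 ≤ Real.log X ^ 2 := by
          intro n hn
          rw [Finset.mem_Ioc] at hn
          have hn0 : 0 < n := by omega
          rw [Complex.norm_real, Real.norm_of_nonneg vonMangoldt_nonneg]
          have h5 : Λ n ≤ Real.log X := by
            refine vonMangoldt_le_log.trans ?_
            exact Real.log_le_log (by exact_mod_cast hn0) (by exact_mod_cast hn.2.trans hw)
          exact pow_le_pow_left₀ vonMangoldt_nonneg h5 2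
        refine (Finset.sum_le_sum h4).trans ?_
        rw [Finset.sum_const, nsmul_eq_mul, Nat.card_Ioc]
        have h6 : ((w₁ - w₀ : ℕ) : ℝ) ≤ X := by
          exact_mod_cast (Nat.sub_le _ _).trans hw
        exact mul_le_mul_of_nonneg_right h6 (by positivity)
      have h7 : (((w₁ - w₀ : ℕ) : ℝ) + q) ≤ 2 * X := by
        have h8 : ((w₁ - w₀ : ℕ) : ℝ) ≤ X := by
          exact_mod_cast (Nat.sub_le _ _).trans hw
        have h9 : (q : ℝ) ≤ X := by exact_mod_cast hq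
        linarith
      have h10 : (0 : ℝ) ≤ ∑ n ∈ Ioc w₀ w₁, ‖((Λ n : ℝ) : ℂ)‖ ^ 2 :=
        Finset.sum_nonneg fun n _ => by positivity
      calc (((w₁ - w₀ : ℕ) : ℝ) + q) * ∑ n ∈ Ioc w₀ w₁, ‖((Λ n : ℝ) : ℂ)‖ ^ 2
          ≤ (2 * X) * (X * Real.log X ^ 2) := mul_le_mul h7 h3 h10 (by positivity)
        _ = 2 * X ^ 2 * Real.log X ^ 2 := by ring

end Pool.Agent.Helper49.PC
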