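import Pool.Agent.Helper49.PC.StF

set_option autoImplicit false

namespace Pool.Agent.Helper49.PC

open Finset
open Pool.Agent.Helper48.BK (ex)
open scoped ComplexConjugate

private theorem pars_PV (h1 : StORT) (D : ℕ) (hD : 1 ≤ D) (c : ℕ → ℂ) :
    ∑ j ∈ range D, ‖∑ l ∈ range D, c l * ex ((l : ℝ) * j / D)‖ ^ 2 =
      D * ∑ l ∈ range D, ‖c l‖ ^ 2 := by
  have h2 : ∀ z : ℂ, ((‖z‖ ^ 2 : ℝ) : ℂ) = z * conj z := by
    intro z
    rw [Complex.mul_conj, Complex.normSq_eq_norm_sq]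
  have h3 : ((∑ j ∈ range D, ‖∑ l ∈ range D, c l * ex ((l : ℝ) * j / D)‖ ^ 2 : ℝ) : ℂ) =
      ((D * ∑ l ∈ range D, ‖c l‖ ^ 2 : ℝ) : ℂ) := by
    rw [Complex.ofReal_sum, Complex.ofReal_mul, Complex.ofReal_sum, Complex.ofReal_natCast]
    have h4 : ∀ j ∈ range D, ((‖∑ l ∈ range D, c l * ex ((l : ℝ) * j / D)‖ ^ 2 : ℝ) : ℂ) =
        ∑ l ∈ range D, ∑ m ∈ range D, c l * conj (c m) * ex (((l : ℤ) - (m : ℤ) : ℤ) * j / D) := by
      intro j _
      rw [h2, map_sum, sum_mul_sum]
      refine sum_congr rfl fun l _ => sum_congr rfl fun m _ => ?_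
      rw [map_mul, conj_ex]
      have h5 : ex ((((l : ℤ) - (m : ℤ) : ℤ) : ℝ) * j / D) =
          ex ((l : ℝ) * j / D) * ex (-((m : ℝ) * j / D)) := by
        rw [← ex_add]
        congr 1
        push_cast
        ring
      rw [h5]
      ring
    rw [sum_congr rfl h4, sum_comm, mul_sum]
    refine sum_congr rfl fun l hl => ?_
    rw [sum_comm]
    have h6 : ∀ m ∈ range D, ∑ j ∈ range D,
        c l * conj (c m) * ex (((l : ℤ) - (m : ℤ) : ℤ) * j / D) =
        if m = l then c l * conj (c m) * D else 0 := by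
      intro m hm
      rw [← mul_sum, h1 D ((l : ℤ) - m) hD]
      have h7 : ((D : ℤ) ∣ (l : ℤ) - m) ↔ m = l := by
        constructor
        · intro h8
          have h9 : |(l : ℤ) - m| < D := by
            rw [abs_lt]
            rw [mem_range] at hl hm
            omega
          have h10 := Int.eq_zero_of_abs_lt_dvd h8 h9
          omega
        · rintro rfl
          simp
      simp only [h7]
      split_ifs <;> simp
    rw [sum_congr rfl h6, sum_ite_eq' (range D) l, if_pos hl, h2]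
    ring
  exact_mod_cast h3

theorem hPV (h1 : StORT) : StPV := by
  intro F X D θ hD
  have hD0 : (D : ℝ) ≠ 0 := by
    have : (0 : ℝ) < D := by exact_mod_cast hD
    exact this.ne'
  rw [← pars_PV h1 D hD (fun l => ∑ n ∈ (Ioc 0 X).filter (fun n => n ≡ l [MOD D]),
    F n * ex (n * (θ / D)))]
  unfold NN
  refine sum_congr rfl fun j _ => ?_
  congr 2
  unfold Sc
  have hmaps : ∀ n ∈ Ioc 0 X, n % D ∈ range D := fun n _ => mem_range.mpr (Nat.mod_lt _ hD)
  rw [← sum_fiberwise_of_maps_to hmaps]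
  refine sum_congr rfl fun l hl => ?_
  rw [mem_range] at hl
  rw [sum_mul]
  have hset : (Ioc 0 X).filter (fun n => n % D = l) = (Ioc 0 X).filter (fun n => n ≡ l [MOD D]) := by
    refine filter_congr fun n _ => ?_
    rw [Nat.ModEq, Nat.mod_eq_of_lt hl]
  rw [hset]
  refine sum_congr rfl fun n hn => ?_
  rw [mem_filter] at hn
  have h2 : ex ((n : ℝ) * ((θ + j) / D)) = ex ((n : ℝ) * (θ / D)) * ex ((n : ℝ) * j / D) := by
    rw [← ex_add]
    congr 1
    ring
  have h3 : ex ((n : ℝ) * j / D) = ex ((l : ℝ) * j / D) := by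
    have h4 : (n % D) = l := by
      have := hn.2
      rwa [Nat.ModEq, Nat.mod_eq_of_lt hl] at this
    obtain ⟨q, hq⟩ : ∃ q : ℕ, n = D * q + l := ⟨n / D, by rw [← h4]; exact (Nat.div_add_mod n D).symm⟩
    have h5 : (n : ℝ) = D * (q : ℝ) + l := by
      rw [hq]
      push_cast
      ring
    have h6 : (n : ℝ) * j / D = (((q : ℤ) * j : ℤ) : ℝ) + (l : ℝ) * j / D := by
      rw [h5]
      push_cast
      field_simp
    rw [h6, ex_add, ex_int, one_mul]
  rw [h2, h3]
  ring

end Pool.Agent.Helper49.PC
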