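import Pool.Agent.Helper49.PC.StF

/-!
# Project PC, module PVI: Parseval on `Z/q`
-/

set_option autoImplicit false

namespace Pool.Agent.Helper49.PC

open Finset ArithmeticFunction
open Pool.Agent.Helper48.BK (ex th lz Vz Pz gs nd Apx AdN Sol thd)
open scoped ComplexConjugate

private theorem aux1_PVI (q : ℕ) (b : ℕ → ℂ) (i : ℕ) :
    ((‖∑ x ∈ range q, b x * ex ((i : ℝ) * x / q)‖ ^ 2 : ℝ) : ℂ) =
      ∑ x ∈ range q, ∑ y ∈ range q,
        b x * conj (b y) * ex ((((x : ℤ) - (y : ℤ) : ℤ) : ℝ) * (i : ℝ) / (q : ℝ)) := by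
  rw [Complex.ofReal_pow, ← Complex.mul_conj', map_sum, Finset.sum_mul_sum]
  refine Finset.sum_congr rfl fun x _ => Finset.sum_congr rfl fun y _ => ?_
  rw [map_mul, conj_ex]
  have h : ex ((((x : ℤ) - (y : ℤ) : ℤ) : ℝ) * (i : ℝ) / (q : ℝ)) =
      ex ((i : ℝ) * x / q) * ex (-((i : ℝ) * y / q)) := by
    rw [← ex_add]
    congr 1
    push_cast
    ring
  rw [h]
  ring

private theorem aux2_PVI (q x y : ℕ) (hx : x < q) (hy : y < q) :
    ((q : ℤ) ∣ ((x : ℤ) - (y : ℤ))) ↔ x = y := by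
  constructor
  · intro h
    have h2 : ((x : ℤ) - y) = 0 := by
      apply Int.eq_zero_of_abs_lt_dvd h
      rw [abs_lt]
      constructor <;> omega
    omega
  · intro h
    rw [h, sub_self]
    exact dvd_zero _

theorem hPVI (h1 : StORT) : StPVI := by
  intro q b hq
  have e1 : ((∑ i ∈ range q, ‖∑ x ∈ range q, b x * ex ((i : ℝ) * x / q)‖ ^ 2 : ℝ) : ℂ) =
      ((q * ∑ x ∈ range q, ‖b x‖ ^ 2 : ℝ) : ℂ) := by
    rw [Complex.ofReal_sum, Finset.sum_congr rfl fun i _ => aux1_PVI q b i, Finset.sum_comm]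
    have e2 : ∀ x ∈ range q, ∑ i ∈ range q, ∑ y ∈ range q,
        b x * conj (b y) * ex ((((x : ℤ) - (y : ℤ) : ℤ) : ℝ) * (i : ℝ) / (q : ℝ)) =
        (q : ℂ) * (((‖b x‖ ^ 2 : ℝ)) : ℂ) := by
      intro x hx
      rw [Finset.sum_comm]
      have e3 : ∀ y ∈ range q, ∑ i ∈ range q,
          b x * conj (b y) * ex ((((x : ℤ) - (y : ℤ) : ℤ) : ℝ) * (i : ℝ) / (q : ℝ)) =
          if x = y then b x * conj (b y) * (q : ℂ) else 0 := by
        intro y hy
        rw [← Finset.mul_sum, h1 q ((x : ℤ) - y) hq]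
        simp only [aux2_PVI q x y (mem_range.mp hx) (mem_range.mp hy)]
        split_ifs <;> simp
      rw [Finset.sum_congr rfl e3, Finset.sum_ite_eq, if_pos hx, Complex.mul_conj',
        Complex.ofReal_pow]
      ring
    rw [Finset.sum_congr rfl e2, ← Finset.mul_sum]
    push_cast
    rfl
  exact_mod_cast e1

end Pool.Agent.Helper49.PC
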