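import Pool.Agent.Helper49.PC.StE

/-!
# Project PC: module RDC

Reduction to pairwise coprime divisors.
-/

set_option autoImplicit false

namespace Pool.Agent.Helper49.PC

private theorem split_RDC (a b : ℕ) (ha : 1 ≤ a) (hb : 1 ≤ b) : ∃ a' b' : ℕ, a' ∣ a ∧ b' ∣ b ∧
    1 ≤ a' ∧ 1 ≤ b' ∧ Nat.Coprime a' b' ∧ a * b = Nat.gcd a b * (a' * b') := by
  refine ⟨a.factorizationLCMLeft b, a.factorizationLCMRight b,
    Nat.factorizationLCMLeft_dvd_left a b, Nat.factorizationLCMRight_dvd_right a b,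
    Nat.factorizationLCMLeft_pos a b, Nat.factorizationLCMRight_pos a b,
    Nat.coprime_factorizationLCMLeft_factorizationLCMRight a b, ?_⟩
  rw [Nat.factorizationLCMLeft_mul_factorizationLCMRight (by omega) (by omega), Nat.gcd_mul_lcm]

theorem hRDC : StRDC := by
  intro a b c ha hb hc
  obtain ⟨a1, b1, h1, h2, p1, p2, co1, e1⟩ := split_RDC a b ha hb
  obtain ⟨a2, c1, h3, h4, p3, p4, co2, e2⟩ := split_RDC a1 c p1 hc
  obtain ⟨b2, c2, h5, h6, p5, p6, co3, e3⟩ := split_RDC b1 c1 p2 p4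
  refine ⟨a2, b2, c2, Nat.gcd a b * Nat.gcd a1 c * Nat.gcd b1 c1, h3.trans h1, h5.trans h2,
    h6.trans h4, p3, p5, p6, ⟨?_, ?_, co3⟩, ?_, ?_, ?_⟩
  · exact Nat.Coprime.coprime_dvd_left h3 (Nat.Coprime.coprime_dvd_right h5 co1)
  · exact Nat.Coprime.coprime_dvd_right h6 co2
  · calc a * b * c = Nat.gcd a b * (a1 * b1) * c := by rw [e1]
      _ = Nat.gcd a b * b1 * (a1 * c) := by ring
      _ = Nat.gcd a b * b1 * (Nat.gcd a1 c * (a2 * c1)) := by rw [e2]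
      _ = Nat.gcd a b * Nat.gcd a1 c * a2 * (b1 * c1) := by ring
      _ = Nat.gcd a b * Nat.gcd a1 c * a2 * (Nat.gcd b1 c1 * (b2 * c2)) := by rw [e3]
      _ = Nat.gcd a b * Nat.gcd a1 c * Nat.gcd b1 c1 * (a2 * b2 * c2) := by ring
  · have g1 : 0 < Nat.gcd a b := Nat.gcd_pos_of_pos_left _ (by omega)
    have g2 : 0 < Nat.gcd a1 c := Nat.gcd_pos_of_pos_left _ (by omega)
    have g3 : 0 < Nat.gcd b1 c1 := Nat.gcd_pos_of_pos_left _ (by omega)
    exact Nat.mul_pos (Nat.mul_pos g1 g2) g3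
  · unfold EE
    have k2 : Nat.gcd a1 c ≤ Nat.gcd a c :=
      Nat.le_of_dvd (Nat.gcd_pos_of_pos_left _ (by omega)) (Nat.gcd_dvd_gcd_of_dvd_left c h1)
    have k3 : Nat.gcd b1 c1 ≤ Nat.gcd b c :=
      Nat.le_of_dvd (Nat.gcd_pos_of_pos_left _ (by omega))
        (Nat.dvd_gcd ((Nat.gcd_dvd_left _ _).trans h2) ((Nat.gcd_dvd_right _ _).trans h4))
    exact Nat.mul_le_mul (Nat.mul_le_mul le_rfl k2) k3

end Pool.Agent.Helper49.PC
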