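import Pool.Agent.Helper49.PC.StN

/-!
# Project PC, module RED: from `θ` to `Λ` on coprime integers
-/

set_option autoImplicit false

namespace Pool.Agent.Helper49.PC

open Finset ArithmeticFunction
open Pool.Agent.Helper48.BK (ex th lz Vz Pz gs nd Apx AdN Sol thd)
open scoped ComplexConjugate

private theorem sum_log_RED (q : ℕ) (hq : 1 ≤ q) :
    ∑ p ∈ q.primeFactors, Real.log p ≤ Real.log q := by
  have h1 : ∑ p ∈ q.primeFactors, Real.log p = Real.log (∏ p ∈ q.primeFactors, (p : ℝ)) := by
    rw [Real.log_prod]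
    intro p hp
    exact_mod_cast (Nat.prime_of_mem_primeFactors hp).ne_zero
  rw [h1, ← Nat.cast_prod]
  have h2 : ∏ p ∈ q.primeFactors, p ≤ q := Nat.le_of_dvd hq (Nat.prod_primeFactors_dvd q)
  have h3 : 0 < ∏ p ∈ q.primeFactors, p :=
    Finset.prod_pos fun p hp => (Nat.prime_of_mem_primeFactors hp).pos
  exact Real.log_le_log (by exact_mod_cast h3) (by exact_mod_cast h2)

private theorem point_RED (hTh : Pool.Agent.Helper48.BK.StTh) (X q w₀ w₁ n : ℕ) (hX : 3 ≤ X)
    (hn0 : 0 < n) (hn : n ≤ X) (hq : 1 ≤ q) :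
    ‖((cut th w₀ w₁ n - (if Nat.Coprime n q then cut (fun n => Λ n) w₀ w₁ n else 0) : ℝ) : ℂ)‖ ^ 2
      ≤ Real.log X * (Λ n - th n) + Real.log X * (if n ∈ q.primeFactors then Real.log n else 0) := by
  obtain ⟨h0, h1, h2⟩ := hTh.1 n
  have hlX : Real.log n ≤ Real.log X :=
    Real.log_le_log (by exact_mod_cast hn0) (by exact_mod_cast hn)
  have hlX0 : 0 ≤ Real.log X := Real.log_natCast_nonneg X
  have hln : 0 ≤ Real.log n := Real.log_natCast_nonneg n
  have hL : Λ n ≤ Real.log n := vonMangoldt_le_log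
  have hA : 0 ≤ Real.log X * (Λ n - th n) := mul_nonneg hlX0 (by linarith)
  have hB : 0 ≤ Real.log X * (if n ∈ q.primeFactors then Real.log n else 0) := by
    refine mul_nonneg hlX0 ?_
    split_ifs
    · exact hln
    · exact le_rfl
  rw [Complex.norm_real, Real.norm_eq_abs, sq_abs]
  unfold cut
  by_cases hw : w₀ < n ∧ n ≤ w₁
  · rw [if_pos hw, if_pos hw]
    by_cases hc : Nat.Coprime n q
    · rw [if_pos hc]
      have h3 : (th n - Λ n) ^ 2 ≤ Real.log X * (Λ n - th n) := by nlinarith
      linarith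
    · rw [if_neg hc, sub_zero]
      by_cases hp : n.Prime
      · have hd : n ∣ q := by
          by_contra hnd
          exact hc ((Nat.Prime.coprime_iff_not_dvd hp).2 hnd)
        have hm : n ∈ q.primeFactors := Nat.mem_primeFactors.2 ⟨hp, hd, by omega⟩
        rw [if_pos hm]
        have h3 : th n ^ 2 ≤ Real.log X * Real.log n := by nlinarith
        linarith
      · have h3 : th n = 0 := by
          unfold Pool.Agent.Helper48.BK.th
          rw [if_neg hp]
        rw [h3, zero_pow two_ne_zero]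
        rw [h3] at hA
        linarith
  · rw [if_neg hw, if_neg hw, ite_self, sub_zero, zero_pow two_ne_zero]
    linarith

theorem hRED (h1 : StTRV) (h2 : Pool.Agent.Helper48.BK.StTh) : StRED := by
  obtain ⟨C, hC, hT⟩ := h2.2
  refine ⟨2 * (C + 1), by positivity, ?_⟩
  intro X D q w₀ w₁ θ hX hD hDX hq hqX _
  have hlog1 : 1 ≤ Real.log X := by
    rw [Real.le_log_iff_exp_le (by exact_mod_cast (by omega : 0 < X))]
    have h3 : (3 : ℝ) ≤ X := by exact_mod_cast hX
    linarith [Real.exp_one_lt_d9]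
  have hX1 : (1 : ℝ) ≤ √X := by
    rw [Real.one_le_sqrt]
    exact_mod_cast (by omega : 1 ≤ X)
  have hsum : ∑ n ∈ Ioc 0 X,
      ‖((cut th w₀ w₁ n - (if Nat.Coprime n q then cut (fun n => Λ n) w₀ w₁ n else 0) : ℝ) : ℂ)‖ ^ 2
      ≤ (C + 1) * √X * Real.log X ^ 3 := by
    calc ∑ n ∈ Ioc 0 X, ‖((cut th w₀ w₁ n -
        (if Nat.Coprime n q then cut (fun n => Λ n) w₀ w₁ n else 0) : ℝ) : ℂ)‖ ^ 2
        ≤ ∑ n ∈ Ioc 0 X, (Real.log X * (Λ n - th n) +
          Real.log X * (if n ∈ q.primeFactors then Real.log n else 0)) := by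
          refine Finset.sum_le_sum fun n hn => ?_
          rw [Finset.mem_Ioc] at hn
          exact point_RED h2 X q w₀ w₁ n hX hn.1 hn.2 hq
      _ = Real.log X * ∑ n ∈ Ioc 0 X, (Λ n - th n) +
          Real.log X * ∑ n ∈ Ioc 0 X, (if n ∈ q.primeFactors then Real.log n else 0) := by
          rw [Finset.sum_add_distrib, Finset.mul_sum, Finset.mul_sum]
      _ ≤ Real.log X * (C * √X * Real.log X ^ 2) + Real.log X * Real.log X := by
          have h3 := hT X hX
          have h4 : ∑ n ∈ Ioc 0 X, (if n ∈ q.primeFactors then Real.log (n : ℝ) else 0) ≤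
              Real.log X := by
            rw [← Finset.sum_filter]
            calc ∑ n ∈ (Ioc 0 X).filter (fun n => n ∈ q.primeFactors), Real.log (n : ℝ)
                ≤ ∑ n ∈ q.primeFactors, Real.log (n : ℝ) :=
                  Finset.sum_le_sum_of_subset_of_nonneg
                    (fun n hn => (Finset.mem_filter.1 hn).2)
                    fun n _ _ => Real.log_natCast_nonneg n
              _ ≤ Real.log q := sum_log_RED q hq
              _ ≤ Real.log X := Real.log_le_log (by exact_mod_cast hq) (by exact_mod_cast hqX)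
          have h5 := mul_le_mul_of_nonneg_left h3 (zero_le_one.trans hlog1)
          have h6 := mul_le_mul_of_nonneg_left h4 (zero_le_one.trans hlog1)
          linarith
      _ ≤ (C + 1) * √X * Real.log X ^ 3 := by
          have h7 : Real.log X * Real.log X ≤ √X * Real.log X ^ 3 := by
            have h8 : Real.log X * Real.log X ≤ Real.log X ^ 3 := by nlinarith
            have h9 : 0 ≤ Real.log X ^ 3 := by positivity
            nlinarith
          nlinarith
  refine (h1 _ X D θ hD).trans ?_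
  have hXD : ((X : ℝ) + D) ≤ 2 * X := by
    have : (D : ℝ) ≤ X := by exact_mod_cast hDX
    linarith
  calc ((X : ℝ) + D) * ∑ n ∈ Ioc 0 X, ‖((cut th w₀ w₁ n -
        (if Nat.Coprime n q then cut (fun n => Λ n) w₀ w₁ n else 0) : ℝ) : ℂ)‖ ^ 2
      ≤ (2 * X) * ((C + 1) * √X * Real.log X ^ 3) :=
        mul_le_mul hXD hsum (Finset.sum_nonneg fun _ _ => sq_nonneg _) (by positivity)
    _ = 2 * (C + 1) * X * √X * Real.log X ^ 3 := by ring

end Pool.Agent.Helper49.PC
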