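import Pool.Agent.Helper49.PC.StM

/-!
# Project PC, module SL0: slowly varying phase, smooth coefficient
-/

set_option autoImplicit false

namespace Pool.Agent.Helper49.PC

open Finset
open Pool.Agent.Helper48.BK (ex)

lemma ex_lip_SL0 (s t : ℝ) : ‖ex s - ex t‖ ≤ 2 * Real.pi * |s - t| := by
  have h1 : ex s - ex t = ex t * (ex (s - t) - 1) := by
    rw [mul_sub, ← ex_add, mul_one]
    congr 2
    ring
  rw [h1, norm_mul, norm_ex, one_mul]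
  have h2 : ex (s - t) = Complex.exp (Complex.I * ((2 * Real.pi * (s - t) : ℝ) : ℂ)) := by
    unfold Pool.Agent.Helper48.BK.ex
    congr 1
    push_cast
    ring
  rw [h2]
  refine Real.norm_exp_I_mul_ofReal_sub_one_le.trans ?_
  rw [Real.norm_eq_abs, abs_mul, abs_of_pos (by positivity : (0 : ℝ) < 2 * Real.pi)]

lemma tt_mono_SL0 (w₀ w₁ S s : ℕ) : tt w₀ w₁ S s ≤ tt w₀ w₁ S (s + 1) := by
  unfold tt
  exact Nat.add_le_add_left (Nat.div_le_div_right (Nat.mul_le_mul_left _ (Nat.le_succ s))) _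

lemma tt_step_SL0 (w₀ w₁ S s : ℕ) (hS : 1 ≤ S) (hw : w₀ ≤ w₁) :
    ((tt w₀ w₁ S (s + 1) : ℕ) : ℝ) - (tt w₀ w₁ S s : ℕ) ≤ ((w₁ : ℝ) - w₀) / S + 1 := by
  have hS0 : (0 : ℝ) < S := by exact_mod_cast hS
  have h1 : (w₁ - w₀) * (s + 1) / S * S ≤ (w₁ - w₀) * (s + 1) := Nat.div_mul_le_self _ _
  have h2 : (w₁ - w₀) * s < (w₁ - w₀) * s / S * S + S := by
    have := Nat.lt_div_mul_add (a := (w₁ - w₀) * s) (show 0 < S from hS)
    exact this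
  have h3 : (((w₁ - w₀) * (s + 1) / S * S : ℕ) : ℝ) ≤ ((w₁ - w₀) * (s + 1) : ℕ) := by
    exact_mod_cast h1
  have h4 : (((w₁ - w₀) * s : ℕ) : ℝ) < (((w₁ - w₀) * s / S * S + S : ℕ) : ℝ) := by
    exact_mod_cast h2
  unfold tt
  push_cast [Nat.cast_sub hw] at h3 h4 ⊢
  have h5 : ((((w₁ - w₀) * (s + 1) / S : ℕ) : ℝ) - (((w₁ - w₀) * s / S : ℕ) : ℝ)) * S ≤
      ((w₁ : ℝ) - w₀) + S := by
    nlinarith
  have h6 : (((w₁ - w₀) * (s + 1) / S : ℕ) : ℝ) - (((w₁ - w₀) * s / S : ℕ) : ℝ) ≤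
      (((w₁ : ℝ) - w₀) + S) / S := by
    rw [le_div_iff₀ hS0]
    exact h5
  have h7 : (((w₁ : ℝ) - w₀) + S) / S = ((w₁ : ℝ) - w₀) / S + 1 := by
    field_simp
  rw [h7] at h6
  linarith

lemma split_SL0 (w₀ w₁ S : ℕ) (hS : 1 ≤ S) (hw : w₀ ≤ w₁) (f : ℕ → ℂ) :
    ∑ n ∈ Ioc w₀ w₁, f n =
      ∑ s ∈ range S, ∑ n ∈ Ioc (tt w₀ w₁ S s) (tt w₀ w₁ S (s + 1)), f n := by
  have h : ∀ k, ∑ n ∈ Ioc w₀ (tt w₀ w₁ S k), f n =
      ∑ s ∈ range k, ∑ n ∈ Ioc (tt w₀ w₁ S s) (tt w₀ w₁ S (s + 1)), f n := by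
    intro k
    induction k with
    | zero => simp [tt]
    | succ k ih =>
      rw [Finset.sum_range_succ, ← ih]
      exact (Finset.sum_Ioc_consecutive f (Nat.le_add_right _ _) (tt_mono_SL0 w₀ w₁ S k)).symm
  have hend : tt w₀ w₁ S S = w₁ := by
    unfold tt
    rw [Nat.mul_div_cancel _ (show 0 < S from hS)]
    omega
  have := h S
  rwa [hend] at this

theorem hSL0 : StSL0 := by
  intro M D S w₀ w₁ η hM hD hS hSD hw hw1
  have hM0 : (0 : ℝ) < M := by exact_mod_cast hM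
  have hD0 : (0 : ℝ) < D := by exact_mod_cast hD
  have hS0 : (0 : ℝ) < S := by exact_mod_cast hS
  have hSDr : (S : ℝ) ≤ D * M := by exact_mod_cast hSD
  have hwr : (w₀ : ℝ) ≤ w₁ := by exact_mod_cast hw
  have hw1r : (w₁ : ℝ) ≤ D * M := by exact_mod_cast hw1
  have hw0r : (0 : ℝ) ≤ w₀ := Nat.cast_nonneg _
  have hc0 : c0 D w₀ w₁ η = ∑ s ∈ range S,
      ∑ n ∈ Ioc (tt w₀ w₁ S s) (tt w₀ w₁ S (s + 1)), ex (n * (η / D)) :=
    split_SL0 w₀ w₁ S hS hw _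
  have hmain : ∑ s ∈ range S, ex (tt w₀ w₁ S s * (η / D)) *
      (((tt w₀ w₁ S (s + 1) : ℕ) : ℂ) - (tt w₀ w₁ S s : ℕ)) =
      ∑ s ∈ range S, ∑ _n ∈ Ioc (tt w₀ w₁ S s) (tt w₀ w₁ S (s + 1)),
        ex (tt w₀ w₁ S s * (η / D)) := by
    refine Finset.sum_congr rfl fun s _ => ?_
    rw [Finset.sum_const, Nat.card_Ioc, nsmul_eq_mul, Nat.cast_sub (tt_mono_SL0 w₀ w₁ S s),
      mul_comm]
  rw [hmain, hc0, ← Finset.sum_sub_distrib]
  have hterm : ∀ s ∈ range S, ‖∑ _n ∈ Ioc (tt w₀ w₁ S s) (tt w₀ w₁ S (s + 1)),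
        ex (tt w₀ w₁ S s * (η / D)) -
      ∑ n ∈ Ioc (tt w₀ w₁ S s) (tt w₀ w₁ S (s + 1)), ex (n * (η / D))‖ ≤
      ∑ _n ∈ Ioc (tt w₀ w₁ S s) (tt w₀ w₁ S (s + 1)), 4 * Real.pi * |η| * M / S := by
    intro s _
    rw [← Finset.sum_sub_distrib]
    refine (norm_sum_le _ _).trans (Finset.sum_le_sum fun n hn => ?_)
    rw [Finset.mem_Ioc] at hn
    refine (ex_lip_SL0 _ _).trans ?_
    have h1 : (tt w₀ w₁ S s : ℝ) * (η / D) - n * (η / D) = ((tt w₀ w₁ S s : ℝ) - n) * (η / D) := by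
      ring
    rw [h1, abs_mul, abs_div, abs_of_pos hD0]
    have h2 : |(tt w₀ w₁ S s : ℝ) - n| ≤ 2 * (D * M) / S := by
      have h3 : (tt w₀ w₁ S s : ℝ) < n := by exact_mod_cast hn.1
      have h4 : (n : ℝ) ≤ (tt w₀ w₁ S (s + 1) : ℕ) := by exact_mod_cast hn.2
      have h5 := tt_step_SL0 w₀ w₁ S s hS hw
      rw [abs_of_neg (by linarith)]
      have h6 : ((w₁ : ℝ) - w₀) / S + 1 ≤ 2 * (D * M) / S := by
        rw [le_div_iff₀ hS0, add_mul, one_mul, div_mul_cancel₀ _ hS0.ne']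
        linarith
      linarith
    calc 2 * Real.pi * (|(tt w₀ w₁ S s : ℝ) - n| * (|η| / D))
        ≤ 2 * Real.pi * ((2 * (D * M) / S) * (|η| / D)) := by
          apply mul_le_mul_of_nonneg_left _ (by positivity)
          exact mul_le_mul_of_nonneg_right h2 (by positivity)
      _ = 4 * Real.pi * |η| * M / S := by
          field_simp
          ring
  refine (norm_sum_le _ _).trans ((Finset.sum_le_sum hterm).trans ?_)
  have h8 : ∑ s ∈ range S, ∑ _n ∈ Ioc (tt w₀ w₁ S s) (tt w₀ w₁ S (s + 1)),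
      4 * Real.pi * |η| * M / S = ((w₁ : ℝ) - w₀) * (4 * Real.pi * |η| * M / S) := by
    have h9 := split_SL0 w₀ w₁ S hS hw (fun _ => ((4 * Real.pi * |η| * M / S : ℝ) : ℂ))
    have h10 : ((∑ s ∈ range S, ∑ _n ∈ Ioc (tt w₀ w₁ S s) (tt w₀ w₁ S (s + 1)),
      4 * Real.pi * |η| * M / S : ℝ) : ℂ) =
      ((((w₁ : ℝ) - w₀) * (4 * Real.pi * |η| * M / S) : ℝ) : ℂ) := by
      rw [Complex.ofReal_sum]
      simp only [Complex.ofReal_sum]
      rw [← h9, Finset.sum_const, Nat.card_Ioc, nsmul_eq_mul, Nat.cast_sub hw]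
      push_cast
      ring
    exact_mod_cast h10
  rw [h8]
  apply mul_le_mul_of_nonneg_right _ (by positivity)
  linarith

end Pool.Agent.Helper49.PC
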