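import Pool.Agent.Helper49.PC.StM

/-! Project PC, module SLO: slowly varying phase. -/

set_option autoImplicit false

namespace Pool.Agent.Helper49.PC

open Finset ArithmeticFunction
open Pool.Agent.Helper48.BK (ex th lz Vz Pz gs nd Apx AdN Sol thd)
open scoped ComplexConjugate

private theorem ex_sub_SLO (a b : ℝ) : ‖ex a - ex b‖ ≤ 2 * Real.pi * |a - b| := by
  have h1 : ex a - ex b = ex b * (Complex.exp (Complex.I * ((2 * Real.pi * (a - b) : ℝ) : ℂ)) - 1) := by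
    unfold ex
    rw [mul_sub, mul_one, ← Complex.exp_add]
    congr 2
    push_cast
    ring
  rw [h1, norm_mul, norm_ex, one_mul]
  refine (Real.norm_exp_I_mul_ofReal_sub_one_le).trans ?_
  rw [Real.norm_eq_abs, abs_mul, abs_of_pos (by positivity : (0 : ℝ) < 2 * Real.pi)]

private theorem tt_zero_SLO (w₀ w₁ S : ℕ) : tt w₀ w₁ S 0 = w₀ := by simp [tt]

private theorem tt_last_SLO (w₀ w₁ S : ℕ) (hS : 1 ≤ S) (h : w₀ ≤ w₁) : tt w₀ w₁ S S = w₁ := by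
  unfold tt
  rw [Nat.mul_div_cancel _ (by omega)]
  omega

private theorem tt_mono_SLO (w₀ w₁ S : ℕ) {s t : ℕ} (h : s ≤ t) :
    tt w₀ w₁ S s ≤ tt w₀ w₁ S t := by
  unfold tt
  exact Nat.add_le_add_left (Nat.div_le_div_right (Nat.mul_le_mul_left _ h)) _

private theorem tt_step_SLO (w₀ w₁ S s X : ℕ) (hS : 1 ≤ S) (hX : S ≤ X) (h1 : w₁ ≤ X) :
    ((tt w₀ w₁ S (s + 1) : ℕ) : ℝ) - (tt w₀ w₁ S s : ℕ) ≤ 2 * X / S := by
  have hS' : (0 : ℝ) < S := by exact_mod_cast hS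
  unfold tt
  set W := w₁ - w₀ with hW
  have hWX : (W : ℝ) ≤ X := by exact_mod_cast (by omega : W ≤ X)
  have e1 : ((W * (s + 1) / S : ℕ) : ℝ) ≤ (W * (s + 1) : ℕ) / (S : ℝ) := Nat.cast_div_le
  have e2 : ((W * s : ℕ) : ℝ) / S < ((W * s / S : ℕ) : ℝ) + 1 := by
    rw [div_lt_iff₀ hS']
    have := Nat.lt_div_mul_add (a := W * s) (b := S) (by omega)
    have h3 : W * s < (W * s / S + 1) * S := by nlinarith
    exact_mod_cast h3
  push_cast at e1 e2 ⊢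
  have e3 : (W : ℝ) * (s + 1) / S = W * s / S + W / S := by ring
  have e4 : (W : ℝ) / S ≤ X / S := by gcongr
  have e5 : (1 : ℝ) ≤ X / S := by
    rw [le_div_iff₀ hS', one_mul]
    exact_mod_cast hX
  have e6 : 2 * (X : ℝ) / S = X / S + X / S := by ring
  rw [e6]
  linarith

private theorem part_SLO (f : ℕ → ℂ) (w₀ w₁ S : ℕ) (r : ℕ) :
    ∑ s ∈ range r, ∑ n ∈ Ioc (tt w₀ w₁ S s) (tt w₀ w₁ S (s + 1)), f n =
      ∑ n ∈ Ioc (tt w₀ w₁ S 0) (tt w₀ w₁ S r), f n := by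
  induction r with
  | zero => simp
  | succ r ih =>
    rw [sum_range_succ, ih]
    exact Finset.sum_Ioc_consecutive f (tt_mono_SLO _ _ _ (Nat.zero_le _))
      (tt_mono_SLO _ _ _ (Nat.le_succ _))

private theorem idx_SLO (w₀ w₁ S : ℕ) (n : ℕ) (r : ℕ) (h : n ∈ Ioc (tt w₀ w₁ S 0) (tt w₀ w₁ S r)) :
    ∃ s ∈ range r, n ∈ Ioc (tt w₀ w₁ S s) (tt w₀ w₁ S (s + 1)) := by
  induction r with
  | zero => simp at h
  | succ r ih =>
    by_cases hn : n ≤ tt w₀ w₁ S r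
    · obtain ⟨s, hs, hs'⟩ := ih (mem_Ioc.2 ⟨(mem_Ioc.1 h).1, hn⟩)
      exact ⟨s, mem_range.2 (Nat.lt_succ_of_lt (mem_range.1 hs)), hs'⟩
    · exact ⟨r, mem_range.2 (Nat.lt_succ_self _), mem_Ioc.2 ⟨by omega, (mem_Ioc.1 h).2⟩⟩

private theorem uniq_SLO (w₀ w₁ S : ℕ) (n s t : ℕ)
    (hs : n ∈ Ioc (tt w₀ w₁ S s) (tt w₀ w₁ S (s + 1)))
    (ht : n ∈ Ioc (tt w₀ w₁ S t) (tt w₀ w₁ S (t + 1))) : s = t := by
  rw [mem_Ioc] at hs ht
  rcases lt_trichotomy s t with h | h | h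
  · have := tt_mono_SLO w₀ w₁ S (s := s + 1) (t := t) h
    omega
  · exact h
  · have := tt_mono_SLO w₀ w₁ S (s := t + 1) (t := s) h
    omega

theorem hSLO (h1 : StTRV) : StSLO := by
  intro M D v S w₀ w₁ h η B₀ F hM hD hv hS hSX hw hwX hB hF
  have hD' : (0 : ℝ) < D := by exact_mod_cast hD
  have hv' : (0 : ℝ) < v := by exact_mod_cast hv
  have hS' : (0 : ℝ) < S := by exact_mod_cast hS
  set X := D * M with hX
  set δ : ℝ := 4 * Real.pi * |η| * M / S with hδ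
  have hδ0 : 0 ≤ δ := by positivity
  -- the difference function
  let G : ℕ → ℂ := fun n => ∑ s ∈ range S,
    if n ∈ Ioc (tt w₀ w₁ S s) (tt w₀ w₁ S (s + 1)) then
      F n * (ex (n * (η / D)) - ex (tt w₀ w₁ S s * (η / D))) else 0
  have hG1 : ∀ s ∈ range S, ∀ n ∈ Ioc (tt w₀ w₁ S s) (tt w₀ w₁ S (s + 1)),
      G n = F n * (ex (n * (η / D)) - ex (tt w₀ w₁ S s * (η / D))) := by
    intro s hs n hn
    show ∑ s ∈ range S, _ = _
    rw [sum_eq_single s]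
    · rw [if_pos hn]
    · intro t _ hts
      rw [if_neg]
      exact fun ht => hts (uniq_SLO _ _ _ _ _ _ ht hn)
    · exact fun hs' => absurd hs hs'
  have hwin : ∀ s ∈ range S, ∀ n ∈ Ioc (tt w₀ w₁ S s) (tt w₀ w₁ S (s + 1)), n ∈ Ioc w₀ w₁ := by
    intro s hs n hn
    rw [mem_Ioc] at hn ⊢
    have e1 := tt_mono_SLO w₀ w₁ S (s := 0) (t := s) (Nat.zero_le _)
    have e2 := tt_mono_SLO w₀ w₁ S (s := s + 1) (t := S) (mem_range.1 hs)
    rw [tt_zero_SLO] at e1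
    rw [tt_last_SLO _ _ _ hS hw] at e2
    omega
  have hG0 : ∀ n, n ∉ Ioc w₀ w₁ → G n = 0 := by
    intro n hn
    show ∑ s ∈ range S, _ = _
    refine sum_eq_zero fun s hs => ?_
    rw [if_neg]
    exact fun h' => hn (hwin s hs n h')
  have hGb : ∀ n, ‖G n‖ ≤ B₀ * δ := by
    intro n
    by_cases hn : n ∈ Ioc w₀ w₁
    · have hn' : n ∈ Ioc (tt w₀ w₁ S 0) (tt w₀ w₁ S S) := by
        rw [tt_zero_SLO, tt_last_SLO _ _ _ hS hw]
        exact hn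
      obtain ⟨s, hs, hs'⟩ := idx_SLO w₀ w₁ S n S hn'
      rw [hG1 s hs n hs', norm_mul]
      refine mul_le_mul (hF n hn) ?_ (norm_nonneg _) hB
      refine (ex_sub_SLO _ _).trans ?_
      have e1 := tt_step_SLO w₀ w₁ S s X hS hSX hwX
      rw [mem_Ioc] at hs'
      have e2 : ((tt w₀ w₁ S s : ℕ) : ℝ) ≤ n := by exact_mod_cast hs'.1.le
      have e3 : (n : ℝ) ≤ (tt w₀ w₁ S (s + 1) : ℕ) := by exact_mod_cast hs'.2
      have e4 : |(n : ℝ) * (η / D) - (tt w₀ w₁ S s : ℕ) * (η / D)| =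
          ((n : ℝ) - (tt w₀ w₁ S s : ℕ)) * (|η| / D) := by
        rw [← sub_mul, abs_mul, abs_of_nonneg (by linarith), abs_div, abs_of_pos hD']
      rw [e4]
      have e5 : (n : ℝ) - (tt w₀ w₁ S s : ℕ) ≤ 2 * X / S := by linarith
      have e6 : 2 * Real.pi * (((n : ℝ) - (tt w₀ w₁ S s : ℕ)) * (|η| / D)) ≤
          2 * Real.pi * ((2 * X / S) * (|η| / D)) := by gcongr
      refine e6.trans (le_of_eq ?_)
      rw [hδ, hX]
      push_cast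
      field_simp
      ring
    · rw [hG0 n hn, norm_zero]
      positivity
  -- rewrite the left side
  have hkey : ∀ j : ℕ, (∑ n ∈ Ioc w₀ w₁, F n * ex (n * ((h + j * v : ℤ) : ℝ) / (D * v : ℕ)) *
      ex (n * (η / D)) -
    ∑ s ∈ range S, ex (tt w₀ w₁ S s * (η / D)) *
      ∑ n ∈ Ioc (tt w₀ w₁ S s) (tt w₀ w₁ S (s + 1)),
        F n * ex (n * ((h + j * v : ℤ) : ℝ) / (D * v : ℕ))) =
      Sc G X (((h : ℝ) / v + j) / D) := by
    intro j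
    have a1 : ∀ f : ℕ → ℂ, ∑ n ∈ Ioc w₀ w₁, f n =
        ∑ s ∈ range S, ∑ n ∈ Ioc (tt w₀ w₁ S s) (tt w₀ w₁ S (s + 1)), f n := by
      intro f
      rw [part_SLO f w₀ w₁ S S, tt_zero_SLO, tt_last_SLO _ _ _ hS hw]
    rw [a1, ← sum_sub_distrib]
    have a2 : ∀ s ∈ range S, (∑ n ∈ Ioc (tt w₀ w₁ S s) (tt w₀ w₁ S (s + 1)),
          F n * ex (n * ((h + j * v : ℤ) : ℝ) / (D * v : ℕ)) * ex (n * (η / D))) -
        ex (tt w₀ w₁ S s * (η / D)) *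
          ∑ n ∈ Ioc (tt w₀ w₁ S s) (tt w₀ w₁ S (s + 1)),
            F n * ex (n * ((h + j * v : ℤ) : ℝ) / (D * v : ℕ)) =
        ∑ n ∈ Ioc (tt w₀ w₁ S s) (tt w₀ w₁ S (s + 1)), G n *
          ex (n * ((h + j * v : ℤ) : ℝ) / (D * v : ℕ)) := by
      intro s hs
      rw [mul_sum, ← sum_sub_distrib]
      refine sum_congr rfl fun n hn => ?_
      rw [hG1 s hs n hn]
      ring
    rw [sum_congr rfl a2, ← a1]
    unfold Sc
    have a3 : Ioc w₀ w₁ ⊆ Ioc 0 X := Ioc_subset_Ioc (Nat.zero_le _) hwX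
    rw [← sum_subset a3 (fun n _ hn => by rw [hG0 n hn, zero_mul])]
    refine sum_congr rfl fun n _ => ?_
    congr 2
    push_cast
    field_simp
  have hl : l2 (range D) (fun j => ∑ n ∈ Ioc w₀ w₁,
      F n * ex (n * ((h + j * v : ℤ) : ℝ) / (D * v : ℕ)) * ex (n * (η / D)) -
    ∑ s ∈ range S, ex (tt w₀ w₁ S s * (η / D)) *
      ∑ n ∈ Ioc (tt w₀ w₁ S s) (tt w₀ w₁ S (s + 1)),
        F n * ex (n * ((h + j * v : ℤ) : ℝ) / (D * v : ℕ))) =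
      l2 (range D) (fun j => Sc G X (((h : ℝ) / v + j) / D)) :=
    l2_congr _ _ _ fun j _ => hkey j
  rw [hl, l2_le_iff _ _ _ (by positivity)]
  have e1 := h1 G X D ((h : ℝ) / v) hD
  unfold NN at e1
  refine e1.trans ?_
  have e2 : ∑ n ∈ Ioc 0 X, ‖G n‖ ^ 2 ≤ X * (B₀ * δ) ^ 2 := by
    have : ∑ n ∈ Ioc 0 X, ‖G n‖ ^ 2 ≤ ∑ n ∈ Ioc 0 X, (B₀ * δ) ^ 2 :=
      sum_le_sum fun n _ => pow_le_pow_left₀ (norm_nonneg _) (hGb n) 2
    refine this.trans (le_of_eq ?_)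
    rw [sum_const, Nat.card_Ioc, nsmul_eq_mul]
    simp
  have e3 : (D : ℝ) ≤ X := by
    rw [hX]
    exact_mod_cast Nat.le_mul_of_pos_right D hM
  have e4 : (0 : ℝ) ≤ X := by positivity
  have e5 : ((X : ℝ) + D) * ∑ n ∈ Ioc 0 X, ‖G n‖ ^ 2 ≤ (2 * X) * (X * (B₀ * δ) ^ 2) := by
    refine mul_le_mul (by linarith) e2 (sum_nonneg fun _ _ => by positivity) (by positivity)
  refine e5.trans ?_
  have e6 : (X : ℝ) = D * M := by rw [hX]; push_cast; ring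
  rw [← e6]
  nlinarith [sq_nonneg ((X : ℝ) * (B₀ * δ))]

end Pool.Agent.Helper49.PC
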