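import Pool.Agent.Helper49.PC.StC

/-!
# Project PC, module SMT: character sums of monotone functions in mean square
-/

set_option autoImplicit false

namespace Pool.Agent.Helper49.PC

open Finset ArithmeticFunction
open Pool.Agent.Helper48.BK (ex th lz Vz Pz gs nd Apx AdN Sol thd)
open scoped ComplexConjugate

private theorem cls_le_SMT (q : ℕ) (hq : 0 < q) (f : ℕ → ℝ) (u w : ℕ) (hf0 : ∀ n, 0 ≤ f n)
    (hf : ∀ m n, 1 ≤ m → m ≤ n → f m ≤ f n) (x y : ℕ) (hx : x < q) :
    ∑ n ∈ (Ioc u w).filter (fun n => n ≡ x [MOD q]), f n ≤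
      ∑ n ∈ (Ioc u w).filter (fun n => n ≡ y [MOD q]), f n + f w := by
  obtain ⟨δ, hδ, hδq⟩ : ∃ δ, δ < q ∧ x + δ ≡ y [MOD q] := by
    refine ⟨(y + (q - x)) % q, Nat.mod_lt _ hq, ?_⟩
    calc x + (y + (q - x)) % q ≡ x + (y + (q - x)) [MOD q] :=
          Nat.ModEq.add_left _ (Nat.mod_modEq _ _)
      _ = y + q := by omega
      _ ≡ y [MOD q] := by
          unfold Nat.ModEq
          simp
  rw [← Finset.sum_filter_add_sum_filter_not ((Ioc u w).filter (fun n => n ≡ x [MOD q]))
    (fun n => n + δ ≤ w)]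
  refine add_le_add ?_ ?_
  · calc ∑ n ∈ ((Ioc u w).filter (fun n => n ≡ x [MOD q])).filter (fun n => n + δ ≤ w), f n
        ≤ ∑ n ∈ ((Ioc u w).filter (fun n => n ≡ x [MOD q])).filter (fun n => n + δ ≤ w),
          f (n + δ) := by
          refine Finset.sum_le_sum fun n hn => hf _ _ ?_ (by omega)
          have := (Finset.mem_Ioc.1 (Finset.mem_filter.1 (Finset.mem_filter.1 hn).1).1).1
          omega
      _ = ∑ m ∈ (((Ioc u w).filter (fun n => n ≡ x [MOD q])).filter
          (fun n => n + δ ≤ w)).image (fun n => n + δ), f m := by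
          rw [Finset.sum_image]
          intro a _ b _ hab
          exact Nat.add_right_cancel hab
      _ ≤ _ := by
          refine Finset.sum_le_sum_of_subset_of_nonneg ?_ fun _ _ _ => hf0 _
          intro m hm
          obtain ⟨n, hn, rfl⟩ := Finset.mem_image.1 hm
          obtain ⟨hn1, hn2⟩ := Finset.mem_filter.1 hn
          obtain ⟨hn3, hn4⟩ := Finset.mem_filter.1 hn1
          rw [Finset.mem_Ioc] at hn3
          rw [Finset.mem_filter, Finset.mem_Ioc]
          exact ⟨⟨by omega, hn2⟩, (Nat.ModEq.add_right _ hn4).trans hδq⟩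
  · have hcard : (((Ioc u w).filter (fun n => n ≡ x [MOD q])).filter
        (fun n => ¬ n + δ ≤ w)).card ≤ 1 := by
      rw [Finset.card_le_one]
      intro a ha b hb
      obtain ⟨ha1, ha2⟩ := Finset.mem_filter.1 ha
      obtain ⟨hb1, hb2⟩ := Finset.mem_filter.1 hb
      obtain ⟨ha3, ha4⟩ := Finset.mem_filter.1 ha1
      obtain ⟨hb3, hb4⟩ := Finset.mem_filter.1 hb1
      rw [Finset.mem_Ioc] at ha3 hb3
      refine Nat.ModEq.eq_of_abs_lt (ha4.trans hb4.symm) ?_
      rw [abs_lt]
      constructor <;> push_cast <;> omega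
    calc _ ≤ ∑ n ∈ ((Ioc u w).filter (fun n => n ≡ x [MOD q])).filter
          (fun n => ¬ n + δ ≤ w), f w := by
          refine Finset.sum_le_sum fun n hn => ?_
          have h3 := Finset.mem_Ioc.1 (Finset.mem_filter.1 (Finset.mem_filter.1 hn).1).1
          exact hf _ _ (by omega) h3.2
      _ ≤ f w := by
          rw [Finset.sum_const, nsmul_eq_mul]
          have : ((((Ioc u w).filter (fun n => n ≡ x [MOD q])).filter
            (fun n => ¬ n + δ ≤ w)).card : ℝ) ≤ 1 := by exact_mod_cast hcard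
          nlinarith [hf0 w]

private theorem sum_zmod_SMT (q : ℕ) [NeZero q] (g : ZMod q → ℂ) :
    ∑ x ∈ range q, g (x : ZMod q) = ∑ a : ZMod q, g a := by
  symm
  refine Finset.sum_nbij' (fun a => a.val) (fun x => (x : ZMod q)) ?_ ?_ ?_ ?_ ?_
  · intro a _
    exact Finset.mem_range.2 (ZMod.val_lt a)
  · intro x _
    exact Finset.mem_univ _
  · intro a _
    exact ZMod.natCast_zmod_val a
  · intro x hx
    exact ZMod.val_cast_of_lt (Finset.mem_range.1 hx)
  · intro a _
    rw [ZMod.natCast_zmod_val a]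

theorem hSMT (h1 : StOC) : StSMT := by
  intro q _ f u w hf0 hf
  have hq : 0 < q := Nat.pos_of_ne_zero (NeZero.ne q)
  set c : ℕ → ℝ := fun x => ∑ n ∈ (Ioc u w).filter (fun n => n ≡ x [MOD q]), f n with hc
  set U : Finset ℕ := (range q).filter (fun x => Nat.Coprime x q) with hU
  have hUcard : U.card = Nat.totient q := by
    rw [Nat.totient_eq_card_coprime, hU]
    congr 1
    ext x
    rw [Finset.mem_filter, Finset.mem_filter, Nat.coprime_comm]
  have hφ : 0 < Nat.totient q := Nat.totient_pos.2 hq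
  have hφ' : (0 : ℝ) < Nat.totient q := by exact_mod_cast hφ
  set m : ℝ := (∑ y ∈ U, c y) / Nat.totient q with hm
  have hcc : ∀ x < q, ∀ y < q, |c x - c y| ≤ f w := by
    intro x hx y hy
    rw [abs_le]
    constructor
    · have := cls_le_SMT q hq f u w hf0 hf y x hy
      simp only [hc]
      linarith
    · have := cls_le_SMT q hq f u w hf0 hf x y hx
      simp only [hc]
      linarith
  have hcm : ∀ x < q, |c x - m| ≤ f w := by
    intro x hx
    have h2 : c x - m = (∑ y ∈ U, (c x - c y)) / Nat.totient q := by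
      rw [Finset.sum_sub_distrib, Finset.sum_const, hUcard, nsmul_eq_mul, sub_div, hm]
      field_simp
    rw [h2, abs_div, abs_of_pos hφ', div_le_iff₀ hφ']
    calc |∑ y ∈ U, (c x - c y)| ≤ ∑ y ∈ U, |c x - c y| := Finset.abs_sum_le_sum_abs _ _
      _ ≤ ∑ y ∈ U, f w := Finset.sum_le_sum fun y hy =>
          hcc x hx y (Finset.mem_range.1 (Finset.mem_filter.1 hy).1)
      _ = f w * Nat.totient q := by rw [Finset.sum_const, hUcard, nsmul_eq_mul, mul_comm]
  have key := h1 q (range q) (fun x => ((c x - m : ℝ) : ℂ))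
  have hchar : ∀ χ : DirichletCharacter ℂ q, χ ≠ 1 →
      ∑ n ∈ Ioc u w, ((f n : ℝ) : ℂ) * χ (n : ZMod q) =
      ∑ x ∈ range q, ((c x - m : ℝ) : ℂ) * χ (x : ZMod q) := by
    intro χ hχ
    have hz : ∑ x ∈ range q, χ (x : ZMod q) = 0 := by
      rw [sum_zmod_SMT q (fun a => χ a)]
      exact MulChar.sum_eq_zero_of_ne_one hχ
    have hs : ∑ x ∈ range q, ((c x - m : ℝ) : ℂ) * χ (x : ZMod q) =
        ∑ x ∈ range q, ((c x : ℝ) : ℂ) * χ (x : ZMod q) := by
      have : ∀ x ∈ range q, ((c x - m : ℝ) : ℂ) * χ (x : ZMod q) =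
          ((c x : ℝ) : ℂ) * χ (x : ZMod q) - (m : ℂ) * χ (x : ZMod q) := by
        intro x _
        push_cast
        ring
      rw [Finset.sum_congr rfl this, Finset.sum_sub_distrib, ← Finset.mul_sum, hz, mul_zero,
        sub_zero]
    rw [hs, ← Finset.sum_fiberwise_of_maps_to (s := Ioc u w) (t := range q) (g := fun n => n % q)
      (fun n _ => Finset.mem_range.2 (Nat.mod_lt _ hq))]
    refine Finset.sum_congr rfl fun x hx => ?_
    have hfil : (Ioc u w).filter (fun n => n % q = x) =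
        (Ioc u w).filter (fun n => n ≡ x [MOD q]) := by
      refine Finset.filter_congr fun n _ => ?_
      unfold Nat.ModEq
      rw [Nat.mod_eq_of_lt (Finset.mem_range.1 hx)]
    rw [hfil, hc]
    push_cast
    rw [Finset.sum_mul]
    refine Finset.sum_congr rfl fun n hn => ?_
    have h3 : (n : ZMod q) = (x : ZMod q) := (ZMod.natCast_eq_natCast_iff _ _ _).2
      (Finset.mem_filter.1 hn).2
    rw [h3]
  calc ∑ χ ∈ (univ : Finset (DirichletCharacter ℂ q)).filter (· ≠ 1),
        ‖∑ n ∈ Ioc u w, ((f n : ℝ) : ℂ) * χ (n : ZMod q)‖ ^ 2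
      = ∑ χ ∈ (univ : Finset (DirichletCharacter ℂ q)).filter (· ≠ 1),
        ‖∑ x ∈ range q, ((c x - m : ℝ) : ℂ) * χ (x : ZMod q)‖ ^ 2 := by
        refine Finset.sum_congr rfl fun χ hχ => ?_
        rw [hchar χ (Finset.mem_filter.1 hχ).2]
    _ ≤ ∑ χ : DirichletCharacter ℂ q,
        ‖∑ x ∈ range q, ((c x - m : ℝ) : ℂ) * χ (x : ZMod q)‖ ^ 2 :=
        Finset.sum_le_sum_of_subset_of_nonneg (Finset.filter_subset _ _)
          fun _ _ _ => sq_nonneg _
    _ = Nat.totient q * ∑ x ∈ U, ‖∑ n ∈ (range q).filter (fun n => n ≡ x [MOD q]),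
        ((c n - m : ℝ) : ℂ)‖ ^ 2 := key
    _ = Nat.totient q * ∑ x ∈ U, |c x - m| ^ 2 := by
        congr 1
        refine Finset.sum_congr rfl fun x hx => ?_
        have hxq : x < q := Finset.mem_range.1 (Finset.mem_filter.1 hx).1
        have hfil : (range q).filter (fun n => n ≡ x [MOD q]) = {x} := by
          ext n
          rw [Finset.mem_filter, Finset.mem_range, Finset.mem_singleton]
          constructor
          · rintro ⟨h2, h3⟩
            exact Nat.ModEq.eq_of_lt_of_lt h3 h2 hxq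
          · rintro rfl
            exact ⟨hxq, Nat.ModEq.refl _⟩
        rw [hfil, Finset.sum_singleton, Complex.norm_real, Real.norm_eq_abs]
    _ ≤ Nat.totient q * ∑ x ∈ U, (f w) ^ 2 := by
        gcongr with x hx
        exact hcm x (Finset.mem_range.1 (Finset.mem_filter.1 hx).1)
    _ = (Nat.totient q * f w) ^ 2 := by
        rw [Finset.sum_const, hUcard, nsmul_eq_mul]
        ring
    _ ≤ (q * f w) ^ 2 := by
        have h4 : (Nat.totient q : ℝ) ≤ q := by exact_mod_cast Nat.totient_le q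
        have h5 := hf0 w
        gcongr

end Pool.Agent.Helper49.PC
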