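import Pool.Agent.Helper49.PC.StC
import Pool.Agent.Helper48.BK.StW
import Pool.Agent.Helper2.Average

/-!
# Project PC, module SWC: characters from a small level are small
-/

set_option autoImplicit false

namespace Pool.Agent.Helper49.PC

open Finset ArithmeticFunction
open scoped ComplexConjugate

private theorem big_SWC (K : ℕ) (ε M : ℝ) (hε : 0 < ε) : ∃ x₀ : ℕ, ∀ x : ℕ, x₀ ≤ x →
    M ≤ Real.log x ∧ Real.log x ^ K ≤ ε * √x := by
  have h1 : ∀ᶠ x : ℝ in Filter.atTop, M ≤ Real.log x := Real.tendsto_log_atTop.eventually_ge_atTop M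
  have h2 : ∀ᶠ x : ℝ in Filter.atTop, ‖Real.log x ^ (K : ℝ)‖ ≤ ε * ‖x ^ (1 / 2 : ℝ)‖ :=
    (isLittleO_log_rpow_rpow_atTop (K : ℝ) (by norm_num : (0 : ℝ) < 1 / 2)).def hε
  have h3 := (h1.and (h2.and (Filter.eventually_ge_atTop (1 : ℝ))))
  obtain ⟨X, hX⟩ := Filter.eventually_atTop.1 h3
  obtain ⟨x₀, hx₀⟩ := exists_nat_ge X
  refine ⟨x₀, fun x hx => ?_⟩
  obtain ⟨h4, h5, h6⟩ := hX x (hx₀.trans (by exact_mod_cast hx))
  refine ⟨h4, ?_⟩
  rw [Real.rpow_natCast, Real.norm_of_nonneg (pow_nonneg (Real.log_nonneg h6) _),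
    Real.norm_of_nonneg (Real.rpow_nonneg (by linarith) _), ← Real.sqrt_eq_rpow] at h5
  exact h5

private theorem card_SWC (q : ℕ) (hq : q ≠ 0) : (#q.primeFactors : ℝ) ≤ 2 * Real.log q := by
  have h1 : 2 ^ #q.primeFactors ≤ q := by
    calc 2 ^ #q.primeFactors ≤ ∏ p ∈ q.primeFactors, p :=
          Finset.pow_card_le_prod _ _ _ fun p hp => (Nat.prime_of_mem_primeFactors hp).two_le
      _ ≤ q := Nat.le_of_dvd (Nat.pos_of_ne_zero hq) (Nat.prod_primeFactors_dvd q)
  have h2 : (2 : ℝ) ^ #q.primeFactors ≤ q := by exact_mod_cast h1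
  have h3 := Real.log_le_log (by positivity) h2
  rw [Real.log_pow] at h3
  have h4 : (1 : ℝ) / 2 ≤ Real.log 2 := by
    have := Real.log_two_gt_d9
    linarith
  have h5 : (0 : ℝ) ≤ #q.primeFactors := Nat.cast_nonneg _
  nlinarith

/-- the trivial bound -/
private theorem triv_SWC {q : ℕ} (χ : DirichletCharacter ℂ q) (y : ℕ) :
    ‖∑ n ∈ Ioc 0 y, ((Λ n : ℝ) : ℂ) * χ (n : ZMod q)‖ ≤ y * Real.log y := by
  refine (norm_sum_le _ _).trans ?_
  calc ∑ n ∈ Ioc 0 y, ‖((Λ n : ℝ) : ℂ) * χ (n : ZMod q)‖ ≤ ∑ n ∈ Ioc 0 y, Real.log y := by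
        refine Finset.sum_le_sum fun n hn => ?_
        rw [mem_Ioc] at hn
        have h5 : ‖χ (n : ZMod q)‖ ≤ 1 := DirichletCharacter.norm_le_one _ _
        rw [norm_mul, Complex.norm_real, Real.norm_eq_abs, abs_of_nonneg vonMangoldt_nonneg]
        have h6 : (Λ n : ℝ) ≤ Real.log n := vonMangoldt_le_log
        have h7 : Real.log n ≤ Real.log y :=
          Real.log_le_log (by exact_mod_cast hn.1) (by exact_mod_cast hn.2)
        have h8 : (0 : ℝ) ≤ Λ n := vonMangoldt_nonneg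
        nlinarith [norm_nonneg (χ (n : ZMod q))]
    _ = y * Real.log y := by
        rw [Finset.sum_const, Nat.card_Ioc, nsmul_eq_mul, Nat.sub_zero]

/-- from the primitive character to `χ` -/
private theorem bad_SWC {q : ℕ} [NeZero q] (χ : DirichletCharacter ℂ q) (y : ℕ) :
    ‖∑ n ∈ Ioc 0 y, ((Λ n : ℝ) : ℂ) * χ (n : ZMod q)‖ ≤
      ‖∑ n ∈ Ioc 0 y, ((Λ n : ℝ) : ℂ) * χ.primitiveCharacter (n : ZMod χ.conductor)‖ +
      2 * Real.log q * Real.log y := by
  have e : ∑ n ∈ Ioc 0 y, ((Λ n : ℝ) : ℂ) * χ (n : ZMod q) =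
      ∑ n ∈ Ioc 0 y, ((Λ n : ℝ) : ℂ) * χ.primitiveCharacter (n : ZMod χ.conductor) -
      ∑ n ∈ (Ioc 0 y).filter (fun n => ¬ n.Coprime q), ((Λ n : ℝ) : ℂ) *
        χ.primitiveCharacter (n : ZMod χ.conductor) := by
    rw [Finset.sum_filter, ← Finset.sum_sub_distrib]
    refine Finset.sum_congr rfl fun n _ => ?_
    by_cases hn : n.Coprime q
    · rw [if_neg (not_not.2 hn), sub_zero]
      have h3 : χ.primitiveCharacter (n : ZMod χ.conductor) = χ (n : ZMod q) :=
        Pool.Agent.Helper2.prFun_eq_chFun χ n hn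
      rw [h3]
    · rw [if_pos hn, sub_self]
      have h3 : χ (n : ZMod q) = 0 := (Pool.Agent.Helper2.chFun_eq_zero_iff χ n).2 hn
      rw [h3, mul_zero]
  have hl : 0 ≤ Real.log y := Real.log_natCast_nonneg y
  have h4 : ‖∑ n ∈ (Ioc 0 y).filter (fun n => ¬ n.Coprime q), ((Λ n : ℝ) : ℂ) *
        χ.primitiveCharacter (n : ZMod χ.conductor)‖ ≤ 2 * Real.log q * Real.log y := by
    refine (norm_sum_le _ _).trans ?_
    calc ∑ n ∈ (Ioc 0 y).filter (fun n => ¬ n.Coprime q), ‖((Λ n : ℝ) : ℂ) *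
        χ.primitiveCharacter (n : ZMod χ.conductor)‖ ≤
          ∑ n ∈ (Ioc 0 y).filter (fun n => ¬ n.Coprime q), Λ n := by
          refine Finset.sum_le_sum fun n _ => ?_
          have h5 : ‖χ.primitiveCharacter (n : ZMod χ.conductor)‖ ≤ 1 :=
            DirichletCharacter.norm_le_one _ _
          rw [norm_mul, Complex.norm_real, Real.norm_eq_abs, abs_of_nonneg vonMangoldt_nonneg]
          calc Λ n * _ ≤ Λ n * 1 :=
                mul_le_mul_of_nonneg_left h5 vonMangoldt_nonneg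
            _ = _ := mul_one _
      _ ≤ #q.primeFactors * Real.log y := Pool.Agent.Helper2.sum_noncoprime_le y q (NeZero.ne q)
      _ ≤ _ := mul_le_mul_of_nonneg_right (card_SWC q (NeZero.ne q)) hl
  rw [e]
  exact (norm_sub_le _ _).trans (by linarith)

theorem hSWC (h1 : Pool.Agent.Helper48.BK.StPsiI) : StSWC := by
  intro A B
  obtain ⟨C, hC, h2⟩ := h1 (A + 1) (B + 1)
  obtain ⟨x₀, hx₀⟩ := big_SWC (A + 2) (1 / 8) (max 4 (max (2 ^ (B + 1)) (C * 2 ^ (A + 3))))
    (by norm_num)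
  refine ⟨max x₀ 16, ?_⟩
  intro q _ χ X w₀ w₁ d hX hqX h01 h1X hχ hd hdB
  have hX16 : 16 ≤ X := (le_max_right _ _).trans hX
  obtain ⟨hb1, hb2⟩ := hx₀ X ((le_max_left _ _).trans hX)
  set L : ℝ := Real.log X with hL
  have hL4 : 4 ≤ L := (le_max_left _ _).trans hb1
  have hLB : (2 : ℝ) ^ (B + 1) ≤ L := ((le_max_left _ _).trans (le_max_right _ _)).trans hb1
  have hLC : C * 2 ^ (A + 3) ≤ L := ((le_max_right _ _).trans (le_max_right _ _)).trans hb1
  have hL0 : 0 < L := by linarith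
  have hXr : (16 : ℝ) ≤ X := by exact_mod_cast hX16
  have hX0 : (0 : ℝ) < X := by linarith
  have hsX : √(X : ℝ) * √(X : ℝ) = X := Real.mul_self_sqrt hX0.le
  have hs4 : 4 ≤ √(X : ℝ) := by
    rw [show (4 : ℝ) = √(16 : ℝ) by rw [show (16 : ℝ) = 4 ^ 2 by norm_num]; simp]
    exact Real.sqrt_le_sqrt hXr
  have hLA : 0 < L ^ A := by positivity
  have hNZ : NeZero χ.conductor := ⟨DirichletCharacter.conductor_ne_zero χ⟩
  have hdpos : 0 < d := by
    rcases Nat.eq_zero_or_pos d with h | h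
    · exfalso
      rw [h] at hd
      exact NeZero.ne q (Nat.eq_zero_of_zero_dvd hd.dvd)
    · exact h
  have hcd : (χ.conductor : ℝ) ≤ L ^ B := by
    have h3 : χ.conductor ∣ d := DirichletCharacter.conductor_dvd_of_mem_conductorSet χ hd
    have h4 : χ.conductor ≤ d := Nat.le_of_dvd hdpos h3
    have h5 : (χ.conductor : ℝ) ≤ d := by exact_mod_cast h4
    exact h5.trans hdB
  -- the key bound
  have key : ∀ y : ℕ, y ≤ X →
      ‖∑ n ∈ Ioc 0 y, ((Λ n : ℝ) : ℂ) * χ (n : ZMod q)‖ ≤ X / (2 * L ^ A) := by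
    intro y hy
    have hyX : (y : ℝ) ≤ X := by exact_mod_cast hy
    have hly : Real.log y ≤ L := by
      rcases Nat.eq_zero_or_pos y with h | h
      · rw [h]; simpa using hL0.le
      · exact Real.log_le_log (by exact_mod_cast h) hyX
    have hly0 : 0 ≤ Real.log y := Real.log_natCast_nonneg y
    rw [le_div_iff₀ (by positivity)]
    by_cases hsm : (y : ℝ) < √(X : ℝ)
    · have h3 := triv_SWC χ y
      have h4 : (y : ℝ) * Real.log y ≤ √(X : ℝ) * L := by gcongr
      have h5 : L ^ (A + 2) = L * L * L ^ A := by ring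
      calc ‖∑ n ∈ Ioc 0 y, ((Λ n : ℝ) : ℂ) * χ (n : ZMod q)‖ * (2 * L ^ A)
          ≤ (√(X : ℝ) * L) * (2 * L ^ A) := by
            apply mul_le_mul_of_nonneg_right (h3.trans h4) (by positivity)
        _ ≤ √(X : ℝ) * (L * L * L ^ A) := by
            have : L * 2 ≤ L * L := by nlinarith
            have h6 : (√(X : ℝ) * L) * (2 * L ^ A) = √(X : ℝ) * (L * 2 * L ^ A) := by ring
            rw [h6]
            gcongr
        _ ≤ √(X : ℝ) * (1 / 8 * √(X : ℝ)) := by
            rw [← h5]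
            gcongr
        _ ≤ X := by nlinarith
    · push Not at hsm
      have hy3 : 3 ≤ y := by
        have : (3 : ℝ) ≤ y := by linarith
        exact_mod_cast this
      have hlyh : L / 2 ≤ Real.log y := by
        rw [hL, ← Real.log_sqrt hX0.le]
        exact Real.log_le_log (by positivity) hsm
      have h3 := h2 χ.conductor χ.primitiveCharacter y hy3
        (Pool.Agent.Helper2.primitive_ne_one χ hχ) (by
          refine hcd.trans ?_
          calc L ^ B ≤ (L / 2) ^ (B + 1) := by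
                rw [div_pow, le_div_iff₀ (by positivity), pow_succ L]
                gcongr
            _ ≤ Real.log y ^ (B + 1) := by gcongr)
      have h4 := bad_SWC χ y
      have hq : Real.log q ≤ L :=
        Real.log_le_log (by exact_mod_cast Nat.pos_of_ne_zero (NeZero.ne q))
          (by exact_mod_cast hqX)
      have h5 : 2 * Real.log q * Real.log y ≤ 2 * L * L := by gcongr
      have h6 : C * y / Real.log y ^ (A + 1) ≤ X / (4 * L ^ A) := by
        calc C * y / Real.log y ^ (A + 1) ≤ C * X / (L / 2) ^ (A + 1) := by gcongr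
          _ ≤ X / (4 * L ^ A) := by
            rw [div_pow, div_div_eq_mul_div, div_le_div_iff₀ (by positivity) (by positivity)]
            have e1 : C * X * 2 ^ (A + 1) * (4 * L ^ A) = C * 2 ^ (A + 3) * (X * L ^ A) := by ring
            have e2 : X * L ^ (A + 1) = L * (X * L ^ A) := by ring
            rw [e1, e2]
            gcongr
      have h7 : 2 * L * L * (2 * L ^ A) ≤ X / 2 := by
        have e1 : 2 * L * L * (2 * L ^ A) = 4 * L ^ (A + 2) := by ring
        rw [e1]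
        nlinarith
      have h8 : X / (4 * L ^ A) * (2 * L ^ A) = X / 2 := by
        field_simp
        norm_num
      calc _ ≤ (X / (4 * L ^ A) + 2 * L * L) * (2 * L ^ A) := by
            apply mul_le_mul_of_nonneg_right _ (by positivity)
            exact h4.trans (add_le_add (h3.trans h6) h5)
        _ = X / (4 * L ^ A) * (2 * L ^ A) + 2 * L * L * (2 * L ^ A) := by ring
        _ ≤ X := by rw [h8]; linarith
  have hsplit : Psi χ w₀ w₁ = ∑ n ∈ Ioc 0 w₁, ((Λ n : ℝ) : ℂ) * χ (n : ZMod q) -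
      ∑ n ∈ Ioc 0 w₀, ((Λ n : ℝ) : ℂ) * χ (n : ZMod q) := by
    rw [eq_sub_iff_add_eq, add_comm]
    unfold Psi
    have hd1 : Disjoint (Ioc 0 w₀) (Ioc w₀ w₁) := by
      rw [Finset.disjoint_left]
      intro n hn hn'
      rw [mem_Ioc] at hn hn'
      omega
    have hu : Ioc 0 w₁ = Ioc 0 w₀ ∪ Ioc w₀ w₁ := by
      ext n
      simp only [mem_Ioc, mem_union]
      omega
    rw [hu, Finset.sum_union hd1]
  rw [hsplit]
  refine (norm_sub_le _ _).trans ?_
  have h3 := key w₁ h1X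
  have h4 := key w₀ (h01.trans h1X)
  have h5 : (X : ℝ) / L ^ A = X / (2 * L ^ A) + X / (2 * L ^ A) := by
    field_simp
    norm_num
  rw [h5]
  exact add_le_add h3 h4

end Pool.Agent.Helper49.PC
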