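import Pool.Agent.Helper49.PC.StE

/-! # Project PC, module TRGE: the triple sum of Gauss sums, general coefficients -/

set_option autoImplicit false

namespace Pool.Agent.Helper49.PC

open Finset ArithmeticFunction
open Pool.Agent.Helper48.BK (ex th lz Vz Pz gs nd Apx AdN Sol thd)
open scoped ComplexConjugate

private theorem per_TRGE (h2 : StGUN) (q : ℕ) [NeZero q] (χ : DirichletCharacter ℂ q) (i : ℤ)
    (k : ℕ) : Gs χ (i + (k * q : ℕ)) = Gs χ i := by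
  induction k with
  | zero => simp
  | succ k ih =>
    have h := (h2 q χ).1 (i + (k * q : ℕ))
    rw [ih] at h
    rw [← h]
    congr 1
    push_cast
    ring

private theorem perN_TRGE (h2 : StGUN) (q N : ℕ) [NeZero q] (χ : DirichletCharacter ℂ q)
    (hq : q ∣ N) (i : ℤ) : Gs χ (i + N) = Gs χ i := by
  obtain ⟨k, rfl⟩ := hq
  rw [mul_comm q k]
  exact per_TRGE h2 q χ i k

private theorem dbl_TRGE (f g : ℕ → ℝ) (P Q M : ℕ) (hP : 1 ≤ P) (hQ : 1 ≤ Q)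
    (hM : ∀ x : ℤ, (P : ℤ) ∣ x → (Q : ℤ) ∣ x → (M : ℤ) ∣ x) (hf : ∀ j, 0 ≤ f j)
    (hg : ∀ j, 0 ≤ g j) (pf : ∀ j, f (j + P) = f j) (pg : ∀ j, g (j + Q) = g j) :
    ∑ j ∈ range M, f j * g j ≤ (∑ j ∈ range P, f j) * ∑ j ∈ range Q, g j := by
  have e : ∀ j ∈ range M, f j * g j =
      (fun p : ℕ × ℕ => f p.1 * g p.2) ((fun j : ℕ => (j % P, j % Q)) j) := by
    intro j _
    simp only
    rw [Function.Periodic.map_mod_nat (f := f) (a := P) pf j,
      Function.Periodic.map_mod_nat (f := g) (a := Q) pg j]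
  have inj : Set.InjOn (fun j : ℕ => (j % P, j % Q)) (range M : Set ℕ) := by
    intro x hx y hy hxy
    simp only [Prod.mk.injEq] at hxy
    have a1 : (P : ℤ) ∣ (y : ℤ) - x := (Nat.modEq_iff_dvd).1 hxy.1
    have a2 : (Q : ℤ) ∣ (y : ℤ) - x := (Nat.modEq_iff_dvd).1 hxy.2
    have a3 : x ≡ y [MOD M] := (Nat.modEq_iff_dvd).2 (hM _ a1 a2)
    have hx' : x < M := by simpa using hx
    have hy' : y < M := by simpa using hy
    exact Nat.ModEq.eq_of_lt_of_lt a3 hx' hy'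
  rw [Finset.sum_congr rfl e, ← Finset.sum_image (s := range M)
    (g := fun j : ℕ => (j % P, j % Q)) (f := fun p : ℕ × ℕ => f p.1 * g p.2) inj,
    Finset.sum_mul_sum, ← Finset.sum_product']
  refine Finset.sum_le_sum_of_subset_of_nonneg ?_ fun p _ _ => mul_nonneg (hf _) (hg _)
  intro p hp
  obtain ⟨j, _, rfl⟩ := mem_image.1 hp
  simp only [mem_product, mem_range]
  exact ⟨Nat.mod_lt _ hP, Nat.mod_lt _ hQ⟩

private theorem pmul_TRGE (f : ℕ → ℝ) (P k : ℕ) (pf : ∀ j, f (j + P) = f j) (j : ℕ) :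
    f (j + P * k) = f j := by
  induction k with
  | zero => simp
  | succ k ih => rw [Nat.mul_succ, ← add_assoc, pf, ih]

private theorem rep_TRGE (F : ℕ → ℝ) (ℓ : ℕ) (pF : ∀ j, F (j + ℓ) = F j) (e : ℕ) :
    ∑ j ∈ range (e * ℓ), F j = e * ∑ j ∈ range ℓ, F j := by
  induction e with
  | zero => simp
  | succ e ih =>
    rw [Nat.succ_mul, Finset.sum_range_add, ih]
    have h : ∀ x ∈ range ℓ, F (e * ℓ + x) = F x := by
      intro x _
      rw [add_comm, mul_comm e ℓ]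
      exact pmul_TRGE F ℓ e pF x
    rw [Finset.sum_congr rfl h]
    push_cast
    ring

private theorem dblE_TRGE (f g : ℕ → ℝ) (P Q e : ℕ) (hP : 1 ≤ P) (hQ : 1 ≤ Q)
    (hf : ∀ j, 0 ≤ f j)
    (hg : ∀ j, 0 ≤ g j) (pf : ∀ j, f (j + P) = f j) (pg : ∀ j, g (j + Q) = g j) :
    ∑ j ∈ range (e * Nat.lcm P Q), f j * g j ≤
      e * ((∑ j ∈ range P, f j) * ∑ j ∈ range Q, g j) := by
  have pF : ∀ j, f (j + Nat.lcm P Q) * g (j + Nat.lcm P Q) = f j * g j := by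
    intro j
    obtain ⟨k, hk⟩ := Nat.dvd_lcm_left P Q
    obtain ⟨l, hl⟩ := Nat.dvd_lcm_right P Q
    have e1 : f (j + Nat.lcm P Q) = f j := by rw [hk]; exact pmul_TRGE f P k pf j
    have e2 : g (j + Nat.lcm P Q) = g j := by rw [hl]; exact pmul_TRGE g Q l pg j
    rw [e1, e2]
  rw [rep_TRGE (fun j => f j * g j) (Nat.lcm P Q) pF e]
  refine mul_le_mul_of_nonneg_left ?_ (Nat.cast_nonneg e)
  refine dbl_TRGE f g P Q (Nat.lcm P Q) hP hQ ?_ hf hg pf pg
  intro x h1 h2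
  rw [Int.natCast_dvd] at h1 h2 ⊢
  exact Nat.lcm_dvd h1 h2

/-- one function is bounded, the other two are summed by `dblE_TRGE` -/
private theorem tri_TRGE (A f g : ℕ → ℝ) (P Q M e : ℕ) (K L E : ℝ) (hP : 1 ≤ P) (hQ : 1 ≤ Q)
    (hM : M = e * Nat.lcm P Q) (he : (e : ℝ) ≤ E) (hK : 0 ≤ K)
    (hA : ∀ j, A j ≤ K) (hf : ∀ j, 0 ≤ f j)
    (hg : ∀ j, 0 ≤ g j) (pf : ∀ j, f (j + P) = f j) (pg : ∀ j, g (j + Q) = g j)
    (sf : ∑ j ∈ range P, f j ≤ L) (sg : ∑ j ∈ range Q, g j ≤ L) :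
    ∑ j ∈ range M, A j * (f j * g j) ≤ E * (K * L ^ 2) := by
  have hE : 0 ≤ E := (Nat.cast_nonneg e).trans he
  have hL : 0 ≤ L := (Finset.sum_nonneg fun j _ => hf j).trans sf
  calc ∑ j ∈ range M, A j * (f j * g j) ≤ ∑ j ∈ range M, K * (f j * g j) :=
        Finset.sum_le_sum fun j _ => mul_le_mul_of_nonneg_right (hA j)
          (mul_nonneg (hf j) (hg j))
    _ = K * ∑ j ∈ range M, f j * g j := by rw [Finset.mul_sum]
    _ ≤ K * (e * ((∑ j ∈ range P, f j) * ∑ j ∈ range Q, g j)) := by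
        rw [hM]
        exact mul_le_mul_of_nonneg_left (dblE_TRGE f g P Q e hP hQ hf hg pf pg) hK
    _ ≤ K * (E * (L * L)) := by
        refine mul_le_mul_of_nonneg_left ?_ hK
        refine mul_le_mul he ?_ (mul_nonneg (Finset.sum_nonneg fun j _ => hf j)
          (Finset.sum_nonneg fun j _ => hg j)) hE
        exact mul_le_mul sf sg (Finset.sum_nonneg fun j _ => hg j) hL
    _ = E * (K * L ^ 2) := by ring

private theorem lcm_TRGE (a b c : ℕ) :
    a * b * c = Nat.gcd b c * Nat.lcm (a * b) (a * c) := by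
  rw [Nat.lcm_mul_left]
  have h := Nat.gcd_mul_lcm b c
  calc a * b * c = a * (b * c) := by ring
    _ = a * (Nat.gcd b c * Nat.lcm b c) := by rw [h]
    _ = _ := by ring

/-- the sum of `|Gs χ|²` over one class -/
private theorem sum_TRGE (h4 : StGPV) (h5 : StPHI) (D v N : ℕ) [NeZero (D * v)]
    (χ : DirichletCharacter ℂ (D * v)) (h : ℤ) (hD : 1 ≤ D) (hv : 1 ≤ v) (hN : D * v ≤ N) :
    ∑ j ∈ range D, ‖Gs χ (h + j * v)‖ ^ 2 ≤ 1 + (Nat.log 2 N : ℝ) := by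
  have h6 := (h4 D v {χ} (fun _ => 1) h hD hv).2
  simp only [Finset.sum_singleton, one_mul, norm_one, one_pow, mul_one] at h6
  refine h6.trans ?_
  have h7 : 1 ≤ D * v := Nat.one_le_iff_ne_zero.2 (NeZero.ne _)
  have h8 := h5 (D * v) h7
  have h9 : (0 : ℝ) < Nat.totient (D * v) := by exact_mod_cast Nat.totient_pos.2 h7
  rw [div_le_iff₀ h9]
  refine h8.trans ?_
  rw [mul_comm]
  refine mul_le_mul_of_nonneg_right ?_ h9.le
  have h10 : Nat.log 2 (D * v) ≤ Nat.log 2 N := Nat.log_mono_right hN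
  have h11 : (Nat.log 2 (D * v) : ℝ) ≤ Nat.log 2 N := by exact_mod_cast h10
  linarith

private theorem perj_TRGE (h2 : StGUN) (D v : ℕ) [NeZero (D * v)]
    (χ : DirichletCharacter ℂ (D * v)) (h : ℤ) (j : ℕ) :
    ‖Gs χ (h + ((j + D : ℕ) : ℤ) * v)‖ ^ 2 = ‖Gs χ (h + j * v)‖ ^ 2 := by
  have h3 := (h2 (D * v) χ).1 (h + j * v)
  rw [← h3]
  congr 3
  push_cast
  ring

private theorem sup_TRGE (h3 : StGSU) (q N : ℕ) [NeZero q] (χ : DirichletCharacter ℂ q) (R : ℝ)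
    (hR : 0 < R) (hD : Deep R χ) (hN : q ≤ N) (i : ℤ) :
    ‖Gs χ i‖ ^ 2 ≤ (1 + (Nat.log 2 N : ℝ)) ^ 2 / R := by
  refine (h3 q χ R i hR hD).trans ?_
  refine div_le_div_of_nonneg_right ?_ hR.le
  have h10 : Nat.log 2 q ≤ Nat.log 2 N := Nat.log_mono_right hN
  have h11 : (Nat.log 2 q : ℝ) ≤ Nat.log 2 N := by exact_mod_cast h10
  exact pow_le_pow_left₀ (by positivity) (by linarith) 2

theorem hTRGE (h1 : StDUA) (h2 : StGUN) (h3 : StGSU) (h4 : StGPV) (h5 : StPHI) : StTRGE := by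
  intro a b c v _ _ _ χ₁ χ₂ χ₃ R h d ha hb hc hv hR hD
  have hN1 : 1 ≤ a * b * c * v := Nat.one_le_iff_ne_zero.2 (by positivity)
  have hNv : a * b * c * v / v = a * b * c := Nat.mul_div_cancel _ hv
  have d1 : b * c * v ∣ a * b * c * v := ⟨a, by ring⟩
  have d2 : a * c * v ∣ a * b * c * v := ⟨b, by ring⟩
  have d3 : a * b * v ∣ a * b * c * v := ⟨c, by ring⟩
  have l1 : b * c * v ≤ a * b * c * v := Nat.le_of_dvd hN1 d1
  have l2 : a * c * v ≤ a * b * c * v := Nat.le_of_dvd hN1 d2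
  have l3 : a * b * v ≤ a * b * c * v := Nat.le_of_dvd hN1 d3
  set L : ℝ := 1 + (Nat.log 2 (a * b * c * v) : ℝ) with hL
  have hL0 : 0 ≤ L := by positivity
  have key := h1 (a * b * c * v) v h d (fun i => Gs χ₁ i * Gs χ₂ i * conj (Gs χ₃ i))
    (fun u => χ₁ (u : ZMod (b * c * v)) * χ₂ (u : ZMod (a * c * v)) *
      conj (χ₃ (u : ZMod (a * b * v)))) hN1 hv ⟨a * b * c, by ring⟩
    (fun i => by
      rw [perN_TRGE h2 _ _ χ₁ d1, perN_TRGE h2 _ _ χ₂ d2, perN_TRGE h2 _ _ χ₃ d3])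
    (fun u hu => by
      have u1 : IsCoprime u ((b * c * v : ℕ) : ℤ) :=
        IsCoprime.of_isCoprime_of_dvd_right hu (Int.natCast_dvd_natCast.2 d1)
      have u2 : IsCoprime u ((a * c * v : ℕ) : ℤ) :=
        IsCoprime.of_isCoprime_of_dvd_right hu (Int.natCast_dvd_natCast.2 d2)
      have u3 : IsCoprime u ((a * b * v : ℕ) : ℤ) :=
        IsCoprime.of_isCoprime_of_dvd_right hu (Int.natCast_dvd_natCast.2 d3)
      refine ⟨?_, fun i => ?_⟩
      · rw [norm_mul, norm_mul, RCLike.norm_conj, (h2 _ χ₁).2.2 u u1, (h2 _ χ₂).2.2 u u2,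
          (h2 _ χ₃).2.2 u u3]
        norm_num
      · rw [(h2 _ χ₁).2.1 u i u1, (h2 _ χ₂).2.1 u i u2, (h2 _ χ₃).2.1 u i u3, map_mul]
        ring)
  rw [hNv] at key
  have hS : ∑ j ∈ range (a * b * c),
      ‖Gs χ₁ (h + j * v) * Gs χ₂ (h + j * v) * conj (Gs χ₃ (h + j * v))‖ ^ 2 ≤
      (EE a b c : ℝ) * (L ^ 2 / R * L ^ 2) := by
    have g1 : 1 ≤ Nat.gcd a b := Nat.gcd_pos_of_pos_left _ ha
    have g2 : 1 ≤ Nat.gcd a c := Nat.gcd_pos_of_pos_left _ ha
    have g3 : 1 ≤ Nat.gcd b c := Nat.gcd_pos_of_pos_left _ hb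
    have G3 : (Nat.gcd b c : ℝ) ≤ (EE a b c : ℝ) := by
      have : Nat.gcd b c ≤ EE a b c := by
        unfold EE
        exact Nat.le_mul_of_pos_left _ (Nat.mul_pos g1 g2)
      exact_mod_cast this
    have G2 : (Nat.gcd a c : ℝ) ≤ (EE a b c : ℝ) := by
      have : Nat.gcd a c ≤ EE a b c := by
        unfold EE
        exact (Nat.le_mul_of_pos_left _ g1).trans (Nat.le_mul_of_pos_right _ g3)
      exact_mod_cast this
    have G4 : (Nat.gcd a b : ℝ) ≤ (EE a b c : ℝ) := by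
      have : Nat.gcd a b ≤ EE a b c := by
        unfold EE
        exact (Nat.le_mul_of_pos_right _ g2).trans (Nat.le_mul_of_pos_right _ g3)
      exact_mod_cast this
    have hK : 0 ≤ L ^ 2 / R := by positivity
    have b1 := sum_TRGE h4 h5 (b * c) v (a * b * c * v) χ₁ h (Nat.mul_pos hb hc) hv l1
    have b2 := sum_TRGE h4 h5 (a * c) v (a * b * c * v) χ₂ h (Nat.mul_pos ha hc) hv l2
    have b3 := sum_TRGE h4 h5 (a * b) v (a * b * c * v) χ₃ h (Nat.mul_pos ha hb) hv l3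
    rcases hD with hD | hD | hD
    · have := tri_TRGE (fun j => ‖Gs χ₁ (h + j * v)‖ ^ 2) (fun j => ‖Gs χ₂ (h + j * v)‖ ^ 2)
        (fun j => ‖Gs χ₃ (h + j * v)‖ ^ 2) (a * c) (a * b) (a * b * c) (Nat.gcd b c) (L ^ 2 / R) L
        (EE a b c) (Nat.mul_pos ha hc) (Nat.mul_pos ha hb)
        (by rw [Nat.lcm_comm]; exact lcm_TRGE a b c) G3 hK
        (fun j => sup_TRGE h3 _ _ χ₁ R hR hD l1 _) (fun j => by positivity)
        (fun j => by positivity) (fun j => perj_TRGE h2 _ v χ₂ h j)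
        (fun j => perj_TRGE h2 _ v χ₃ h j) b2 b3
      refine le_trans (le_of_eq ?_) this
      refine Finset.sum_congr rfl fun j _ => ?_
      rw [norm_mul, norm_mul, RCLike.norm_conj]
      ring
    · have := tri_TRGE (fun j => ‖Gs χ₂ (h + j * v)‖ ^ 2) (fun j => ‖Gs χ₁ (h + j * v)‖ ^ 2)
        (fun j => ‖Gs χ₃ (h + j * v)‖ ^ 2) (b * c) (a * b) (a * b * c) (Nat.gcd a c) (L ^ 2 / R) L
        (EE a b c) (Nat.mul_pos hb hc) (Nat.mul_pos ha hb)
        (by rw [Nat.lcm_comm, mul_comm a b]; exact lcm_TRGE b a c) G2 hK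
        (fun j => sup_TRGE h3 _ _ χ₂ R hR hD l2 _) (fun j => by positivity)
        (fun j => by positivity) (fun j => perj_TRGE h2 _ v χ₁ h j)
        (fun j => perj_TRGE h2 _ v χ₃ h j) b1 b3
      refine le_trans (le_of_eq ?_) this
      refine Finset.sum_congr rfl fun j _ => ?_
      rw [norm_mul, norm_mul, RCLike.norm_conj]
      ring
    · have := tri_TRGE (fun j => ‖Gs χ₃ (h + j * v)‖ ^ 2) (fun j => ‖Gs χ₁ (h + j * v)‖ ^ 2)
        (fun j => ‖Gs χ₂ (h + j * v)‖ ^ 2) (b * c) (a * c) (a * b * c) (Nat.gcd a b) (L ^ 2 / R) L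
        (EE a b c) (Nat.mul_pos hb hc) (Nat.mul_pos ha hc)
        (by
          rw [Nat.lcm_comm, mul_comm a c, mul_comm b c]
          have := lcm_TRGE c a b
          rw [← this]
          ring) G4 hK
        (fun j => sup_TRGE h3 _ _ χ₃ R hR hD l3 _) (fun j => by positivity)
        (fun j => by positivity) (fun j => perj_TRGE h2 _ v χ₁ h j)
        (fun j => perj_TRGE h2 _ v χ₂ h j) b1 b2
      refine le_trans (le_of_eq ?_) this
      refine Finset.sum_congr rfl fun j _ => ?_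
      rw [norm_mul, norm_mul, RCLike.norm_conj]
      ring
  have hphi : ((a * b * c * v : ℕ) : ℝ) / Nat.totient (a * b * c * v) ≤ L := by
    have h9 : (0 : ℝ) < Nat.totient (a * b * c * v) := by
      exact_mod_cast Nat.totient_pos.2 hN1
    rw [div_le_iff₀ h9, mul_comm L]
    exact h5 _ hN1
  have hg : (Int.gcd d ((a * b * c * v : ℕ) : ℤ) : ℝ) ≤ Int.gcd d ((a * b * c : ℕ) : ℤ) * v := by
    have e1 : Int.gcd d ((a * b * c * v : ℕ) : ℤ) = Nat.gcd d.natAbs (a * b * c * v) := by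
      rw [Int.gcd, Int.natAbs_natCast]
    have e2 : Int.gcd d ((a * b * c : ℕ) : ℤ) = Nat.gcd d.natAbs (a * b * c) := by
      rw [Int.gcd, Int.natAbs_natCast]
    rw [e1, e2]
    have e3 : Nat.gcd d.natAbs (a * b * c * v) ≤
        Nat.gcd d.natAbs (a * b * c) * Nat.gcd d.natAbs v := by
      refine Nat.le_of_dvd ?_ (Nat.gcd_mul_right_dvd_mul_gcd _ _ _)
      exact Nat.mul_pos (Nat.gcd_pos_of_pos_right _ (Nat.mul_pos (Nat.mul_pos ha hb) hc))
        (Nat.gcd_pos_of_pos_right _ hv)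
    have e4 : Nat.gcd d.natAbs v ≤ v := Nat.gcd_le_right _ hv
    have e5 := e3.trans (Nat.mul_le_mul_left _ e4)
    exact_mod_cast e5
  have hS0 : 0 ≤ ∑ j ∈ range (a * b * c),
      ‖Gs χ₁ (h + j * v) * Gs χ₂ (h + j * v) * conj (Gs χ₃ (h + j * v))‖ ^ 2 :=
    Finset.sum_nonneg fun _ _ => by positivity
  refine key.trans ?_
  calc (v : ℝ) * Int.gcd d ((a * b * c * v : ℕ) : ℤ) *
        (((a * b * c * v : ℕ) : ℝ) / Nat.totient (a * b * c * v)) *
        ∑ j ∈ range (a * b * c),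
          ‖Gs χ₁ (h + j * v) * Gs χ₂ (h + j * v) * conj (Gs χ₃ (h + j * v))‖ ^ 2
      ≤ (v : ℝ) * (Int.gcd d ((a * b * c : ℕ) : ℤ) * v) * L *
        ((EE a b c : ℝ) * (L ^ 2 / R * L ^ 2)) := by
        gcongr
    _ = EE a b c * v ^ 2 * Int.gcd d ((a * b * c : ℕ) : ℤ) * L ^ 5 / R := by ring

end Pool.Agent.Helper49.PC
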