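import Pool.Agent.Helper49.PC.StF

/-! Project PC, module TRV: the trivial bound. -/

set_option autoImplicit false

namespace Pool.Agent.Helper49.PC

open Finset ArithmeticFunction
open Pool.Agent.Helper48.BK (ex th lz Vz Pz gs nd Apx AdN Sol thd)
open scoped ComplexConjugate

private theorem card_TRV (X D l : ℕ) (hD : 1 ≤ D) :
    (D : ℝ) * (((Ioc 0 X).filter (fun n => n ≡ l [MOD D])).card : ℝ) ≤ X + D := by
  have hD' : (0 : ℚ) < D := by exact_mod_cast hD
  have h := Nat.Ioc_filter_modEq_card 0 X (r := D) (by omega) l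
  have h2 : ((((Ioc 0 X).filter (fun n => n ≡ l [MOD D])).card : ℤ) : ℚ) ≤ X / D + 1 := by
    rw [h]
    push_cast
    have h3 := Int.floor_le (((X : ℚ) - l) / D)
    have h4 := Int.lt_floor_add_one ((0 - (l : ℚ)) / D)
    have h5 : ((X : ℚ) - l) / D = X / D + (0 - (l : ℚ)) / D := by ring
    have h6 : (0 : ℚ) ≤ X / D := by positivity
    refine max_le ?_ (by linarith)
    linarith
  have h7 : (D : ℚ) * (((Ioc 0 X).filter (fun n => n ≡ l [MOD D])).card : ℚ) ≤ X + D := by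
    have h8 := mul_le_mul_of_nonneg_left h2 hD'.le
    have h9 : (D : ℚ) * (X / D + 1) = X + D := by
      field_simp
    rw [h9] at h8
    exact_mod_cast h8
  exact_mod_cast h7

theorem hTRV (h1 : StPV) : StTRV := by
  intro F X D θ hD
  rw [h1 F X D θ hD, mul_sum]
  have hcs : ∀ l ∈ range D,
      (D : ℝ) * ‖∑ n ∈ (Ioc 0 X).filter (fun n => n ≡ l [MOD D]), F n * ex (n * (θ / D))‖ ^ 2 ≤
      (X + D) * ∑ n ∈ (Ioc 0 X).filter (fun n => n ≡ l [MOD D]), ‖F n‖ ^ 2 := by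
    intro l _
    have e1 : ‖∑ n ∈ (Ioc 0 X).filter (fun n => n ≡ l [MOD D]), F n * ex (n * (θ / D))‖ ≤
        ∑ n ∈ (Ioc 0 X).filter (fun n => n ≡ l [MOD D]), ‖F n‖ := by
      refine (norm_sum_le _ _).trans (le_of_eq ?_)
      refine sum_congr rfl fun n _ => ?_
      rw [norm_mul, norm_ex, mul_one]
    have e2 := sq_sum_le_card_mul_sum_sq (s := (Ioc 0 X).filter (fun n => n ≡ l [MOD D]))
      (f := fun n => ‖F n‖)
    have e3 := card_TRV X D l hD
    have e4 : (0 : ℝ) ≤ ∑ n ∈ (Ioc 0 X).filter (fun n => n ≡ l [MOD D]), ‖F n‖ ^ 2 :=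
      sum_nonneg fun _ _ => by positivity
    calc (D : ℝ) * ‖∑ n ∈ (Ioc 0 X).filter (fun n => n ≡ l [MOD D]), F n * ex (n * (θ / D))‖ ^ 2
        ≤ D * ((((Ioc 0 X).filter (fun n => n ≡ l [MOD D])).card : ℝ) *
          ∑ n ∈ (Ioc 0 X).filter (fun n => n ≡ l [MOD D]), ‖F n‖ ^ 2) := by
          refine mul_le_mul_of_nonneg_left ?_ (by positivity)
          exact (pow_le_pow_left₀ (norm_nonneg _) e1 2).trans e2
      _ = (D * (((Ioc 0 X).filter (fun n => n ≡ l [MOD D])).card : ℝ)) *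
          ∑ n ∈ (Ioc 0 X).filter (fun n => n ≡ l [MOD D]), ‖F n‖ ^ 2 := by ring
      _ ≤ _ := mul_le_mul_of_nonneg_right e3 e4
  refine (sum_le_sum hcs).trans (le_of_eq ?_)
  rw [← mul_sum]
  congr 1
  have hf : ∀ l ∈ range D, ∑ n ∈ (Ioc 0 X).filter (fun n => n ≡ l [MOD D]), ‖F n‖ ^ 2 =
      ∑ n ∈ (Ioc 0 X).filter (fun n => n % D = l), ‖F n‖ ^ 2 := by
    intro l hl
    refine sum_congr ?_ fun _ _ => rfl
    refine filter_congr fun n _ => ?_
    unfold Nat.ModEq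
    rw [Nat.mod_eq_of_lt (mem_range.1 hl)]
  rw [sum_congr rfl hf]
  exact sum_fiberwise_of_maps_to (fun n _ => mem_range.2 (Nat.mod_lt _ (by omega))) _

end Pool.Agent.Helper49.PC
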