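import Pool.Agent.Helper49.PC.StN
import Pool.Agent.Helper48.BK.M_TII

/-! PC module TU2: bilinear sums in the unit classes. -/

set_option autoImplicit false

namespace Pool.Agent.Helper49.PC

open Finset
open Pool.Agent.Helper48.BK (ex gs Apx)

/-- opening the squares of the sums over the classes -/
theorem open_TU2 (D : ℕ) (hD : 1 ≤ D) (s : Finset ℕ) (g : ℕ → ℕ) (f : ℕ → ℂ) :
    ((∑ l ∈ range D, ‖∑ m ∈ s, (if g m ≡ l [MOD D] then f m else 0)‖ ^ 2 : ℝ) : ℂ) =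
      ∑ m ∈ s, ∑ m' ∈ s, if g m ≡ g m' [MOD D] then f m * (starRingEnd ℂ) (f m') else 0 := by
  push_cast
  have h1 : ∀ l ∈ range D, ((‖∑ m ∈ s, (if g m ≡ l [MOD D] then f m else 0)‖ : ℝ) : ℂ) ^ 2 =
      ∑ m ∈ s, ∑ m' ∈ s, (if g m ≡ l [MOD D] then f m else 0) *
        (starRingEnd ℂ) (if g m' ≡ l [MOD D] then f m' else 0) := by
    intro l _
    rw [← Complex.mul_conj', map_sum, sum_mul_sum]
  rw [sum_congr rfl h1, sum_comm]
  refine sum_congr rfl fun m _ => ?_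
  rw [sum_comm]
  refine sum_congr rfl fun m' _ => ?_
  have h2 : ∀ l ∈ range D, (if g m ≡ l [MOD D] then f m else 0) *
      (starRingEnd ℂ) (if g m' ≡ l [MOD D] then f m' else 0) =
      if l = g m % D then (if g m ≡ g m' [MOD D] then f m * (starRingEnd ℂ) (f m') else 0)
        else 0 := by
    intro l hl
    rw [mem_range] at hl
    have h3 : g m ≡ l [MOD D] ↔ l = g m % D := by
      unfold Nat.ModEq
      rw [Nat.mod_eq_of_lt hl]
      exact eq_comm
    by_cases h4 : g m ≡ l [MOD D]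
    · rw [if_pos h4, if_pos (h3.1 h4)]
      by_cases h5 : g m' ≡ l [MOD D]
      · rw [if_pos h5, if_pos (h4.trans h5.symm)]
      · rw [if_neg h5, if_neg (fun h6 => h5 (h6.symm.trans h4)), map_zero, mul_zero]
    · rw [if_neg h4, if_neg (fun h6 => h4 (h3.2 h6)), zero_mul]
  rw [sum_congr rfl h2, sum_ite_eq' (range D) (g m % D)]
  rw [if_pos (mem_range.2 (Nat.mod_lt _ hD))]

/-- the sum over the unit classes for one `k` -/
theorem units_TU2 (D : ℕ) (hD : 1 ≤ D) (k : ℕ) (s : Finset ℕ) (f : ℕ → ℂ) :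
    ∑ l ∈ Un D, ‖∑ m ∈ s, (if k * m ≡ l [MOD D] then f m else 0)‖ ^ 2 ≤
      ∑ l ∈ range D, ‖∑ m ∈ s, (if m ≡ l [MOD D] then f m else 0)‖ ^ 2 := by
  by_cases hk : Nat.Coprime k D
  · have h1 : ∑ l ∈ Un D, ‖∑ m ∈ s, (if k * m ≡ l [MOD D] then f m else 0)‖ ^ 2 ≤
        ∑ l ∈ range D, ‖∑ m ∈ s, (if k * m ≡ l [MOD D] then f m else 0)‖ ^ 2 :=
      sum_le_sum_of_subset_of_nonneg (filter_subset _ _) fun _ _ _ => sq_nonneg _
    refine h1.trans (le_of_eq ?_)
    have h2 := open_TU2 D hD s (fun m => k * m) f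
    have h3 := open_TU2 D hD s (fun m => m) f
    have h4 : (∑ m ∈ s, ∑ m' ∈ s, if k * m ≡ k * m' [MOD D] then
          f m * (starRingEnd ℂ) (f m') else 0) =
        ∑ m ∈ s, ∑ m' ∈ s, if m ≡ m' [MOD D] then f m * (starRingEnd ℂ) (f m') else 0 := by
      refine sum_congr rfl fun m _ => sum_congr rfl fun m' _ => ?_
      have h5 : k * m ≡ k * m' [MOD D] ↔ m ≡ m' [MOD D] := by
        constructor
        · intro h
          exact Nat.ModEq.cancel_left_of_coprime (by rw [Nat.gcd_comm]; exact hk) h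
        · intro h
          exact h.mul_left k
      by_cases h6 : m ≡ m' [MOD D]
      · rw [if_pos h6, if_pos (h5.2 h6)]
      · rw [if_neg h6, if_neg (fun h7 => h6 (h5.1 h7))]
    have h5 := (h2.trans h4).trans h3.symm
    exact_mod_cast h5
  · have h1 : ∀ l ∈ Un D, ‖∑ m ∈ s, (if k * m ≡ l [MOD D] then f m else 0)‖ ^ 2 = 0 := by
      intro l hl
      have h2 : Nat.Coprime l D := (mem_filter.1 hl).2
      have h3 : ∑ m ∈ s, (if k * m ≡ l [MOD D] then f m else 0) = 0 := by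
        refine sum_eq_zero fun m _ => ?_
        rw [if_neg]
        intro h4
        apply hk
        have h5 : Nat.Coprime (k * m) D := by
          have h6 := h4.gcd_eq
          unfold Nat.Coprime
          rw [h6]
          exact h2
        exact Nat.Coprime.coprime_mul_right h5
      rw [h3, norm_zero]
      norm_num
    rw [sum_eq_zero h1]
    exact sum_nonneg fun _ _ => sq_nonneg _

/-- the sum over one variable -/
theorem row_TU2 (ha : Pool.Agent.Helper48.BK.StGeo1) (K N D : ℕ) (hD : 1 ≤ D) (θ : ℝ) (m : ℕ)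
    (hm : m ∈ Ioc 0 N) :
    ∑ m' ∈ Ioc 0 N, (if m ≡ m' [MOD D] then gs K (((m : ℝ) - m') * (θ / D)) else 0) ≤
      K + 2 * ∑ s ∈ Icc 1 (N / D), gs K (s * θ) := by
  obtain ⟨h1, h2, h3, h4⟩ := ha
  have hK0 : (0 : ℝ) ≤ K := Nat.cast_nonneg K
  have hD0 : (D : ℝ) ≠ 0 := by
    have : (1 : ℝ) ≤ D := by exact_mod_cast hD
    linarith
  rw [mem_Ioc] at hm
  rw [← sum_filter]
  set A : Finset ℕ := (Ioc 0 N).filter (fun m' => m ≡ m' [MOD D]) with hA
  have hsplit : A = (A.filter (fun m' => m' < m) ∪ {m}) ∪ A.filter (fun m' => m < m') := by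
    ext n
    simp only [hA, mem_union, mem_filter, mem_Ioc, mem_singleton]
    constructor
    · rintro ⟨⟨h5, h6⟩, h7⟩
      rcases lt_trichotomy n m with h8 | h8 | h8
      · exact Or.inl (Or.inl ⟨⟨⟨h5, h6⟩, h7⟩, h8⟩)
      · exact Or.inl (Or.inr h8)
      · exact Or.inr ⟨⟨⟨h5, h6⟩, h7⟩, h8⟩
    · rintro ((⟨h5, -⟩ | h5) | ⟨h5, -⟩)
      · exact h5
      · subst h5
        exact ⟨⟨hm.1, hm.2⟩, Nat.ModEq.refl _⟩
      · exact h5
  have hd1 : Disjoint (A.filter (fun m' => m' < m) ∪ {m}) (A.filter (fun m' => m < m')) := by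
    rw [disjoint_left]
    intro n hn hn'
    simp only [mem_union, mem_filter, mem_singleton] at hn hn'
    omega
  have hd2 : Disjoint (A.filter (fun m' => m' < m)) {m} := by
    rw [disjoint_left]
    intro n hn hn'
    simp only [mem_filter, mem_singleton] at hn hn'
    omega
  have e1 : ∑ m' ∈ A.filter (fun m' => m' < m), gs K (((m : ℝ) - m') * (θ / D)) ≤
      ∑ s ∈ Icc 1 (N / D), gs K (s * θ) := by
    have key : ∀ m' ∈ A.filter (fun m' => m' < m), D * ((m - m') / D) = m - m' ∧ m' < m := by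
      intro m' hm'
      rw [mem_filter, hA, mem_filter] at hm'
      obtain ⟨⟨_, h6⟩, h7⟩ := hm'
      exact ⟨Nat.mul_div_cancel' ((Nat.modEq_iff_dvd' h7.le).1 h6.symm), h7⟩
    have e : ∑ m' ∈ A.filter (fun m' => m' < m), gs K (((m : ℝ) - m') * (θ / D)) =
        ∑ s ∈ (A.filter (fun m' => m' < m)).image (fun m' => (m - m') / D), gs K (s * θ) := by
      rw [sum_image]
      · refine sum_congr rfl fun n hn => ?_
        obtain ⟨h5, h6⟩ := key n hn
        have h7 : ((m : ℝ) - n) = D * (((m - n) / D : ℕ) : ℝ) := by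
          rw [← Nat.cast_mul, h5, Nat.cast_sub h6.le]
        rw [h7]
        congr 1
        field_simp
      · intro n hn n' hn' hnm
        obtain ⟨h5, h6⟩ := key n (mem_coe.1 hn)
        obtain ⟨h7, h8⟩ := key n' (mem_coe.1 hn')
        have h9 : (m - n) / D = (m - n') / D := hnm
        rw [h9, h7] at h5
        omega
    rw [e]
    refine sum_le_sum_of_subset_of_nonneg ?_ fun k _ _ => h3 _ _ hK0
    intro s hs
    obtain ⟨n, hn, rfl⟩ := mem_image.1 hs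
    obtain ⟨h5, h6⟩ := key n hn
    rw [mem_Icc]
    constructor
    · rw [Nat.one_le_iff_ne_zero]
      intro h7
      rw [h7] at h5
      omega
    · exact Nat.div_le_div_right (by omega)
  have e2 : ∑ m' ∈ A.filter (fun m' => m < m'), gs K (((m : ℝ) - m') * (θ / D)) ≤
      ∑ s ∈ Icc 1 (N / D), gs K (s * θ) := by
    have key : ∀ m' ∈ A.filter (fun m' => m < m'), D * ((m' - m) / D) = m' - m ∧ m < m' ∧
        m' ≤ N := by
      intro m' hm'
      rw [mem_filter, hA, mem_filter, mem_Ioc] at hm'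
      obtain ⟨⟨h5, h6⟩, h7⟩ := hm'
      exact ⟨Nat.mul_div_cancel' ((Nat.modEq_iff_dvd' h7.le).1 h6), h7, h5.2⟩
    have e : ∑ m' ∈ A.filter (fun m' => m < m'), gs K (((m : ℝ) - m') * (θ / D)) =
        ∑ s ∈ (A.filter (fun m' => m < m')).image (fun m' => (m' - m) / D), gs K (s * θ) := by
      rw [sum_image]
      · refine sum_congr rfl fun n hn => ?_
        obtain ⟨h5, h6, -⟩ := key n hn
        have h7 : ((n : ℝ) - m) = D * (((n - m) / D : ℕ) : ℝ) := by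
          rw [← Nat.cast_mul, h5, Nat.cast_sub h6.le]
        have h8 : ((m : ℝ) - n) * (θ / D) = -((((n - m) / D : ℕ) : ℝ) * θ) := by
          have h9 : ((m : ℝ) - n) = -(D * (((n - m) / D : ℕ) : ℝ)) := by
            rw [← h7]
            ring
          rw [h9]
          field_simp
        rw [h8, h4 _ _ hK0]
      · intro n hn n' hn' hnm
        obtain ⟨h5, h6, -⟩ := key n (mem_coe.1 hn)
        obtain ⟨h7, h8, -⟩ := key n' (mem_coe.1 hn')
        have h9 : (n - m) / D = (n' - m) / D := hnm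
        rw [h9, h7] at h5
        omega
    rw [e]
    refine sum_le_sum_of_subset_of_nonneg ?_ fun k _ _ => h3 _ _ hK0
    intro s hs
    obtain ⟨n, hn, rfl⟩ := mem_image.1 hs
    obtain ⟨h5, h6, h7⟩ := key n hn
    rw [mem_Icc]
    constructor
    · rw [Nat.one_le_iff_ne_zero]
      intro h8
      rw [h8] at h5
      omega
    · exact Nat.div_le_div_right (by omega)
  rw [hsplit, sum_union hd1, sum_union hd2, sum_singleton, sub_self, zero_mul,
    Pool.Agent.Helper48.BK.gs_zero_TII]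
  linarith

theorem hTU2 (ha : Pool.Agent.Helper48.BK.StGeo1) (hb : Pool.Agent.Helper48.BK.StGeo2) :
    StTU2 := by
  obtain ⟨C, hC, hgeo⟩ := hb
  refine ⟨1 + 2 * C, by positivity, ?_⟩
  intro M D v K y h θ α β hM hD hK hy hap
  have hK1 : (1 : ℝ) ≤ K := by exact_mod_cast hK
  have hD1 : (1 : ℝ) ≤ D := by exact_mod_cast hD
  have hv1 : 1 ≤ v := hap.1
  have hv1' : (1 : ℝ) ≤ v := by exact_mod_cast hv1
  have hlv : 0 ≤ Real.log v := Real.log_nonneg hv1'
  set N : ℕ := D * M / K with hN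
  let c : ℕ → ℕ → ℂ := fun k m => if 0 < m ∧ k * m ≤ y then (β m : ℂ) * ex (k * m * (θ / D)) else 0
  let T : ℕ → ℕ → ℂ := fun k l => ∑ m ∈ Ioc 0 N, if k * m ≡ l [MOD D] then c k m else 0
  have hT : ∀ l, ∑ k ∈ Ioc K (2 * K), ∑ m ∈ Ioc 0 (y / k),
      (if k * m ≡ l [MOD D] then ((α k * β m : ℝ) : ℂ) * ex (k * m * (θ / D)) else 0) =
      ∑ k ∈ Ioc K (2 * K), (α k : ℂ) * T k l := by
    intro l
    refine sum_congr rfl fun k hk => ?_
    rw [mem_Ioc] at hk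
    have hk0 : 0 < k := by omega
    have hset : Ioc 0 (y / k) = (Ioc 0 N).filter (fun m => 0 < m ∧ k * m ≤ y) := by
      ext m
      rw [mem_Ioc, mem_filter, mem_Ioc, Nat.le_div_iff_mul_le hk0, mul_comm m k]
      constructor
      · rintro ⟨h1, h2⟩
        refine ⟨⟨h1, ?_⟩, h1, h2⟩
        rw [hN, Nat.le_div_iff_mul_le (by omega)]
        calc m * K ≤ m * k := Nat.mul_le_mul_left _ hk.1.le
          _ = k * m := Nat.mul_comm _ _
          _ ≤ D * M := h2.trans hy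
      · rintro ⟨_, h1, h2⟩
        exact ⟨h1, h2⟩
    rw [hset, sum_filter, mul_sum]
    refine sum_congr rfl fun m _ => ?_
    simp only [c]
    split_ifs
    · push_cast
      ring
    · rw [mul_zero]
    · rw [mul_zero]
    · rw [mul_zero]
  -- Cauchy-Schwarz
  have hCS : ∀ l, ‖∑ k ∈ Ioc K (2 * K), (α k : ℂ) * T k l‖ ^ 2 ≤
      (∑ k ∈ Ioc K (2 * K), α k ^ 2) * ∑ k ∈ Ioc K (2 * K), ‖T k l‖ ^ 2 := by
    intro l
    have h1 : ‖∑ k ∈ Ioc K (2 * K), (α k : ℂ) * T k l‖ ≤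
        ∑ k ∈ Ioc K (2 * K), |α k| * ‖T k l‖ := by
      refine (norm_sum_le _ _).trans (le_of_eq (sum_congr rfl fun u _ => ?_))
      rw [norm_mul, Complex.norm_real, Real.norm_eq_abs]
    have h2 := Finset.sum_mul_sq_le_sq_mul_sq (Ioc K (2 * K)) (fun k => |α k|) (fun k => ‖T k l‖)
    simp only [sq_abs] at h2
    exact (pow_le_pow_left₀ (norm_nonneg _) h1 2).trans h2
  -- the squares
  set S : ℕ → ℕ → ℂ := fun k l => ∑ m ∈ Ioc 0 N, if m ≡ l [MOD D] then c k m else 0 with hS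
  have hun : ∀ k, ∑ l ∈ Un D, ‖T k l‖ ^ 2 ≤ ∑ l ∈ range D, ‖S k l‖ ^ 2 := by
    intro k
    exact units_TU2 D hD k (Ioc 0 N) (c k)
  have hgs0 : ∀ t, 0 ≤ gs K t := fun t => ha.2.2.1 _ _ (Nat.cast_nonneg K)
  have hsq : ∑ k ∈ Ioc K (2 * K), ∑ l ∈ range D, ‖S k l‖ ^ 2 ≤
      ∑ m ∈ Ioc 0 N, ∑ m' ∈ Ioc 0 N, |β m| * |β m'| *
        (if m ≡ m' [MOD D] then gs K (((m : ℝ) - m') * (θ / D)) else 0) := by
    have e1 : ((∑ k ∈ Ioc K (2 * K), ∑ l ∈ range D, ‖S k l‖ ^ 2 : ℝ) : ℂ) =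
        ∑ m ∈ Ioc 0 N, ∑ m' ∈ Ioc 0 N, if m ≡ m' [MOD D] then
          ∑ k ∈ Ioc K (2 * K), c k m * (starRingEnd ℂ) (c k m') else 0 := by
      rw [Complex.ofReal_sum]
      have : ∀ k ∈ Ioc K (2 * K), ((∑ l ∈ range D, ‖S k l‖ ^ 2 : ℝ) : ℂ) =
          ∑ m ∈ Ioc 0 N, ∑ m' ∈ Ioc 0 N, if m ≡ m' [MOD D] then
            c k m * (starRingEnd ℂ) (c k m') else 0 := by
        intro k _
        exact open_TU2 D hD (Ioc 0 N) (fun m => m) (c k)
      rw [sum_congr rfl this, sum_comm]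
      refine sum_congr rfl fun m _ => ?_
      rw [sum_comm]
      refine sum_congr rfl fun m' _ => ?_
      split_ifs
      · rfl
      · exact sum_const_zero
    have e2 : ∑ k ∈ Ioc K (2 * K), ∑ l ∈ range D, ‖S k l‖ ^ 2 =
        ‖((∑ k ∈ Ioc K (2 * K), ∑ l ∈ range D, ‖S k l‖ ^ 2 : ℝ) : ℂ)‖ := by
      rw [Complex.norm_real, Real.norm_of_nonneg
        (sum_nonneg fun k _ => sum_nonneg fun l _ => sq_nonneg _)]
    rw [e2, e1]
    refine (norm_sum_le _ _).trans (sum_le_sum fun m hm => ?_)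
    refine (norm_sum_le _ _).trans (sum_le_sum fun m' hm' => ?_)
    rw [mem_Ioc] at hm hm'
    split_ifs
    · exact Pool.Agent.Helper48.BK.inner_TII ha K y 0 hK (θ / D) β m m' hm.1 hm'.1
    · rw [norm_zero, mul_zero]
  have hsym : ∑ m ∈ Ioc 0 N, ∑ m' ∈ Ioc 0 N, |β m| * |β m'| *
        (if m ≡ m' [MOD D] then gs K (((m : ℝ) - m') * (θ / D)) else 0) ≤
      ∑ m ∈ Ioc 0 N, β m ^ 2 * ∑ m' ∈ Ioc 0 N,
        (if m ≡ m' [MOD D] then gs K (((m : ℝ) - m') * (θ / D)) else 0) := by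
    set G : ℕ → ℕ → ℝ := fun m m' =>
      (if m ≡ m' [MOD D] then gs K (((m : ℝ) - m') * (θ / D)) else 0) with hG
    have hG0 : ∀ m m', 0 ≤ G m m' := by
      intro m m'
      simp only [hG]
      split_ifs
      · exact hgs0 _
      · exact le_rfl
    have hGs : ∀ m m', G m m' = G m' m := by
      intro m m'
      simp only [hG]
      by_cases h1 : m ≡ m' [MOD D]
      · rw [if_pos h1, if_pos h1.symm, ← ha.2.2.2 _ _ (Nat.cast_nonneg K)]
        congr 1
        ring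
      · rw [if_neg h1, if_neg (fun h2 => h1 h2.symm)]
    have e1 : ∑ m ∈ Ioc 0 N, ∑ m' ∈ Ioc 0 N, |β m| * |β m'| * G m m' ≤
        ∑ m ∈ Ioc 0 N, ∑ m' ∈ Ioc 0 N, (β m ^ 2 / 2 * G m m' + β m' ^ 2 / 2 * G m m') := by
      refine sum_le_sum fun m _ => sum_le_sum fun m' _ => ?_
      rw [← add_mul]
      refine mul_le_mul_of_nonneg_right ?_ (hG0 _ _)
      nlinarith [sq_nonneg (|β m| - |β m'|), sq_abs (β m), sq_abs (β m')]
    have e2 : ∑ m ∈ Ioc 0 N, ∑ m' ∈ Ioc 0 N, β m' ^ 2 / 2 * G m m' =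
        ∑ m ∈ Ioc 0 N, ∑ m' ∈ Ioc 0 N, β m ^ 2 / 2 * G m m' := by
      rw [sum_comm]
      refine sum_congr rfl fun m _ => sum_congr rfl fun m' _ => ?_
      rw [hGs]
    refine e1.trans (le_of_eq ?_)
    simp only [sum_add_distrib]
    rw [e2, ← sum_add_distrib]
    refine sum_congr rfl fun m _ => ?_
    rw [← sum_add_distrib, mul_sum]
    refine sum_congr rfl fun m' _ => ?_
    ring
  have hND : N / D = M / K := by
    rw [hN, Nat.div_div_eq_div_mul, mul_comm K D, Nat.mul_div_mul_left _ _ hD]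
  have hrow : ∑ m ∈ Ioc 0 N, β m ^ 2 * ∑ m' ∈ Ioc 0 N,
        (if m ≡ m' [MOD D] then gs K (((m : ℝ) - m') * (θ / D)) else 0) ≤
      (∑ m ∈ Ioc 0 N, β m ^ 2) * (K + 2 * ∑ s ∈ Icc 1 (M / K), gs K (s * θ)) := by
    rw [sum_mul, ← hND]
    exact sum_le_sum fun m hm =>
      mul_le_mul_of_nonneg_left (row_TU2 ha K N D hD θ m hm) (sq_nonneg _)
  have hg := hgeo (M / K) v K h θ hK1 hap
  -- the final bound
  set R : ℕ := M / K with hR
  have hRx : (R : ℝ) ≤ M / K := Nat.cast_div_le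
  have hRK : (R : ℝ) * K ≤ M := by
    rw [← le_div_iff₀ (by linarith)]
    exact hRx
  set L := 1 + Real.log v with hL
  have hL1 : 1 ≤ L := by linarith
  have hM0 : (0 : ℝ) ≤ M := Nat.cast_nonneg M
  have hfin : (D : ℝ) * (K + 2 * ∑ s ∈ Icc 1 R, gs K (s * θ)) ≤
      (1 + 2 * C) * ((D : ℝ) * K + (D : ℝ) * M / v + (D : ℝ) * M / K + (D : ℝ) * v) * L := by
    have h1 : ((R : ℝ) / v + 1) * (K + v * L) ≤ (K + (M : ℝ) / v + M / K + v) * L := by
      have e : ((R : ℝ) / v + 1) * (K + v * L) = R * K / v + R * L + K + v * L := by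
        field_simp
        ring
      rw [e]
      have f1 : (R : ℝ) * K / v ≤ M / v := div_le_div_of_nonneg_right hRK (by linarith)
      have f2 : (R : ℝ) * L ≤ M / K * L := mul_le_mul_of_nonneg_right hRx (by linarith)
      have f4 : (M : ℝ) / v ≤ (M / v) * L := by
        have : 0 ≤ (M : ℝ) / v := by positivity
        nlinarith
      have f5 : (K : ℝ) ≤ K * L := by nlinarith
      nlinarith
    have h2 : ∑ s ∈ Icc 1 R, gs K (s * θ) ≤ C * ((K + (M : ℝ) / v + M / K + v) * L) := by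
      refine hg.trans ?_
      rw [mul_assoc]
      exact mul_le_mul_of_nonneg_left h1 hC.le
    have h3 : (K : ℝ) ≤ (K + (M : ℝ) / v + M / K + v) * L := by
      have g1 : 0 ≤ (M : ℝ) / v := by positivity
      have g2 : 0 ≤ (M : ℝ) / K := by positivity
      nlinarith
    have h4 : (K : ℝ) + 2 * ∑ s ∈ Icc 1 R, gs K (s * θ) ≤
        (1 + 2 * C) * ((K + (M : ℝ) / v + M / K + v) * L) := by
      nlinarith
    calc (D : ℝ) * (K + 2 * ∑ s ∈ Icc 1 R, gs K (s * θ))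
        ≤ D * ((1 + 2 * C) * ((K + (M : ℝ) / v + M / K + v) * L)) :=
          mul_le_mul_of_nonneg_left h4 (by linarith)
      _ = _ := by ring
  have hA : 0 ≤ ∑ k ∈ Ioc K (2 * K), α k ^ 2 := sum_nonneg fun u _ => sq_nonneg _
  have hB : 0 ≤ ∑ m ∈ Ioc 0 N, β m ^ 2 := sum_nonneg fun u _ => sq_nonneg _
  calc (D : ℝ) * ∑ l ∈ Un D, ‖∑ k ∈ Ioc K (2 * K), ∑ m ∈ Ioc 0 (y / k),
      (if k * m ≡ l [MOD D] then ((α k * β m : ℝ) : ℂ) * ex (k * m * (θ / D)) else 0)‖ ^ 2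
      = (D : ℝ) * ∑ l ∈ Un D, ‖∑ k ∈ Ioc K (2 * K), (α k : ℂ) * T k l‖ ^ 2 := by
        simp only [hT]
    _ ≤ (D : ℝ) * ∑ l ∈ Un D,
        (∑ k ∈ Ioc K (2 * K), α k ^ 2) * ∑ k ∈ Ioc K (2 * K), ‖T k l‖ ^ 2 :=
        mul_le_mul_of_nonneg_left (sum_le_sum fun l _ => hCS l) (by linarith)
    _ = (∑ k ∈ Ioc K (2 * K), α k ^ 2) *
        ((D : ℝ) * ∑ k ∈ Ioc K (2 * K), ∑ l ∈ Un D, ‖T k l‖ ^ 2) := by
        rw [← mul_sum, sum_comm]
        ring
    _ ≤ (∑ k ∈ Ioc K (2 * K), α k ^ 2) *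
        ((D : ℝ) * ((∑ m ∈ Ioc 0 N, β m ^ 2) * (K + 2 * ∑ s ∈ Icc 1 R, gs K (s * θ)))) := by
        refine mul_le_mul_of_nonneg_left ?_ hA
        refine mul_le_mul_of_nonneg_left ?_ (by linarith)
        exact (sum_le_sum fun k _ => hun k).trans ((hsq.trans hsym).trans hrow)
    _ = (∑ k ∈ Ioc K (2 * K), α k ^ 2) * ((∑ m ∈ Ioc 0 N, β m ^ 2) *
        ((D : ℝ) * (K + 2 * ∑ s ∈ Icc 1 R, gs K (s * θ)))) := by ring
    _ ≤ (∑ k ∈ Ioc K (2 * K), α k ^ 2) * ((∑ m ∈ Ioc 0 N, β m ^ 2) *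
        ((1 + 2 * C) * ((D : ℝ) * K + (D : ℝ) * M / v + (D : ℝ) * M / K + (D : ℝ) * v) * L)) :=
        mul_le_mul_of_nonneg_left (mul_le_mul_of_nonneg_left hfin hB) hA
    _ = _ := by ring

end Pool.Agent.Helper49.PC
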