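import Pool.Agent.Helper48.BK.Top
import Pool.Agent.Helper48.PC.M_MTT
import Pool.Agent.Helper49.PC.M_ORT
import Pool.Agent.Helper49.PC.M_PV
import Pool.Agent.Helper49.PC.M_PVI
import Pool.Agent.Helper49.PC.M_TRV
import Pool.Agent.Helper49.PC.M_PFL
import Pool.Agent.Helper49.PC.M_LW
import Pool.Agent.Helper49.PC.M_RDC
import Pool.Agent.Helper49.PC.M_LWE
import Pool.Agent.Helper49.PC.M_WBE
import Pool.Agent.Helper49.PC.M_CIR
import Pool.Agent.Helper49.PC.M_SJP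
import Pool.Agent.Helper49.PC.M_MEA
import Pool.Agent.Helper49.PC.M_CMPE
import Pool.Agent.Helper49.PC.M_MNRE
import Pool.Agent.Helper49.PC.M_PHI
import Pool.Agent.Helper49.PC.M_OC
import Pool.Agent.Helper49.PC.M_MSQ
import Pool.Agent.Helper49.PC.M_GEX
import Pool.Agent.Helper49.PC.M_GUN
import Pool.Agent.Helper49.PC.M_GPV
import Pool.Agent.Helper49.PC.M_GSU
import Pool.Agent.Helper49.PC.M_DUA
import Pool.Agent.Helper49.PC.M_TRGE
import Pool.Agent.Helper49.PC.M_DVK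
import Pool.Agent.Helper49.PC.M_PS2
import Pool.Agent.Helper49.PC.M_SMT
import Pool.Agent.Helper49.PC.M_FOU
import Pool.Agent.Helper49.PC.M_HOL
import Pool.Agent.Helper49.PC.M_PCE
import Pool.Agent.Helper49.PC.M_LEF
import Pool.Agent.Helper49.PC.M_BDC
import Pool.Agent.Helper49.PC.M_VAC
import Pool.Agent.Helper49.PC.M_LMG
import Pool.Agent.Helper49.PC.M_SWC
import Pool.Agent.Helper49.PC.M_PNU
import Pool.Agent.Helper49.PC.M_TU2
import Pool.Agent.Helper49.PC.M_TU1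
import Pool.Agent.Helper49.PC.M_MIL
import Pool.Agent.Helper49.PC.M_RED
import Pool.Agent.Helper49.PC.M_MIT
import Pool.Agent.Helper49.PC.M_LZB
import Pool.Agent.Helper49.PC.M_NUZ
import Pool.Agent.Helper49.PC.M_AZ2
import Pool.Agent.Helper49.PC.M_MIZ
import Pool.Agent.Helper49.PC.M_SLO
import Pool.Agent.Helper49.PC.M_SL0
import Pool.Agent.Helper49.PC.M_MJA
import Pool.Agent.Helper49.PC.M_MJB
import Pool.Agent.Helper49.PC.M_MJC
import Pool.Agent.Helper49.PC.M_MJT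
import Pool.Agent.Helper49.PC.M_MJZ
import Pool.Agent.Helper49.PC.M_CHSE
import Pool.Agent.Helper49.PC.M_MJRE
import Pool.Agent.Helper49.PC.M_PMAE
import Pool.Agent.Helper49.PC.M_PMIE
import Pool.Agent.Helper49.PC.M_POSE
import Pool.Agent.Helper49.PC.M_NATE
import Pool.Agent.Helper49.PC.M_INTE
import Pool.Agent.Helper49.PC.M_FINE

/-!
# Project PC: assembly
-/

set_option autoImplicit false

namespace Pool.Agent.Helper49.PC

open Pool.Agent.Helper48.BK

/-! Fourier analysis on `Z/D` -/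
theorem tPV : StPV := hPV hORT
theorem tPVI : StPVI := hPVI hORT
theorem tTRV : StTRV := hTRV tPV
theorem tPFL : StPFL := hPFL hORT
theorem tLWE : StLWE := hLWE hLW hRDC
theorem tWBE : StWBE := hWBE tLWE
theorem tCIR : StCIR := hCIR hORT
theorem tCMPE : StCMPE := hCMPE tWBE
theorem tMNRE : StMNRE := hMNRE tWBE tPFL hSJP

/-! characters and Gauss sums -/
theorem tMSQ : StMSQ := hMSQ hOC
theorem tGPV : StGPV := hGPV tPVI hGUN
theorem tGSU : StGSU := hGSU hPHI hGUN tGPV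
theorem tDUA : StDUA := hDUA tPVI
theorem tTRGE : StTRGE := hTRGE tDUA hGUN tGSU tGPV hPHI

/-! mean squares over characters -/
theorem tPS2 : StPS2 := hPS2 tMSQ
theorem tSMT : StSMT := hSMT hOC
theorem tFOU : StFOU := hFOU tMSQ hDVK
theorem tPCE : StPCE := hPCE tMSQ tFOU hHOL hDVK
theorem tLEF : StLEF := hLEF hOC hDVK
theorem tBDC : StBDC := hBDC tPCE tLEF
theorem tVAC : StVAC := hVAC tSMT
theorem tLMG : StLMG := hLMG tVAC tBDC tPS2
theorem tSWC : StSWC := hSWC tPsiI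
theorem tPNU : StPNU := hPNU tPNT

/-! minor arcs -/
theorem tTU2 : StTU2 := hTU2 hGeo1 hGeo2
theorem tTU1 : StTU1 := hTU1 hGeo1 tTI
theorem tMIL : StMIL := hMIL tTU1 tTU2
theorem tRED : StRED := hRED tTRV hTh
theorem tMIT : StMIT := hMIT tRED tMIL tPV
theorem tLZB : StLZB := hLZB hVz
theorem tNUZ : StNUZ := hNUZ tLZB
theorem tAZ2 : StAZ2 := hAZ2 hBrun hTail hVz
theorem tMIZ : StMIZ := hMIZ tPV tTRV tNUZ hBrun hTail hVz tTI hGeo1

/-! major arcs -/
theorem tSLO : StSLO := hSLO tTRV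
theorem tMJA : StMJA := hMJA tRED tSLO hGEX
theorem tMJB : StMJB := hMJB tPNU hSL0 tGPV hPHI
theorem tMJC : StMJC := hMJC tLMG tPS2 tSWC tGPV hPHI
theorem tMJT : StMJT := hMJT tMJA tMJB tMJC
theorem tMJZ : StMJZ := hMJZ tTRV tNUZ tAZ2 tPVI
theorem tCHSE : StCHSE := hCHSE tTRGE
theorem tMJRE : StMJRE := hMJRE tTRV tMJT tMJZ tCMPE tCHSE hGUN hSJP tLZB

/-! assembly -/
theorem tMTT : StMTT := hMTT tCnt7 hLoc tC30 hEP
theorem tPMAE : StPMAE := hPMAE tMJRE hMEA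
theorem tPMIE : StPMIE := hPMIE tMNRE tMIT tMIZ hMEA tLZB
theorem tPOSE : StPOSE := hPOSE tCIR tPMAE tPMIE tMTT
theorem tNATE : StNATE := hNATE tPOSE
/-- the theorem -/
theorem tINTE : StINTE := hINTE tNATE

end Pool.Agent.Helper49.PC
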