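import Pool.Agent.Helper48.BK.StD
import Pool.Agent.Helper48.BK.StT

/-!
# Project PC (MP_3923f3_nt): Baker's constant, pairwise coprime coefficients

Definitions.  Basic objects (`ex`, `th`, `lz`, `Vz`, `Pz`, `gs`, `nd`, `Apx`, `AdN`, `Sol`, `thd`)
come from project BK.
-/

set_option autoImplicit false

namespace Pool.Agent.Helper49.PC

open Finset ArithmeticFunction
open Pool.Agent.Helper48.BK (ex th lz Vz Pz gs nd Apx AdN Sol thd)
open scoped ComplexConjugate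

/-- exponential sum over `(0, X]` -/
noncomputable def Sc (F : ℕ → ℂ) (X : ℕ) (α : ℝ) : ℂ := ∑ n ∈ Ioc 0 X, F n * ex (n * α)

/-- square sum over the points `(θ + j) / D` -/
noncomputable def NN (F : ℕ → ℂ) (X D : ℕ) (θ : ℝ) : ℝ :=
  ∑ j ∈ range D, ‖Sc F X ((θ + j) / D)‖ ^ 2

/-- restriction to the window `(w₀, w₁]` -/
noncomputable def cut (f : ℕ → ℝ) (w₀ w₁ n : ℕ) : ℝ := if w₀ < n ∧ n ≤ w₁ then f n else 0

/-- weighted number of solutions of `a n + b m = c l + d` -/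
noncomputable def T3 (f g h : ℕ → ℝ) (X Y Z a b c : ℕ) (d : ℤ) : ℝ :=
  ∑ n ∈ Ioc 0 X, ∑ m ∈ Ioc 0 Y, ∑ l ∈ Ioc 0 Z,
    if (a : ℤ) * n + b * m = c * l + d then f n * g m * h l else 0

/-- the complete sum over the `a b c` points `(θ + j) / (a b c)` -/
noncomputable def WW (u v w : ℕ → ℂ) (a b c : ℕ) (d : ℤ) (θ : ℝ) : ℂ :=
  ∑ j ∈ range (a * b * c), u j * v j * conj (w j) * ex (-(d * ((θ + j) / (a * b * c : ℕ))))

/-- values of the exponential sum of a real function at the points `(θ + j) / D` -/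
noncomputable def Sj (f : ℕ → ℝ) (X D : ℕ) (θ : ℝ) (j : ℕ) : ℂ :=
  Sc (fun n => (f n : ℂ)) X ((θ + j) / D)

/-- normalised Gauss sum `1/φ(q) ∑_{x mod q} conj χ(x) e(i x / q)` -/
noncomputable def Gs {q : ℕ} (χ : DirichletCharacter ℂ q) (i : ℤ) : ℂ :=
  (1 / (Nat.totient q : ℂ)) * ∑ x ∈ range q, conj (χ (x : ZMod q)) * ex (i * x / q)

/-- the character does not come from a level `≤ R` -/
def Deep (R : ℝ) {q : ℕ} (χ : DirichletCharacter ℂ q) : Prop :=
  ∀ d : ℕ, χ.FactorsThrough d → R < d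

/-- pairwise coprime -/
def PCop (a b c : ℕ) : Prop := Nat.Coprime a b ∧ Nat.Coprime a c ∧ Nat.Coprime b c

/-- the `l²` norm over a finite set -/
noncomputable def l2 {ι : Type*} (s : Finset ι) (u : ι → ℂ) : ℝ := √(∑ i ∈ s, ‖u i‖ ^ 2)

end Pool.Agent.Helper49.PC
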