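import Pool.Agent.Helper49.PC.StC
import Pool.Agent.Helper2.DivisorSum

/-! # Project PC, module DVK: moments of the divisor function -/

set_option autoImplicit false

namespace Pool.Agent.Helper49.PC

open Finset ArithmeticFunction

/-- `τ(n)^k / n` -/
private noncomputable def g_DVK (k : ℕ) : ArithmeticFunction ℝ :=
  ⟨fun n => (n.divisors.card : ℝ) ^ k / n, by simp⟩

/-- `τ(n)^k` for `n ≠ 0` -/
private noncomputable def t_DVK (k : ℕ) : ArithmeticFunction ℝ :=
  ⟨fun n => if n = 0 then 0 else (n.divisors.card : ℝ) ^ k, by simp⟩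

private theorem card_DVK (n : ℕ) : n.divisorsAntidiagonal.card = n.divisors.card := by
  rw [← Nat.map_div_right_divisors, card_map]

private theorem pow_le_DVK (k a b : ℕ) : ((a * b).divisors.card : ℝ) ^ k ≤
    (a.divisors.card : ℝ) ^ k * (b.divisors.card : ℝ) ^ k := by
  rw [← mul_pow]
  refine pow_le_pow_left₀ (Nat.cast_nonneg _) ?_ k
  exact_mod_cast Pool.Agent.Helper2.card_divisors_mul_le a b

private theorem E_DVK (k N : ℕ) : ∑ n ∈ Ioc 0 N, (n.divisors.card : ℝ) ^ k / n ≤
    (1 + Real.log N) ^ (2 ^ k) := by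
  induction k with
  | zero => simpa using Pool.Agent.Helper2.harmonic_sum_le N
  | succ k ih =>
    have h1 : ∀ n ∈ Ioc 0 N, (n.divisors.card : ℝ) ^ (k + 1) / n ≤ (g_DVK k * g_DVK k) n := by
      intro n hn
      have hn0 : 0 < n := (mem_Ioc.1 hn).1
      rw [ArithmeticFunction.mul_apply]
      calc (n.divisors.card : ℝ) ^ (k + 1) / n
          = ∑ x ∈ n.divisorsAntidiagonal, (n.divisors.card : ℝ) ^ k / n := by
            rw [Finset.sum_const, nsmul_eq_mul, card_DVK, pow_succ]; ring
        _ ≤ ∑ x ∈ n.divisorsAntidiagonal, g_DVK k x.1 * g_DVK k x.2 := by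
            refine Finset.sum_le_sum fun x hx => ?_
            obtain ⟨h1, h2⟩ := Nat.mem_divisorsAntidiagonal.1 hx
            simp only [g_DVK, ArithmeticFunction.coe_mk]
            rw [div_mul_div_comm, ← h1, Nat.cast_mul]
            exact div_le_div_of_nonneg_right (pow_le_DVK k x.1 x.2) (by positivity)
    calc ∑ n ∈ Ioc 0 N, (n.divisors.card : ℝ) ^ (k + 1) / n
        ≤ ∑ n ∈ Ioc 0 N, (g_DVK k * g_DVK k) n := Finset.sum_le_sum h1
      _ = ∑ x ∈ Ioc 0 N ×ˢ Ioc 0 N with x.1 * x.2 ≤ N, g_DVK k x.1 * g_DVK k x.2 :=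
          sum_Ioc_mul_eq_sum_prod_filter _ _ _
      _ ≤ ∑ x ∈ Ioc 0 N ×ˢ Ioc 0 N, g_DVK k x.1 * g_DVK k x.2 := by
          refine Finset.sum_le_sum_of_subset_of_nonneg (filter_subset _ _) ?_
          intro x _ _
          simp only [g_DVK, ArithmeticFunction.coe_mk]
          positivity
      _ = (∑ n ∈ Ioc 0 N, (n.divisors.card : ℝ) ^ k / n) ^ 2 := by
          rw [sq, Finset.sum_mul_sum, Finset.sum_product]
          rfl
      _ ≤ ((1 + Real.log N) ^ (2 ^ k)) ^ 2 :=
          pow_le_pow_left₀ (Finset.sum_nonneg fun _ _ => by positivity) ih 2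
      _ = (1 + Real.log N) ^ (2 ^ (k + 1)) := by rw [← pow_mul, pow_succ]

theorem hDVK : StDVK := by
  intro k
  induction k with
  | zero => intro N; simp
  | succ k ih =>
    intro N
    have hlog : 0 ≤ Real.log N := Real.log_natCast_nonneg N
    have h1 : ∀ n ∈ Ioc 0 N, (n.divisors.card : ℝ) ^ (k + 1) ≤ (t_DVK k * t_DVK k) n := by
      intro n hn
      rw [ArithmeticFunction.mul_apply]
      calc (n.divisors.card : ℝ) ^ (k + 1)
          = ∑ x ∈ n.divisorsAntidiagonal, (n.divisors.card : ℝ) ^ k := by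
            rw [Finset.sum_const, nsmul_eq_mul, card_DVK, pow_succ]; ring
        _ ≤ ∑ x ∈ n.divisorsAntidiagonal, t_DVK k x.1 * t_DVK k x.2 := by
            refine Finset.sum_le_sum fun x hx => ?_
            obtain ⟨h1, h2⟩ := Nat.mem_divisorsAntidiagonal.1 hx
            have hx1 : x.1 ≠ 0 := fun h => h2 (by rw [← h1, h, zero_mul])
            have hx2 : x.2 ≠ 0 := fun h => h2 (by rw [← h1, h, mul_zero])
            simp only [t_DVK, ArithmeticFunction.coe_mk, if_neg hx1, if_neg hx2]
            rw [← h1]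
            exact pow_le_DVK k x.1 x.2
    calc ∑ n ∈ Ioc 0 N, (n.divisors.card : ℝ) ^ (k + 1)
        ≤ ∑ n ∈ Ioc 0 N, (t_DVK k * t_DVK k) n := Finset.sum_le_sum h1
      _ = ∑ n ∈ Ioc 0 N, t_DVK k n * ∑ m ∈ Ioc 0 (N / n), t_DVK k m :=
          sum_Ioc_mul_eq_sum_sum _ _ _
      _ ≤ ∑ n ∈ Ioc 0 N, ((n.divisors.card : ℝ) ^ k / n) *
            (N * (1 + Real.log N) ^ (2 ^ k - 1)) := by
          refine Finset.sum_le_sum fun n hn => ?_
          have hn0 : 0 < n := (mem_Ioc.1 hn).1
          have hn1 : (0 : ℝ) < n := by exact_mod_cast hn0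
          have h2 : ∑ m ∈ Ioc 0 (N / n), t_DVK k m ≤
              (N / n : ℝ) * (1 + Real.log N) ^ (2 ^ k - 1) := by
            have h0 : ∑ m ∈ Ioc 0 (N / n), t_DVK k m =
                ∑ m ∈ Ioc 0 (N / n), (m.divisors.card : ℝ) ^ k := by
              refine Finset.sum_congr rfl fun m hm => ?_
              have hm0 : m ≠ 0 := by have := (mem_Ioc.1 hm).1; omega
              simp only [t_DVK, ArithmeticFunction.coe_mk, if_neg hm0]
            rw [h0]
            refine (ih (N / n)).trans ?_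
            have h3 : ((N / n : ℕ) : ℝ) ≤ (N : ℝ) / n := Nat.cast_div_le
            have h4 : Real.log ((N / n : ℕ) : ℝ) ≤ Real.log N := by
              rcases Nat.eq_zero_or_pos (N / n) with h0 | h0
              · rw [h0]; simpa using hlog
              · refine Real.log_le_log (by exact_mod_cast h0) ?_
                exact_mod_cast Nat.div_le_self N n
            have h5 : 0 ≤ Real.log ((N / n : ℕ) : ℝ) := Real.log_natCast_nonneg _
            exact mul_le_mul h3 (pow_le_pow_left₀ (by linarith) (by linarith) _)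
              (by positivity) (by positivity)
          have h6 : t_DVK k n = (n.divisors.card : ℝ) ^ k := by
            simp only [t_DVK, ArithmeticFunction.coe_mk, if_neg hn0.ne']
          rw [h6]
          calc (n.divisors.card : ℝ) ^ k * ∑ m ∈ Ioc 0 (N / n), t_DVK k m
              ≤ (n.divisors.card : ℝ) ^ k * ((N / n : ℝ) * (1 + Real.log N) ^ (2 ^ k - 1)) :=
                mul_le_mul_of_nonneg_left h2 (by positivity)
            _ = ((n.divisors.card : ℝ) ^ k / n) * (N * (1 + Real.log N) ^ (2 ^ k - 1)) := by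
                field_simp
      _ = (∑ n ∈ Ioc 0 N, (n.divisors.card : ℝ) ^ k / n) *
            (N * (1 + Real.log N) ^ (2 ^ k - 1)) := by rw [Finset.sum_mul]
      _ ≤ (1 + Real.log N) ^ (2 ^ k) * (N * (1 + Real.log N) ^ (2 ^ k - 1)) :=
          mul_le_mul_of_nonneg_right (E_DVK k N) (by positivity)
      _ = N * (1 + Real.log N) ^ (2 ^ (k + 1) - 1) := by
          have h7 : 2 ^ (k + 1) - 1 = 2 ^ k + (2 ^ k - 1) := by
            have : 1 ≤ 2 ^ k := Nat.one_le_two_pow
            omega
          rw [h7, pow_add]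
          ring

end Pool.Agent.Helper49.PC
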