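import Pool.Agent.Helper49.PC.StM2

/-!
# Project PC: module MJT (primes on the major arcs, combination)
-/

set_option autoImplicit false

namespace Pool.Agent.Helper49.PC

open Finset ArithmeticFunction Classical
open Pool.Agent.Helper48.BK (ex th lz Vz Pz gs nd Apx AdN Sol thd)
open scoped ComplexConjugate

theorem logpow_MJT (k : ℕ) : ∀ᶠ n : ℕ in Filter.atTop, Real.log (n : ℝ) ^ k ≤ (n : ℝ) := by
  have h1 := isLittleO_log_rpow_rpow_atTop (k : ℝ) (by norm_num : (0 : ℝ) < 1)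
  have h2 := (h1.comp_tendsto (tendsto_natCast_atTop_atTop (R := ℝ))).def (by norm_num : (0:ℝ) < 1)
  filter_upwards [h2, Filter.eventually_ge_atTop 1] with n hn h1n
  simp only [Function.comp_apply, Real.norm_eq_abs, one_mul, Real.rpow_one] at hn
  rw [Real.rpow_natCast, Nat.abs_cast] at hn
  exact (le_abs_self _).trans hn

theorem hMJT (h1 : StMJA) (h2 : StMJB) (h3 : StMJC) : StMJT := by
  intro A p
  obtain ⟨e₁, x₁, hA⟩ := h1 (A + 1) p
  obtain ⟨e₀, hB'⟩ := h2 (A + 1) p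
  set e : ℕ := max e₁ e₀ with he
  obtain ⟨x₂, hB⟩ := hB' e (le_max_right _ _)
  obtain ⟨C, hC'⟩ := h3 (A + 1) e
  refine ⟨C, fun B => ?_⟩
  obtain ⟨x₃, hC⟩ := hC' B
  have hlog : Filter.Tendsto (fun n : ℕ => Real.log (n : ℝ)) Filter.atTop Filter.atTop :=
    Real.tendsto_log_atTop.comp tendsto_natCast_atTop_atTop
  obtain ⟨x₄, hx₄⟩ := Filter.eventually_atTop.1
    ((logpow_MJT (e + 1)).and (hlog.eventually_ge_atTop 3))
  refine ⟨max (max x₁ x₂) (max x₃ x₄), ?_⟩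
  intro M D v _ w₀ w₁ h η hM hD hDM hv hDv hvp hη hw32 hw hwM
  have g1 : x₁ ≤ M := le_trans (le_trans (le_max_left _ _) (le_max_left _ _)) hM
  have g2 : x₂ ≤ M := le_trans (le_trans (le_max_right _ _) (le_max_left _ _)) hM
  have g3 : x₃ ≤ M := le_trans (le_trans (le_max_left _ _) (le_max_right _ _)) hM
  have g4 : x₄ ≤ M := le_trans (le_trans (le_max_right _ _) (le_max_right _ _)) hM
  obtain ⟨l1, l2'⟩ := hx₄ M g4
  set L : ℝ := Real.log M with hL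
  have hL0 : 0 < L := by linarith
  have hL1 : 1 ≤ L := by linarith
  set S : ℕ := ⌈L ^ e⌉₊ with hS
  have hS1 : L ^ e ≤ S := Nat.le_ceil _
  have hS2 : (S : ℝ) ≤ L ^ (e + 1) := by
    have h5 : (S : ℝ) < L ^ e + 1 := Nat.ceil_lt_add_one (by positivity)
    have h6 : (1 : ℝ) ≤ L ^ e := one_le_pow₀ hL1
    rw [pow_succ]
    nlinarith
  have hS3 : S ≤ M := by
    have : (S : ℝ) ≤ M := hS2.trans l1
    exact_mod_cast this
  have hS4 : 1 ≤ S := by
    have h6 : (1 : ℝ) ≤ L ^ e := one_le_pow₀ hL1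
    have : (1 : ℝ) ≤ S := h6.trans hS1
    exact_mod_cast this
  have hS5 : L ^ e₁ ≤ S := (pow_le_pow_right₀ hL1 (le_max_left _ _)).trans hS1
  have kA := hA M D v S w₀ w₁ h η g1 hD hDM hv hDv hη hw hwM hS5 hS3
  have kB := hB M D v S w₀ w₁ h η g2 hD hDM hv hDv hη hw hwM hS1 hS2
  obtain ⟨𝓧, cf, q1, q2, q3, kC⟩ := hC M D v S w₀ w₁ h η g3 hD hDM hv hDv hS4 hS2 hw32 hw hwM
  refine ⟨𝓧, cf, q1, q2, q3, ?_⟩
  have hsplit : ∀ j : ℕ, Sj (cut th w₀ w₁) (D * M) D ((h : ℝ) / v + η) j -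
      (c0 D w₀ w₁ η * Gs (1 : DirichletCharacter ℂ (D * v)) (h + j * v) +
        ∑ χ ∈ 𝓧, cf χ * Gs χ (h + j * v)) =
      (Sj (cut th w₀ w₁) (D * M) D ((h : ℝ) / v + η) j -
        ∑ s ∈ range S, ex (tt w₀ w₁ S s * (η / D)) *
          ∑ χ : DirichletCharacter ℂ (D * v), Psi χ (tt w₀ w₁ S s) (tt w₀ w₁ S (s + 1)) *
            Gs χ (h + j * v)) +
      ((∑ s ∈ range S, ex (tt w₀ w₁ S s * (η / D)) *
        (Psi (1 : DirichletCharacter ℂ (D * v)) (tt w₀ w₁ S s) (tt w₀ w₁ S (s + 1)) *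
          Gs (1 : DirichletCharacter ℂ (D * v)) (h + j * v)) -
        c0 D w₀ w₁ η * Gs (1 : DirichletCharacter ℂ (D * v)) (h + j * v)) +
      (∑ s ∈ range S, ex (tt w₀ w₁ S s * (η / D)) *
        ∑ χ ∈ (univ : Finset (DirichletCharacter ℂ (D * v))).filter (· ≠ 1),
          Psi χ (tt w₀ w₁ S s) (tt w₀ w₁ S (s + 1)) * Gs χ (h + j * v) -
        ∑ χ ∈ 𝓧, cf χ * Gs χ (h + j * v))) := by
    intro j
    have hs : ∀ s ∈ range S, ex (tt w₀ w₁ S s * (η / D)) *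
          ∑ χ : DirichletCharacter ℂ (D * v), Psi χ (tt w₀ w₁ S s) (tt w₀ w₁ S (s + 1)) *
            Gs χ (h + j * v) =
        ex (tt w₀ w₁ S s * (η / D)) *
        (Psi (1 : DirichletCharacter ℂ (D * v)) (tt w₀ w₁ S s) (tt w₀ w₁ S (s + 1)) *
          Gs (1 : DirichletCharacter ℂ (D * v)) (h + j * v)) +
        ex (tt w₀ w₁ S s * (η / D)) *
        ∑ χ ∈ (univ : Finset (DirichletCharacter ℂ (D * v))).filter (· ≠ 1),
          Psi χ (tt w₀ w₁ S s) (tt w₀ w₁ S (s + 1)) * Gs χ (h + j * v) := by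
      intro s _
      rw [← mul_add]
      congr 1
      rw [← Finset.add_sum_erase Finset.univ _ (Finset.mem_univ (1 : DirichletCharacter ℂ (D * v)))]
      congr 1
      refine Finset.sum_congr ?_ fun _ _ => rfl
      ext χ
      simp [Finset.mem_erase, Finset.mem_filter]
    rw [Finset.sum_congr rfl hs, Finset.sum_add_distrib]
    ring
  rw [l2_congr _ _ _ (fun j _ => hsplit j)]
  refine (l2_add_le _ _ _).trans ?_
  have k2 := l2_add_le (range D) (fun j : ℕ => ∑ s ∈ range S, ex (tt w₀ w₁ S s * (η / D)) *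
        (Psi (1 : DirichletCharacter ℂ (D * v)) (tt w₀ w₁ S s) (tt w₀ w₁ S (s + 1)) *
          Gs (1 : DirichletCharacter ℂ (D * v)) (h + j * v)) -
        c0 D w₀ w₁ η * Gs (1 : DirichletCharacter ℂ (D * v)) (h + j * v))
      (fun j : ℕ => ∑ s ∈ range S, ex (tt w₀ w₁ S s * (η / D)) *
        ∑ χ ∈ (univ : Finset (DirichletCharacter ℂ (D * v))).filter (· ≠ 1),
          Psi χ (tt w₀ w₁ S s) (tt w₀ w₁ S (s + 1)) * Gs χ (h + j * v) -
        ∑ χ ∈ 𝓧, cf χ * Gs χ (h + j * v))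
  have k3 : (D : ℝ) * M / L ^ (A + 1) + ((D : ℝ) * M / L ^ (A + 1) + (D : ℝ) * M / L ^ (A + 1)) ≤
      (D : ℝ) * M / L ^ A := by
    have : (D : ℝ) * M / L ^ (A + 1) + ((D : ℝ) * M / L ^ (A + 1) + (D : ℝ) * M / L ^ (A + 1)) =
        (D : ℝ) * M / L ^ A * (3 / L) := by
      rw [pow_succ]
      field_simp
      ring
    rw [this]
    have h7 : 3 / L ≤ 1 := by
      rw [div_le_one hL0]; exact l2'
    have h8 : 0 ≤ (D : ℝ) * M / L ^ A := by positivity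
    calc (D : ℝ) * M / L ^ A * (3 / L) ≤ (D : ℝ) * M / L ^ A * 1 := by gcongr
      _ = _ := mul_one _
  refine le_trans ?_ k3
  refine add_le_add ?_ (k2.trans (add_le_add ?_ ?_))
  · exact kA
  · exact kB
  · exact kC

end Pool.Agent.Helper49.PC
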