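import Pool.Agent.Helper49.PC.StF

/-!
# Project PC, module MNR: a sum over a set of `θ`
-/

set_option autoImplicit false

namespace Pool.Agent.Helper49.PC

open Finset

lemma l2_eq_MNR (f : ℕ → ℝ) (X D : ℕ) (θ : ℝ) :
    l2 (range D) (Sj f X D θ) = √(NN (fun n => (f n : ℂ)) X D θ) := rfl

lemma nn_nonneg_MNR (F : ℕ → ℂ) (X D : ℕ) (θ : ℝ) : 0 ≤ NN F X D θ :=
  Finset.sum_nonneg fun _ _ => sq_nonneg _

lemma pfl_MNR (h2 : StPFL) (g : ℕ → ℝ) (Y D N : ℕ) (hD : 1 ≤ D) (hN : 1 ≤ N) (hY : Y ≤ N * D)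
    (S : Finset ℕ) (hS : S ⊆ range N) :
    ∑ k ∈ S, √(NN (fun n => (g n : ℂ)) Y D ((k : ℝ) / N)) ^ 2 ≤
      N * (D : ℕ) * ∑ n ∈ Ioc 0 Y, g n ^ 2 := by
  have h3 := h2 (fun n => (g n : ℂ)) Y D N hD hN hY
  have h4 : ∑ n ∈ Ioc 0 Y, ‖((g n : ℝ) : ℂ)‖ ^ 2 = ∑ n ∈ Ioc 0 Y, g n ^ 2 :=
    Finset.sum_congr rfl fun n _ => by rw [Complex.norm_real, Real.norm_eq_abs, sq_abs]
  rw [h4] at h3
  rw [← h3]
  calc ∑ k ∈ S, √(NN (fun n => (g n : ℂ)) Y D ((k : ℝ) / N)) ^ 2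
      = ∑ k ∈ S, NN (fun n => (g n : ℂ)) Y D ((k : ℝ) / N) :=
        Finset.sum_congr rfl fun k _ => Real.sq_sqrt (nn_nonneg_MNR _ _ _ _)
    _ ≤ ∑ k ∈ range N, NN (fun n => (g n : ℂ)) Y D ((k : ℝ) / N) :=
        Finset.sum_le_sum_of_subset_of_nonneg hS fun _ _ _ => nn_nonneg_MNR _ _ _ _

theorem hMNR (h1 : StWB) (h2 : StPFL) (h3 : StSJP) : StMNR := by
  intro f g h X Y Z a b c N d S R ha hb hc hcop hN hY hZ hR hS hf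
  have hbc : 1 ≤ b * c := Nat.mul_pos hb hc
  have hac : 1 ≤ a * c := Nat.mul_pos ha hc
  have hab : 1 ≤ a * b := Nat.mul_pos ha hb
  have hG := pfl_MNR h2 g Y (a * c) N hac hN hY S hS
  have hH := pfl_MNR h2 h Z (a * b) N hab hN hZ S hS
  obtain ⟨G, hGd⟩ : ∃ G : ℕ → ℝ, G = fun k : ℕ =>
    √(NN (fun n => (g n : ℂ)) Y (a * c) ((k : ℝ) / N)) := ⟨_, rfl⟩
  obtain ⟨H, hHd⟩ : ∃ H : ℕ → ℝ, H = fun k : ℕ =>
    √(NN (fun n => (h n : ℂ)) Z (a * b) ((k : ℝ) / N)) := ⟨_, rfl⟩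
  have hG0 : ∀ k, 0 ≤ G k := fun k => by rw [hGd]; exact Real.sqrt_nonneg _
  have hH0 : ∀ k, 0 ≤ H k := fun k => by rw [hHd]; exact Real.sqrt_nonneg _
  have hterm : ∀ k ∈ S, ‖WW (Sj f X (b * c) ((k : ℝ) / N)) (Sj g Y (a * c) ((k : ℝ) / N))
      (Sj h Z (a * b) ((k : ℝ) / N)) a b c d ((k : ℝ) / N)‖ ≤ R * (G k * H k) := by
    intro k hk
    have h4 := h1 (Sj f X (b * c) ((k : ℝ) / N)) (Sj g Y (a * c) ((k : ℝ) / N))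
      (Sj h Z (a * b) ((k : ℝ) / N)) a b c d ((k : ℝ) / N) ha hb hc hcop
      (fun j => h3 f X (b * c) _ j hbc) (fun j => h3 g Y (a * c) _ j hac)
      (fun j => h3 h Z (a * b) _ j hab)
    refine h4.trans ?_
    rw [l2_eq_MNR, l2_eq_MNR, l2_eq_MNR, mul_assoc]
    have h5 : √(NN (fun n => (f n : ℂ)) X (b * c) ((k : ℝ) / N)) ≤ R :=
      (Real.sqrt_le_left hR).2 (hf k hk)
    rw [hGd, hHd]
    exact mul_le_mul_of_nonneg_right h5 (mul_nonneg (Real.sqrt_nonneg _) (Real.sqrt_nonneg _))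
  refine (norm_sum_le _ _).trans ((Finset.sum_le_sum hterm).trans ?_)
  rw [← Finset.mul_sum, mul_assoc]
  refine mul_le_mul_of_nonneg_left ?_ hR
  refine (Real.sum_mul_le_sqrt_mul_sqrt S G H).trans ?_
  rw [hGd, hHd]
  exact mul_le_mul (Real.sqrt_le_sqrt hG) (Real.sqrt_le_sqrt hH) (Real.sqrt_nonneg _)
    (Real.sqrt_nonneg _)

end Pool.Agent.Helper49.PC
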