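import Pool.Agent.Helper49.PC.StM

/-!
# Project PC: module NAT, choice of the height
-/

set_option autoImplicit false

namespace Pool.Agent.Helper49.PC

open Finset ArithmeticFunction
open Pool.Agent.Helper48.BK (ex th lz Vz Pz gs nd Apx AdN Sol thd)
open scoped ComplexConjugate

private theorem log3_NAT : (1.09 : ℝ) ≤ Real.log 3 := by
  rw [Real.le_log_iff_exp_le (by norm_num)]
  have h1 : Real.exp 1.09 = Real.exp 1 * Real.exp 0.09 := by
    rw [← Real.exp_add]; norm_num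
  have h2 := Real.exp_one_lt_d9
  have h3 : Real.exp 0.09 ≤ 1.0999 := by
    have h4 : (1 - 0.09 : ℝ) ≤ Real.exp (-0.09) := by
      have := Real.add_one_le_exp (-0.09 : ℝ)
      linarith
    have h5 : Real.exp 0.09 * Real.exp (-0.09) = 1 := by
      rw [← Real.exp_add]; norm_num
    have h6 := Real.exp_pos (0.09 : ℝ)
    nlinarith
  rw [h1]
  have h7 := Real.exp_pos (1 : ℝ)
  have h8 := Real.exp_pos (0.09 : ℝ)
  nlinarith

private theorem pow_le_exp_half_NAT (C : ℕ) (y : ℝ)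
    (hy : (2 : ℝ) ^ (C + 1) * (Nat.factorial (C + 1) : ℝ) ≤ y) : y ^ C ≤ Real.exp (y / 2) := by
  have hf : (0 : ℝ) < (2 : ℝ) ^ (C + 1) * (Nat.factorial (C + 1) : ℝ) := by positivity
  have hy0 : 0 < y := hf.trans_le hy
  have h := Real.pow_div_factorial_le_exp (y / 2) (by positivity) (C + 1)
  refine le_trans ?_ h
  rw [div_pow, div_div, le_div_iff₀ hf, pow_succ y C]
  exact mul_le_mul_of_nonneg_left hy (by positivity)

/-- the three products are at most `D = a b c / min` -/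
private theorem D_NAT (a b c : ℕ) (ha : 1 ≤ a) (hb : 1 ≤ b) (hc : 1 ≤ c) (D : ℝ)
    (hD : D = ((a * b * c : ℕ) : ℝ) / (min a (min b c) : ℕ)) :
    ((b * c : ℕ) : ℝ) ≤ D ∧ ((a * c : ℕ) : ℝ) ≤ D ∧ ((a * b : ℕ) : ℝ) ≤ D ∧
      ((max a (max b c) : ℕ) : ℝ) ≤ D ∧ 1 ≤ D ∧ ((a * b * c : ℕ) : ℝ) ≤ D ^ 2 ∧
      D ≤ ((max a (max b c) : ℕ) : ℝ) ^ 2 := by
  have haR : (1 : ℝ) ≤ a := by exact_mod_cast ha
  have hbR : (1 : ℝ) ≤ b := by exact_mod_cast hb
  have hcR : (1 : ℝ) ≤ c := by exact_mod_cast hc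
  have hμ1 : 1 ≤ min a (min b c) := le_min ha (le_min hb hc)
  have hμa : min a (min b c) ≤ a := min_le_left _ _
  have hμb : min a (min b c) ≤ b := (min_le_right _ _).trans (min_le_left _ _)
  have hμc : min a (min b c) ≤ c := (min_le_right _ _).trans (min_le_right _ _)
  have hea : min a (min b c) = a ∨ min a (min b c) = b ∨ min a (min b c) = c := by
    rcases le_total a (min b c) with h | h
    · exact Or.inl (min_eq_left h)
    · rcases le_total b c with h' | h'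
      · exact Or.inr (Or.inl (by rw [min_eq_right h, min_eq_left h']))
      · exact Or.inr (Or.inr (by rw [min_eq_right h, min_eq_right h']))
  have hma : a ≤ max a (max b c) := le_max_left _ _
  have hmb : b ≤ max a (max b c) := (le_max_left _ _).trans (le_max_right _ _)
  have hmc : c ≤ max a (max b c) := (le_max_right _ _).trans (le_max_right _ _)
  generalize min a (min b c) = μ at *
  have hμ0 : (0 : ℝ) < μ := by exact_mod_cast hμ1
  have hμaR : (μ : ℝ) ≤ a := by exact_mod_cast hμa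
  have hμbR : (μ : ℝ) ≤ b := by exact_mod_cast hμb
  have hμcR : (μ : ℝ) ≤ c := by exact_mod_cast hμc
  have hDμ : D * μ = (a : ℝ) * b * c := by rw [hD]; push_cast; field_simp
  clear hD
  have hbc : ((b * c : ℕ) : ℝ) ≤ D := by
    push_cast
    have h5 : (b : ℝ) * c * μ ≤ D * μ := by
      rw [hDμ]
      have h6 : (b : ℝ) * c * μ ≤ (b : ℝ) * c * a := mul_le_mul_of_nonneg_left hμaR (by positivity)
      linarith
    exact le_of_mul_le_mul_right h5 hμ0
  have hac : ((a * c : ℕ) : ℝ) ≤ D := by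
    push_cast
    have h5 : (a : ℝ) * c * μ ≤ D * μ := by
      rw [hDμ]
      have h6 : (a : ℝ) * c * μ ≤ (a : ℝ) * c * b := mul_le_mul_of_nonneg_left hμbR (by positivity)
      linarith
    exact le_of_mul_le_mul_right h5 hμ0
  have hab : ((a * b : ℕ) : ℝ) ≤ D := by
    push_cast
    have h5 : (a : ℝ) * b * μ ≤ D * μ := by
      rw [hDμ]
      have h6 : (a : ℝ) * b * μ ≤ (a : ℝ) * b * c := mul_le_mul_of_nonneg_left hμcR (by positivity)
      linarith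
    exact le_of_mul_le_mul_right h5 hμ0
  have haD : (a : ℝ) ≤ D := by
    refine le_trans ?_ hab; push_cast; exact le_mul_of_one_le_right (by linarith) hbR
  have hbD : (b : ℝ) ≤ D := by
    refine le_trans ?_ hab; push_cast; exact le_mul_of_one_le_left (by linarith) haR
  have hcD : (c : ℝ) ≤ D := by
    refine le_trans ?_ hac; push_cast; exact le_mul_of_one_le_left (by linarith) haR
  have hmD : ((max a (max b c) : ℕ) : ℝ) ≤ D := by
    push_cast
    exact max_le haD (max_le hbD hcD)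
  have hD1 : 1 ≤ D := haR.trans haD
  refine ⟨hbc, hac, hab, hmD, hD1, ?_, ?_⟩
  · push_cast
    rw [← hDμ, sq]
    exact mul_le_mul_of_nonneg_left (hμaR.trans haD) (by linarith)
  · have e1 : (a : ℝ) ≤ (max a (max b c) : ℕ) := by exact_mod_cast hma
    have e2 : (b : ℝ) ≤ (max a (max b c) : ℕ) := by exact_mod_cast hmb
    have e3 : (c : ℝ) ≤ (max a (max b c) : ℕ) := by exact_mod_cast hmc
    generalize ((max a (max b c) : ℕ) : ℝ) = m at *
    have hm0 : 0 ≤ m := by linarith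
    rcases hea with h | h | h
    · have h5 : (b : ℝ) * c ≤ m * m := mul_le_mul e2 e3 (by linarith) hm0
      have h6 : D = (b : ℝ) * c := by
        rw [h] at hDμ
        have : D * a = (b * c) * a := by rw [hDμ]; ring
        exact mul_right_cancel₀ (by linarith) this
      rw [h6, sq]; exact h5
    · have h5 : (a : ℝ) * c ≤ m * m := mul_le_mul e1 e3 (by linarith) hm0
      have h6 : D = (a : ℝ) * c := by
        rw [h] at hDμ
        have : D * b = (a * c) * b := by rw [hDμ]; ring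
        exact mul_right_cancel₀ (by linarith) this
      rw [h6, sq]; exact h5
    · have h5 : (a : ℝ) * b ≤ m * m := mul_le_mul e1 e2 (by linarith) hm0
      have h6 : D = (a : ℝ) * b := by
        rw [h] at hDμ
        exact mul_right_cancel₀ (by linarith) hDμ
      rw [h6, sq]; exact h5

/-- the condition on the logarithms -/
private theorem main_NAT (C : ℕ) (D m l y W Z : ℝ) (hD : 0 ≤ D) (hDm : D ≤ m ^ 2) (hm : 0 < m)
    (hl : l = Real.log m) (hl0 : 0 ≤ l) (hy : Real.exp y = W) (hy16 : 16 ≤ y)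
    (hyC : (2 : ℝ) ^ (C + 1) * (Nat.factorial (C + 1) : ℝ) ≤ y) (hZ : D * l ^ (2 * C) ≤ Z)
    (hZW : Z ≤ W) : D * y ^ C ≤ W := by
  rcases le_or_gt y (l ^ 2) with hc1 | hc1
  · have h5 : y ^ C ≤ l ^ (2 * C) := by
      rw [pow_mul]
      exact pow_le_pow_left₀ (by linarith) hc1 C
    have h6 : D * y ^ C ≤ D * l ^ (2 * C) := mul_le_mul_of_nonneg_left h5 hD
    linarith
  · have hs : Real.sqrt y * Real.sqrt y = y := Real.mul_self_sqrt (by linarith)
    have hs0 : 0 ≤ Real.sqrt y := Real.sqrt_nonneg y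
    have hls : l ≤ Real.sqrt y := Real.le_sqrt_of_sq_le hc1.le
    have hs4 : 4 ≤ Real.sqrt y := Real.le_sqrt_of_sq_le (by linarith)
    have h5 : m = Real.exp l := by rw [hl]; exact (Real.exp_log hm).symm
    have h6 : D ≤ Real.exp (y / 2) := by
      refine hDm.trans ?_
      rw [h5, ← Real.exp_nat_mul]
      apply Real.exp_le_exp.mpr
      push_cast
      nlinarith
    have h7 := pow_le_exp_half_NAT C y hyC
    have h8 : D * y ^ C ≤ Real.exp (y / 2) * Real.exp (y / 2) :=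
      mul_le_mul h6 h7 (by positivity) (Real.exp_pos _).le
    rw [← Real.exp_add, add_halves, hy] at h8
    exact h8

/-- a prime in a window -/
private theorem win_NAT (a p e Q Z : ℕ) (D : ℝ) (ha : 1 ≤ a) (he : e ≤ 16)
    (h : a * p ≤ e * (a * Q * Z)) (hQ : (Q : ℝ) ≤ D) : (p : ℝ) ≤ 16 * (D * Z) := by
  have h6 : a * p ≤ a * (e * (Q * Z)) := by
    calc a * p ≤ e * (a * Q * Z) := h
      _ = a * (e * (Q * Z)) := by ring
  have h5 : p ≤ e * (Q * Z) := Nat.le_of_mul_le_mul_left h6 (by omega)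
  have h7 : p ≤ 16 * (Q * Z) := h5.trans (Nat.mul_le_mul_right _ he)
  have h8 : (p : ℝ) ≤ 16 * ((Q : ℝ) * Z) := by exact_mod_cast h7
  have h9 : (Q : ℝ) * Z ≤ D * Z := mul_le_mul_of_nonneg_right hQ (Nat.cast_nonneg _)
  linarith

/-- the final estimate -/
private theorem fin_NAT (C : ℕ) (D l u Z E : ℝ) (hD : 1 ≤ D) (hl1 : 1 ≤ l) (hu : 0 ≤ u)
    (hl50 : (32 : ℝ) ≤ l ^ 50)
    (h : D * Z ≤ (1 / 6) * u + D ∨ D * Z ≤ D * (D * l ^ (2 * C) + 1)) (hE : E = 3 * u) :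
    16 * (D * Z) ≤ E + D ^ 2 * l ^ (2 * C + 50) := by
  have hlC : 1 ≤ l ^ (2 * C) := one_le_pow₀ hl1
  have hD2 : 0 < D ^ 2 := by positivity
  have hDD : D ≤ D ^ 2 := le_self_pow₀ hD (by norm_num)
  have hpow : l ^ (2 * C + 50) = l ^ (2 * C) * l ^ 50 := pow_add _ _ _
  have hlast : 32 * (D ^ 2 * l ^ (2 * C)) ≤ D ^ 2 * l ^ (2 * C + 50) := by
    rw [hpow]
    have h5 : 0 ≤ D ^ 2 * l ^ (2 * C) := by positivity
    calc 32 * (D ^ 2 * l ^ (2 * C)) = (D ^ 2 * l ^ (2 * C)) * 32 := by ring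
      _ ≤ (D ^ 2 * l ^ (2 * C)) * l ^ 50 := mul_le_mul_of_nonneg_left hl50 h5
      _ = D ^ 2 * (l ^ (2 * C) * l ^ 50) := by ring
  have hD2l : D ^ 2 ≤ D ^ 2 * l ^ (2 * C) := le_mul_of_one_le_right hD2.le hlC
  rcases h with h | h
  · rw [hE]; linarith
  · have h9 : D * (D * l ^ (2 * C) + 1) = D ^ 2 * l ^ (2 * C) + D := by ring
    rw [h9] at h
    rw [hE]; linarith

theorem hNAT (h1 : StPOS) : StNAT := by
  intro K
  obtain ⟨C, x₁, h1⟩ := h1 (2 * K)
  obtain ⟨y₀, hy₀⟩ : ∃ y₀ : ℝ, y₀ = max 16 ((2 : ℝ) ^ (C + 1) * (Nat.factorial (C + 1) : ℝ)) :=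
    ⟨_, rfl⟩
  obtain ⟨X₀, hX₀⟩ : ∃ X₀ : ℕ, X₀ = max x₁ ⌈Real.exp y₀⌉₊ := ⟨_, rfl⟩
  refine ⟨2 * C + 50, 6 * X₀ ^ 3 + 1, ?_⟩
  intro a b c d ha hb hc hP hE hx hg
  obtain ⟨D, hD⟩ : ∃ D : ℝ, D = ((a * b * c : ℕ) : ℝ) / (min a (min b c) : ℕ) := ⟨_, rfl⟩
  obtain ⟨hbcD, hacD, habD, hm'D, hD1, hPD, hDm'⟩ := D_NAT a b c ha hb hc D hD
  rw [← hD]
  have hμ1 : 1 ≤ min a (min b c) := le_min ha (le_min hb hc)
  have hm'1 : 1 ≤ max a (max b c) := ha.trans (le_max_left _ _)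
  have hmm' : max a (max b c) ≤ max 3 (max a (max b c)) := le_max_right _ _
  have hm3 : 3 ≤ max 3 (max a (max b c)) := le_max_left _ _
  generalize max a (max b c) = m' at *
  generalize min a (min b c) = μ at *
  have hμ0 : (0 : ℝ) < μ := by exact_mod_cast hμ1
  generalize max 3 m' = m at *
  have hm3R : (3 : ℝ) ≤ m := by exact_mod_cast hm3
  have hm0R : (0 : ℝ) < m := by linarith
  have hDm : D ≤ (m : ℝ) ^ 2 :=
    hDm'.trans (pow_le_pow_left₀ (Nat.cast_nonneg _) (by exact_mod_cast hmm') 2)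
  have hP0 : (0 : ℝ) < (a * b * c : ℕ) := by
    have : 0 < a * b * c := Nat.mul_pos (Nat.mul_pos ha hb) hc
    exact_mod_cast this
  -- the height
  obtain ⟨l, hl⟩ : ∃ l : ℝ, l = Real.log m := ⟨_, rfl⟩
  rw [← hl]
  have hl1 : 1.09 ≤ l := by rw [hl]; exact log3_NAT.trans (Real.log_le_log (by norm_num) hm3R)
  have hl1' : 1 ≤ l := by linarith
  have hl50 : (32 : ℝ) ≤ l ^ 50 := by
    have h5 : (1.09 : ℝ) ^ 50 ≤ l ^ 50 := pow_le_pow_left₀ (by norm_num) hl1 50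
    refine le_trans ?_ h5
    norm_num
  obtain ⟨Z₁, hZ₁⟩ : ∃ Z₁ : ℕ, Z₁ = ⌈|(d : ℝ)| / (6 * ((a * b * c : ℕ) : ℝ))⌉₊ := ⟨_, rfl⟩
  obtain ⟨Z₂, hZ₂⟩ : ∃ Z₂ : ℕ, Z₂ = ⌈D * l ^ (2 * C)⌉₊ := ⟨_, rfl⟩
  obtain ⟨Z, hZ⟩ : ∃ Z : ℕ, Z = max Z₁ Z₂ := ⟨_, rfl⟩
  have hZ1N : Z₁ ≤ Z := by rw [hZ]; exact le_max_left _ _
  have hZ2N : Z₂ ≤ Z := by rw [hZ]; exact le_max_right _ _
  have hZ1R : (Z₁ : ℝ) ≤ Z := by exact_mod_cast hZ1N
  have hZ2R : (Z₂ : ℝ) ≤ Z := by exact_mod_cast hZ2N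
  have hZ1 : |(d : ℝ)| / (6 * ((a * b * c : ℕ) : ℝ)) ≤ Z := by
    refine le_trans ?_ hZ1R
    rw [hZ₁]; exact Nat.le_ceil _
  have hZ2 : D * l ^ (2 * C) ≤ Z := by
    refine le_trans ?_ hZ2R
    rw [hZ₂]; exact Nat.le_ceil _
  have hlC : 1 ≤ l ^ (2 * C) := one_le_pow₀ hl1'
  have hDZ : D ≤ Z := le_trans (le_mul_of_one_le_right (by linarith) hlC) hZ2
  have hZ0 : (1 : ℝ) ≤ Z := hD1.trans hDZ
  have hdZ : |(d : ℝ)| ≤ 6 * (((a * b * c : ℕ) : ℝ) * Z) := by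
    rw [div_le_iff₀ (by positivity)] at hZ1
    linarith
  have hPZ : ((a * b * c : ℕ) : ℝ) ≤ (Z : ℝ) ^ 2 :=
    hPD.trans (pow_le_pow_left₀ (by linarith) hDZ 2)
  have hd6 : |(d : ℝ)| ≤ 6 * (Z : ℝ) ^ 3 := by
    have h5 : ((a * b * c : ℕ) : ℝ) * Z ≤ (Z : ℝ) ^ 2 * Z :=
      mul_le_mul_of_nonneg_right hPZ (by linarith)
    have h6 : (Z : ℝ) ^ 3 = (Z : ℝ) ^ 2 * Z := by ring
    rw [h6]; linarith
  have hZ3 : (0 : ℝ) ≤ (Z : ℝ) ^ 3 := by positivity
  have hm6 : (m' : ℝ) ≤ 6 * (Z : ℝ) ^ 3 := by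
    have h5 : (m' : ℝ) ≤ Z := hm'D.trans hDZ
    have h6 : (Z : ℝ) ≤ (Z : ℝ) ^ 3 := le_self_pow₀ hZ0 (by norm_num)
    linarith
  obtain ⟨x, hxdef⟩ : ∃ x : ℕ, x = max d.natAbs m' := ⟨_, rfl⟩
  rw [← hxdef] at hx hg
  have hx6 : (x : ℝ) ≤ 6 * (Z : ℝ) ^ 3 := by
    rw [hxdef]; push_cast
    refine max_le ?_ hm6
    rw [Nat.cast_natAbs, Int.cast_abs]
    exact hd6
  have hx6N : x ≤ 6 * Z ^ 3 := by exact_mod_cast hx6
  have hX : X₀ ≤ Z := by
    by_contra hcon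
    push Not at hcon
    have h5 : Z ^ 3 ≤ X₀ ^ 3 := Nat.pow_le_pow_left hcon.le 3
    omega
  have hZx1 : x₁ ≤ Z := by
    refine le_trans ?_ hX
    rw [hX₀]; exact le_max_left _ _
  have hZy : Real.exp y₀ ≤ Z := by
    have h5 : ⌈Real.exp y₀⌉₊ ≤ Z := by
      refine le_trans ?_ hX
      rw [hX₀]; exact le_max_right _ _
    exact (Nat.le_ceil _).trans (by exact_mod_cast h5)
  have h16Z : (0 : ℝ) < 16 * Z := by linarith
  obtain ⟨y, hy⟩ : ∃ y : ℝ, y = Real.log (16 * Z) := ⟨_, rfl⟩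
  have hyy : y₀ ≤ y := by
    rw [hy, Real.le_log_iff_exp_le h16Z]
    linarith
  have hy16 : 16 ≤ y := by
    refine le_trans ?_ hyy
    rw [hy₀]; exact le_max_left _ _
  have hyC : (2 : ℝ) ^ (C + 1) * (Nat.factorial (C + 1) : ℝ) ≤ y := by
    refine le_trans ?_ hyy
    rw [hy₀]; exact le_max_right _ _
  have hexpy : Real.exp y = 16 * Z := by rw [hy]; exact Real.exp_log h16Z
  have hmain : D * y ^ C ≤ 16 * Z :=
    main_NAT C D m l y (16 * Z) Z (by linarith) hDm hm0R hl (by linarith) hexpy hy16 hyC hZ2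
      (by linarith)
  have hyC0 : 0 ≤ y ^ C := pow_nonneg (by linarith) _
  have hgcd : (Int.gcd d (a * b * c : ℕ) : ℝ) ≤ y ^ (2 * K) := by
    refine hg.trans ?_
    have hx1 : 1 ≤ x := by
      rw [hxdef]
      exact hm'1.trans (le_max_right _ _)
    have hx1R : (1 : ℝ) ≤ x := by exact_mod_cast hx1
    have h5 : Real.log (x : ℝ) ≤ 3 * y := by
      have h6 : (x : ℝ) ≤ (16 * Z) ^ 3 := by
        refine hx6.trans ?_
        rw [mul_pow]
        have : (6 : ℝ) ≤ 16 ^ 3 := by norm_num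
        exact mul_le_mul_of_nonneg_right this hZ3
      have h7 := Real.log_le_log (by linarith) h6
      rw [Real.log_pow, ← hy] at h7
      push_cast at h7
      exact h7
    have h8 : 0 ≤ Real.log (x : ℝ) := Real.log_nonneg hx1R
    have h9 : Real.log (x : ℝ) ≤ y ^ 2 := by
      refine h5.trans ?_
      rw [sq]
      exact mul_le_mul_of_nonneg_right (by linarith) (by linarith)
    calc Real.log (x : ℝ) ^ K ≤ (y ^ 2) ^ K := pow_le_pow_left₀ h8 h9 K
      _ = y ^ (2 * K) := by rw [pow_mul]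
  have hdI : |d| ≤ 6 * ((a : ℤ) * b * c * Z) := by
    have h5 : ((|d| : ℤ) : ℝ) ≤ ((6 * ((a : ℤ) * b * c * Z) : ℤ) : ℝ) := by
      push_cast
      push_cast at hdZ
      exact hdZ
    exact_mod_cast h5
  rw [hy] at hyC0 hmain hgcd
  obtain ⟨p, q, r, hp, hq, hr, heq, hap, hbq, hcr⟩ := h1 a b c Z d hZx1 ha hb hc hP hE hdI
    ((mul_le_mul_of_nonneg_right hbcD hyC0).trans hmain)
    ((mul_le_mul_of_nonneg_right hacD hyC0).trans hmain)
    ((mul_le_mul_of_nonneg_right habD hyC0).trans hmain) hgcd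
  refine ⟨p, q, r, hp, hq, hr, heq, ?_⟩
  -- bound for the primes
  have hp' : (p : ℝ) ≤ 16 * (D * Z) :=
    win_NAT a p 5 (b * c) Z D ha (by norm_num) (by rw [← mul_assoc a b c]; exact hap) hbcD
  have hq' : (q : ℝ) ≤ 16 * (D * Z) :=
    win_NAT b q 5 (a * c) Z D hb (by norm_num)
      (by rw [show b * (a * c) = a * b * c by ring]; exact hbq) hacD
  have hr' : (r : ℝ) ≤ 16 * (D * Z) :=
    win_NAT c r 16 (a * b) Z D hc (by norm_num)
      (by rw [show c * (a * b) = a * b * c by ring]; exact hcr) habD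
  have hmax : ((max p (max q r) : ℕ) : ℝ) ≤ 16 * (D * Z) := by
    push_cast
    exact max_le hp' (max_le hq' hr')
  refine hmax.trans ?_
  refine fin_NAT C D l (|(d : ℝ)| / μ) Z _ hD1 hl1' (by positivity) hl50 ?_ (by ring)
  rcases le_total Z₂ Z₁ with hc1 | hc1
  · left
    have e : Z = Z₁ := by rw [hZ]; exact max_eq_left hc1
    have h5 : (Z : ℝ) ≤ |(d : ℝ)| / (6 * ((a * b * c : ℕ) : ℝ)) + 1 := by
      rw [e, hZ₁]
      exact (Nat.ceil_lt_add_one (by positivity)).le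
    have h6 : D * Z ≤ D * (|(d : ℝ)| / (6 * ((a * b * c : ℕ) : ℝ)) + 1) :=
      mul_le_mul_of_nonneg_left h5 (by linarith)
    have h7 : D * (|(d : ℝ)| / (6 * ((a * b * c : ℕ) : ℝ))) = (1 / 6) * (|(d : ℝ)| / μ) := by
      rw [hD]; field_simp
    rw [mul_add, h7, mul_one] at h6
    exact h6
  · right
    have e : Z = Z₂ := by rw [hZ]; exact max_eq_right hc1
    have h5 : (Z : ℝ) ≤ D * l ^ (2 * C) + 1 := by
      rw [e, hZ₂]
      exact (Nat.ceil_lt_add_one (by positivity)).le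
    exact mul_le_mul_of_nonneg_left h5 (by linarith)

end Pool.Agent.Helper49.PC
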