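import Pool.Agent.Helper49.PC.StM2

/-!
# Project PC: module POS, solutions at height `H = a b c Z`
-/

set_option autoImplicit false

namespace Pool.Agent.Helper49.PC

open Finset ArithmeticFunction
open Pool.Agent.Helper48.BK (ex th lz Vz Pz gs nd Apx AdN Sol thd)
open scoped ComplexConjugate

private theorem th_ne_POS {n : ℕ} (h : th n ≠ 0) : n.Prime := by
  unfold th at h
  by_contra hc
  rw [if_neg hc] at h
  exact h rfl

private theorem cut_ne_POS {f : ℕ → ℝ} {u v n : ℕ} (h : cut f u v n ≠ 0) :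
    u < n ∧ n ≤ v ∧ f n ≠ 0 := by
  unfold cut at h
  split_ifs at h with h1
  · exact ⟨h1.1, h1.2, h⟩
  · exact absurd rfl h

/-- a nonzero `T3` has a nonzero term -/
private theorem T3_ne_POS {f g h : ℕ → ℝ} {X Y Z a b c : ℕ} {d : ℤ}
    (hT : T3 f g h X Y Z a b c d ≠ 0) :
    ∃ n m l : ℕ, (a : ℤ) * n + b * m = c * l + d ∧ f n ≠ 0 ∧ g m ≠ 0 ∧ h l ≠ 0 := by
  unfold T3 at hT
  obtain ⟨n, -, hn⟩ := Finset.exists_ne_zero_of_sum_ne_zero hT
  obtain ⟨m, -, hm⟩ := Finset.exists_ne_zero_of_sum_ne_zero hn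
  obtain ⟨l, -, hl⟩ := Finset.exists_ne_zero_of_sum_ne_zero hm
  split_ifs at hl with h1
  · refine ⟨n, m, l, h1, ?_, ?_, ?_⟩
    · intro h0
      exact hl (by rw [h0]; ring)
    · intro h0
      exact hl (by rw [h0]; ring)
    · intro h0
      exact hl (by rw [h0]; ring)
  · exact absurd rfl hl

theorem hPOS (h1 : StCIR) (h2 : StPMA) (h3 : StPMI) (h4 : StMTT) : StPOS := by
  intro K
  obtain ⟨p₀, C₁, h3⟩ := h3
  obtain ⟨b₀, h2⟩ := h2 p₀ K
  obtain ⟨c₀, hc₀, B₀, h4⟩ := h4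
  set b' : ℕ := max b₀ p₀ + 1 with hb'
  set B : ℕ := b' + 1 with hB
  obtain ⟨x₂, h2⟩ := h2 B
  obtain ⟨x₃, h3⟩ := h3 B
  refine ⟨C₁ + (2 * p₀ + 2) + B * B₀ + 2, max (max x₂ x₃) (max 4 ⌈Real.exp (768 / c₀ + 1)⌉₊), ?_⟩
  intro a b c Z d hZ ha hb hc hP hE hd hbc hac hab hg
  have hZ2 : x₂ ≤ Z := le_trans (le_trans (le_max_left _ _) (le_max_left _ _)) hZ
  have hZ3 : x₃ ≤ Z := le_trans (le_trans (le_max_right _ _) (le_max_left _ _)) hZ
  have hZ4 : 4 ≤ Z := le_trans (le_trans (le_max_left _ _) (le_max_right _ _)) hZ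
  have hZ5 : ⌈Real.exp (768 / c₀ + 1)⌉₊ ≤ Z :=
    le_trans (le_trans (le_max_right _ _) (le_max_right _ _)) hZ
  have hZr : (4 : ℝ) ≤ Z := by exact_mod_cast hZ4
  set L : ℝ := Real.log (16 * Z) with hL
  have hL4 : 4 ≤ L := by
    rw [hL, Real.le_log_iff_exp_le (by positivity)]
    have h : Real.exp 4 ≤ 64 := by
      have h1 := Real.exp_one_lt_d9
      have h2 : Real.exp 4 = Real.exp 1 ^ 4 := by
        rw [← Real.exp_nat_mul]; norm_num
      rw [h2]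
      have h3 : Real.exp 1 ^ 4 ≤ (2.7182818286 : ℝ) ^ 4 :=
        pow_le_pow_left₀ (Real.exp_pos 1).le h1.le 4
      refine h3.trans ?_
      norm_num
    linarith
  have hLc : 768 / c₀ + 1 ≤ L := by
    rw [hL, Real.le_log_iff_exp_le (by positivity)]
    have h : Real.exp (768 / c₀ + 1) ≤ Z := (Nat.le_ceil _).trans (by exact_mod_cast hZ5)
    linarith
  have hL1 : 1 ≤ L := by linarith
  have hL0 : 0 < L := by linarith
  have hC : L ^ (C₁ + (2 * p₀ + 2) + B * B₀ + 2) = L ^ C₁ * L ^ (2 * p₀ + 2) * L ^ (B * B₀) * L ^ 2 := by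
    rw [pow_add, pow_add, pow_add]
  -- monotonicity in the exponent
  have hmono : ∀ {D : ℕ} (e : ℕ), e ≤ C₁ + (2 * p₀ + 2) + B * B₀ + 2 →
      ((D : ℕ) : ℝ) * L ^ (C₁ + (2 * p₀ + 2) + B * B₀ + 2) ≤ 16 * Z →
      ((D : ℕ) : ℝ) * L ^ e ≤ 16 * Z := by
    intro D e he h
    refine le_trans ?_ h
    exact mul_le_mul_of_nonneg_left (pow_le_pow_right₀ hL1 he) (Nat.cast_nonneg _)
  have hDle : ∀ {D : ℕ}, ((D : ℕ) : ℝ) * L ^ (C₁ + (2 * p₀ + 2) + B * B₀ + 2) ≤ 16 * Z →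
      D ≤ 16 * Z := by
    intro D h
    have := hmono 0 (Nat.zero_le _) h
    rw [pow_zero, mul_one] at this
    exact_mod_cast this
  -- the level of the model
  set z : ℕ := ⌈L ^ b'⌉₊ with hz
  have hz1 : L ^ b' ≤ z := Nat.le_ceil _
  have hzb : L ^ b₀ ≤ z := (pow_le_pow_right₀ hL1 (by rw [hb']; omega)).trans hz1
  have hzp : L ^ p₀ ≤ z := (pow_le_pow_right₀ hL1 (by rw [hb']; omega)).trans hz1
  have hLb : 1 ≤ L ^ b' := one_le_pow₀ hL1
  have hz2 : (z : ℝ) ≤ L ^ B := by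
    have h := (Nat.ceil_lt_add_one (show 0 ≤ L ^ b' by positivity)).le
    rw [← hz] at h
    refine h.trans ?_
    rw [hB, pow_succ L b']
    have h5 : L ^ b' * 4 ≤ L ^ b' * L := mul_le_mul_of_nonneg_left hL4 (by positivity)
    linarith
  have hz3 : 2 ≤ z := by
    have h : (4 : ℝ) ≤ z := by
      refine le_trans ?_ hz1
      rw [hb', pow_succ]
      have h6 : 1 ≤ L ^ max b₀ p₀ := one_le_pow₀ hL1
      calc (4 : ℝ) = 1 * 4 := by norm_num
        _ ≤ L ^ max b₀ p₀ * L := mul_le_mul h6 hL4 (by norm_num) (by positivity)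
    have h' : (4 : ℕ) ≤ z := by exact_mod_cast h
    omega
  -- admissibility
  obtain ⟨hP1, hP2, hP3⟩ := hP
  have hAd : AdN a b c d := by
    refine ⟨hE, ?_, ?_, ?_, ?_⟩
    · rw [Nat.Coprime.gcd_eq_one hP3, Nat.gcd_one_right]
    · rw [Nat.Coprime.gcd_eq_one hP1, Nat.gcd_one_right]
    · rw [Nat.Coprime.gcd_eq_one hP2, Nat.gcd_one_right]
    · rw [Nat.Coprime.gcd_eq_one hP3, Nat.gcd_one_right]
  -- size condition of MTT
  have hsize : (max a (max b c)) ^ 2 * z ^ B₀ ≤ a * b * c * Z := by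
    set m := max a (max b c) with hm
    have hzB : (z : ℝ) ^ B₀ ≤ L ^ (B * B₀) := by
      rw [pow_mul]
      exact pow_le_pow_left₀ (Nat.cast_nonneg _) hz2 _
    have key : ∀ D : ℕ, m ≤ D → ((D : ℕ) : ℝ) * L ^ (C₁ + (2 * p₀ + 2) + B * B₀ + 2) ≤ 16 * Z →
        (m : ℝ) * z ^ B₀ ≤ Z := by
      intro D hmD h
      have h5 := hmono (B * B₀ + 2) (by omega) h
      rw [pow_add] at h5
      have h6 : (m : ℝ) * z ^ B₀ ≤ D * L ^ (B * B₀) :=
        mul_le_mul (by exact_mod_cast hmD) hzB (by positivity) (Nat.cast_nonneg _)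
      have h7 : 0 ≤ (D : ℝ) * L ^ (B * B₀) := by positivity
      have h8 : 16 ≤ L ^ 2 := by nlinarith
      have h9 : (D : ℝ) * L ^ (B * B₀) * 16 ≤ 16 * Z :=
        (mul_le_mul_of_nonneg_left h8 h7).trans (by rw [mul_assoc]; exact h5)
      linarith
    have hkey : (m : ℝ) * z ^ B₀ ≤ Z := by
      rcases le_total a (max b c) with hab' | hab'
      · rw [max_eq_right hab'] at hm
        rcases le_total b c with hbc' | hbc'
        · rw [max_eq_right hbc'] at hm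
          exact key (b * c) (by rw [hm]; exact Nat.le_mul_of_pos_left _ hb) hbc
        · rw [max_eq_left hbc'] at hm
          exact key (b * c) (by rw [hm]; exact Nat.le_mul_of_pos_right _ hc) hbc
      · rw [max_eq_left hab'] at hm
        exact key (a * c) (by rw [hm]; exact Nat.le_mul_of_pos_right _ hc) hac
    have hkeyN : m * z ^ B₀ ≤ Z := by exact_mod_cast hkey
    have hmabc : m ≤ a * b * c := by
      have h1 : a ≤ a * b * c := by
        rw [mul_assoc]; exact Nat.le_mul_of_pos_right _ (Nat.mul_pos hb hc)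
      have h2 : b ≤ a * b * c := by
        rw [mul_comm a b, mul_assoc]; exact Nat.le_mul_of_pos_right _ (Nat.mul_pos ha hc)
      have h3 : c ≤ a * b * c := Nat.le_mul_of_pos_left _ (Nat.mul_pos ha hb)
      rw [hm]
      exact max_le h1 (max_le h2 h3)
    calc m ^ 2 * z ^ B₀ = m * (m * z ^ B₀) := by ring
      _ ≤ a * b * c * Z := Nat.mul_le_mul hmabc hkeyN
  have hmt := h4 a b c Z z d ha hb hc hAd hd hz3 hsize
  -- the circle identities
  set N : ℕ := (16 * Z) ^ 2 with hN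
  have hZpos : 1 ≤ Z := by omega
  have hNpos : 1 ≤ N := by rw [hN]; exact Nat.pow_pos (by omega)
  have hcir : ∀ f : ℕ → ℝ, ((T3 (cut f (4 * (b * c) * Z) (5 * (b * c) * Z))
      (cut f (4 * (a * c) * Z) (5 * (a * c) * Z)) (cut f (2 * (a * b) * Z) (16 * (a * b) * Z))
      (b * c * (16 * Z)) (a * c * (16 * Z)) (a * b * (16 * Z)) a b c d : ℝ) : ℂ) =
      1 / ((N : ℂ) * (a * b * c : ℕ)) * ∑ k ∈ range N, WP f a b c Z d ((k : ℝ) / N) := by
    intro f
    refine h1 _ _ _ _ _ _ a b c N d ha hb hc hNpos ?_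
    have habc : (1 : ℤ) ≤ a * b * c := by
      have : 1 ≤ a * b * c := Nat.mul_pos (Nat.mul_pos ha hb) hc
      exact_mod_cast this
    have hZz : (4 : ℤ) ≤ Z := by exact_mod_cast hZ4
    have e1 : ((a * (b * c * (16 * Z)) + b * (a * c * (16 * Z)) + c * (a * b * (16 * Z)) : ℕ) : ℤ) =
        48 * (a * b * c * Z) := by push_cast; ring
    have e2 : (a : ℤ) * b * c * (N : ℕ) = 256 * (a * b * c * Z) * Z := by
      rw [hN]; push_cast; ring
    rw [e1, e2]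
    have h5 : 0 < (a : ℤ) * b * c * Z := by positivity
    nlinarith
  -- the difference
  set Tt : ℝ := T3 (cut th (4 * (b * c) * Z) (5 * (b * c) * Z))
      (cut th (4 * (a * c) * Z) (5 * (a * c) * Z)) (cut th (2 * (a * b) * Z) (16 * (a * b) * Z))
      (b * c * (16 * Z)) (a * c * (16 * Z)) (a * b * (16 * Z)) a b c d with hTt
  set Tz : ℝ := T3 (cut (lz z) (4 * (b * c) * Z) (5 * (b * c) * Z))
      (cut (lz z) (4 * (a * c) * Z) (5 * (a * c) * Z))
      (cut (lz z) (2 * (a * b) * Z) (16 * (a * b) * Z))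
      (b * c * (16 * Z)) (a * c * (16 * Z)) (a * b * (16 * Z)) a b c d with hTz
  have hsplit : ∀ f : ℕ → ℝ, ∑ k ∈ range N, WP f a b c Z d ((k : ℝ) / N) =
      ∑ k ∈ Maj p₀ Z, WP f a b c Z d ((k : ℝ) / N) +
      ∑ k ∈ range N \ Maj p₀ Z, WP f a b c Z d ((k : ℝ) / N) := by
    intro f
    have hsub : Maj p₀ Z ⊆ range N := by
      intro k hk
      simp only [Maj, Finset.mem_filter] at hk
      exact hk.1
    rw [add_comm, Finset.sum_sdiff hsub]
  have hma := h2 a b c Z z d hZ2 ha hb hc ⟨hP1, hP2, hP3⟩ (hmono _ (by omega) hbc)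
    (hmono _ (by omega) hac) (hmono _ (by omega) hab) hg hzb hz2
  have hmi := h3 a b c Z z d hZ3 ha hb hc ⟨hP1, hP2, hP3⟩ (hmono _ (by omega) hbc) (hDle hac)
    (hDle hab) hzp hz2
  have hmit := hmi th (Or.inl rfl)
  have hmiz := hmi (lz z) (Or.inr rfl)
  rw [Finset.sum_sub_distrib] at hma
  have hdiff : ((Tt - Tz : ℝ) : ℂ) =
      1 / ((N : ℂ) * (a * b * c : ℕ)) * (∑ k ∈ Maj p₀ Z, WP th a b c Z d ((k : ℝ) / N) -
        ∑ k ∈ Maj p₀ Z, WP (lz z) a b c Z d ((k : ℝ) / N)) +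
      (1 / ((N : ℂ) * (a * b * c : ℕ)) *
        ∑ k ∈ range N \ Maj p₀ Z, WP th a b c Z d ((k : ℝ) / N) -
      1 / ((N : ℂ) * (a * b * c : ℕ)) *
        ∑ k ∈ range N \ Maj p₀ Z, WP (lz z) a b c Z d ((k : ℝ) / N)) := by
    rw [Complex.ofReal_sub, hTt, hTz, hcir th, hcir (lz z), hsplit th, hsplit (lz z)]
    generalize 1 / ((N : ℂ) * (a * b * c : ℕ)) = κ
    generalize ∑ k ∈ Maj p₀ Z, WP th a b c Z d ((k : ℝ) / N) = s₁
    generalize ∑ k ∈ Maj p₀ Z, WP (lz z) a b c Z d ((k : ℝ) / N) = s₂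
    generalize ∑ k ∈ range N \ Maj p₀ Z, WP th a b c Z d ((k : ℝ) / N) = s₃
    generalize ∑ k ∈ range N \ Maj p₀ Z, WP (lz z) a b c Z d ((k : ℝ) / N) = s₄
    ring
  have habcR : (0 : ℝ) < (a * b * c : ℕ) := by
    have : 0 < a * b * c := Nat.mul_pos (Nat.mul_pos ha hb) hc
    exact_mod_cast this
  have hbound : |Tt - Tz| ≤ 3 * (((a * b * c : ℕ) : ℝ) * (16 * Z) ^ 2 / L) := by
    have hnorm : |Tt - Tz| = ‖((Tt - Tz : ℝ) : ℂ)‖ := by
      rw [Complex.norm_real, Real.norm_eq_abs]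
    rw [hnorm, hdiff]
    refine (norm_add_le _ _).trans ?_
    have hs := norm_sub_le (1 / ((N : ℂ) * (a * b * c : ℕ)) *
        ∑ k ∈ range N \ Maj p₀ Z, WP th a b c Z d ((k : ℝ) / N))
      (1 / ((N : ℂ) * (a * b * c : ℕ)) *
        ∑ k ∈ range N \ Maj p₀ Z, WP (lz z) a b c Z d ((k : ℝ) / N))
    linarith
  have hsmall : 3 * (((a * b * c : ℕ) : ℝ) * (16 * Z) ^ 2 / L) < c₀ * (a * b * c * Z ^ 2) := by
    have e1 : 3 * (((a * b * c : ℕ) : ℝ) * (16 * Z) ^ 2 / L) =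
        (768 / L) * (((a * b * c : ℕ) : ℝ) * Z ^ 2) := by
      field_simp
      ring
    have e2 : c₀ * ((a : ℝ) * b * c * Z ^ 2) = c₀ * (((a * b * c : ℕ) : ℝ) * Z ^ 2) := by
      push_cast; ring
    rw [e1, e2]
    have h5 : 768 / L < c₀ := by
      rw [div_lt_iff₀ hL0]
      have h6 : 768 / c₀ < L := by linarith
      rw [div_lt_iff₀ hc₀] at h6
      linarith
    have h7 : 0 < ((a * b * c : ℕ) : ℝ) * (Z : ℝ) ^ 2 := by positivity
    exact mul_lt_mul_of_pos_right h5 h7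
  have hpos : 0 < Tt := by
    have h5 := abs_le.mp hbound
    have h6 := h5.1
    linarith
  obtain ⟨n, m, l, heq, hn, hm, hl⟩ := T3_ne_POS (ne_of_gt hpos)
  obtain ⟨-, hn2, hn3⟩ := cut_ne_POS hn
  obtain ⟨-, hm2, hm3⟩ := cut_ne_POS hm
  obtain ⟨-, hl2, hl3⟩ := cut_ne_POS hl
  refine ⟨n, m, l, th_ne_POS hn3, th_ne_POS hm3, th_ne_POS hl3, heq, ?_, ?_, ?_⟩
  · calc a * n ≤ a * (5 * (b * c) * Z) := Nat.mul_le_mul_left _ hn2
      _ = 5 * (a * b * c * Z) := by ring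
  · calc b * m ≤ b * (5 * (a * c) * Z) := Nat.mul_le_mul_left _ hm2
      _ = 5 * (a * b * c * Z) := by ring
  · calc c * l ≤ c * (16 * (a * b) * Z) := Nat.mul_le_mul_left _ hl2
      _ = 16 * (a * b * c * Z) := by ring

end Pool.Agent.Helper49.PC
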