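import Pool.Agent.Helper49.PC.StF

/-!
# Project PC, module SJP: periodicity
-/

set_option autoImplicit false

namespace Pool.Agent.Helper49.PC

open Finset

theorem hSJP : StSJP := by
  intro f X D θ j hD
  have hD0 : (D : ℝ) ≠ 0 := by
    have : (1 : ℝ) ≤ D := by exact_mod_cast hD
    linarith
  unfold Sj Sc
  refine Finset.sum_congr rfl fun n _ => ?_
  have h : (n : ℝ) * ((θ + ((j + D : ℕ) : ℝ)) / D) = n * ((θ + j) / D) + ((n : ℤ) : ℝ) := by
    push_cast
    field_simp
    ring
  rw [h, ex_add, ex_int, mul_one]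

end Pool.Agent.Helper49.PC
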