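import Pool.Agent.Helper49.PC.StN

/-!
# Project PC, module TU1: type one sums in the unit classes
-/

set_option autoImplicit false

namespace Pool.Agent.Helper49.PC

open Finset ArithmeticFunction
open Pool.Agent.Helper48.BK (ex th lz Vz Pz gs nd Apx AdN Sol thd)
open scoped ComplexConjugate

private theorem gs_two_TU1 (N t : ℝ) (hN : 0 ≤ N) : gs (2 * N) t ≤ 2 * gs N t := by
  have hnd : 0 ≤ nd t := abs_nonneg _
  unfold Pool.Agent.Helper48.BK.gs
  by_cases h1 : N * nd t ≤ 1
  · rw [if_pos h1]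
    by_cases h2 : 2 * N * nd t ≤ 1
    · rw [if_pos h2]
    · rw [if_neg h2]
      push Not at h2
      have hpos : 0 < nd t := by
        rcases hnd.lt_or_eq with h | h
        · exact h
        · rw [← h, mul_zero] at h2
          linarith
      rw [div_le_iff₀ hpos]
      exact h2.le
  · have h2 : ¬ 2 * N * nd t ≤ 1 := by
      push Not at h1 ⊢
      have h3 : 0 ≤ N * nd t := mul_nonneg hN hnd
      linarith
    rw [if_neg h1, if_neg h2]
    have h3 : 0 ≤ 1 / nd t := by positivity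
    linarith

private theorem abel_aux_TU1 (w : ℕ → ℝ) (z : ℕ → ℂ) (G : ℝ) (n : ℕ)
    (hm : ∀ s < n, w s ≤ w (s + 1)) (hz : ∀ j ≤ n, ‖∑ s ∈ range j, z s‖ ≤ G) :
    ‖∑ s ∈ range n, (w s : ℂ) * z s - (w n : ℂ) * ∑ s ∈ range n, z s‖ ≤ (w n - w 0) * G := by
  induction n with
  | zero => simp
  | succ n ih =>
      have h1 := ih (fun s hs => hm s (Nat.lt_succ_of_lt hs)) (fun j hj => hz j (Nat.le_succ_of_le hj))
      have h2 : ∑ s ∈ range (n + 1), (w s : ℂ) * z s - (w (n + 1) : ℂ) * ∑ s ∈ range (n + 1), z s =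
          (∑ s ∈ range n, (w s : ℂ) * z s - (w n : ℂ) * ∑ s ∈ range n, z s) +
            ((w n - w (n + 1) : ℝ) : ℂ) * ∑ s ∈ range (n + 1), z s := by
        rw [Finset.sum_range_succ, Finset.sum_range_succ]
        push_cast
        ring
      rw [h2]
      refine (norm_add_le _ _).trans ?_
      rw [norm_mul, Complex.norm_real, Real.norm_eq_abs]
      have h3 : |w n - w (n + 1)| = w (n + 1) - w n := by
        rw [abs_sub_comm, abs_of_nonneg (sub_nonneg.2 (hm n (Nat.lt_succ_self n)))]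
      rw [h3]
      have h4 := mul_le_mul_of_nonneg_left (hz (n + 1) le_rfl)
        (sub_nonneg.2 (hm n (Nat.lt_succ_self n)))
      linarith

private theorem abel_TU1 (w : ℕ → ℝ) (z : ℕ → ℂ) (G W : ℝ) (S : ℕ) (hG : 0 ≤ G) (hW0 : 0 ≤ W)
    (h0 : ∀ s, 0 ≤ w s) (hm : ∀ s, w s ≤ w (s + 1)) (hW : ∀ s < S, w s ≤ W)
    (hz : ∀ j ≤ S, ‖∑ s ∈ range j, z s‖ ≤ G) :
    ‖∑ s ∈ range S, (w s : ℂ) * z s‖ ≤ 2 * W * G := by
  rcases S with _ | n
  · rw [Finset.range_zero, Finset.sum_empty, norm_zero]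
    positivity
  · have h1 := abel_aux_TU1 w z G n (fun s _ => hm s) (fun j hj => hz j (Nat.le_succ_of_le hj))
    have h2 : ∑ s ∈ range (n + 1), (w s : ℂ) * z s =
        (∑ s ∈ range n, (w s : ℂ) * z s - (w n : ℂ) * ∑ s ∈ range n, z s) +
          (w n : ℂ) * ∑ s ∈ range (n + 1), z s := by
      rw [Finset.sum_range_succ, Finset.sum_range_succ]
      ring
    rw [h2]
    refine (norm_add_le _ _).trans ?_
    rw [norm_mul, Complex.norm_real, Real.norm_eq_abs, abs_of_nonneg (h0 n)]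
    have h3 := mul_le_mul_of_nonneg_left (hz (n + 1) le_rfl) (h0 n)
    have h4 : w n * G ≤ W * G := mul_le_mul_of_nonneg_right (hW n (Nat.lt_succ_self n)) hG
    have h5 : 0 ≤ w 0 * G := mul_nonneg (h0 0) hG
    nlinarith

private theorem filt_TU1 (N D r : ℕ) (hD : 1 ≤ D) (hr1 : 1 ≤ r) (hr2 : r ≤ D) :
    (Ioc 0 N).filter (fun m => m ≡ r [MOD D]) =
      (range ((N + D - r) / D)).image (fun s => r + D * s) := by
  ext m
  rw [mem_filter, mem_Ioc, mem_image]
  constructor
  · rintro ⟨⟨h1, h2⟩, h3⟩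
    have hrm : r ≤ m := by
      by_contra hlt
      push Not at hlt
      have h4 : D ∣ r - m := (Nat.modEq_iff_dvd' hlt.le).1 h3
      have h5 := Nat.le_of_dvd (by omega) h4
      omega
    obtain ⟨s, hs⟩ := (Nat.modEq_iff_dvd' hrm).1 h3.symm
    refine ⟨s, ?_, by omega⟩
    rw [mem_range, Nat.lt_div_iff_mul_lt (by omega)]
    have h6 : s * D = m - r := by rw [hs, mul_comm]
    omega
  · rintro ⟨s, hs, rfl⟩
    rw [mem_range] at hs
    have h1 : (s + 1) * D ≤ N + D - r := by
      have := Nat.mul_le_mul_right D (Nat.succ_le_of_lt hs)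
      exact this.trans (Nat.div_mul_le_self _ _)
    have h2 : (s + 1) * D = D * s + D := by ring
    refine ⟨⟨by omega, by omega⟩, ?_⟩
    unfold Nat.ModEq
    rw [Nat.add_mul_mod_self_left]

private theorem geo_TU1 (h1 : Pool.Agent.Helper48.BK.StGeo1) (j : ℕ) (t : ℝ) :
    ‖∑ s ∈ range j, ex (s * t)‖ ≤ gs j t := by
  have h2 := h1.1 0 j t
  have h3 : ∑ n ∈ Ioc 0 (0 + j), ex (n * t) = ex t * ∑ s ∈ range j, ex (s * t) := by
    rw [Nat.zero_add, Finset.mul_sum]
    have e : Ioc 0 j = (range j).image (fun s => s + 1) := by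
      ext n
      rw [mem_Ioc, mem_image]
      constructor
      · rintro ⟨a, b⟩
        exact ⟨n - 1, by rw [mem_range]; omega, by omega⟩
      · rintro ⟨s, hs, rfl⟩
        rw [mem_range] at hs
        omega
    rw [e, Finset.sum_image (fun a _ b _ hab => Nat.succ_injective hab)]
    refine Finset.sum_congr rfl fun s _ => ?_
    rw [← ex_add]
    congr 1
    push_cast
    ring
  rw [h3, norm_mul, norm_ex, one_mul] at h2
  exact h2

private theorem inner_TU1 (h1 : Pool.Agent.Helper48.BK.StGeo1) (M D y k l : ℕ) (θ c T : ℝ)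
    (f : ℕ → ℝ) (hM : 1 ≤ M) (hD : 1 ≤ D) (hk : 1 ≤ k) (hkM : k ≤ M) (hy : y ≤ D * M) (hT : 0 ≤ T)
    (hc : |c| ≤ T) (hf0 : ∀ n, 0 ≤ f n) (hf : ∀ m n, 1 ≤ m → m ≤ n → f m ≤ f n)
    (hl : Nat.Coprime l D) :
    ‖∑ m ∈ Ioc 0 (y / k),
      if k * m ≡ l [MOD D] then ((c * f m : ℝ) : ℂ) * ex (k * m * (θ / D)) else 0‖ ≤
      T * (4 * f (D * M) * gs ((M : ℝ) / k) (k * θ)) := by
  have hk0 : (0 : ℝ) < k := by exact_mod_cast hk
  have hD0 : (0 : ℝ) < D := by exact_mod_cast hD
  have hg0 : 0 ≤ gs ((M : ℝ) / k) (k * θ) := h1.2.2.1 _ _ (by positivity)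
  have hF0 : 0 ≤ f (D * M) := hf0 _
  rw [← Finset.sum_filter]
  rcases ((Ioc 0 (y / k)).filter (fun m => k * m ≡ l [MOD D])).eq_empty_or_nonempty with
    he | ⟨m₁, hm₁⟩
  · rw [he, Finset.sum_empty, norm_zero]
    positivity
  · rw [mem_filter, mem_Ioc] at hm₁
    obtain ⟨⟨hm1, hm2⟩, hm3⟩ := hm₁
    have hcop : Nat.Coprime k D := by
      have e1 : Nat.gcd (k * m₁) D = 1 := by
        have := hm3.gcd_eq
        rw [this]
        exact hl
      exact Nat.Coprime.coprime_dvd_left (dvd_mul_right k m₁) e1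
    set r : ℕ := (m₁ - 1) % D + 1 with hr
    have hr1 : 1 ≤ r := by omega
    have hr2 : r ≤ D := Nat.mod_lt _ (by omega)
    have hrm : r ≡ m₁ [MOD D] := by
      have e1 : (m₁ - 1) % D ≡ m₁ - 1 [MOD D] := Nat.mod_modEq _ _
      have e2 := e1.add_right 1
      have e3 : m₁ - 1 + 1 = m₁ := by omega
      rwa [e3] at e2
    have hset : (Ioc 0 (y / k)).filter (fun m => k * m ≡ l [MOD D]) =
        (Ioc 0 (y / k)).filter (fun m => m ≡ r [MOD D]) := by
      apply Finset.filter_congr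
      intro m _
      constructor
      · intro h
        have e1 : k * m ≡ k * m₁ [MOD D] := h.trans hm3.symm
        have e2 : m ≡ m₁ [MOD D] := Nat.ModEq.cancel_left_of_coprime hcop.symm e1
        exact e2.trans hrm.symm
      · intro h
        exact ((h.trans hrm).mul_left k).trans hm3
    rw [hset, filt_TU1 (y / k) D r hD hr1 hr2, Finset.sum_image (by
      intro a _ b _ hab
      have e1 : D * a = D * b := by
        simpa using hab
      exact Nat.eq_of_mul_eq_mul_left (by omega) e1)]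
    set S : ℕ := (y / k + D - r) / D with hS
    have e1 : ∑ s ∈ range S, ((c * f (r + D * s) : ℝ) : ℂ) *
        ex (k * ((r + D * s : ℕ) : ℝ) * (θ / D)) =
        (c : ℂ) * ex (k * r * (θ / D)) *
          ∑ s ∈ range S, ((f (r + D * s) : ℝ) : ℂ) * ex (s * (k * θ)) := by
      rw [Finset.mul_sum]
      refine Finset.sum_congr rfl fun s _ => ?_
      have e2 : ex (k * ((r + D * s : ℕ) : ℝ) * (θ / D)) =
          ex (k * r * (θ / D)) * ex (s * (k * θ)) := by
        rw [← ex_add]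
        congr 1
        push_cast
        field_simp
      rw [e2]
      push_cast
      ring
    rw [e1, norm_mul, norm_mul, norm_ex, mul_one, Complex.norm_real, Real.norm_eq_abs]
    have hSle : (S : ℝ) ≤ (M : ℝ) / k + 1 := by
      have s1 : S ≤ y / k / D + 1 := by
        rw [hS]
        calc (y / k + D - r) / D ≤ (y / k + D) / D := Nat.div_le_div_right (by omega)
          _ = y / k / D + 1 := Nat.add_div_right _ (by omega)
      have s2 : ((y / k / D : ℕ) : ℝ) ≤ (M : ℝ) / k := by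
        have s3 : ((y / k / D : ℕ) : ℝ) ≤ ((y / k : ℕ) : ℝ) / D := Nat.cast_div_le
        have s4 : ((y / k : ℕ) : ℝ) ≤ (y : ℝ) / k := Nat.cast_div_le
        have s5 : (y : ℝ) ≤ D * M := by exact_mod_cast hy
        refine s3.trans ?_
        rw [div_le_iff₀ hD0]
        refine s4.trans ?_
        rw [div_le_iff₀ hk0]
        refine s5.trans (le_of_eq ?_)
        field_simp
      have s6 : (S : ℝ) ≤ ((y / k / D : ℕ) : ℝ) + 1 := by exact_mod_cast s1
      linarith
    have hMk : (1 : ℝ) ≤ (M : ℝ) / k := by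
      rw [le_div_iff₀ hk0, one_mul]
      exact_mod_cast hkM
    have hgeo : ∀ j ≤ S, ‖∑ s ∈ range j, ex (s * (k * θ))‖ ≤ 2 * gs ((M : ℝ) / k) (k * θ) := by
      intro j hj
      have g1 := geo_TU1 h1 j (k * θ)
      have g2 : gs (j : ℝ) (k * θ) ≤ gs (2 * ((M : ℝ) / k)) (k * θ) := by
        refine h1.2.1 _ _ _ (Nat.cast_nonneg j) ?_
        have : (j : ℝ) ≤ S := by exact_mod_cast hj
        linarith
      exact g1.trans (g2.trans (gs_two_TU1 _ _ (by positivity)))
    have hab := abel_TU1 (fun s => f (r + D * s)) (fun s => ex (s * (k * θ)))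
      (2 * gs ((M : ℝ) / k) (k * θ)) (f (D * M)) S (by positivity) hF0 (fun s => hf0 _)
      (fun s => hf _ _ (by omega) (by
        have : D * s ≤ D * (s + 1) := Nat.mul_le_mul_left D (Nat.le_succ s)
        omega))
      (by
        intro s hs
        refine hf _ _ (by omega) ?_
        have t1 : r + D * s ∈ (range S).image (fun s => r + D * s) :=
          mem_image_of_mem _ (mem_range.2 hs)
        rw [hS, ← filt_TU1 (y / k) D r hD hr1 hr2, mem_filter, mem_Ioc] at t1
        exact t1.1.2.trans ((Nat.div_le_self _ _).trans hy))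
      hgeo
    calc |c| * ‖∑ s ∈ range S, ((f (r + D * s) : ℝ) : ℂ) * ex (s * (k * θ))‖
        ≤ T * (2 * f (D * M) * (2 * gs ((M : ℝ) / k) (k * θ))) :=
          mul_le_mul hc hab (norm_nonneg _) hT
      _ = T * (4 * f (D * M) * gs ((M : ℝ) / k) (k * θ)) := by ring

/-- TU1: type one sums in the unit classes -/
theorem hTU1 (h1 : Pool.Agent.Helper48.BK.StGeo1) (h2 : Pool.Agent.Helper48.BK.StTI) :
    StTU1 := by
  obtain ⟨C, hC, hTI⟩ := h2
  refine ⟨4 * C, by positivity, ?_⟩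
  intro M D v J y h θ c f T hM hD hJ hJM hv hy hA hT hc hf0 hf
  have hF0 : 0 ≤ f (D * M) := hf0 _
  set B : ℝ := T * (4 * f (D * M)) * (C * ((M : ℝ) / v + J + v) * Real.log M ^ 2) with hB
  have hB0 : 0 ≤ B := by positivity
  have key : ∀ l ∈ Un D, ‖∑ k ∈ Ioc 0 J, ∑ m ∈ Ioc 0 (y / k),
      if k * m ≡ l [MOD D] then ((c k * f m : ℝ) : ℂ) * ex (k * m * (θ / D)) else 0‖ ≤ B := by
    intro l hl
    rw [Un, mem_filter] at hl
    refine (norm_sum_le _ _).trans ?_
    calc _ ≤ ∑ k ∈ Ioc 0 J, T * (4 * f (D * M) * gs ((M : ℝ) / k) (k * θ)) := by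
          refine Finset.sum_le_sum fun k hk => ?_
          rw [mem_Ioc] at hk
          exact inner_TU1 h1 M D y k l θ (c k) T f (by omega) hD hk.1 (hk.2.trans hJM) hy hT
            (hc k hk.2) hf0 hf hl.2
      _ = T * (4 * f (D * M)) * ∑ k ∈ Icc 1 J, gs ((M : ℝ) / k) (k * θ) := by
          rw [Finset.mul_sum]
          refine Finset.sum_congr rfl fun k _ => ?_
          ring
      _ ≤ B := by
          rw [hB]
          exact mul_le_mul_of_nonneg_left (hTI M J v h θ hM hv hA hJ hJM) (by positivity)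
  have hcard : ((Un D).card : ℝ) ≤ D := by
    have : (Un D).card ≤ D := by
      calc (Un D).card ≤ (range D).card := Finset.card_filter_le _ _
        _ = D := card_range D
    exact_mod_cast this
  calc (D : ℝ) * ∑ l ∈ Un D, ‖∑ k ∈ Ioc 0 J, ∑ m ∈ Ioc 0 (y / k),
      if k * m ≡ l [MOD D] then ((c k * f m : ℝ) : ℂ) * ex (k * m * (θ / D)) else 0‖ ^ 2
      ≤ (D : ℝ) * ∑ l ∈ Un D, B ^ 2 := by
        apply mul_le_mul_of_nonneg_left _ (Nat.cast_nonneg D)
        refine Finset.sum_le_sum fun l hl => ?_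
        exact pow_le_pow_left₀ (norm_nonneg _) (key l hl) 2
    _ = (D : ℝ) * ((Un D).card * B ^ 2) := by
        rw [Finset.sum_const, nsmul_eq_mul]
    _ ≤ (D : ℝ) * (D * B ^ 2) := by
        apply mul_le_mul_of_nonneg_left _ (Nat.cast_nonneg D)
        exact mul_le_mul_of_nonneg_right hcard (by positivity)
    _ = (4 * C * T * f (D * M) * D * ((M : ℝ) / v + J + v) * Real.log M ^ 2) ^ 2 := by
        rw [hB]
        ring

end Pool.Agent.Helper49.PC
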