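import Pool.Agent.Helper49.PC.StF

/-!
# Project PC: module WB
-/

set_option autoImplicit false

namespace Pool.Agent.Helper49.PC

open Finset ArithmeticFunction
open Pool.Agent.Helper48.BK (ex th lz Vz Pz gs nd Apx AdN Sol thd)
open scoped ComplexConjugate

theorem hWB (h1 : StLW) : StWB := by
  intro u v w a b c d θ ha hb hc hco hu hv hw
  unfold WW l2
  have h := h1 (fun j => ‖u j‖) (fun j => ‖v j‖) (fun j => ‖w j‖) a b c ha hb hc hco
    (fun j => norm_nonneg _) (fun j => norm_nonneg _) (fun j => norm_nonneg _)
    (fun j => by simp only [hu]) (fun j => by simp only [hv]) (fun j => by simp only [hw])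
  refine (norm_sum_le _ _).trans (le_trans (le_of_eq ?_) h)
  refine Finset.sum_congr rfl fun j _ => ?_
  rw [norm_mul, norm_mul, norm_mul, RCLike.norm_conj, norm_ex, mul_one]

end Pool.Agent.Helper49.PC
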