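import Pool.Agent.Helper49.PC.StG

/-!
# Project PC: statements, mean squares of `∑ Λ(n) χ(n)` over characters of one modulus (part C)
-/

set_option autoImplicit false

namespace Pool.Agent.Helper49.PC

open Finset ArithmeticFunction
open Pool.Agent.Helper48.BK (ex th lz Vz Pz gs nd Apx AdN Sol thd)
open scoped ComplexConjugate

/-- `∑_{w₀ < n ≤ w₁} Λ(n) χ(n)` -/
noncomputable def Psi {q : ℕ} (χ : DirichletCharacter ℂ q) (w₀ w₁ : ℕ) : ℂ :=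
  ∑ n ∈ Ioc w₀ w₁, ((Λ n : ℝ) : ℂ) * χ (n : ZMod q)

/-- bilinear sum over `w₀ < k l ≤ w₁` -/
noncomputable def Bil {q : ℕ} (χ : DirichletCharacter ℂ q) (α β : ℕ → ℝ) (X w₀ w₁ : ℕ) : ℂ :=
  ∑ k ∈ Ioc 0 X, ∑ l ∈ Ioc 0 X, if w₀ < k * l ∧ k * l ≤ w₁ then
    ((α k * β l : ℝ) : ℂ) * (χ (k : ZMod q) * χ (l : ZMod q)) else 0

/-- coefficients bounded by `T τ(n)` and supported on `n > U` -/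
def Cf (T : ℝ) (U : ℕ) (α : ℕ → ℝ) : Prop :=
  (∀ n, |α n| ≤ T * (n.divisors.card : ℝ)) ∧ ∀ n, n ≤ U → α n = 0

/-- DVK: moments of the divisor function.  PROOF: put `E k = ∑_{n ≤ N} τ(n)^k / n`.  As
`τ(a b) ≤ τ(a) τ(b)` (`Pool.Agent.Helper2.card_divisors_mul_le`),
`E (k+1) = ∑_n τ(n)^k / n ∑_{a b = n} 1 ≤ ∑_{a, b ≤ N} τ(a)^k τ(b)^k / (a b) = (E k)²`, so
`E k ≤ (1 + log N)^(2^k)` (`E 0 ≤ 1 + log N`, `Pool.Agent.Helper2.harmonic_sum_le`).  Then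
`∑_{n ≤ N} τ(n)^(k+1) = ∑_{d ≤ N} ∑_{m ≤ N / d} τ(d m)^k ≤ ∑_d τ(d)^k ∑_{m ≤ N / d} τ(m)^k ≤
∑_d τ(d)^k (N / d) (1 + log N)^(2^k - 1) ≤ N (1 + log N)^(2^k + 2^k - 1)`. -/
def StDVK : Prop := ∀ k N : ℕ,
  ∑ n ∈ Ioc 0 N, (n.divisors.card : ℝ) ^ k ≤ N * (1 + Real.log N) ^ (2 ^ k - 1)

/-- PS2: trivial mean square of `Psi`.  PROOF: MSQ with `∑ Λ(n)² ≤ (log X)² X`, `q ≤ X`. -/
def StPS2 : Prop := ∀ (q : ℕ) [NeZero q] (X w₀ w₁ : ℕ), 1 ≤ X → q ≤ X → w₁ ≤ X →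
  ∑ χ : DirichletCharacter ℂ q, ‖Psi χ w₀ w₁‖ ^ 2 ≤ 2 * X ^ 2 * Real.log X ^ 2

/-- SMT: sums of a monotone function.  PROOF: let `c x = ∑_{u < n ≤ w, n ≡ x mod q} f n`.  For
two classes `x, y` the elements interlace, and as `f` is nonnegative and increasing
`|c x - c y| ≤ f w`.  Let `c̄` be the mean of `c x` over the units; for `χ ≠ 1`,
`∑_n f n χ(n) = ∑_{x unit} (c x - c̄) χ(x)`; by OC (for the function `x ↦ c x - c̄` on `[0, q)`)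
the sum over all `χ` of `|.|²` is `φ(q) ∑_x |c x - c̄|² ≤ φ(q)² (f w)²`. -/
def StSMT : Prop := ∀ (q : ℕ) [NeZero q] (f : ℕ → ℝ) (u w : ℕ), (∀ n, 0 ≤ f n) →
  (∀ m n, 1 ≤ m → m ≤ n → f m ≤ f n) →
  ∑ χ ∈ (univ : Finset (DirichletCharacter ℂ q)).filter (· ≠ 1),
    ‖∑ n ∈ Ioc u w, ((f n : ℝ) : ℂ) * χ (n : ZMod q)‖ ^ 2 ≤ (q * f w) ^ 2

/-- FOU: fourth moment.  PROOF: `(∑_{n ≤ N} b n χ(n))² = ∑_{m ≤ N²} B m χ(m)` with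
`B m = ∑_{k l = m, k, l ≤ N} b k b l`, `|B m| ≤ T² ∑_{k l = m} τ(k) τ(l) ≤ T² τ(m)³`.  Apply MSQ
with `u = 0` and length `N²`, and DVK with `k = 6` (`log (N²) = 2 log N`). -/
def StFOU : Prop := ∀ (q : ℕ) [NeZero q] (b : ℕ → ℂ) (T : ℝ) (N : ℕ), 0 ≤ T →
  (∀ n, ‖b n‖ ≤ T * (n.divisors.card : ℝ)) →
  ∑ χ : DirichletCharacter ℂ q, ‖∑ n ∈ Ioc 0 N, b n * χ (n : ZMod q)‖ ^ 4 ≤
    T ^ 4 * ((N : ℝ) ^ 2 + q) * N ^ 2 * (1 + 2 * Real.log N) ^ 63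

/-- HOL: Hölder.  PROOF: Cauchy-Schwarz `∑ S A B ≤ (∑ A²)^{1/2} (∑ S² B²)^{1/2}` and
`∑ S² B² ≤ (∑ S⁴)^{1/2} (∑ B⁴)^{1/2}`, `S⁴ ≤ V² S²`. -/
def StHOL : Prop := ∀ (ι : Type) (s : Finset ι) (S A B : ι → ℝ) (V : ℝ), 0 ≤ V →
  (∀ i ∈ s, 0 ≤ S i ∧ S i ≤ V) → (∀ i ∈ s, 0 ≤ A i) → (∀ i ∈ s, 0 ≤ B i) →
  ∑ i ∈ s, S i * A i * B i ≤
    √(∑ i ∈ s, A i ^ 2) * √(√(V ^ 2 * ∑ i ∈ s, S i ^ 2)) * √(√(∑ i ∈ s, B i ^ 4))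

/-- PCE: one piece of the bilinear sum.  PROOF: let `A(χ)`, `B(χ)` be the two sums.  In the first
sum `k ≤ 2 K`, in the second `l ≤ X / K`.  Both vanish unless `2 K > U` and `X / K > U`.

Case `K ≥ √X`: then `q ≤ √X ≤ K`, by MSQ (the `k` form the interval `(⌊K⌋, ⌊K'⌋]`, intersected
with `(0, X]`) `∑ |A|² ≤ (2 K + q) T² ∑_{k ≤ 2 K} τ(k)² ≤ 3 K T² 2 K (1 + log X + 1)^3`, and by
FOU with `N = ⌊X / K⌋` (`q ≤ U² ≤ N²`, as `N ≥ U` if the sum is not empty) `∑ |B|⁴ ≤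
2 T⁴ (X / K)⁴ (1 + 2 log X)^63`.  HOL gives `≤ C T² X (1 + log X)^(3/2 + 63/4) √√(V² Y)`.

Case `K < √X`: the same with the roles exchanged: `∑ |B|² ≤ (X / K + q) T² ∑_{l ≤ X / K} τ(l)²`
with `q ≤ √X ≤ X / K`, and `∑ |A|⁴ ≤ T⁴ (4 K² + q) 4 K² (1 + 2 log (2 K))^63` with
`q ≤ U² ≤ 4 K²`. -/
def StPCE : Prop := ∃ C : ℝ, 0 < C ∧ ∀ (q : ℕ) [NeZero q] (X U : ℕ) (α β : ℕ → ℝ)
  (T K K' y₀ V Y : ℝ) (𝓖 : Finset (DirichletCharacter ℂ q)) (S : DirichletCharacter ℂ q → ℝ),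
  3 ≤ X → q ^ 2 ≤ X → q ≤ U ^ 2 → 0 ≤ T → Cf T U α → Cf T U β → 1 ≤ K → K ≤ K' → K' ≤ 2 * K →
  0 ≤ V → (∀ χ ∈ 𝓖, 0 ≤ S χ ∧ S χ ≤ V) → ∑ χ ∈ 𝓖, S χ ^ 2 ≤ Y →
  ∑ χ ∈ 𝓖, S χ *
    (‖∑ k ∈ (Ioc 0 X).filter (fun k : ℕ => K < (k : ℝ) ∧ (k : ℝ) ≤ K'),
      ((α k : ℝ) : ℂ) * χ (k : ZMod q)‖ *
    ‖∑ l ∈ (Ioc 0 X).filter (fun l : ℕ => y₀ < (l : ℝ) ∧ (l : ℝ) * K' ≤ X),
      ((β l : ℝ) : ℂ) * χ (l : ZMod q)‖) ≤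
    C * T ^ 2 * X * (1 + Real.log X) ^ 18 * √(√(V ^ 2 * Y))

/-- LEF: the terms near the ends of the interval.  PROOF: the support consists of two intervals
of length `≤ δ X`, so (OC, Cauchy-Schwarz in each class, a class has at most
`2 (δ X / q + 1)` elements there) the left side is at most
`φ(q) 2 (δ X / q + 1) ∑ |ρ n|² ≤ 2 (δ X + q) T⁴ ∑_{n ≤ X} τ(n)⁶`, and DVK. -/
def StLEF : Prop := ∀ (q : ℕ) [NeZero q] (X w₀ w₁ : ℕ) (ρ : ℕ → ℂ) (T δ : ℝ), 0 ≤ T → 0 < δ →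
  w₀ ≤ X → w₁ ≤ X → (∀ n, ‖ρ n‖ ≤ T ^ 2 * (n.divisors.card : ℝ) ^ 3) →
  (∀ n, ρ n ≠ 0 → ((w₀ : ℝ) < n ∧ (n : ℝ) ≤ (1 + δ) * w₀) ∨
    ((w₁ : ℝ) < (1 + δ) * n ∧ n ≤ w₁)) →
  ∑ χ : DirichletCharacter ℂ q, ‖∑ n ∈ Ioc 0 X, ρ n * χ (n : ZMod q)‖ ^ 2 ≤
    2 * (δ * X + q + q) * T ^ 4 * X * (1 + Real.log X) ^ 63

/-- BDC: decomposition of the bilinear sum.  PROOF: let `K_i = (1 + δ)^i`, `i < J`, with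
`(1 + δ)^J > X`, `J ≤ 2 (log X) / δ + 1`.  Every `k ∈ [2, X]` is in exactly one `(K_i, K_{i+1}]`
(`k = 1` does not matter if `U ≥ 1`).  For `k ∈ (K_i, K_{i+1}]` and
`w₀ / K_i < l ≤ w₁ / K_{i+1}` one has `w₀ < k l ≤ w₁`, so
`Bil χ = ∑_i A_i(χ) B_i(χ) + R(χ)` with `A_i = ∑_{K_i < k ≤ K_{i+1}} α k χ(k)`,
`B_i = ∑_{w₀ / K_i < l ≤ w₁ / K_{i+1}} β l χ(l)` and `R(χ) = ∑_n ρ n χ(n)`, where `ρ n` is the sum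
of `α k β l` over the pairs `k l = n`, `w₀ < n ≤ w₁` with `l ≤ w₀ / K_i` (then
`n ≤ (1 + δ) w₀`) or `l > w₁ / K_{i+1}` (then `(1 + δ) n > w₁`); `|ρ n| ≤ T² ∑_{k l = n} τ(k) τ(l)
≤ T² τ(n)³`.  (If `w₀ / K_i ≥ w₁ / K_{i+1}` put `B_i = 0`; the same bounds hold for all pairs.)
Use PCE for each `i` with `y₀ = w₀ / K_i` (in PCE the upper limit is `l K' ≤ X`; replace `β` by
`β` restricted to `l K' ≤ w₁`, which is again `Cf T U`), and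
`∑ S |R| ≤ (∑ S²)^{1/2} (∑ |R|²)^{1/2}` with LEF. -/
def StBDC : Prop := ∃ C : ℝ, 0 < C ∧ ∀ (q : ℕ) [NeZero q] (X U w₀ w₁ : ℕ) (α β : ℕ → ℝ)
  (T δ V Y : ℝ) (𝓖 : Finset (DirichletCharacter ℂ q)) (S : DirichletCharacter ℂ q → ℝ),
  3 ≤ X → q ^ 2 ≤ X → q ≤ U ^ 2 → 1 ≤ U → 0 ≤ T → Cf T U α → Cf T U β → 0 < δ → δ ≤ 1 →
  w₀ ≤ w₁ → w₁ ≤ X → 0 ≤ V → (∀ χ ∈ 𝓖, 0 ≤ S χ ∧ S χ ≤ V) → ∑ χ ∈ 𝓖, S χ ^ 2 ≤ Y →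
  ∑ χ ∈ 𝓖, S χ * ‖Bil χ α β X w₀ w₁‖ ≤
    C / δ * T ^ 2 * X * (1 + Real.log X) ^ 19 * √(√(V ^ 2 * Y)) +
    √Y * √(2 * (δ * X + q + q) * T ^ 4 * X * (1 + Real.log X) ^ 63)

/-- VAC: Vaughan's identity for `Psi`.  Here `U ≤ w₀`, `64 U₀ ≤ U`, `U³ ≤ X ≤ 32 w₀`.
PROOF: `Pool.Agent.Helper2.vaughan U`, `Pool.Agent.Helper2.sum_conv` with
`G n = χ(n)` on `(w₀, w₁]` and `0` elsewhere (see the proof of `hVau` in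
`Pool.Agent.Helper48.BK.M_Vau`).  The term `lo Λ U` vanishes on `(w₀, w₁]`.  The second term is
`∑_{k ≤ U} μ(k) χ(k) ∑_{w₀ < k l ≤ w₁} log l χ(l)`; the third is
`∑_{k ≤ U²} c_k χ(k) ∑_{w₀ < k l ≤ w₁} χ(l)`, `c = lo Λ U * lo μ U`, `|c_k| ≤ log k ≤ 2 log X`
(`abs_lo_mul_lo_le`), where for `k > U` (so `k ≤ U²`) we have `l > w₀ / U² ≥ U / 32 ≥ U₀`: it is
`Bil` with `α = c` on `(U, U²]` and `β = 1` on `(U₀, X]`; the fourth is `Bil` with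
`α = hi Λ U`, `β = hi μ U * zet` (`hi_mob_zet_eq_zero`, `abs_hi_mob_zet_le`).  So
`|Psi χ| ≤ |E χ| + |Bil χ α β| + |Bil χ α' β'|` with `E` the two sums over `k ≤ U`, and by the
triangle inequality in `l²` over `χ ≠ 1` and SMT (functions `log` and `1`, endpoints
`w₀ / k`, `w₁ / k`), `(∑_{χ ≠ 1} |E χ|²)^{1/2} ≤ ∑_{k ≤ U} (q log X + 2 log X q) ≤
3 U q log X`. -/
def StVAC : Prop := ∀ (q : ℕ) [NeZero q] (X U U₀ w₀ w₁ : ℕ), 3 ≤ X → 1 ≤ U₀ → 64 * U₀ ≤ U →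
  U ^ 3 ≤ X → X ≤ 32 * w₀ → w₀ ≤ w₁ → w₁ ≤ X →
  ∃ (α β α' β' : ℕ → ℝ) (E : DirichletCharacter ℂ q → ℂ),
    Cf (2 * Real.log X) U₀ α ∧ Cf (2 * Real.log X) U₀ β ∧ Cf (2 * Real.log X) U₀ α' ∧
    Cf (2 * Real.log X) U₀ β' ∧
    ∑ χ ∈ (univ : Finset (DirichletCharacter ℂ q)).filter (· ≠ 1), ‖E χ‖ ^ 2 ≤
      (3 * U * q * Real.log X) ^ 2 ∧
    ∀ χ : DirichletCharacter ℂ q, ‖Psi χ w₀ w₁‖ ≤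
      ‖E χ‖ + ‖Bil χ α β X w₀ w₁‖ + ‖Bil χ α' β' X w₀ w₁‖

/-- LMG: the good characters.  PROOF: take `U = ⌊X^{1/3}⌋` (`U³ ≤ X < (U+1)³`),
`U₀ = U / 64`; for large `X`, `q ≤ √X ≤ U₀²`.  Put `S χ = ‖Psi χ w₀ w₁‖`,
`V = X / (log X)^{A'}`, `Y = 2 X² (log X)²` (PS2).  By VAC
`∑_𝓖 S² ≤ ∑_𝓖 S |E| + ∑_𝓖 S |Bil| + ∑_𝓖 S |Bil'|`; the first sum is at most
`√Y · 3 U q log X ≤ X^{11/6 + o(1)}`, the others are bounded by BDC with `T = 2 log X`,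
`δ = (log X)^{-a}`, `a = 2 A + 80`, `A' = 2 (A + a + 30)`:
`√√(V² Y) ≤ 2 X (log X)^{(1 - A')/2}`. -/
def StLMG : Prop := ∀ A : ℕ, ∃ A' x₀ : ℕ, ∀ (q : ℕ) [NeZero q] (X w₀ w₁ : ℕ)
  (𝓖 : Finset (DirichletCharacter ℂ q)), x₀ ≤ X → q ^ 2 ≤ X → X ≤ 32 * w₀ → w₀ ≤ w₁ → w₁ ≤ X →
  (∀ χ ∈ 𝓖, χ ≠ 1 ∧ ‖Psi χ w₀ w₁‖ ≤ X / Real.log X ^ A') →
  ∑ χ ∈ 𝓖, ‖Psi χ w₀ w₁‖ ^ 2 ≤ (X : ℝ) ^ 2 / Real.log X ^ A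

/-- SWC: characters from a small level.  PROOF: let `χ = changeLevel χ'`, `χ'` modulo `d`,
`d ≤ (log X)^B`, `χ' ≠ 1`.  For `y ≤ X / (log X)^{A+2}` the trivial bound `∑_{n ≤ y} Λ ≤ y log X`
suffices.  Otherwise `log y ≥ (log X) / 2`, the Siegel-Walfisz theorem
`Pool.Agent.Helper48.BK.StPsiI` (proved: `tPsiI`) for `χ'` with `B + 1` gives
`≤ C y / (log y)^{A+1}`, and `χ(n) = χ'(n)` unless `gcd(n, q) > 1`; the `n` with `Λ(n) ≠ 0` and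
`gcd(n, q) > 1` are powers of primes `p ∣ q` and contribute at most
`∑_{p ∣ q} log y ≤ (log₂ q) log X`.  Then `Psi χ w₀ w₁` is the difference of two such sums. -/
def StSWC : Prop := ∀ A B : ℕ, ∃ x₀ : ℕ, ∀ (q : ℕ) [NeZero q] (χ : DirichletCharacter ℂ q)
  (X w₀ w₁ d : ℕ), x₀ ≤ X → q ≤ X → w₀ ≤ w₁ → w₁ ≤ X → χ ≠ 1 → χ.FactorsThrough d →
  (d : ℝ) ≤ Real.log X ^ B → ‖Psi χ w₀ w₁‖ ≤ X / Real.log X ^ A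

/-- PNU: the principal character.  PROOF: `tPNT` (`Pool.Agent.Helper48.BK.StPNT`) for large
endpoints, trivial bounds for endpoints `≤ X / (log X)^{A+2}`, and the prime powers `p^k`,
`p ∣ q`, contribute at most `(log₂ q) log X`. -/
def StPNU : Prop := ∀ A : ℕ, ∃ x₀ : ℕ, ∀ (q : ℕ) [NeZero q] (X w₀ w₁ : ℕ), x₀ ≤ X → q ≤ X →
  w₀ ≤ w₁ → w₁ ≤ X →
  ‖Psi (1 : DirichletCharacter ℂ q) w₀ w₁ - ((w₁ : ℂ) - w₀)‖ ≤ X / Real.log X ^ A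

end Pool.Agent.Helper49.PC
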