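import Pool.Agent.Helper49.PC.L2

/-!
# Project PC: statements, characters and Gauss sums (part G)
-/

set_option autoImplicit false

namespace Pool.Agent.Helper49.PC

open Finset ArithmeticFunction
open Pool.Agent.Helper48.BK (ex th lz Vz Pz gs nd Apx AdN Sol thd)
open scoped ComplexConjugate

/-- PHI: `q / φ(q) ≤ 1 + log₂ q`.  PROOF: `q / φ(q) = ∏_{p ∣ q} p / (p - 1)`; if
`p_1 < ... < p_k` are the prime divisors then `p_i ≥ i + 1`, so the product is at most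
`∏_{i ≤ k} (i + 1) / i = k + 1`, and `2 ^ k ≤ q`. -/
def StPHI : Prop := ∀ q : ℕ, 1 ≤ q → (q : ℝ) ≤ Nat.totient q * (1 + Nat.log 2 q)

/-- OC: orthogonality of characters.  PROOF: open the square on the left; by
`∑_χ χ(n) conj χ(n') = φ(q)` if `n ≡ n'` are units and `0` otherwise
(`DirichletCharacter.sum_char_inv_mul_char_eq`), both sides are
`φ(q) ∑_{n ≡ n' units} F n conj (F n')`. -/
def StOC : Prop := ∀ (q : ℕ) [NeZero q] (s : Finset ℕ) (F : ℕ → ℂ),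
  ∑ χ : DirichletCharacter ℂ q, ‖∑ n ∈ s, F n * χ (n : ZMod q)‖ ^ 2 =
    Nat.totient q * ∑ x ∈ (range q).filter (fun x => Nat.Coprime x q),
      ‖∑ n ∈ s.filter (fun n => n ≡ x [MOD q]), F n‖ ^ 2

/-- MSQ: mean square.  PROOF: OC; a class has at most `N / q + 1` elements in `(u, u + N]`;
Cauchy-Schwarz; `φ(q) ≤ q`. -/
def StMSQ : Prop := ∀ (q : ℕ) [NeZero q] (u N : ℕ) (F : ℕ → ℂ),
  ∑ χ : DirichletCharacter ℂ q, ‖∑ n ∈ Ioc u (u + N), F n * χ (n : ZMod q)‖ ^ 2 ≤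
    (N + q) * ∑ n ∈ Ioc u (u + N), ‖F n‖ ^ 2

/-- GEX: expansion of an exponential sum.  PROOF: insert the definition of `Gs`, exchange the
sums: `∑_χ χ(n) conj χ(x) = φ(q) [n ≡ x mod q]` for `n` coprime to `q`, so the right side is
`∑_n F n ex (x_n i / q)` with `x_n = n mod q`, and `ex (x_n i / q) = ex (n i / q)`. -/
def StGEX : Prop := ∀ (q : ℕ) [NeZero q] (s : Finset ℕ) (F : ℕ → ℂ) (i : ℤ),
  (∀ n ∈ s, F n ≠ 0 → Nat.Coprime n q) →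
  ∑ n ∈ s, F n * ex (n * i / q) =
    ∑ χ : DirichletCharacter ℂ q, (∑ n ∈ s, F n * χ (n : ZMod q)) * Gs χ i

/-- GUN: periodicity, multiplication by units, the norm of values.  PROOF: `ex` has period `1`;
for the second part substitute `y = u x` in `Gs` (a permutation of the residues modulo `q`):
`conj χ(x) = conj χ(y) χ(u)`. -/
def StGUN : Prop := ∀ (q : ℕ) [NeZero q] (χ : DirichletCharacter ℂ q),
  (∀ i : ℤ, Gs χ (i + q) = Gs χ i) ∧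
  (∀ u i : ℤ, IsCoprime u (q : ℤ) → Gs χ (u * i) = χ (u : ZMod q) * Gs χ i) ∧
  (∀ u : ℤ, IsCoprime u (q : ℤ) → ‖χ (u : ZMod q)‖ = 1)

/-- GPV: Parseval for the sums `Gs`.  PROOF: `∑_{χ ∈ 𝓖} cf χ Gs χ i = ∑_x b x ex (i x / q)` with
`b x = (1 / φ(q)) ∑_χ cf χ conj χ(x)`; by Parseval (PVI; included here as hypothesis StPVI) the
sum over `i` is `q ∑_x |b x|²` and by orthogonality
`∑_x |∑_χ cf χ conj χ(x)|² = φ(q) ∑_χ |cf χ|²` (`∑_x χ(x) conj ψ(x) = φ(q) [χ = ψ]`).  For the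
second part: `h + j v`, `j < D`, are distinct modulo `q = D v` and `Gs` has period `q`. -/
def StGPV : Prop := ∀ (D v : ℕ) [NeZero (D * v)] (𝓖 : Finset (DirichletCharacter ℂ (D * v)))
  (cf : DirichletCharacter ℂ (D * v) → ℂ) (h : ℤ), 1 ≤ D → 1 ≤ v →
  ∑ i ∈ range (D * v), ‖∑ χ ∈ 𝓖, cf χ * Gs χ i‖ ^ 2 =
    ((D * v : ℕ) : ℝ) / Nat.totient (D * v) * ∑ χ ∈ 𝓖, ‖cf χ‖ ^ 2 ∧
  ∑ j ∈ range D, ‖∑ χ ∈ 𝓖, cf χ * Gs χ (h + j * v)‖ ^ 2 ≤
    ((D * v : ℕ) : ℝ) / Nat.totient (D * v) * ∑ χ ∈ 𝓖, ‖cf χ‖ ^ 2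

/-- GSU: sup bound.  PROOF: let `δ = gcd(i, q)`, `q' = q / δ`.  If `χ` does not factor through
`q'` there is a unit `u ≡ 1 mod q'` with `χ(u) ≠ 1`; `u i ≡ i mod q`, so
`Gs χ i = Gs χ (u i) = χ(u) Gs χ i` and `Gs χ i = 0`.  Otherwise `R < q'` by hypothesis.  Then
`|Gs χ (u i)| = |Gs χ i|` for all units `u` (GUN) and the `u i mod q` take exactly `φ(q')`
different values (the residues `δ w` with `w` a unit modulo `q'`; it is enough that for every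
unit `w` mod `q'` the residue `δ w` is `u i` for a unit `u`, by surjectivity of
`(Z/q)ˣ → (Z/q')ˣ`, `ZMod.unitsMap_surjective`), so by Parseval (GPV with `D = q`, `v = 1`, or
PVI directly)
`φ(q') |Gs χ i|² ≤ ∑_{i'} |Gs χ i'|² = q / φ(q)`, and `φ(q') ≥ q' / (1 + log₂ q')`,
`q / φ(q) ≤ 1 + log₂ q` (PHI). -/
def StGSU : Prop := ∀ (q : ℕ) [NeZero q] (χ : DirichletCharacter ℂ q) (R : ℝ) (i : ℤ), 0 < R →
  Deep R χ → ‖Gs χ i‖ ^ 2 ≤ (1 + Nat.log 2 q) ^ 2 / R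

/-- DUA: averaging over units.  PROOF: write `Φ(d)` for the sum on the left.  For `u` coprime to
`N` with `u ≡ 1 mod v`, the map `i ↦ u i` permutes the residues modulo `N` which are
`≡ h mod v` (these are the `h + j v`, `j < N / v`), so
`Φ(u d) = ∑_i g(i) ex (-d u i / N) = ∑_{i} g(u⁻¹ i) ex (-d i / N)` has the same absolute value
as `Φ(d)`.  The number of such `u` modulo `N` is at least `φ(N) / φ(v) ≥ φ(N) / v` (kernel of
`(Z/N)ˣ → (Z/v)ˣ`), and each residue `d' mod N` is `u d` for at most `gcd(d, N)` residues `u`.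
Hence `(φ(N) / v) |Φ(d)|² ≤ gcd(d, N) ∑_{d' mod N} |Φ(d')|²` and by Parseval
`∑_{d' mod N} |Φ(d')|² = N ∑_j |g(h + j v)|²`. -/
def StDUA : Prop := ∀ (N v : ℕ) (h d : ℤ) (g : ℤ → ℂ) (ω : ℤ → ℂ), 1 ≤ N → 1 ≤ v → v ∣ N →
  (∀ i, g (i + N) = g i) →
  (∀ u : ℤ, IsCoprime u (N : ℤ) → ‖ω u‖ = 1 ∧ ∀ i, g (u * i) = ω u * g i) →
  ‖∑ j ∈ range (N / v), g (h + j * v) * ex (-(d * (h + j * v) / N))‖ ^ 2 ≤
    v * Int.gcd d N * (N / Nat.totient N) * ∑ j ∈ range (N / v), ‖g (h + j * v)‖ ^ 2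

/-- TRG: the triple sum.  PROOF: DUA with `N = a b c v` (`N / v = a b c`) and
`g i = Gs χ₁ i * Gs χ₂ i * conj (Gs χ₃ i)`, `ω u = χ₁(u) χ₂(u) conj χ₃(u)` (GUN; `b c v` etc.
divide `N`).  Suppose `χ₁` is deep: by GSU `|g i|² ≤ ((1 + log₂ N)² / R) |Gs χ₂ i|² |Gs χ₃ i|²`.
The map `j mod a b c ↦ (j mod a c, j mod a b)` is injective and `Gs χ₂ (h + j v)` depends only
on `j mod a c`, `Gs χ₃ (h + j v)` only on `j mod a b`; so
`∑_j |Gs χ₂|² |Gs χ₃|² ≤ ∑_{j < a c} |Gs χ₂|² ∑_{j < a b} |Gs χ₃|² ≤ (1 + log₂ N)²` by the second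
part of GPV (with `𝓖 = {χ}`) and PHI.  Finally `N / φ(N) ≤ 1 + log₂ N` and
`gcd(d, a b c v) ≤ gcd(d, a b c) v`.  The cases `χ₂` or `χ₃` deep are the same. -/
def StTRG : Prop := ∀ (a b c v : ℕ) [NeZero (b * c * v)] [NeZero (a * c * v)]
  [NeZero (a * b * v)] (χ₁ : DirichletCharacter ℂ (b * c * v))
  (χ₂ : DirichletCharacter ℂ (a * c * v)) (χ₃ : DirichletCharacter ℂ (a * b * v))
  (R : ℝ) (h d : ℤ), 1 ≤ a → 1 ≤ b → 1 ≤ c → 1 ≤ v → PCop a b c → 0 < R →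
  (Deep R χ₁ ∨ Deep R χ₂ ∨ Deep R χ₃) →
  ‖∑ j ∈ range (a * b * c), Gs χ₁ (h + j * v) * Gs χ₂ (h + j * v) * conj (Gs χ₃ (h + j * v)) *
    ex (-(d * (h + j * v) / (a * b * c * v : ℕ)))‖ ^ 2 ≤
    v ^ 2 * Int.gcd d (a * b * c : ℕ) * (1 + Nat.log 2 (a * b * c * v)) ^ 5 / R

end Pool.Agent.Helper49.PC
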